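import Pool.Agent.P.MP_67c9d4_al.FC.Iface2

/-! Adding free letters of given heights to a tower. -/

namespace Pool.Agent.P.MP_67c9d4_al.FC

open Equiv Wr Multiplicative TD

namespace ADDFx

/-- Twisting by powers of the extra letter. -/
def tw {W Ω : Type} [Group W] (d : Ω → ℤ) (τ : Option Ω → W) : Option Ω → W
  | none => τ none
  | some ω => τ (some ω) * τ none ^ d ω

lemma isFr_tw {C H Ω : Type} [Group C] [Group H] {i : C →* H} {τ : Option Ω → H} (h : IsFr i τ)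
    (d : Ω → ℤ) : IsFr i (tw d τ) := by
  refine ⟨?_, fun W _ f y => ?_⟩
  · rw [eq_top_iff, ← h.gen, Subgroup.closure_le]
    have h1 : ∀ o, tw d τ o ∈ Subgroup.closure (Set.range i ∪ Set.range (tw d τ)) := fun o =>
      Subgroup.subset_closure (Or.inr ⟨o, rfl⟩)
    rintro _ (hc | ⟨_ | ω, rfl⟩)
    · exact Subgroup.subset_closure (Or.inl hc)
    · exact h1 none
    · exact (Subgroup.mul_mem_cancel_right _ (Subgroup.zpow_mem _ (h1 none) (d ω))).1
        (h1 (some ω))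
  · obtain ⟨F, h1, h2⟩ := h.up W f (tw (fun ω => -d ω) y)
    refine ⟨F, h1, ?_⟩
    rintro (_ | ω)
    · exact h2 none
    · simp [tw, h2]

end ADDFx

theorem s_ADDF (hADDV : S_ADDV) (hPTW : S_PTW) : S_ADDF := by
  rintro C Ω _ e ⟨V, _, j, n, h⟩
  obtain ⟨H, i, j', h1, h2, h3, -⟩ := hADDV V (Option Ω) C j n h
  have h4 : ∀ v, H.χ (j' (FreeGroup.of v)) = ofAdd 1 := fun v =>
    ((hPTW _ _ _ _ _ h1).1 _).trans (FreeGroup.lift_apply_of ..)
  refine ⟨H, ⟨_, inferInstance, j', n, h1⟩, i, _,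
    ADDFx.isFr_tw h2 fun ω => (e ω).toAdd - 1, h3, fun ω => ?_⟩
  rw [ADDFx.tw, map_mul, map_zpow, h4, h4, ← ofAdd_zsmul, ← ofAdd_add]
  simp

end Pool.Agent.P.MP_67c9d4_al.FC
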