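import Pool.Agent.P.MP_67c9d4_al.FC.Iface2

/-! Adding free vertices to the base of a tower of HNN extensions. -/

namespace Pool.Agent.P.MP_67c9d4_al.FC

open Equiv Wr Multiplicative TD

namespace ADDVx

lemma base (V Ω : Type) : IsFr (FreeGroup.map (Sum.inl : V → V ⊕ Ω))
    (fun ω : Ω => FreeGroup.of (Sum.inr ω : V ⊕ Ω)) := by
  refine ⟨?_, fun W _ f y => ⟨FreeGroup.lift (Sum.elim (fun v => f (FreeGroup.of v)) y),
    fun c => ?_, fun ω => by simp⟩⟩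
  · rw [eq_top_iff, ← FreeGroup.closure_range_of, Subgroup.closure_le]
    rintro _ ⟨v | ω, rfl⟩
    · exact Subgroup.subset_closure (Or.inl ⟨FreeGroup.of v, by simp⟩)
    · exact Subgroup.subset_closure (Or.inr ⟨ω, rfl⟩)
  · have : (FreeGroup.lift (Sum.elim (fun v => f (FreeGroup.of v)) y)).comp
        (FreeGroup.map (Sum.inl : V → V ⊕ Ω)) = f := by
      ext v; simp
    exact DFunLike.congr_fun this c

lemma step {C₀ C H₀ H Ω : Type} [Group C₀] [Group C] [Group H₀] [Group H] {i₀ : C₀ →* C}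
    {a y : C₀} {s : C} {i₁ : C₀ →* H₀} {x : Ω → H₀} {i₂ : H₀ →* H} {s' : H} {i : C →* H}
    (h₀ : IsHNN i₀ a y s) (hF : IsFr i₁ x) (h₂ : IsHNN i₂ (i₁ a) (i₁ y) s')
    (e1 : ∀ c, i (i₀ c) = i₂ (i₁ c)) (e2 : i s = s') : IsFr i (fun ω => i₂ (x ω)) := by
  refine ⟨?_, fun W _ f z => ?_⟩
  · rw [eq_top_iff, ← h₂.gen, Subgroup.closure_le]
    rintro w (⟨w, rfl⟩ | rfl)
    · have h1 : ⊤ ≤ (Subgroup.closure (Set.range i ∪ Set.range fun ω => i₂ (x ω))).comap i₂ := by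
        rw [← hF.gen, Subgroup.closure_le]
        rintro w (⟨w, rfl⟩ | ⟨ω, rfl⟩)
        · exact Subgroup.subset_closure (Or.inl ⟨_, e1 w⟩)
        · exact Subgroup.subset_closure (Or.inr ⟨ω, rfl⟩)
      exact h1 trivial
    · exact Subgroup.subset_closure (Or.inl ⟨_, e2⟩)
  · obtain ⟨F₀, h1, h2⟩ := hF.up W (f.comp i₀) z
    obtain ⟨F, h3, h4⟩ := h₂.up W F₀ (f s) (by
      rw [h1, h1, MonoidHom.comp_apply, MonoidHom.comp_apply, ← map_inv, ← map_mul, ← map_mul,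
        h₀.rel])
    refine ⟨F, fun c => DFunLike.congr_fun (h₀.ext (F := F.comp i) (fun c => ?_) ?_) c,
      fun ω => (h3 _).trans (h2 ω)⟩
    · rw [MonoidHom.comp_apply, e1, h3, h1, MonoidHom.comp_apply]
    · rw [MonoidHom.comp_apply, e2, h4]

end ADDVx

theorem s_ADDV (hHEX : S_HEX) : S_ADDV := by
  intro V Ω C j n hT
  induction hT with
  | base =>
    refine ⟨B0 (V ⊕ Ω), FreeGroup.map Sum.inl, MonoidHom.id _, PTow.base, ADDVx.base V Ω,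
      fun c => ?_, fun v => (FreeGroup.map.of (f := (Sum.inl : V → V ⊕ Ω))).symm⟩
    have : (FreeGroup.lift fun _ : V ⊕ Ω => (ofAdd 1 : MZ)).comp
        (FreeGroup.map (Sum.inl : V → V ⊕ Ω)) = FreeGroup.lift fun _ : V => (ofAdd 1 : MZ) := by
      ext v; simp
    exact DFunLike.congr_fun this c
  | @step C₀ C j₀ n i₀ a y s hT hc ha hy hH hχ hs ih =>
    obtain ⟨H₀, i₁, j₀', h1, h2, h3, h4⟩ := ih
    obtain ⟨H, i₂, s', h5, h6, h7⟩ := hHEX H₀ (i₁ a) (i₁ y) (by rw [h3, h3, ha, hy])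
    obtain ⟨i, e1, e2⟩ := hH.up H.H (i₂.comp i₁) s' h5.rel
    have h8 := ADDVx.step hH h2 h5 e1 e2
    refine ⟨H, i, i₂.comp j₀', PTow.step i₂ (i₁ a) (i₁ y) s' h1 ?_ ((h3 _).trans ha)
      ((h3 _).trans hy) h5 h6 h7, h8, fun c => ?_, fun v => ?_⟩
    · obtain ⟨_, ⟨v, rfl⟩, hc⟩ := hc
      exact ⟨FreeGroup.of (Sum.inl v), ⟨_, rfl⟩, by rw [h4]; exact i₁.map_isConj hc⟩
    · refine DFunLike.congr_fun (hH.ext (F := H.χ.comp i) (fun c => ?_) ?_) c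
      · rw [MonoidHom.comp_apply, e1, MonoidHom.comp_apply, h6, h3, hχ]
      · rw [MonoidHom.comp_apply, e2, h7, hs]
    · exact (congrArg i₂ (h4 v)).trans (e1 _).symm

end Pool.Agent.P.MP_67c9d4_al.FC
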