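import Pool.Agent.P.MP_67c9d4_al.FC.Iface2

/-! An amalgam over the integers is a free factor of an HNN extension of the free product. -/

namespace Pool.Agent.P.MP_67c9d4_al.FC

open Equiv Wr Multiplicative TD Monoid

namespace AMFx

lemma fr (P : Type) [Group P] :
    IsFr (Coprod.inl : P →* Coprod P MZ) fun _ : Unit => Coprod.inr (ofAdd 1) := by
  refine ⟨eq_top_iff.2 fun x _ => ?_, fun W _ f y =>
    ⟨Coprod.lift f (zpowersHom W (y ())), fun _ => rfl, fun _ => zpow_one _⟩⟩
  induction x using Coprod.induction_on with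
  | inl p => exact Subgroup.subset_closure (Or.inl ⟨p, rfl⟩)
  | inr n =>
    have e : n = ofAdd (1 : ℤ) ^ n.toAdd := by rw [← ofAdd_zsmul]; simp
    rw [e, map_zpow]
    refine Subgroup.zpow_mem _ (Subgroup.subset_closure ?_) _
    exact Or.inr ⟨(), rfl⟩
  | mul x y a b => exact mul_mem (a trivial) (b trivial)

variable {G : Bool → Type} [∀ i, Group (G i)] {φ : ∀ i, MZ →* G i} {G' : Type} [Group G']
  (J : PushoutI φ →* G') (s : G')

/-- The inclusion of the free product. -/
def i : Coprod (G true) (G false) →* G' :=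
  Coprod.lift (J.comp (PushoutI.of true))
    ((MulAut.conj s⁻¹).toMonoidHom.comp (J.comp (PushoutI.of false)))

lemma i_inl (g : G true) : i J s (Coprod.inl g) = J (PushoutI.of true g) := rfl

lemma i_inr (g : G false) : i J s (Coprod.inr g) = s⁻¹ * J (PushoutI.of false g) * s :=
  congrArg (s⁻¹ * J (PushoutI.of false g) * ·) (inv_inv s)

lemma hnn (h : IsFr J fun _ : Unit => s) :
    IsHNN (i J s) (Coprod.inl (φ true (ofAdd 1))) (Coprod.inr (φ false (ofAdd 1))) s := by
  refine ⟨by rw [i_inl, i_inr, PushoutI.of_apply_eq_base, PushoutI.of_apply_eq_base], ?_,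
    fun W _ f w hw => ?_⟩
  · have h1 : ∀ g, i J s g ∈ Subgroup.closure (Set.range (i J s) ∪ {s}) := fun g =>
      Subgroup.subset_closure (Or.inl ⟨g, rfl⟩)
    have h2 : s ∈ Subgroup.closure (Set.range (i J s) ∪ {s}) :=
      Subgroup.subset_closure (Or.inr rfl)
    rw [eq_top_iff, ← h.gen, Subgroup.closure_le]
    rintro _ (⟨p, rfl⟩ | ⟨_, rfl⟩)
    swap
    · exact h2
    induction p using PushoutI.induction_on with
    | of b g =>
      cases b
      · have h3 := mul_mem (mul_mem h2 (h1 (Coprod.inr g))) (inv_mem h2)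
        rwa [i_inr, ← mul_assoc, mul_inv_cancel_right, mul_inv_cancel_left] at h3
      · exact h1 (Coprod.inl g)
    | base n =>
      rw [← PushoutI.of_apply_eq_base φ true]
      exact h1 (Coprod.inl _)
    | mul x y a b =>
      rw [map_mul]
      exact mul_mem a b
  · let f' : ∀ b, G b →* W := fun b => match b with
      | true => f.comp Coprod.inl
      | false => (MulAut.conj w).toMonoidHom.comp (f.comp Coprod.inr)
    have h1 : ∀ b, (f' b).comp (φ b) = (f.comp Coprod.inl).comp (φ true) := fun b => by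
      cases b
      · refine MonoidHom.ext_mint ?_
        change w * f (Coprod.inr (φ false (ofAdd 1))) * w⁻¹ = f (Coprod.inl (φ true (ofAdd 1)))
        rw [← hw]
        group
      · rfl
    obtain ⟨F, h2, h3⟩ := h.up W (PushoutI.lift f' _ h1) fun _ => w
    refine ⟨F, fun g => ?_, h3 ()⟩
    induction g using Coprod.induction_on with
    | inl g => rw [i_inl, h2, PushoutI.lift_of]; rfl
    | inr g =>
      rw [i_inr, map_mul, map_mul, map_inv, h3 (), h2, PushoutI.lift_of]
      change w⁻¹ * (w * f (Coprod.inr g) * w⁻¹) * w = _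
      group
    | mul x y a b => rw [map_mul, map_mul, map_mul, a, b]

lemma chi (χ' : G' →* MZ) (χ : PushoutI φ →* MZ) (h : ∀ p, χ' (J p) = χ p) :
    (χ'.comp (i J s)).comp Coprod.inr = χ.comp (PushoutI.of false) := by
  refine MonoidHom.ext fun g => ?_
  change χ' (i J s (Coprod.inr g)) = χ (PushoutI.of false g)
  rw [i_inr, map_mul, map_mul, map_inv, inv_mul_cancel_comm, h]

end AMFx

theorem s_AMF : S_AMF := fun _ _ _ χ =>
  ⟨_, inferInstance, AMFx.i _ _, _, Coprod.inl, Coprod.lift χ 1, AMFx.hnn _ _ (AMFx.fr _),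
    AMFx.fr _, rfl, rfl, AMFx.chi _ _ _ _ fun _ => rfl⟩

end Pool.Agent.P.MP_67c9d4_al.FC
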