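import Pool.Agent.P.MP_67c9d4_al.FC.Iface

/-! Approximate solutions of coset conditions are close to exact solutions. -/

namespace Pool.Agent.P.MP_67c9d4_al.FC

open Equiv Wr Multiplicative TD

theorem s_APX (hPIN : S_PIN) : S_APX := by
  intro H ι _ _ A i₀ j₁ j₂ w hA hI K hK
  obtain ⟨S, hS, -, hP⟩ := hPIN H _ _ _ hI (w i₀ * (w j₁)⁻¹) (w i₀ * (w j₂)⁻¹)
  have := hS.to_subtype
  obtain ⟨N₁, h1, h2⟩ := FN.exists_forall (J := S) (p := fun s N =>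
    (∀ i, s * w i₀ * (w i)⁻¹ ∈ A i ⊔ N) → ∀ i, s * w i₀ * (w i)⁻¹ ∈ A i)
    (fun s N N' le h h' => h fun i => sup_le_sup_left le _ (h' i)) fun s => by
      by_cases h : ∀ i, s * w i₀ * (w i)⁻¹ ∈ A i
      · exact ⟨⊤, FN.top, fun _ => h⟩
      · obtain ⟨i, hi⟩ := not_forall.1 h
        obtain ⟨N, hN, h'⟩ := hA i _ hi
        exact ⟨N, hN, fun h'' => absurd (h'' i) h'⟩
  have h3 := hK.inf h1
  obtain ⟨N, h4, h5⟩ := hP _ h3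
  refine ⟨N ⊓ (K ⊓ N₁), h4.inf h3, fun g hg => ?_⟩
  have g1 : ∀ i, A i ⊔ N ⊓ (K ⊓ N₁) ≤ A i ⊔ N := fun i => sup_le_sup_left inf_le_left _
  have g2 : ∀ i, A i ⊔ N ⊓ (K ⊓ N₁) ≤ A i ⊔ N₁ := fun i =>
    sup_le_sup_left (inf_le_right.trans inf_le_right) _
  obtain ⟨a, ha, h6⟩ := (mem_sup_right' (h4.inf h3).1).1 (hg i₀)
  have h7 : a * w i₀ * g⁻¹ ∈ N ⊓ (K ⊓ N₁) := by simpa [mul_assoc] using inv_mem h6
  have h8 : ∀ i, a * (w i₀ * (w i)⁻¹) ∈ A i ⊔ N := fun i => by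
    simpa [mul_assoc] using mul_mem (Subgroup.mem_sup_right h7.1) (g1 i (hg i))
  obtain ⟨s, hs, h9⟩ := h5 a ha (h8 j₁) (h8 j₂)
  have h10 : s * w i₀ * g⁻¹ ∈ K ⊓ N₁ := by
    simpa only [mul_inv_rev, inv_inv, mul_assoc, inv_mul_cancel_left] using
      mul_mem (inv_mem (h3.1.mem_comm h9)) h7.2
  refine ⟨s * w i₀, h2 ⟨s, hs⟩ fun i => ?_, hK.1.mem_comm ?_⟩
  · simpa only [mul_assoc, inv_mul_cancel_left] using
      mul_mem (Subgroup.mem_sup_right h10.2) (g2 i (hg i))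
  · simpa only [mul_inv_rev, inv_inv] using K.inv_mem h10.1

end Pool.Agent.P.MP_67c9d4_al.FC
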