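import Pool.Agent.P.MP_67c9d4_al.FC.Iface

/-! A non-elliptic element has an axis. -/

namespace Pool.Agent.P.MP_67c9d4_al.FC

open Equiv Wr Multiplicative TD

namespace AXISx

variable {H V E : Type} [Group H] {D : TD H V E} {y : H}

/-- Across a backtrack the start of the first edge is the start of the edge after the second. -/
lemma back {a b e : (E × Bool) × H} (h : D.Same ⊥ (D.rev a) (act y b)) (l : D.Lk b e) :
    D.vt a.1 = D.vt e.1 ∧ a.2⁻¹ * (y * (b.2 * D.ε b.1)) ∈ D.G (D.vt e.1) := by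
  have h1 := (same_rev (N := ⊥) inferInstance).2 h
  rw [rev_rev, rev_act] at h1
  obtain ⟨s1, s2⟩ := h1.start
  have s3 : D.vt a.1 = D.vt e.1 := s1.trans l.1
  rw [sup_bot_eq, s3] at s2
  exact ⟨s3, s2⟩

/-- A closed segment can be shortened until it is cyclically reduced. -/
lemma red (hy : ¬D.Ell y) (n : ℕ) : ∀ c : ℕ → (E × Bool) × H, D.Seg c (n + 1) →
    D.Lk (c n) (act y (c 0)) → ∃ (m : ℕ) (c : ℕ → (E × Bool) × H), D.Seg c (m + 1) ∧
      D.Lk (c m) (act y (c 0)) ∧ ¬D.Same ⊥ (D.rev (c m)) (act y (c 0)) := by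
  induction n using Nat.strong_induction_on with
  | _ n ih =>
    intro c hc hl
    by_cases h : D.Same ⊥ (D.rev (c n)) (act y (c 0))
    swap
    · exact ⟨n, c, hc, hl, h⟩
    rcases n with _ | _ | n
    · exact absurd h.1 (bar_ne _)
    · have l := (hc 0 (by omega)).1
      refine absurd ⟨D.vt (c 1).1, (c 0).2 * D.ε (c 0).1, ?_⟩ hy
      have := mul_mem l.2 (back h l).2
      rwa [mul_assoc, mul_inv_cancel_left, ← mul_assoc] at this
    · have l := (hc 0 (by omega)).1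
      have l' := (hc (n + 1) (by omega)).1
      obtain ⟨s1, s2⟩ := back h l
      refine ih n (by omega) (fun i => c (i + 1)) (fun i hi => hc (i + 1) (by omega))
        ⟨l'.1.trans s1, ?_⟩
      have := mul_mem (mul_mem (s1 ▸ l'.2) s2) l.2
      simpa only [act, mul_assoc, mul_inv_cancel_left, mul_inv_rev] using this

/-- The axis through a cyclically reduced closed segment. -/
lemma ax {m : ℕ} {c : ℕ → (E × Bool) × H} (hc : D.Seg c (m + 1)) (hl : D.Lk (c m) (act y (c 0)))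
    (hn : ¬D.Same ⊥ (D.rev (c m)) (act y (c 0))) :
    D.Ax y (fun i => act (y ^ (i / ((m + 1 : ℕ) : ℤ))) (c (i % ((m + 1 : ℕ) : ℤ)).toNat))
      (m + 1) := by
  have l0 : (0 : ℤ) < ((m + 1 : ℕ) : ℤ) := by omega
  have key : ∀ i : ℤ, ∃ (g : H) (a b : (E × Bool) × H),
      act (y ^ (i / ((m + 1 : ℕ) : ℤ))) (c (i % ((m + 1 : ℕ) : ℤ)).toNat) = act g a ∧
      act (y ^ ((i + 1) / ((m + 1 : ℕ) : ℤ))) (c ((i + 1) % ((m + 1 : ℕ) : ℤ)).toNat) = act g b ∧
      D.Lk a b ∧ ¬D.Same ⊥ (D.rev a) b := fun i => by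
    have h0 := Int.emod_nonneg i l0.ne'
    have h1 := Int.emod_lt_of_pos i l0
    have h2 := Int.emod_add_mul_ediv i ((m + 1 : ℕ) : ℤ)
    generalize i % ((m + 1 : ℕ) : ℤ) = r at *
    generalize i / ((m + 1 : ℕ) : ℤ) = q at *
    obtain ⟨r, rfl⟩ := Int.eq_ofNat_of_zero_le h0
    by_cases h : r < m
    · obtain ⟨e1, e2⟩ := (Int.ediv_emod_unique (a := i + 1) (r := ((r + 1 : ℕ) : ℤ)) (q := q) l0).2
        ⟨by push_cast at h2 ⊢; linarith, by omega, by omega⟩
      rw [e1, e2, Int.toNat_natCast, Int.toNat_natCast]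
      exact ⟨_, _, _, rfl, rfl, hc r (by omega)⟩
    · obtain rfl : r = m := by omega
      obtain ⟨e1, e2⟩ := (Int.ediv_emod_unique (a := i + 1) (r := 0) (q := q + 1) l0).2
        ⟨by push_cast at h2 ⊢; linarith, le_rfl, l0⟩
      rw [e1, e2, Int.toNat_natCast, Int.toNat_zero, zpow_add_one, ← act_act]
      exact ⟨_, _, _, rfl, rfl, hl, hn⟩
  refine ⟨m.succ_pos, fun i => ?_, fun i => ?_, fun i => ?_⟩
  · obtain ⟨g, a, b, e1, e2, h, -⟩ := key i
    rw [e1, e2]
    exact (lk_act g).2 h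
  · obtain ⟨g, a, b, e1, e2, -, h⟩ := key i
    rw [e1, e2, rev_act, same_act]
    exact h
  · rw [Int.add_emod_right, Int.add_ediv_of_dvd_right dvd_rfl, Int.ediv_self l0.ne', act_act,
      ← zpow_one_add, add_comm 1]

end AXISx

theorem s_AXIS (hRED : S_RED) : S_AXIS := by
  intro H V E _ D hT v y hy
  rcases hRED H V E D hT v v y with h | ⟨n, c, h1, h2, h3, h4, h5⟩
  · exact absurd (Ell.of_mem h.2) hy
  obtain ⟨m, c', s1, s2, s3⟩ := AXISx.red hy n c h1 ⟨h4.trans h2.symm, by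
    have := mul_mem h5 h3
    rw [mul_assoc, ← h2] at this
    exact this⟩
  exact ⟨_, _, AXISx.ax s1 s2 s3⟩

end Pool.Agent.P.MP_67c9d4_al.FC
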