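import Pool.Agent.P.MP_67c9d4_al.FC.Iface

/-! A finite family of lattice points whose closed subfamilies have sum zero. -/

namespace Pool.Agent.P.MP_67c9d4_al.FC

open Equiv Wr Multiplicative TD

namespace BALLx

theorem signs (m : ℕ) : ∀ u : ℤ, |u| ≤ m → ∃ s : Fin m → ℤ, (∀ c, |s c| ≤ 1) ∧ ∑ c, s c = u := by
  induction m with
  | zero => exact fun u hu => ⟨fun _ => 0, by simp, by simpa [eq_comm] using hu⟩
  | succ m ih =>
    intro u hu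
    obtain ⟨t, h1, h2⟩ : ∃ t : ℤ, |t| ≤ 1 ∧ |u - t| ≤ m := by
      simp only [abs_le] at hu ⊢
      rcases lt_trichotomy u 0 with h | h | h
      exacts [⟨-1, by omega⟩, ⟨0, by omega⟩, ⟨1, by omega⟩]
    obtain ⟨s, h3, h4⟩ := ih _ h2
    refine ⟨Fin.cons t s, fun c => Fin.cases h1 h3 c, ?_⟩
    rw [Fin.sum_cons, h4, add_sub_cancel]

theorem mates {d : ℤ} (hd : 0 < d) (m : ℕ) (hm : d ∣ m + 1) (x : ℤ) (hx : |x| ≤ m) :
    ∃ w : Fin m → ℤ, (∀ c, d ∣ x - w c ∧ |w c| ≤ 2 * d) ∧ ∑ c, w c = -x := by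
  have r0 := Int.emod_nonneg x hd.ne'
  have r1 := Int.emod_lt_of_pos x hd
  have r2 := Int.dvd_self_sub_emod (x := x) (m := d)
  generalize x % d = r at r0 r1 r2
  obtain ⟨u, hu⟩ : d ∣ -x - m * r := by
    have e : -x - m * r = -(x - r) - (m + 1) * r := by ring
    rw [e]
    exact dvd_sub r2.neg_right (hm.mul_right r)
  have m0 : (0 : ℤ) ≤ m := Int.natCast_nonneg m
  rw [abs_le] at hx
  obtain ⟨s, h1, h2⟩ := signs m u (abs_le.2 ⟨by nlinarith, by nlinarith⟩)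
  refine ⟨fun c => r + d * s c, fun c => ⟨?_, ?_⟩, ?_⟩
  · rw [← sub_sub]
    exact dvd_sub r2 (dvd_mul_right _ _)
  · have := abs_le.1 (h1 c)
    exact abs_le.2 ⟨by nlinarith, by nlinarith⟩
  · rw [Finset.sum_add_distrib, ← Finset.mul_sum, h2, ← hu]
    simp

variable {ι : Type} [Fintype ι]

theorem abs_le_q (x : ι → ℤ) (a : ι) : |x a| ≤ x ⬝ᵥ x :=
  le_trans (by nlinarith [Int.le_self_sq |x a|, sq_abs (x a)])
    (Finset.single_le_sum (f := fun a => x a * x a) (fun _ _ => mul_self_nonneg _)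
      (Finset.mem_univ a))

theorem box_finite (C : ℤ) : {x : ι → ℤ | ∀ a, |x a| ≤ C}.Finite :=
  (Set.Finite.pi' fun _ => Set.finite_Icc (-C) C).subset fun _ hx a => abs_le.1 (hx a)

/-- descent to the bounded set `K` -/
theorem down (A : Fin 3 → AddSubgroup (ι → ℤ)) (K : Set (ι → ℤ)) (R : ℤ) (T : (ι → ℤ) → Prop)
    (hK : ∀ x ∉ K, ∃ e, ∃ b ∈ A e, b ⬝ᵥ b < 2 * |x ⬝ᵥ b|)
    (hT : ∀ e x y, T x → x - y ∈ A e → y ⬝ᵥ y ≤ R → T y) (n : ℕ) : ∀ x, (x ⬝ᵥ x).toNat = n →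
    x ⬝ᵥ x ≤ R → ∃ y ∈ K, x - y ∈ A 0 ⊔ A 1 ⊔ A 2 ∧ (T x ↔ T y) := by
  induction n using Nat.strong_induction_on with
  | _ n ih =>
  intro x hn hx
  by_cases h : x ∈ K
  · exact ⟨x, h, by simp, Iff.rfl⟩
  obtain ⟨e, b, hb, h1⟩ : ∃ e, ∃ b ∈ A e, b ⬝ᵥ b < 2 * (x ⬝ᵥ b) := by
    obtain ⟨e, b, hb, h1⟩ := hK x h
    rcases abs_choice (x ⬝ᵥ b) with h2 | h2
    · exact ⟨e, b, hb, h2 ▸ h1⟩
    · exact ⟨e, -b, neg_mem hb, by simpa [h2] using h1⟩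
  have h2 : (x - b) ⬝ᵥ (x - b) < x ⬝ᵥ x := by
    rw [sub_dotProduct, dotProduct_sub, dotProduct_sub, dotProduct_comm b x]
    linarith
  have h3 : 0 ≤ (x - b) ⬝ᵥ (x - b) := Finset.sum_nonneg fun _ _ => mul_self_nonneg _
  obtain ⟨y, h4, h5, h6⟩ := ih _ (by omega) (x - b) rfl (h2.le.trans hx)
  refine ⟨y, h4, ?_, Iff.trans ⟨fun t => hT e _ _ t (by simpa using hb) (h2.le.trans hx),
    fun t => hT e _ _ t (by simpa using hb) hx⟩ h6⟩
  have h7 : b ∈ A 0 ⊔ A 1 ⊔ A 2 := by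
    fin_cases e
    exacts [AddSubgroup.mem_sup_left (AddSubgroup.mem_sup_left hb),
      AddSubgroup.mem_sup_left (AddSubgroup.mem_sup_right hb), AddSubgroup.mem_sup_right hb]
  have e1 : x - y = x - b - y + b := by abel
  exact e1 ▸ add_mem h5 h7

end BALLx

open BALLx Filter in
theorem s_BALL : S_BALL := by
  intro ι J _ _ A h x₀
  classical
  have := Fintype.ofFinite J
  choose D D0 b hb hD using h
  set d := ∏ j, D j with hd
  have d0 : 0 < d := Finset.prod_pos fun j _ => D0 j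
  have hL : ∀ j (z : ι → ℤ), (∀ a, d ∣ z a) → z ∈ A j 0 ⊔ A j 1 ⊔ A j 2 := fun j z hz => by
    choose k hk using fun a => (Finset.dvd_prod_of_mem D (Finset.mem_univ j)).trans (hz a)
    rw [show z = D j • k from funext hk, hD, Fin.sum_univ_three]
    exact AddSubgroup.add_mem_sup (AddSubgroup.add_mem_sup (hb _ _ _) (hb _ _ _)) (hb _ _ _)
  obtain ⟨C, c1, c2⟩ : ∃ C : ℤ, 2 * d ≤ C ∧ ∀ j a,
      ∑ e, b j (Pi.single a 1) e ⬝ᵥ b j (Pi.single a 1) e ≤ C :=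
    ((eventually_ge_atTop _).and (eventually_all.2 fun j => eventually_all.2 fun a =>
      eventually_ge_atTop _)).exists
  set K := {x : ι → ℤ | ∀ a, |x a| ≤ C} with hK
  have k1 : ∀ j, ∀ x ∉ K, ∃ e, ∃ y ∈ A j e, y ⬝ᵥ y < 2 * |x ⬝ᵥ y| := fun j x hx => by
    by_contra hn
    push Not at hn
    refine hx fun a => le_trans ?_ (c2 j a)
    have e : D j * x a = ∑ e, x ⬝ᵥ b j (Pi.single a 1) e := by
      rw [← dotProduct_sum, ← hD, dotProduct_smul, dotProduct_single_one, smul_eq_mul]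
    have h1 : |x a| ≤ |D j * x a| := by
      rw [abs_mul, abs_of_pos (D0 j)]
      exact le_mul_of_one_le_left (abs_nonneg _) (D0 j)
    refine h1.trans (e ▸ (Finset.abs_sum_le_sum_abs _ _).trans (Finset.sum_le_sum fun e _ => ?_))
    linarith [hn e _ (hb j (Pi.single a 1) e), abs_nonneg (x ⬝ᵥ b j (Pi.single a 1) e)]
  obtain ⟨R, r0, r1, r2⟩ : ∃ R : ℤ, x₀ ⬝ᵥ x₀ ≤ R ∧ (∀ y ∈ K, y ⬝ᵥ y ≤ R) ∧ ∀ j, ∀ y ∈ K, ∀ y' ∈ K,
      y - y' ∈ A j 0 ⊔ A j 1 ⊔ A j 2 → ∃ p p', p ⬝ᵥ p ≤ R ∧ p' ⬝ᵥ p' ≤ R ∧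
        y - p ∈ A j 0 ∧ p - p' ∈ A j 1 ∧ p' - y' ∈ A j 2 := by
    refine ((eventually_ge_atTop _).and (((eventually_all_finite (box_finite C)).2 fun y _ =>
      eventually_ge_atTop _).and (eventually_all.2 fun j => (eventually_all_finite
        (box_finite C)).2 fun y _ => (eventually_all_finite (box_finite C)).2 fun y' _ =>
          eventually_imp_distrib_left.2 fun hy => ?_))).exists
    obtain ⟨_, h1, a2, h2, h3⟩ := AddSubgroup.mem_sup.1 hy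
    obtain ⟨a0, h4, a1, h5, rfl⟩ := AddSubgroup.mem_sup.1 h1
    filter_upwards [eventually_ge_atTop ((y - a0) ⬝ᵥ (y - a0)),
      eventually_ge_atTop ((y - a0 - a1) ⬝ᵥ (y - a0 - a1))] with R h6 h7
    refine ⟨_, _, h6, h7, by simpa using h4, by simpa using h5, ?_⟩
    rwa [sub_right_comm _ a1, sub_right_comm _ a0, ← h3, add_assoc, add_sub_cancel_left,
      add_sub_cancel_left]
  have R0 : 0 ≤ R := le_trans (Finset.sum_nonneg fun _ _ => mul_self_nonneg _) r0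
  obtain ⟨m, m1, m2⟩ : ∃ m : ℕ, d ∣ m + 1 ∧ R ≤ m := by
    have : R ≤ d * (R + 1) - 1 := by nlinarith
    exact ⟨(d * (R + 1) - 1).toNat, ⟨R + 1, by omega⟩, by omega⟩
  have := ((box_finite R).subset (t := {x : ι → ℤ | x ⬝ᵥ x ≤ R}) fun x hx a =>
    (abs_le_q x a).trans hx).fintype
  choose w w1 w2 using fun (x : {x : ι → ℤ | x ⬝ᵥ x ≤ R}) a =>
    mates d0 m m1 (x.1 a) ((abs_le_q x.1 a).trans (le_trans x.2 m2))
  let val : {x : ι → ℤ | x ⬝ᵥ x ≤ R} × Option (Fin m) → ι → ℤ := fun f =>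
    f.2.elim f.1.1 fun c a => w f.1 a c
  refine ⟨_, inferInstance, val, (⟨x₀, r0⟩, none), rfl, fun j S hS => ?_⟩
  let T : (ι → ℤ) → Prop := fun x => ∃ f ∈ S, val f = x
  have t1 : ∀ e x y, T x → x - y ∈ A j e → y ⬝ᵥ y ≤ R → T y := by
    rintro e _ y ⟨f, hf, rfl⟩ h1 h2
    exact ⟨(⟨y, h2⟩, none), hS e f _ h1 hf, rfl⟩
  have t2 : ∀ x x', x ⬝ᵥ x ≤ R → x' ⬝ᵥ x' ≤ R → (∀ a, d ∣ (x - x') a) → T x → T x' := by
    intro x x' h1 h2 h3 t
    obtain ⟨y, a1, a2, a3⟩ := down (A j) K R T (k1 j) t1 _ x rfl h1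
    obtain ⟨y', b1, b2, b3⟩ := down (A j) K R T (k1 j) t1 _ x' rfl h2
    have e : y - y' = x - x' - (x - y) + (x' - y') := by abel
    obtain ⟨p, p', p1, p2, p3, p4, p5⟩ := r2 j y a1 y' b1
      (e ▸ add_mem (sub_mem (hL j _ h3) a2) b2)
    exact b3.2 (t1 2 _ _ (t1 1 _ _ (t1 0 _ _ (a3.1 t) p3 p1) p4 p2) p5 (r1 _ b1))
  have t3 : ∀ f, T (val f) ↔ f ∈ S :=
    fun f => ⟨fun ⟨g, h1, h2⟩ => hS 0 g f (by simp [h2]) h1, fun h => ⟨f, h, rfl⟩⟩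
  have t4 : ∀ x o, (x, o) ∈ S ↔ (x, none) ∈ S := by
    rintro x (_ | c)
    · rfl
    have h1 := r1 (val (x, some c)) fun a => (w1 x a c).2.trans c1
    rw [← t3, ← t3]
    exact ⟨t2 _ _ h1 x.2 fun a => dvd_sub_comm.1 (w1 x a c).1, t2 _ _ x.2 h1 fun a => (w1 x a c).1⟩
  rw [← Finset.univ_inter S, ← Finset.sum_ite_mem, Fintype.sum_prod_type]
  refine Finset.sum_eq_zero fun x _ => ?_
  simp only [t4 x, Finset.sum_ite_irrel, Finset.sum_const_zero, Fintype.sum_option]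
  split_ifs
  · funext a
    simp [val, w2]
  · rfl

end Pool.Agent.P.MP_67c9d4_al.FC
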