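import Pool.Agent.P.MP_67c9d4_al.FC.Iface

/-! Elliptic elements of height one in the base group. -/

namespace Pool.Agent.P.MP_67c9d4_al.FC

open Equiv Wr Multiplicative TD

theorem s_BELL : S_BELL := by
  intro B V A K _ χ b D h
  refine ⟨fun v => ⟨some (.inl v), 1, ?_⟩, ?_⟩
  · rw [h.g2, b.mem_Gv]
    exact ⟨1, Subgroup.one_mem _, 1, by simp⟩
  rintro y hy ⟨u, p, hp⟩
  have e0 : χ (p⁻¹ * y * p) = ofAdd 1 := by
    rw [map_mul, map_mul, map_inv, inv_mul_cancel_comm, hy]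
  have e1 : ∃ v, p⁻¹ * y * p ∈ b.Gv v := by
    rcases u with _ | v | k
    · rw [h.g1, Subgroup.mem_bot] at hp
      rw [hp, map_one] at e0
      simpa using congrArg toAdd e0
    · exact ⟨v, h.g2 v ▸ hp⟩
    · exact ⟨_, b.Pl_le _ (h.g3 k ▸ hp)⟩
  obtain ⟨v, hv⟩ := e1
  obtain ⟨w, hw, i, e⟩ := b.mem_Gv.1 hv
  have e2 : i = 1 := by
    rw [e, map_mul, b.cl, map_zpow, b.ct, one_mul] at e0
    simpa using congrArg toAdd e0
  rw [e2, zpow_one] at e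
  have e3 : p * (b.ℓ w * b.t v) * p⁻¹ = y := by
    rw [← e]
    group
  refine ⟨fun hg => hg.2.2 v (isConj_iff.2 ⟨p, ?_⟩), v, w, hw, isConj_iff.2 ⟨p, e3⟩⟩
  refine hg.2.1.eq hy ?_ one_ne_zero ?_
  · rw [map_mul, map_mul, map_inv, mul_inv_cancel_comm, b.ct]
  · rw [zpow_one, ← e3]
    exact ((b.rel.comm hw).symm.mul_right (Commute.refl _)).map (MulAut.conj p)

end Pool.Agent.P.MP_67c9d4_al.FC
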