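import Pool.Agent.P.MP_67c9d4_al.FC.Iface

namespace Pool.Agent.P.MP_67c9d4_al.FC

open Equiv Wr Multiplicative TD

theorem s_BGOOD (hRHO : S_RHO) (hBTD : S_BTD) (hBVP : S_BVP) (hRFV : S_RFV) (hBSP : S_BSP)
    (hBIND : S_BIND) (hBELL : S_BELL) (hCORE : S_CORE) (hHO1 : S_HO1) (hHOJ : S_HOJ)
    (hTO2 : S_TO2) (hMAL : S_MAL) : S_BGOOD := by
  intro B V A K _ χ b hb
  have hρ := hRHO B V A K χ b hb
  obtain ⟨D, hD⟩ := hBTD B V A K χ b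
  obtain ⟨vp, vt⟩ := hBVP B V A K χ b hρ
  have sp := hBSP B V A K χ b hb (hRFV B vp) D hD
  have ind := hBIND B V A K χ b hρ D hD
  obtain ⟨e1, e2⟩ := hBELL B V A K χ b D hD
  have ne : ∀ y, Gen χ b.t y → ¬D.Ell y := fun y hy h => (e2 y hy.1 h).1 hy
  have core : ∀ y, Gen χ b.t y → ∀ Z : Set B, Z.Finite → (∀ z ∈ Z, Gen χ b.t z ∧ ¬IsConj y z) →
      ∀ H₀, FN H₀ → CoreOut y Z {g | D.Ell g} H₀ := fun y hy Z hZ h H₀ h0 =>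
    hCORE B _ _ D χ hD.tree sp ind none y (ne y hy) hy.1 hy.2.1 Z hZ
      (fun z hz => ⟨(h z hz).1.1, (h z hz).2⟩) H₀ h0
  have sub : ∀ Z : Set B, ∀ z ∈ Z ∪ Set.range b.t, ∃ z₀ ∈ Z ∪ {g | D.Ell g}, IsConj z₀ z := by
    rintro Z z (hz | ⟨v, rfl⟩)
    · exact ⟨z, Or.inl hz, IsConj.refl _⟩
    · exact ⟨_, Or.inr (e1 v), IsConj.refl _⟩
  refine ⟨⟨b.ct, fun y hy Z hZ h H₀ h0 => (hHO1 B y Z _ H₀ (core y hy Z hZ h H₀ h0)).mono (sub Z),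
    fun v Y hY h => hTO2 B _ _ D χ hD.tree sp ind Y hY (fun y hy => ne y (h y hy)) _ (e1 v) ?_,
    fun y hy Z hZ h => (hHOJ B y Z _ ⊤ (core y hy Z hZ h ⊤ FN.top)).mono (sub Z), vp, vt⟩,
    fun y hy => ?_⟩
  · rw [b.ct]
    exact fun h => one_ne_zero (α := ℤ) (congrArg toAdd h)
  · by_cases h : D.Ell y
    · exact Or.inr (e2 y hy h).2
    · exact Or.inl ⟨hy, hMAL B _ _ D χ hD.tree ind none y h hy, fun v c => h ((e1 v).conj c)⟩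

end Pool.Agent.P.MP_67c9d4_al.FC
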