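import Pool.Agent.P.MP_67c9d4_al.FC.Iface

/-! Independence of the edge groups in the base. -/

namespace Pool.Agent.P.MP_67c9d4_al.FC

open Equiv Wr Multiplicative TD

namespace BINDx

section groups
variable {H : Type} [Group H]

lemma exp_zero {K B : Subgroup H} [K.FiniteIndex] {f : K →* MZ} {a τ : H}
    (h1 : ∀ b : K, (b : H) ∈ B → f b = 1) (h2 : ∀ (M : ℤ) (h : a ^ M ∈ K), M ≠ 0 → f ⟨_, h⟩ ≠ 1)
    (hτ : τ ∈ B) (hc : Commute a τ) {i j : ℤ} {g : H} (hg : g = a ^ i * τ ^ j) {M : ℕ}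
    (hM : g ^ M ∈ K) (h0 : 0 < M) (h3 : f ⟨_, hM⟩ = 1) : i = 0 := by
  obtain ⟨n, hn, -, h4⟩ := K.exists_pow_mem_of_index_ne_zero Subgroup.FiniteIndex.index_ne_zero τ
  have e : a ^ (i * M * n) = (g ^ M) ^ n * ((τ ^ n) ^ (j * M))⁻¹ := by
    rw [hg, (hc.zpow_zpow i j).mul_pow, ((hc.zpow_zpow i j).pow_pow M M).mul_pow]
    simp only [← zpow_natCast, ← zpow_mul]
    rw [show (n : ℤ) * (j * M) = j * M * n by ring, mul_inv_cancel_right]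
  have h5 : a ^ (i * M * n) ∈ K := e ▸ mul_mem (pow_mem hM n) (inv_mem (zpow_mem h4 _))
  by_contra hi
  refine h2 _ h5 (mul_ne_zero (mul_ne_zero hi (by exact_mod_cast h0.ne')) (by exact_mod_cast hn.ne'))
    ?_
  have e' : (⟨_, h5⟩ : K) = ⟨_, hM⟩ ^ n * (⟨_, h4⟩ ^ (j * M))⁻¹ := Subtype.ext e
  rw [e', map_mul, map_pow, h3, map_inv, map_zpow, h1 ⟨_, h4⟩ (pow_mem hτ n)]
  simp

lemma ind3 {A B₁ B₂ : Subgroup H} {a₁ a₂ τ₁ τ₂ : H} {ν : ℤ} (h₁ : Ind1 a₁ B₁) (h₂ : Ind1 a₂ B₂)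
    (t₁ : τ₁ ∈ B₁) (t₂ : τ₂ ∈ B₂) (c₁ : Commute a₁ τ₁) (c₂ : Commute a₂ τ₂) (hν : ν ≠ 0)
    (h : ∀ a ∈ A, ∃ i j : ℤ, a = a₁ ^ i * τ₁ ^ j ∧ a = a₂ ^ (i + ν * j) * τ₂ ^ j) :
    Ind3 A B₁ B₂ := by
  obtain ⟨K₁, _, f₁, p₁, q₁⟩ := h₁
  obtain ⟨K₂, _, f₂, p₂, q₂⟩ := h₂
  refine ⟨K₁ ⊓ K₂, inferInstance, f₁.comp (Subgroup.inclusion inf_le_left),
    f₂.comp (Subgroup.inclusion inf_le_right), fun b hb => p₁ _ hb, fun b hb => p₂ _ hb,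
    fun a ha M hM h0 e₁ e₂ => ?_⟩
  obtain ⟨i, j, h1, h2⟩ := h a ha
  have h3 := exp_zero p₁ q₁ t₁ c₁ h1 hM.1 h0 e₁
  have h4 := exp_zero p₂ q₂ t₂ c₂ h2 hM.2 h0 e₂
  rw [h3, zero_add] at h4
  rw [h1, h3, (mul_eq_zero.1 h4).resolve_left hν, zpow_zero, zpow_zero, mul_one]

lemma cj_self {A : Subgroup H} {c : H} (h : c ∈ A) : cj c A = A := by
  ext g
  rw [mem_cj, Subgroup.mul_mem_cancel_right _ h, Subgroup.mul_mem_cancel_left _ (inv_mem h)]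

lemma comm_conj {a τ : H} (h : Commute a τ) (u : H) : Commute (u * a * u⁻¹) (u * τ * u⁻¹) :=
  h.map (MulAut.conj u)

end groups

variable {B V A K : Type} [Group B] {χ : B →* MZ} {b : BS χ V A K}

lemma t_mem {k : K} {v : V} (h : v = b.vt k) : b.t v ∈ b.Pl k :=
  h ▸ Subgroup.mem_sup_right (Subgroup.mem_zpowers _)

lemma pl_comm {k : K} {x y : B} (hx : x ∈ b.Pl k) (hy : y ∈ b.Pl k) : Commute x y := by
  obtain ⟨i, j, rfl⟩ := b.mem_Pl.1 hx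
  obtain ⟨i', j', rfl⟩ := b.mem_Pl.1 hy
  have h := b.rel.comm (b.z_mem k)
  exact ((Commute.zpow_zpow_self _ i i').mul_right (h.zpow_zpow i j')).mul_left
    ((h.symm.zpow_zpow j i').mul_right (Commute.zpow_zpow_self _ j j'))

/-- The statement of the vertex task. -/
def VT (b : BS χ V A K) : Prop := ∀ k₁ k₂ w, b.vt k₁ = b.vt k₂ →
  w ∈ b.At (b.vt k₁) → ¬(k₁ = k₂ ∧ w ∈ Subgroup.zpowers (b.z k₁)) →
  Ind1 (b.ℓ (b.z k₁)) (cj (b.ℓ w) (b.Pl k₂))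

lemma turn (hV : VT b) {k k' : K} {u u' : B} (h1 : b.vt k = b.vt k') (h2 : u⁻¹ * u' ∈ b.Gv (b.vt k))
    (h3 : ¬(k = k' ∧ u⁻¹ * u' ∈ b.Pl k)) :
    Ind1 (u * b.ℓ (b.z k) * u⁻¹) (cj u' (b.Pl k')) ∧ u * b.t (b.vt k) * u⁻¹ ∈ cj u' (b.Pl k') := by
  obtain ⟨w, hw, i, e⟩ := b.mem_Gv.1 h2
  have e' : cj u' (b.Pl k') = cj u (cj (b.ℓ w) (b.Pl k')) := by
    rw [← mul_inv_cancel_left u u', e, ← cj_cj, ← cj_cj, cj_self (zpow_mem (t_mem h1) i)]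
  rw [e']
  refine ⟨(hV k k' w h1 hw fun h4 => h3 ⟨h4.1, ?_⟩).cj u, ?_⟩
  · obtain ⟨m, rfl⟩ := h4.2
    exact b.mem_Pl.2 ⟨m, i, by rw [e, map_zpow]⟩
  · rw [conj_mem_cj, mem_cj, mul_assoc, ← (b.rel.comm hw).eq, inv_mul_cancel_left]
    exact t_mem h1

variable {D : TD B b.TV (V ⊕ K)}

lemma eps (hD : b.IsBT D) (k : K) : D.ε (.inr k, false) = (b.s k)⁻¹ := by
  rw [← hD.e2, ← D.inv, bar_true]

lemma st_true (hD : b.IsBT D) (k : K) (p : B) : D.St ((.inr k, true), p) = cj p (b.Pl k) := by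
  rw [St, hD.p2]

lemma st_false (hD : b.IsBT D) (k : K) (p : B) :
    D.St ((.inr k, false), p) = cj (p * (b.s k)⁻¹) (b.Pl k) := by
  rw [← St_rev, ← eps hD]
  exact st_true hD k _

lemma alt (hD : b.IsBT D) {k k' : K} {e e' : Bool} {p p' : B}
    (h : D.Lk ((.inr k, e), p) ((.inr k', e'), p')) : e' = !e := by
  have h1 := h.1
  cases e <;> cases e' <;> simp [hD.v3, hD.v4] at h1 ⊢

lemma at_vertex (hD : b.IsBT D) {k k' : K} {p p' : B}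
    (h : D.Lk ((.inr k, false), p) ((.inr k', true), p'))
    (n : ¬D.Same ⊥ (D.rev ((.inr k, false), p)) ((.inr k', true), p')) :
    b.vt k = b.vt k' ∧ (p * (b.s k)⁻¹)⁻¹ * p' ∈ b.Gv (b.vt k) ∧
      ¬(k = k' ∧ (p * (b.s k)⁻¹)⁻¹ * p' ∈ b.Pl k) := by
  obtain ⟨h1, h2⟩ := h
  simp only [bar_false, hD.v3, hD.g2, eps hD, Option.some.injEq, Sum.inl.injEq] at h1 h2
  refine ⟨h1, h1 ▸ h2, fun h3 => n (same_bot.2 ?_)⟩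
  simp only [rev, bar_false, hD.p2, eps hD]
  exact ⟨by rw [h3.1], h3.2⟩

lemma at_plane (hD : b.IsBT D) {k k' : K} {p p' : B}
    (h : D.Lk ((.inr k, true), p) ((.inr k', false), p'))
    (n : ¬D.Same ⊥ (D.rev ((.inr k, true), p)) ((.inr k', false), p')) :
    b.h k = b.h k' ∧ (p * b.s k)⁻¹ * p' ∈ b.Pl (b.h k) ∧ k ≠ k' := by
  obtain ⟨h1, h2⟩ := h
  simp only [bar_true, hD.v4, hD.g3, hD.e2, Option.some.injEq, Sum.inr.injEq,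
    Subtype.mk.injEq] at h1 h2
  refine ⟨h1, h1 ▸ h2, fun h3 => n (same_bot.2 ?_)⟩
  simp only [rev, bar_true, hD.p3, hD.e2]
  exact ⟨by rw [h3], h1 ▸ h2⟩

lemma four (hV : VT b) (hD : b.IsBT D) {c₀ c₁ c₂ c₃ : ((V ⊕ K) × Bool) × B} {k₀ k₁ k₂ k₃ : K}
    {p₀ p₁ p₂ p₃ : B} {e₁ e₂ e₃ : Bool} (h₀ : c₀ = ((.inr k₀, false), p₀))
    (h₁ : c₁ = ((.inr k₁, e₁), p₁)) (h₂ : c₂ = ((.inr k₂, e₂), p₂)) (h₃ : c₃ = ((.inr k₃, e₃), p₃))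
    (l₀ : D.Lk c₀ c₁ ∧ ¬D.Same ⊥ (D.rev c₀) c₁) (l₁ : D.Lk c₁ c₂ ∧ ¬D.Same ⊥ (D.rev c₁) c₂)
    (l₂ : D.Lk c₂ c₃ ∧ ¬D.Same ⊥ (D.rev c₂) c₃) : Ind3 (D.St c₁) (D.St c₀) (D.St c₃) := by
  subst h₀ h₁ h₂ h₃
  obtain rfl : e₁ = true := alt hD l₀.1
  obtain rfl : e₂ = false := alt hD l₁.1
  obtain rfl : e₃ = true := alt hD l₂.1
  obtain ⟨a1, a2, a3⟩ := at_vertex hD l₀.1 l₀.2
  obtain ⟨b1, b2, b3⟩ := at_plane hD l₁.1 l₁.2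
  obtain ⟨c1, c2, c3⟩ := at_vertex hD l₂.1 l₂.2
  have t₁ := turn hV (u := p₁) (u' := p₀ * (b.s k₀)⁻¹) a1.symm
    (by simpa only [mul_inv_rev, inv_inv, a1] using inv_mem a2)
    fun h => a3 ⟨h.1.symm, by simpa only [mul_inv_rev, inv_inv, h.1] using inv_mem h.2⟩
  have t₂ := turn hV c1 c2 c3
  rw [st_true hD, st_true hD, st_false hD]
  refine ind3 (ν := b.n k₁ - b.n k₂) t₁.1 t₂.1 t₁.2 t₂.2 (comm_conj (b.rel.comm (b.z_mem _)) _)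
    (comm_conj (b.rel.comm (b.z_mem _)) _) (fun h => b3 (b.hn _ _ b1 (sub_eq_zero.1 h)))
    fun a ha => ?_
  obtain ⟨i, j, e⟩ := b.mem_Pl.1 (mem_cj.1 ha)
  have e1 := b.conj_Pl k₁ i j
  have e2 := b.conj_Pl k₂ (i + (b.n k₁ - b.n k₂) * j) j
  rw [show i + (b.n k₁ - b.n k₂) * j + b.n k₂ * j = i + b.n k₁ * j by ring, ← b1, ← e1, ← e] at e2
  have e3 := (pl_comm b2 (b.mem_Pl.2 ⟨_, _, e1⟩)).eq
  rw [← e] at e3
  refine ⟨i, j, ?_, ?_⟩ <;> rw [conj_zpow, conj_zpow]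
  · calc a = p₁ * (p₁⁻¹ * a * p₁) * p₁⁻¹ := by group
      _ = _ := by rw [e]; group
  · calc a = p₁ * b.s k₁ * ((b.s k₁)⁻¹ * (p₁⁻¹ * a * p₁) * b.s k₁ * ((p₁ * b.s k₁)⁻¹ * p₂)) *
          p₂⁻¹ := by group
      _ = p₂ * ((b.s k₁)⁻¹ * (p₁⁻¹ * a * p₁) * b.s k₁) * p₂⁻¹ := by rw [← e3]; group
      _ = _ := by rw [← e2]; group

end BINDx

theorem s_BIND (hVT : S_VT) : S_BIND := by
  intro B V A K _ χ b hR D hD
  have hV : BINDx.VT b := hVT B V A K χ b hR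
  refine ⟨5, fun c hc => ?_⟩
  by_cases h : ∃ i < 5, ∃ v, (c i).1.1 = Sum.inl v
  · obtain ⟨i, hi, v, hv⟩ := h
    refine ⟨i, hi, i, hi, i, hi, ?_⟩
    have e : D.St (c i) = ⊥ := by
      rw [St, show (c i).1 = (Sum.inl v, (c i).1.2) from Prod.ext hv rfl, hD.p1, cj_bot]
    rw [e]
    exact Ind3.bot _ _
  have h1 : ∀ i < 5, ∃ k e p, c i = ((Sum.inr k, e), p) := fun i hi => by
    rcases h2 : c i with ⟨⟨v | k, e⟩, p⟩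
    · exact absurd ⟨i, hi, v, by rw [h2]⟩ h
    · exact ⟨k, e, p, rfl⟩
  obtain ⟨k₀, e₀, p₀, h₀⟩ := h1 0 (by omega)
  obtain ⟨k₁, e₁, p₁, h₁⟩ := h1 1 (by omega)
  obtain ⟨k₂, e₂, p₂, h₂⟩ := h1 2 (by omega)
  obtain ⟨k₃, e₃, p₃, h₃⟩ := h1 3 (by omega)
  obtain ⟨k₄, e₄, p₄, h₄⟩ := h1 4 (by omega)
  cases e₀
  · exact ⟨1, by omega, 0, by omega, 3, by omega, BINDx.four hV hD h₀ h₁ h₂ h₃ (hc 0 (by omega))
      (hc 1 (by omega)) (hc 2 (by omega))⟩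
  · have h2 := (hc 0 (by omega)).1
    rw [h₀, zero_add, h₁] at h2
    obtain rfl : e₁ = false := BINDx.alt hD h2
    exact ⟨2, by omega, 1, by omega, 4, by omega, BINDx.four hV hD h₁ h₂ h₃ h₄ (hc 1 (by omega))
      (hc 2 (by omega)) (hc 3 (by omega))⟩

end Pool.Agent.P.MP_67c9d4_al.FC
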