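import Pool.Agent.P.MP_67c9d4_al.FC.Iface

namespace Pool.Agent.P.MP_67c9d4_al.FC

open Equiv Wr Multiplicative TD

namespace BSPx

theorem ind {B V A K : Type} [Group B] {χ : B →* MZ} (b : BS χ V A K) (h : b.VRB) (k : K) :
    Ind3 (b.Pl k) ⊥ ⊥ := by
  obtain ⟨L, hL, f, hz, hf⟩ := h k
  refine ⟨L, hL, χ.comp L.subtype, f, fun x hx => ?_, fun x hx => ?_, fun a ha M hM h0 h1 h2 => ?_⟩
  · rw [show x = 1 from Subtype.ext hx, map_one]
  · rw [show x = 1 from Subtype.ext hx, map_one]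
  · obtain ⟨i, j, rfl⟩ := b.mem_Pl.1 ha
    have h3 : (M : ℤ) * j = 0 := by
      have := congrArg toAdd h1
      simpa [b.cl, b.ct] using this
    obtain rfl : j = 0 := (mul_eq_zero.1 h3).resolve_left (by omega)
    have h4 : (⟨_, hM⟩ : L) = (⟨_, hz⟩ ^ i) ^ M := Subtype.ext (by simp)
    have h5 : (M : ℤ) * i = 0 := by
      have := congrArg toAdd h2
      rw [h4, map_pow, map_zpow, hf] at this
      simpa using this
    obtain rfl : i = 0 := (mul_eq_zero.1 h5).resolve_left (by omega)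
    simp

end BSPx

theorem s_BSP (hSEPA : S_SEPA) : S_BSP := by
  intro B V A K _ χ b h hB D hD
  rintro ⟨v | k, _ | _⟩
  · rw [hD.p1]; exact hSEPA _ _ hB (Ind3.bot _ _)
  · rw [hD.p1]; exact hSEPA _ _ hB (Ind3.bot _ _)
  · rw [hD.p3]; exact hSEPA _ _ hB (BSPx.ind b h _)
  · rw [hD.p2]; exact hSEPA _ _ hB (BSPx.ind b h _)

end Pool.Agent.P.MP_67c9d4_al.FC
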