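import Pool.Agent.P.MP_67c9d4_al.FC.Iface

/-! The graph of groups of a base. -/

namespace Pool.Agent.P.MP_67c9d4_al.FC

open Equiv Wr Multiplicative TD

namespace BTDx

section mulon
variable {B W : Type} [Group B] [Group W] {G : Subgroup B} {S : B → W}

/-- Multiplicative on a subgroup. -/
def MulOn (G : Subgroup B) (S : B → W) : Prop := ∀ g ∈ G, ∀ h ∈ G, S (g * h) = S g * S h

lemma MulOn.zpow (h : MulOn G S) {g : B} (hg : g ∈ G) (i : ℤ) : S (g ^ i) = S g ^ i :=
  map_zpow (MonoidHom.mk' (fun x : G => S x) fun x y => h x x.2 y y.2) ⟨g, hg⟩ i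

lemma MulOn.one (h : MulOn G S) : S 1 = 1 := by simpa using h.zpow G.one_mem 0

lemma MulOn.inv (h : MulOn G S) {g : B} (hg : g ∈ G) : S g⁻¹ = (S g)⁻¹ := by
  simpa using h.zpow hg (-1)

end mulon

lemma pth_inv {H V E : Type} [Group H] {D : TD H V E} {u v : V} {g : H} (h : D.Pth u v g) :
    D.Pth v u g⁻¹ := by
  induction h with
  | vtx hg => exact .vtx (inv_mem hg)
  | edge k => simpa only [bar_bar, D.inv] using Pth.edge (D := D) (bar k)
  | mul _ _ h1 h2 => rw [mul_inv_rev]; exact h2.mul h1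

variable {B V A K : Type} [Group B] {χ : B →* MZ} (b : BS χ V A K)

/-- The graph of groups. -/
def DD : TD B b.TV (V ⊕ K) where
  vt
    | (.inl _, true) => none
    | (.inl v, false) => some (.inl v)
    | (.inr k, true) => some (.inl (b.vt k))
    | (.inr k, false) => some (.inr ⟨b.h k, b.hh k⟩)
  G
    | none => ⊥
    | some (.inl v) => b.Gv v
    | some (.inr p) => b.Pl p.1
  P
    | (.inl _, _) => ⊥
    | (.inr k, true) => b.Pl k
    | (.inr k, false) => b.Pl (b.h k)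
  ε
    | (.inl _, _) => 1
    | (.inr k, true) => b.s k
    | (.inr k, false) => (b.s k)⁻¹
  le := by
    rintro ⟨v | k, _ | _⟩
    exacts [bot_le, bot_le, le_rfl, b.Pl_le k]
  inv := by
    rintro ⟨v | k, _ | _⟩
    exacts [inv_one.symm, inv_one.symm, (inv_inv _).symm, rfl]
  conj := by
    rintro ⟨v | k, _ | _⟩ g
    · simp [bar]
    · simp [bar]
    · change g ∈ b.Pl k ↔ (b.s k)⁻¹ * g * (b.s k)⁻¹⁻¹ ∈ b.Pl (b.h k)
      rw [inv_inv, ← mem_cj, b.cj_Pl]
    · change g ∈ b.Pl (b.h k) ↔ b.s k * g * (b.s k)⁻¹ ∈ b.Pl k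
      rw [← b.cj_Pl k, conj_mem_cj]

lemma s_fix {k : K} (hk : b.h k = k) : b.s k = 1 := hk ▸ b.rel.one k

lemma pth_none (u : b.TV) : (DD b).Pth none u 1 := by
  rcases u with _ | v | ⟨p, hp⟩
  · exact .vtx (one_mem _)
  · exact Pth.edge (D := DD b) (.inl v, true)
  · have h : (DD b).Pth none (some (.inr ⟨b.h p, b.hh p⟩)) (1 * b.s p) :=
      (Pth.edge (D := DD b) (.inl (b.vt p), true)).mul (Pth.edge (D := DD b) (.inr p, true))
    rw [s_fix b hp, mul_one] at h
    simpa only [hp] using h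

lemma pth_any {u v : b.TV} {g : B} (h : (DD b).Pth u v g) (u' v' : b.TV) : (DD b).Pth u' v' g := by
  simpa using ((((pth_inv (pth_none b u')).mul (pth_none b u)).mul h).mul
    (pth_inv (pth_none b v))).mul (pth_none b v')

lemma l_mem {v : V} {w : FreeGroup A} (hw : w ∈ b.At v) : b.ℓ w ∈ b.Gv v :=
  b.mem_Gv.2 ⟨w, hw, 0, by simp⟩

lemma t_mem (v : V) : b.t v ∈ b.Gv v := b.mem_Gv.2 ⟨1, one_mem _, 1, by simp⟩

lemma of_mem (a : A) : FreeGroup.of a ∈ b.At (b.vx a) := Subgroup.subset_closure ⟨a, rfl, rfl⟩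

lemma gen (u v : b.TV) (g : B) : (DD b).Pth u v g := by
  refine pth_any b (u := none) (v := none) ?_ u v
  have hg : g ∈ Subgroup.closure (Set.range b.ℓ ∪ Set.range b.t ∪ Set.range b.s) :=
    b.gen ▸ Subgroup.mem_top g
  induction hg using Subgroup.closure_induction with
  | mem x hx =>
    rcases hx with (⟨w, rfl⟩ | ⟨v, rfl⟩) | ⟨k, rfl⟩
    · induction w using FreeGroup.induction_on with
      | C1 => rw [map_one]; exact pth_none b none
      | of a => exact pth_any b (.vtx (v := some (.inl (b.vx a))) (l_mem b (of_mem b a))) _ _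
      | inv_of a ih => rw [map_inv]; exact pth_inv ih
      | mul x y hx hy => rw [map_mul]; exact hx.mul hy
    · exact pth_any b (.vtx (v := some (.inl v)) (t_mem b v)) _ _
    · exact pth_any b (Pth.edge (D := DD b) (.inr k, true)) _ _
  | one => exact pth_none b none
  | mul x y _ _ hx hy => exact hx.mul hy
  | inv x _ hx => exact pth_inv hx

/-- Representations of the vertex groups that are compatible along the planes extend. -/
lemma ext {W : Type} [Group W] (S : V → B → W) (s' : K → W) (h1 : ∀ v, MulOn (b.Gv v) (S v))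
    (h2 : ∀ k, ∀ g ∈ b.Pl (b.h k),
      S (b.vt k) (b.s k * g * (b.s k)⁻¹) = s' k * S (b.vt (b.h k)) g * (s' k)⁻¹)
    (h3 : ∀ k, s' (b.h k) = 1) :
    ∃ F : B →* W, (∀ v, ∀ g ∈ b.Gv v, F g = S v g) ∧ ∀ k, F (b.s k) = s' k := by
  let l : FreeGroup A →* W := FreeGroup.lift fun a => S (b.vx a) (b.ℓ (FreeGroup.of a))
  have hl : ∀ v, ∀ w ∈ b.At v, l w = S v (b.ℓ w) := fun v w hw => by
    induction hw using Subgroup.closure_induction with
    | mem x hx =>
      obtain ⟨a, rfl, rfl⟩ := hx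
      exact FreeGroup.lift_apply_of
    | one => rw [map_one, map_one, (h1 v).one]
    | mul x y hx hy ex ey => rw [map_mul, map_mul, h1 v _ (l_mem b hx) _ (l_mem b hy), ex, ey]
    | inv x hx ex => rw [map_inv, map_inv, (h1 v).inv (l_mem b hx), ex]
  suffices R : b.toBD.Rel l (fun v => S v (b.t v)) s' by
    obtain ⟨F, f1, f2, f3⟩ := b.up W l (fun v => S v (b.t v)) s' R
    refine ⟨F, fun v g hg => ?_, f3⟩
    obtain ⟨w, hw, i, rfl⟩ := b.mem_Gv.1 hg
    rw [map_mul, map_zpow, f1, f2, hl v w hw, h1 v _ (l_mem b hw) _ (zpow_mem (t_mem b v) i),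
      (h1 v).zpow (t_mem b v)]
  refine ⟨fun a => ?_, fun k => ?_, fun k => ?_, h3⟩
  · rw [hl _ _ (of_mem b a), Commute, SemiconjBy, ← h1 _ _ (l_mem b (of_mem b a)) _ (t_mem b _),
      ← h1 _ _ (t_mem b _) _ (l_mem b (of_mem b a)), (b.rel.com a).eq]
  · have e := h2 k (b.ℓ (b.z (b.h k))) (b.mem_Pl.2 ⟨1, 0, by simp⟩)
    rw [show b.s k * b.ℓ (b.z (b.h k)) * (b.s k)⁻¹ = b.ℓ (b.z k) by
      rw [← b.rel.rz k]; group] at e
    rw [hl _ _ (b.z_mem k), hl _ _ (b.z_mem _), e]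
    group
  · have e := h2 k (b.ℓ (b.z (b.h k)) ^ b.n k * b.t (b.vt (b.h k)))
      (b.mem_Pl.2 ⟨b.n k, 1, by simp⟩)
    rw [show b.s k * (b.ℓ (b.z (b.h k)) ^ b.n k * b.t (b.vt (b.h k))) * (b.s k)⁻¹ = b.t (b.vt k) by
      rw [← b.rel.rt k]; group, h1 _ _ (zpow_mem (l_mem b (b.z_mem _)) _) _ (t_mem b _),
      (h1 _).zpow (l_mem b (b.z_mem _))] at e
    rw [hl _ _ (b.z_mem _), e]
    group

lemma tree : (DD b).Tree := by
  refine ⟨gen b, fun W _ σ γ h1 h2 h3 => ?_⟩
  let τ : b.TV → W := fun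
    | none => 1
    | some (.inl v) => γ (.inl v, true)
    | some (.inr p) => γ (.inl (b.vt p.1), true) * γ (.inr p.1, true)
  have c1 : ∀ k, ∀ g ∈ b.Pl (b.h k), σ (some (.inl (b.vt k))) (b.s k * g * (b.s k)⁻¹) =
      γ (.inr k, true) * σ (some (.inr ⟨b.h k, b.hh k⟩)) g * (γ (.inr k, true))⁻¹ :=
    fun k => h3 (.inr k, true)
  have c2 : ∀ k (hk : b.h k = k), ∀ g ∈ b.Pl k, σ (some (.inl (b.vt k))) g =
      γ (.inr k, true) * σ (some (.inr ⟨k, hk⟩)) g * (γ (.inr k, true))⁻¹ := fun k hk g hg => by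
    simpa only [s_fix b hk, hk, one_mul, inv_one, mul_one] using c1 k g (hk.symm ▸ hg)
  obtain ⟨F, f1, f2⟩ := ext b (fun v g => γ (.inl v, true) * σ (some (.inl v)) g *
      (γ (.inl v, true))⁻¹) (fun k => γ (.inl (b.vt k), true) * γ (.inr k, true) *
      (γ (.inl (b.vt (b.h k)), true) * γ (.inr (b.h k), true))⁻¹)
    (fun v g hg g' hg' => by simp only [h1 (some (.inl v)) g hg g' hg']; group)
    (fun k g hg => by simp only [c1 k g hg, c2 _ (b.hh k) g hg]; group)
    fun k => by simp only [b.hh, mul_inv_cancel]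
  refine ⟨fun u v g => (τ u)⁻¹ * F g * τ v, fun u v w g g' => by simp only [map_mul]; group,
    fun u g hg => ?_, fun k => ?_⟩
  · rcases u with _ | v | ⟨p, hp⟩
    · rw [Subgroup.mem_bot.1 hg, MulOn.one (h1 none)]
      simp
    · simp only [τ, f1 v g hg]
      group
    · simp only [τ, f1 _ g (b.Pl_le p hg), c2 p hp g hg]
      group
  · rcases k with ⟨v | k, _ | _⟩
    · refine Eq.trans ?_ (h2 (.inl v, true)).symm
      change (γ (.inl v, true))⁻¹ * F 1 * 1 = _
      simp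
    · change 1⁻¹ * F 1 * γ (.inl v, true) = _
      simp
    · refine Eq.trans ?_ (h2 (.inr k, true)).symm
      change (γ (.inl (b.vt (b.h k)), true) * γ (.inr (b.h k), true))⁻¹ * F (b.s k)⁻¹ *
        γ (.inl (b.vt k), true) = _
      rw [map_inv, f2]
      group
    · change (γ (.inl (b.vt k), true))⁻¹ * F (b.s k) *
        (γ (.inl (b.vt (b.h k)), true) * γ (.inr (b.h k), true)) = _
      rw [f2]
      group

end BTDx

theorem s_BTD : S_BTD := fun _ _ _ _ _ _ b =>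
  ⟨BTDx.DD b, BTDx.tree b, fun _ => rfl, fun _ => rfl, fun _ => rfl, fun _ => rfl, rfl,
    fun _ => rfl, fun _ => rfl, fun _ _ => rfl, fun _ => rfl, fun _ => rfl, fun _ _ => rfl,
    fun _ => rfl⟩

end Pool.Agent.P.MP_67c9d4_al.FC
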