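import Pool.Agent.P.MP_67c9d4_al.FC.Iface

/-! The base group is virtually special and its fibres are virtually parabolic. -/

namespace Pool.Agent.P.MP_67c9d4_al.FC

open Equiv Wr Multiplicative TD

namespace BVPx

variable {B V A K : Type} [Group B] {χ : B →* MZ} {b : BS χ V A K}

lemma vs_pl (h : b.Rho) (k : K) : VS (b.Gv (b.vt k)) (b.Pl k) := by
  obtain ⟨W, I, _, _, ρ, h1, -⟩ := h
  obtain ⟨ω, hω⟩ := h1 k
  refine VS.of_free ρ ω fun g hg => ⟨fun e => ?_, fun e => ?_⟩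
  · obtain ⟨w, hw, i, rfl⟩ := b.mem_Gv.1 hg
    obtain ⟨j, rfl⟩ := (hω w hw i).1 e
    exact b.mem_Pl.2 ⟨j, i, by rw [map_zpow]⟩
  · obtain ⟨j, i, rfl⟩ := b.mem_Pl.1 e
    rw [← map_zpow]
    exact (hω _ (zpow_mem (b.z_mem k) j) i).2 ⟨j, rfl⟩

lemma vs_t (h : b.Rho) (v : V) : VS (b.Gv v) (Subgroup.zpowers (b.t v)) := by
  obtain ⟨W, I, _, _, ρ, -, h1⟩ := h
  obtain ⟨ω, hω⟩ := h1 v
  refine VS.of_free ρ ω fun g hg => ⟨fun e => ?_, fun e => ?_⟩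
  · obtain ⟨w, hw, i, rfl⟩ := b.mem_Gv.1 hg
    obtain rfl := (hω w hw i).1 e
    exact ⟨i, by rw [map_one, one_mul]⟩
  · obtain ⟨i, rfl⟩ := e
    have h2 := (hω 1 (one_mem _) i).2 rfl
    rwa [map_one, one_mul] at h2

lemma vs_bot (hI : S_INTER) (h : b.Rho) (v : V) : VS (b.Gv v) ⊥ := by
  refine (hI B _ _ _ (vs_t h v) (VS.ker _ χ)).congr fun g _ => ⟨?_, ?_⟩
  · rintro ⟨⟨i, rfl⟩, h2⟩
    have h3 : χ (b.t v ^ i) = 1 := h2
    rw [chi_zpow (b.ct v), ofAdd_eq_one] at h3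
    simp [h3]
  · rintro rfl
    exact one_mem _

end BVPx

open BVPx in
theorem s_BVP (hBTD : S_BTD) (hT3 : S_T3) (hINTER : S_INTER) : S_BVP := by
  intro B V A K _ χ b h
  obtain ⟨D, hD⟩ := hBTD B V A K χ b
  have := b.finV
  have := b.finK
  have h1 : ∀ k, VS (D.G (D.vt k)) (D.P k) := by
    rintro ⟨v | k, _ | _⟩
    · rw [hD.v2, hD.g2, hD.p1]
      exact vs_bot hINTER h v
    · rw [hD.v1, hD.g1]
      exact VS.of_le bot_le
    · rw [hD.v4, hD.g3, hD.p3]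
      exact VS.of_le le_rfl
    · rw [hD.v3, hD.g2, hD.p2]
      exact vs_pl h k
  refine ⟨hT3 B _ _ D hD.tree h1 none ⊥ bot_le (VS.of_le hD.g1.le), fun v =>
    hT3 B _ _ D hD.tree h1 (some (.inl v)) _ ?_ ?_⟩ <;> rw [hD.g2]
  · exact le_sup_right
  · exact vs_t h v

end Pool.Agent.P.MP_67c9d4_al.FC
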