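import Pool.Agent.P.MP_67c9d4_al.FC.Iface

/-! Finitely many separating representations over one graph. -/

namespace Pool.Agent.P.MP_67c9d4_al.FC

open Equiv Wr Multiplicative TD

namespace COMMONx

variable {T T' H X X' : Type} {Γ : SimpleGraph T} {Γ' : SimpleGraph T'} [Group H]

theorem emb (ι : T → T') (hι : Function.Injective ι) (h : ∀ a b, Γ'.Adj (ι a) (ι b) ↔ Γ.Adj a b) :
    ∃ F : RAAG Γ →* RAAG Γ', ∀ (X : Type) (σ : H →* Wr X (RAAG Γ)) (G Λ : Subgroup H),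
      SepOn σ G Λ → SepOn ((push F).comp σ) G Λ := by
  obtain ⟨F, -, hF⟩ := raag_emb ι hι h
  refine ⟨F, fun X σ G Λ ⟨ω, hω⟩ => ?_⟩
  choose s b hs using fun x => rfb_surj (ω x)
  refine ⟨fun x => rfb Γ' ((s x).1, ι '' (s x).2) (F (b x)), fun g hg => ?_⟩
  rw [← hω g hg, funext_iff, funext_iff]
  refine forall_congr' fun x => ?_
  rw [sec_apply, sec_apply, hs, hs x, smul_rfb, smul_rfb, rfb_eq, rfb_eq, MonoidHom.comp_apply,
    push_c, push_p, ← map_mul, ← map_inv, ← map_mul, hF, Prod.mk.injEq,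
    hι.image_injective.eq_iff, ← Prod.ext_iff]

theorem dom_inr {B : Type} [Group B] (σ : H →* Wr X B) (σ' : H →* Wr X' B) :
    Dom (Wr.sum σ σ') σ' := by
  refine ⟨Sum.elim (fun _ => none) some, ?_, ?_, fun x => ⟨Sum.inr x, rfl⟩⟩
  · rintro g (x | x) <;> rfl
  · rintro g (y | y) x e
    · cases e
    · rw [← Option.some.inj e]; rfl

end COMMONx

theorem s_COMMON : S_COMMON := by
  intro H J _ _ G Λ h
  suffices ∀ s : Set J, s.Finite → ∃ (T : Type) (_ : Finite T) (Γ : SimpleGraph T) (X : Type)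
      (_ : Fintype X) (σ : H →* Wr X (RAAG Γ)), ∀ j ∈ s, SepOn σ (G j) (Λ j) by
    obtain ⟨T, _, Γ, X, _, σ, hσ⟩ := this Set.univ Set.finite_univ
    exact ⟨T, ‹_›, Γ, X, ‹_›, σ, fun j => hσ j trivial⟩
  intro s hs
  induction s, hs using Set.Finite.induction_on with
  | empty => exact ⟨Unit, inferInstance, ⊥, Empty, inferInstance, 1, fun _ hj => hj.elim⟩
  | @insert j s _ _ ih =>
    obtain ⟨T, _, Γ, X, _, σ, hσ⟩ := ih
    obtain ⟨T', _, Γ', X', _, σ', hσ'⟩ := h j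
    obtain ⟨F, hF⟩ := COMMONx.emb (H := H) (Γ := Γ) (Γ' := Γ.sum Γ') Sum.inl Sum.inl_injective
      fun _ _ => Iff.rfl
    obtain ⟨F', hF'⟩ := COMMONx.emb (H := H) (Γ := Γ') (Γ' := Γ.sum Γ') Sum.inr Sum.inr_injective
      fun _ _ => Iff.rfl
    refine ⟨T ⊕ T', inferInstance, Γ.sum Γ', X ⊕ X', inferInstance,
      Wr.sum ((push F).comp σ) ((push F').comp σ'), ?_⟩
    rintro i (rfl | hi)
    · exact (hF' _ _ _ _ hσ').dom (COMMONx.dom_inr _ _)
    · exact (hF _ _ _ _ (hσ i hi)).dom (Dom.sum _ _)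

end Pool.Agent.P.MP_67c9d4_al.FC
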