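import Pool.Agent.P.MP_67c9d4_al.FC.Iface

namespace Pool.Agent.P.MP_67c9d4_al.FC

open Equiv Wr Multiplicative TD

namespace COMPx

variable {T Y : Type} {Γ : SimpleGraph T} {Mv : T × Bool → Y → Y → Prop}

/-- The properties of the completed action. -/
def Pr (Γ : SimpleGraph T) (Mv : T × Bool → Y → Y → Prop)
    (Θ : RAAG Γ →* Wr (Y × (T → Bool)) (RAAG (Γ.comap (Prod.fst : T × Bool → T)))) : Prop :=
  ∀ (x : T × Bool) (y : Y),
      (∀ φ, ∃ e : Bool, (Θ (wd Γ [x])).c (y, φ) = wd _ [((x.1, e), x.2)]) ∧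
      (∀ y', Mv x y y' → (Θ (wd Γ [x])).p⁻¹ (y, fun _ => false) = (y', fun _ => false) ∧
        (Θ (wd Γ [x])).c (y, fun _ => false) = wd _ [((x.1, false), x.2)]) ∧
      ((¬∃ y', Mv x y y') → (Θ (wd Γ [x])).c (y, fun _ => false) = wd _ [((x.1, true), x.2)])

variable {Θ : RAAG Γ →* Wr (Y × (T → Bool)) (RAAG (Γ.comap (Prod.fst : T × Bool → T)))}

theorem walk (h : Pr Γ Mv Θ) {L : List (T × Bool)} {y y' : Y} (hw : Walk Mv L y y') :
    (Θ (wd Γ L)).p⁻¹ (y, fun _ => false) = (y', fun _ => false) ∧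
      (Θ (wd Γ L)).c (y, fun _ => false) = wd _ (L.map fun x => ((x.1, false), x.2)) := by
  induction hw with
  | nil y => simp [wd_nil]
  | @cons x L y y' y'' hm _ ih =>
    obtain ⟨h1, h2⟩ := (h x y).2.1 y' hm
    rw [wd_cons, map_mul, mul_p, mul_c, mul_inv_rev, Perm.mul_apply, h1, h2, ih.1, ih.2,
      List.map_cons, wd_cons _ (List.map _ _)]
    exact ⟨rfl, rfl⟩

theorem lift (h : Pr Γ Mv Θ) (L : List (T × Bool)) : ∀ q : Y × (T → Bool),
    ∃ L' : List ((T × Bool) × Bool), L'.map (fun x => (x.1.1, x.2)) = L ∧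
      (Θ (wd Γ L)).c q = wd _ L' ∧ ∀ y, q = (y, fun _ => false) → (∀ x ∈ L', x.1.2 = false) →
        ∃ y', Walk Mv L y y' := by
  induction L with
  | nil => exact fun q => ⟨[], rfl, by simp [wd_nil], fun y _ _ => ⟨y, Walk.nil y⟩⟩
  | cons x L ih =>
    rintro ⟨y, φ⟩
    have h1 : ∃ e : Bool, (Θ (wd Γ [x])).c (y, φ) = wd _ [((x.1, e), x.2)] ∧
        (φ = (fun _ => false) → e = false → ∃ y', Mv x y y') := by
      by_cases hφ : φ = fun _ => false
      · subst hφ
        by_cases hm : ∃ y', Mv x y y'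
        · obtain ⟨y', hy'⟩ := hm
          exact ⟨false, ((h x y).2.1 y' hy').2, fun _ _ => ⟨y', hy'⟩⟩
        · exact ⟨true, (h x y).2.2 hm, fun _ he => absurd he (by simp)⟩
      · obtain ⟨e, he⟩ := (h x y).1 φ
        exact ⟨e, he, fun h' => absurd h' hφ⟩
    obtain ⟨e, he, he'⟩ := h1
    obtain ⟨L', l1, l2, l3⟩ := ih ((Θ (wd Γ [x])).p⁻¹ (y, φ))
    refine ⟨((x.1, e), x.2) :: L', by rw [List.map_cons, l1], ?_, fun y₁ hq hf => ?_⟩
    · rw [wd_cons, map_mul, mul_c, he, l2, wd_cons _ L']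
    · obtain ⟨rfl, rfl⟩ := Prod.mk.inj hq
      obtain ⟨y', hy'⟩ := he' rfl (hf _ List.mem_cons_self)
      obtain ⟨y'', hw⟩ := l3 y' ((h x y).2.1 y' hy').1 fun z hz => hf z (List.mem_cons_of_mem _ hz)
      exact ⟨y'', Walk.cons hy' hw⟩

theorem filt {L' : List ((T × Bool) × Bool)}
    (h : wd (Γ.comap (Prod.fst : T × Bool → T)) L' ∈ PS _ {x | x.2 = false}) :
    wd Γ ((L'.filter fun x => !x.1.2).map fun x => (x.1.1, x.2)) =
      wd Γ (L'.map fun x => (x.1.1, x.2)) := by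
  obtain ⟨π, hπ⟩ := raag_lift (Γ := Γ.comap (Prod.fst : T × Bool → T))
    (fun a => (PresentedGroup.of a.1 : RAAG Γ)) fun a b hab => of_comm hab
  obtain ⟨ρ, hρ⟩ := raag_lift (Γ := Γ.comap (Prod.fst : T × Bool → T))
    (fun a => bif a.2 then 1 else (PresentedGroup.of a.1 : RAAG Γ)) fun a b hab => by
      rcases a with ⟨a, _ | _⟩ <;> rcases b with ⟨b, _ | _⟩
      · exact of_comm hab
      · exact Commute.one_right _
      · exact Commute.one_left _
      · exact Commute.one_left _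
  have h1 : ∀ M : List ((T × Bool) × Bool), π (wd _ M) = wd Γ (M.map fun x => (x.1.1, x.2)) := by
    intro M
    induction M with
    | nil => simp [wd_nil]
    | cons x M ih =>
      rw [wd_cons, map_mul, ih, List.map_cons, wd_cons _ (List.map _ _)]
      rcases x with ⟨a, _ | _⟩
      · rw [wd_false, wd_false, map_inv, hπ]
      · rw [wd_true, wd_true, hπ]
  have h2 : ∀ M : List ((T × Bool) × Bool),
      ρ (wd _ M) = wd Γ ((M.filter fun x => !x.1.2).map fun x => (x.1.1, x.2)) := by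
    intro M
    induction M with
    | nil => simp [wd_nil]
    | cons x M ih =>
      rw [wd_cons, map_mul, ih]
      rcases x with ⟨⟨a, _ | _⟩, _ | _⟩
      · rw [List.filter_cons_of_pos (by simp), List.map_cons, wd_cons _ (List.map _ _), wd_false,
          wd_false, map_inv, hρ]
        rfl
      · rw [List.filter_cons_of_pos (by simp), List.map_cons, wd_cons _ (List.map _ _), wd_true,
          wd_true, hρ]
        rfl
      · rw [List.filter_cons_of_neg (by simp), wd_false, map_inv, hρ]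
        simp
      · rw [List.filter_cons_of_neg (by simp), wd_true, hρ]
        simp
  have h3 : PS (Γ.comap (Prod.fst : T × Bool → T)) {x | x.2 = false} ≤ ρ.eqLocus π := by
    refine (Subgroup.closure_le _).2 ?_
    rintro _ ⟨⟨a, e⟩, he, rfl⟩
    obtain rfl : e = false := he
    show ρ _ = π _
    rw [hρ, hπ]
    rfl
  rw [← h2, ← h1]
  exact h3 h

end COMPx

theorem s_COMP (hCOMP1 : S_COMP1) : S_COMP := by
  classical
  intro T Y _ _ Γ Mv y₀ hC
  obtain ⟨Θ, hΘ⟩ := hCOMP1 T Y Γ Mv hC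
  have hK : ∀ L y, Walk Mv L y₀ y → (wd Γ L ∈ stb Θ (y₀, fun _ => false) ↔ y = y₀) := by
    intro L y hw
    have h1 := (COMPx.walk hΘ hw).1
    rw [mem_stb, ← Perm.eq_inv_iff_eq, h1]
    exact ⟨fun h => (Prod.mk.inj h).1.symm, fun h => by rw [h]⟩
  refine ⟨stb Θ (y₀, fun _ => false), stb_fi Θ _, stH Θ _, hK, fun g => ⟨fun hg => ?_, ?_⟩⟩
  · have hex : ∃ n, ∃ L : List (T × Bool), L.length = n ∧ wd Γ L = g := by
      obtain ⟨L, hL⟩ := wd_surj (g : RAAG Γ)
      exact ⟨_, L, rfl, hL⟩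
    obtain ⟨L, hn, hL⟩ := Nat.find_spec hex
    obtain ⟨L', l1, l2, l3⟩ := COMPx.lift hΘ L (y₀, fun _ => false)
    rw [stH_apply, ← hL, l2] at hg
    have h1 := COMPx.filt hg
    rw [l1, hL] at h1
    have h2 := Nat.find_min' hex ⟨_, rfl, h1⟩
    rw [← hn, ← l1, List.length_map, List.length_map] at h2
    have h3 : ∀ x ∈ L', x.1.2 = false := fun x hx => by
      have h4 := List.filter_eq_self.1 ((List.filter_sublist).eq_of_length_le h2) x hx
      simpa using h4
    obtain ⟨y', hw⟩ := l3 y₀ rfl h3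
    obtain rfl := (hK L y' hw).1 (hL ▸ g.2)
    exact ⟨L, hL, hw⟩
  · rintro ⟨L, hL, hw⟩
    rw [stH_apply, ← hL, (COMPx.walk hΘ hw).2]
    refine wd_mem fun x hx => ?_
    obtain ⟨z, -, rfl⟩ := List.mem_map.1 hx
    rfl

end Pool.Agent.P.MP_67c9d4_al.FC
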