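import Pool.Agent.P.MP_67c9d4_al.FC.Iface

/-! The canonical completion as a representation in a wreath product. -/

namespace Pool.Agent.P.MP_67c9d4_al.FC

open Equiv Wr Multiplicative TD

namespace COMP1x

open scoped Classical

variable {T Y : Type} {Γ : SimpleGraph T} {Mv : T × Bool → Y → Y → Prop}

/-- Move if possible, otherwise flip the direction of the letter. -/
noncomputable def mv (Mv : T × Bool → Y → Y → Prop) (a : T) (σ : Bool) (q : Y × (T → Bool)) :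
    Y × (T → Bool) :=
  if h : ∃ y', Mv (a, xor σ (q.2 a)) q.1 y' then (h.choose, q.2)
  else (q.1, Function.update q.2 a (!q.2 a))

lemma mv_yes (h : Cx Γ Mv) {a : T} {σ : Bool} {y y' : Y} {φ : T → Bool}
    (m : Mv (a, xor σ (φ a)) y y') : mv Mv a σ (y, φ) = (y', φ) := by
  have h1 : ∃ y', Mv (a, xor σ (φ a)) y y' := ⟨y', m⟩
  rw [mv, dif_pos h1, h.det _ _ _ _ h1.choose_spec m]

lemma mv_no {a : T} {σ : Bool} {y : Y} {φ : T → Bool}
    (m : ¬∃ y', Mv (a, xor σ (φ a)) y y') :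
    mv Mv a σ (y, φ) = (y, Function.update φ a (!φ a)) := dif_neg m

lemma mv_inv (h : Cx Γ Mv) (a : T) (σ : Bool) (q : Y × (T → Bool)) :
    mv Mv a (!σ) (mv Mv a σ q) = q := by
  obtain ⟨y, φ⟩ := q
  by_cases m : ∃ y', Mv (a, xor σ (φ a)) y y'
  · obtain ⟨y', m⟩ := m
    rw [mv_yes h m, mv_yes h (y' := y)]
    simpa using h.inv _ _ _ m
  · rw [mv_no m, mv_no (by simpa using m)]
    simp

lemma ex_iff (h : Cx Γ Mv) {x x' : T × Bool} (adj : Γ.Adj x.1 x'.1) {y y₂ : Y}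
    (m : Mv x' y y₂) : (∃ y₁, Mv x y y₁) ↔ ∃ y₃, Mv x y₂ y₃ := by
  constructor
  · rintro ⟨y₁, m1⟩
    obtain ⟨y₃, -, m3⟩ := h.sq x x' y y₁ y₂ adj m1 m
    exact ⟨y₃, m3⟩
  · rintro ⟨y₃, m3⟩
    obtain ⟨y₄, -, m4⟩ := h.sq x (x'.1, !x'.2) y₂ y₃ y adj m3 (h.inv _ _ _ m)
    exact ⟨y₄, m4⟩

lemma half (h : Cx Γ Mv) {a b : T} (adj : Γ.Adj a b) {σ σ' : Bool} {y y₁ : Y} {φ : T → Bool}
    (m : Mv (a, xor σ (φ a)) y y₁) (n : ¬∃ y', Mv (b, xor σ' (φ b)) y y') :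
    mv Mv a σ (mv Mv b σ' (y, φ)) = mv Mv b σ' (mv Mv a σ (y, φ)) := by
  rw [mv_no n, mv_yes h m, mv_no (mt (ex_iff h (x := (b, xor σ' (φ b))) adj.symm m).2 n),
    mv_yes h (y' := y₁)]
  rwa [Function.update_of_ne adj.ne]

lemma mv_comm (h : Cx Γ Mv) {a b : T} (adj : Γ.Adj a b) (σ σ' : Bool) (q : Y × (T → Bool)) :
    mv Mv a σ (mv Mv b σ' q) = mv Mv b σ' (mv Mv a σ q) := by
  obtain ⟨y, φ⟩ := q
  by_cases m : ∃ y', Mv (a, xor σ (φ a)) y y' <;> by_cases n : ∃ y', Mv (b, xor σ' (φ b)) y y'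
  · obtain ⟨y₁, m⟩ := m
    obtain ⟨y₂, n⟩ := n
    obtain ⟨y₃, m3, n3⟩ := h.sq _ _ y y₁ y₂ adj m n
    rw [mv_yes h m, mv_yes h n, mv_yes h m3, mv_yes h n3]
  · obtain ⟨y₁, m⟩ := m
    exact half h adj m n
  · obtain ⟨y₂, n⟩ := n
    exact (half h adj.symm n m).symm
  · rw [mv_no m, mv_no n, mv_no (by rwa [Function.update_of_ne adj.ne]),
      mv_no (by rwa [Function.update_of_ne adj.ne']), Function.update_of_ne adj.ne,
      Function.update_of_ne adj.ne', Function.update_comm adj.ne]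

/-- The permutation of a generator. -/
noncomputable def sp (h : Cx Γ Mv) (a : T) : Perm (Y × (T → Bool)) :=
  ⟨mv Mv a true, mv Mv a false, mv_inv h a true, mv_inv h a false⟩

/-- The mark of a generator. -/
noncomputable def mrk (Mv : T × Bool → Y → Y → Prop) (a : T) (q : Y × (T → Bool)) : Bool :=
  if q.2 a = false ∧ ∃ y', Mv (a, true) q.1 y' then false else true

lemma mrk_mv (h : Cx Γ Mv) {a b : T} (adj : Γ.Adj a b) (σ : Bool) (q : Y × (T → Bool)) :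
    mrk Mv a (mv Mv b σ q) = mrk Mv a q := by
  obtain ⟨y, φ⟩ := q
  by_cases n : ∃ y', Mv (b, xor σ (φ b)) y y'
  · obtain ⟨y₂, n⟩ := n
    rw [mv_yes h n]
    simp only [mrk, ex_iff h (x := (a, true)) (x' := (b, xor σ (φ b))) adj n]
  · rw [mv_no n]
    simp only [mrk, Function.update_of_ne adj.ne]

/-- The image of a generator. -/
noncomputable def gen (h : Cx Γ Mv) (a : T) :
    Wr (Y × (T → Bool)) (RAAG (Γ.comap (Prod.fst : T × Bool → T))) :=
  ⟨(sp h a)⁻¹, fun q => PresentedGroup.of (a, mrk Mv a q)⟩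

lemma gen_comm (h : Cx Γ Mv) {a b : T} (adj : Γ.Adj a b) : Commute (gen h a) (gen h b) := by
  refine Wr.ext (Equiv.ext fun q => mv_comm h adj false false q) (funext fun q => ?_)
  change PresentedGroup.of (a, mrk Mv a q) * PresentedGroup.of (b, mrk Mv b (mv Mv a true q)) =
    PresentedGroup.of (b, mrk Mv b q) * PresentedGroup.of (a, mrk Mv a (mv Mv b true q))
  rw [mrk_mv h adj, mrk_mv h adj.symm]
  exact (of_comm (Γ := Γ.comap (Prod.fst : T × Bool → T)) (a := (a, _)) (b := (b, _)) adj).eq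

end COMP1x

open COMP1x in
theorem s_COMP1 : S_COMP1 := by
  intro T Y Γ Mv h
  obtain ⟨Θ, hΘ⟩ := raag_lift (Γ := Γ) (gen h) fun a b adj => gen_comm h adj
  refine ⟨Θ, ?_⟩
  rintro ⟨a, _ | _⟩ y
  · have e1 : ∀ q, (Θ (wd Γ [(a, false)])).c q = wd _ [((a, mrk Mv a (mv Mv a false q)), false)] :=
      fun q => by rw [wd_false, wd_false, map_inv, hΘ]; rfl
    have e2 : ∀ q, (Θ (wd Γ [(a, false)])).p⁻¹ q = mv Mv a false q :=
      fun q => by rw [wd_false, map_inv, hΘ]; rfl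
    refine ⟨fun φ => ⟨_, e1 _⟩, fun y' m => ?_, fun m => ?_⟩
    · have e3 : mv Mv a false (y, fun _ => false) = (y', fun _ => false) := mv_yes h m
      rw [e1, e2, e3, mrk, if_pos ⟨rfl, y, h.inv _ _ _ m⟩]
      exact ⟨rfl, rfl⟩
    · rw [e1, mv_no (φ := fun _ => false) (σ := false) m, mrk, if_neg (by simp)]
  · have e1 : ∀ q, (Θ (wd Γ [(a, true)])).c q = wd _ [((a, mrk Mv a q), true)] :=
      fun q => by rw [wd_true, wd_true, hΘ]; rfl
    have e2 : ∀ q, (Θ (wd Γ [(a, true)])).p⁻¹ q = mv Mv a true q :=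
      fun q => by rw [wd_true, hΘ]; rfl
    refine ⟨fun φ => ⟨_, e1 _⟩, fun y' m => ?_, fun m => ?_⟩
    · have e3 : mv Mv a true (y, fun _ => false) = (y', fun _ => false) := mv_yes h m
      rw [e1, e2, e3, mrk, if_pos ⟨rfl, y', m⟩]
      exact ⟨rfl, rfl⟩
    · rw [e1, mrk, if_neg fun h1 => m h1.2]

end Pool.Agent.P.MP_67c9d4_al.FC
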