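import Pool.Agent.P.MP_67c9d4_al.FC.Iface

/-! The universal representation for a finite set of other elements. -/

namespace Pool.Agent.P.MP_67c9d4_al.FC

open Equiv Wr Multiplicative TD

theorem s_CORE (hAXIS : S_AXIS) (hCORE1 : S_CORE1) (hCORE2 : S_CORE2) : S_CORE := by
  intro H V E _ D χ hT hSp hI v y hy hχ hM Z hZ hZ' H₀ hH₀
  have : Finite {z // z ∈ Z ∧ ¬D.Ell z} :=
    (hZ.subset (t := {z | z ∈ Z ∧ ¬D.Ell z}) fun z hz => hz.1).to_subtype
  let u : Option {z // z ∈ Z ∧ ¬D.Ell z} → H := fun j => j.elim y fun z => z.1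
  have hu : ∀ j, ¬D.Ell (u j) := by
    rintro (_ | z)
    · exact hy
    · exact z.2.2
  choose c l hc using fun j => hAXIS H V E D hT v (u j) (hu j)
  have h1 : ∀ j, χ (u j) = ofAdd 1 := by
    rintro (_ | z)
    · exact hχ
    · exact (hZ' z.1 z.2.1).1
  have h2 : ∀ j, IsConj (u none) (u j) → j = none := by
    rintro (_ | z) h
    · rfl
    · exact absurd h (hZ' z.1 z.2.1).2
  obtain ⟨N, hN, hle, hE, hP⟩ := hCORE1 H V E _ D χ u c l none hT hSp hI hc h1 hM h2 H₀ hH₀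
  obtain ⟨X, iX, σ, n, w, S, a1, a2, a3, a4, a5, a6, a7⟩ :=
    hCORE2 H V E _ D N H₀ u c l none hT hN hc hE hle hP
  refine ⟨X, iX, σ, n, w, S, a1, a2, a3, a4, a5, fun z hz x => ?_, a7⟩
  by_cases he : D.Ell z
  · refine ⟨0, ?_⟩
    rw [zpow_zero, a5 z he n x (by rw [a3 z]; rfl)]
  · exact a6 z ⟨some ⟨z, hz, he⟩, by simp, rfl⟩ x

end Pool.Agent.P.MP_67c9d4_al.FC
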