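import Pool.Agent.P.MP_67c9d4_al.FC.Iface

/-! A finite quotient in which only parallel circles share their labels. -/

namespace Pool.Agent.P.MP_67c9d4_al.FC

open Equiv Wr Multiplicative TD

namespace CORE1x

lemma chi_conj {H : Type} [Group H] (χ : H →* MZ) (g x : H) : χ (g * x * g⁻¹) = χ x := by
  rw [map_mul, map_mul, map_inv, mul_inv_cancel_comm]

end CORE1x

open CORE1x in
theorem s_CORE1 (hNP : S_NP) (hEMB : S_EMB) (hPAR : S_PAR) : S_CORE1 := by
  intro H V E J _ _ D χ u c l j₀ hT hS hI hA hχ hM hc H₀ h₀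
  choose N₁ a1 a2 using fun j => hNP H V E D hS hI _ _ _ _ _ _ (hA j₀) (hA j) H₀ h₀
  choose N₂ b1 b2 using fun j => hNP H V E D hS hI _ _ _ _ _ _ (hA j₀) (hA j).rev H₀ h₀
  obtain ⟨N, hN, hle, hE⟩ := hEMB H V E J D hT hS u c l hA _
    (h₀.inf ((FN.iInf a1).inf (FN.iInf b1)))
  refine ⟨N, hN, hle.trans inf_le_left, hE, fun j a h => ?_⟩
  have hp := (hA j₀).pos
  rcases hPAR H V E D N hN.1 _ _ _ (hA j₀) (hE j₀) (fun i => act a⁻¹ (c j i))
    (fun i => ⟨(lk_act _).2 ((hA j).lk i), by rw [rev_act, same_act]; exact (hE j).1 i⟩)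
    (fun i => (h i).imp fun i' hi => by
      simpa only [inv_one, act_one] using (lab_fst_eq hN.1 _ _).1 hi) with ⟨d, hd⟩ | ⟨d, hd⟩
  · obtain ⟨g, h1, h2⟩ := a2 j a⁻¹ d fun i =>
      (hd i).mono (hle.trans (inf_le_right.trans (inf_le_left.trans (iInf_le _ j))))
    have h3 := congrArg χ h1
    rw [chi_conj, chi_pow (hχ j), chi_pow (hχ j₀), ofAdd.injective.eq_iff, Nat.cast_inj] at h3
    have h0 : (l j₀ : ℤ) ≠ 0 := by omega
    rw [← h3, ← conj_pow] at h1
    have h4 : g * u j * g⁻¹ = u j₀ := hM.eq (hχ j₀) ((chi_conj χ _ _).trans (hχ j)) h0 (by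
      rw [zpow_natCast, ← h1]
      exact Commute.self_pow _ _)
    obtain rfl := hc j (isConj_iff.2 ⟨g, h4⟩).symm
    have h5 := hM g 1 one_ne_zero (by
      rw [zpow_one]
      exact mul_inv_eq_iff_eq_mul.1 h4)
    refine ⟨rfl, ?_, d, fun i => (lab_eq hN.1 _ _).2 (by simpa only [inv_one, act_one] using hd i)⟩
    have h6 := inv_mem (mul_mem (Subgroup.mem_sup_left h5 : g ∈ _ ⊔ H₀) (Subgroup.mem_sup_right h2))
    rwa [mul_inv_cancel_left, inv_inv] at h6
  · obtain ⟨g, h1, -⟩ := b2 j a⁻¹ d fun i => by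
      rw [← rev_act]
      exact (hd i).mono (hle.trans (inf_le_right.trans (inf_le_right.trans (iInf_le _ j))))
    have h3 := congrArg χ h1
    rw [chi_conj, inv_pow, map_inv, chi_pow (hχ j), chi_pow (hχ j₀), ← ofAdd_neg,
      ofAdd.injective.eq_iff] at h3
    omega

end Pool.Agent.P.MP_67c9d4_al.FC
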