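import Pool.Agent.P.MP_67c9d4_al.FC.Iface

/-! The universal representation that singles out few lifts of a hyperbolic element. -/

namespace Pool.Agent.P.MP_67c9d4_al.FC

open Equiv Wr Multiplicative TD

namespace CORE2x

variable {H V E : Type} [Group H] {D : TD H V E} {N : Subgroup H} {y : H} {l o : ℕ}
  {a : ℤ → (E × Bool) × H}

lemma exists_ord (hN : FN N) (u : H) : ∃ o r : ℕ, 0 < o ∧ 0 < r ∧ o * r = N.index ∧
    ∀ m : ℤ, u ^ m ∈ N ↔ (o : ℤ) ∣ m := by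
  obtain ⟨_, h2⟩ := hN
  obtain ⟨r, hr⟩ := orderOf_dvd_natCard (u : H ⧸ N)
  refine ⟨orderOf (u : H ⧸ N), r, orderOf_pos _, Nat.pos_of_ne_zero fun h => h2.index_ne_zero ?_,
    hr.symm, fun m => ?_⟩
  · rw [h, mul_zero] at hr
    exact hr
  · rw [orderOf_dvd_iff_zpow_eq_one, ← QuotientGroup.mk_zpow, QuotientGroup.eq_one_iff]

lemma lab_mod (hN : N.Normal) (h : D.Ax y a l) (ho : 0 < o) (hy : y ^ (o : ℤ) ∈ N) (x : H ⧸ N)
    (i : ℤ) : ∃ i' : ℕ, i' < l * o ∧ D.lab (qa N) (a i') x = D.lab (qa N) (a i) x := by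
  have h0 : (0 : ℤ) < (l * o : ℕ) := by exact_mod_cast Nat.mul_pos h.pos ho
  have h1 := Int.emod_nonneg i h0.ne'
  have h2 := Int.emod_lt_of_pos i h0
  refine ⟨(i % (l * o : ℕ)).toNat, by omega, ?_⟩
  have h3 : i = i % (l * o : ℕ) + l * (o * (i / (l * o : ℕ))) := by
    rw [← mul_assoc, ← Nat.cast_mul, Int.emod_add_mul_ediv]
  conv_rhs => rw [h3, h.zper, lab_act, zpow_mul, (qa_eq_one hN).2 (inv_mem (zpow_mem hy _))]
  rw [Int.toNat_of_nonneg h1, Perm.one_apply]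

lemma lab_inj (hN : N.Normal) (h : D.Ax y a l) (he : D.Emb N y a l)
    (hy : ∀ m : ℤ, y ^ m ∈ N → (o : ℤ) ∣ m) (x : H ⧸ N) (i : ℕ) (hi : i < l * o) (i' : ℕ)
    (hi' : i' < l * o) (e : (D.lab (qa N) (a i) x).1 = (D.lab (qa N) (a i') x).1) : i = i' := by
  obtain ⟨m, h1, h2⟩ := he.lab_inj hN h x e
  obtain ⟨k, rfl⟩ := hy m h2
  have h3 := Int.eq_zero_of_abs_lt_dvd (m := (l * o : ℕ)) (x := (i' : ℤ) - i)
    ⟨k, by rw [h1]; push_cast; ring⟩ (by rw [abs_lt]; omega)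
  omega

variable {W : Type} {Ev : V → V → H → Wr (H ⧸ N) (FreeGroup W)}

lemma conj_val (hN : N.Normal) (hM : Mult Ev) (hp : ∀ u v h, (Ev u v h).p = qa N h) (v₀ v : V)
    (p : H) {g : H} (hg : g ∈ N) (x : H ⧸ N) : (Ev v₀ v₀ g).c x =
      (Ev v₀ v p).c x * (Ev v v (p⁻¹ * g * p)).c (qa N p⁻¹ x) * ((Ev v₀ v p).c x)⁻¹ := by
  conv_lhs => rw [show g = p * (p⁻¹ * g * p) * p⁻¹ by group, hM.conj v₀ v]
  rw [conj_c _ (by rw [hp, (qa_eq_one hN).2 (hN.conj_mem' g hg p)]), hp, map_inv]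

lemma key (hN : N.Normal) (hM : Mult Ev) (hp : ∀ u v h, (Ev u v h).p = qa N h) (v₀ v : V)
    (p : H) {g : H} (hg : g ∈ N) (x : H ⧸ N) (r : ℕ) : (Ev v₀ v₀ (g ^ r)).c x =
      (Ev v₀ v p).c x * (Ev v v (p⁻¹ * g * p)).c (qa N p⁻¹ x) ^ r * ((Ev v₀ v p).c x)⁻¹ := by
  rw [← hM.hom_apply, map_pow, pow_c (by rw [hM.hom_apply, hp, (qa_eq_one hN).2 hg]), hM.hom_apply,
    conj_val hN hM hp v₀ v p hg, conj_pow]

lemma eta_conj {Y B : Type} [Group B] {η : FreeGroup W →* Wr Y B} {n : ℕ} (h : Per n η)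
    (A T : FreeGroup W) (r : ℕ) (y : Y) :
    IsConj ((η (T ^ n)).c ((η A).p⁻¹ y) ^ r) ((η (A * T ^ (r * n) * A⁻¹)).c y) := by
  rw [map_mul, map_mul, map_inv, mul_comm r, pow_mul, map_pow η (T ^ n),
    conj_c _ (by rw [pow_p, h T, one_pow]), pow_c (h T)]
  exact isConj_iff.2 ⟨_, rfl⟩

lemma conj_zpow_pow {B : Type} [Group B] {b b' b'' : B} {i : ℤ} {r : ℕ} (h : IsConj (b ^ i) b')
    (h' : IsConj (b' ^ r) b'') : IsConj (b ^ (i * r)) b'' := by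
  rw [zpow_mul, zpow_natCast]
  exact (h.pow r).trans h'

end CORE2x

open CORE2x in
theorem s_CORE2 (hKAP : S_KAP) (hETA : S_ETA) : S_CORE2 := by
  intro H V E J _ _ D N H₀ u c l j₀ hT hN hA hE _ hP
  have := hN.2
  have := Fintype.ofFinite (H ⧸ N)
  obtain ⟨Ev, hM, hp, hv, -, -, hs⟩ := hKAP H V E (H ⧸ N) D (qa N) hT
  choose o r o0 r0 hor ho using fun j => exists_ord hN (u j)
  have uo : ∀ j, u j ^ (o j : ℤ) ∈ N := fun j => (ho j _).2 dvd_rfl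
  let w : J × (H ⧸ N) → ℕ → (E × Set (H ⧸ N)) × Bool := fun q i => D.lab (qa N) (c q.1 i) q.2
  let n : J × (H ⧸ N) → ℕ := fun q => l q.1 * o q.1
  let S₀ : Set (E × Set (H ⧸ N)) := {s | ∃ i, s = (D.lab (qa N) (c j₀ i) ((1 : H) : H ⧸ N)).1}
  let P : J × (H ⧸ N) → Prop := fun q => ∃ i < n q, (w q i).1 ∉ S₀
  have inj : ∀ q, ∀ i < n q, ∀ i' < n q, (w q i).1 = (w q i').1 → i = i' := fun q =>
    lab_inj hN.1 (hA q.1) (hE q.1) (fun m => (ho q.1 m).1) q.2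
  obtain ⟨Y, _, y₀, y₁, M, η, M0, -, hη, e1, e2, e3⟩ := hETA _ {q // P q} S₀
    (D.lab (qa N) (c j₀ 0) ((1 : H) : H ⧸ N)).1 (fun q => w q.1) (fun q => n q.1) ⟨0, rfl⟩
    (fun q => inj q.1) fun q => q.2
  obtain ⟨ε, ε0, hε⟩ : ∃ ε : ℤ, ε ≠ 0 ∧ ex (D.lab (qa N) (c j₀ 0) ((1 : H) : H ⧸ N)).1
      (lt (D.lab (qa N) (c j₀ 0) ((1 : H) : H ⧸ N))) = ofAdd ε :=
    (ex_lt _).elim (fun h => ⟨1, by norm_num, h⟩) fun h => ⟨-1, by norm_num, h⟩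
  let v₀ := D.vt (c j₀ 0).1
  let A : J × (H ⧸ N) → FreeGroup (E × Set (H ⧸ N)) := fun q =>
    (Ev v₀ (D.vt (c q.1 0).1) (c q.1 0).2).c q.2
  let σ : H →* Wr ((H ⧸ N) × Y) (FreeGroup Bool) := flat.comp ((push η).comp (hM.hom v₀))
  have σc : ∀ h x, (σ h).c x = (η ((Ev v₀ v₀ h).c x.1)).c x.2 := fun _ _ => rfl
  have σp : ∀ h x, ((σ h).p x).1 = qa N h x.1 := fun h x => congrArg (· x.1) (hp v₀ v₀ h)
  have val : ∀ j x, IsConj ((η (rd (w (j, x.1)) (n (j, x.1)) ^ M)).c ((η (A (j, x.1))).p⁻¹ x.2) ^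
      r j) ((σ (u j ^ (N.index * M))).c x) := fun j x => by
    have h1 := hs (fun i => c j i) (l j * o j) (fun i _ => by
      simpa only [Nat.cast_add, Nat.cast_one] using (hA j).lk i) x.1
    have h2 := (hA j).zper 0 (o j)
    rw [zero_add, zpow_natCast] at h2
    simp only [Nat.cast_mul, Nat.cast_zero, h2, act, ← mul_assoc] at h1
    rw [σc, ← hor j, mul_assoc, pow_mul, key hN.1 hM hp v₀ (D.vt (c j 0).1) (c j 0).2
      (by simpa using uo j), h1]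
    exact eta_conj hη _ _ _ _
  have out : ∀ j x, P (j, x.1) → ∃ i : ℤ,
      IsConj ((al * be) ^ i) ((σ (u j ^ (N.index * M))).c x) := fun j x h => by
    obtain ⟨i, hi⟩ := e1 ⟨_, h⟩ ((η (A (j, x.1))).p⁻¹ x.2)
    exact ⟨_, conj_zpow_pow hi (val j x)⟩
  have all : ∀ q, ¬P q → ∀ i : ℤ, (D.lab (qa N) (c q.1 i) q.2).1 ∈ S₀ := fun q h i => by
    obtain ⟨i', h1, h2⟩ := lab_mod hN.1 (hA q.1) (o0 _) (uo _) q.2 i
    rw [← h2]
    exact not_not.1 fun h3 => h ⟨i', h1, h3⟩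
  have par := fun j (g : H) (h : ¬P (j, g)) => hP j g (all _ h)
  have mem : ∀ q, ¬P q → rd (w q) (n q) ^ M ∈ FS S₀ := fun q h =>
    pow_mem (rd_mem (fun i => all q h i) _) M
  have exv : ∀ x, ¬P (j₀, x) → (ex (D.lab (qa N) (c j₀ 0) ((1 : H) : H ⧸ N)).1
      (rd (w (j₀, x)) (n (j₀, x)) ^ M)).toAdd = M * ε := fun x h => by
    obtain ⟨g, rfl⟩ := QuotientGroup.mk_surjective x
    obtain ⟨-, -, d, hd⟩ := par j₀ g h
    obtain ⟨i, h1, h2⟩ := lab_mod hN.1 (hA j₀) (o0 _) (uo _) g (0 + d)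
    have h3 := ex_rd (inj (j₀, g)) h1
    rw [show w (j₀, g) i = _ from h2.trans (hd 0).symm] at h3
    rw [map_pow, h3, hε, toAdd_pow, toAdd_ofAdd, nsmul_eq_mul]
  refine ⟨(H ⧸ N) × Y, inferInstance, σ, N.index * M, M * ε * r j₀, {x | ¬P (j₀, x.1) ∧
    ((η (A (j₀, x.1))).p⁻¹ x.2 = y₀ ∨ (η (A (j₀, x.1))).p⁻¹ x.2 = y₁)},
    Nat.mul_pos (Nat.pos_of_ne_zero hN.2.index_ne_zero) M0,
    mul_ne_zero (mul_ne_zero (Nat.cast_ne_zero.2 M0.ne') ε0) (Nat.cast_ne_zero.2 (r0 _).ne'),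
    fun h => ?_, ⟨((1 : H), (η (A (j₀, (1 : H)))).p y₀), fun ⟨i, _, hi⟩ => hi ⟨i, rfl⟩,
      .inl (by simp)⟩, ?_, ?_, fun x hx => ?_, fun x hx => ?_, ?_, fun h => ?_⟩
  · have h1 : (hM.hom v₀ (h ^ N.index)).p = 1 := by
      rw [hM.hom_apply, hp, (qa_eq_one hN.1).2 (hN.pow_mem h)]
    have h2 : (hM.hom v₀ (h ^ (N.index * M))).p = 1 := by
      rw [pow_mul, map_pow _ (h ^ N.index), pow_p, h1, one_pow]
    refine Equiv.ext fun x => ?_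
    change ((hM.hom v₀ (h ^ (N.index * M))).p x.1, (η ((hM.hom v₀ (h ^ (N.index * M))).c
      ((hM.hom v₀ (h ^ (N.index * M))).p x.1))).p x.2) = x
    rw [h2, pow_mul, map_pow _ (h ^ N.index), pow_c h1, hη]
    rfl
  · rintro g ⟨v, p, hg⟩ m x hx
    have h1 : g ^ m ∈ N := (qa_fix hN.1 x.1).1 (by rw [← σp, hx])
    have h2 : p⁻¹ * g ^ m * p ∈ D.G v := by
      have h := pow_mem hg m
      rwa [← inv_inv p, inv_inv p⁻¹, conj_pow, inv_inv] at h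
    rw [σc, conj_val hN.1 hM hp v₀ v p h1, hv v _ h2, mul_one, mul_inv_cancel, map_one, one_c]
  · rintro _ ⟨j, hj, rfl⟩ ⟨x, y⟩
    obtain ⟨g, rfl⟩ := QuotientGroup.mk_surjective x
    exact out j _ (not_not.1 fun h => hj (par j g h).1)
  · obtain ⟨-, h1, h2, -⟩ := e2 _ (mem _ hx.1)
    have h3 := val j₀ x
    rw [exv _ hx.1] at h1 h2
    refine hx.2.imp (fun h => ?_) fun h => ?_
    · rw [h, h1] at h3
      exact conj_zpow_pow (IsConj.refl _) h3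
    · rw [h, h2] at h3
      exact conj_zpow_pow (IsConj.refl _) h3
  · by_cases h : P (j₀, x.1)
    · exact out j₀ x h
    have h3 := val j₀ x
    rw [(e2 _ (mem _ h)).2.2.2 _ (fun e => hx ⟨h, .inl e⟩) fun e => hx ⟨h, .inr e⟩, one_pow] at h3
    exact ⟨0, h3⟩
  · rintro h ⟨x, y⟩ h1 h2
    obtain ⟨g, rfl⟩ := QuotientGroup.mk_surjective x
    have h3 := h2.1
    rw [σp, qa_mk] at h3
    exact (Subgroup.mul_mem_cancel_right _ (par j₀ g h1.1).2.1).1 (par j₀ _ h3).2.1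
  · rw [tot_apply, Fintype.prod_prod_type]
    exact Finset.prod_eq_one fun x _ => e3 ((Ev v₀ v₀ h).c x)

end Pool.Agent.P.MP_67c9d4_al.FC
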