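import Pool.Agent.P.MP_67c9d4_al.FC.Iface

/-! Cyclically reduced words. -/

namespace Pool.Agent.P.MP_67c9d4_al.FC

open Equiv Wr Multiplicative TD

namespace CYCRx

variable {T : Type} (Γ : SimpleGraph T) (w : ℤ → T × Bool)

/-- The element read from position `i` on. -/
def seg (i : ℤ) (m : ℕ) : RAAG Γ := wd Γ (pre (fun k => w (i + k)) m)

lemma seg_succ (i : ℤ) (m : ℕ) : seg Γ w i (m + 1) = seg Γ w i m * wd Γ [w (i + m)] := by
  rw [seg, pre_succ, wd_append, seg]

lemma seg_one (i : ℤ) : seg Γ w i 1 = wd Γ [w i] := by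
  simp [seg, pre]

lemma seg_add (i : ℤ) (m m' : ℕ) : seg Γ w i (m + m') = seg Γ w i m * seg Γ w (i + m) m' := by
  induction m' with
  | zero => exact (mul_one _).symm
  | succ k ih => rw [← add_assoc, seg_succ, seg_succ, ih, mul_assoc, Nat.cast_add, add_assoc]

lemma seg_rot {n : ℕ} (h : ∀ i, w (i + n) = w i) (i : ℤ) :
    IsConj (seg Γ w 0 n) (seg Γ w i n) := by
  have h1 : ∀ i, IsConj (seg Γ w (i + 1) n) (seg Γ w i n) := fun i => by
    have h2 := seg_add Γ w i 1 n
    rw [add_comm 1 n, seg_succ, h, seg_one, Nat.cast_one] at h2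
    exact isConj_iff.2 ⟨wd Γ [w i], by rw [← h2, mul_inv_cancel_right]⟩
  induction i using Int.induction_on with
  | zero => exact IsConj.refl _
  | succ k ih => exact ih.trans (h1 k).symm
  | pred k ih =>
    have h2 := h1 (-k - 1)
    rw [sub_add_cancel] at h2
    exact ih.trans h2

lemma seg_comm (x : T × Bool) (i : ℤ) (m : ℕ) (h : ∀ k : ℕ, k < m → Γ.Adj (w (i + k)).1 x.1) :
    Commute (seg Γ w i m) (wd Γ [x]) := by
  induction m with
  | zero => exact Commute.one_left _
  | succ k ih =>
    rw [seg_succ]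
    exact (ih fun l hl => h l (by omega)).mul_left (wd_comm (h k (by omega)))

end CYCRx

open CYCRx in
theorem s_CYCR : S_CYCR := by
  classical
  intro T Γ b hb
  have h0 : ∃ n, ∃ L : List (T × Bool), L.length = n ∧ IsConj b (wd Γ L) := by
    obtain ⟨L, hL⟩ := wd_surj b
    exact ⟨_, L, rfl, hL ▸ IsConj.refl _⟩
  obtain ⟨L, hL, hc⟩ := Nat.find_spec h0
  have hmin : ∀ L' : List (T × Bool), IsConj b (wd Γ L') → L.length ≤ L'.length := fun L' h =>
    hL ▸ Nat.find_min' h0 ⟨L', rfl, h⟩
  have hn : 0 < L.length := by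
    rcases L with _ | ⟨x, L⟩
    · exact (hb (isConj_one_left.1 hc)).elim
    · exact Nat.succ_pos _
  let w : ℤ → T × Bool := fun i => L.getD (i % L.length).toNat (L[0])
  have hw : ∀ i, w (i + L.length) = w i := fun i => by simp only [w, Int.add_emod_right]
  have hp : pre w L.length = L := by
    refine List.ext_getElem (by simp [pre]) fun k h1 h2 => ?_
    simp only [pre, w, List.getElem_map, List.getElem_range]
    rw [← Int.natCast_mod, Int.toNat_natCast, Nat.mod_eq_of_lt h2, List.getD_eq_getElem _ _ h2]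
  have hs : ∀ i, IsConj b (seg Γ w i L.length) := fun i => by
    refine IsConj.trans ?_ (seg_rot Γ w hw i)
    simpa only [seg, zero_add, hp] using hc
  obtain ⟨u, hu⟩ := isConj_iff.1 hc
  refine ⟨u⁻¹, L.length, w, hn, hw, fun i j hij he => ?_, by rw [inv_inv, hu, hp]⟩
  by_contra hk
  simp only [not_exists, not_and, not_not] at hk
  rcases lt_trichotomy j (i + L.length) with h | h | h
  · obtain ⟨a, rfl⟩ : ∃ a : ℕ, j = i + 1 + a := ⟨(j - i - 1).toNat, by omega⟩
    obtain ⟨c, hc'⟩ : ∃ c, L.length = 1 + a + 1 + c := ⟨L.length - (a + 2), by omega⟩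
    have h1 := hs i
    rw [hc', seg_add, seg_succ, seg_add, seg_one, Nat.cast_add 1 a, Nat.cast_one, ← add_assoc i, he,
      wd_not, ← (seg_comm Γ w (w i) (i + 1) a fun k hk' => hk _ (by omega) (by omega)).eq,
      mul_inv_cancel_right, seg, seg, ← wd_append] at h1
    have h2 := hmin _ h1
    simp only [pre, List.length_append, List.length_map, List.length_range] at h2
    omega
  · rw [h, hw] at he
    simpa using congrArg Prod.snd he
  · have h1 := hk (i + L.length) (by omega) h
    rw [hw] at h1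
    exact Γ.irrefl h1

end Pool.Agent.P.MP_67c9d4_al.FC
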