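import Pool.Agent.P.MP_67c9d4_al.FC.Iface

/-! Division of the values at a longer period. -/

namespace Pool.Agent.P.MP_67c9d4_al.FC

open Equiv Wr Multiplicative TD

theorem s_DIV : S_DIV := by
  intro H X _ _ σ n m hm hσ
  have : NeZero m := ⟨hm.ne'⟩
  let d : Wr (ZMod m) MZ := ⟨Equiv.addRight 1, fun y => if y = 0 then ofAdd 1 else 1⟩
  have hd : ∀ y, d.p y = y + 1 := fun _ => rfl
  have ht : tot d = ofAdd 1 := by rw [tot_apply]; simp [d]
  have hp : (d ^ m).p = 1 := by ext y; rw [shift_pow d 1 hd]; simp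
  have hc : ∀ y, (d ^ m).c y = ofAdd 1 := fun y => by rw [cyc d 1 hd isUnit_one, ht]
  let η := zpowersHom _ d
  have h1 : ∀ b : MZ, η (b ^ m) = (d ^ m) ^ b.toAdd := fun b => by
    rw [map_pow, zpowersHom_apply, ← zpow_natCast, ← zpow_natCast, ← zpow_mul, ← zpow_mul, mul_comm]
  have h2 : ∀ b y, (η (b ^ m)).c y = b := fun b y => by
    rw [h1, zpow_c hp, hc, ← ofAdd_zsmul]; simp
  have h3 : ∀ b, (η (b ^ m)).p = 1 := fun b => by rw [h1, zpow_p, hp, one_zpow]
  have h4 : ∀ b, tot (η b) = b := fun b => by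
    rw [zpowersHom_apply, map_zpow, ht, ← ofAdd_zsmul]; simp
  have h5 : ∀ g x, (σ (g ^ (n * m))).c x = (σ (g ^ n)).c x ^ m := fun g x => by
    rw [pow_mul, map_pow σ (g ^ n), pow_c (hσ g)]
  refine ⟨ZMod m, inferInstance, flat.comp ((push η).comp σ), ZMod.card m, fun g => ?_,
    fun g q => ?_, fun h => ?_⟩
  · refine Equiv.ext fun q => ?_
    rw [MonoidHom.comp_apply, MonoidHom.comp_apply, flat_p, push_c, push_p, h5, h3,
      per_mul hσ m g]
    rfl
  · rw [MonoidHom.comp_apply, MonoidHom.comp_apply, flat_c, push_c, h5, h2]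
  · rw [tot_apply, tot_apply, Fintype.prod_prod_type]
    exact Finset.prod_congr rfl fun x _ => h4 ((σ h).c x)

end Pool.Agent.P.MP_67c9d4_al.FC
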