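import Pool.Agent.P.MP_67c9d4_al.FC.Iface

/-! Axes embed in a finite quotient of the tree. -/

namespace Pool.Agent.P.MP_67c9d4_al.FC

open Equiv Wr Multiplicative TD

namespace EMBx

lemma rd_add {W : Type} (w : ℕ → W × Bool) (a n : ℕ) :
    rd w (a + n) = rd w a * rd (fun i => w (a + i)) n := by
  induction n with
  | zero => simp [rd]
  | succ n ih => rw [← add_assoc, rd, ih, rd, mul_assoc]

variable {H V E : Type} [Group H] {D : TD H V E}

lemma sep1 (hS : D.Sp) {c c' : (E × Bool) × H} (h : ¬D.Same ⊥ c c') :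
    ∃ N, FN N ∧ ¬D.Same N c c' := by
  by_cases e : c.1 = c'.1
  · obtain ⟨N, hN, h1⟩ := hS c.1 _ fun h2 => h (same_bot.2 ⟨e, h2⟩)
    exact ⟨N, hN, fun h2 => h1 h2.2⟩
  · exact ⟨⊤, FN.top, fun h2 => e h2.1⟩

variable {y : H} {c : ℤ → (E × Bool) × H} {l : ℕ}

lemma sep2 (hS : D.Sp) (h : D.Ax y c l) :
    ∃ N, FN N ∧ ∀ i, ¬D.Same N (D.rev (c i)) (c (i + 1)) := by
  obtain ⟨N, hN, h1⟩ := FN.exists_forall (J := Fin l)
    (p := fun r N => ¬D.Same N (D.rev (c (r : ℕ))) (c ((r : ℕ) + 1)))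
    (fun _ _ _ le h1 h2 => h1 (h2.mono le)) fun r => sep1 hS (h.nb _)
  refine ⟨N, hN, fun i => ?_⟩
  have hl : (0 : ℤ) < l := by exact_mod_cast h.pos
  have h2 := Int.emod_nonneg i hl.ne'
  have h3 := Int.emod_lt_of_pos i hl
  have h4 := h1 ⟨(i % l).toNat, by omega⟩
  simp only [Int.toNat_of_nonneg h2] at h4
  rw [← Int.emod_add_mul_ediv i l, add_right_comm, h.zper, h.zper, rev_act, same_act]
  exact h4

/-- The starting points of two edges agree modulo `N`. -/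
def Rel (D : TD H V E) (N : Subgroup H) (c : ℤ → (E × Bool) × H) (i i' : ℤ) : Prop :=
  D.vt (c i).1 = D.vt (c i').1 ∧ (c i).2⁻¹ * (c i').2 ∈ D.G (D.vt (c i).1) ⊔ N

lemma Rel.symm {N : Subgroup H} {i i' : ℤ} (h : Rel D N c i i') : Rel D N c i' i := by
  refine ⟨h.1.symm, ?_⟩
  have := inv_mem h.2
  rwa [mul_inv_rev, inv_inv, h.1] at this

lemma Rel.shift {N : Subgroup H} {i i' : ℤ} (hA : D.Ax y c l) (h : Rel D N c i i') (m : ℤ) :
    Rel D N c (i + l * m) (i' + l * m) := by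
  unfold Rel at h ⊢
  rw [hA.zper, hA.zper]
  simpa only [act, mul_inv_rev, mul_assoc, inv_mul_cancel_left] using h

lemma main {N₁ : Subgroup H} (hN₁ : FN N₁) (hA : D.Ax y c l)
    (hb : ∀ i, ¬D.Same N₁ (D.rev (c i)) (c (i + 1)))
    {Ev : V → V → H → Wr (H ⧸ N₁) (FreeGroup (E × Set (H ⧸ N₁)))} (hM : Mult Ev)
    (hG : ∀ v, ∀ g ∈ D.G v, ∀ x, (Ev v v g).c x = 1)
    (hs : ∀ (c : ℕ → (E × Bool) × H) (n : ℕ), (∀ i < n, D.Lk (c i) (c (i + 1))) → ∀ x,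
      (Ev (D.vt (c 0).1) (D.vt (c n).1) ((c 0).2⁻¹ * (c n).2)).c (qa N₁ (c 0).2⁻¹ x) =
        rd (fun i => D.lab (qa N₁) (c i) x) n) :
    ∃ M : Subgroup (FreeGroup (E × Set (H ⧸ N₁))), M.FiniteIndex ∧
      ∀ (Q : Type) [Group Q] (π : FreeGroup (E × Set (H ⧸ N₁)) →* Q), π.ker ≤ M →
        ∀ N : Subgroup H, N.Normal → N ≤ N₁ → (∀ v, ∀ g ∈ N, ∀ x, π ((Ev v v g).c x) = 1) →
          (∀ v, ∀ g ∈ D.G v, g ∈ N₁ → g ∈ N) → D.Emb N y c l := by
  have ho : 0 < N₁.index := Nat.pos_of_ne_zero hN₁.2.index_ne_zero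
  have hy : ∀ m : ℤ, y ^ ((N₁.index : ℤ) * m) ∈ N₁ := fun m => by
    rw [zpow_mul, zpow_natCast]
    exact zpow_mem (hN₁.pow_mem y) m
  set lam : ℤ → (E × Set (H ⧸ N₁)) × Bool :=
    fun i => D.lab (qa N₁) (c i) ((1 : H) : H ⧸ N₁) with hlam
  have dv : ∀ a b : ℤ, (a : ZMod (l * N₁.index)) = b →
      ∃ m : ℤ, b = a + l * (N₁.index * m) := fun a b e => by
    obtain ⟨m, hm⟩ := (ZMod.intCast_eq_intCast_iff_dvd_sub a b _).1 e
    exact ⟨m, by push_cast at hm; linear_combination hm⟩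
  have per : ∀ a b : ℤ, (a : ZMod (l * N₁.index)) = b → lam a = lam b := fun a b e => by
    obtain ⟨m, rfl⟩ := dv a b e
    simp only [hlam]
    rw [hA.zper, lab_act, (qa_eq_one hN₁.1).2 (inv_mem (hy m)), Perm.one_apply]
  have : NeZero (l * N₁.index) := ⟨(mul_pos hA.pos ho).ne'⟩
  let cy : Cy (E × Set (H ⧸ N₁)) :=
    ⟨l * N₁.index, mul_pos hA.pos ho, fun i => lam i.val, fun i e => by
      rw [per ((i + 1).val) (i.val + 1) (by simp)] at e ⊢
      rcases (lab_fst_eq hN₁.1 1 1).1 e with e | e <;>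
        rw [inv_one, act_one, act_one] at e
      · exact (congrArg Prod.snd e.1 : (c _).1.2 = (c _).1.2)
      · exact absurd ((same_rev hN₁.1).1 (by rwa [rev_rev])) (hb _)⟩
  have pw : ∀ n, cy.pw n = rd (fun i : ℕ => lam i) n := fun n =>
    congrArg (fun w => rd w n) (funext fun i => per _ _ (by
      rw [Int.cast_natCast, Int.cast_natCast, ZMod.natCast_zmod_val]))
  obtain ⟨M, hM1, hM2⟩ := cy.exists_emb
  refine ⟨M, hM1, fun Q _ π hπ N hN le h1 h2 => ⟨fun i e => hb i (e.mono le), fun i i' e1 e2 => ?_⟩⟩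
  have k1 : ∀ a n : ℕ, Rel D N c a (a + n : ℕ) →
      ((a : ℤ) : ZMod (l * N₁.index)) = ((a + n : ℕ) : ℤ) := fun a n h => by
    have h3 := hs (fun i => c (a + i : ℕ)) n
      (fun i _ => by simpa only [Nat.cast_add, Nat.cast_one, add_assoc] using hA.lk (a + i))
      ((1 : H) : H ⧸ N₁)
    obtain ⟨g, hg, hn⟩ := (mem_sup_left' hN).1 h.2
    simp only [add_zero] at h3
    rw [← h.1, ← mul_inv_cancel_left g ((c a).2⁻¹ * _), ← hM _ (D.vt (c a).1), mul_c, hG _ _ hg,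
      one_mul] at h3
    have h4 := hM2 Q π hπ 0 a (a + n) (by
      rw [zpow_zero, one_mul, pw, pw, rd_add, map_mul, ← h3, h1 _ _ hn, mul_one])
    simpa only [Int.cast_natCast] using h4
  have k2 : ∀ a b : ℕ, Rel D N c a b → ((a : ℤ) : ZMod (l * N₁.index)) = (b : ℤ) :=
    fun a b h => by
      rcases le_total a b with le | le <;> obtain ⟨n, rfl⟩ := Nat.exists_eq_add_of_le le
      exacts [k1 _ _ h, (k1 _ _ h.symm).symm]
  have k3 : (i : ZMod (l * N₁.index)) = i' := by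
    have h3 := Rel.shift hA (⟨e1, e2⟩ : Rel D N c i i') (N₁.index * (|i| + |i'|))
    have h4 : |i| + |i'| ≤ l * (N₁.index * (|i| + |i'|)) := by
      rw [← mul_assoc]
      exact le_mul_of_one_le_left (by positivity) (by exact_mod_cast mul_pos hA.pos ho)
    obtain ⟨a, ha⟩ := Int.eq_ofNat_of_zero_le (a := i + l * (N₁.index * (|i| + |i'|)))
      (by linarith [neg_abs_le i, abs_nonneg i'])
    obtain ⟨b, hb⟩ := Int.eq_ofNat_of_zero_le (a := i' + l * (N₁.index * (|i| + |i'|)))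
      (by linarith [neg_abs_le i', abs_nonneg i])
    have h5 := k2 a b (ha ▸ hb ▸ h3)
    rw [← ha, ← hb, Int.cast_add, Int.cast_add] at h5
    exact add_right_cancel h5
  obtain ⟨m, rfl⟩ := dv i i' k3
  refine ⟨_, rfl, ?_⟩
  rw [hA.zper] at e2
  obtain ⟨g, hg, hn⟩ := (mem_sup_left' hN).1 e2
  have h3 : (c i).2⁻¹ * (y ^ ((N₁.index : ℤ) * m) * (c i).2) ∈ N₁ := by
    rw [← mul_assoc]; exact hN₁.1.conj_mem' _ (hy m) _
  have h4 : g ∈ N := h2 _ g hg (inv_mem_iff.1 ((N₁.mul_mem_cancel_right h3).1 (le hn)))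
  have h5 := hN.conj_mem _ ((N.mul_mem_cancel_left (inv_mem h4)).1 hn) (c i).2
  simpa only [act, mul_assoc, mul_inv_cancel_left, mul_inv_cancel, mul_one] using h5

end EMBx

open EMBx in
theorem s_EMB (hKAP : S_KAP) : S_EMB := by
  intro H V E J _ _ D hT hS y c l hA N₀ hN₀
  rcases isEmpty_or_nonempty J with hJ | ⟨⟨j₀⟩⟩
  · exact ⟨N₀, hN₀, le_rfl, fun j => hJ.elim j⟩
  obtain ⟨N', hN', hb'⟩ := FN.exists_forall
    (p := fun j N => ∀ i, ¬D.Same N (D.rev (c j i)) (c j (i + 1)))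
    (fun _ _ _ le h1 i h2 => h1 i (h2.mono le)) fun j => sep2 hS (hA j)
  obtain ⟨N₁, hN₁, le, hb⟩ : ∃ N₁, FN N₁ ∧ N₁ ≤ N₀ ∧
      ∀ j i, ¬D.Same N₁ (D.rev (c j i)) (c j (i + 1)) :=
    ⟨N' ⊓ N₀, hN'.inf hN₀, inf_le_right, fun j i h => hb' j i (h.mono inf_le_left)⟩
  obtain ⟨Ev, hM, hp, hG, -, -, hs⟩ := hKAP H V E _ D (qa N₁) hT
  choose M hM1 hM2 using fun j => main hN₁ (hA j) (hb j) hM hG hs
  have := hN₁.2
  have : (⨅ j, M j).FiniteIndex := Subgroup.finiteIndex_iInf hM1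
  set π := QuotientGroup.mk' (⨅ j, M j).normalCore
  have : Finite (Wr (H ⧸ N₁) (FreeGroup (E × Set (H ⧸ N₁)) ⧸ (⨅ j, M j).normalCore)) :=
    Finite.of_injective (fun g => (g.p, g.c)) fun a b e =>
      Wr.ext (congrArg Prod.fst e) (congrArg Prod.snd e)
  set v₀ := D.vt (c j₀ 0).1
  have cj : ∀ u v g, push π (Ev v v g) = 1 → push π (Ev u u g) = 1 := fun u v g h => by
    have := hM.conj u v 1 g
    rw [one_mul, inv_one, mul_one] at this
    rw [this, map_mul, map_mul, h, mul_one, ← map_mul, mul_inv_cancel, map_one]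
  have hN := hN₁.inf (FN.ker ((push π).comp (hM.hom v₀)))
  refine ⟨_, hN, inf_le_left.trans le, fun j => hM2 j _ π ?_ _ hN.1 inf_le_left
    (fun v g hg x => congrArg (fun w => w.c x) (cj v v₀ g hg.2)) fun v g hg h1 => ⟨h1, ?_⟩⟩
  · rw [QuotientGroup.ker_mk']
    exact (Subgroup.normalCore_le _).trans (iInf_le _ j)
  · refine cj v₀ v g (Wr.ext ?_ (funext fun x => ?_))
    · rw [push_p, hp, (qa_eq_one hN₁.1).2 h1, one_p]
    · rw [push_c, hG v g hg, map_one, one_c]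

end Pool.Agent.P.MP_67c9d4_al.FC
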