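import Pool.Agent.P.MP_67c9d4_al.FC.Iface

/-! The mapping torus group embeds in the path group. -/

namespace Pool.Agent.P.MP_67c9d4_al.FC

open Equiv Wr Multiplicative TD

open SemidirectProduct in
theorem s_EMBT : S_EMBT := by
  intro V E N H _ _ o t u v₀ ι D φ η τ χ _ _ hι hr hD hφ h
  have h1 : ∀ a b g, GPath o t a b g → η (D g) = τ a * η g * (τ b)⁻¹ := fun a b g hg => by
    induction hg with
    | edge e => rw [hD, map_mul, eq_mul_inv_iff_mul_eq, mul_assoc, ← h.rel e]; group
    | one v => simp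
    | mul _ _ i j => simp only [map_mul, i, j]; group
    | inv _ i => simp only [map_inv, i]; group
  have ht : ∀ x, (inl (D x) : MT D) = inr (ofAdd 1) * inl x * (inr (ofAdd 1))⁻¹ := fun x => by
    rw [← map_inv, ← inl_aut]; simp
  obtain ⟨F, h2, -⟩ := h.up (MT D) inl (fun _ => inr (ofAdd 1)) fun e => by
    have := ht (FreeGroup.of e)
    rw [hD, map_mul, eq_mul_inv_iff_mul_eq] at this
    rw [mul_assoc, ← this]; group
  refine ⟨slift (η.comp ι) (τ v₀) fun x => ?_, slift_inj _ (fun x e => hι ?_) χ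
    (fun x => h.ce _) one_ne_zero (h.ct _), fun x => ?_, ?_⟩
  · rw [MonoidHom.comp_apply, hφ]
    exact h1 _ _ _ ((hr _).1 ⟨x, rfl⟩)
  · exact inl_injective ((h2 _).symm.trans ((congrArg F e).trans (by simp)))
  · simp [slift_apply]
  · simp [slift_apply]

end Pool.Agent.P.MP_67c9d4_al.FC
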