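import Pool.Agent.P.MP_67c9d4_al.FC.Iface

/-! A cyclic cover with a cocycle supported at two points. -/

namespace Pool.Agent.P.MP_67c9d4_al.FC

open Equiv Wr Multiplicative TD

namespace ETAx

lemma two {B : Type} [Group B] {N : ℕ} [Fact N.Prime] (g : Wr (ZMod N) B) (θ : ZMod N)
    (h : ∀ y, g.p y = y + θ) (hθ : θ ≠ 0) {a b : ZMod N} (hab : a ≠ b)
    (hc : ∀ y, y ≠ a → y ≠ b → g.c y = 1) (y : ZMod N) : IsConj (g.c a * g.c b) ((g ^ N).c y) := by
  have hp : (g ^ N).p = 1 := by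
    ext y; rw [shift_pow g θ h]; simp
  have h1 : ∀ y, IsConj ((g ^ N).c y) ((g ^ N).c (y + θ)) := fun y => by
    have h2 : g * g ^ N * g⁻¹ = g ^ N := by group
    have h3 := conj_c g hp (y + θ)
    rw [h2, show g.p⁻¹ (y + θ) = y by rw [Perm.inv_eq_iff_eq, h]] at h3
    exact isConj_iff.2 ⟨_, h3.symm⟩
  have h2 : ∀ i : ℕ, IsConj ((g ^ N).c a) ((g ^ N).c (a + i * θ)) := fun i => by
    induction i with
    | zero => rw [Nat.cast_zero, zero_mul, add_zero]
    | succ i ih =>
      refine ih.trans ?_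
      rw [show a + ((i + 1 : ℕ) : ZMod N) * θ = a + i * θ + θ by push_cast; ring]
      exact h1 _
  have h3 : ∀ m, m < N → (g ^ (m + 1)).c a =
      g.c a * if ((a - b) / θ).val ≤ m then g.c b else 1 := fun m => by
    have h0 : ((a - b) / θ).val ≠ 0 := by
      rw [Ne, ZMod.val_eq_zero]
      exact div_ne_zero (sub_ne_zero.2 hab) hθ
    induction m with
    | zero => intro _; rw [if_neg (by omega)]; simp
    | succ m ih =>
      intro hm
      have h4 : (g ^ (m + 1)).p⁻¹ a = a - ((m + 1 : ℕ) : ZMod N) * θ := by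
        rw [Perm.inv_eq_iff_eq, shift_pow g θ h]; ring
      rw [pow_succ, mul_c, ih (by omega), h4]
      by_cases e : ((a - b) / θ).val = m + 1
      · rw [if_neg (by omega), if_pos e.le, ← e, ZMod.natCast_zmod_val, div_mul_cancel₀ _ hθ,
          sub_sub_cancel, mul_one]
      · rw [hc (a - _) (fun e' => ?_) fun e' => e ?_, mul_one]
        · simp only [show ((a - b) / θ).val ≤ m + 1 ↔ ((a - b) / θ).val ≤ m by omega]
        · rw [sub_eq_self, mul_eq_zero, ZMod.natCast_eq_zero_iff] at e'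
          exact e'.elim (Nat.not_dvd_of_pos_of_lt (Nat.succ_pos m) hm) hθ
        · rw [← e', sub_sub_cancel, mul_div_cancel_right₀ _ hθ, ZMod.val_cast_of_lt hm]
  have hN : 0 < N := (Fact.out : N.Prime).pos
  have h5 := h3 (N - 1) (by omega)
  rw [Nat.sub_add_cancel hN, if_pos (by have := ZMod.val_lt ((a - b) / θ); omega)] at h5
  have h6 := h2 ((y - a) / θ).val
  rwa [h5, ZMod.natCast_zmod_val, div_mul_cancel₀ _ hθ, add_sub_cancel] at h6

lemma dec {W : Type} (l : W) (w : ℕ → W × Bool) (n : ℕ)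
    (h : ∀ i < n, ∀ i' < n, (w i).1 = (w i').1 → i = i') :
    ((∀ i < n, (w i).1 ≠ l) ∧ rd w n ∈ FS {a | a ≠ l}) ∨ (∃ i < n, (w i).1 = l) ∧
      ∃ A ∈ FS {a | a ≠ l}, ∃ B ∈ FS {a | a ≠ l}, ∃ s, rd w n = A * lt (l, s) * B := by
  induction n with
  | zero => exact Or.inl ⟨by simp, one_mem _⟩
  | succ n ih =>
    rcases ih fun i hi i' hi' => h i (by omega) i' (by omega) with ⟨h1, h2⟩ | ⟨⟨i, hi, h1⟩, A, hA, B, hB, s, h2⟩
    · by_cases e : (w n).1 = l
      · exact Or.inr ⟨⟨n, by omega, e⟩, _, h2, 1, one_mem _, (w n).2, by rw [rd, mul_one, ← e]⟩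
      · refine Or.inl ⟨fun i hi => ?_, mul_mem h2 (lt_mem e)⟩
        rcases Nat.lt_succ_iff_lt_or_eq.1 hi with h3 | rfl
        exacts [h1 i h3, e]
    · have e : (w n).1 ≠ l := fun e => by
        have := h i (by omega) n (by omega) (h1.trans e.symm)
        omega
      exact Or.inr ⟨⟨i, by omega, h1⟩, A, hA, B * lt (w n), mul_mem hB (lt_mem e), s, by
        rw [rd, h2, mul_assoc]⟩

end ETAx

open ETAx

theorem s_ETA : S_ETA := by
  classical
  intro W J _ S l₀ w n hl hw hS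
  have := Fintype.ofFinite J
  obtain ⟨φ, h1, h2⟩ := avoid S (Finset.univ.image fun j => rd (w j) (n j)) fun T hT => by
    obtain ⟨j, -, rfl⟩ := Finset.mem_image.1 hT
    obtain ⟨i, hi, h⟩ := hS j
    refine ⟨_, h, ?_⟩
    rw [ex_rd (hw j) hi]
    rcases ex_lt (w j i) with e | e <;> rw [e] <;> decide
  obtain ⟨N, hN, hp⟩ := Nat.exists_infinite_primes
    (Finset.univ.sup (fun j => (φ (rd (w j) (n j))).toAdd.natAbs) + 1)
  have : Fact N.Prime := ⟨hp⟩
  let δ : ZMod N → FreeGroup Bool := fun y => if y = 0 then al else if y = 1 then be else 1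
  let D : MZ →* ZMod N → FreeGroup Bool := zpowersHom _ δ
  have hD : ∀ z y, D z y = δ y ^ z.toAdd := fun _ _ => rfl
  let η : FreeGroup W →* Wr (ZMod N) (FreeGroup Bool) := FreeGroup.lift fun a =>
    ⟨Equiv.addRight ((φ (FreeGroup.of a)).toAdd : ZMod N), D (ex l₀ (FreeGroup.of a))⟩
  have e1 : ∀ b y, (η b).p y = y + ((φ b).toAdd : ZMod N) := by
    intro b
    induction b using FreeGroup.induction_on with
    | C1 => simp
    | of a => simp [η]
    | inv_of a ih => intro y; rw [map_inv, inv_p, Perm.inv_eq_iff_eq, ih]; simp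
    | mul a b ha hb => intro y; rw [map_mul, mul_p, Perm.mul_apply, ha, hb]; simp; ring
  have e3 : Per N η := fun b => by ext y; rw [e1]; simp
  have e4 : ∀ b ∈ FS S, η b = base (D (ex l₀ b)) := fun b hb => by
    refine MonoidHom.eqOn_closure (f := η) (g := base.comp (D.comp (ex l₀))) ?_ hb
    rintro _ ⟨a, ha, rfl⟩
    refine Wr.ext ?_ ?_
    · ext y; simp [e1, h1 a ha]
    · simp [η]; rfl
  have e5 : ∀ b ∈ FS {a | a ≠ l₀}, ∀ y, (η b).c y = 1 := fun b hb => by
    induction hb using Subgroup.closure_induction with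
    | mem _ h =>
      obtain ⟨a, ha, rfl⟩ := h
      intro y
      have : ex l₀ (FreeGroup.of a) = 1 := ex_lt_ne (x := (a, true)) ha
      simp [η, this]
    | one => simp
    | mul a b _ _ ha hb => intro y; rw [map_mul, mul_c, ha, hb, one_mul]
    | inv a _ ha => intro y; rw [map_inv, inv_c, ha, inv_one]
  refine ⟨ZMod N, inferInstance, 0, 1, N, η, hp.pos, zero_ne_one, e3, fun j y => ?_,
    fun b hb => ?_, fun b => ?_⟩
  · rcases dec l₀ (w j) (n j) (hw j) with ⟨-, h⟩ | ⟨-, A, hA, B, hB, s, h⟩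
    · exact ⟨0, by rw [e5 _ (pow_mem h N), zpow_zero]⟩
    · have h3 : ((φ (lt (l₀, s) * (B * A))).toAdd : ZMod N) ≠ 0 := by
        have e : φ (lt (l₀, s) * (B * A)) = φ (rd (w j) (n j)) := by
          rw [h]; simp only [map_mul]; rw [mul_assoc (φ A), mul_comm (φ A), mul_assoc]
        rw [e, Ne, ZMod.intCast_zmod_eq_zero_iff_dvd, Int.natCast_dvd]
        have h5 := Finset.le_sup (f := fun j => (φ (rd (w j) (n j))).toAdd.natAbs)
          (Finset.mem_univ j)
        exact Nat.not_dvd_of_pos_of_lt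
          (Int.natAbs_pos.2 (h2 _ (Finset.mem_image_of_mem _ (Finset.mem_univ j)))) (by omega)
      have h4 : ∀ y, (η (lt (l₀, s) * (B * A))).c y = δ y ^ (ex l₀ (lt (l₀, s))).toAdd := fun y => by
        rw [map_mul, mul_c, e5 _ (mul_mem hB hA), mul_one, e4 _ (lt_mem hl), base_c, hD]
      have h5 : rd (w j) (n j) ^ N = A * (lt (l₀, s) * (B * A)) ^ N * A⁻¹ := by
        rw [← conj_pow, h]; group
      have h6 : ∀ y, y ≠ 0 → y ≠ 1 → (η (lt (l₀, s) * (B * A))).c y = 1 := fun y a b => by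
        rw [h4]; simp [δ, a, b]
      rw [h5, map_mul, map_mul, map_inv, conj_c _ (e3 _), e5 A hA, one_mul, inv_one, mul_one,
        map_pow]
      rcases ex_lt (l₀, s) with e | e
      · refine ⟨1, ?_⟩
        have := two _ _ (e1 _) h3 zero_ne_one h6 ((η A).p⁻¹ y)
        rw [h4, h4, e] at this
        simpa [δ] using this
      · refine ⟨-1, ?_⟩
        have := two _ _ (e1 _) h3 one_ne_zero (fun y a b => h6 y b a) ((η A).p⁻¹ y)
        rw [h4, h4, e] at this
        simpa [δ] using this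
  · rw [e4 b hb]
    refine ⟨rfl, ?_, ?_, fun y a b => ?_⟩ <;> simp [δ, *]
  · refine DFunLike.congr_fun (FreeGroup.ext_hom (tot.comp ((push phi).comp η)) 1 fun a => ?_) b
    have : ∀ z : MZ, ∏ y, phi (D z y) = 1 := fun z => by
      rw [Finset.prod_eq_mul (0 : ZMod N) 1 zero_ne_one]
      · simp [hD, δ, phi, al, be]
      all_goals simp +contextual [hD, δ]
    simpa [η, tot_apply] using this _

end Pool.Agent.P.MP_67c9d4_al.FC
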