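import Pool.Agent.P.MP_67c9d4_al.FC.Iface

/-! Extending a representation over an HNN extension after a cyclic cover. -/

namespace Pool.Agent.P.MP_67c9d4_al.FC

open Equiv Wr Multiplicative TD

theorem s_EXTEND : S_EXTEND := by
  intro H H' W _ _ _ χ i a y s h ha hy ρ n hn hc
  obtain ⟨c, hc⟩ := isConj_iff.1 hc
  have : NeZero n := ⟨hn.ne'⟩
  let π : MZ →* Multiplicative (ZMod n) := AddMonoidHom.toMultiplicative (Int.castAddHom (ZMod n))
  obtain ⟨γ, hγ⟩ := upgrade (ρ.comp (zpowersHom H a)) (ρ.comp (zpowersHom H y)) π π 1 c⁻¹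
    (fun l => by simp) (fun l hl => by
      have h1 : ((l.toAdd : ℤ) : ZMod n) = 0 := congrArg toAdd hl
      obtain ⟨j, hj⟩ := (ZMod.intCast_zmod_eq_zero_iff_dvd _ _).1 h1
      change ρ (a ^ l.toAdd) = c⁻¹ * ρ (y ^ l.toAdd) * c⁻¹⁻¹
      rw [hj, zpow_mul, zpow_mul, zpow_natCast, zpow_natCast, map_zpow, map_zpow, ← hc, conj_zpow]
      group)
  let f : H →* Wr (Multiplicative (ZMod n)) W :=
    cst ((MulAction.toPermHom (Multiplicative (ZMod n)) (Multiplicative (ZMod n))).comp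
      (π.comp χ)) ρ
  have hf : ∀ x : H, χ x = ofAdd 1 → f x =
      cst ((MulAction.toPermHom (Multiplicative (ZMod n)) (Multiplicative (ZMod n))).comp π)
        (ρ.comp (zpowersHom H x)) (ofAdd 1) := fun x hx => by
    refine Wr.ext ?_ (funext fun q => ?_)
    · change MulAction.toPermHom _ _ (π (χ x)) = MulAction.toPermHom _ _ (π (ofAdd 1))
      rw [hx]
    · change ρ x = ρ (x ^ (1 : ℤ))
      rw [zpow_one]
  obtain ⟨F, h1, -⟩ := h.up _ f γ (by rw [hf a ha, hf y hy, hγ]; group)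
  exact ⟨Multiplicative (ZMod n), inferInstance, inferInstance, F, fun x q => by rw [h1]; rfl⟩

theorem s_EXTF (hEXTEND : S_EXTEND) : S_EXTF := by
  intro H H' B X _ _ _ χ i a y s h ha hy σ n hn hc
  obtain ⟨Y, _, _, ρ', h1⟩ := hEXTEND H H' (Wr X B) χ i a y s h ha hy σ n hn hc
  refine ⟨Y, inferInstance, inferInstance, flat.comp ρ', fun g q => ?_, fun g q => ?_⟩
  · change ((ρ' (i g)).c _).p q.2 = _
    rw [h1]
  · change ((ρ' (i g)).c _).c q.2 = _
    rw [h1]

end Pool.Agent.P.MP_67c9d4_al.FC
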