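import Pool.Agent.P.MP_67c9d4_al.FC.Iface

namespace Pool.Agent.P.MP_67c9d4_al.FC

open Equiv Wr Multiplicative TD

namespace FFx

/-- An endomorphism fixing `x` fixes the centraliser of `x`. -/
lemma fix_of_commute (hROOT : S_ROOT) {B : Type} (e : FreeGroup B →* FreeGroup B)
    {x g : FreeGroup B} (hx : x ≠ 1) (he : e x = x) (hg : g * x * g⁻¹ = x) : e g = g := by
  obtain ⟨w, m, rfl, hw⟩ := hROOT B x hx
  have hm : m ≠ 0 := by rintro rfl; simp at hx
  have h1 : e w = w := by
    rw [map_zpow] at he
    exact zpow_left_injective hm he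
  obtain ⟨n, rfl⟩ := hw g m m hm hg
  simp [h1]

/-- Killing the new letter. -/
def r (A : Type) : FreeGroup (Option A) →* FreeGroup A :=
  FreeGroup.lift fun o => o.elim 1 FreeGroup.of

lemma r_map {A : Type} (x : FreeGroup A) : r A (FreeGroup.map some x) = x := by
  have : (r A).comp (FreeGroup.map some) = MonoidHom.id _ := by ext a; simp [r]
  exact DFunLike.congr_fun this x

lemma r_none {A : Type} : r A (FreeGroup.of none) = 1 := by simp [r]

/-- The exponent of the new letter. -/
def c (A : Type) : FreeGroup (Option A) →* MZ :=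
  FreeGroup.lift fun o => o.elim (ofAdd 1) fun _ => 1

lemma c_map {A : Type} (x : FreeGroup A) : c A (FreeGroup.map some x) = 1 := by
  have : (c A).comp (FreeGroup.map some) = 1 := by ext a; simp [c]
  exact DFunLike.congr_fun this x

lemma c_none {A : Type} : c A (FreeGroup.of none) = ofAdd 1 := by simp [c]

lemma zpow_ne {B : Type} {x : FreeGroup B} (hx : x ≠ 1) {i : ℤ} (hi : i ≠ 0) : x ^ i ≠ 1 :=
  fun h => hx (zpow_left_injective hi (by simpa using h))

end FFx

open FFx in
theorem s_FF (hROOT : S_ROOT) : S_FF := by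
  intro A K z hz hM k k' g i j hi h
  rcases k with _ | k <;> rcases k' with _ | k' <;> simp only [Option.elim] at h ⊢
  · have h1 := congrArg (fun x => (c A x).toAdd) h
    simp only [map_mul, map_inv, map_zpow, c_none, toAdd_mul, toAdd_inv, toAdd_zpow, toAdd_ofAdd,
      smul_eq_mul, mul_one] at h1
    obtain rfl : i = j := by omega
    have h2 := fix_of_commute hROOT
      ((zpowersHom (FreeGroup (Option A)) (FreeGroup.of none)).comp (c A))
      (zpow_ne (FreeGroup.of_ne_one none) hi) (by simp [c_none]) h
    exact ⟨trivial, (c A g).toAdd, h2⟩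
  · have h1 := congrArg (fun x => (c A x).toAdd) h
    simp only [map_mul, map_inv, map_zpow, c_none, c_map, toAdd_mul, toAdd_inv, toAdd_zpow,
      toAdd_ofAdd, toAdd_one, smul_eq_mul, mul_one, mul_zero] at h1
    omega
  · have h1 := congrArg (r A) h
    simp only [map_mul, map_inv, map_zpow, r_none, r_map, one_zpow] at h1
    exact absurd (by simpa using h1) (zpow_ne (hz k) hi)
  · have h1 := congrArg (r A) h
    simp only [map_mul, map_inv, map_zpow, r_map] at h1
    obtain ⟨rfl, n, hn⟩ := hM k k' _ i j hi h1
    have h2 := congrArg (FreeGroup.map (some : A → Option A)) h1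
    simp only [map_mul, map_inv, map_zpow] at h2
    have h3 : FreeGroup.map (some : A → Option A) (z k) ≠ 1 := fun e =>
      hz k (by rw [← r_map (z k), e, map_one])
    have h4 := fix_of_commute hROOT ((FreeGroup.map some).comp (r A))
      (g := (FreeGroup.map some (r A g))⁻¹ * g) (zpow_ne h3 hi) (by simp [r_map]) (by
        calc _ = (FreeGroup.map some (r A g))⁻¹ * (g * FreeGroup.map some (z k) ^ i * g⁻¹) *
              FreeGroup.map some (r A g) := by group
          _ = _ := by rw [h, ← h2]; group)
    simp only [MonoidHom.comp_apply, map_mul, map_inv, r_map, inv_mul_cancel] at h4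
    refine ⟨rfl, n, ?_⟩
    rw [eq_inv_mul_iff_mul_eq, mul_one, ← hn, map_zpow] at h4
    exact h4

end Pool.Agent.P.MP_67c9d4_al.FC
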