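import Pool.Agent.P.MP_67c9d4_al.FC.Iface

/-! An element that fixes two vertices fixes the first edge between them. -/

namespace Pool.Agent.P.MP_67c9d4_al.FC

open Equiv Wr Multiplicative TD

theorem s_FIX (hRED : S_RED) (hKAP : S_KAP) (hSEG : S_SEG) : S_FIX := by
  intro H V E _ D hT u v g h hu hv
  refine (hRED H V E D hT u v g).imp id ?_
  rintro ⟨n, c, hc, rfl, h0, rfl, hn⟩
  refine ⟨(c 0).1, (c 0).2, rfl, h0, ?_⟩
  obtain ⟨Ev, hM, hp, h1, -, -, hs⟩ := hKAP H V E _ D (qa ⊥) hT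
  have hN : (⊥ : Subgroup H).Normal := inferInstance
  obtain ⟨c', e1, e2⟩ : ∃ c' : ℕ → (E × Bool) × H, (∀ i ≤ n, c' i = c i) ∧
      c' (n + 1) = D.rev (c n) :=
    ⟨fun i => if i ≤ n then c i else D.rev (c n), fun i hi => if_pos hi, if_neg (by omega)⟩
  have hl : ∀ i < n + 1, D.Lk (c' i) (c' (i + 1)) := fun i hi => by
    rcases (Nat.lt_succ_iff.1 hi).eq_or_lt with rfl | hi
    · rw [e1 i le_rfl, e2]
      exact ⟨rfl, by simp only [TD.rev, inv_mul_cancel]; exact one_mem _⟩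
    · rw [e1 i hi.le, e1 _ hi]
      exact (hc i (by omega)).1
  have f1 : ∀ x, (Ev (D.vt (c 0).1) (D.vt (bar (c n).1)) g).c x =
      rd (fun i => D.lab (qa ⊥) (c' i) x) (n + 1) := fun x => by
    have := hs c' (n + 1) hl x
    rw [e1 0 n.zero_le, e2] at this
    rw [← this, show g = (c 0).2 * ((c 0).2⁻¹ * ((c n).2 * D.ε (c n).1)) *
      (((c n).2 * D.ε (c n).1)⁻¹ * g) by group, ← hM _ (D.vt (bar (c n).1)),
      ← hM _ (D.vt (c 0).1), mul_c, mul_c, h1 _ _ h0, h1 _ _ hn, one_mul, mul_one, hp, map_inv]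
    rfl
  have f2 : (Ev (D.vt (c 0).1) (D.vt (bar (c n).1)) g).c ((1 : H) : H ⧸ (⊥ : Subgroup H)) =
      (Ev (D.vt (c 0).1) (D.vt (bar (c n).1)) g).c ((h⁻¹ * 1 : H) : H ⧸ (⊥ : Subgroup H)) := by
    have e := (hM (D.vt (c 0).1) (D.vt (bar (c n).1)) (D.vt (bar (c n).1)) g (g⁻¹ * h * g)).trans
      ((congrArg _ (by group)).trans (hM _ (D.vt (c 0).1) _ h g).symm)
    have := congrArg (fun w => w.c ((1 : H) : H ⧸ (⊥ : Subgroup H))) e
    simp only [mul_c, h1 _ _ hu, h1 _ _ hv, one_mul, mul_one, hp, ← map_inv] at this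
    exact this
  have red : ∀ (x : H) i, i + 1 < n + 1 → D.lab (qa ⊥) (c' (i + 1)) (x : H ⧸ (⊥ : Subgroup H)) ≠
      ((D.lab (qa ⊥) (c' i) (x : H ⧸ (⊥ : Subgroup H))).1,
        !(D.lab (qa ⊥) (c' i) (x : H ⧸ (⊥ : Subgroup H))).2) := fun x i hi e => by
    rw [← lab_rev, lab_eq hN, same_act, e1 _ (by omega), e1 _ (by omega)] at e
    exact (hc i hi).2 e.symm
  rw [f1, f1] at f2
  obtain ⟨d, hd, key⟩ := hSEG _ _ _ (n + 1) (n + 1) 0 [] [] (red 1) (red (h⁻¹ * 1)) le_rfl le_rfl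
    ((mul_one _).trans (f2.trans (one_mul _).symm))
  obtain ⟨i, e, -, e3⟩ := key 0 le_rfl (by omega)
  obtain rfl : i = 0 := by have := abs_le.1 hd; omega
  rw [lab_eq hN, e1 0 n.zero_le, inv_one, act_one, mul_one, inv_inv, same_act_self hN,
    sup_bot_eq] at e3
  exact e3

end Pool.Agent.P.MP_67c9d4_al.FC
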