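import Pool.Agent.P.MP_67c9d4_al.FC.Iface

/-! A permutation without periodic points fixes no nontrivial word. -/

namespace Pool.Agent.P.MP_67c9d4_al.FC

open Equiv Wr Multiplicative TD

theorem s_FIXW : S_FIXW := by
  intro Ω p w hp h
  classical
  have e : pa p w = FreeGroup.mk (w.toWord.map fun x => (p x.1, x.2)) := by
    conv_lhs => rw [← FreeGroup.mk_toWord (x := w)]
    rfl
  have h1 : FreeGroup.reduce (w.toWord.map fun x => (p x.1, x.2)) = w.toWord := by
    rw [← FreeGroup.toWord_mk, ← e, h]
  have h2 := (FreeGroup.Red.sublist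
    (FreeGroup.reduce.red (L := w.toWord.map fun x => (p x.1, x.2))))
  rw [h1] at h2
  have h3 := h2.eq_of_length (List.length_map _).symm
  rw [← FreeGroup.toWord_eq_nil_iff]
  cases hL : w.toWord with
  | nil => rfl
  | cons x L =>
    rw [hL, List.map_cons] at h3
    exact absurd (congrArg Prod.fst (List.cons.inj h3).1).symm (hp x.1 1 one_pos)

end Pool.Agent.P.MP_67c9d4_al.FC
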