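import Pool.Agent.P.MP_67c9d4_al.FC.Iface

/-! A virtual character of a free group that kills a free factor and no power of a given element. -/

namespace Pool.Agent.P.MP_67c9d4_al.FC

open Equiv Wr Multiplicative TD

namespace FLx

variable {W Q : Type} [Group Q] (π : FreeGroup W →* Q)

/-- The labels seen by elements of the free factor from the point `x`. -/
def lab (S : Set W) (x : Q) : Set (Q × W) := {l | l.2 ∈ S ∧ l.1 * x⁻¹ ∈ (FS S).map π}

lemma lemA {S : Set W} {h : FreeGroup W} (hh : h ∈ FS S) :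
    ∀ x, (om π h).c x ∈ FS (lab π S x) := by
  induction hh using Subgroup.closure_induction with
  | mem b hb =>
    obtain ⟨a, ha, rfl⟩ := hb
    intro x
    rw [← lt_true, om_lt]
    exact lt_mem ⟨ha, by simp [lbl]⟩
  | one => intro x; simp
  | mul a b ha _ iha ihb =>
    intro x
    rw [om_mul]
    refine mul_mem (iha x) (FS_mono ?_ (ihb _))
    rintro l ⟨h1, h2⟩
    refine ⟨h1, ?_⟩
    have := mul_mem h2 (inv_mem (Subgroup.mem_map_of_mem π ha))
    simpa [mul_assoc] using this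
  | inv a ha iha =>
    intro x
    rw [map_inv, inv_c, om_p]
    refine inv_mem (FS_mono ?_ (iha _))
    rintro l ⟨h1, h2⟩
    refine ⟨h1, ?_⟩
    have := mul_mem h2 (Subgroup.mem_map_of_mem π ha)
    simpa [mul_assoc] using this

lemma ind_of [Finite Q] {S : Set W} {b : FreeGroup W} {l : Q × W} (hl : l ∉ lab π S 1) {n : ℕ}
    (h1 : (om π (b ^ n)).p = 1) (h2 : ex l ((om π (b ^ n)).c 1) ≠ 1) : Ind1 b (FS S) := by
  refine ind1_of_nz (σ := (push (ex l)).comp (om π)) (x := 1) ⟨n, ?_, h2⟩ fun g hg _ => ?_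
  · rw [MonoidHom.comp_apply, push_p, h1]; rfl
  · exact ex_of_notMem hl (lemA π hg 1)

omit [Group Q] in
lemma map_snd {S : Set W} {S' : Set (Q × W)} (h : ∀ l ∈ S', l.2 ∈ S) {τ : FreeGroup (Q × W)}
    (hτ : τ ∈ FS S') : FreeGroup.map Prod.snd τ ∈ FS S := by
  refine (Subgroup.closure_le ((FS S).comap (FreeGroup.map Prod.snd))).2 ?_ hτ
  rintro _ ⟨l, hl, rfl⟩
  exact Subgroup.subset_closure ⟨l.2, h l hl, by simp⟩

lemma root_mem {S : Set W} {b : FreeGroup W} {n : ℕ} (hn : 0 < n) (h : b ^ n ∈ FS S) :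
    b ∈ FS S := by
  classical
  let r : FreeGroup W →* FreeGroup W := FreeGroup.lift fun a => if a ∈ S then FreeGroup.of a else 1
  have h1 : ∀ g ∈ FS S, r g = g := fun g hg => by
    refine MonoidHom.eqOn_closure (f := r) (g := MonoidHom.id _) ?_ hg
    rintro _ ⟨a, ha, rfl⟩
    simp [r, ha]
  have h2 : ∀ g, r g ∈ FS S := fun g => by
    induction g using FreeGroup.induction_on with
    | C1 => simp
    | of a =>
      by_cases ha : a ∈ S
      · have : FreeGroup.of a ∈ FS S := Subgroup.subset_closure ⟨a, ha, rfl⟩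
        simpa [r, ha] using this
      · simp [r, ha]
    | inv_of a ih => rw [map_inv]; exact inv_mem ih
    | mul a b ha hb => rw [map_mul]; exact mul_mem ha hb
  have h3 : r b ^ n = b ^ n := by rw [← map_pow, h1 _ h]
  rw [← pow_left_injective hn.ne' h3]
  exact h2 b

end FLx

open FLx in
theorem s_FL (hRFF : S_RFF) : S_FL := by
  intro W _ S b hb
  by_cases hc : ∃ (n : ℕ) (s : FreeGroup W), 0 < n ∧ s ∈ FS S ∧ IsConj s (b ^ n)
  · obtain ⟨n, s, hn, hs, hc⟩ := hc
    obtain ⟨u, hu⟩ := isConj_iff.1 hc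
    have hu1 : u ∉ FS S := fun h =>
      hb (root_mem hn (hu ▸ mul_mem (mul_mem h hs) (inv_mem h)))
    have hs1 : s ≠ 1 := by
      rintro rfl
      exact hb (root_mem hn (by rw [← hu]; simp))
    obtain ⟨N₁, hN₁, hu2⟩ := (hRFF W).2 S u hu1
    obtain ⟨N, hN, h⟩ := cyc_main hs1
    obtain ⟨k1, k2⟩ := hN₁.inf (FN.core N)
    let π := QuotientGroup.mk' (N₁ ⊓ N.normalCore)
    have hk : π.ker = N₁ ⊓ N.normalCore := QuotientGroup.ker_mk' _
    have hq : ∀ q : FreeGroup W ⧸ (N₁ ⊓ N.normalCore),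
        q ^ Nat.card (FreeGroup W ⧸ (N₁ ⊓ N.normalCore)) = 1 := fun q => pow_card_eq_one'
    obtain ⟨S', τ, j, h1, h2, h3⟩ := (h _ π (hk.le.trans (inf_le_right.trans N.normalCore_le))).2 _
      Nat.card_pos hq (π u)⁻¹
    obtain ⟨l, hl⟩ := h1.ne
    rw [← zpow_natCast] at h3
    have h4 := Gr.ex_ne π h1 hl (Int.natCast_ne_zero.2 h2.ne')
    rw [← Gr.ex_conj l h3] at h4
    have h5 : l ∈ lab π S (π u)⁻¹ := by_contra fun h5 =>
      h4 (ex_of_notMem h5 (lemA π (pow_mem hs _) _))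
    have h6 : l ∉ lab π S 1 := by
      rintro ⟨-, h6⟩
      have h7 := mul_mem (inv_mem h6) h5.2
      have h8 : π u ∈ (FS S).map π := by simpa [mul_assoc] using h7
      obtain ⟨a, ha, e⟩ := h8
      refine hu2 ((mem_sup_left' hN₁.1).2 ⟨a, ha, ?_⟩)
      have : a⁻¹ * u ∈ π.ker := by rw [MonoidHom.mem_ker, map_mul, map_inv, e, inv_mul_cancel]
      exact (hk ▸ this : a⁻¹ * u ∈ N₁ ⊓ N.normalCore).1
    refine ind_of π h6 (n := n * Nat.card (FreeGroup W ⧸ (N₁ ⊓ N.normalCore))) ?_ ?_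
    · rw [pow_mul]; exact Gr.om_pow_p hq _
    · rw [pow_mul, ← hu, conj_pow, map_mul, map_mul, map_inv, conj_c _ (Gr.om_pow_p hq _),
        om_p_inv, mul_one, map_mul, map_mul, map_inv, mul_inv_cancel_comm]
      exact h4
  · have hb1 : b ≠ 1 := by
      rintro rfl
      exact hb (one_mem _)
    obtain ⟨N, hN, h⟩ := cyc_main hb1
    let π := QuotientGroup.mk' N.normalCore
    have hk : π.ker = N.normalCore := QuotientGroup.ker_mk' _
    have hq : ∀ q : FreeGroup W ⧸ N.normalCore,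
        q ^ Nat.card (FreeGroup W ⧸ N.normalCore) = 1 := fun q => pow_card_eq_one'
    obtain ⟨S', τ, j, h1, h2, h3⟩ := (h _ π (hk.le.trans N.normalCore_le)).2 _ Nat.card_pos hq 1
    have h4 : ∃ l ∈ S', l.2 ∉ S := by
      by_contra h4
      push Not at h4
      refine hc ⟨_, _, Nat.card_pos (α := FreeGroup W ⧸ N.normalCore),
        pow_mem (map_snd h4 h1.mem) j, ?_⟩
      have := (FreeGroup.map Prod.snd).map_isConj h3
      rwa [map_om, map_pow] at this
    obtain ⟨l, hl, h5⟩ := h4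
    rw [← zpow_natCast] at h3
    have h6 := Gr.ex_ne π h1 hl (Int.natCast_ne_zero.2 h2.ne')
    rw [← Gr.ex_conj l h3] at h6
    exact ind_of π (fun h7 => h5 h7.1) (Gr.om_pow_p hq _) h6

end Pool.Agent.P.MP_67c9d4_al.FC
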