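import Pool.Agent.P.MP_67c9d4_al.FC.Iface

/-! The last steps. -/

namespace Pool.Agent.P.MP_67c9d4_al.FC

open Equiv Wr Multiplicative TD SemidirectProduct

theorem s_STEP (hHVP : S_HVP) (hHO1E : S_HO1E) (hHO2 : S_HO2) (hHOJE : S_HOJE) : S_STEP := by
  intro H H' V _ _ χ t o y i s χ' h
  exact ⟨fun v => (h.chi _).trans (h.good.chi v), hHO1E H H' V χ t o y i s χ' h,
    hHO2 H H' V χ t o y i s χ' h, hHOJE H H' V χ t o y i s χ' h,
    (hHVP H H' V χ t o y i s χ' h).1, (hHVP H H' V χ t o y i s χ' h).2⟩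

lemma va_comap {G G' : Type} [Group G] [Group G'] (h : VA G) {J : G' →* G}
    (hJ : Function.Injective J) : VA G' := by
  obtain ⟨K, hK, T, hT, Γ, f, hf⟩ := h
  refine ⟨K.comap J, fi_comap K J, T, hT, Γ, f.comp (J.subgroupComap K), hf.comp fun a b e => ?_⟩
  exact Subtype.ext (hJ (congrArg Subtype.val e))

/-- Passing to a root of the monodromy. -/
lemma va_root {N P : Type} [Group N] [Group P] {ι : N →* P} {D : MulAut P} {φ : MulAut N}
    (hφ : IsRoot ι D φ) (hv : VRC (MT φ))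
    (h : ∀ ψ : MulAut N, (∀ x, ι (ψ x) = D (ι x)) → VR (MT ψ) → VA (MT ψ)) : VA (MT φ) := by
  obtain ⟨k, c, hk, hφ⟩ := hφ
  let J : MT (MulAut.conj c⁻¹ * φ ^ k) →* MT φ :=
    slift inl (inl c⁻¹ * inr (ofAdd (k : ℤ))) fun x => by
      have := inl_aut (φ := zpowersHom (MulAut N) φ) (ofAdd (k : ℤ)) x
      simp only [zpowersHom_apply, toAdd_ofAdd, zpow_natCast] at this
      rw [MulAut.mul_apply, MulAut.conj_apply]
      simp only [map_mul, this, map_inv]
      group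
  have hJ : Function.Injective J := slift_inj _ (fun x e => inl_injective (by simpa using e))
    rightHom (by simp) (k := k) (by omega) (by simp)
  refine (h _ (fun x => ?_) (hv.vr.comap hJ)).map hJ ?_
  · rw [MulAut.mul_apply, MulAut.conj_apply]
    simp only [map_mul, hφ, map_inv]
    group
  · haveI : (AddSubgroup.zmultiples (k : ℤ)).toSubgroup.FiniteIndex :=
      ⟨by rw [AddSubgroup.index_toSubgroup, Int.index_zmultiples]; omega⟩
    haveI := fi_comap (AddSubgroup.zmultiples (k : ℤ)).toSubgroup (rightHom : MT φ →* _)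
    refine Subgroup.finiteIndex_of_le
      (H := (AddSubgroup.zmultiples (k : ℤ)).toSubgroup.comap rightHom) ?_
    rintro x ⟨i, hi⟩
    have a : ∀ y, inl y ∈ J.range := fun y => ⟨inl y, by simp [J, slift_apply]⟩
    have b : inl c⁻¹ * inr (ofAdd (k : ℤ)) ∈ J.range := ⟨inr (ofAdd 1), by simp [J, slift_apply]⟩
    rw [← inl_left_mul_inr_right x, show x.right = ofAdd (k : ℤ) ^ i from hi.symm, map_zpow]
    exact Subgroup.mul_mem _ (a _) (Subgroup.zpow_mem _ ((Subgroup.mul_mem_cancel_left _ (a _)).1 b) _)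

def S_MAIN : Prop := ∀ (V N : Type) [Finite V] [Group N] (m : ℕ) (o t : Fin m → V)
  (u : Fin m → FreeGroup (Fin m)),
  (∀ e, u e ∈ Subgroup.closure (FreeGroup.of '' {e' | e' < e})) →
  (∀ e, GPath o t (t e) (t e) (u e)) → ∀ v₀ : V, (∀ v, ∃ g, GPath o t v₀ v g) →
  ∀ ι : N →* FreeGroup (Fin m), Function.Injective ι → (∀ g, g ∈ ι.range ↔ GPath o t v₀ v₀ g) →
  ∀ D : MulAut (FreeGroup (Fin m)), (∀ e, D (FreeGroup.of e) = FreeGroup.of e * u e) →
  ∀ φ : MulAut N, IsRoot ι D φ → VRC (MT φ) → VA (MT φ)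

theorem s_MAIN (hTOPH : S_TOPH) (hVIS : S_VIS) (hNF : S_NF) (hEMBT : S_EMBT) : S_MAIN := by
  intro V N _ _ m o t u hu hl v₀ conn ι hι hr D hD φ hφ hv
  refine va_root hφ hv fun ψ hψ hvr => ?_
  obtain ⟨H, η, τ, j, hP, hj, hT⟩ := hTOPH V m o t u hu
  have h1 := hVIS V _ N H.H o t u v₀ ι D ψ η τ H.χ hl conn hι hr hD hψ hP hvr
  obtain ⟨J, hJ, -⟩ := hEMBT V _ N H.H o t u v₀ ι D ψ η τ H.χ hl conn hι hr hD hψ hP
  exact va_comap (hNF V H j m hT fun v => by rw [hj]; exact h1 v).va hJ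

end Pool.Agent.P.MP_67c9d4_al.FC
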