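import Pool.Agent.P.MP_67c9d4_al.FC.Iface

/-! Gluing the states of an automaton along the edges of a graph of groups. -/

namespace Pool.Agent.P.MP_67c9d4_al.FC

open Equiv Wr Multiplicative TD

namespace GLUEx

variable {H V E X F Z : Type} [Group H]

lemma ia (a : Perm X) (x : X) : a⁻¹ (a x) = x := a.symm_apply_apply x

lemma ai (a : Perm X) (x : X) : a (a⁻¹ x) = x := a.apply_symm_apply x

lemma eta (α : H →* Perm X) (ψ : F → H →* Wr X MZ) (hψ : ∀ f h, (ψ f h).p = α h)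
    (Λ : Subgroup H) :
    ∃ η : X → F → MZ, ∀ g ∈ Λ, ∀ x, ∃ h ∈ Λ, ∃ r ∈ Λ, α h (α r x) = α r x ∧
      ∀ f, (ψ f g).c x * η ((α g)⁻¹ x) f = η x f * (ψ f h).c (α r x) := by
  let r := MulAction.orbitRel (Λ.map α) X
  let b : X → X := fun x => (Quotient.mk r x).out
  have h1 : ∀ x, ∃ l ∈ Λ, α l (b x) = x := fun x => by
    obtain ⟨⟨_, l, hl, rfl⟩, e⟩ := Quotient.exact (Quotient.out_eq (Quotient.mk r x)).symm
    exact ⟨l, hl, e⟩
  have h2 : ∀ g ∈ Λ, ∀ x, b (α g x) = b x := fun g hg x =>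
    congrArg Quotient.out (Quotient.sound ⟨⟨_, g, hg, rfl⟩, rfl⟩)
  choose l hl e using h1
  refine ⟨fun x f => (ψ f (l x)).c x, fun g hg x => ?_⟩
  obtain ⟨y, rfl⟩ := (α g).surjective x
  have h3 : (α g)⁻¹ (α g y) = y := by simp
  have h4 : (α (l (α g y)))⁻¹ (α g y) = b y := by
    rw [Perm.inv_eq_iff_eq, ← h2 g hg y, e]
  refine ⟨(l (α g y))⁻¹ * (g * l y), Λ.mul_mem (Λ.inv_mem (hl _)) (Λ.mul_mem hg (hl _)),
    (l (α g y))⁻¹, Λ.inv_mem (hl _), ?_, fun f => ?_⟩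
  · rw [map_mul, map_mul, map_inv, h4, Perm.mul_apply, Perm.mul_apply, e, h4]
  · have h6 := mul_c (ψ f (l (α g y))) (ψ f ((l (α g y))⁻¹ * (g * l y))) (α g y)
    rw [← map_mul, mul_inv_cancel_left, map_mul, mul_c, hψ, hψ, h3, h4] at h6
    beta_reduce
    rw [h3, map_inv α, h4, h6]

/-- Every state acts through its own representation. -/
def SS (α : H →* Perm X) (ψ : F → H →* Wr X MZ) (hψ : ∀ f h, (ψ f h).p = α h) (st : Z → F) :
    H →* Wr (X × Z) MZ where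
  toFun g := ⟨Equiv.prodCongr (α g) (Equiv.refl Z), fun q => (ψ (st q.2) g).c q.1⟩
  map_one' := by ext q <;> simp
  map_mul' a b := by
    refine Wr.ext (by ext q <;> simp) (funext fun q => ?_)
    change (ψ (st q.2) (a * b)).c q.1 = (ψ (st q.2) a).c q.1 * (ψ (st q.2) b).c ((α a)⁻¹ q.1)
    rw [map_mul, mul_c, hψ]

/-- The change of state. -/
def UU (Ψ : X → Perm Z) (η : X → F → MZ) (st : Z → F) : Wr (X × Z) MZ :=
  ⟨Equiv.prodShear (Equiv.refl X) Ψ, fun q => η q.1 (st q.2) / η q.1 (st ((Ψ q.1)⁻¹ q.2))⟩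

/-- The unsigned label of an edge. -/
def lb (D : TD H V E) (α : H →* Perm X) (e : E) (x : X) : E × Set X :=
  (e, {x' | ∃ g ∈ D.P (e, true), x' = α g x})

lemma lb_act (D : TD H V E) (α : H →* Perm X) (e : E) {g : H} (hg : g ∈ D.P (e, true)) (x : X) :
    lb D α e ((α g)⁻¹ x) = lb D α e x := by
  refine Prod.ext rfl (Set.ext fun y => ⟨?_, ?_⟩)
  · rintro ⟨r, hr, rfl⟩
    exact ⟨r * g⁻¹, mul_mem hr (inv_mem hg), by rw [map_mul, map_inv, Perm.mul_apply]⟩
  · rintro ⟨r, hr, rfl⟩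
    exact ⟨r * g, mul_mem hr hg, by simp⟩

lemma lab_t (D : TD H V E) (α : H →* Perm X) (e : E) (x : X) :
    D.lab α ((e, true), 1) x = (lb D α e x, true) := by
  simp [lab, lb]

lemma lab_f (D : TD H V E) (α : H →* Perm X) (e : E) (x : X) :
    D.lab α ((e, false), 1) x = (lb D α e (α (D.ε (e, true)) x), false) := by
  have := D.inv (e, true)
  rw [bar_true] at this
  simp [lab, lb, this]

lemma comm (D : TD H V E) (α : H →* Perm X) (ψ : F → H →* Wr X MZ)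
    (hψ : ∀ f h, (ψ f h).p = α h) (C : Cfg (D.RL α ψ)) (e : E) (η : X → F → MZ)
    (hη : ∀ g ∈ D.P (e, true), ∀ x, ∃ h ∈ D.P (e, true), ∃ r ∈ D.P (e, true),
      α h (α r x) = α r x ∧ ∀ f, (ψ f g).c x * η ((α g)⁻¹ x) f = η x f * (ψ f h).c (α r x))
    {g : H} (hg : g ∈ D.P (e, true)) :
    SS α ψ hψ C.st g * UU (fun x => C.Φ (lb D α e x)) η C.st =
      UU (fun x => C.Φ (lb D α e x)) η C.st * SS α ψ hψ C.st g := by
  refine Wr.ext (Equiv.ext fun q => ?_) (funext fun q => ?_)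
  · have := lb_act D α e hg (α g q.1)
    rw [ia] at this
    change (α g q.1, C.Φ (lb D α e q.1) q.2) = (α g q.1, C.Φ (lb D α e (α g q.1)) q.2)
    rw [this]
  · obtain ⟨x, z⟩ := q
    change (ψ (C.st z) g).c x * (η ((α g)⁻¹ x) (C.st z) /
        η ((α g)⁻¹ x) (C.st ((C.Φ (lb D α e ((α g)⁻¹ x)))⁻¹ z))) =
      η x (C.st z) / η x (C.st ((C.Φ (lb D α e x))⁻¹ z)) *
        (ψ (C.st ((C.Φ (lb D α e x))⁻¹ z)) g).c x
    rw [lb_act D α e hg]
    obtain ⟨h, hh, r, hr, h1, h2⟩ := hη g hg x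
    have h3 := C.ok (lb D α e x) ((C.Φ (lb D α e x))⁻¹ z) (α r x) ⟨r, hr, rfl⟩ h hh h1
    rw [ai] at h3
    have h4 := h2 (C.st z)
    have h5 := h2 (C.st ((C.Φ (lb D α e x))⁻¹ z))
    rw [← h3] at h5
    rw [← mul_div_assoc, h4, div_mul_eq_mul_div, div_eq_div_iff_mul_eq_mul, mul_assoc, mul_assoc,
      h5, mul_comm ((ψ (C.st z) h).c (α r x))]

end GLUEx

open GLUEx in
theorem s_GLUE : S_GLUE := by
  intro H V E X F _ D α ψ hT hψ
  choose η hη using fun e : E => eta α ψ hψ (D.P (e, true))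
  have hε : ∀ e : E, D.ε (e, false) = (D.ε (e, true))⁻¹ := fun e => D.inv (e, true)
  refine ⟨fun k x f => bif k.2 then (η k.1 x f).toAdd else
      (η k.1 (α (D.ε (k.1, true)) x) f).toAdd -
        ((ψ f (D.ε (k.1, true))).c (α (D.ε (k.1, true)) x)).toAdd,
    fun k x f => bif k.2 then ((ψ f (D.ε (k.1, true))).c x).toAdd - (η k.1 x f).toAdd else
      -(η k.1 (α (D.ε (k.1, true)) x) f).toAdd, ?_, fun C => ?_⟩
  · rintro ⟨e, _ | _⟩ x f
    · rw [hε, map_inv, inv_c, hψ, toAdd_inv]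
      simp only [cond]
      ring
    · simp only [cond]
      ring
  let S := SS α ψ hψ C.st
  let γ : E → Wr (X × C.Z) MZ := fun e =>
    UU (fun x => C.Φ (lb D α e x)) (η e) C.st * S (D.ε (e, true))
  have key : ∀ e, ∀ g ∈ D.P (e, true), S g * γ e =
      γ e * S ((D.ε (e, true))⁻¹ * g * D.ε (e, true)) := fun e g hg => by
    simp only [γ]
    rw [← mul_assoc, comm D α ψ hψ C e (η e) (hη e) hg, mul_assoc, mul_assoc, ← map_mul,
      ← map_mul, ← mul_assoc, ← mul_assoc, mul_inv_cancel, one_mul]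
  obtain ⟨Ev, m, h1, h2⟩ := hT.up _ (fun _ g => S g) (fun k => bif k.2 then γ k.1 else (γ k.1)⁻¹)
    (fun _ g _ h _ => map_mul S g h) (by rintro ⟨e, _ | _⟩ <;> simp [bar]) (by
      rintro ⟨e, _ | _⟩ g hg
      · have := key e g hg
        simp only [cond, hε, inv_inv]
        rw [mul_assoc (γ e)⁻¹, this, inv_mul_cancel_left]
      · have := key e _ ((D.conj (e, true) g).1 hg)
        simp only [cond]
        rw [eq_mul_inv_iff_mul_eq, this]
        congr 2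
        group)
  refine ⟨Ev, m, ?_, fun v g hg q => by rw [h1 v g hg]; exact ⟨rfl, rfl⟩, ?_⟩
  · refine hT.ind (Q := fun u v h => ∀ q, ((Ev u v h).p q).1 = α h q.1) ?_ ?_ ?_
    · intro v g hg q
      rw [h1 v g hg]; rfl
    · rintro ⟨e, _ | _⟩ q
      · rw [h2, hε, map_inv]; rfl
      · rw [h2]; rfl
    · intro u v w g h a b q
      rw [← m u v w, mul_p, Perm.mul_apply, a, b, map_mul, Perm.mul_apply]
  · rintro ⟨e, _ | _⟩ x z z' hz
    · rw [lab_f, lt_false, map_inv, inv_inv, FreeGroup.lift_apply_of] at hz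
      subst hz
      rw [h2, hε, map_inv, inv_inv]
      refine ⟨rfl, ?_⟩
      change ((η e (α (D.ε (e, true)) x) (C.st (C.Φ (lb D α e (α (D.ε (e, true)) x)) z)) /
        η e (α (D.ε (e, true)) x) (C.st ((C.Φ (lb D α e (α (D.ε (e, true)) x)))⁻¹
          (C.Φ (lb D α e (α (D.ε (e, true)) x)) z))) *
        (ψ (C.st ((C.Φ (lb D α e (α (D.ε (e, true)) x)))⁻¹
          (C.Φ (lb D α e (α (D.ε (e, true)) x)) z))) (D.ε (e, true))).c
            (α (D.ε (e, true)) x))⁻¹).toAdd = _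
      rw [ia, toAdd_inv, toAdd_mul, toAdd_div]
      simp only [cond]
      ring
    · rw [lab_t, lt_true, FreeGroup.lift_apply_of] at hz
      subst hz
      rw [h2]
      refine ⟨rfl, ?_⟩
      change (η e x (C.st z) / η e x (C.st ((C.Φ (lb D α e x))⁻¹ z)) *
        (ψ (C.st ((C.Φ (lb D α e x))⁻¹ z)) (D.ε (e, true))).c x).toAdd = _
      rw [toAdd_mul, toAdd_div]
      simp only [cond]
      ring

end Pool.Agent.P.MP_67c9d4_al.FC
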