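import Pool.Agent.P.MP_67c9d4_al.FC.Iface

/-! Elements of height one after a generic step. -/

namespace Pool.Agent.P.MP_67c9d4_al.FC

open Equiv Wr Multiplicative TD

namespace HDIx

lemma not_mem {H : Type} [Group H] {χ : H →* MZ} {y b : H} (hy : χ y = ofAdd 1) (hm : Mal y)
    (hb : χ b = ofAdd 1) (hc : ¬IsConj b y) {a : ℤ} (ha : a ≠ 0) (p : H) :
    y ^ a ∉ cj p (Subgroup.zpowers b) := by
  rw [cj_zpowers]
  rintro ⟨m, h⟩
  refine hc (isConj_iff.2 ⟨p, hm.eq hy ?_ ha ?_⟩)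
  · rw [map_mul, map_mul, mul_right_comm, ← map_mul, mul_inv_cancel, map_one, one_mul, hb]
  · exact h ▸ Commute.self_zpow _ m

end HDIx

theorem s_HDI (hHINJ : S_HINJ) (hHTD : S_HTD) (hMAL : S_MAL) (hHIND : S_HIND) (hFIX : S_FIX) :
    S_HDI := by
  intro H H' V _ _ χ t o y i s χ' hS y' hy'
  have hi := hHINJ H H' χ i (t o) y s hS.hnn (hS.good.chi o) hS.gen.1
  obtain ⟨D, hD⟩ := hHTD H H' i (t o) y s hS.hnn hi
  by_cases hE : D.Ell y'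
  swap
  · exact Or.inl ⟨hy', hMAL H' Unit Unit D χ' hD.tree (hHIND H H' V χ t o y i s χ' hS D hD) () y'
      hE hy', fun v c => hE ((Ell.of_mem (v := ()) (hD.hG ▸ ⟨t v, rfl⟩)).conj c)⟩
  obtain ⟨⟨⟩, c, hc⟩ := hE
  rw [hD.hG] at hc
  obtain ⟨y₀, h0⟩ := hc
  have hconj : IsConj (i y₀) y' := isConj_iff.2 ⟨c, by rw [h0]; group⟩
  by_cases hg : Gen χ t y₀
  swap
  · exact Or.inr (Or.inr ⟨y₀, hconj, hg⟩)
  by_cases hy : IsConj y y₀
  · exact Or.inr (Or.inl ((isConj_iff.2 ⟨s⁻¹, by rw [inv_inv, hS.hnn.rel]⟩ :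
      IsConj (i (t o)) (i y)).trans ((i.map_isConj hy).trans hconj)))
  have key : ∀ a : ℤ, a ≠ 0 → ∀ g, g⁻¹ * i y₀ ^ a * g ∈ i.range → g ∈ i.range := by
    intro a ha g h
    rw [← hD.hG] at h ⊢
    refine (hFIX H' Unit Unit D hD.tree () () g _ (hD.hG ▸ ⟨y₀ ^ a, map_zpow i _ _⟩) h).elim
      (fun h => h.2) ?_
    rintro ⟨⟨⟨⟩, e⟩, p, -, h1, h2⟩
    rw [hD.hG] at h1
    obtain ⟨p, rfl⟩ := h1
    rw [mem_cj, ← map_zpow, ← map_inv, ← map_mul, ← map_mul] at h2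
    cases e
    · rw [hD.hPf, ← i.map_zpowers, Subgroup.mem_map_iff_mem hi] at h2
      exact (HDIx.not_mem hg.1 hg.2.1 hS.gen.1 hy ha p (mem_cj.2 h2)).elim
    · rw [hD.hPt, ← i.map_zpowers, Subgroup.mem_map_iff_mem hi] at h2
      exact (HDIx.not_mem hg.1 hg.2.1 (hS.good.chi o) (hg.2.2 o) ha p (mem_cj.2 h2)).elim
  refine Or.inl (Gen.conj ⟨(hS.chi y₀).trans hg.1, fun g a ha h => ?_, fun v h => ?_⟩ hconj)
  · obtain ⟨g, rfl⟩ := key a ha g ⟨y₀ ^ a, by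
      rw [mul_assoc, ← h.eq, inv_mul_cancel_left, map_zpow]⟩
    rw [← i.map_zpowers, Subgroup.mem_map_iff_mem hi]
    refine hg.2.1 g a ha (hi ?_)
    rw [map_mul, map_mul, map_zpow]
    exact h.eq
  · obtain ⟨d, hd⟩ := isConj_iff.1 h
    obtain ⟨d, rfl⟩ := key 1 one_ne_zero d ⟨t v, by rw [zpow_one, ← hd]; group⟩
    exact hg.2.2 v (isConj_iff.2 ⟨d, hi (by rw [map_mul, map_mul, map_inv, hd])⟩)

end Pool.Agent.P.MP_67c9d4_al.FC
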