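import Pool.Agent.P.MP_67c9d4_al.FC.Iface

/-! Cuts of a heap form a locally convex complex. -/

namespace Pool.Agent.P.MP_67c9d4_al.FC

open Equiv Wr Multiplicative TD

namespace HEAPx
variable {T : Type} {Γ : SimpleGraph T} {w : ℤ → T × Bool}

lemma mixed (hw : RedW Γ w) {x : T × Bool} {C : Set ℤ} {i j : ℤ} (h0 : Cut Γ w C)
    (h1 : Cut Γ w (insert i C)) (h2 : Cut Γ w (C \ {j})) (hi : i ∉ C) (hj : j ∈ C) (e1 : w i = x)
    (e2 : w j = (x.1, !x.2)) : False := by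
  have hn : ¬Γ.Adj (w i).1 (w j).1 := by rw [e1, e2]; exact Γ.irrefl
  rcases lt_trichotomy i j with h | h | h
  · exact hi (h0 i j h hn hj)
  · exact hi (h ▸ hj)
  obtain ⟨k, k1, k2, k3⟩ := hw j i h (by rw [e1, e2]; simp)
  by_cases hk : k ∈ C
  · exact (h2 j k k1 (fun a => k3 a.symm) ⟨hk, k1.ne'⟩).2 rfl
  · rcases h1 k i k2 (by rw [e1]; rwa [e2] at k3) (Set.mem_insert _ _) with a | a
    exacts [k2.ne a, hk a]

lemma cut3 {C₁ C₂ C₃ : Set ℤ} {i j : ℤ} (h1 : Cut Γ w C₁) (h2 : Cut Γ w C₂)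
    (ha : Γ.Adj (w i).1 (w j).1) (e1 : ∀ n, n ≠ j → (n ∈ C₃ ↔ n ∈ C₁))
    (e2 : ∀ n, n ≠ i → (n ∈ C₃ ↔ n ∈ C₂)) : Cut Γ w C₃ := by
  intro a b hab hn hb
  by_cases c : a ≠ j ∧ b ≠ j
  · exact (e1 a c.1).2 (h1 a b hab hn ((e1 b c.2).1 hb))
  have c' : a ≠ i ∧ b ≠ i := by
    have hij : i ≠ j := fun e => Γ.irrefl (e ▸ ha)
    rw [not_and_or, not_not, not_not] at c
    rcases c with rfl | rfl
    · exact ⟨hij.symm, fun e => hn (e ▸ ha.symm)⟩
    · exact ⟨fun e => hn (e ▸ ha), hij.symm⟩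
  exact (e2 a c'.1).2 (h2 a b hab hn ((e2 b c'.2).1 hb))

lemma cx (hw : RedW Γ w) : Cx Γ (CStep Γ w) := by
  refine ⟨?_, ?_, ?_⟩
  · rintro x C _ _ ⟨h0, h1, ⟨i, hi, e, rfl⟩ | ⟨i, hi, e, rfl⟩⟩
      ⟨-, h2, ⟨j, hj, e', rfl⟩ | ⟨j, hj, e', rfl⟩⟩
    · have hn : ¬Γ.Adj (w i).1 (w j).1 := by rw [e, e']; exact Γ.irrefl
      rcases lt_trichotomy i j with h | h | h
      · rcases h2 i j h hn (Set.mem_insert _ _) with a | a
        exacts [absurd a h.ne, absurd a hi]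
      · rw [h]
      · rcases h1 j i h (fun a => hn a.symm) (Set.mem_insert _ _) with a | a
        exacts [absurd a h.ne, absurd a hj]
    · exact (mixed hw h0 h1 h2 hi hj e e').elim
    · exact (mixed hw h0 h2 h1 hj hi e' e).elim
    · have hn : ¬Γ.Adj (w i).1 (w j).1 := by rw [e, e']; exact Γ.irrefl
      rcases lt_trichotomy i j with h | h | h
      · exact absurd rfl (h1 i j h hn ⟨hj, h.ne'⟩).2
      · rw [h]
      · exact absurd rfl (h2 j i h (fun a => hn a.symm) ⟨hi, h.ne'⟩).2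
  · rintro x C _ ⟨h0, h1, ⟨i, hi, e, rfl⟩ | ⟨i, hi, e, rfl⟩⟩
    · exact ⟨h1, h0, Or.inr ⟨i, Set.mem_insert _ _, by simp [e], by simp [hi]⟩⟩
    · exact ⟨h1, h0, Or.inl ⟨i, fun a => a.2 rfl, e, by simp [hi]⟩⟩
  · rintro x x' C _ _ ha ⟨h0, h1, ⟨i, hi, e, rfl⟩ | ⟨i, hi, e, rfl⟩⟩
      ⟨-, h2, ⟨j, hj, e', rfl⟩ | ⟨j, hj, e', rfl⟩⟩ <;>
      have ha' : Γ.Adj (w i).1 (w j).1 := (by rwa [e, e']) <;>
      have hij : i ≠ j := fun e => Γ.irrefl (e ▸ ha')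
    · have h3 : Cut Γ w (insert j (insert i C)) :=
        cut3 h1 h2 ha' (fun n hn => by simp [hn]) fun n hn => by simp [hn]
      exact ⟨_, ⟨h1, h3, Or.inl ⟨j, by simp [hj, hij.symm], e', rfl⟩⟩,
        ⟨h2, h3, Or.inl ⟨i, by simp [hi, hij], e, Set.insert_comm _ _ _⟩⟩⟩
    · have h3 : Cut Γ w (insert i C \ {j}) :=
        cut3 h1 h2 ha' (fun n hn => by simp [hn]) fun n hn => by simp [hn]
      exact ⟨_, ⟨h1, h3, Or.inr ⟨j, Or.inr hj, e', rfl⟩⟩,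
        ⟨h2, h3, Or.inl ⟨i, by simp [hi], e, (Set.insert_sdiff_singleton_comm hij C).symm⟩⟩⟩
    · have h3 : Cut Γ w (insert j C \ {i}) :=
        cut3 h1 h2 ha' (fun n hn => by simp [hn]) fun n hn => by simp [hn]
      exact ⟨_, ⟨h1, h3, Or.inl ⟨j, by simp [hj], e',
        (Set.insert_sdiff_singleton_comm hij.symm C).symm⟩⟩, ⟨h2, h3, Or.inr ⟨i, Or.inr hi, e, rfl⟩⟩⟩
    · have h3 : Cut Γ w ((C \ {i}) \ {j}) :=
        cut3 h1 h2 ha' (fun n hn => by simp [hn]) fun n hn => by simp [hn]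
      exact ⟨_, ⟨h1, h3, Or.inr ⟨j, ⟨hj, hij.symm⟩, e', rfl⟩⟩,
        ⟨h2, h3, Or.inr ⟨i, ⟨hi, hij⟩, e, Set.sdiff_sdiff_comm⟩⟩⟩

open Classical in
/-- The product of the letters of `C` in the positions `a, ..., a + n - 1`. -/
noncomputable def F (Γ : SimpleGraph T) (w : ℤ → T × Bool) (a : ℤ) (C : Set ℤ) : ℕ → RAAG Γ
  | 0 => 1
  | n + 1 => F Γ w a C n * if a + n ∈ C then wd Γ [w (a + n)] else 1

lemma F_lo {a i : ℤ} {C : Set ℤ} (n : ℕ) (h : a + n ≤ i) :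
    F Γ w a (insert i C) n = F Γ w a C n := by
  induction n with
  | zero => rfl
  | succ n ih =>
    have : a + n ≠ i := by push_cast at h; omega
    rw [F, F, ih (by push_cast at h; omega)]
    by_cases c : a + n ∈ C
    · rw [if_pos c, if_pos (Set.mem_insert_of_mem _ c)]
    · rw [if_neg c, if_neg (fun k => k.elim this c)]

lemma F_hi {a i : ℤ} {C : Set ℤ} (h0 : Cut Γ w C) (hi : i ∉ C) (ha : a ≤ i) (n : ℕ)
    (h : i < a + n) : F Γ w a (insert i C) n = F Γ w a C n * wd Γ [w i] := by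
  induction n with
  | zero => simp at h; omega
  | succ n ih =>
    by_cases e : a + n = i
    · rw [F, F, F_lo n e.le, e]
      simp [hi]
    · have hl : i < a + n := by push_cast at h; omega
      rw [F, F, ih hl, mul_assoc, mul_assoc]
      congr 1
      by_cases c : a + n ∈ C
      · have : Γ.Adj (w i).1 (w (a + n)).1 := by
          by_contra k
          exact hi (h0 _ _ hl k c)
        simp only [Set.mem_insert_iff, c, or_true, if_true]
        exact (wd_comm this).eq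
      · simp [e, c]

lemma walk {L : List (T × Bool)} {C C' : Set ℤ} (h : Walk (CStep Γ w) L C C') :
    ∃ M₀ : ℕ, ∀ M : ℕ, M₀ ≤ M → F Γ w (-M) C' (2 * M) = F Γ w (-M) C (2 * M) * wd Γ L := by
  induction h with
  | nil y => exact ⟨0, fun _ _ => (mul_one _).symm⟩
  | @cons x L y y' y'' h _ ih =>
    obtain ⟨M₀, ih⟩ := ih
    obtain ⟨h0, h1, ⟨i, hi, e, rfl⟩ | ⟨i, hi, e, rfl⟩⟩ := h
    · refine ⟨M₀ + i.natAbs + 1, fun M hM => ?_⟩
      rw [ih M (by omega), F_hi h0 hi (by omega) _ (by push_cast; omega), e, wd_cons x L, mul_assoc]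
    · refine ⟨M₀ + i.natAbs + 1, fun M hM => ?_⟩
      have := F_hi h1 (i := i) (a := -M) (fun a => a.2 rfl) (by omega) (2 * M) (by push_cast; omega)
      rw [Set.insert_sdiff_singleton, Set.insert_eq_of_mem hi, e, wd_not] at this
      rw [ih M (by omega), this, wd_cons x L]
      group

end HEAPx

theorem s_HEAP : S_HEAP := by
  refine fun T Γ w => ⟨HEAPx.cx, fun L L' C C' h h' => ?_⟩
  obtain ⟨M, h⟩ := HEAPx.walk h
  obtain ⟨M', h'⟩ := HEAPx.walk h'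
  exact mul_left_cancel ((h (M + M') (by omega)).symm.trans (h' (M + M') (by omega)))

end Pool.Agent.P.MP_67c9d4_al.FC
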