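import Pool.Agent.P.MP_67c9d4_al.FC.Iface

/-! Elliptic generic elements of the extension. -/

namespace Pool.Agent.P.MP_67c9d4_al.FC

open Equiv Wr Multiplicative TD

theorem s_HELL (hHINJ : S_HINJ) : S_HELL := by
  intro H H' V _ _ χ t o y i s χ' h D hD y' hy' ⟨v, p, hp⟩
  have hi := hHINJ H H' χ i (t o) y s h.hnn (h.good.chi o) h.gen.1
  rw [hD.hG] at hp
  obtain ⟨y₀, e⟩ := hp
  have hc : IsConj (i y₀) y' := isConj_iff.2 ⟨p, by rw [e]; group⟩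
  have hg := hy'.conj hc.symm
  refine ⟨y₀, hc, ⟨(h.chi y₀).symm.trans hg.1, fun g a ha hga => ?_,
    fun w hw => hg.2.2 w (i.map_isConj hw)⟩, fun hy => hg.2.2 o ?_⟩
  · obtain ⟨k, hk⟩ := hg.2.1 (i g) a ha (by rw [← map_zpow]; exact hga.map i)
    exact ⟨k, hi ((map_zpow i y₀ k).trans hk)⟩
  · exact (isConj_iff.2 ⟨s⁻¹, by rw [inv_inv, h.hnn.rel]⟩ : IsConj (i (t o)) (i y)).trans
      (i.map_isConj hy)

end Pool.Agent.P.MP_67c9d4_al.FC
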