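import Pool.Agent.P.MP_67c9d4_al.FC.Iface

/-! Independence of the edge groups of a generic HNN extension. -/

namespace Pool.Agent.P.MP_67c9d4_al.FC

open Equiv Wr Multiplicative TD

namespace HINDx

variable {H H' V : Type} [Group H] [Group H'] {χ : H →* MZ} {t : V → H} {o : V} {y : H}
  {i : H →* H'} {s : H'} {χ' : H' →* MZ}

lemma sep (hRFV : S_RFV) (hSEPA : S_SEPA) (S : Step χ t o y i s χ') {h b : H}
    (hb : b = t o ∨ (b = y ∧ h ∉ Subgroup.zpowers y)) :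
    ∃ (X : Type) (_ : Fintype X) (σ : H →* Wr X MZ) (x : X),
      NZ σ y x ∧ ¬NZ σ (h * b * h⁻¹) x := by
  rcases hb with rfl | ⟨rfl, hh⟩
  · obtain ⟨X, _, σ, κ, h1, -, ⟨x, hx⟩, -⟩ :=
      S.good.o1 y S.gen ∅ Set.finite_empty (by simp) ⊤ FN.top
    exact ⟨X, inferInstance, σ, x, hx,
      null_iff.1 ((h1 (t o) (Or.inr ⟨o, rfl⟩)).conj (isConj_iff.2 ⟨h, rfl⟩)) x⟩
  · obtain ⟨N, hN, hn⟩ := hSEPA H _ (hRFV H S.good.vp) (Ind3.of_chi S.gen.1) h hh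
    obtain ⟨X, _, σ, κ, -, -, ⟨x, hx⟩, h4⟩ :=
      S.good.o1 b S.gen ∅ Set.finite_empty (by simp) N hN
    obtain ⟨x, rfl⟩ := (σ h).p.surjective x
    exact ⟨X, inferInstance, σ, _, hx, fun e => hn (h4 h x ((nz_conj h x).1 e) hx)⟩

lemma ind1 (hXREP : S_XREP) (hRFV : S_RFV) (hSEPA : S_SEPA) (S : Step χ t o y i s χ') {h b : H}
    (hb : b = t o ∨ (b = y ∧ h ∉ Subgroup.zpowers y)) :
    Ind1 (i y) (cj (i h) (Subgroup.zpowers (i b))) := by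
  obtain ⟨X, _, σ, x, h1, h2⟩ := sep hRFV hSEPA S hb
  obtain ⟨X', _, σ', π, p1, p2, p3⟩ := hXREP H H' V χ t o y i s χ' S MZ X (mir_comm _) σ
  obtain ⟨x', hx⟩ := p3 x
  have fx : ∀ g, (σ' (i g)).p x' = x' → (σ g).p x = x := fun g e => by
    have := p1 g x'
    rw [MonoidHom.comp_apply, e, hx] at this
    exact (Option.some.inj this).symm
  have cx : ∀ g, (σ' (i g)).c x' = (σ g).c x := fun g => p2 g x' x hx
  refine ind1_of_nz (σ := σ') (x := x') ?_ ?_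
  · have e : (σ' (i y ^ Nat.card (Perm X'))).p x' = x' := by rw [per_card σ' (i y)]; rfl
    refine ⟨_, e, ?_⟩
    rw [← map_pow] at e ⊢
    rw [cx]
    exact (nz_iff Nat.card_pos (fx _ e)).1 h1
  · rw [cj_zpowers, ← map_inv, ← map_mul, ← map_mul]
    rintro _ ⟨k, rfl⟩ e
    simp only [← map_zpow] at e ⊢
    rw [cx]
    exact BasB_zpow h2 k (fx _ e)

lemma ind3 (hXREP : S_XREP) (hRFV : S_RFV) (hSEPA : S_SEPA) (S : Step χ t o y i s χ')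
    {D : TD H' Unit Unit} (hD : D.IsHT i (t o) y s) {c c' : (Unit × Bool) × H'}
    (h1 : c.1 = ((), false)) (h2 : c.2⁻¹ * c'.2 ∈ D.G ()) (h3 : ¬D.Same ⊥ c c') :
    Ind3 (D.St c) (D.St c') (D.St c') := by
  rw [hD.hG] at h2
  obtain ⟨h, hh⟩ := h2
  have e : c'.2 = c.2 * i h := by rw [hh, mul_inv_cancel_left]
  rw [St, St, h1, hD.hPf, e, ← cj_cj]
  refine Ind3.cj (Ind1.ind3 ?_) _
  obtain ⟨⟨⟨⟩, b⟩, p⟩ := c'
  cases b
  · rw [hD.hPf]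
    refine ind1 hXREP hRFV hSEPA S (Or.inr ⟨rfl, fun a => h3 (same_bot.2 ⟨h1, ?_⟩)⟩)
    obtain ⟨k, rfl⟩ := a
    rw [← hh, h1, hD.hPf]
    exact ⟨k, (map_zpow i y k).symm⟩
  · rw [hD.hPt]
    exact ind1 hXREP hRFV hSEPA S (Or.inl rfl)

end HINDx

open HINDx in
theorem s_HIND (hHINJ : S_HINJ) (hXREP : S_XREP) (hRFV : S_RFV) (hSEPA : S_SEPA) : S_HIND := by
  intro H H' V _ _ χ t o y i s χ' S D hD
  refine ⟨3, fun c hc => ?_⟩
  obtain ⟨a1, a2⟩ := hc 0 (by norm_num)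
  obtain ⟨b1, b2⟩ := hc 1 (by norm_num)
  rcases e : (c 1).1 with ⟨⟨⟩, b⟩
  cases b
  · refine ⟨1, by norm_num, 0, by norm_num, 0, by norm_num, ?_⟩
    rw [← St_rev (c 0)]
    refine ind3 hXREP hRFV hSEPA S hD e ?_ fun h => a2 h.symm
    have := inv_mem a1.2
    rwa [mul_inv_rev, inv_inv] at this
  · refine ⟨1, by norm_num, 2, by norm_num, 2, by norm_num, ?_⟩
    rw [← St_rev (c 1)]
    exact ind3 hXREP hRFV hSEPA S hD (congrArg bar e) b1.2 b2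

end Pool.Agent.P.MP_67c9d4_al.FC
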