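import Pool.Agent.P.MP_67c9d4_al.FC.Iface

/-! The base group embeds in the extension. -/

namespace Pool.Agent.P.MP_67c9d4_al.FC

open Equiv Wr Multiplicative TD

theorem s_HINJ : S_HINJ := by
  intro H H' _ _ χ i a b s hs ha hb
  obtain ⟨γ, hγ⟩ := upgrade (zpowersHom H a) (zpowersHom H b) (MonoidHom.id MZ) (MonoidHom.id MZ)
    1 1 (fun l => by simp) (fun l hl => by
      rw [MonoidHom.id_apply] at hl
      simp [hl])
  let f : H →* Wr MZ H := cst ((MulAction.toPermHom MZ MZ).comp χ) (MonoidHom.id H)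
  have e : ∀ g, χ g = ofAdd 1 → f g = cst ((MulAction.toPermHom MZ MZ).comp (MonoidHom.id MZ))
      (zpowersHom H g) (ofAdd 1) := fun g hg =>
    Wr.ext (congrArg (MulAction.toPermHom MZ MZ) hg) (funext fun _ => (zpow_one g).symm)
  obtain ⟨F, hF, -⟩ := hs.up _ f γ (by rw [e a ha, e b hb, hγ]; group)
  intro g g' h
  have h1 : f g = f g' := by rw [← hF, ← hF, h]
  exact congrArg (fun w => w.c 1) h1

end Pool.Agent.P.MP_67c9d4_al.FC
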