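import Pool.Agent.P.MP_67c9d4_al.FC.Iface

/-! A virtual character from the universal representation. -/

namespace Pool.Agent.P.MP_67c9d4_al.FC

open Equiv Wr Multiplicative TD

namespace HO1x

theorem conj {a b : FreeGroup Bool} (h : IsConj a b) : phi b = phi a :=
  (isConj_iff_eq.1 (phi.map_isConj h)).symm

theorem one {i : ℤ} {b : FreeGroup Bool} (h : IsConj ((al * be) ^ i) b) : phi b = 1 := by
  have : phi (al * be) = 1 := by simp [phi, al, be]
  rw [conj h, map_zpow, this, one_zpow]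

theorem val {w : ℤ} {b : FreeGroup Bool} (h : IsConj (al ^ w) b ∨ IsConj (be ^ w) b) :
    (phi b).toAdd = w ∨ (phi b).toAdd = -w := by
  refine h.imp (fun h => ?_) fun h => ?_ <;> rw [conj h] <;> simp [phi, al, be]

end HO1x

theorem s_HO1 : S_HO1 := by
  rintro H _ y Z Z₀ H₀ ⟨X, _, σ, n, w, S, hn, hw, hP, ⟨x₀, h0⟩, h1, h2, h3, h4, h5, -⟩
  have hp : ∀ g x, (((push phi).comp σ) (g ^ n)).p x = x := fun g x => by
    rw [MonoidHom.comp_apply, push_p, hP g, Perm.one_apply]
  have hS : ∀ x, NZ ((push phi).comp σ) y x ↔ x ∈ S := fun x => by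
    rw [nz_iff hn (hp y x), MonoidHom.comp_apply, push_c]
    refine ⟨fun h => by_contra fun hx => h ((h4 x hx).elim fun _ => HO1x.one), fun hx h => ?_⟩
    have := HO1x.val (h3 x hx)
    rw [h, toAdd_one] at this
    omega
  refine ⟨X, ‹_›, (push phi).comp σ, w / n, ?_, fun m x hx => ?_, ⟨x₀, (hS _).2 h0⟩,
    fun h x a b => h5 h x ((hS _).1 a) ((hS _).1 b)⟩
  · rintro z (hz | hz)
    · refine null_iff.2 fun x => ?_
      rw [nz_iff hn (hp z x), not_not]
      exact (h2 z hz x).elim fun _ => HO1x.one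
    · exact (h1 z hz).push phi
  · by_cases hxS : x ∈ S
    · have e0 := (c_pow_fix hx n).2
      rw [← map_pow, pow_right_comm, map_pow _ (y ^ n), (c_pow_fix (hp y x) m).2] at e0
      have e := congrArg toAdd e0.symm
      rw [toAdd_pow, toAdd_pow, nsmul_eq_mul, nsmul_eq_mul] at e
      have e' := congrArg (Int.cast : ℤ → ℚ) e
      have hn' : (n : ℚ) ≠ 0 := Nat.cast_ne_zero.2 hn.ne'
      refine Or.inr ((HO1x.val (h3 x hxS)).imp (fun h => ?_) fun h => ?_) <;>
      · rw [MonoidHom.comp_apply _ _ (y ^ n), push_c, h] at e'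
        push_cast at e'
        field_simp
        linear_combination e'
    · exact Or.inl (by_contra fun h => hxS ((hS x).1 ⟨m, hx, h⟩))

end Pool.Agent.P.MP_67c9d4_al.FC
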