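import Pool.Agent.P.MP_67c9d4_al.FC.Iface

/-! The first output property passes to generic extensions. -/

namespace Pool.Agent.P.MP_67c9d4_al.FC

open Equiv Wr Multiplicative TD

theorem s_HO1E (hHINJ : S_HINJ) (hHTD : S_HTD) (hHSP : S_HSP) (hHIND : S_HIND) (hHELL : S_HELL)
    (hAXIS : S_AXIS) (hCORE : S_CORE) (hHO1 : S_HO1) (hEFF : S_EFF) (hSPARSE : S_SPARSE)
    (hKILL : S_KILL) : S_HO1E := by
  intro H H' V _ _ χ t o y i s χ' hs y' hy' Z hZ hz H₀ hH₀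
  obtain ⟨D, hD⟩ := hHTD H H' i _ _ s hs.hnn (hHINJ H H' χ i _ _ s hs.hnn (hs.good.chi o) hs.gen.1)
  have hSp := hHSP H H' V χ t o y i s χ' hs D hD
  have hE := hHELL H H' V χ t o y i s χ' hs D hD
  have ell : ∀ h, D.Ell (i h) := fun h => Ell.of_mem (v := ()) (hD.hG ▸ ⟨h, rfl⟩)
  by_cases he : D.Ell y'
  swap
  · exact (hHO1 H' y' Z _ H₀ (hCORE H' _ _ D χ' hD.tree hSp (hHIND H H' V χ t o y i s χ' hs D hD) ()
      y' he hy'.1 hy'.2.1 Z hZ (fun z h => ⟨(hz z h).1.1, (hz z h).2⟩) H₀ hH₀)).mono fun z h =>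
        ⟨z, h.imp_right fun ⟨v, e⟩ => e ▸ ell _, IsConj.refl z⟩
  obtain ⟨y₀, c0, g0, n0⟩ := hE y' hy' he
  refine O1c.conj ?_ hH₀.1 c0
  have : ∀ p : H' → Prop, Finite {z // z ∈ Z ∧ p z} := fun p =>
    (hZ.subset fun z h => h.1 : {z | z ∈ Z ∧ p z}.Finite)
  choose z₀ c1 g1 _ using fun z : {z // z ∈ Z ∧ D.Ell z} => hE z (hz z z.2.1).1 z.2.2
  obtain ⟨X, _, σ, κ, h1, h2, ⟨x₀, h3⟩, h4⟩ := hs.good.o1 y₀ g0 (insert y (Set.range z₀))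
    ((Set.finite_range _).insert _) (by
      rintro _ (rfl | ⟨z, rfl⟩)
      · exact ⟨hs.gen, fun c => n0 c.symm⟩
      · exact ⟨g1 z, fun c => (hz z z.2.1).2 (c0.symm.trans ((i.map_isConj c).trans (c1 z)))⟩)
    _ (hH₀.comap i)
  obtain ⟨N₁, f1, f2⟩ := hEFF H H' χ i _ _ s hs.hnn (hs.good.chi o) hs.gen.1 _
    (FN.ker (pHom.comp σ))
  obtain ⟨N, ⟨hN, _⟩, f3, f4⟩ : ∃ N, FN N ∧ N ≤ H₀ ∧ ∀ h, i h ∈ N → (σ h).p = 1 :=
    ⟨_, f1.inf hH₀, inf_le_right, fun h e => f2 h e.1⟩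
  have ht : ∀ v, Null σ (t v) := fun v => h1 _ (Or.inr ⟨v, rfl⟩)
  have hy : Null σ y := h1 _ (Or.inl (Or.inl rfl))
  obtain ⟨σ₁, s1, s2, s3⟩ := hSPARSE H H' X i _ y s σ x₀ N hs.hnn (ht o) hy hN f4
  have val : ∀ (g : H) (n : ℕ) x, qa N (i g ^ n) x = x → (σ₁ (i g ^ n)).c x = 1 ∨ ∃ u,
      x = (i u : H') ∧ (σ (g ^ n)).p = 1 ∧ (σ₁ (i g ^ n)).c x = (σ (g ^ n)).c ((σ u).p x₀) := by
    intro g n x hx
    rw [← map_pow] at hx ⊢
    by_cases h : ∃ u, x = (i u : H')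
    · obtain ⟨u, rfl⟩ := h
      exact Or.inr ⟨u, rfl, f4 _ ((qa_fix hN _).1 hx), s2 _ u⟩
    · exact Or.inl (s3 _ x (not_exists.1 h))
  have nul : ∀ g, Null σ g → Null σ₁ (i g) := fun g hg n x hx =>
    (val g n x (s1 _ ▸ hx)).elim id fun ⟨u, _, e1, e2⟩ => e2.trans (hg n _ (by rw [e1]; rfl))
  let ψ : Bool → H' →* Wr (H' ⧸ N) MZ := fun b => bif b then σ₁ else (push invMonoidHom).comp σ₁
  have p1 : ∀ f h, (ψ f h).p = qa N h := fun f h => by cases f <;> exact s1 h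
  have p2 : ∀ f h x, (ψ f h).c x = (σ₁ h).c x ∨ (ψ f h).c x = ((σ₁ h).c x)⁻¹ := fun f h x => by
    cases f
    exacts [Or.inr rfl, Or.inl rfl]
  have p3 : ∀ f h x, (ψ f h).c x = 1 ↔ (σ₁ h).c x = 1 := fun f h x => by
    rcases p2 f h x with e | e <;> simp [e]
  have agr : ∀ c x f f', D.Agr ψ c x f f' := by
    rintro ⟨⟨⟨⟩, b⟩, c⟩ x f f' g hg hx
    obtain ⟨a, a1, a2⟩ : ∃ a, Null σ a ∧ D.P ((), b) = Subgroup.zpowers (i a) := by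
      cases b
      exacts [⟨_, hy, hD.hPf⟩, ⟨_, ht o, hD.hPt⟩]
    rw [St, a2, cj_zpowers] at hg
    obtain ⟨m, rfl⟩ := hg
    have := ((nul a a1).conj (isConj_iff.2 ⟨c, rfl⟩)).zpow m (x := x) (by rwa [s1, ← p1 f])
    rw [(p3 _ _ _).2 this, (p3 _ _ _).2 this]
  choose c l hc using fun z : {z // z ∈ Z ∧ ¬D.Ell z} => hAXIS H' _ _ D hD.tree () z z.2.2
  obtain ⟨X', _, τ, π, k1, k2, k3⟩ := hKILL H' _ _ _ Bool _ D (qa N) ψ Subtype.val c l hD.tree hSp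
    () p1 hc (fun j x S hS n _ => by
      rcases S.eq_empty_or_nonempty with rfl | ⟨f, hf⟩
      · rfl
      · rw [Finset.eq_univ_of_forall fun f' => hS 0 f f' (agr _ _ _ _) hf, Fintype.sum_bool]
        exact add_neg_cancel _) (i 1 : H')
  have fix : ∀ {g x}, (τ g).p x = x → qa N g (π x) = π x := fun h => by rw [← k1, h]
  have nul' : ∀ g, Null σ g → Null τ (i g) := fun g hg n x hx => by
    obtain ⟨f, hf⟩ := (k3 _ (ell g)).1 x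
    rw [hf n hx, p3]
    exact nul g hg n _ (by rw [s1, fix hx])
  have nz : ∀ x, NZ τ (i y₀) x → ∃ u, π x = (i u : H') ∧ NZ σ y₀ ((σ u).p x₀) := by
    rintro x ⟨n, hx, h⟩
    obtain ⟨f, hf⟩ := (k3 _ (ell y₀)).1 x
    rw [hf n hx, Ne, p3] at h
    obtain ⟨u, e0, e1, e2⟩ := (val y₀ n _ (fix hx)).resolve_left h
    exact ⟨u, e0, n, by rw [e1]; rfl, e2 ▸ h⟩
  refine ⟨X', inferInstance, τ, κ, ?_, fun n x hx => ?_, ?_, fun h x a b => ?_⟩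
  · rintro z (h | ⟨v, rfl⟩)
    · by_cases e : D.Ell z
      · exact (nul' _ (h1 _ (Or.inl (Or.inr ⟨⟨z, h, e⟩, rfl⟩)))).conj (c1 _)
      · exact k2 ⟨z, h, e⟩
    · exact nul' _ (ht v)
  · obtain ⟨f, hf⟩ := (k3 _ (ell y₀)).1 x
    rw [hf n hx]
    rcases val y₀ n _ (fix hx) with e | ⟨u, -, e1, e2⟩
    · exact Or.inl ((p3 _ _ _).2 e)
    · have := h2 n ((σ u).p x₀) (by rw [e1]; rfl)
      rw [← e2] at this
      rcases p2 f (i y₀ ^ n) (π x) with e | e <;> rw [e]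
      · exact this
      · rw [inv_eq_one, toAdd_inv, Int.cast_neg, neg_inj, neg_eq_iff_eq_neg]
        exact this.imp_right Or.symm
  · obtain ⟨x, e, hf⟩ := (k3 _ (ell y₀)).2 true
    have hx : (τ (i y₀ ^ Nat.card (Perm X'))).p x = x := by rw [per_card τ]; rfl
    refine ⟨x, _, hx, ?_⟩
    have := f4 _ ((qa_fix hN _).1 (map_pow i _ _ ▸ fix hx))
    rw [hf _ hx, e, Ne, p3, ← map_pow, s2, map_one]
    exact (nz_iff Nat.card_pos (by rw [this]; rfl)).1 h3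
  · obtain ⟨u, e1, a1⟩ := nz _ a
    obtain ⟨u', e2, a2⟩ := nz _ b
    rw [k1, e1, qa_mk, QuotientGroup.eq] at e2
    have h5 : Subgroup.zpowers y₀ ⊔ H₀.comap i ≤ (Subgroup.zpowers (i y₀) ⊔ H₀).comap i :=
      sup_le (Subgroup.zpowers_le.2 (Subgroup.mem_sup_left (Subgroup.mem_zpowers _)))
        (Subgroup.comap_mono le_sup_right)
    have h6 := mul_mem (Subgroup.mem_comap.1 (h5 (h4 (u' * u⁻¹) _ a1 (by simpa using a2))))
      (Subgroup.mem_sup_right (f3 (hN.conj_mem _ (inv_mem e2) (i u))))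
    simpa [mul_assoc] using h6

end Pool.Agent.P.MP_67c9d4_al.FC
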