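import Pool.Agent.P.MP_67c9d4_al.FC.Iface

/-! The second ordering property passes to a generic step. -/

namespace Pool.Agent.P.MP_67c9d4_al.FC

open Equiv Wr Multiplicative TD

namespace HO2x

variable {H H' X Y : Type} [Group H] [Group H'] {i : H →* H'} {a y : H} {s : H'}
  {D : TD H' Unit Unit} {σ : H →* Wr X MZ} {σ' : H' →* Wr (Y × X) MZ}

theorem nz_comp {Z B : Type} [Group B] {ρ : H' →* Wr Z B} {g : H} {x : Z} :
    NZ (ρ.comp i) g x ↔ NZ ρ (i g) x := by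
  simp only [NZ, MonoidHom.comp_apply, map_pow i]

theorem nz_edge [Finite X] [Finite Y] (hD : D.IsHT i a y s) (hc : Cov (σ'.comp i) σ Prod.snd)
    {e : (Unit × Bool) × H'} {x : Y × X}
    (h : ¬∀ g ∈ D.St e, (σ' g).p x = x → (σ' g).c x = 1) :
    NZ σ (bif e.1.2 then a else y) ((σ' e.2).p⁻¹ x).2 := by
  obtain ⟨⟨⟨⟩, k⟩, p⟩ := e
  have h1 : D.St (((), k), p) = Subgroup.zpowers (p * i (bif k then a else y) * p⁻¹) := by
    rw [← cj_zpowers, St]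
    cases k
    · exact congrArg _ hD.hPf
    · exact congrArg _ hD.hPt
  rw [h1] at h
  push Not at h
  obtain ⟨_, ⟨M, rfl⟩, h2, h3⟩ := h
  have h4 : M ≠ 0 := by
    rintro rfl
    simp at h3
  rw [← hc.nz, nz_comp, ← nz_conj p]
  simpa using (nz_iff_zpow h4 h2).2 h3

theorem turn [Finite X] [Finite Y] (hD : D.IsHT i a y s) (hc : Cov (σ'.comp i) σ Prod.snd)
    {H₀ : Subgroup H} (h5 : ∀ h x, NZ σ a x → ¬NZ σ y ((σ h).p x))
    (h6 : ∀ h x, NZ σ y x → NZ σ y ((σ h).p x) → h ∈ Subgroup.zpowers y ⊔ H₀)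
    {e e' : (Unit × Bool) × H'} (hl : D.Lk e e') (hb : ¬D.Same ⊥ (D.rev e) e')
    (h0 : ∀ h, i h = (e.2 * D.ε e.1)⁻¹ * e'.2 → h ∈ Subgroup.zpowers y ⊔ H₀ →
      h ∈ Subgroup.zpowers y) (hk : e.1.2 = true ∨ e'.1.2 = false) {x : Y × X}
    (n1 : ¬∀ g ∈ D.St e, (σ' g).p x = x → (σ' g).c x = 1)
    (n2 : ¬∀ g ∈ D.St e', (σ' g).p x = x → (σ' g).c x = 1) : False := by
  rw [← St_rev] at n1
  have z1 := nz_edge hD hc n1
  have z2 := nz_edge hD hc n2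
  obtain ⟨h, hh⟩ : (e.2 * D.ε e.1)⁻¹ * e'.2 ∈ i.range := hD.hG ▸ hl.2
  have e1 : ((σ' (D.rev e).2).p⁻¹ x).2 = (σ h).p ((σ' e'.2).p⁻¹ x).2 := by
    rw [← hc.1, MonoidHom.comp_apply, hh, map_mul, map_inv, mul_p, inv_p, Perm.mul_apply]
    simp [TD.rev]
  rw [e1] at z1
  obtain ⟨⟨⟨⟩, k⟩, p⟩ := e
  obtain ⟨⟨⟨⟩, k'⟩, p'⟩ := e'
  cases k <;> cases k'
  · refine h5 h⁻¹ _ z1 ?_
    simpa using z2
  · simp at hk
  · obtain ⟨m, hm⟩ := h0 h hh (h6 h _ z2 z1)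
    refine hb (same_bot.2 ⟨rfl, ?_⟩)
    change _ ∈ D.P ((), false)
    rw [hD.hPf]
    exact ⟨m, by rw [← hm, map_zpow] at hh; exact hh⟩
  · exact h5 h _ z2 z1

end HO2x

theorem s_HO2 (hHINJ : S_HINJ) (hHTD : S_HTD) (hHSP : S_HSP) (hHELL : S_HELL) (hAXIS : S_AXIS)
    (hRFV : S_RFV) (hSEPA : S_SEPA) (hPQ : S_PQ) (hEXTF : S_EXTF) (hKILL : S_KILL) : S_HO2 := by
  intro H H' V _ _ χ t o y i s χ' st v Y hY hG
  have hi := hHINJ H H' χ i _ _ s st.hnn (st.good.chi o) st.gen.1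
  obtain ⟨D, hD⟩ := hHTD H H' i _ _ s st.hnn hi
  have : Finite Y := hY
  have : Finite {y' // y' ∈ Y ∧ D.Ell y'} := (hY.subset fun _ h => h.1 : Set.Finite {y' | _})
  have : Finite {y' // y' ∈ Y ∧ ¬D.Ell y'} := (hY.subset fun _ h => h.1 : Set.Finite {y' | _})
  choose f f1 f2 f3 using fun y' : {y' // y' ∈ Y ∧ D.Ell y'} =>
    hHELL H H' V χ t o y i s χ' st D hD y' (hG _ y'.2.1) y'.2.2
  choose c l hc using fun y' : {y' // y' ∈ Y ∧ ¬D.Ell y'} =>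
    hAXIS H' Unit Unit D hD.tree () y' y'.2.2
  have hS := hSEPA H _ (hRFV H st.good.vp) (Ind3.of_chi st.gen.1)
  obtain ⟨H₀, hH₀, h0⟩ := FN.exists_forall (J := Σ j, Fin (l j))
    (p := fun q N => ∀ h, i h = ((c q.1 q.2).2 * D.ε (c q.1 q.2).1)⁻¹ * (c q.1 (q.2 + 1)).2 →
      h ∈ Subgroup.zpowers y ⊔ N → h ∈ Subgroup.zpowers y)
    (fun q N N' le h g e1 e2 => h g e1 (sup_le_sup_left le _ e2)) fun q => by
      by_cases h : ∃ h, i h = ((c q.1 q.2).2 * D.ε (c q.1 q.2).1)⁻¹ * (c q.1 (q.2 + 1)).2 ∧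
        h ∉ Subgroup.zpowers y
      · obtain ⟨h, e1, e2⟩ := h
        obtain ⟨N, n1, n2⟩ := hS h e2
        exact ⟨N, n1, fun g e3 e4 => absurd (hi (e3.trans e1.symm) ▸ e4) n2⟩
      · exact ⟨⊤, FN.top, fun g e1 _ => by_contra fun e2 => h ⟨g, e1, e2⟩⟩
  have h0' : ∀ j (r : ℤ) h, i h = ((c j r).2 * D.ε (c j r).1)⁻¹ * (c j (r + 1)).2 →
      h ∈ Subgroup.zpowers y ⊔ H₀ → h ∈ Subgroup.zpowers y := fun j r h e => by
    have p : (0 : ℤ) < l j := Int.natCast_pos.2 (hc j).pos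
    obtain ⟨r₀, e1⟩ := Int.eq_ofNat_of_zero_le (Int.emod_nonneg r p.ne')
    have e2 : r₀ < l j := by have := Int.emod_lt_of_pos r p; omega
    refine h0 ⟨j, r₀, e2⟩ h (e.trans ?_)
    have e3 : r = r₀ + l j * (r / l j) := by rw [← e1, Int.emod_add_mul_ediv]
    rw [e3, add_right_comm, (hc j).zper, (hc j).zper]
    simp [act, mul_assoc]
  obtain ⟨X₂, _, σ₂, a1, a2⟩ := st.good.o2 v (Set.range f ∪ {y})
    ((Set.finite_range f).union (Set.finite_singleton y)) (by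
      rintro _ (⟨j, rfl⟩ | rfl)
      exacts [f2 j, st.gen])
  obtain ⟨X, _, σ₃, n, n0, b1, b2, ⟨x₁, b3⟩, b5, b6⟩ := hPQ H X₂ (t o) y (t v) (Set.range f) H₀ σ₂
    ((st.good.o1 y st.gen _ (Set.finite_range f) (by
      rintro _ ⟨j, rfl⟩
      exact ⟨f2 j, f3 j⟩) H₀ hH₀).mono fun z hz =>
        ⟨z, hz.imp_right fun e => ⟨o, e.symm⟩, IsConj.refl z⟩)
    (fun z hz => a1 z (Or.inl hz)) (a1 y (Or.inr rfl)) a2
  obtain ⟨W, _, ⟨w⟩, σ₄, cov⟩ := hEXTF H H' MZ X χ i _ _ s st.hnn (st.good.chi o) st.gen.1 σ₃ n n0 b1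
  let ψ : Bool → H' →* Wr (W × X) MZ := fun b => bif b then σ₄ else (push invMonoidHom).comp σ₄
  have hψ : ∀ b g x, (σ₄ g).c x = 1 → (ψ b g).c x = 1 := fun b g x e => by
    cases b
    · exact inv_eq_one.2 e
    · exact e
  obtain ⟨X', _, σ, π, k1, k2, k3⟩ := hKILL H' Unit Unit (W × X) Bool _ D (pHom.comp σ₄) ψ
    Subtype.val c l hD.tree (hHSP H H' V χ t o y i s χ' st D hD) () (fun b g => by cases b <;> rfl)
    hc (fun j x S hS m _ => by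
      obtain ⟨r, hr⟩ : ∃ r, ∀ g ∈ D.St (c j r), (σ₄ g).p x = x → (σ₄ g).c x = 1 := by
        by_contra hn
        rw [not_exists] at hn
        cases e : (c j 0).1.2
        · exact HO2x.turn hD cov b5 b6 ((hc j).lk (-1)) ((hc j).nb (-1)) (h0' j (-1)) (Or.inr e)
            (hn _) (hn _)
        · exact HO2x.turn hD cov b5 b6 ((hc j).lk 0) ((hc j).nb 0) (h0' j 0) (Or.inl e)
            (hn _) (hn _)
      rcases S.eq_empty_or_nonempty with rfl | ⟨b, hb⟩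
      · rfl
      · rw [Finset.eq_univ_of_forall fun b' => hS r b b' (fun g hg e => by
          have := hr g hg (by cases b <;> exact e)
          rw [hψ b g x this, hψ b' g x this]) hb, Fintype.sum_bool]
        exact add_neg_cancel _) (w, x₁)
  refine ⟨X', inferInstance, σ, fun y' hy => ?_, ?_⟩
  · by_cases e : D.Ell y'
    · have n1 : Null σ₄ y' := Null.conj (null_iff.2 fun x hx =>
        null_iff.1 (cov.null (b2 _ ⟨⟨y', hy, e⟩, rfl⟩)) x (HO2x.nz_comp.2 hx)) (f1 ⟨y', hy, e⟩)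
      intro m x hx
      obtain ⟨b, hb⟩ := (k3 y' e).1 x
      rw [hb m hx]
      exact hψ b _ _ (n1 m _ ((k1 _ x).symm.trans (congrArg π hx)))
    · exact k2 ⟨y', hy, e⟩
  · obtain ⟨x, e1, e2⟩ := (k3 (i (t v)) (Ell.of_mem (v := ()) (hD.hG ▸ ⟨t v, rfl⟩))).2 true
    have e3 : (σ (i (t v) ^ Nat.card (Perm X'))).p x = x := by rw [per_card σ]; rfl
    refine ⟨x, _, e3, ?_⟩
    rw [e2 _ e3]
    refine (nz_iff (σ := σ₄) Nat.card_pos ((k1 _ x).symm.trans (congrArg π e3))).1 ?_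
    rw [e1, ← HO2x.nz_comp, cov.nz]
    exact b3

end Pool.Agent.P.MP_67c9d4_al.FC
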