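import Pool.Agent.P.MP_67c9d4_al.FC.Iface

/-! The defect of additivity from the universal representation. -/

namespace Pool.Agent.P.MP_67c9d4_al.FC

open Equiv Wr Multiplicative TD

namespace HOJx

variable {B : Type} [Group B]

/-- The homomorphism with given values on the two generators. -/
def L (a b : B) : FreeGroup Bool →* B := FreeGroup.lift fun e => bif e then a else b

theorem L_al (a b : B) : L a b al = a := by simp [L, al]
theorem L_be (a b : B) : L a b be = b := by simp [L, be]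
theorem phi_al : phi al = ofAdd 1 := by simp [phi, al]
theorem phi_be : phi be = ofAdd (-1) := by simp [phi, be]

/-- The corrected class of a value. -/
noncomputable def G (a b : B) (v : FreeGroup Bool) : HC B :=
  cl (L a b v) + cl (L (a * b)⁻¹ 1 v) -
    ((phi v).toAdd : ℚ) • (1 / 2 : ℚ) • (cl a - cl (a * b) - cl b)

theorem G_conj (a b : B) {v v' : FreeGroup Bool} (h : IsConj v v') : G a b v = G a b v' := by
  rw [G, G, cl_isConj ((L a b).map_isConj h), cl_isConj ((L _ 1).map_isConj h),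
    isConj_iff_eq.1 (phi.map_isConj h)]

theorem G_ab (a b : B) (i : ℤ) : G a b ((al * be) ^ i) = 0 := by
  simp only [G, map_zpow, map_mul, L_al, L_be, phi_al, phi_be, cl_zpow, mul_one, cl_inv]
  simp

theorem G_a (a b : B) (w : ℤ) : G a b (al ^ w) = (w / 2 : ℚ) • jen a b := by
  simp only [G, map_zpow, L_al, phi_al, cl_zpow, cl_inv, jen, toAdd_zpow, toAdd_ofAdd,
    smul_eq_mul, mul_one]
  module

theorem G_b (a b : B) (w : ℤ) : G a b (be ^ w) = (w / 2 : ℚ) • jen a b := by
  simp only [G, map_zpow, L_be, phi_be, cl_zpow, cl_one, jen, toAdd_zpow, toAdd_ofAdd,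
    smul_eq_mul, mul_neg, mul_one, Int.cast_neg]
  module

end HOJx

open HOJx in
theorem s_HOJ : S_HOJ := by
  classical
  rintro H _ y Z Z₀ H₀ ⟨X, _, σ, n, w, S, n0, w0, hp, hS, h1, h2, h3, h4, -, h6⟩ B _
  let τ : B → B → H →* Wr (X ⊕ X) B := fun a b =>
    Wr.sum ((push (L a b)).comp σ) ((push (L (a * b)⁻¹ 1)).comp σ)
  have t1 : ∀ a b g, tc (τ a b) g = (n : ℚ)⁻¹ • ∑ x, G a b ((σ (g ^ n)).c x) := fun a b g => by
    have e := congrArg (fun u : MZ => (u.toAdd : ℚ)) (h6 (g ^ n))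
    simp only [tot_apply, toAdd_prod, push_c, Int.cast_sum, toAdd_one, Int.cast_zero] at e
    rw [tc_sum, tc_eq ((push (L a b)).comp σ) g n0 (hp g),
      tc_eq ((push (L (a * b)⁻¹ 1)).comp σ) g n0 (hp g), ← smul_add, ← Finset.sum_add_distrib]
    simp only [HOJx.G, Finset.sum_sub_distrib, ← Finset.sum_smul, e, zero_smul, sub_zero]
    rfl
  have t2 : ∀ a b, Neu (τ a b) := fun a b C _ f g => by
    have e : f.comp (L a b) * f.comp (L (a * b)⁻¹ 1) = (zpowersHom C (f b)⁻¹).comp phi :=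
      FreeGroup.ext_hom _ _ fun e => by cases e <;> simp [L, phi]
    have e2 := congrArg (zpowersHom C (f b)⁻¹) (h6 g)
    rw [tot_apply, map_prod, map_one] at e2
    rw [tot_sum, tot_apply, tot_apply, ← Finset.prod_mul_distrib, ← e2]
    exact Finset.prod_congr rfl fun x _ => DFunLike.congr_fun e _
  have t3 : ∀ a b, ∀ z ∈ Z ∪ Z₀, tc (τ a b) z = 0 := by
    rintro a b z (hz | hz)
    · rw [t1, Finset.sum_eq_zero fun x _ => ?_, smul_zero]
      obtain ⟨i, hi⟩ := h2 z hz x
      rw [← G_conj a b hi, G_ab]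
    · exact (((h1 z hz).push _).sum ((h1 z hz).push _)).tc
  have t4 : ∀ a b, tc (τ a b) y = ((n : ℚ)⁻¹ * S.toFinset.card * (w / 2)) • jen a b := fun a b => by
    rw [t1, ← Finset.sum_subset S.toFinset.subset_univ fun x _ hx => ?_,
      Finset.sum_congr rfl fun x hx => ?_, Finset.sum_const, ← Nat.cast_smul_eq_nsmul ℚ,
      mul_smul, mul_smul]
    · rcases h3 x (Set.mem_toFinset.1 hx) with h | h
      · rw [← G_conj a b h, G_a]
      · rw [← G_conj a b h, G_b]
    · obtain ⟨i, hi⟩ := h4 x fun h => hx (Set.mem_toFinset.2 h)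
      rw [← G_conj a b hi, G_ab]
  have p : (0 : ℚ) < (n : ℚ)⁻¹ * S.toFinset.card := by
    have := Finset.card_pos.2 (Set.toFinset_nonempty.2 hS)
    positivity
  intro a b
  rcases w0.lt_or_gt with h | h
  · have h' : (w : ℚ) < 0 := Int.cast_lt_zero.2 h
    exact ⟨_, inferInstance, τ b⁻¹ a⁻¹, -((n : ℚ)⁻¹ * S.toFinset.card * (w / 2)), by nlinarith,
      t2 _ _, by rw [t4, jen_inv, smul_neg, neg_smul], t3 _ _⟩
  · exact ⟨_, inferInstance, τ a b, _, by positivity, t2 _ _, t4 a b, t3 _ _⟩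

end Pool.Agent.P.MP_67c9d4_al.FC
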