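import Pool.Agent.P.MP_67c9d4_al.FC.Iface

/-! Defects of additivity after a generic step. -/

namespace Pool.Agent.P.MP_67c9d4_al.FC

open Equiv Wr Multiplicative TD

namespace HOJEx

/-- A representation that is neutral on the vertex group can be made neutral. -/
theorem neu {H H' B X : Type} [Group H] [Group H'] [Group B] [Fintype X] {i : H →* H'} {a b : H}
    {s : H'} (h : IsHNN i a b s) (σ : H' →* Wr X B) (hσ : Neu (σ.comp i)) :
    ∃ (X' : Type) (_ : Fintype X') (σ' : H' →* Wr X' B), Neu σ' ∧ ∀ g, tc σ' (i g) = tc σ (i g) := by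
  obtain ⟨F, h1, h2⟩ := h.up B 1 ((Finset.univ.toList.map (σ s).c).prod)⁻¹ (by simp)
  refine ⟨X ⊕ Unit, inferInstance, Wr.sum σ (cst 1 F), fun C _ f g => ?_, fun g => ?_⟩
  · have e : ∀ g, tot (push f (cst (1 : H' →* Perm Unit) F g)) = f (F g) := fun g => by
      rw [tot_apply, Fintype.prod_unique]
      rfl
    refine DFunLike.congr_fun (h.ext (F := tot.comp ((push f).comp (Wr.sum σ (cst 1 F)))) (F' := 1)
      (fun g => ?_) ?_) g
    · change tot (push f (Wr.sum σ (cst 1 F) (i g))) = 1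
      rw [tot_sum, e, h1, MonoidHom.one_apply, map_one, mul_one]
      exact hσ C f g
    · change tot (push f (Wr.sum σ (cst 1 F) s)) = 1
      rw [tot_sum, e, h2, map_inv, map_list_prod, List.map_map, Finset.prod_map_toList, tot_apply]
      exact mul_inv_cancel _
  · have e : Null (cst (1 : H' →* Perm Unit) F) (i g) := fun n x _ => by
      rw [cst_c, ← map_pow, h1, MonoidHom.one_apply]
    rw [tc_sum, e.tc, add_zero]

end HOJEx

theorem s_HOJE (hHINJ : S_HINJ) (hHTD : S_HTD) (hHSP : S_HSP) (hHIND : S_HIND) (hHELL : S_HELL)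
    (hCORE : S_CORE) (hHOJ : S_HOJ) (hSLIN : S_SLIN) (hNEXT : S_NEXT) : S_HOJE := by
  classical
  intro H H' V _ _ χ t o y i s χ' hS y' hy' Z hZ hz
  have hto := hS.good.chi o
  obtain ⟨D, hD⟩ := hHTD H H' i _ _ s hS.hnn (hHINJ H H' χ i _ _ s hS.hnn hto hS.gen.1)
  have hE : ∀ g, D.Ell (i g) := fun g => Ell.of_mem (v := ()) (hD.hG ▸ ⟨g, rfl⟩)
  have hyp : ∀ u, Gen χ' (fun v => i (t v)) u → ¬D.Ell u → ∀ Z' : Set H', Z'.Finite →
      (∀ z ∈ Z', χ' z = ofAdd 1 ∧ ¬IsConj u z) → OJc u (Z' ∪ {g | D.Ell g}) :=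
    fun u h1 h2 Z' h3 h4 => hHOJ H' u Z' _ ⊤ (hCORE H' Unit Unit D χ' hD.tree
      (hHSP H H' V χ t o y i s χ' hS D hD) (hHIND H H' V χ t o y i s χ' hS D hD) () u h2 h1.1
      h1.2.1 Z' h3 h4 ⊤ FN.top)
  by_cases he : D.Ell y'
  swap
  · refine (hyp y' hy' he Z hZ fun z h => ⟨(hz z h).1.1, (hz z h).2⟩).mono ?_
    rintro z (h | ⟨v, rfl⟩)
    · exact ⟨z, Or.inl h, IsConj.refl _⟩
    · exact ⟨_, Or.inr (hE _), IsConj.refl _⟩
  have hL := hHELL H H' V χ t o y i s χ' hS D hD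
  obtain ⟨y₀, c1, c2, c3⟩ := hL y' hy' he
  refine OJc.conj (fun B _ a b => ?_) c1
  have hp : ∀ z, ∃ z₀, z ∈ Z → D.Ell z → IsConj (i z₀) z ∧ Gen χ t z₀ := fun z => by
    by_cases h : z ∈ Z ∧ D.Ell z
    · obtain ⟨z₀, d1, d2, -⟩ := hL z (hz z h.1).1 h.2
      exact ⟨z₀, fun _ _ => ⟨d1, d2⟩⟩
    · exact ⟨1, fun h1 h2 => absurd ⟨h1, h2⟩ h⟩
  choose pre hp using hp
  obtain ⟨X, _, σ, q, q0, n0, e0, e1⟩ := hS.good.oj y₀ c2 (insert y (pre '' {z ∈ Z | D.Ell z}))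
    (((hZ.sep _).image _).insert _) (by
      rintro _ (rfl | ⟨z, h, rfl⟩)
      · exact ⟨hS.gen, fun e => c3 e.symm⟩
      · exact ⟨(hp z h.1 h.2).2, fun e => (hz z h.1).2
          (c1.symm.trans ((i.map_isConj e).trans (hp z h.1 h.2).1))⟩) B a b
  obtain ⟨X₁, _, σ₁, -, ⟨q₁, q1, e2⟩, n1⟩ := hNEXT H H' B X χ i _ _ s hS.hnn hto hS.gen.1
    (hSLIN H H' V χ t o y i s χ' hS) σ
    ((e1 _ (Or.inr ⟨o, rfl⟩)).trans (e1 _ (Or.inl (Or.inl rfl))).symm)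
  have key : ∀ Z' : Set H', Z'.Finite → (∀ z ∈ Z', Gen χ' (fun v => i (t v)) z ∧ ¬D.Ell z) →
      ∃ (X' : Type) (_ : Fintype X') (τ : H' →* Wr X' B) (r : ℚ), 0 < r ∧ Neu τ ∧
        (∀ g, tc τ (i g) = r • tc σ g) ∧ ∀ z ∈ Z', tc τ z = 0 := by
    intro Z' hZ'
    induction Z', hZ' using Set.Finite.induction_on with
    | empty =>
      obtain ⟨X₂, _, σ₂, n2, e3⟩ := HOJEx.neu hS.hnn σ₁ (n1 n0)
      exact fun _ => ⟨X₂, inferInstance, σ₂, q₁, q1, n2, fun g => (e3 g).trans (e2 g),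
        fun z h => h.elim⟩
    | @insert z Z' _ hf ih =>
      intro h
      obtain ⟨X', _, τ, r, r0, n2, e3, e4⟩ := ih fun u hu => h u (Or.inr hu)
      by_cases hc : ∃ u ∈ Z', IsConj z u
      · obtain ⟨u, u1, u2⟩ := hc
        refine ⟨X', inferInstance, τ, r, r0, n2, e3, ?_⟩
        rintro w (rfl | hw)
        · rw [tc_conj τ u2, e4 u u1]
        · exact e4 w hw
      obtain ⟨c, X₃, _, σ₃, c0, n3, e5, e6⟩ := (hyp z (h z (Or.inl rfl)).1 (h z (Or.inl rfl)).2 Z'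
        hf fun u hu => ⟨(h u (Or.inr hu)).1.1, fun e => hc ⟨u, hu, e⟩⟩).corr
        (neg_mem (n2.tc_mem z))
      refine ⟨_, inferInstance, Wr.sum (cp (Fin c) τ) σ₃, c * r, by positivity,
        ((cp_cov _ τ).neu n2).sum n3, fun g => ?_, ?_⟩
      · rw [tc_sum, tc_cp, e3, e6 _ (Or.inr (hE g)), add_zero, mul_smul]
      · rintro w (rfl | hw)
        · rw [tc_sum, tc_cp, e5, smul_neg, add_neg_cancel]
        · rw [tc_sum, tc_cp, e4 w hw, e6 w (Or.inl hw), smul_zero, add_zero]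
  obtain ⟨X', _, τ, r, r0, n2, e3, e4⟩ := key {z ∈ Z | ¬D.Ell z} (hZ.sep _)
    fun z h => ⟨(hz z h.1).1, h.2⟩
  refine ⟨X', inferInstance, τ, r * q, by positivity, n2, by rw [e3, e0, mul_smul], ?_⟩
  rintro z (h | ⟨v, rfl⟩)
  · by_cases h' : D.Ell z
    · rw [← tc_conj τ (hp z h h').1, e3, e1 _ (Or.inl (Or.inr ⟨z, ⟨h, h'⟩, rfl⟩)), smul_zero]
    · exact e4 z ⟨h, h'⟩
  · rw [e3, e1 _ (Or.inr ⟨v, rfl⟩), smul_zero]

end Pool.Agent.P.MP_67c9d4_al.FC
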