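import Pool.Agent.P.MP_67c9d4_al.FC.Iface

/-! The edge groups of the extension are separable. -/

namespace Pool.Agent.P.MP_67c9d4_al.FC

open Equiv Wr Multiplicative TD

theorem s_HSP (hHVP : S_HVP) (hRFV : S_RFV) (hSEPA : S_SEPA) : S_HSP := by
  intro H H' V _ _ χ t o y i s χ' h D hD k
  have hR := hRFV H' (hHVP H H' V χ t o y i s χ' h).1
  obtain ⟨⟨⟩, _ | _⟩ := k
  · rw [hD.hPf]
    exact hSEPA H' _ hR (Ind3.of_chi ((h.chi y).trans h.gen.1))
  · rw [hD.hPt]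
    exact hSEPA H' _ hR (Ind3.of_chi ((h.chi _).trans (h.good.chi o)))

end Pool.Agent.P.MP_67c9d4_al.FC
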