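import Pool.Agent.P.MP_67c9d4_al.FC.Iface

/-! The graph of groups of an HNN extension. -/

namespace Pool.Agent.P.MP_67c9d4_al.FC

open Equiv Wr Multiplicative TD

namespace HTDx

/-- The graph of groups with one vertex and one edge. -/
def td {H H' : Type} [Group H] [Group H'] (i : H →* H') (a b : H) (s : H')
    (h : s⁻¹ * i a * s = i b) : TD H' Unit Unit where
  vt _ := ()
  G _ := i.range
  P k := bif k.2 then Subgroup.zpowers (i a) else Subgroup.zpowers (i b)
  ε k := bif k.2 then s else s⁻¹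
  le k := by
    obtain ⟨e, _ | _⟩ := k
    · exact Subgroup.zpowers_le.2 ⟨b, rfl⟩
    · exact Subgroup.zpowers_le.2 ⟨a, rfl⟩
  inv k := by
    obtain ⟨e, _ | _⟩ := k
    · exact (inv_inv s).symm
    · rfl
  conj k g := by
    obtain ⟨e, _ | _⟩ := k
    · change g ∈ Subgroup.zpowers (i a) ↔ s⁻¹ * g * s⁻¹⁻¹ ∈ Subgroup.zpowers (i b)
      have h1 : i a = s * i b * s⁻¹ := by rw [← h]; group
      rw [h1, ← cj_zpowers, mem_cj, inv_inv]
    · change g ∈ Subgroup.zpowers (i b) ↔ s * g * s⁻¹ ∈ Subgroup.zpowers (i a)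
      have h1 : i b = s⁻¹ * i a * s⁻¹⁻¹ := by rw [← h, inv_inv]
      rw [h1, ← cj_zpowers, mem_cj, inv_inv]

end HTDx

open HTDx in
theorem s_HTD : S_HTD := by
  intro H H' _ _ i a b s h _
  refine ⟨td i a b s h.rel, ⟨fun u v g => ?_, fun W _ σ γ h1 h2 h3 => ?_⟩, rfl, rfl, rfl, rfl⟩
  · have hg : g ∈ Subgroup.closure (Set.range i ∪ {s}) := by rw [h.gen]; trivial
    have key : (td i a b s h.rel).Pth () () g ∧ (td i a b s h.rel).Pth () () g⁻¹ := by
      induction hg using Subgroup.closure_induction with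
      | mem x hx =>
        rcases hx with ⟨y, rfl⟩ | hx
        · exact ⟨.vtx ⟨y, rfl⟩, .vtx ⟨y⁻¹, map_inv i y⟩⟩
        · rw [show x = s from hx]
          exact ⟨.edge ((), true), .edge ((), false)⟩
      | one => exact ⟨.vtx (one_mem _), .vtx (inv_mem (one_mem _))⟩
      | mul x y _ _ hx hy => exact ⟨hx.1.mul hy.1, by rw [mul_inv_rev]; exact hy.2.mul hx.2⟩
      | inv x _ hx => exact ⟨hx.2, by rw [inv_inv]; exact hx.1⟩
    exact key.1
  · let f : H →* W := MonoidHom.mk' (fun x => σ () (i x)) fun x y => by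
      rw [map_mul]
      exact h1 () _ ⟨x, rfl⟩ _ ⟨y, rfl⟩
    have h4 : σ () (s * i b * s⁻¹) = γ ((), true) * σ () (i b) * (γ ((), true))⁻¹ :=
      h3 ((), true) (i b) (Subgroup.mem_zpowers _)
    have h5 : s * i b * s⁻¹ = i a := by rw [← h.rel]; group
    obtain ⟨F, f1, f2⟩ := h.up W f (γ ((), true)) (by
      change _ * σ () (i a) * _ = σ () (i b)
      rw [← h5, h4]; group)
    refine ⟨fun _ _ => F, fun _ _ _ x y => (map_mul F x y).symm, ?_, ?_⟩
    · rintro v _ ⟨x, rfl⟩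
      exact f1 x
    · rintro ⟨e, _ | _⟩
      · change F s⁻¹ = γ (bar ((), true))
        rw [h2, map_inv, f2]
      · exact f2

end Pool.Agent.P.MP_67c9d4_al.FC
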