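import Pool.Agent.P.MP_67c9d4_al.FC.Iface

namespace Pool.Agent.P.MP_67c9d4_al.FC

open Equiv Wr Multiplicative TD

namespace HULLx

variable {T : Type} (Γ : SimpleGraph T) (w : ℤ → T × Bool) (N : ℤ)

/-- Functions that are constant on the components. -/
def Inv (μ : ℤ → ℤ) : Prop := ∀ i j, ¬Γ.Adj (w i).1 (w j).1 → μ i = μ j

/-- Shifted cut. -/
def sh (μ : ℤ → ℤ) (C : Set ℤ) : Set ℤ := {i | i + -μ i * N ∈ C}

/-- Cuts that split every residue class. -/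
def Gd (C : Set ℤ) : Prop := Cut Γ w C ∧ ∀ i, (∃ m, i + m * N ∈ C) ∧ ∃ m, i + m * N ∉ C

/-- Periodic words. -/
def Pw : Prop := 0 < N ∧ ∀ i m, w (i + m * N) = w i

variable {Γ w N} {μ ν : ℤ → ℤ} {C C' : Set ℤ} {x : T × Bool} {L : List (T × Bool)}

lemma Inv.per (h : Inv Γ w μ) (hw : Pw w N) (i m : ℤ) : μ (i + m * N) = μ i :=
  h _ _ (by rw [hw.2]; exact Γ.irrefl)

lemma Inv.add (h : Inv Γ w μ) (h' : Inv Γ w ν) : Inv Γ w (μ + ν) := fun i j e => by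
  rw [Pi.add_apply, Pi.add_apply, h i j e, h' i j e]

lemma Inv.neg (h : Inv Γ w μ) : Inv Γ w (-μ) := fun i j e => by
  rw [Pi.neg_apply, Pi.neg_apply, h i j e]

lemma sh_sh (hw : Pw w N) (h : Inv Γ w ν) : sh N μ (sh N ν C) = sh N (μ + ν) C := by
  ext i
  simp only [sh, Set.mem_ofPred_eq, h.per hw, Pi.add_apply]
  rw [show i + -μ i * N + -ν i * N = i + -(μ i + ν i) * N by ring]

lemma sh_zero : sh N 0 C = C := by
  ext i
  simp [sh]

lemma mem_sh (hw : Pw w N) (h : Inv Γ w μ) (i m : ℤ) :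
    i + m * N ∈ sh N μ C ↔ i + (m - μ i) * N ∈ C := by
  simp only [sh, Set.mem_ofPred_eq, h.per hw]
  rw [show i + m * N + -μ i * N = i + (m - μ i) * N by ring]

lemma cut_sh (hw : Pw w N) (h : Inv Γ w μ) (hC : Cut Γ w C) : Cut Γ w (sh N μ C) :=
  fun i j hij e hj => hC _ _ (by rw [h i j e]; omega) (by rwa [hw.2, hw.2]) hj

lemma Gd.sh (hC : Gd Γ w N C) (hw : Pw w N) (h : Inv Γ w μ) : Gd Γ w N (sh N μ C) := by
  refine ⟨cut_sh hw h hC.1, fun i => ?_⟩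
  obtain ⟨⟨m, hm⟩, m', hm'⟩ := hC.2 i
  exact ⟨⟨m + μ i, by rwa [mem_sh hw h, add_sub_cancel_right]⟩,
    m' + μ i, by rwa [mem_sh hw h, add_sub_cancel_right]⟩

lemma eq_iff (hw : Pw w N) (h : Inv Γ w μ) (i k : ℤ) :
    k + -μ k * N = i ↔ k = i + μ i * N := by
  constructor
  · rintro rfl
    rw [h.per hw]
    ring
  · rintro rfl
    rw [h.per hw]
    ring

lemma step_sh (hw : Pw w N) (h : Inv Γ w μ) (hs : CStep Γ w x C C') :
    CStep Γ w x (sh N μ C) (sh N μ C') := by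
  refine ⟨cut_sh hw h hs.1, cut_sh hw h hs.2.1, hs.2.2.imp ?_ ?_⟩
  · rintro ⟨i, h1, h2, rfl⟩
    refine ⟨i + μ i * N, by simpa [mem_sh hw h] using h1, by rwa [hw.2], Set.ext fun k => ?_⟩
    exact or_congr_left (eq_iff hw h i k)
  · rintro ⟨i, h1, h2, rfl⟩
    refine ⟨i + μ i * N, by simpa [mem_sh hw h] using h1, by rwa [hw.2], Set.ext fun k => ?_⟩
    exact and_congr_right' (not_congr (eq_iff hw h i k))

lemma walk_sh (hw : Pw w N) (h : Inv Γ w μ) (hs : Walk (CStep Γ w) L C C') :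
    Walk (CStep Γ w) L (sh N μ C) (sh N μ C') := by
  induction hs with
  | nil => exact Walk.nil _
  | cons hm _ ih => exact Walk.cons (step_sh hw h hm) ih

lemma mono (hw : Pw w N) (hC : Cut Γ w C) {i m m' : ℤ} (h : m ≤ m') (hm : i + m' * N ∈ C) :
    i + m * N ∈ C := by
  rcases h.eq_or_lt with rfl | h
  · exact hm
  · exact hC _ _ (by nlinarith [hw.1]) (by rw [hw.2, hw.2]; exact Γ.irrefl) hm

lemma Gd.step (hC : Gd Γ w N C) (hw : Pw w N) (hs : CStep Γ w x C C') : Gd Γ w N C' := by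
  refine ⟨hs.2.1, fun i => ?_⟩
  obtain ⟨⟨m, hm⟩, m', hm'⟩ := hC.2 i
  have h0 := hw.1
  rcases hs.2.2 with ⟨k, h1, -, rfl⟩ | ⟨k, h1, -, rfl⟩
  · refine ⟨⟨m, Or.inr hm⟩, ?_⟩
    have h2 : i + (m' + 1) * N ∉ C := fun h => hm' (mono hw hC.1 (by omega) h)
    by_cases e : i + m' * N = k
    · exact ⟨m' + 1, fun h => h.elim (fun e' => by linarith) h2⟩
    · exact ⟨m', fun h => h.elim e hm'⟩
  · refine ⟨?_, m', fun h => hm' h.1⟩
    by_cases e : i + m * N = k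
    · exact ⟨m - 1, mono hw hC.1 (by omega) hm, fun e' : _ = k => by linarith⟩
    · exact ⟨m, hm, e⟩

lemma gd_Iio (hw : Pw w N) (r : ℤ) : Gd Γ w N (Set.Iio r) := by
  have h0 := hw.1
  refine ⟨fun i j h _ hj => h.trans hj, fun i => ⟨⟨-(|i - r| + 1), ?_⟩, |i - r|, ?_⟩⟩
  · change _ < r
    nlinarith [le_abs_self (i - r), abs_nonneg (i - r)]
  · change ¬_ < r
    nlinarith [neg_abs_le (i - r), abs_nonneg (i - r)]

lemma walk_pre (r : ℕ) : Walk (CStep Γ w) (pre w r) (Set.Iio 0) (Set.Iio r) := by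
  induction r with
  | zero => exact Walk.nil _
  | succ r ih =>
    rw [pre, List.range_succ, List.map_append]
    refine ih.append (Walk.cons (y' := Set.Iio ((r + 1 : ℕ) : ℤ)) ⟨fun i j h _ hj => h.trans hj, fun i j h _ hj => h.trans hj,
      Or.inl ⟨r, lt_irrefl (r : ℤ), rfl, Set.ext fun k => ?_⟩⟩ (Walk.nil _))
    simp only [Set.mem_Iio, Set.mem_insert_iff]
    omega

lemma exists_ht (hw : Pw w N) (hC : Gd Γ w N C) (i : ℤ) : ∃ h, ∀ m, i + m * N ∈ C ↔ m ≤ h := by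
  obtain ⟨h1, m', hm'⟩ := hC.2 i
  obtain ⟨h, h2, h3⟩ := Int.exists_greatest_of_bdd (P := fun m => i + m * N ∈ C)
    ⟨m', fun m hm => not_lt.1 fun h => hm' (mono hw hC.1 h.le hm)⟩ h1
  exact ⟨h, fun m => ⟨h3 m, fun hm => mono hw hC.1 hm h2⟩⟩

variable (Γ) in
/-- The equivalence relation on cuts. -/
def rel (hw : Pw w N) : Setoid {C // Gd Γ w N C} where
  r C C' := ∃ μ, Inv Γ w μ ∧ C'.1 = sh N μ C.1
  iseqv := ⟨fun _ => ⟨0, fun _ _ _ => rfl, sh_zero.symm⟩, fun ⟨μ, h, e⟩ => ⟨-μ, h.neg, by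
    rw [e, sh_sh hw h, neg_add_cancel, sh_zero]⟩, fun ⟨μ, h, e⟩ ⟨ν, h', e'⟩ =>
    ⟨ν + μ, h'.add h, by rw [e', e, sh_sh hw h]⟩⟩

lemma mk_sh (hw : Pw w N) (C : {C // Gd Γ w N C}) (h : Inv Γ w μ) :
    Quotient.mk (rel Γ hw) ⟨_, C.2.sh hw h⟩ = Quotient.mk _ C :=
  (Quotient.sound (s := rel Γ hw) ⟨μ, h, rfl⟩).symm

lemma finite_quot (hw : Pw w N) : Finite (Quotient (rel Γ hw)) := by
  choose ht hht using fun (C : {C // Gd Γ w N C}) i => exists_ht hw C.2 i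
  have h0 := hw.1
  have base : ∀ i j, ¬Γ.Adj (w i).1 (w j).1 → ∀ C, ht C j - ht C i ≤ |i - j| + 1 := by
    intro i j e C
    have h1 : i + (ht C j - (|i - j| + 1)) * N ∈ C.1 := C.2.1 _ _
      (by nlinarith [le_abs_self (i - j), abs_nonneg (i - j)]) (by rwa [hw.2, hw.2])
      ((hht C j _).2 le_rfl)
    linarith [(hht C i _).1 h1]
  have bdd : ∀ i j, Relation.EqvGen (fun i j => ¬Γ.Adj (w i).1 (w j).1) i j →
      ∃ b, ∀ C, |ht C i - ht C j| ≤ b := by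
    intro i j h
    induction h with
    | rel i j e =>
      refine ⟨|i - j| + 1, fun C => abs_le.2 ⟨by linarith [base i j e C], ?_⟩⟩
      rw [abs_sub_comm]
      exact base j i (fun h => e h.symm) C
    | refl i => exact ⟨0, by simp⟩
    | symm i j _ ih => exact ih.imp fun b hb C => by rw [abs_sub_comm]; exact hb C
    | trans i j k _ _ ih ih' =>
      obtain ⟨b, hb⟩ := ih
      obtain ⟨b', hb'⟩ := ih'
      exact ⟨b + b', fun C => (abs_sub_le _ _ _).trans (add_le_add (hb C) (hb' C))⟩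
  let s := Relation.EqvGen.setoid fun i j => ¬Γ.Adj (w i).1 (w j).1
  choose b hb using fun i => bdd _ _ (Quotient.mk_out (s := s) i)
  let D : (Set.Ico 0 N → ℤ) → Set ℤ := fun f =>
    {k | ∃ (r : Set.Ico 0 N) (m : ℤ), k = r + m * N ∧ m ≤ f r}
  have hS := (Set.Finite.pi' fun r : Set.Ico 0 N => Set.finite_Icc (-b r) (b r)).image D
  refine Set.finite_univ_iff.1 (((hS.preimage Subtype.val_injective.injOn).image
    (Quotient.mk (rel Γ hw))).subset fun y _ => ?_)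
  obtain ⟨C, rfl⟩ := y.exists_rep
  have hμ : Inv Γ w fun i => -ht C (Quotient.mk s i).out := fun i j e =>
    congrArg (fun q : Quotient s => -ht C q.out) (Quotient.sound (Relation.EqvGen.rel i j e))
  refine ⟨⟨_, C.2.sh hw hμ⟩, ⟨fun r => ht C r - ht C (Quotient.mk s r).out, fun r => ?_,
    Set.ext fun k => ⟨?_, fun hk => ?_⟩⟩, mk_sh hw C hμ⟩
  · exact abs_le.1 ((abs_sub_comm _ _).trans_le (hb r C))
  · rintro ⟨r, m, rfl, h⟩
    exact (mem_sh hw hμ _ _).2 ((hht C _ _).2 (by linarith))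
  · have e : k = k % N + k / N * N := (Int.emod_add_ediv_mul k N).symm
    refine ⟨⟨k % N, Int.emod_nonneg _ h0.ne', Int.emod_lt_of_pos _ h0⟩, k / N, e, ?_⟩
    rw [e] at hk
    linarith [(hht C _ _).1 ((mem_sh hw hμ _ _).1 hk)]

variable (Γ) in
/-- Moves on the quotient. -/
def Mv (hw : Pw w N) (x : T × Bool) (y y' : Quotient (rel Γ hw)) : Prop :=
  ∃ C C', Quotient.mk _ C = y ∧ Quotient.mk _ C' = y' ∧ CStep Γ w x C.1 C'.1

lemma lift {hw : Pw w N} {C : {C // Gd Γ w N C}} {y' : Quotient (rel Γ hw)}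
    (h : Mv Γ hw x (Quotient.mk _ C) y') : ∃ C', CStep Γ w x C.1 C'.1 ∧ Quotient.mk _ C' = y' := by
  obtain ⟨C₁, C₂, h1, rfl, h2⟩ := h
  obtain ⟨μ, h3, h4⟩ := Quotient.exact h1
  exact ⟨⟨_, C₂.2.sh hw h3⟩, h4 ▸ step_sh hw h3 h2, mk_sh hw C₂ h3⟩

lemma lift_walk {hw : Pw w N} {y y' : Quotient (rel Γ hw)} (h : Walk (Mv Γ hw) L y y') :
    ∀ C, Quotient.mk _ C = y → ∃ C', Walk (CStep Γ w) L C.1 C'.1 ∧ Quotient.mk _ C' = y' := by
  induction h with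
  | nil => exact fun C e => ⟨C, Walk.nil _, e⟩
  | cons hm _ ih =>
    rintro C rfl
    obtain ⟨C₁, h1, h2⟩ := lift hm
    obtain ⟨C₂, h3, h4⟩ := ih C₁ h2
    exact ⟨C₂, Walk.cons h1 h3, h4⟩

lemma proj_walk (hw : Pw w N) (h : Walk (CStep Γ w) L C C') : ∀ (h1 : Gd Γ w N C)
    (h2 : Gd Γ w N C'), Walk (Mv Γ hw) L (Quotient.mk _ ⟨C, h1⟩) (Quotient.mk _ ⟨C', h2⟩) := by
  induction h with
  | nil => exact fun _ _ => Walk.nil _
  | cons hm _ ih =>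
    exact fun h1 h2 => Walk.cons ⟨_, ⟨_, h1.step hw hm⟩, rfl, rfl, hm⟩ (ih _ h2)

lemma cx (hw : Pw w N) (h : Cx Γ (CStep Γ w)) : Cx Γ (Mv Γ hw) := by
  refine ⟨fun x y y₁ y₂ h1 h2 => ?_, fun x y y' ⟨C, C', h1, h2, h3⟩ =>
    ⟨C', C, h2, h1, h.inv _ _ _ h3⟩, fun x x' y y₁ y₂ e h1 h2 => ?_⟩
  · obtain ⟨C, rfl⟩ := y.exists_rep
    obtain ⟨C₁, h3, rfl⟩ := lift h1
    obtain ⟨C₂, h4, rfl⟩ := lift h2
    rw [Subtype.ext (h.det _ _ _ _ h3 h4)]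
  · obtain ⟨C, rfl⟩ := y.exists_rep
    obtain ⟨C₁, h3, rfl⟩ := lift h1
    obtain ⟨C₂, h4, rfl⟩ := lift h2
    obtain ⟨C₃, h5, h6⟩ := h.sq _ _ _ _ _ e h3 h4
    exact ⟨Quotient.mk _ ⟨C₃, C₁.2.step hw h5⟩, ⟨_, _, rfl, rfl, h5⟩, _, _, rfl, rfl, h6⟩

end HULLx

open HULLx in
theorem s_HULL (hHEAP : S_HEAP) : S_HULL := by
  intro T Γ w n hn hp hr
  have hw : Pw w n := ⟨by exact_mod_cast hn, fun i m => Function.Periodic.int_mul hp m i⟩
  have h1 : Inv Γ w 1 := fun _ _ _ => rfl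
  have e1 : Set.Iio (n : ℤ) = sh n 1 (Set.Iio 0) := Set.ext fun k => by simp [sh]
  refine ⟨_, finite_quot hw, Mv Γ hw, Quotient.mk _ ⟨_, gd_Iio hw 0⟩, cx hw ((hHEAP T Γ w).1 hr),
    ?_, fun L hL => ?_, fun r r0 rn hr => ⟨Quotient.mk _ ⟨_, gd_Iio hw r⟩, fun e => ?_,
      proj_walk hw (walk_pre r) _ _⟩⟩
  · have h := proj_walk hw (walk_pre (Γ := Γ) n) (gd_Iio hw _) (gd_Iio hw _)
    rwa [← Quotient.sound (s := rel Γ hw) (a := ⟨_, gd_Iio hw 0⟩) (b := ⟨_, gd_Iio hw n⟩)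
      ⟨1, h1, e1⟩] at h
  · obtain ⟨C, h2, h3⟩ := lift_walk hL _ rfl
    obtain ⟨μ, h4, h5⟩ := Quotient.exact h3.symm
    have h6 := walk_pre (Γ := Γ) (w := w) n
    rw [e1] at h6
    rw [h5] at h2
    have h7 := h2.append (walk_sh hw h4 h6)
    have h8 := h6.append (walk_sh hw h1 h2)
    rw [sh_sh hw h1] at h7
    rw [sh_sh hw h4, add_comm] at h8
    have h9 := (hHEAP T Γ w).2 _ _ _ _ h7 h8
    rwa [wd_append, wd_append] at h9
  · obtain ⟨μ, h4, h5⟩ := Quotient.exact e.symm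
    have a1 : 0 + -μ 0 * n < 0 := (Set.ext_iff.1 h5 0).1 (show (0 : ℤ) < r by exact_mod_cast r0)
    have a2 : ¬r + -μ r * n < 0 := fun h => lt_irrefl (r : ℤ) ((Set.ext_iff.1 h5 r).2 h)
    have a3 : μ r = μ 0 := h4 _ _ (by rw [← hr 0, zero_add]; exact Γ.irrefl)
    have a4 : (r : ℤ) < n := by exact_mod_cast rn
    have a5 : 0 < μ 0 := pos_of_mul_pos_left (b := (n : ℤ)) (by linarith) hw.1.le
    rw [a3] at a2
    nlinarith [hw.1]

end Pool.Agent.P.MP_67c9d4_al.FC
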