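import Pool.Agent.P.MP_67c9d4_al.FC.Iface

/-! Parabolic subgroups after a generic step. -/

namespace Pool.Agent.P.MP_67c9d4_al.FC

open Equiv Wr Multiplicative TD

theorem s_HVP (hHINJ : S_HINJ) (hHTD : S_HTD) (hXREP : S_XREP) (hVPS : S_VPS) (hVPY : S_VPY)
    (hT3 : S_T3) : S_HVP := by
  intro H H' V _ _ χ t o y i s χ' h
  have hi := hHINJ H H' χ i _ _ s h.hnn (h.good.chi o) h.gen.1
  obtain ⟨D, hD⟩ := hHTD H H' i _ _ s h.hnn hi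
  have key : ∀ Λ : Subgroup H, VP Λ → VS (D.G ()) (Λ.map i) := fun Λ hΛ => by
    obtain ⟨T, hT, Γ, X, _, σ, hσ⟩ := hVPS H Λ hΛ
    obtain ⟨X', hX', σ', hd⟩ := hXREP H H' V χ t o y i s χ' h _ X (mir_raag Γ) σ
    rw [hD.hG]
    exact ⟨T, hT, Γ, X', hX', σ', (hσ.dom hd).map hi⟩
  have fin : ∀ Λ : Subgroup H, VP Λ → VP (Λ.map i) := fun Λ hΛ => by
    refine hT3 H' Unit Unit D hD.tree ?_ () _ (hD.hG ▸ Subgroup.map_le_range i Λ) (key Λ hΛ)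
    rintro ⟨⟨⟩, _ | _⟩
    · rw [hD.hPf, ← MonoidHom.map_zpowers]
      exact key _ (hVPY H χ y h.good.vp h.gen.1 h.gen.2.1)
    · rw [hD.hPt, ← MonoidHom.map_zpowers]
      exact key _ (h.good.vt o)
  exact ⟨Subgroup.map_bot i ▸ fin _ h.good.vp,
    fun v => MonoidHom.map_zpowers i (t v) ▸ fin _ (h.good.vt v)⟩

end Pool.Agent.P.MP_67c9d4_al.FC
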