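import Pool.Agent.P.MP_67c9d4_al.FC.Iface

/-! Intersections. -/

namespace Pool.Agent.P.MP_67c9d4_al.FC

open Equiv Wr Multiplicative TD

theorem s_INTER (hCOMMON : S_COMMON) : S_INTER := by
  intro H _ G Λ₁ Λ₂ h1 h2
  obtain ⟨T, _, Γ, X, _, σ, h⟩ := hCOMMON H Bool (fun _ => G) (fun b => bif b then Λ₁ else Λ₂)
    fun b => by cases b <;> assumption
  obtain ⟨ω₁, e1⟩ := h true
  obtain ⟨ω₂, e2⟩ := h false
  refine ⟨T, ‹_›, Γ, X ⊕ X, inferInstance, Wr.sum σ σ, Sum.elim ω₁ ω₂, fun g hg => ?_⟩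
  rw [Subgroup.mem_inf]
  refine Iff.trans ?_ (and_congr (e1 g hg) (e2 g hg))
  rw [funext_iff, funext_iff, funext_iff, Sum.forall]
  rfl

end Pool.Agent.P.MP_67c9d4_al.FC
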