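import Pool.Agent.P.MP_67c9d4_al.FC.Iface

/-! The edge-reading representation. -/

namespace Pool.Agent.P.MP_67c9d4_al.FC

open Equiv Wr Multiplicative TD

namespace KAPx

variable {H V E X : Type} [Group H] {D : TD H V E} {α : H →* Perm X}

lemma orb (A : Subgroup H) {q h : H} (hh : q⁻¹ * h * q ∈ A) (y : X) :
    {x' | ∃ g ∈ A, x' = α g (α q⁻¹ (α h y))} = {x' | ∃ g ∈ A, x' = α g (α q⁻¹ y)} := by
  have e : ∀ g, α g (α q⁻¹ (α h y)) = α (g * (q⁻¹ * h * q)) (α q⁻¹ y) := fun g => by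
    simp only [← Perm.mul_apply, ← map_mul]
    congr 2
    group
  ext x
  constructor
  · rintro ⟨g, hg, rfl⟩
    exact ⟨_, mul_mem hg hh, e g⟩
  · rintro ⟨g, hg, rfl⟩
    exact ⟨_, mul_mem hg (inv_mem hh), by rw [e, inv_mul_cancel_right]⟩

lemma lab_inv (k : E × Bool) {h : H} (hh : h ∈ D.P k) (y : X) :
    D.lab α (k, 1) (α h y) = D.lab α (k, 1) y := by
  obtain ⟨e, b⟩ := k
  cases b
  · refine Prod.ext (Prod.ext rfl (orb (D.P (e, true)) (q := 1 * D.ε (e, false)) ?_ y)) rfl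
    refine (D.conj (e, false) _).2 ?_
    rwa [show D.ε (e, false) * ((1 * D.ε (e, false))⁻¹ * h * (1 * D.ε (e, false))) *
      (D.ε (e, false))⁻¹ = h by group]
  · refine Prod.ext (Prod.ext rfl (orb (D.P (e, true)) (q := 1) ?_ y)) rfl
    rwa [inv_one, one_mul, mul_one]

lemma lt_not {W : Type} (x : W × Bool) : lt (x.1, !x.2) = (lt x)⁻¹ := by
  obtain ⟨a, b⟩ := x
  cases b
  · exact (inv_inv (FreeGroup.of a)).symm
  · rfl

lemma lab_bar (k : E × Bool) (y : X) :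
    lt (D.lab α (bar k, 1) y) = (lt (D.lab α (k, 1) (α (D.ε k) y)))⁻¹ := by
  rw [← lt_not, ← lab_rev]
  have e : D.rev (k, 1) = act (D.ε k) (bar k, 1) := by
    simp only [TD.rev, act, one_mul, mul_one]
  rw [e, lab_act, ← Perm.mul_apply, ← map_mul, inv_mul_cancel, map_one, Perm.one_apply]

end KAPx

open KAPx in
theorem s_KAP : S_KAP := by
  intro H V E X _ D α hT
  obtain ⟨Ev, h1, h2, h3⟩ := hT.up (Wr X (FreeGroup (E × Set X))) (fun _ g => ⟨α g, fun _ => 1⟩)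
    (fun k => ⟨α (D.ε k), fun x => lt (D.lab α (k, 1) x)⟩)
    (fun v g _ h _ => Wr.ext (map_mul α g h) (funext fun _ => (mul_one _).symm))
    (fun k => Wr.ext (by rw [D.inv]; exact map_inv α _) (funext fun y => lab_bar k y))
    (fun k g hg => by
      refine Wr.ext (by simp) (funext fun y => ?_)
      have e := lab_inv (α := α) k (inv_mem ((D.conj k g).1 hg)) y
      change 1 = lt (D.lab α (k, 1) y) * 1 *
        (lt (D.lab α (k, 1) (α (D.ε k) ((α (D.ε k) * α g)⁻¹ y))))⁻¹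
      rw [← map_mul, ← map_inv, ← Perm.mul_apply, ← map_mul,
        show D.ε k * (D.ε k * g)⁻¹ = (D.ε k * g * (D.ε k)⁻¹)⁻¹ by group, e, mul_one,
        mul_inv_cancel])
  have hp : ∀ u v h, (Ev u v h).p = α h :=
    hT.ind (Q := fun u v h => (Ev u v h).p = α h) (fun v g hg => by rw [h2 v g hg])
      (fun k => by rw [h3]) fun u v w g h a b => by rw [← h1 u v w, mul_p, a, b, map_mul]
  have hv : ∀ v, ∀ g ∈ D.G v, ∀ x, (Ev v v g).c x = 1 := fun v g hg x => by rw [h2 v g hg]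
  have he : ∀ k x, (Ev (D.vt k) (D.vt (bar k)) (D.ε k)).c x = lt (D.lab α (k, 1) x) :=
    fun k x => by rw [h3]
  refine ⟨Ev, h1, hp, hv, he, ?_, fun c n hc x => ?_⟩
  · refine hT.ind (Q := fun u v h => ∃ C : ℕ, ∀ x, ∃ L : List ((E × Set X) × Bool),
      L.length ≤ C ∧ (Ev u v h).c x = FreeGroup.mk L)
      (fun v g hg => ⟨0, fun x => ⟨[], le_rfl, hv v g hg x⟩⟩)
      (fun k => ⟨1, fun x => ⟨[_], le_rfl, he k x⟩⟩) ?_
    rintro u v w g h ⟨C, a⟩ ⟨C', b⟩
    refine ⟨C + C', fun x => ?_⟩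
    obtain ⟨L, a1, a2⟩ := a x
    obtain ⟨L', b1, b2⟩ := b ((Ev u v g).p⁻¹ x)
    exact ⟨L ++ L', by rw [List.length_append]; omega,
      by rw [← h1 u v w, mul_c, a2, b2, FreeGroup.mul_mk]⟩
  · induction n with
    | zero => rw [inv_mul_cancel, h1.one]; rfl
    | succ n ih =>
      rw [h1.step _ _ (hc n n.lt_succ_self), mul_c, mul_c, ih fun i hi => hc i (by omega),
        hv _ _ (hc n n.lt_succ_self).2, mul_one, he, hp, ← map_inv, ← Perm.mul_apply, ← map_mul,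
        show ((c 0).2⁻¹ * (c n).2)⁻¹ * (c 0).2⁻¹ = (c n).2⁻¹ by group, ← lab_act, act, mul_one]
      rfl

end Pool.Agent.P.MP_67c9d4_al.FC
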