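import Pool.Agent.P.MP_67c9d4_al.FC.Iface

namespace Pool.Agent.P.MP_67c9d4_al.FC

open Equiv Wr Multiplicative TD

theorem s_KILL (hEMB : S_EMB) (hKILL1 : S_KILL1) : S_KILL := by
  intro H V E X₀ F J _ _ _ _ D α ψ z c l hT hS v hψ hA hZ x₀
  obtain ⟨N, hN, hle, hE⟩ := hEMB H V E J D hT hS z c l hA α.ker (FN.ker α)
  let π₀ : H ⧸ N → X₀ := Quotient.lift (fun g => α g x₀) fun a b h => by
    have h1 : α (a⁻¹ * b) = 1 := hle (QuotientGroup.leftRel_apply.1 h)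
    rw [map_mul, map_inv, inv_mul_eq_one] at h1
    rw [h1]
  have h0 : ∀ h x, π₀ (qa N h x) = α h (π₀ x) := fun h x => by
    obtain ⟨a, rfl⟩ := QuotientGroup.mk_surjective x
    rw [qa_mk]
    change α (h * a) x₀ = α h (α a x₀)
    rw [map_mul, Perm.mul_apply]
  have h1 : ∀ f h x, π₀ (qa N h x) = (ψ f h).p (π₀ x) := fun f h x => by rw [h0, hψ]
  obtain ⟨X, _, σ, π, h2, h3, h4⟩ := hKILL1 H V E F J D N
    (fun f => Wr.pull (qa N) (ψ f) π₀ (h1 f)) z c l hT v hN (fun _ _ => rfl) hA hE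
    (fun j x S hS' n hn => hZ j (π₀ x) S (fun i f f' ha => hS' i f f' fun g hg hx =>
      ha g hg (by rw [← h1]; exact congrArg π₀ hx)) n (by rw [← h0, hn])) ((1 : H) : H ⧸ N)
  refine ⟨X, inferInstance, σ, π₀ ∘ π, fun h x => ?_, h3, fun g hg => ⟨(h4 g hg).1, fun f => ?_⟩⟩
  · rw [Function.comp_apply, h2, h0]
    rfl
  · obtain ⟨x, e, h5⟩ := (h4 g hg).2 f
    refine ⟨x, ?_, h5⟩
    rw [Function.comp_apply, e]
    change α 1 x₀ = x₀
    rw [map_one, Perm.one_apply]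

end Pool.Agent.P.MP_67c9d4_al.FC
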