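import Pool.Agent.P.MP_67c9d4_al.FC.Iface

/-! The killing lemma on embedded circles. -/

namespace Pool.Agent.P.MP_67c9d4_al.FC

open Equiv Wr Multiplicative TD

namespace KILL1x

variable {H V E X F : Type} [Group H] {D : TD H V E} {α : H →* Perm X} {ψ : F → H →* Wr X MZ}
  {A B : E × Bool → X → F → ℤ}

lemma cc {Y : Type} (u g : Wr Y MZ) {x : Y} (h : g.p (u.p⁻¹ x) = u.p⁻¹ x) :
    (u * g * u⁻¹).c x = g.c (u.p⁻¹ x) := by
  rw [(c_conj_fix u g h).2, mul_comm (u.c x), mul_inv_cancel_right]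

lemma psi_conj (hψ : ∀ f h, (ψ f h).p = α h) (f : F) (d g : H) {x : X}
    (h : α g (α d⁻¹ x) = α d⁻¹ x) : (ψ f (d * g * d⁻¹)).c x = (ψ f g).c (α d⁻¹ x) := by
  rw [map_mul, map_mul, map_inv, cc _ _ (by rw [hψ, hψ, ← map_inv, h]), hψ, ← map_inv]

lemma agr_true (hψ : ∀ f h, (ψ f h).p = α h) (e : E) (p : H) {x : X} {f f' : F}
    (h : D.Agr ψ ((e, true), p) x f f') : D.RL α ψ (D.lab α ((e, true), p) x).1 f f' := by
  rintro x' ⟨g₀, hg₀, rfl⟩ g hg hx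
  change g₀ ∈ D.P (e, true) at hg₀
  change g ∈ D.P (e, true) at hg
  have e1 : α g₀ (α p⁻¹ x) = α (p * g₀⁻¹)⁻¹ x := by
    rw [mul_inv_rev, inv_inv, map_mul, Perm.mul_apply]
  change α g (α g₀ (α p⁻¹ x)) = α g₀ (α p⁻¹ x) at hx
  change (ψ f g).c (α g₀ (α p⁻¹ x)) = (ψ f' g).c (α g₀ (α p⁻¹ x))
  rw [e1] at hx ⊢
  rw [← psi_conj hψ f _ g hx, ← psi_conj hψ f' _ g hx]
  refine h _ ?_ ?_
  · rw [St, mem_cj, show p⁻¹ * (p * g₀⁻¹ * g * (p * g₀⁻¹)⁻¹) * p = g₀⁻¹ * g * g₀ by group]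
    exact mul_mem (mul_mem (inv_mem hg₀) hg) hg₀
  · rw [hψ, map_mul, map_mul, Perm.mul_apply, Perm.mul_apply, hx, ← Perm.mul_apply, ← map_mul,
      mul_inv_cancel, map_one, Perm.one_apply]

lemma agr_rl (hψ : ∀ f h, (ψ f h).p = α h) (c : (E × Bool) × H) {x : X} {f f' : F}
    (h : D.Agr ψ c x f f') : D.RL α ψ (D.lab α c x).1 f f' := by
  obtain ⟨⟨e, b⟩, p⟩ := c
  cases b
  · have e1 : (D.lab α ((e, false), p) x).1 = (D.lab α (D.rev ((e, false), p)) x).1 := by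
      rw [lab_rev]
    rw [e1]
    refine agr_true hψ e _ fun g hg => h g ?_
    rwa [← St_rev]
  · exact agr_true hψ e p h

/-- The cost of leaving along an edge. -/
def aa (α : H →* Perm X) (A : E × Bool → X → F → ℤ) (c : (E × Bool) × H) (x : X) (f : F) : ℤ :=
  A c.1 (α c.2⁻¹ x) f

/-- The cost of arriving along an edge and moving to the next one. -/
def bb (D : TD H V E) (α : H →* Perm X) (ψ : F → H →* Wr X MZ) (B : E × Bool → X → F → ℤ)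
    (c c' : (E × Bool) × H) (x : X) (f : F) : ℤ :=
  B c.1 (α c.2⁻¹ x) f +
    ((ψ f ((c.2 * D.ε c.1)⁻¹ * c'.2)).c (α (c.2 * D.ε c.1)⁻¹ x)).toAdd

lemma triv {g : H} (hg : α g = 1) (p : H) (x : X) : α (g * p)⁻¹ x = α p⁻¹ x := by
  rw [mul_inv_rev, map_mul, map_inv α g, hg, inv_one, mul_one]

lemma aa_act {g : H} (hg : α g = 1) (c : (E × Bool) × H) (x : X) :
    aa α A (act g c) x = aa α A c x := by
  funext f
  simp only [aa, act, triv hg]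

lemma bb_act {g : H} (hg : α g = 1) (c c' : (E × Bool) × H) (x : X) :
    bb D α ψ B (act g c) (act g c') x = bb D α ψ B c c' x := by
  funext f
  have e : (g * (c.2 * D.ε c.1))⁻¹ * (g * c'.2) = (c.2 * D.ε c.1)⁻¹ * c'.2 := by group
  simp only [bb, act, mul_assoc, triv hg, e]

lemma lab_triv {g : H} (hg : α g = 1) (c : (E × Bool) × H) (x : X) :
    D.lab α (act g c) x = D.lab α c x := by
  rw [lab_act, map_inv, hg, inv_one, Perm.one_apply]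

lemma tel (hψ : ∀ f h, (ψ f h).p = α h)
    (hAB : ∀ k x f, A k x f + B k x f = ((ψ f (D.ε k)).c x).toAdd) (c c' : (E × Bool) × H)
    (x : X) (f : F) : ((ψ f c'.2).c x).toAdd =
      ((ψ f c.2).c x).toAdd + aa α A c x f + bb D α ψ B c c' x f := by
  have e : c'.2 = c.2 * D.ε c.1 * ((c.2 * D.ε c.1)⁻¹ * c'.2) := by group
  rw [aa, bb, add_assoc, ← add_assoc (A _ _ _), hAB]
  nth_rewrite 1 [e]
  rw [map_mul (ψ f), mul_c, hψ, ← map_inv, map_mul (ψ f) c.2, mul_c, hψ, ← map_inv, toAdd_mul,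
    toAdd_mul, add_assoc]

lemma sum_zmod {n : ℕ} [NeZero n] (g : ℤ → ℤ) :
    ∑ i : ZMod n, g (i.val : ℤ) = ∑ i ∈ Finset.range n, g i := by
  refine Finset.sum_nbij' (fun i => i.val) (fun i => (i : ZMod n)) ?_ ?_ ?_ ?_ ?_
  · exact fun i _ => Finset.mem_range.2 (ZMod.val_lt i)
  · exact fun i _ => Finset.mem_univ _
  · exact fun i _ => ZMod.natCast_zmod_val i
  · exact fun i hi => ZMod.val_cast_of_lt (Finset.mem_range.1 hi)
  · exact fun i _ => rfl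

lemma desc {T : Type} {l o : ℕ} [NeZero (l * o)] (g : ℤ → T)
    (h : ∀ i m : ℤ, (o : ℤ) ∣ m → g (i + l * m) = g i) (i : ℤ) :
    g ((i : ZMod (l * o)).val : ℤ) = g i := by
  rw [ZMod.val_intCast, ← h i (o * -(i / (l * o : ℕ))) (dvd_mul_right _ _), Int.emod_def]
  congr 1
  push_cast
  ring

/-- The conclusions of the gluing lemma. -/
structure Gl (D : TD H V E) (α : H →* Perm X) (ψ : F → H →* Wr X MZ) (A B : E × Bool → X → F → ℤ)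
    (C : Cfg (D.RL α ψ)) (Ev : V → V → H → Wr (X × C.Z) MZ) : Prop where
  mult : Mult Ev
  fst : ∀ u v h q, ((Ev u v h).p q).1 = α h q.1
  vtx : ∀ v, ∀ g ∈ D.G v, ∀ q, (Ev v v g).p q = (α g q.1, q.2) ∧
    (Ev v v g).c q = (ψ (C.st q.2) g).c q.1
  edge : ∀ k x z z', z' = (FreeGroup.lift C.Φ (lt (D.lab α (k, 1) x)))⁻¹ z →
    (Ev (D.vt k) (D.vt (bar k)) (D.ε k)).p⁻¹ (x, z) = ((α (D.ε k))⁻¹ x, z') ∧
    ((Ev (D.vt k) (D.vt (bar k)) (D.ε k)).c (x, z)).toAdd = A k x (C.st z) + B k x (C.st z')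

variable {C : Cfg (D.RL α ψ)} {Ev : V → V → H → Wr (X × C.Z) MZ}

lemma Gl.inv (h : Gl D α ψ A B C Ev) (u v : V) (g : H) (q : X × C.Z) :
    (Ev u v g).p⁻¹ q = (α g⁻¹ q.1, ((Ev u v g).p⁻¹ q).2) := by
  refine Prod.ext ?_ rfl
  rw [← inv_p, ← h.mult.inv, h.fst]

lemma Gl.step (h : Gl D α ψ A B C Ev) (v₀ : V) {c c' : (E × Bool) × H} (hl : D.Lk c c')
    (q : X × C.Z) :
    ((Ev v₀ (D.vt c'.1) c'.2).p⁻¹ q).2 =
        (FreeGroup.lift C.Φ (lt (D.lab α c q.1)))⁻¹ ((Ev v₀ (D.vt c.1) c.2).p⁻¹ q).2 ∧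
      ((Ev v₀ (D.vt c'.1) c'.2).c q).toAdd = ((Ev v₀ (D.vt c.1) c.2).c q).toAdd +
        aa α A c q.1 (C.st ((Ev v₀ (D.vt c.1) c.2).p⁻¹ q).2) +
        bb D α ψ B c c' q.1 (C.st ((Ev v₀ (D.vt c'.1) c'.2).p⁻¹ q).2) := by
  have e1 := h.mult.step v₀ 1 hl
  rw [inv_one, one_mul, one_mul] at e1
  have e2 : D.lab α (c.1, 1) (α c.2⁻¹ q.1) = D.lab α c q.1 := by
    rw [← lab_act, act, mul_one]
  obtain ⟨e3, e4⟩ := h.edge c.1 (α c.2⁻¹ q.1) ((Ev v₀ (D.vt c.1) c.2).p⁻¹ q).2 _ rfl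
  rw [e2, ← h.inv] at e3 e4
  have e5 : (α (D.ε c.1))⁻¹ (α c.2⁻¹ q.1) = α (c.2 * D.ε c.1)⁻¹ q.1 := by
    rw [mul_inv_rev, map_mul, Perm.mul_apply, map_inv α (D.ε c.1)]
  have e6 : (Ev v₀ (D.vt c.1) c.2 * Ev (D.vt c.1) (D.vt (bar c.1)) (D.ε c.1)).p⁻¹ q =
      (α (c.2 * D.ε c.1)⁻¹ q.1,
        (FreeGroup.lift C.Φ (lt (D.lab α c q.1)))⁻¹ ((Ev v₀ (D.vt c.1) c.2).p⁻¹ q).2) := by
    rw [mul_p, mul_inv_rev, Perm.mul_apply, e3, e5]
  have e7 : ((Ev v₀ (D.vt c'.1) c'.2).p⁻¹ q).2 =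
      (FreeGroup.lift C.Φ (lt (D.lab α c q.1)))⁻¹ ((Ev v₀ (D.vt c.1) c.2).p⁻¹ q).2 := by
    rw [e1, mul_p, mul_inv_rev, Perm.mul_apply, e6, ← inv_p, ← h.mult.inv,
      (h.vtx _ _ (inv_mem hl.2) _).1]
  refine ⟨e7, ?_⟩
  rw [e7]
  nth_rewrite 1 [e1]
  rw [mul_c, mul_c, e6, toAdd_mul, toAdd_mul, e4, (h.vtx _ _ hl.2 _).2, aa, bb]
  ring

lemma Gl.ell (h : Gl D α ψ A B C Ev) (hψ : ∀ f h, (ψ f h).p = α h) (v₀ : V) {v : V} {d g : H}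
    (hg : d⁻¹ * g * d ∈ D.G v) (q : X × C.Z) (n : ℕ) (hq : (Ev v₀ v₀ (g ^ n)).p q = q) :
    (Ev v₀ v₀ (g ^ n)).c q = (ψ (C.st ((Ev v₀ v d).p⁻¹ q).2) (g ^ n)).c q.1 := by
  have e1 : g ^ n = d * (d⁻¹ * g * d) ^ n * d⁻¹ := by
    rw [← conj_pow]
    congr 1
    group
  have e2 : α ((d⁻¹ * g * d) ^ n) (α d⁻¹ q.1) = α d⁻¹ q.1 := by
    have e3 := h.fst v₀ v₀ (g ^ n) q
    rw [hq] at e3
    rw [← Perm.mul_apply, ← map_mul, show (d⁻¹ * g * d) ^ n * d⁻¹ = d⁻¹ * g ^ n by rw [e1]; group,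
      map_mul, Perm.mul_apply, ← e3]
  obtain ⟨e4, e5⟩ := h.vtx v _ (pow_mem hg n) ((Ev v₀ v d).p⁻¹ q)
  rw [e1, h.mult.conj v₀ v, psi_conj hψ _ _ _ e2, cc _ _ (by rw [e4, h.inv, e2]), e5, h.inv]

lemma Gl.null (h : Gl D α ψ A B C Ev) (v₀ : V) {z : H} {c : ℤ → (E × Bool) × H} {l o : ℕ}
    [NeZero (l * o)] (hc : D.Ax z c l) (ho : ∀ m : ℤ, α (z ^ m) = 1 ↔ (o : ℤ) ∣ m) (q : X × C.Z)
    (hK : C.Kl (fun i : ZMod (l * o) => D.lab α (c i.val) q.1) fun i f =>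
      bb D α ψ B (c ((i.val : ℤ) - 1)) (c i.val) q.1 f + aa α A (c i.val) q.1 f)
    (n : ℕ) (hn : α (z ^ n) = 1) (hq : (Ev v₀ v₀ (z ^ n)).p q = q) :
    (Ev v₀ v₀ (z ^ n)).c q = 1 := by
  obtain ⟨γ, hγ⟩ := hK
  have pl : ∀ i : ℤ, D.lab α (c ((i : ZMod (l * o)).val : ℤ)) q.1 = D.lab α (c i) q.1 :=
    desc (fun i => D.lab α (c i) q.1) fun i m hm => by rw [hc.zper, lab_triv ((ho m).2 hm)]
  have pb0 : ∀ i m : ℤ, (o : ℤ) ∣ m →
      bb D α ψ B (c (i + l * m - 1)) (c (i + l * m)) q.1 = bb D α ψ B (c (i - 1)) (c i) q.1 :=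
    fun i m hm => by rw [add_sub_right_comm, hc.zper, hc.zper, bb_act ((ho m).2 hm)]
  have pb := desc (fun i => bb D α ψ B (c (i - 1)) (c i) q.1) pb0
  have pa : ∀ i : ℤ, aa α A (c ((i : ZMod (l * o)).val : ℤ)) q.1 = aa α A (c i) q.1 :=
    desc (fun i => aa α A (c i) q.1) fun i m hm => by rw [hc.zper, aa_act ((ho m).2 hm)]
  let ζ : ℤ → C.Z := fun i => ((Ev v₀ (D.vt (c i).1) (c i).2).p⁻¹ q).2
  let U : ℤ → ℤ := fun i => ((Ev v₀ (D.vt (c i).1) (c i).2).c q).toAdd - γ ((i : ZMod (l * o)), ζ i) -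
    bb D α ψ B (c (i - 1)) (c i) q.1 (C.st (ζ i))
  have hU : ∀ i, U (i + 1) = U i := fun i => by
    obtain ⟨e1, e2⟩ := h.step v₀ (hc.lk i) q
    have e3 := hγ ((i : ZMod (l * o)), ζ i)
    have e4 : C.T (fun i : ZMod (l * o) => D.lab α (c i.val) q.1) ((i : ZMod (l * o)), ζ i) =
        (((i + 1 : ℤ) : ZMod (l * o)), ζ (i + 1)) :=
      Prod.ext (by push_cast; rfl) (by
        change (FreeGroup.lift C.Φ (lt (D.lab α (c ((i : ZMod (l * o)).val : ℤ)) q.1)))⁻¹ (ζ i) = _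
        rw [pl]
        exact e1.symm)
    rw [e4] at e3
    beta_reduce at e3 pb
    rw [pb, pa] at e3
    simp only [U, add_sub_cancel_right]
    rw [e2]
    linarith
  have hU' : ∀ m : ℕ, U m = U 0 := fun m => by
    induction m with
    | zero => rfl
    | succ m ih => rw [Nat.cast_succ, hU, ih]
  have hon : (o : ℤ) ∣ n := (ho n).1 (by rwa [zpow_natCast])
  have e0 : c ((l * n : ℕ) : ℤ) = act (z ^ n) (c 0) := by
    rw [← zpow_natCast, ← hc.zper, zero_add, Nat.cast_mul]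
  have e1 : Ev v₀ (D.vt (c ((l * n : ℕ) : ℤ)).1) (c ((l * n : ℕ) : ℤ)).2 =
      Ev v₀ v₀ (z ^ n) * Ev v₀ (D.vt (c 0).1) (c 0).2 := by
    rw [h.mult, e0]
    rfl
  have e2 : (Ev v₀ v₀ (z ^ n)).p⁻¹ q = q := Perm.inv_eq_iff_eq.2 hq.symm
  have e3 : ζ ((l * n : ℕ) : ℤ) = ζ 0 := by
    simp only [ζ]
    rw [e1, mul_p, mul_inv_rev, Perm.mul_apply, e2]
  have e4 : ((((l * n : ℕ) : ℤ)) : ZMod (l * o)) = ((0 : ℤ) : ZMod (l * o)) := by
    rw [Int.cast_zero, ZMod.intCast_zmod_eq_zero_iff_dvd]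
    push_cast
    exact mul_dvd_mul_left _ hon
  have e5 := pb0 0 n hon
  have e6 := hU' (l * n)
  simp only [U] at e6
  rw [zero_add, ← Nat.cast_mul] at e5
  rw [e1, e3, e4, e5, mul_c, e2, toAdd_mul] at e6
  exact toAdd.injective (by rw [toAdd_one]; linarith)

lemma total (hψ : ∀ f h, (ψ f h).p = α h)
    (hAB : ∀ k x f, A k x f + B k x f = ((ψ f (D.ε k)).c x).toAdd) {z : H}
    {c : ℤ → (E × Bool) × H} {l o : ℕ} [NeZero (l * o)] (hc : D.Ax z c l) (ho : α (z ^ o) = 1)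
    (x : X) (f : F) : ∑ i : ZMod (l * o),
      (bb D α ψ B (c ((i.val : ℤ) - 1)) (c i.val) x f + aa α A (c i.val) x f) =
      ((ψ f (z ^ o)).c x).toAdd := by
  let Δ : ℕ → ℤ := fun i => ((ψ f (c ((i : ℤ) - 1)).2).c x).toAdd + aa α A (c ((i : ℤ) - 1)) x f
  rw [sum_zmod fun i => bb D α ψ B (c (i - 1)) (c i) x f + aa α A (c i) x f,
    Finset.sum_congr rfl (g := fun i => Δ (i + 1) - Δ i) fun i _ => by
      simp only [Δ, Nat.cast_succ, add_sub_cancel_right]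
      rw [tel hψ hAB (c (i - 1)) (c i)]
      ring, Finset.sum_range_sub]
  have e0 : c (((l * o : ℕ) : ℤ) - 1) = act (z ^ o) (c (((0 : ℕ) : ℤ) - 1)) := by
    rw [← zpow_natCast, ← hc.zper]
    exact congrArg c (by push_cast; ring)
  simp only [Δ]
  rw [e0, aa_act ho, act, map_mul, mul_c, hψ, ho, inv_one, Perm.one_apply, toAdd_mul]
  ring

end KILL1x

open KILL1x in
theorem s_KILL1 (hWIN : S_WIN) (hGLUE : S_GLUE) : S_KILL1 := by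
  intro H V E F J _ _ _ D N ψ z c l hT v₀ hN hψ hc he hZ x₀
  have := hN.2
  obtain ⟨A, B, hAB, hG⟩ := hGLUE H V E (H ⧸ N) F D (qa N) ψ hT hψ
  let o : J → ℕ := fun j => orderOf (qa N (z j))
  have ho : ∀ j (m : ℤ), qa N (z j ^ m) = 1 ↔ (o j : ℤ) ∣ m := fun j m => by
    rw [map_zpow, orderOf_dvd_iff_zpow_eq_one]
  have ho1 : ∀ j, qa N (z j ^ o j) = 1 := fun j => by rw [map_pow, pow_orderOf_eq_one]
  have hne : ∀ j, NeZero (l j * o j) := fun j =>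
    ⟨mul_ne_zero (hc j).pos.ne' (orderOf_pos _).ne'⟩
  obtain ⟨C, hC⟩ := hWIN (E × Set (H ⧸ N)) F (J × (H ⧸ N)) (D.RL (qa N) ψ)
    (fun j => l j.1 * o j.1) (fun j i => D.lab (qa N) (c j.1 i.val) j.2)
    (fun j i f => bb D (qa N) ψ B (c j.1 ((i.val : ℤ) - 1)) (c j.1 i.val) j.2 f +
      aa (qa N) A (c j.1 i.val) j.2 f)
    (fun w => ⟨fun _ _ _ _ _ _ => rfl, fun h x hx g hg e => (h x hx g hg e).symm,
      fun h h' x hx g hg e => (h x hx g hg e).trans (h' x hx g hg e)⟩)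
    (fun j i i' e => by
      obtain ⟨m, h1, h2⟩ := (he j.1).lab_inj hN.1 (hc j.1) j.2 e
      obtain ⟨t, rfl⟩ := (ho _ _).1 ((qa_eq_one hN.1).2 h2)
      have h3 := congrArg (Int.cast : ℤ → ZMod (l j.1 * o j.1)) h1
      rw [← mul_assoc, ← Nat.cast_mul, Int.cast_add, Int.cast_mul, Int.cast_natCast,
        Int.cast_natCast, Int.cast_natCast, ZMod.natCast_self, zero_mul, add_zero,
        ZMod.natCast_zmod_val, ZMod.natCast_zmod_val] at h3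
      exact h3.symm)
    (fun j S hS => by
      rw [Finset.sum_congr rfl fun f _ => total hψ hAB (hc j.1) (ho1 j.1) j.2 f]
      refine hZ j.1 j.2 S (fun i f f' h => hS (i : ZMod (l j.1 * o j.1)) f f' ?_) _
        (by rw [ho1]; rfl)
      have e := desc (fun i => D.lab (qa N) (c j.1 i) j.2)
        (fun i m hm => by rw [(hc j.1).zper, lab_triv ((ho _ m).2 hm)]) i
      beta_reduce at e ⊢
      rw [e]
      exact agr_rl hψ _ h)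
  obtain ⟨Ev, g1, g2, g3, g4⟩ := hG C
  have hg : Gl D (qa N) ψ A B C Ev := ⟨g1, g2, g3, g4⟩
  have := C.fin
  refine ⟨(H ⧸ N) × C.Z, Fintype.ofFinite _, g1.hom v₀, Prod.fst, fun h q => g2 _ _ h q,
    fun j n q hq => ?_, ?_⟩
  · refine hg.null v₀ (hc j) (ho j) q (hC (j, q.1)) n ?_ hq
    have e := g2 v₀ v₀ (z j ^ n) q
    rw [Mult.hom_apply] at hq
    rw [hq] at e
    exact (qa_eq_one hN.1).2 ((qa_fix hN.1 _).1 e.symm)
  · rintro g ⟨v, d, hd⟩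
    refine ⟨fun q => ⟨_, fun n hq => hg.ell hψ v₀ hd q n hq⟩, fun f => ?_⟩
    obtain ⟨ζ, rfl⟩ := (Nat.card_pos_iff.1 ((C.fib f).symm ▸ C.pos)).1
    refine ⟨(Ev v₀ v d).p (qa N d⁻¹ x₀, ζ), ?_, fun n hq => ?_⟩
    · rw [g2, ← Perm.mul_apply, ← map_mul, mul_inv_cancel, map_one, Perm.one_apply]
    · have e := hg.ell hψ v₀ hd _ n hq
      rwa [Perm.inv_def, symm_apply_apply] at e

end Pool.Agent.P.MP_67c9d4_al.FC
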