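import Pool.Agent.P.MP_67c9d4_al.FC.Iface

namespace Pool.Agent.P.MP_67c9d4_al.FC

open Equiv Wr Multiplicative TD

namespace LINJx

theorem rd_ne {W : Type} (w : ℕ → W × Bool) (n : ℕ) (hn : 0 < n)
    (h : ∀ i, w (i + 1) ≠ ((w i).1, !(w i).2)) : rd w n ≠ 1 := by
  classical
  intro e
  have e1 : rd w n = FreeGroup.mk ((List.range n).map w) := by
    rw [rd_eq, mk_eq_prod, List.map_map]; rfl
  have hr : FreeGroup.IsReduced ((List.range n).map w) := by
    unfold FreeGroup.IsReduced
    rw [List.isChain_iff_getElem]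
    intro i hi h1
    simp only [List.getElem_map, List.getElem_range] at h1 ⊢
    by_contra h2
    refine h i (Prod.ext h1.symm ?_)
    revert h2
    generalize (w i).2 = b
    generalize (w (i + 1)).2 = b'
    cases b <;> cases b' <;> simp
  have e2 := congrArg FreeGroup.toWord (e1.symm.trans e)
  rw [FreeGroup.toWord_mk, hr.reduce_eq, FreeGroup.toWord_one] at e2
  have := congrArg List.length e2
  simp only [List.length_map, List.length_range, List.length_nil] at this
  omega

theorem main (hKAP : S_KAP) {H V E : Type} [Group H] {D : TD H V E} (hT : D.Tree) {y : H}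
    {c : ℤ → (E × Bool) × H} {l : ℕ} (hA : D.Ax y c l) {i j : ℤ} (hij : i < j) :
    ¬D.Same ⊥ (c i) (c j) := by
  intro hS
  obtain ⟨Ev, -, -, h3, -, -, h6⟩ := hKAP H V E (H ⧸ (⊥ : Subgroup H)) D (qa ⊥) hT
  obtain ⟨n, rfl⟩ : ∃ n : ℕ, j = i + n := ⟨(j - i).toNat, by omega⟩
  have hn : 0 < n := by omega
  have e := h6 (fun k : ℕ => c (i + k)) n (fun k _ => by
    simp only [Nat.cast_add, Nat.cast_one, ← add_assoc]
    exact hA.lk _) ((1 : H) : H ⧸ (⊥ : Subgroup H))
  simp only [Nat.cast_zero, add_zero] at e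
  obtain ⟨s1, s2⟩ := same_bot.1 hS
  rw [← s1, h3 _ _ (D.le _ s2)] at e
  refine rd_ne _ n hn (fun k e' => ?_) e.symm
  rw [← lab_rev, eq_comm, lab_eq inferInstance, same_act] at e'
  simp only [Nat.cast_add, Nat.cast_one, ← add_assoc] at e'
  exact hA.nb _ e'

end LINJx

theorem s_LINJ (hKAP : S_KAP) : S_LINJ := by
  intro H V E _ D hT y c l hA i j hS
  rcases lt_trichotomy i j with h | h | h
  · exact absurd hS (LINJx.main hKAP hT hA h)
  · exact h
  · exact absurd hS.symm (LINJx.main hKAP hT hA h)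

end Pool.Agent.P.MP_67c9d4_al.FC
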