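import Pool.Agent.P.MP_67c9d4_al.FC.Iface

/-! Second differences of both signs as imbalances of neutral virtual characters. -/

namespace Pool.Agent.P.MP_67c9d4_al.FC

open Equiv Wr Multiplicative TD

namespace LINZx

variable {H : Type} [Group H] {t y : H} {n : ℕ} {G G' : (ℤ → ℚ) → ℚ}

/-- The second difference. -/
def Dd (F : ℤ → ℚ) (J l : ℤ) : ℚ := F (J + l) + F (J - l) - 2 * F J

lemma Dd_zero (F : ℤ → ℚ) (J : ℤ) : Dd F J 0 = 0 := by
  simp only [Dd, add_zero, sub_zero]; ring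

lemma Dd_neg (F : ℤ → ℚ) (J l : ℤ) : Dd F J (-l) = Dd F J l := by
  simp only [Dd, sub_neg_eq_add, ← sub_eq_add_neg]; ring

lemma Dd_abs (F : ℤ → ℚ) (J a l : ℤ) : Dd F J (a * |l|) = Dd F J (a * l) := by
  rcases abs_choice l with h | h <;> rw [h]
  rw [mul_neg, Dd_neg]

/-- Functionals that are imbalances. -/
def Sup (t y : H) (n : ℕ) (G : (ℤ → ℚ) → ℚ) : Prop :=
  ∃ (X : Type) (_ : Fintype X) (σ : H →* Wr X MZ), Per n σ ∧ (∀ h, tot (σ h) = 1) ∧
    ∀ F : ℤ → ℚ, ∑ x, F ((σ (t ^ n)).c x).toAdd - ∑ x, F ((σ (y ^ n)).c x).toAdd = G F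

lemma Sup.zero : Sup t y n fun _ => 0 :=
  ⟨Empty, inferInstance, 1, fun _ => rfl, fun _ => by simp, fun _ => by simp⟩

lemma Sup.congr (h : Sup t y n G) (e : ∀ F, G F = G' F) : Sup t y n G' := by
  obtain ⟨X, _, σ, h1, h2, h3⟩ := h
  exact ⟨X, _, σ, h1, h2, fun F => (h3 F).trans (e F)⟩

lemma Sup.add (h : Sup t y n G) (h' : Sup t y n G') : Sup t y n fun F => G F + G' F := by
  obtain ⟨X, _, σ, h1, h2, h3⟩ := h
  obtain ⟨X', _, σ', h1', h2', h3'⟩ := h'
  refine ⟨X ⊕ X', inferInstance, Wr.sum σ σ', h1.sum h1', fun g => ?_, fun F => ?_⟩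
  · have a := h2 g
    have b := h2' g
    rw [tot_apply] at a b ⊢
    rw [Fintype.prod_sum_type]
    exact (congrArg₂ (· * ·) a b).trans (one_mul 1)
  · beta_reduce
    rw [← h3, ← h3', Fintype.sum_sum_type, Fintype.sum_sum_type]
    simp only [sum_c, Sum.elim_inl, Sum.elim_inr]
    ring

lemma Sup.sum {ι : Type} (s : Finset ι) (G : ι → (ℤ → ℚ) → ℚ) (h : ∀ i, Sup t y n (G i)) :
    Sup t y n fun F => ∑ i ∈ s, G i F := by
  classical
  induction s using Finset.induction_on with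
  | empty => exact Sup.zero.congr fun F => by simp
  | insert i s hi ih => exact ((h i).add ih).congr fun F => by rw [Finset.sum_insert hi]

lemma Sup.nsmul (h : Sup t y n G) (c : ℕ) : Sup t y n fun F => c * G F :=
  (Sup.sum (Finset.range c) (fun _ => G) fun _ => h).congr fun F => by simp

/-- The building block. -/
lemma blk {X : Type} [Fintype X] {χ : H →* MZ} (ht : χ t = ofAdd 1) (hy : χ y = ofAdd 1)
    {σ : H →* Wr X MZ} (hσ : Per n σ) (J l : ℤ) : Sup t y n fun F =>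
      ∑ x, Dd F (n * J) (l * ((σ (t ^ n)).c x).toAdd) -
        ∑ x, Dd F (n * J) (l * ((σ (y ^ n)).c x).toAdd) := by
  refine ⟨Fin 4 × X, inferInstance, aff σ χ ![l, -l, 0, 0] ![J, J, -J, -J], per_aff hσ _ _ _,
    fun g => ?_, fun F => ?_⟩
  · rw [tot_apply, Fintype.prod_prod_type_right]
    refine Finset.prod_eq_one fun x _ => toAdd.injective ?_
    simp [aff_c, Fin.prod_univ_four]
    ring
  · have key : ∀ g : H, χ g = ofAdd 1 →
        ∑ q, F ((aff σ χ ![l, -l, 0, 0] ![J, J, -J, -J] (g ^ n)).c q).toAdd =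
          ∑ x, (Dd F (n * J) (l * ((σ (g ^ n)).c x).toAdd) + (2 * F (n * J) + 2 * F (-(n * J)))) := by
      intro g hg
      rw [Fintype.sum_prod_type_right]
      refine Finset.sum_congr rfl fun x _ => ?_
      have e : ∀ a b : ℤ, ((σ (g ^ n)).c x ^ a * χ (g ^ n) ^ b).toAdd =
          n * b + a * ((σ (g ^ n)).c x).toAdd := fun a b => by
        rw [map_pow χ, hg, toAdd_mul, toAdd_zpow, toAdd_zpow, toAdd_pow, toAdd_ofAdd]
        simp only [smul_eq_mul, nsmul_eq_mul]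
        ring
      simp only [aff_c, e, Fin.sum_univ_four, Dd, Matrix.cons_val, zero_mul, add_zero, neg_mul,
        mul_neg, ← sub_eq_add_neg]
      ring
    rw [key t ht, key y hy, Finset.sum_add_distrib, Finset.sum_add_distrib (f := fun x => Dd _ _ _)]
    ring

end LINZx

open LINZx in
theorem s_LINZ (hDIV : S_DIV) : S_LINZ := by
  classical
  rintro H _ χ t y H₀ ht hy ⟨X₁, _, σ₁, κ, a1, a2, ⟨x₁, a3⟩, -⟩ ⟨X₂, _, σ₂, b1, x₀, b2⟩ n j a e hn he
  obtain ⟨N, hN, p1, p2⟩ : ∃ N : ℕ, 0 < N ∧ Per N σ₁ ∧ Per N σ₂ :=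
    ⟨_, Nat.mul_pos Nat.card_pos Nat.card_pos, per_mul (per_card σ₁) (Nat.card (Perm X₂)),
      mul_comm (Nat.card (Perm X₂)) _ ▸ per_mul (per_card σ₂) (Nat.card (Perm X₁))⟩
  have f1 : ∀ g x, (σ₁ (g ^ N)).p x = x := fun g x => by rw [p1 g]; rfl
  have f2 : ∀ g x, (σ₂ (g ^ N)).p x = x := fun g x => by rw [p2 g]; rfl
  obtain ⟨u, hu⟩ : ∃ u : X₁ → ℤ, ∀ x, ((σ₁ (y ^ N)).c x).toAdd = u x := ⟨_, fun _ => rfl⟩
  obtain ⟨s, hs⟩ : ∃ s : X₂ → ℤ, ∀ x, ((σ₂ (t ^ N)).c x).toAdd = s x := ⟨_, fun _ => rfl⟩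
  have u1 : u x₁ ≠ 0 := fun h => (nz_iff hN (f1 y x₁)).1 a3 (toAdd.injective ((hu _).trans h))
  have s0 : s x₀ ≠ 0 := fun h => (nz_iff hN (f2 t x₀)).1 b2 (toAdd.injective ((hs _).trans h))
  have u2 : ∀ x, u x ≠ 0 → |(u x : ℚ)| = |N * κ| := fun x hx => by
    rcases a2 N x (f1 y x) with h | h | h
    · exact absurd ((hu x).symm.trans (congrArg toAdd h)) hx
    · rw [← hu, h]
    · rw [← hu, h, abs_neg]
  have u3 : ∀ x, u x ≠ 0 → |u x| = |u x₁| := fun x hx => by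
    have := (u2 x hx).trans (u2 x₁ u1).symm
    exact_mod_cast this
  obtain ⟨k, hk⟩ : ∃ k : ℕ, (k : ℤ) = |u x₁| := ⟨(u x₁).natAbs, Int.natCast_natAbs _⟩
  obtain ⟨w, hw⟩ : ∃ w : ℕ, (w : ℤ) = |s x₀| := ⟨(s x₀).natAbs, Int.natCast_natAbs _⟩
  have k0 : 0 < k := by have := abs_pos.2 u1; omega
  have w0 : 0 < w := by have := abs_pos.2 s0; omega
  set c₁ := (Finset.univ.filter fun x => u x ≠ 0).card with hc
  have c0 : 0 < c₁ := Finset.card_pos.2 ⟨x₁, by simpa using u1⟩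
  have B1 : ∀ J l : ℤ, Sup t y N fun F => -(c₁ * Dd F (N * J) (l * k)) := fun J l =>
    (blk ht hy p1 J l).congr fun F => by
      have e1 : ∀ x, (σ₁ (t ^ N)).c x = 1 := fun x => a1 t rfl N x (f1 t x)
      have e2 : ∀ x, Dd F (N * J) (l * u x) = if u x ≠ 0 then Dd F (N * J) (l * k) else 0 := by
        intro x
        split_ifs with hx
        · rw [hk, ← u3 x hx, Dd_abs]
        · rw [not_not.1 hx, mul_zero, Dd_zero]
      simp only [e1, hu, e2, toAdd_one, mul_zero, Dd_zero, Finset.sum_const_zero, zero_sub]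
      rw [← Finset.sum_filter, Finset.sum_const, nsmul_eq_mul]
  have B2 : ∀ J l : ℤ, Sup t y N fun F => ∑ x, Dd F (N * J) (l * s x) := fun J l =>
    (blk ht hy p2 J l).congr fun F => by
      have e1 : ∀ x, (σ₂ (y ^ N)).c x = 1 := fun x => b1 N x (f2 y x)
      simp only [e1, hs, toAdd_one, mul_zero, Dd_zero, Finset.sum_const_zero, sub_zero]
  have B : Sup t y N fun F => e * (c₁ * Dd F (N * (j * k * w)) (a * N * k * w)) := by
    rcases he with rfl | rfl
    · refine (((B2 (j * k * w) (a * N * k)).nsmul c₁).add (Sup.sum (Finset.univ.erase x₀) _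
        fun x => B1 (j * k * w) (a * N * s x))).congr fun F => ?_
      rw [← Finset.add_sum_erase _ _ (Finset.mem_univ x₀), mul_add, Finset.mul_sum, add_assoc,
        ← Finset.sum_add_distrib, Finset.sum_eq_zero fun x _ => by
          rw [mul_right_comm (a * N) (s x), add_neg_cancel], ← Dd_abs, ← hw]
      simp
    · refine (B1 (j * k * w) (a * N * w)).congr fun F => ?_
      rw [mul_right_comm (a * N) w]
      simp
  obtain ⟨X, _, σ, h1, h2, h3⟩ := B
  have m0 : 0 < n * k * w := Nat.mul_pos (Nat.mul_pos hn k0) w0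
  obtain ⟨Y, _, σ', d1, d2, d3, d4⟩ := hDIV H X σ N (n * k * w) m0 h1
  have em : n * (N * k * w) = N * (n * k * w) := by ring
  refine ⟨N * k * w, c₁ * (n * k * w), X × Y, inferInstance, σ', Nat.mul_pos (Nat.mul_pos hN k0) w0,
    Nat.mul_pos c0 m0, em ▸ d2, fun h => (d4 h).trans (h2 h), fun F => ?_⟩
  have e3 := h3 F
  beta_reduce at e3
  rw [Dd, show N * (j * k * w) + a * N * k * w = ((N * k * w : ℕ) : ℤ) * (j + a) by push_cast; ring,
    show N * (j * k * w) - a * N * k * w = ((N * k * w : ℕ) : ℤ) * (j - a) by push_cast; ring,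
    show N * (j * k * w) = ((N * k * w : ℕ) : ℤ) * j by push_cast; ring] at e3
  simp only [em, d3, Fintype.sum_prod_type_right, Finset.sum_const, Finset.card_univ, d1,
    nsmul_eq_mul]
  rw [← mul_sub, e3, Nat.cast_mul c₁]
  ring

end Pool.Agent.P.MP_67c9d4_al.FC
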