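import Pool.Agent.P.MP_67c9d4_al.FC.Iface

/-! Centralisers of hyperbolic elements of height one. -/

namespace Pool.Agent.P.MP_67c9d4_al.FC

open Equiv Wr Multiplicative TD

theorem s_MAL (hAXIS : S_AXIS) (hMALG : S_MALG) : S_MAL := by
  intro H V E _ D χ hT hI v y hE hy g a ha hc
  obtain ⟨c, l, hA⟩ := hAXIS H V E D hT v y hE
  have h1 : Commute g (y ^ a.natAbs) := by
    rcases Int.natAbs_eq a with h | h
    · rwa [h, zpow_natCast] at hc
    · rw [h, zpow_neg, zpow_natCast] at hc
      exact Commute.inv_right_iff.1 hc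
  obtain ⟨d, hd⟩ := hMALG H V E D hT y c l y c l hA hA g _ _ (Int.natAbs_pos.2 ha)
    (Int.natAbs_pos.2 ha) (by rw [h1.eq, mul_inv_cancel_right])
  obtain ⟨L, hL⟩ := hI.acy
  have h2 : ∀ u : H, (∀ i, D.Same ⊥ (c i) (act u (c i))) → u = 1 := fun u hu =>
    hL _ (hA.seg 0 L) u fun i _ => by
      have h := (same_act_self inferInstance).1 (hu (0 + i))
      rwa [sup_bot_eq] at h
  have h3 : ∀ (k : ℕ) i, D.Same ⊥ (c i) (act (g ^ k) (c (i + k * d))) := fun k => by
    induction k with
    | zero => exact fun i => by simpa [act_one] using Same.refl ⊥ (c i)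
    | succ k ih =>
      intro i
      have h := (same_act (g ^ k)).2 (hd (i + k * d))
      rw [act_act, ← pow_succ, add_assoc, ← add_one_mul] at h
      exact_mod_cast (ih i).trans h
  have h4 := h2 (g ^ l * y ^ d) fun i => by
    have h := h3 l i
    rwa [hA.zper, act_act] at h
  have h5 := congrArg (fun u => (χ u).toAdd) h4
  simp only [map_mul, map_pow, chi_zpow hy, toAdd_mul, toAdd_pow, toAdd_ofAdd, map_one, toAdd_one,
    nsmul_eq_mul] at h5
  have h6 : d = l * -(χ g).toAdd := by linarith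
  have h7 := h2 (g * y ^ (-(χ g).toAdd)) fun i => by
    have h := hd i
    rwa [h6, hA.zper, act_act] at h
  rw [zpow_neg, mul_inv_eq_one] at h7
  exact ⟨_, h7.symm⟩

end Pool.Agent.P.MP_67c9d4_al.FC
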