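import Pool.Agent.P.MP_67c9d4_al.FC.Iface

/-! Commensurable hyperbolic elements have the same axis. -/

namespace Pool.Agent.P.MP_67c9d4_al.FC

open Equiv Wr Multiplicative TD

namespace MALGx

variable {H V E : Type} [Group H] {D : TD H V E}

lemma lab_one {c c' : (E × Bool) × H} :
    D.lab (qa ⊥) c ((1 : H) : H ⧸ (⊥ : Subgroup H)) = D.lab (qa ⊥) c' ((1 : H) : H ⧸ ⊥) ↔
      D.Same ⊥ c c' := by
  rw [lab_eq inferInstance, same_act]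

lemma red {y : H} {c : ℤ → (E × Bool) × H} {l : ℕ} (h : D.Ax y c l) (i : ℕ) :
    D.lab (qa ⊥) (c (i + 1 : ℕ)) ((1 : H) : H ⧸ (⊥ : Subgroup H)) ≠
      ((D.lab (qa ⊥) (c i) ((1 : H) : H ⧸ ⊥)).1, !(D.lab (qa ⊥) (c i) ((1 : H) : H ⧸ ⊥)).2) := by
  rw [← lab_rev, Ne, lab_one, Nat.cast_succ]
  exact fun e => h.nb i e.symm

lemma per {y : H} {c : ℤ → (E × Bool) × H} {l : ℕ} (h : D.Ax y c l) (b : ℕ) (i m : ℤ) :
    c (i + (l * b : ℕ) * m) = act ((y ^ b) ^ m) (c i) := by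
  rw [Nat.cast_mul, mul_assoc, h.zper, zpow_mul, zpow_natCast]

lemma core (hKAP : S_KAP) (hSEG : S_SEG) (hLINJ : S_LINJ) (hT : D.Tree) {y u : H}
    {c c' : ℤ → (E × Bool) × H} {l l' : ℕ} (h : D.Ax y c l) (h' : D.Ax u c' l') {a b : ℕ}
    (hb : 0 < b) (e : u ^ a = y ^ b) : ∃ d : ℤ, ∀ i, D.Same ⊥ (c i) (c' (i + d)) := by
  obtain ⟨Ev, hM, hp, -, -, hC, hr⟩ := hKAP H V E _ D (qa ⊥) hT
  obtain ⟨C, hC⟩ := hC (D.vt (c 0).1) (D.vt (c' 0).1) ((c 0).2⁻¹ * (c' 0).2)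
  have p1 := per h b
  have p2 := per h' a
  rw [e] at p2
  have hB : 0 < l * b := Nat.mul_pos h.pos hb
  generalize l * b = B at p1 hB
  generalize l' * a = A at p2
  generalize y ^ b = Y at p1 p2
  obtain ⟨m, hm⟩ : ∃ m : ℕ, 2 * C + A + B < B * m :=
    ⟨2 * C + A + B + 1, (Nat.lt_succ_self _).trans_le (Nat.le_mul_of_pos_left _ hB)⟩
  have k1 := hr (fun i => c i) (B * m) (fun i _ => by simpa using h.lk i) ((1 : H) : H ⧸ ⊥)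
  have k2 := hr (fun i => c' i) (A * m) (fun i _ => by simpa using h'.lk i) ((1 : H) : H ⧸ ⊥)
  have q1 := p1 0 m
  have q2 := p2 0 m
  rw [zero_add, ← Nat.cast_mul] at q1 q2
  simp only [q1, q2, act, Nat.cast_zero] at k1 k2
  have k3 : Ev (D.vt (c 0).1) (D.vt (c 0).1) ((c 0).2⁻¹ * (Y ^ (m : ℤ) * (c 0).2)) *
      Ev (D.vt (c 0).1) (D.vt (c' 0).1) ((c 0).2⁻¹ * (c' 0).2) =
      Ev (D.vt (c 0).1) (D.vt (c' 0).1) ((c 0).2⁻¹ * (c' 0).2) *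
      Ev (D.vt (c' 0).1) (D.vt (c' 0).1) ((c' 0).2⁻¹ * (Y ^ (m : ℤ) * (c' 0).2)) := by
    rw [hM, hM]
    simp only [mul_assoc, mul_inv_cancel_left]
  have k4 := congrArg (fun w => w.c (qa ⊥ (c 0).2⁻¹ ((1 : H) : H ⧸ ⊥))) k3
  simp only [mul_c] at k4
  rw [k1, hp, hp, ← map_inv (qa ⊥) ((c 0).2⁻¹ * (c' 0).2), ← Perm.mul_apply (qa ⊥ _) (qa ⊥ _),
    ← map_mul, mul_inv_rev, inv_inv, mul_inv_cancel_right, k2] at k4
  obtain ⟨L, hL, e1⟩ := hC (qa ⊥ (c 0).2⁻¹ ((1 : H) : H ⧸ ⊥))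
  obtain ⟨L', hL', e2⟩ := hC ((qa ⊥ ((c 0).2⁻¹ * (Y ^ (m : ℤ) * (c 0).2)))⁻¹
    (qa ⊥ (c 0).2⁻¹ ((1 : H) : H ⧸ ⊥)))
  rw [e1, e2] at k4
  obtain ⟨d, -, hd⟩ := hSEG _ _ _ _ _ C L L' (fun i _ => red h i) (fun i _ => red h' i) hL hL' k4
  have k5 : ∀ i : ℕ, C ≤ i → i ≤ C + A + B → D.Same ⊥ (c i) (c' (i + d)) := fun i h1 h2 => by
    obtain ⟨i', h3, -, h4⟩ := hd i h1 (by omega)
    rw [← h3]
    exact lab_one.1 h4
  have k6 : (A : ℤ) = B := by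
    have h1 := k5 (C + A) (by omega) (by omega)
    have h2 := (same_act (Y ^ (1 : ℤ))).2 (k5 C le_rfl (by omega))
    rw [← p1, ← p2, show (C : ℤ) + d + A * 1 = (C + A : ℕ) + d by push_cast; ring] at h2
    have h3 := hLINJ H V E D hT y c l h _ _ (h1.trans h2.symm)
    push_cast at h3
    omega
  refine ⟨d, fun i => ?_⟩
  have h1 := Int.emod_nonneg (i - C) (Int.natCast_ne_zero.2 hB.ne')
  have h2 := Int.emod_lt_of_pos (i - C) (Int.natCast_pos.2 hB)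
  have h3 := Int.emod_add_mul_ediv (i - C) B
  obtain ⟨j, hj⟩ := Int.eq_ofNat_of_zero_le h1
  have h4 := (same_act (Y ^ ((i - C) / B))).2 (k5 (C + j) (by omega) (by omega))
  rw [← p1, ← p2, k6] at h4
  convert h4 using 2 <;> push_cast <;> omega

end MALGx

theorem s_MALG (hKAP : S_KAP) (hSEG : S_SEG) (hLINJ : S_LINJ) : S_MALG := by
  intro H V E _ D hT y c l u c' l' h h' g a b _ hb e
  exact MALGx.core hKAP hSEG hLINJ hT h (h'.act g) hb (by rw [conj_pow, e])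

end Pool.Agent.P.MP_67c9d4_al.FC
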