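import Pool.Agent.P.MP_67c9d4_al.FC.Iface

/-! Moving an attaching map into the base. -/

namespace Pool.Agent.P.MP_67c9d4_al.FC

open Equiv Wr Multiplicative TD

namespace MOVEx

lemma hnn_conj {H H' : Type} [Group H] [Group H'] {i : H →* H'} {a g g' : H} {s : H'}
    (h : IsHNN i a g s) (d : H) (e : d⁻¹ * g * d = g') : IsHNN i a g' (s * i d) := by
  have h1 := h.conj 1 d⁻¹
  rwa [inv_one, one_mul, mul_one, inv_inv, e, map_one, one_mul, map_inv, inv_inv] at h1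

variable {B B₁ V A K : Type} [Group B] [Group B₁] {χ : B →* MZ} {b : BS χ V A K} {U : Set V}
  {o : V} {i : B →* B₁} {χ₁ : B₁ →* MZ}

lemma caseA (hMVC : S_MVC) (hMVD : S_MVD) (hU : ∀ a, b.vx a ∈ U) (ho : o ∈ U)
    (hi : Function.Injective i) (hχ : ∀ g, χ₁ (i g) = χ g) {s : B₁} (hs : χ₁ s = 1) {v : V}
    (h : IsHNN i (b.t o) (b.t v) s) : b.Mvd U i χ₁ := by
  by_cases hv : v = o
  · subst hv
    exact hMVD B B₁ V A K χ b U v i s χ₁ hU ho hi hχ hs h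
  · exact hMVC B B₁ V A K χ b U o i s χ₁ hU ho hi hχ hs v hv h

lemma caseB (hMVB : S_MVB) (hMVC : S_MVC) (hMVD : S_MVD) (hU : ∀ a, b.vx a ∈ U) (ho : o ∈ U)
    (hi : Function.Injective i) (hχ : ∀ g, χ₁ (i g) = χ g) {s : B₁} (hs : χ₁ s = 1) {p : K}
    {m : ℤ} (hp : b.h p = p) (h : IsHNN i (b.t o) (b.ℓ (b.z p) ^ m * b.t (b.vt p)) s) :
    b.Mvd U i χ₁ := by
  by_cases hk : ∃ k, b.h k = p ∧ b.n k = m
  · obtain ⟨k, rfl, rfl⟩ := hk
    refine caseA (v := b.vt k) (s := s * i (b.s k)⁻¹) hMVC hMVD hU ho hi hχ ?_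
      (hnn_conj h _ ?_)
    · rw [map_mul, hs, hχ, map_inv, b.cs, inv_one, one_mul]
    · rw [← b.rel.rt]; group
  · exact hMVB B B₁ V A K χ b U o i s χ₁ hU ho hi hχ hs p m hp
      (fun k h1 h2 => hk ⟨k, h1, h2⟩) h

end MOVEx

open MOVEx in
theorem s_MOVE (hROOT : S_ROOT) (hMVA : S_MVA) (hMVB : S_MVB) (hMVC : S_MVC) (hMVD : S_MVD) :
    S_MOVE := by
  intro B B₁ V A K _ _ χ b U o i s χ₁ hU ho hi hχ hs v w hw h
  by_cases hl : b.ℓ w = 1
  · rw [hl, one_mul] at h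
    exact caseA hMVC hMVD hU ho hi hχ hs h
  have hw1 : w ≠ 1 := fun e => hl (by rw [e, map_one])
  obtain ⟨w₀, m, rfl, hmal⟩ := hROOT A w hw1
  have hm : m ≠ 0 := fun e => hw1 (by rw [e, zpow_zero])
  have hr : retr {a | b.vx a = v} (w₀ ^ m) = w₀ ^ m := retr_eq hw
  have hw₀ : w₀ ∈ b.At v := by
    have h1 : retr {a | b.vx a = v} w₀ = w₀ := zpow_left_injective hm (by
      show retr _ w₀ ^ m = w₀ ^ m
      rw [← map_zpow, hr])
    rw [← h1]
    exact retr_mem _ _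
  by_cases hc : ∃ (k : K) (g : FreeGroup A) (x y : ℤ), x ≠ 0 ∧ g * w₀ ^ x * g⁻¹ = b.z k ^ y
  · obtain ⟨k, g, x, y, hx, e⟩ := hc
    have hy : y ≠ 0 := by
      rintro rfl
      rw [zpow_zero, ← conj_zpow, IsMulTorsionFree.zpow_eq_one_iff_left hx, conj_eq_one_iff] at e
      exact hw1 (by rw [e, one_zpow])
    obtain ⟨c, hc⟩ := (b.maln k k (g * w₀ * g⁻¹) y y hy (by rw [← e]; group)).2
    have e1 : w₀ ^ m = g⁻¹ * b.z k ^ (c * m) * g := by
      have : b.z k ^ c = g * w₀ * g⁻¹ := hc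
      rw [zpow_mul, this, conj_zpow]; group
    have e2 := congrArg (retr {a | b.vx a = v}) e1
    rw [hr, map_mul, map_mul, map_inv, map_zpow] at e2
    have hv : b.vt k = v := by
      by_contra hv
      rw [retr_eq_one (S := {a | b.vx a = v}) (S' := {a | b.vx a = b.vt k})
        (Set.disjoint_left.2 fun a h1 h2 => hv (h2.symm.trans h1)) (b.hz k), one_zpow, mul_one,
        inv_mul_cancel] at e2
      exact hw1 e2
    subst hv
    rw [retr_eq (b.hz k)] at e2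
    have hg := (b.rel.comm (v := b.vt k) (retr_mem {a | b.vx a = b.vt k} g)).eq
    generalize retr {a | b.vx a = b.vt k} g = g' at e2 hg
    have h1 := hnn_conj h (b.ℓ g')⁻¹ (g' := b.ℓ (b.z k) ^ (c * m) * b.t (b.vt k) ^ (1 : ℤ)) (by
      rw [e2, map_mul, map_mul, map_inv, map_zpow, zpow_one, inv_inv, mul_assoc _ (b.ℓ g'), hg]
      group)
    have h2 := hnn_conj h1 _ (b.conj_Pl k (c * m) 1)
    rw [zpow_one] at h2
    refine caseB hMVB hMVC hMVD hU ho hi hχ ?_ (b.hh k) h2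
    rw [map_mul, map_mul, hs, hχ, hχ, map_inv, b.cs, b.cl, inv_one, one_mul, one_mul]
  · obtain ⟨b', e1, e2, e3, e4, e5, e6, e7⟩ := hMVA B V A K χ b v w₀ hw₀
      (fun e => hl (by rw [map_zpow, e, one_zpow])) hmal
      fun k g x y hx e => hc ⟨k, g, x, y, hx, e⟩
    have h1 := hMVB B B₁ V A (Option K) χ b' U o i s χ₁ (by rw [e1]; exact hU) ho hi hχ hs none m
      e4 (fun k hk => by
        rw [e7 k hk, ← e4, b'.hn0]
        exact hm.symm) (by rw [e2, e3, e5, e6, ← map_zpow]; exact h)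
    unfold BS.Mvd at h1 ⊢
    rwa [e3] at h1

end Pool.Agent.P.MP_67c9d4_al.FC
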