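import Pool.Agent.P.MP_67c9d4_al.FC.Iface

/-! Adding a plane to a base. -/

namespace Pool.Agent.P.MP_67c9d4_al.FC

open Equiv Wr Multiplicative TD

theorem s_MVA : S_MVA := by
  intro B V A K _ χ b v w hw h1 h2 h3
  have := b.finK
  refine ⟨{ vx := b.vx, vt := fun k => k.elim v b.vt, h := Option.map b.h
            z := fun k => k.elim w b.z, n := fun k => k.elim 0 b.n
            hh := fun k => by cases k <;> simp [b.hh]
            hz := fun k => by
              cases k
              exacts [hw, b.hz _]
            hn0 := fun k => by cases k <;> simp [b.hn0]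
            hn := fun k k' => ?_, maln := fun k k' g i j hi e => ?_
            ℓ := b.ℓ, t := b.t, s := fun k => k.elim 1 b.s, finV := b.finV, finA := b.finA
            finK := inferInstance
            rel := ⟨b.rel.com, fun k => ?_, fun k => ?_, fun k => ?_⟩
            gen := ?_, up := fun W _ ℓ' t' s' h => ?_
            ne := fun k => by
              cases k
              exacts [h1, b.ne _]
            cl := b.cl, ct := b.ct, cs := fun k => by cases k <;> simp [b.cs] },
    rfl, rfl, rfl, rfl, rfl, rfl, fun k => by cases k <;> simp⟩
  · cases k <;> cases k' <;> simp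
    exact b.hn _ _
  · rcases k with _ | k <;> rcases k' with _ | k'
    · exact ⟨rfl, h2 g i j hi e⟩
    · exact absurd e (h3 k' g i j hi)
    · change g * b.z k ^ i * g⁻¹ = w ^ j at e
      refine absurd ?_ (h3 k g⁻¹ j i fun hj => b.z_ne k ?_)
      · rw [← e]; group
      · rw [hj, zpow_zero, conj_eq_one_iff] at e
        exact zpow_left_injective hi (e.trans (one_zpow i).symm)
    · exact (b.maln k k' g i j hi e).imp_left (congrArg some)
  · cases k
    · simp
    · exact b.rel.rz _
  · cases k
    · simp
    · exact b.rel.rt _
  · cases k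
    · rfl
    · exact b.rel.one _
  · rw [eq_top_iff, ← b.gen]
    exact Subgroup.closure_mono (Set.union_subset_union_right _ (by
      rintro _ ⟨k, rfl⟩
      exact ⟨some k, rfl⟩))
  · obtain ⟨F, f1, f2, f3⟩ := b.up W ℓ' t' (s' ∘ some)
      ⟨h.com, fun k => h.rz (some k), fun k => h.rt (some k), fun k => h.one (some k)⟩
    refine ⟨F, f1, f2, fun k => ?_⟩
    cases k
    · exact (map_one F).trans (h.one none).symm
    · exact f3 _

end Pool.Agent.P.MP_67c9d4_al.FC
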