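import Pool.Agent.P.MP_67c9d4_al.FC.Iface

/-! A new plane glued to an old plane with a new twist. -/

namespace Pool.Agent.P.MP_67c9d4_al.FC

open Equiv Wr Multiplicative TD

namespace MVBx

variable {V A K : Type}

lemma map_mem {S : Set A} {S' : Set (Option A)} (h : ∀ a ∈ S, some a ∈ S') {w : FreeGroup A}
    (hw : w ∈ FS S) : FreeGroup.map some w ∈ FS S' := by
  induction hw using Subgroup.closure_induction with
  | mem x hx =>
    obtain ⟨a, ha, rfl⟩ := hx
    rw [FreeGroup.map.of]
    exact Subgroup.subset_closure ⟨_, h a ha, rfl⟩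
  | one => rw [map_one]; exact one_mem _
  | mul x y _ _ hx hy => rw [map_mul]; exact mul_mem hx hy
  | inv x _ hx => rw [map_inv]; exact inv_mem hx

/-- The new combinatorial data. -/
def nd (hFF : S_FF) (D : BD V A K) (hz : ∀ k, D.z k ≠ 1) (o : V) (p : K) (m : ℤ) (hp : D.h p = p)
    (hm : ∀ k, D.h k = p → D.n k ≠ m) : BD V (Option A) (Option K) where
  vx a := a.elim o D.vx
  vt k := k.elim o D.vt
  h k := some (k.elim p D.h)
  z k := k.elim (FreeGroup.of none) fun k => FreeGroup.map some (D.z k)
  n k := k.elim m D.n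
  hh k := by
    cases k with
    | none => exact congrArg some hp
    | some k => exact congrArg some (D.hh k)
  hz k := by
    cases k with
    | none => exact Subgroup.subset_closure ⟨none, rfl, rfl⟩
    | some k => exact map_mem (fun a ha => ha) (D.hz k)
  hn0 k := by
    cases k with
    | none =>
      have := D.hn0 p
      rw [hp] at this
      exact this
    | some k => exact D.hn0 k
  hn k k' h1 h2 := by
    cases k with
    | none =>
      cases k' with
      | none => rfl
      | some k' => exact absurd h2.symm (hm k' (Option.some.inj h1).symm)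
    | some k =>
      cases k' with
      | none => exact absurd h2 (hm k (Option.some.inj h1))
      | some k' => exact congrArg some (D.hn k k' (Option.some.inj h1) h2)
  maln := hFF A K D.z hz D.maln

lemma restr {hFF : S_FF} {D : BD V A K} {hz : ∀ k, D.z k ≠ 1} {o : V} {p : K} {m : ℤ}
    {hp : D.h p = p} {hm : ∀ k, D.h k = p → D.n k ≠ m} {W : Type} [Group W]
    {ℓ : FreeGroup (Option A) →* W} {t : V → W} {s : Option K → W}
    (h : (nd hFF D hz o p m hp hm).Rel ℓ t s) :
    D.Rel (ℓ.comp (FreeGroup.map some)) t fun k => s (some k) where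
  com a := by
    rw [MonoidHom.comp_apply, FreeGroup.map.of]
    exact h.com (some a)
  rz k := h.rz (some k)
  rt k := h.rt (some k)
  one k := h.one (some k)

/-- The new letters. -/
noncomputable def nl {B B₁ : Type} [Group B] [Group B₁] (ℓ : FreeGroup A →* B) (i : B →* B₁)
    (x : B₁) : FreeGroup (Option A) →* B₁ :=
  FreeGroup.lift fun a => a.elim x fun a => i (ℓ (FreeGroup.of a))

lemma nl_none {B B₁ : Type} [Group B] [Group B₁] (ℓ : FreeGroup A →* B) (i : B →* B₁) (x : B₁) :
    nl ℓ i x (FreeGroup.of none) = x := by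
  rw [nl, FreeGroup.lift_apply_of]; rfl

lemma nl_some {B B₁ : Type} [Group B] [Group B₁] (ℓ : FreeGroup A →* B) (i : B →* B₁) (x : B₁)
    (a : A) : nl ℓ i x (FreeGroup.of (some a)) = i (ℓ (FreeGroup.of a)) := by
  rw [nl, FreeGroup.lift_apply_of]; rfl

lemma nl_map {B B₁ : Type} [Group B] [Group B₁] (ℓ : FreeGroup A →* B) (i : B →* B₁) (x : B₁)
    (w : FreeGroup A) : nl ℓ i x (FreeGroup.map some w) = i (ℓ w) := by
  have : (nl ℓ i x).comp (FreeGroup.map some) = i.comp ℓ := by
    refine FreeGroup.ext_hom _ _ fun a => ?_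
    rw [MonoidHom.comp_apply, MonoidHom.comp_apply, FreeGroup.map.of, nl_some]
  exact DFunLike.congr_fun this w

end MVBx

open MVBx in
theorem s_MVB (hFF : S_FF) : S_MVB := by
  intro B B₁ V A K _ _ χ b U o i s χ₁ hU ho hi hχ hs p m hp hm hnn
  have hrel : s⁻¹ * i (b.t o) * s = i (b.ℓ (b.z p)) ^ m * i (b.t (b.vt p)) := by
    rw [hnn.rel, map_mul, map_zpow]
  have hR : (nd hFF b.toBD b.z_ne o p m hp hm).Rel (nl b.ℓ i (s * i (b.ℓ (b.z p)) * s⁻¹))
      (fun v => i (b.t v)) fun k => k.elim s fun k => i (b.s k) := by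
    refine ⟨fun a => ?_, fun k => ?_, fun k => ?_, fun k => ?_⟩
    · cases a with
      | none =>
        rw [nl_none]
        change Commute _ (i (b.t o))
        have h1 : i (b.t o) = s * (i (b.ℓ (b.z p)) ^ m * i (b.t (b.vt p))) * s⁻¹ := by
          rw [← hrel]; group
        have h2 : Commute (i (b.ℓ (b.z p))) (i (b.ℓ (b.z p)) ^ m * i (b.t (b.vt p))) :=
          ((Commute.refl _).zpow_right m).mul_right ((b.rel.comm (b.z_mem p)).map i)
        rw [h1]
        exact h2.map (MulAut.conj s)
      | some a =>
        rw [nl_some]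
        exact (b.rel.com a).map i
    · cases k with
      | none =>
        change s⁻¹ * nl _ _ _ (FreeGroup.of none) * s = nl _ _ _ (FreeGroup.map some (b.z p))
        rw [nl_none, nl_map]; group
      | some k =>
        change (i (b.s k))⁻¹ * nl _ _ _ (FreeGroup.map some (b.z k)) * i (b.s k) =
          nl _ _ _ (FreeGroup.map some (b.z (b.h k)))
        rw [nl_map, nl_map, ← b.rel.rz k, map_mul, map_mul, map_inv]
    · cases k with
      | none =>
        change s⁻¹ * i (b.t o) * s = nl _ _ _ (FreeGroup.map some (b.z p)) ^ m * i (b.t (b.vt p))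
        rw [nl_map, hrel]
      | some k =>
        change (i (b.s k))⁻¹ * i (b.t (b.vt k)) * i (b.s k) =
          nl _ _ _ (FreeGroup.map some (b.z (b.h k))) ^ b.n k * i (b.t (b.vt (b.h k)))
        rw [nl_map, ← map_zpow, ← map_mul i (_ ^ _), ← b.rel.rt k, map_mul, map_mul, map_inv]
    · cases k with
      | none =>
        change i (b.s p) = 1
        have := b.rel.one p
        rw [hp] at this
        rw [this, map_one]
      | some k =>
        change i (b.s (b.h k)) = 1
        rw [b.rel.one k, map_one]
  have := b.finA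
  have := b.finK
  refine ⟨Option A, Option K,
    { toBD := nd hFF b.toBD b.z_ne o p m hp hm
      ℓ := nl b.ℓ i (s * i (b.ℓ (b.z p)) * s⁻¹)
      t := fun v => i (b.t v)
      s := fun k => k.elim s fun k => i (b.s k)
      finV := b.finV
      finA := inferInstance
      finK := inferInstance
      rel := hR
      gen := ?_
      up := ?_
      ne := ?_
      cl := ?_
      ct := fun v => by rw [hχ, b.ct]
      cs := ?_ }, U, ?_, fun v hv => ⟨v, hv, IsConj.refl _⟩, fun v hv => ⟨v, hv, IsConj.refl _⟩⟩
  · rw [eq_top_iff, ← hnn.gen, Subgroup.closure_le]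
    rintro x (⟨g, rfl⟩ | hx)
    · have hg : g ∈ Subgroup.closure (Set.range b.ℓ ∪ Set.range b.t ∪ Set.range b.s) := by
        rw [b.gen]; trivial
      induction hg using Subgroup.closure_induction with
      | mem y hy =>
        rcases hy with (⟨w, rfl⟩ | ⟨v, rfl⟩) | ⟨k, rfl⟩
        · exact Subgroup.subset_closure (Or.inl (Or.inl ⟨_, nl_map _ _ _ w⟩))
        · exact Subgroup.subset_closure (Or.inl (Or.inr ⟨v, rfl⟩))
        · exact Subgroup.subset_closure (Or.inr ⟨some k, rfl⟩)
      | one => rw [map_one]; exact one_mem _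
      | mul x y _ _ hx hy => rw [map_mul]; exact mul_mem hx hy
      | inv x _ hx => rw [map_inv]; exact inv_mem hx
    · exact Subgroup.subset_closure (Or.inr ⟨none, hx.symm⟩)
  · intro W _ ℓ' t' s' h
    obtain ⟨F₀, f1, f2, f3⟩ := b.up W _ _ _ (restr h)
    obtain ⟨F, g1, g2⟩ := hnn.up W F₀ (s' none) (by
      rw [map_mul, map_zpow, f1, f2, f2]
      exact h.rt none)
    refine ⟨F, fun w => ?_, fun v => by rw [g1, f2], fun k => ?_⟩
    · have : F.comp (nl b.ℓ i (s * i (b.ℓ (b.z p)) * s⁻¹)) = ℓ' := by
        refine FreeGroup.ext_hom _ _ fun a => ?_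
        rw [MonoidHom.comp_apply]
        cases a with
        | none =>
          have h1 : (s' none)⁻¹ * ℓ' (FreeGroup.of none) * s' none =
            ℓ' (FreeGroup.map some (b.z p)) := h.rz none
          rw [nl_none, map_mul, map_mul, map_inv, g1, g2, f1, MonoidHom.comp_apply, ← h1]
          group
        | some a => rw [nl_some, g1, f1, MonoidHom.comp_apply, FreeGroup.map.of]
      exact DFunLike.congr_fun this w
    · cases k with
      | none => exact g2
      | some k => exact (g1 _).trans (f3 k)
  · intro k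
    cases k with
    | none =>
      change nl _ _ _ (FreeGroup.of none) ≠ 1
      rw [nl_none]
      intro h
      refine b.ne p (hi ?_)
      have h1 : i (b.ℓ (b.z p)) = s⁻¹ * (s * i (b.ℓ (b.z p)) * s⁻¹) * s := by group
      rw [h1, h, map_one]; group
    | some k =>
      change nl _ _ _ (FreeGroup.map some (b.z k)) ≠ 1
      rw [nl_map]
      intro h
      exact b.ne k (hi (h.trans (map_one i).symm))
  · intro w
    have : χ₁.comp (nl b.ℓ i (s * i (b.ℓ (b.z p)) * s⁻¹)) = 1 := by
      refine FreeGroup.ext_hom _ _ fun a => ?_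
      rw [MonoidHom.comp_apply, MonoidHom.one_apply]
      cases a with
      | none => rw [nl_none, map_mul, map_mul, map_inv, hs, hχ, b.cl]; simp
      | some a => rw [nl_some, hχ, b.cl]
    exact DFunLike.congr_fun this w
  · intro k
    cases k with
    | none => exact hs
    | some k => exact (hχ _).trans (b.cs k)
  · intro a
    cases a with
    | none => exact ho
    | some a => exact hU a

end Pool.Agent.P.MP_67c9d4_al.FC
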