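import Pool.Agent.P.MP_67c9d4_al.FC.Iface

/-! Merging two vertices of a base. -/

namespace Pool.Agent.P.MP_67c9d4_al.FC

open Equiv Wr Multiplicative TD

namespace MVCx

variable {V A K W : Type} [Group W]

/-- The data after merging vertices. -/
def mv (D : BD V A K) (m : V → V) : BD V A K :=
  { D with
    vx := m ∘ D.vx
    vt := m ∘ D.vt
    hz := fun k => FS_mono (fun _ h => congrArg m h) (D.hz k) }

lemma tw (D : BD V A K) (δ : V → W) {f f' : FreeGroup A →* W}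
    (h : ∀ a, f' (.of a) = δ (D.vx a) * f (.of a) * (δ (D.vx a))⁻¹) {v : V} {w : FreeGroup A}
    (hw : w ∈ FS {a | D.vx a = v}) : f' w = δ v * f w * (δ v)⁻¹ := by
  have : FS {a | D.vx a = v} ≤ f'.eqLocus ((MulAut.conj (δ v)).toMonoidHom.comp f) :=
    (Subgroup.closure_le _).2 (by
      rintro _ ⟨a, rfl, rfl⟩
      exact h a)
  exact this hw

lemma cj_iff {x y x' y' : W} (c : W) (h : x' = c * x * c⁻¹) (h' : y' = c * y * c⁻¹) :
    x' = y' ↔ x = y := by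
  rw [h, h', mul_left_inj, mul_right_inj]

lemma rel_iff (D : BD V A K) (m : V → V) (δ : V → W) {ℓ ℓ' : FreeGroup A →* W} {t t' : V → W}
    {s s' : K → W} (h1 : ∀ a, ℓ' (.of a) = δ (D.vx a) * ℓ (.of a) * (δ (D.vx a))⁻¹)
    (h2 : ∀ v, t' (m v) = δ v * t v * (δ v)⁻¹)
    (h3 : ∀ k, s' k = δ (D.vt k) * s k * (δ (D.vt (D.h k)))⁻¹) :
    (mv D m).Rel ℓ' t' s' ↔ D.Rel ℓ t s := by
  have hz := fun k => tw D δ h1 (D.hz k)
  have e1 : ∀ a, Commute (ℓ' (.of a)) (t' (m (D.vx a))) ↔ Commute (ℓ (.of a)) (t (D.vx a)) :=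
    fun a => cj_iff (δ (D.vx a)) (by rw [h1, h2]; group) (by rw [h1, h2]; group)
  have e2 : ∀ k, (s' k)⁻¹ * ℓ' (D.z k) * s' k = ℓ' (D.z (D.h k)) ↔
      (s k)⁻¹ * ℓ (D.z k) * s k = ℓ (D.z (D.h k)) :=
    fun k => cj_iff (δ (D.vt (D.h k))) (by rw [h3, hz]; group) (hz _)
  have e3 : ∀ k, (s' k)⁻¹ * t' (m (D.vt k)) * s' k =
      ℓ' (D.z (D.h k)) ^ D.n k * t' (m (D.vt (D.h k))) ↔
      (s k)⁻¹ * t (D.vt k) * s k = ℓ (D.z (D.h k)) ^ D.n k * t (D.vt (D.h k)) :=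
    fun k => cj_iff (δ (D.vt (D.h k))) (by rw [h3, h2]; group) (by rw [hz, h2, conj_zpow]; group)
  have e4 : ∀ k, s' (D.h k) = 1 ↔ s (D.h k) = 1 :=
    fun k => cj_iff (δ (D.vt (D.h k))) (by rw [h3, D.hh]) (by group)
  exact ⟨fun h => ⟨fun a => (e1 a).1 (h.com a), fun k => (e2 k).1 (h.rz k),
      fun k => (e3 k).1 (h.rt k), fun k => (e4 k).1 (h.one k)⟩,
    fun h => ⟨fun a => (e1 a).2 (h.com a), fun k => (e2 k).2 (h.rz k),
      fun k => (e3 k).2 (h.rt k), fun k => (e4 k).2 (h.one k)⟩⟩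

lemma rel_map {D : BD V A K} {W' : Type} [Group W'] (i : W →* W') {ℓ : FreeGroup A →* W}
    {t : V → W} {s : K → W} (h : D.Rel ℓ t s) : D.Rel (i.comp ℓ) (i ∘ t) (i ∘ s) :=
  ⟨fun a => (h.com a).map i, fun k => by simpa using congrArg i (h.rz k),
    fun k => by simpa using congrArg i (h.rt k), fun k => by simp [h.one k]⟩

end MVCx

open MVCx in
theorem s_MVC : S_MVC := by
  intro B B₁ V A K _ _ χ b U o i s χ₁ hU ho hi hχ hs v hv hH
  classical
  have hr : i (b.t o) = s * i (b.t v) * s⁻¹ := by rw [← hH.rel]; group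
  let m : V → V := fun u => if u = v then o else u
  let δ : V → B₁ := fun u => if u = v then s else 1
  let ℓ' : FreeGroup A →* B₁ :=
    FreeGroup.lift fun a => δ (b.vx a) * i (b.ℓ (.of a)) * (δ (b.vx a))⁻¹
  let t' : V → B₁ := fun u => if u = v then s * i (b.t o) else i (b.t u)
  let s' : K → B₁ := fun k => δ (b.vt k) * i (b.s k) * (δ (b.vt (b.h k)))⁻¹
  have h1 : ∀ a, ℓ' (.of a) = δ (b.vx a) * i (b.ℓ (.of a)) * (δ (b.vx a))⁻¹ := fun a => by
    simp [ℓ']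
  have to' : t' o = i (b.t o) := if_neg hv.symm
  have tv : t' v = s * i (b.t o) := if_pos rfl
  have h2 : ∀ u, t' (m u) = δ u * i (b.t u) * (δ u)⁻¹ := fun u => by
    by_cases h : u = v
    · simp [m, δ, h, to', hr]
    · simp [m, δ, h, t']
  have hδ : ∀ u, χ₁ (δ u) = 1 := fun u => by
    by_cases h : u = v <;> simp [δ, h, hs]
  have mv' : ∀ u, m u ≠ v := fun u => by
    by_cases h : u = v <;> simp [m, h, hv.symm]
  refine ⟨A, K,
    { toBD := mv b.toBD m, ℓ := ℓ', t := t', s := s', finV := b.finV, finA := b.finA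
      finK := b.finK, rel := (rel_iff b.toBD m δ h1 h2 fun _ => rfl).2 (rel_map i b.rel)
      gen := ?_, up := fun W _ ℓ₂ t₂ s₂ h => ?_, ne := fun k h => b.ne k (hi ?_)
      cl := fun w => ?_, ct := fun u => ?_, cs := fun k => by simp [s', hδ, hχ, b.cs] },
    U \ {v}, fun a => ⟨?_, mv' _⟩, fun u hu => ⟨m u, ⟨?_, mv' _⟩, ?_⟩,
    fun u hu => ⟨u, hu.1, ?_⟩⟩
  · set G := Subgroup.closure (Set.range ℓ' ∪ Set.range t' ∪ Set.range s')
    have g1 : ∀ w, ℓ' w ∈ G := fun w => Subgroup.subset_closure (.inl (.inl ⟨w, rfl⟩))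
    have g2 : ∀ u, t' u ∈ G := fun w => Subgroup.subset_closure (.inl (.inr ⟨w, rfl⟩))
    have g3 : ∀ k, s' k ∈ G := fun w => Subgroup.subset_closure (.inr ⟨w, rfl⟩)
    have g4 : s ∈ G := by simpa [tv, to'] using G.mul_mem (g2 v) (G.inv_mem (g2 o))
    have g5 : ∀ u, δ u ∈ G := fun u => by
      by_cases h : u = v <;> simp [δ, h, g4]
    have g6 : ∀ u u' x, δ u * x * (δ u')⁻¹ ∈ G → x ∈ G := fun u u' x h =>
      (G.mul_mem_cancel_left (g5 u)).1 ((G.mul_mem_cancel_right (G.inv_mem (g5 u'))).1 h)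
    have g7 : FS Set.univ ≤ G.comap (i.comp b.ℓ) := (Subgroup.closure_le _).2 (by
      rintro _ ⟨a, -, rfl⟩
      exact g6 _ _ _ (h1 a ▸ g1 _))
    have g8 : ⊤ ≤ G.comap i := b.gen ▸ (Subgroup.closure_le _).2 (by
      rintro _ ((⟨w, rfl⟩ | ⟨u, rfl⟩) | ⟨k, rfl⟩)
      · exact g7 (FS_univ w)
      · exact g6 _ _ _ (h2 u ▸ g2 _)
      · exact g6 _ _ _ (g3 k))
    rw [eq_top_iff, ← hH.gen, Subgroup.closure_le]
    rintro _ (⟨g, rfl⟩ | rfl)
    · exact g8 trivial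
    · exact g4
  · let ς : W := t₂ v * (t₂ o)⁻¹
    let d : V → W := fun u => if u = v then ς else 1
    let ℓ₀ : FreeGroup A →* W := FreeGroup.lift fun a => (d (b.vx a))⁻¹ * ℓ₂ (.of a) * d (b.vx a)
    obtain ⟨F₀, f1, f2, f3⟩ := b.up W ℓ₀ (fun u => (d u)⁻¹ * t₂ (m u) * d u)
      (fun k => (d (b.vt k))⁻¹ * s₂ k * d (b.vt (b.h k)))
      ((rel_iff b.toBD m d (fun a => by simp [ℓ₀, mul_assoc]) (fun u => by group)
        (fun k => by group)).1 h)
    have f4 : F₀ (b.t o) = t₂ o := by simp [f2, d, m, hv.symm]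
    obtain ⟨F, F1, F2⟩ := hH.up W F₀ ς (by rw [f4, f2]; simp [d, m])
    have F3 : ∀ u, F (δ u) = d u := fun u => by
      by_cases h : u = v <;> simp [δ, d, h, F2]
    refine ⟨F, fun w => DFunLike.congr_fun (FreeGroup.ext_hom (F.comp ℓ') ℓ₂ fun a => ?_) w,
      fun u => ?_, fun k => ?_⟩
    · simp [h1, F1, F3, f1, ℓ₀, mul_assoc]
    · by_cases h : u = v
      · simp [h, tv, F1, F2, f4, ς]
      · simp [t', h, F1, f2, d, m]
    · simp [s', F1, F3, f3, mul_assoc]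
  · have := tw b.toBD δ (f := i.comp b.ℓ) h1 (b.hz k)
    rw [show ℓ' (b.z k) = 1 from h, eq_comm, conj_eq_one_iff] at this
    exact this.trans (map_one i).symm
  · exact DFunLike.congr_fun (FreeGroup.ext_hom (χ₁.comp ℓ') 1 fun a => by
      simp [h1, hδ, hχ, b.cl]) w
  · by_cases h : u = v <;> simp [t', h, hs, hχ, b.ct]
  · change m (b.vx a) ∈ U
    by_cases h : b.vx a = v <;> simp [m, h, ho, hU]
  · by_cases h : u = v <;> simp [m, h, ho, hu]
  · exact isConj_iff.2 ⟨δ u, (h2 u).symm⟩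
  · change IsConj _ (t' u)
    rw [show t' u = i (b.t u) from if_neg hu.2]

end Pool.Agent.P.MP_67c9d4_al.FC
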