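import Pool.Agent.P.MP_67c9d4_al.FC.Iface

/-! Attaching a loop at a fibre. -/

namespace Pool.Agent.P.MP_67c9d4_al.FC

open Equiv Wr Multiplicative TD

namespace MVDx

lemma lift_some {A W : Type} [Group W] (f : FreeGroup A →* W) (s : W) (w : FreeGroup A) :
    FreeGroup.lift (fun a : Option A => a.elim s fun a => f (FreeGroup.of a))
      (FreeGroup.map some w) = f w :=
  DFunLike.congr_fun (FreeGroup.ext_hom ((FreeGroup.lift fun a : Option A =>
    a.elim s fun a => f (FreeGroup.of a)).comp (FreeGroup.map some)) f fun a => by simp) w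

lemma map_mem {A : Type} {S : Set A} {S' : Set (Option A)} (h : ∀ a ∈ S, some a ∈ S')
    {w : FreeGroup A} (hw : w ∈ FS S) : FreeGroup.map some w ∈ FS S' := by
  refine (Subgroup.closure_le ((FS S').comap (FreeGroup.map some))).2 ?_ hw
  rintro _ ⟨a, ha, rfl⟩
  exact Subgroup.subset_closure ⟨some a, h a ha, by simp⟩

end MVDx

open MVDx in
theorem s_MVD (hFF : S_FF) : S_MVD := by
  intro B B₁ V A K _ _ χ b U o i s χ₁ hU ho hi hχ hs hH
  have hM := hFF A K b.z b.z_ne b.maln
  have hl := lift_some (i.comp b.ℓ) s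
  have := b.finA
  let D : BD V (Option A) K :=
    { vx := fun a => a.elim o b.vx
      vt := b.vt
      h := b.h
      z := fun k => FreeGroup.map some (b.z k)
      n := b.n
      hh := b.hh
      hz := fun k => map_mem (fun _ ha => ha) (b.hz k)
      hn0 := b.hn0
      hn := b.hn
      maln := fun k k' g p q hp e => by
        obtain ⟨h1, h2⟩ := hM (some k) (some k') g p q hp e
        exact ⟨Option.some_injective _ h1, h2⟩ }
  let ℓ' : FreeGroup (Option A) →* B₁ :=
    FreeGroup.lift fun a : Option A => a.elim s fun a => (i.comp b.ℓ) (FreeGroup.of a)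
  have hl' : ∀ w, ℓ' (FreeGroup.map some w) = i (b.ℓ w) := hl
  have hs' : ℓ' (FreeGroup.of none) = s := FreeGroup.lift_apply_of
  have ha' : ∀ a, ℓ' (FreeGroup.of (some a)) = i (b.ℓ (FreeGroup.of a)) := fun a =>
    FreeGroup.lift_apply_of
  refine ⟨Option A, K, ⟨D, ℓ', fun v => i (b.t v), fun k => i (b.s k), b.finV, inferInstance,
    b.finK, ⟨?_, fun k => ?_, fun k => ?_, fun k => ?_⟩, ?_, fun W _ l t' s' hr => ?_, fun k => ?_,
    fun w => ?_, fun v => (hχ _).trans (b.ct v), fun k => (hχ _).trans (b.cs k)⟩, U, ?_,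
    fun v hv => ⟨v, hv, IsConj.refl _⟩, fun v hv => ⟨v, hv, IsConj.refl _⟩⟩
  · rintro (_ | a)
    · rw [hs']
      have h1 := hH.rel
      rw [mul_assoc, inv_mul_eq_iff_eq_mul] at h1
      exact h1.symm
    · rw [ha']
      exact (b.rel.com a).map i
  · simpa only [D, hl', map_mul, map_inv] using congrArg i (b.rel.rz k)
  · simpa only [D, hl', map_mul, map_inv, map_zpow] using congrArg i (b.rel.rt k)
  · exact (congrArg i (b.rel.one k)).trans (map_one i)
  · rw [eq_top_iff, ← hH.gen, Subgroup.closure_le]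
    rintro _ (⟨g, rfl⟩ | rfl)
    · refine Subgroup.mem_comap.1 ((eq_top_iff.1 b.gen).trans
        ((Subgroup.closure_le (Subgroup.comap i _)).2 ?_) (Subgroup.mem_top g))
      rintro _ ((⟨w, rfl⟩ | ⟨v, rfl⟩) | ⟨k, rfl⟩)
      · exact Subgroup.subset_closure (Or.inl (Or.inl ⟨_, hl' w⟩))
      · exact Subgroup.subset_closure (Or.inl (Or.inr ⟨v, rfl⟩))
      · exact Subgroup.subset_closure (Or.inr ⟨k, rfl⟩)
    · exact Subgroup.subset_closure (Or.inl (Or.inl ⟨_, hs'⟩))
  · obtain ⟨F, f1, f2, f3⟩ := b.up W (l.comp (FreeGroup.map some)) t' s'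
      ⟨fun a => hr.com (some a), hr.rz, hr.rt, hr.one⟩
    obtain ⟨F', g1, g2⟩ := hH.up W F (l (FreeGroup.of none)) (by
      rw [f2, mul_assoc, inv_mul_eq_iff_eq_mul]
      exact (hr.com none).eq.symm)
    refine ⟨F', fun w => DFunLike.congr_fun (FreeGroup.ext_hom (F'.comp ℓ') l ?_) w,
      fun v => (g1 _).trans (f2 v), fun k => (g1 _).trans (f3 k)⟩
    rintro (_ | a)
    · rw [MonoidHom.comp_apply, hs', g2]
    · rw [MonoidHom.comp_apply, ha', g1, f1]
      simp
  · exact fun e => b.ne k (hi (((hl' _).symm.trans e).trans (map_one i).symm))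
  · refine DFunLike.congr_fun (FreeGroup.ext_hom (χ₁.comp ℓ') 1 ?_) w
    rintro (_ | a)
    · rw [MonoidHom.comp_apply, hs', hs]
      rfl
    · rw [MonoidHom.comp_apply, ha', hχ, b.cl]
      rfl
  · rintro (_ | a)
    exacts [ho, hU a]

end Pool.Agent.P.MP_67c9d4_al.FC
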