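import Pool.Agent.P.MP_67c9d4_al.FC.Iface

/-! Neutral balancing. -/

namespace Pool.Agent.P.MP_67c9d4_al.FC

open Equiv Wr Multiplicative TD

namespace NBALx

variable {H B : Type} [Group H] [Group B]

/-- Class functions. -/
def CF (F : B → ℚ) : Prop := ∀ g b, F (g * b * g⁻¹) = F b

/-- Evaluation of a class function on powers. -/
noncomputable def ev (F : B → ℚ) (r : ℕ) : (B →₀ ℚ) →ₗ[ℚ] ℚ :=
  Finsupp.linearCombination ℚ fun b => F (b ^ r)

lemma ev_single (F : B → ℚ) (r : ℕ) (b : B) : ev F r (Finsupp.single b 1) = F (b ^ r) := by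
  simp [ev]

variable (t y : H) (n : ℕ)

/-- The vector `v` is an imbalance at the exponent `n * r`. -/
def W (v : B →₀ ℚ) (r : ℕ) : Prop :=
  ∃ (X : Type) (_ : Fintype X) (σ : H →* Wr X B), Per (n * r) σ ∧ Neu σ ∧ (∀ g, tc σ g = 0) ∧
    ∀ F, CF F → ∑ x, F ((σ (t ^ (n * r))).c x) - ∑ x, F ((σ (y ^ (n * r))).c x) = ev F r v

/-- A multiple of `v` is an imbalance. -/
def Rl (v : B →₀ ℚ) : Prop := ∃ r c : ℕ, 0 < r ∧ 0 < c ∧ W t y n ((c : ℚ) • v) r

variable {t y n} {v w : B →₀ ℚ} {r : ℕ}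

lemma W.pow (h : W t y n v r) (s : ℕ) : W t y n v (r * s) := by
  obtain ⟨X, _, σ, h1, h2, h3, h4⟩ := h
  refine ⟨X, _, σ, by rw [← mul_assoc]; exact per_mul h1 s, h2, h3, fun F hF => ?_⟩
  have h5 := h4 (fun b => F (b ^ s)) fun g b => by
    beta_reduce
    rw [conj_pow, hF]
  simp only [← mul_assoc, pow_mul _ (n * r) s, map_pow σ _ s, pow_c (h1 _), h5, ev, pow_mul _ r s]

lemma per_sum {X X' : Type} {m : ℕ} {σ : H →* Wr X B} {σ' : H →* Wr X' B} (h : Per m σ)
    (h' : Per m σ') : Per m (Wr.sum σ σ') := fun g => by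
  rw [sum_p, h g, h' g]; exact Perm.sumCongr_one

lemma W.add (h : W t y n v r) (h' : W t y n w r) : W t y n (v + w) r := by
  obtain ⟨X, _, σ, h1, h2, h3, h4⟩ := h
  obtain ⟨X', _, σ', h1', h2', h3', h4'⟩ := h'
  refine ⟨_, inferInstance, Wr.sum σ σ', per_sum h1 h1', h2.sum h2',
    fun g => by rw [tc_sum, h3, h3', add_zero], fun F hF => ?_⟩
  rw [map_add, ← h4 F hF, ← h4' F hF, Fintype.sum_sum_type, Fintype.sum_sum_type]
  simp only [sum_c, Sum.elim_inl, Sum.elim_inr]
  ring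

lemma sum_cp {X : Type} [Fintype X] (c : ℕ) (σ : H →* Wr X B) (F : B → ℚ) (g : H) :
    ∑ q, F ((cp (Fin c) σ g).c q) = c * ∑ x, F ((σ g).c x) := by
  simp [Fintype.sum_prod_type, cp_c]

lemma W.mul (h : W t y n v r) (c : ℕ) : W t y n ((c : ℚ) • v) r := by
  obtain ⟨X, _, σ, h1, h2, h3, h4⟩ := h
  refine ⟨_, inferInstance, cp (Fin c) σ, per_cp h1 _, (cp_cov _ σ).neu h2,
    fun g => by rw [tc_cp, h3, smul_zero], fun F hF => ?_⟩
  rw [sum_cp, sum_cp, map_smul, ← h4 F hF, smul_eq_mul, mul_sub]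

lemma Rl.add (h : Rl t y n v) (h' : Rl t y n w) : Rl t y n (v + w) := by
  obtain ⟨r, c, h1, h2, h3⟩ := h
  obtain ⟨r', c', h1', h2', h3'⟩ := h'
  have h4 := (h3'.pow r).mul c
  rw [mul_comm r'] at h4
  refine ⟨r * r', c * c', Nat.mul_pos h1 h1', Nat.mul_pos h2 h2', ?_⟩
  have h5 := ((h3.pow r').mul c').add h4
  rwa [smul_smul, smul_smul, mul_comm (c' : ℚ), ← smul_add, ← Nat.cast_mul] at h5

lemma Rl.smul (h : Rl t y n v) {q : ℚ} (hq : 0 < q) : Rl t y n (q • v) := by
  obtain ⟨r, c, h1, h2, h3⟩ := h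
  refine ⟨r, c * q.den, h1, Nat.mul_pos h2 q.den_pos, ?_⟩
  have e : ((q.num.toNat : ℕ) : ℚ) = q * q.den := by
    rw [Rat.mul_den_eq_num, ← Int.cast_natCast, Int.toNat_of_nonneg (Rat.num_pos.2 hq).le]
  have h4 := h3.mul q.num.toNat
  rw [smul_smul, e, show q * q.den * c = ((c * q.den : ℕ) : ℚ) * q by push_cast; ring] at h4
  rwa [smul_smul]

lemma rl_of_zero (h : ∀ F, CF F → ev F 1 v = 0) : Rl t y n v :=
  ⟨1, 1, one_pos, one_pos, Empty, inferInstance, 1, fun _ => rfl,
    fun C _ f g => by simp [tot_apply], fun _ => by simp [tc], fun F hF => by simp [h F hF]⟩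

/-- Second differences. -/
noncomputable def sd (b : B) (j : ℤ) : B →₀ ℚ :=
  Finsupp.single (b ^ (j + 1)) 1 + Finsupp.single (b ^ (j - 1)) 1 -
    (2 : ℚ) • Finsupp.single (b ^ j) 1

lemma rl_sd (h : LinZ t y) (hn : 0 < n) (b : B) (j e : ℤ) (he : e = 1 ∨ e = -1) :
    Rl t y n ((e : ℚ) • sd b j) := by
  obtain ⟨r, c, X, _, σ, h1, h2, h3, h4, h5⟩ := h n j 1 e hn he
  refine ⟨r, c, h1, h2, X, _, (push (zpowersHom B b)).comp σ, h3, neu_zpowers h4 b,
    fun g => by rw [tc_zpowers, h4]; simp, fun F _ => (h5 fun z => F (b ^ z)).trans ?_⟩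
  have e1 : ∀ z : ℤ, (b ^ z) ^ r = b ^ (r * z) := fun z => by
    rw [← zpow_natCast, ← zpow_mul, mul_comm]
  simp only [sd, map_smul, map_sub, map_add, ev_single, e1, smul_eq_mul]
  ring

/-- The span of the relations. -/
noncomputable def U (B : Type) [Group B] : Submodule ℚ (B →₀ ℚ) :=
  Submodule.span ℚ ({v | ∃ g b : B, v = Finsupp.single (g * b * g⁻¹) 1 - Finsupp.single b 1} ∪
    {v | ∃ (b : B) (j : ℤ), v = sd b j})

lemma rl_U (h : LinZ t y) (hn : 0 < n) (hv : v ∈ U B) : Rl t y n v := by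
  have p0 : Rl t y n (0 : B →₀ ℚ) := rl_of_zero fun F _ => map_zero _
  have key : Rl t y n v ∧ Rl t y n (-v) := by
    induction hv using Submodule.span_induction with
    | mem v hv =>
      rcases hv with ⟨g, b, rfl⟩ | ⟨b, j, rfl⟩
      · constructor <;> exact rl_of_zero fun F hF => by simp [ev_single, hF g b]
      · exact ⟨by simpa using rl_sd h hn b j 1 (Or.inl rfl),
          by simpa using rl_sd h hn b j (-1) (Or.inr rfl)⟩
    | zero => exact ⟨p0, by rw [neg_zero]; exact p0⟩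
    | add v w _ _ h1 h2 => exact ⟨h1.1.add h2.1, by rw [neg_add]; exact h1.2.add h2.2⟩
    | smul q v _ h1 =>
      rcases lt_trichotomy q 0 with hq | rfl | hq
      · have a1 := h1.1.smul (neg_pos.2 hq)
        have a2 := h1.2.smul (neg_pos.2 hq)
        rw [neg_smul] at a1
        rw [neg_smul_neg] at a2
        exact ⟨a2, a1⟩
      · rw [zero_smul, neg_zero]
        exact ⟨p0, p0⟩
      · exact ⟨h1.1.smul hq, smul_neg q v ▸ h1.2.smul hq⟩
  exact key.1

lemma lin {M : Type} [AddCommGroup M] [Module ℚ M] (a : ℤ → M) (h0 : a 0 = 0)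
    (h : ∀ j, a (j + 1) + a (j - 1) - (2 : ℚ) • a j = 0) (j : ℤ) : a j = (j : ℚ) • a 1 := by
  have d : ∀ j, a (j + 1) - a j = a 1 := fun j => by
    induction j using Int.induction_on with
    | zero => simp [h0]
    | succ i ih =>
      have := h (i + 1)
      rw [add_sub_cancel_right] at this
      linear_combination (norm := module) this + ih
    | pred i ih =>
      have := h (-i)
      rw [sub_add_cancel]
      linear_combination (norm := module) ih - this
  induction j using Int.induction_on with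
  | zero => simp [h0]
  | succ i ih =>
    have := d i
    push_cast at ih ⊢
    linear_combination (norm := module) this + ih
  | pred i ih =>
    have := d (-i - 1)
    rw [sub_add_cancel] at this
    push_cast at ih ⊢
    linear_combination (norm := module) ih - this

lemma lift_U (B : Type) [Group B] : ∃ L : HC B →ₗ[ℚ] (B →₀ ℚ) ⧸ U B,
    ∀ b, L (cl b) = (U B).mkQ (Finsupp.single b 1 - Finsupp.single 1 1) := by
  refine hc_lift _ (fun g b => (Submodule.Quotient.eq _).2 ?_) fun b j => ?_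
  · rw [sub_sub_sub_cancel_right]
    exact Submodule.subset_span (Or.inl ⟨g, b, rfl⟩)
  · have := lin (fun j => (U B).mkQ (Finsupp.single (b ^ j) 1 - Finsupp.single 1 1))
      (by simp) (fun j => by
        rw [← map_smul, ← map_add, ← map_sub]
        refine (Submodule.Quotient.mk_eq_zero _).2 ?_
        have e : sd b j ∈ U B := Submodule.subset_span (Or.inr ⟨b, j, rfl⟩)
        refine (congrArg (· ∈ U B) ?_).mp e
        rw [sd]
        module) j
    simpa only [zpow_one] using this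

end NBALx

open NBALx

theorem s_NBAL : S_NBAL := by
  intro H B X _ _ _ t y h σ ht
  obtain ⟨L, hL⟩ := lift_U B
  set n := Nat.card (Perm X) with hn
  have hN : (n : ℚ)⁻¹ ≠ 0 := inv_ne_zero (Nat.cast_ne_zero.2 Nat.card_pos.ne')
  have h1 := congrArg L (smul_right_injective _ hN ht)
  simp only [map_sum L, hL] at h1
  rw [← map_sum, ← map_sum] at h1
  have h2 := (Submodule.Quotient.eq _).1 h1.symm
  rw [Finset.sum_sub_distrib, Finset.sum_sub_distrib, sub_sub_sub_cancel_right] at h2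
  obtain ⟨r, c, r0, c0, X', _, σ', a1, a2, a3, a4⟩ := rl_U (n := n) h Nat.card_pos h2
  have hp := per_sum (per_cp (per_mul (per_card σ) r) (Fin c)) a1
  refine ⟨c, n * r, X', _, σ', c0, Nat.mul_pos Nat.card_pos r0, a2, a3,
    isConj_of_sum (hp t) (hp y) fun F hF => ?_⟩
  have h3 := a4 F hF
  have e : ∀ g x, (σ (g ^ n)).c x ^ r = (σ (g ^ (n * r))).c x := fun g x => by
    rw [pow_mul, map_pow σ _ r, pow_c (per_card σ g)]
  simp only [map_smul, map_sub, map_sum, ev_single, smul_eq_mul, ← hn, e] at h3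
  rw [Fintype.sum_sum_type, Fintype.sum_sum_type]
  simp only [sum_c, Sum.elim_inl, Sum.elim_inr, sum_cp]
  linarith

end Pool.Agent.P.MP_67c9d4_al.FC
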