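import Pool.Agent.P.MP_67c9d4_al.FC.Iface

/-! Neutral extension. -/

namespace Pool.Agent.P.MP_67c9d4_al.FC

open Equiv Wr Multiplicative TD

theorem s_NEXT (hNBAL : S_NBAL) (hEXTF : S_EXTF) : S_NEXT := by
  intro H H' B X _ _ _ _ χ i a y s hs ha hy hL σ hσ
  obtain ⟨c, n, X', _, σ', c0, n0, h1, h2, h3⟩ := hNBAL H B X a y hL σ hσ
  obtain ⟨Y, _, _, ρ, h4⟩ := hEXTF H H' B _ χ i a y s hs ha hy _ n n0 h3
  have : Nonempty (Fin c) := ⟨⟨0, c0⟩⟩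
  refine ⟨_, inferInstance, ρ, (h4.dom Prod.snd_surjective).trans
    ((Dom.sum _ _).trans ((cp_cov (Fin c) σ).dom Prod.snd_surjective)),
    ⟨Fintype.card Y * c, mul_pos (Nat.cast_pos.2 Fintype.card_pos) (Nat.cast_pos.2 c0),
      fun g => ?_⟩, fun h => h4.neu (((cp_cov (Fin c) σ).neu h).sum h1)⟩
  rw [← tc_comp, h4.tc, tc_sum, tc_cp, h2, add_zero, smul_smul]

end Pool.Agent.P.MP_67c9d4_al.FC
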