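import Pool.Agent.P.MP_67c9d4_al.FC.Iface

/-! Towers over a free group. -/

namespace Pool.Agent.P.MP_67c9d4_al.FC

open Equiv Wr Multiplicative TD

theorem s_B0 : S_B0 := by
  intro V _
  refine ⟨{
    vx := Empty.elim, vt := Empty.elim, h := id, z := Empty.elim, n := Empty.elim
    hh := fun k => k.elim, hz := fun k => k.elim, hn0 := fun k => k.elim, hn := fun k => k.elim
    maln := fun k => k.elim, ℓ := 1, t := FreeGroup.of, s := Empty.elim
    finV := inferInstance, finA := inferInstance, finK := inferInstance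
    rel := ⟨fun a => a.elim, fun k => k.elim, fun k => k.elim, fun k => k.elim⟩
    gen := ?_, up := fun W _ ℓ' t' s' _ => ⟨FreeGroup.lift t', fun w => ?_, fun v => ?_,
      fun k => k.elim⟩
    ne := fun k => k.elim, cl := fun w => map_one _, ct := fun v => ?_
    cs := fun k => k.elim }, rfl⟩
  · exact eq_top_iff.2 ((FreeGroup.closure_range_of V).ge.trans
      (Subgroup.closure_mono fun x hx => Or.inl (Or.inr hx)))
  · rw [Subsingleton.elim w 1, map_one, map_one, map_one]
  · exact FreeGroup.lift_apply_of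
  · exact FreeGroup.lift_apply_of

theorem s_NF (hNF1 : S_NF1) (hB0 : S_B0) : S_NF := by
  intro V _ H
  have key : ∀ (n : ℕ) (B : MG) (A K : Type) (b : BS B.χ V A K) (U : Set V) (j : B.H →* H.H),
      (∀ a, b.vx a ∈ U) → PTow B (b.t '' U) H j n → (∀ v ∈ U, Amb H.χ (j (b.t v))) →
      VP (⊥ : Subgroup H.H) := by
    intro n
    induction n using Nat.strong_induction_on with
    | _ n ih =>
      intro B A K b U j h1 h2 h3
      rcases hNF1 B V A K b U h1 H j n h2 h3 with h | ⟨B', A', K', b', U', j', m, h4, h5, h6, -, h7⟩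
      · exact h.1.vp
      · refine ih m h4 B' A' K' b' U' j' h5 h6 fun v' hv' => ?_
        obtain ⟨v, hv, hc⟩ := h7 v' hv'
        exact (h3 v hv).conj hc
  intro j n h1 h2
  obtain ⟨b, hb⟩ := hB0 V
  exact key n _ _ _ b Set.univ j (fun _ => trivial) (by rwa [hb, Set.image_univ])
    fun v _ => by rw [hb]; exact h2 v

end Pool.Agent.P.MP_67c9d4_al.FC
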