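import Pool.Agent.P.MP_67c9d4_al.FC.Iface

/-! One step of the normal form of towers. -/

namespace Pool.Agent.P.MP_67c9d4_al.FC

open Equiv Wr Multiplicative TD

namespace NF1x

variable {H H' : Type} [Group H] [Group H'] {χ : H →* MZ}

lemma chi_conj {x x' : H} (c : IsConj x x') : χ x = χ x' := isConj_iff_eq.1 (χ.map_isConj c)

lemma exists_conj {x x' : H} (c : IsConj x x') (hx : χ x = ofAdd 1) :
    ∃ d, χ d = 1 ∧ d * x' * d⁻¹ = x := by
  obtain ⟨d, hd⟩ := isConj_iff.1 c.symm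
  refine ⟨x ^ (-(χ d).toAdd) * d, by rw [map_mul, chi_zpow hx]; simp, ?_⟩
  rw [show ∀ u : H, u * d * x' * (u * d)⁻¹ = u * (d * x' * d⁻¹) * u⁻¹ from fun u => by group, hd]
  group

lemma norm {χ' : H' →* MZ} {i : H →* H'} {a y x x' : H} {s : H'} (h : IsHNN i a y s)
    (c : IsConj x a) (c' : IsConj x' y) (hx : χ x = ofAdd 1) (hx' : χ x' = ofAdd 1)
    (hi : ∀ g, χ' (i g) = χ g) (hs : χ' s = 1) : ∃ s', IsHNN i x x' s' ∧ χ' s' = 1 := by
  obtain ⟨d, h1, h2⟩ := exists_conj c hx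
  obtain ⟨d', h3, h4⟩ := exists_conj c' hx'
  have h5 := h.conj d d'
  rw [h2, h4] at h5
  exact ⟨_, h5, by simp [hi, h1, h3, hs]⟩

end NF1x

open NF1x in
theorem s_NF1 (hBGOOD : S_BGOOD) (hSTEP : S_STEP) (hHDI : S_HDI) (hHINJ : S_HINJ) (hPTW : S_PTW)
    (hREORD : S_REORD) (hMOVE : S_MOVE) : S_NF1 := by
  intro B V A K b U hU H j n hT
  induction hT with
  | base =>
    intro hA
    refine Or.inl (hBGOOD B.H V A K B.χ b fun k => ?_)
    obtain ⟨a, ha⟩ := b.exists_vx k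
    exact hA (b.vt k) (ha ▸ hU a) _ (b.rel.comm (b.z_mem k)) (b.ne k) (b.cl _)
  | @step H H' j n i a y s hT ha hχa hχy hH hχi hχs ih =>
    intro hA
    have hi := hHINJ _ _ H.χ i a y s hH hχa hχy
    obtain ⟨_, ⟨o, ho, rfl⟩, hc⟩ := ha
    rcases ih fun v hv => Amb.comap hi hχi (hA v hv) with
      ⟨hG, hD⟩ | ⟨B', A', K', b', U', j', m, hm, hU', hT', h1, h2⟩
    · by_cases hg : Gen H.χ (fun v => j (b.t v)) y
      · obtain ⟨s', hs', -⟩ := norm hH hc (IsConj.refl y) (hG.chi o) hχy hχi hχs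
        have hS : Step H.χ (fun v => j (b.t v)) o y i s' H'.χ := ⟨b.finV, hG, hg, hs', hχi⟩
        have hG' := hSTEP _ _ _ _ _ _ _ _ _ _ hS
        refine Or.inl ⟨hG', fun y' hy' => ?_⟩
        rcases hHDI _ _ _ _ _ _ _ _ _ _ hS y' hy' with g | c | ⟨y₀, c, ng⟩
        · exact Or.inl g
        · exact Or.inr ⟨o, 1, one_mem _, by simpa using c⟩
        · obtain ⟨v, w, hw, c'⟩ :=
            (hD y₀ (by rw [← hχi, chi_conj c, hy'])).resolve_left ng
          exact Or.inr ⟨v, w, hw, (i.map_isConj c').trans c⟩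
      · obtain ⟨v, w, hw, c'⟩ := (hD y hχy).resolve_left hg
        obtain ⟨s', hs', hχs'⟩ :=
          norm hH hc c' (hG.chi o) ((chi_conj c').trans hχy) hχi hχs
        have e : B.χ (b.ℓ w * b.t v) = ofAdd 1 := by rw [map_mul, b.cl, b.ct, one_mul]
        obtain ⟨B₁, i₁, s₁, j₁, g1, g2, g3, g4, g5⟩ :=
          hREORD B _ H j n hT (b.t o) (b.ℓ w * b.t v) ((b.ct o).trans e.symm) H' i s' hs' hχi hχs'
        obtain ⟨A', K', b', U', hU', m1, m2⟩ := hMOVE B.H B₁.H V A K B.χ b U o i₁ s₁ B₁.χ hU ho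
          (hHINJ _ _ B.χ i₁ _ _ s₁ g1 (b.ct o) e) g2 g3 v w hw g1
        have key : ∀ u u', IsConj (i₁ (b.t u)) (b'.t u') →
            IsConj ((i.comp j) (b.t u)) (j₁ (b'.t u')) := fun u u' c => by
          have := j₁.map_isConj c
          rwa [g5] at this
        refine Or.inr ⟨B₁, A', K', b', U', j₁, n, n.lt_succ_self, hU',
          (hPTW B₁ _ H' j₁ n g4).2 _ ?_, fun u hu => ?_, fun u' hu' => ?_⟩
        · rintro _ ⟨_, ⟨u, hu, rfl⟩, rfl⟩
          obtain ⟨u', hu', c⟩ := m1 u hu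
          exact ⟨_, ⟨u', hu', rfl⟩, c⟩
        · obtain ⟨u', hu', c⟩ := m1 u hu
          exact ⟨u', hu', key u u' c⟩
        · obtain ⟨u, hu, c⟩ := m2 u' hu'
          exact ⟨u, hu, key u u' c⟩
    · obtain ⟨o', ho', c⟩ := h1 o ho
      refine Or.inr ⟨B', A', K', b', U', i.comp j', m + 1, Nat.succ_lt_succ hm, hU',
        PTow.step i a y s hT' ⟨_, ⟨o', ho', rfl⟩, c.symm.trans hc⟩ hχa hχy hH hχi hχs,
        fun u hu => ?_, fun u' hu' => ?_⟩
      · obtain ⟨u', hu', c⟩ := h1 u hu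
        exact ⟨u', hu', i.map_isConj c⟩
      · obtain ⟨u, hu, c⟩ := h2 u' hu'
        exact ⟨u, hu, i.map_isConj c⟩

end Pool.Agent.P.MP_67c9d4_al.FC
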