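import Pool.Agent.P.MP_67c9d4_al.FC.Iface

/-! Paths along an embedded circle run parallel to it. -/

namespace Pool.Agent.P.MP_67c9d4_al.FC

open Equiv Wr Multiplicative TD

namespace PARx
variable {H V E : Type} [Group H] {D : TD H V E} {N : Subgroup H}

/-- The two edges start at vertices that agree modulo `N`. -/
def SV (D : TD H V E) (N : Subgroup H) (a b : (E × Bool) × H) : Prop :=
  D.vt a.1 = D.vt b.1 ∧ a.2⁻¹ * b.2 ∈ D.G (D.vt a.1) ⊔ N

lemma SV.symm {a b : (E × Bool) × H} (h : SV D N a b) : SV D N b a := by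
  refine ⟨h.1.symm, ?_⟩
  have := inv_mem h.2
  rwa [mul_inv_rev, inv_inv, h.1] at this

lemma SV.trans {a b e : (E × Bool) × H} (h : SV D N a b) (h' : SV D N b e) : SV D N a e := by
  refine ⟨h.1.trans h'.1, ?_⟩
  have := mul_mem h.2 (h.1 ▸ h'.2)
  rwa [mul_assoc, mul_inv_cancel_left] at this

lemma sv_same {a b : (E × Bool) × H} (h : D.Same N a b) : SV D N a b := h.start

lemma sv_lk {a b : (E × Bool) × H} (h : D.Lk a b) : SV D N (D.rev a) b := by
  refine ⟨h.1, Subgroup.mem_sup_left ?_⟩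
  have h2 := h.2
  rw [← h.1] at h2
  exact h2

variable {y : H} {c : ℤ → (E × Bool) × H} {l : ℕ}

lemma same_of_sv (hN : N.Normal) (h : D.Ax y c l) (he : D.Emb N y c l) {i i' : ℤ} (k : ℤ)
    (s : SV D N (c (i + k)) (c (i' + k))) : D.Same N (c i) (c i') := by
  obtain ⟨m, m1, m2⟩ := he.2 _ _ s.1 s.2
  rw [show i' = i + l * m by linarith, h.zper, same_act_self hN]
  exact Subgroup.mem_sup_right m2

lemma same_of_sv₀ (hN : N.Normal) (h : D.Ax y c l) (he : D.Emb N y c l) {i i' : ℤ}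
    (s : SV D N (c i) (c i')) : D.Same N (c i) (c i') :=
  same_of_sv hN h he 0 (by simpa only [add_zero] using s)

lemma fwd (hN : N.Normal) (h : D.Ax y c l) (he : D.Emb N y c l) {a b : (E × Bool) × H}
    (h1 : D.Lk a b) (h2 : ¬D.Same N (D.rev a) b)
    (h3 : ∃ j, D.Same N b (c j) ∨ D.Same N b (D.rev (c j))) {t : ℤ} (h4 : D.Same N a (c t)) :
    D.Same N b (c (t + 1)) := by
  have s : SV D N (c (t + 1)) b :=
    ((sv_lk (h.lk t)).symm.trans (sv_same ((same_rev hN).2 h4)).symm).trans (sv_lk h1)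
  obtain ⟨j, e | e⟩ := h3
  · exact e.trans (same_of_sv₀ hN h he (s.trans (sv_same e))).symm
  · have e2 := same_of_sv hN h he 1 ((s.trans (sv_same e)).trans (sv_lk (h.lk j)))
    exact absurd (((same_rev hN).2 (h4.trans e2)).trans e.symm) h2

lemma bwd (hN : N.Normal) (h : D.Ax y c l) (he : D.Emb N y c l) {a b : (E × Bool) × H}
    (h1 : D.Lk a b) (h2 : ¬D.Same N (D.rev a) b)
    (h3 : ∃ j, D.Same N a (c j) ∨ D.Same N a (D.rev (c j))) {t : ℤ}
    (h4 : D.Same N b (c (t + 1))) : D.Same N a (c t) := by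
  have s : SV D N (c (t + 1)) (D.rev a) := ((sv_lk h1).trans (sv_same h4)).symm
  obtain ⟨j, e | e⟩ := h3
  · have e2 := same_of_sv hN h he 1
      ((s.trans (sv_same ((same_rev hN).2 e))).trans (sv_lk (h.lk j)))
    exact e.trans e2.symm
  · have e1 : D.Same N (D.rev a) (c j) := by
      have := (same_rev hN).2 e
      rwa [rev_rev] at this
    have e2 := same_of_sv₀ hN h he (s.trans (sv_same e1))
    exact absurd ((e1.trans e2.symm).trans h4.symm) h2

lemma par (hN : N.Normal) (h : D.Ax y c l) (he : D.Emb N y c l) {c' : ℤ → (E × Bool) × H}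
    (h1 : ∀ i, D.Lk (c' i) (c' (i + 1)) ∧ ¬D.Same N (D.rev (c' i)) (c' (i + 1)))
    (h2 : ∀ i, ∃ j, D.Same N (c' i) (c j) ∨ D.Same N (c' i) (D.rev (c j))) {j : ℤ}
    (h0 : D.Same N (c' 0) (c j)) : ∃ d, ∀ i, D.Same N (c i) (c' (i + d)) := by
  have key : ∀ i, D.Same N (c' i) (c (j + i)) := fun i => by
    induction i using Int.induction_on with
    | zero => rwa [add_zero]
    | succ n ih =>
      rw [← add_assoc]
      exact fwd hN h he (h1 n).1 (h1 n).2 (h2 _) ih
    | pred n ih =>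
      refine bwd hN h he (h1 _).1 (h1 _).2 (h2 _) ?_
      rw [sub_add_cancel, show j + (-(n : ℤ) - 1) + 1 = j + -(n : ℤ) by ring]
      exact ih
  refine ⟨-j, fun i => ?_⟩
  have := (key (i + -j)).symm
  rwa [show j + (i + -j) = i by ring] at this

end PARx

theorem s_PAR : S_PAR := by
  intro H V E _ D N hN y c l h he c' h1 h2
  obtain ⟨j, e | e⟩ := h2 0
  · exact Or.inl (PARx.par hN h he h1 h2 e)
  · refine Or.inr (PARx.par hN h he (c' := fun i => D.rev (c' (-i))) (j := j)
      (fun i => ⟨?_, fun s => ?_⟩) (fun i => ?_) ?_)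
    · simpa only [neg_add_rev, neg_add_cancel_comm] using (h1 (-(i + 1))).1.rev
    · rw [rev_rev] at s
      refine (h1 (-(i + 1))).2 ?_
      rw [show -(i + 1) + 1 = -i by ring]
      exact s.symm
    · obtain ⟨k, s | s⟩ := h2 (-i)
      · exact ⟨k, Or.inr ((same_rev hN).2 s)⟩
      · refine ⟨k, Or.inl ?_⟩
        have := (same_rev hN).2 s
        rwa [rev_rev] at this
    · have := (same_rev hN).2 e
      rw [rev_rev] at this
      simpa only [neg_zero] using this

end Pool.Agent.P.MP_67c9d4_al.FC
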