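import Pool.Agent.P.MP_67c9d4_al.FC.Iface

namespace Pool.Agent.P.MP_67c9d4_al.FC

open Equiv Wr Multiplicative TD

namespace PINx

variable {H : Type} [Group H]

/-- The two virtual characters as one function on the whole group. -/
theorem total {A B₁ B₂ : Subgroup H} (h : Ind3 A B₁ B₂) :
    ∃ (K : Subgroup H) (F : H → ℤ × ℤ), FN K ∧ (∀ x ∈ K, ∀ y ∈ K, F (x * y) = F x + F y) ∧
      (∀ b ∈ K, b ∈ B₁ → (F b).1 = 0) ∧ (∀ b ∈ K, b ∈ B₂ → (F b).2 = 0) ∧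
      (∀ a ∈ K, a ∈ A → F a = 0 → a = 1) ∧
      ∀ m : ℕ, 0 < m → ∃ N, FN N ∧ ∀ g ∈ N, g ∈ K ∧ (m : ℤ) ∣ (F g).1 ∧ (m : ℤ) ∣ (F g).2 := by
  classical
  obtain ⟨K, hK, f₁, f₂, h1, h2, h3⟩ := h
  have hle := K.normalCore_le
  refine ⟨K.normalCore, fun x => if h : x ∈ K then ((f₁ ⟨x, h⟩).toAdd, (f₂ ⟨x, h⟩).toAdd) else 0,
    FN.core K, fun x hx y hy => ?_, fun b hb hB => ?_, fun b hb hB => ?_, fun a ha hA h0 => ?_,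
    fun m hm => ?_⟩
  · simp only [dif_pos (hle hx), dif_pos (hle hy), dif_pos (K.mul_mem (hle hx) (hle hy))]
    have e : (⟨x * y, K.mul_mem (hle hx) (hle hy)⟩ : K) = ⟨x, hle hx⟩ * ⟨y, hle hy⟩ := rfl
    rw [e, f₁.map_mul, f₂.map_mul, toAdd_mul, toAdd_mul]
    rfl
  · simp only [dif_pos (hle hb)]
    rw [h1 _ hB, toAdd_one]
  · simp only [dif_pos (hle hb)]
    rw [h2 _ hB, toAdd_one]
  · simp only [dif_pos (hle ha)] at h0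
    have e : (⟨a ^ 1, by rw [pow_one]; exact hle ha⟩ : K) = ⟨a, hle ha⟩ := Subtype.ext (pow_one a)
    refine h3 a hA 1 (by rw [pow_one]; exact hle ha) one_pos ?_ ?_
    · rw [e]; exact toAdd_eq_zero.1 (congrArg Prod.fst h0)
    · rw [e]; exact toAdd_eq_zero.1 (congrArg Prod.snd h0)
  · obtain ⟨N₁, hN₁, e₁⟩ := FN.exists_dvd K f₁ hm
    obtain ⟨N₂, hN₂, e₂⟩ := FN.exists_dvd K f₂ hm
    refine ⟨K.normalCore ⊓ (N₁ ⊓ N₂), (FN.core K).inf (hN₁.inf hN₂), fun g hg => ⟨hg.1, ?_⟩⟩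
    simp only [dif_pos (hle hg.1)]
    exact ⟨(e₁ g hg.2.1).2, (e₂ g hg.2.2).2⟩

/-- Representatives inside a subgroup. -/
theorem rep {K : Subgroup H} (hK : K.Normal) (B : Subgroup H) :
    ∃ r : H ⧸ K → H, (∀ q, r q ∈ B) ∧ ∀ b ∈ B, b * (r b)⁻¹ ∈ K := by
  have h : ∀ q : H ⧸ K, ∃ r ∈ B, ∀ b ∈ B, (b : H ⧸ K) = q → b * r⁻¹ ∈ K := fun q => by
    by_cases h : ∃ b ∈ B, (b : H ⧸ K) = q
    · obtain ⟨r, hr, e⟩ := h
      refine ⟨r, hr, fun b _ hb => ?_⟩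
      exact hK.mem_comm_iff.1 (QuotientGroup.eq.1 (e.trans hb.symm))
    · exact ⟨1, B.one_mem, fun b hb e => (h ⟨b, hb, e⟩).elim⟩
  choose r hr e using h
  exact ⟨r, hr, fun b hb => e _ b hb rfl⟩

section
variable {K : Subgroup H} {F : H → ℤ × ℤ} (hF : ∀ x ∈ K, ∀ y ∈ K, F (x * y) = F x + F y)
include hF

theorem one : F 1 = 0 := by
  have := hF 1 K.one_mem 1 K.one_mem
  rw [mul_one] at this
  exact left_eq_add.1 this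

theorem inv {x : H} (hx : x ∈ K) : F x⁻¹ = -F x := by
  have := hF x hx _ (K.inv_mem hx)
  rw [mul_inv_cancel, one hF] at this
  exact (neg_eq_of_add_eq_zero_right this.symm).symm

theorem pow {x : H} (hx : x ∈ K) (n : ℕ) : F (x ^ n) = n • F x := by
  induction n with
  | zero => rw [pow_zero, one hF, zero_smul]
  | succ n ih => rw [pow_succ, hF _ (K.pow_mem hx n) _ hx, ih, succ_nsmul]

/-- The value at the part of `a` in `K`. -/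
theorem split {N : Subgroup H} (hN : N.Normal) (hNK : ∀ g ∈ N, g ∈ K) {a c b l w : H}
    (ha : a * c⁻¹ ∈ K) (hb : b * l⁻¹ ∈ K) (h : b⁻¹ * (a * w) ∈ N) :
    ∃ ν ∈ N, F (a * c⁻¹) = F (b * l⁻¹) + F (l * w⁻¹ * c⁻¹) + F ν := by
  have h1 := hN.conj_mem _ h (c * w)
  refine ⟨_, h1, ?_⟩
  have h2 : l * w⁻¹ * c⁻¹ ∈ K := by
    have := K.mul_mem (K.mul_mem (K.inv_mem hb) ha) (K.inv_mem (hNK _ h1))
    convert this using 1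
    group
  rw [← hF _ hb _ h2, ← hF _ (K.mul_mem hb h2) _ (hNK _ h1)]
  congr 1
  group

end

end PINx

open PINx in
theorem s_PIN (hLAT : S_LAT) : S_PIN := by
  intro H _ A B₁ B₂ hI w₁ w₂
  obtain ⟨K', F, hK', hF, hB₁, hB₂, hA, hmod⟩ := total hI
  have := hK'.2
  have : Fintype ((H ⧸ K') × (H ⧸ K') × (H ⧸ K')) := Fintype.ofFinite _
  obtain ⟨r, hr, hr'⟩ := rep hK'.1 A
  obtain ⟨r₁, hr₁, hr₁'⟩ := rep hK'.1 B₁
  obtain ⟨r₂, hr₂, hr₂'⟩ := rep hK'.1 B₂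
  let Λ : AddSubgroup (ℤ × ℤ) :=
    { carrier := {ψ | ∃ a ∈ A, a ∈ K' ∧ F a = ψ}
      zero_mem' := ⟨1, A.one_mem, K'.one_mem, one hF⟩
      add_mem' := by
        rintro _ _ ⟨a, ha, ha', rfl⟩ ⟨b, hb, hb', rfl⟩
        exact ⟨a * b, A.mul_mem ha hb, K'.mul_mem ha' hb', hF _ ha' _ hb'⟩
      neg_mem' := by
        rintro _ ⟨a, ha, ha', rfl⟩
        exact ⟨a⁻¹, A.inv_mem ha, K'.inv_mem ha', inv hF ha'⟩ }
  let φ : (H ⧸ K') × (H ⧸ K') × (H ⧸ K') → ℤ × ℤ := fun j =>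
    ((F (r₁ j.2.1 * w₁⁻¹ * (r j.1)⁻¹)).1, (F (r₂ j.2.2 * w₂⁻¹ * (r j.1)⁻¹)).2)
  have h1 : ∀ j, ∃ s ∈ A, s ∈ K' ∧ (φ j ∈ Λ → F s = φ j) := fun j => by
    by_cases h : φ j ∈ Λ
    · obtain ⟨s, hs, hs', e⟩ := h
      exact ⟨s, hs, hs', fun _ => e⟩
    · exact ⟨1, A.one_mem, K'.one_mem, fun h' => (h h').elim⟩
  choose s hs hs' hsφ using h1
  have h2 : ∀ j, ∃ m : ℕ, 0 < m ∧ ∀ ψ ∈ Λ, (m : ℤ) ∣ (φ j - ψ).1 → (m : ℤ) ∣ (φ j - ψ).2 →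
      φ j ∈ Λ := fun j => by
    by_cases h : φ j ∈ Λ
    · exact ⟨1, one_pos, fun _ _ _ _ => h⟩
    · obtain ⟨m, hm, e⟩ := (hLAT Λ).1 _ h
      exact ⟨m, hm, fun ψ hψ e₁ e₂ => (e ψ hψ ⟨e₁, e₂⟩).elim⟩
  choose m hm hmφ using h2
  refine ⟨Set.range fun j => s j * r j.1, Set.finite_range _, ?_, fun K hK => ?_⟩
  · rintro _ ⟨j, rfl⟩
    exact A.mul_mem (hs j) (hr _)
  obtain ⟨m₀, hm₀, hd⟩ := (hLAT Λ).2 K.index (Nat.pos_of_ne_zero hK.2.index_ne_zero)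
  obtain ⟨N, hN, hNm⟩ := hmod (m₀ * ∏ j, m j) (Nat.mul_pos hm₀ (Finset.prod_pos fun j _ => hm j))
  refine ⟨N, hN, fun a ha e₁ e₂ => ?_⟩
  obtain ⟨b₁, hb₁, e₁⟩ := (mem_sup_left' hN.1).1 e₁
  obtain ⟨b₂, hb₂, e₂⟩ := (mem_sup_left' hN.1).1 e₂
  obtain ⟨ν₁, hν₁, e₁⟩ := split hF hN.1 (fun g hg => (hNm g hg).1) (hr' a ha) (hr₁' b₁ hb₁) e₁
  obtain ⟨ν₂, hν₂, e₂⟩ := split hF hN.1 (fun g hg => (hNm g hg).1) (hr' a ha) (hr₂' b₂ hb₂) e₂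
  set j : (H ⧸ K') × (H ⧸ K') × (H ⧸ K') := (a, b₁, b₂) with hj
  have ha' : a * (r a)⁻¹ ∈ A := A.mul_mem ha (A.inv_mem (hr _))
  have d₁ : ((m₀ * ∏ j, m j : ℕ) : ℤ) ∣ (F (a * (r a)⁻¹) - φ j).1 := by
    have := congrArg Prod.fst e₁
    rw [Prod.fst_add, Prod.fst_add, hB₁ _ (hr₁' b₁ hb₁) (B₁.mul_mem hb₁ (B₁.inv_mem (hr₁ _))),
      zero_add] at this
    rw [Prod.fst_sub, this]
    convert (hNm _ hν₁).2.1 using 1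
    exact add_sub_cancel_left _ _
  have d₂ : ((m₀ * ∏ j, m j : ℕ) : ℤ) ∣ (F (a * (r a)⁻¹) - φ j).2 := by
    have := congrArg Prod.snd e₂
    rw [Prod.snd_add, Prod.snd_add, hB₂ _ (hr₂' b₂ hb₂) (B₂.mul_mem hb₂ (B₂.inv_mem (hr₂ _))),
      zero_add] at this
    rw [Prod.snd_sub, this]
    convert (hNm _ hν₂).2.2 using 1
    exact add_sub_cancel_left _ _
  have dj : ((m j : ℕ) : ℤ) ∣ ((m₀ * ∏ j, m j : ℕ) : ℤ) :=
    Int.natCast_dvd_natCast.2 ((Finset.dvd_prod_of_mem m (Finset.mem_univ j)).mul_left _)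
  have d0 : (m₀ : ℤ) ∣ ((m₀ * ∏ j, m j : ℕ) : ℤ) := Int.natCast_dvd_natCast.2 (dvd_mul_right _ _)
  have hΛ : F (a * (r a)⁻¹) ∈ Λ := ⟨_, ha', hr' a ha, rfl⟩
  have hφ : φ j ∈ Λ := hmφ j _ hΛ
    (by rw [← neg_sub, Prod.fst_neg]; exact (dj.trans d₁).neg_right)
    (by rw [← neg_sub, Prod.snd_neg]; exact (dj.trans d₂).neg_right)
  obtain ⟨_, ⟨c, hc, hc', rfl⟩, e⟩ := hd _ (Λ.sub_mem hΛ hφ) (d0.trans d₁) (d0.trans d₂)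
  have hcK := K'.pow_mem hc' K.index
  have h3 : (s j * c ^ K.index)⁻¹ * (a * (r a)⁻¹) = 1 := by
    have h4 := K'.mul_mem (hs' j) hcK
    refine hA _ (K'.mul_mem (K'.inv_mem h4) (hr' a ha))
      (A.mul_mem (A.inv_mem (A.mul_mem (hs j) (A.pow_mem hc _))) ha') ?_
    rw [hF _ (K'.inv_mem h4) _ (hr' a ha), inv hF h4, hF _ (hs' j) _ hcK, pow hF hc', hsφ j hφ,
      ← e]
    abel
  refine ⟨_, ⟨j, rfl⟩, ?_⟩
  have h5 := hK.1.conj_mem' _ (hK.pow_mem c) (r a)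
  have h6 : a = s j * c ^ K.index * r a := by
    rw [inv_mul_eq_one.1 h3, inv_mul_cancel_right]
  convert h5 using 1
  change (s j * r a)⁻¹ * a = _
  nth_rewrite 2 [h6]
  group

end Pool.Agent.P.MP_67c9d4_al.FC
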