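import Pool.Agent.P.MP_67c9d4_al.FC.Iface

namespace Pool.Agent.P.MP_67c9d4_al.FC

open Equiv Wr Multiplicative TD

namespace PQx

variable {H X X' I : Type} [Group H]

lemma aff_c' (σ : H →* Wr X MZ) (l : I → ℤ) (h : H) (q : I × X) :
    (aff σ 1 l 0 h).c q = (σ h).c q.2 ^ l q.1 := by
  rw [aff_c]; simp

lemma nz_aff {σ : H →* Wr X MZ} {l : I → ℤ} {g : H} {q : I × X} (h : NZ (aff σ 1 l 0) g q) :
    NZ σ g q.2 := by
  obtain ⟨n, h1, h2⟩ := h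
  refine ⟨n, congrArg Prod.snd h1, fun h3 => h2 ?_⟩
  rw [aff_c', h3, one_zpow]

lemma nz_aff' {σ : H →* Wr X MZ} {l : I → ℤ} {g : H} {i : I} {x : X} (hl : l i ≠ 0)
    (h : NZ σ g x) : NZ (aff σ 1 l 0) g (i, x) := by
  obtain ⟨n, h1, h2⟩ := h
  refine ⟨n, by rw [aff_p, h1], fun h3 => h2 ?_⟩
  rw [aff_c'] at h3
  have h4 := congrArg toAdd h3
  rw [toAdd_zpow, toAdd_one, smul_eq_mul] at h4
  exact toAdd.injective ((mul_eq_zero.1 h4).resolve_left hl)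

lemma null_aff {σ : H →* Wr X MZ} (l : I → ℤ) {g : H} (h : Null σ g) : Null (aff σ 1 l 0) g :=
  null_iff.2 fun q hq => null_iff.1 h q.2 (nz_aff hq)

lemma nz_inl {σ : H →* Wr X MZ} {σ' : H →* Wr X' MZ} {g : H} {x : X} :
    NZ (Wr.sum σ σ') g (Sum.inl x) ↔ NZ σ g x :=
  exists_congr fun _ => and_congr Sum.inl_injective.eq_iff Iff.rfl

lemma nz_inr {σ : H →* Wr X MZ} {σ' : H →* Wr X' MZ} {g : H} {x : X'} :
    NZ (Wr.sum σ σ') g (Sum.inr x) ↔ NZ σ' g x :=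
  exists_congr fun _ => and_congr Sum.inr_injective.eq_iff Iff.rfl

lemma p_sum {σ : H →* Wr X MZ} {σ' : H →* Wr X' MZ} {g : H} (h : (σ g).p = 1)
    (h' : (σ' g).p = 1) : (Wr.sum σ σ' g).p = 1 := by
  rw [sum_p, h, h']
  ext x; cases x <;> rfl

end PQx

open PQx in
theorem s_PQ : S_PQ := by
  classical
  intro H X₂ _ _ t y g Z H₀ σ₂ hO hZ hy hg
  obtain ⟨X₁, _, σ₁, κ, h1, -, ⟨x₁, h3⟩, h4⟩ := hO
  set n := Nat.card (Perm X₁) * Nat.card (Perm X₂) with hn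
  have n0 : 0 < n := Nat.mul_pos Nat.card_pos Nat.card_pos
  have p1 : Per n σ₁ := per_mul (per_card σ₁) _
  have p2 : Per n σ₂ := by rw [hn, mul_comm]; exact per_mul (per_card σ₂) _
  have ht : Null σ₁ t := h1 t (Or.inr rfl)
  let v : X₁ → ℤ := fun x => ((σ₁ (y ^ n)).c x).toAdd
  let s : X₂ → ℤ := fun x => ((σ₂ (t ^ n)).c x).toAdd
  have hv : v x₁ ≠ 0 := fun h =>
    (nz_iff n0 (by rw [p1 y]; rfl)).1 h3 (toAdd.injective h)
  let l₁ : {x // v x ≠ 0} → ℤ := fun x => v x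
  refine ⟨({x // v x ≠ 0} × X₂) ⊕ (X₂ × X₁), inferInstance,
    Wr.sum (aff σ₂ 1 l₁ 0) (aff σ₁ 1 s 0), n, n0, ?_, fun z hz => ?_, ?_, ?_, ?_⟩
  · refine isConj_of_sum (p_sum (per_aff p2 _ _ _ t) (per_aff p1 _ _ _ t))
      (p_sum (per_aff p2 _ _ _ y) (per_aff p1 _ _ _ y)) fun F _ => ?_
    have a1 : ∀ x, (σ₁ (t ^ n)).c x = 1 := fun x => ht n x (by rw [p1 t]; rfl)
    have a2 : ∀ x, (σ₂ (y ^ n)).c x = 1 := fun x => hy n x (by rw [p2 y]; rfl)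
    have a3 : ∀ x₁ x₂, (σ₂ (t ^ n)).c x₂ ^ v x₁ = ofAdd (v x₁ * s x₂) := fun _ _ => rfl
    have a4 : ∀ x₁ x₂, (σ₁ (y ^ n)).c x₁ ^ s x₂ = ofAdd (v x₁ * s x₂) := fun _ _ => by
      rw [mul_comm]; rfl
    simp only [Fintype.sum_sum_type, sum_c, Sum.elim_inl, Sum.elim_inr, aff_c', a1, a2, one_zpow,
      Fintype.sum_prod_type, l₁, a3, a4]
    rw [Finset.sum_comm (γ := X₂), Finset.sum_comm (γ := X₂),
      ← Fintype.sum_subtype_add_sum_subtype (fun x => v x ≠ 0) (fun x => ∑ _y : X₂, F 1),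
      ← Fintype.sum_subtype_add_sum_subtype (fun x => v x ≠ 0)
        (fun x => ∑ y : X₂, F (ofAdd (v x * s y)))]
    have a5 : ∑ x : {x // ¬v x ≠ 0}, ∑ y : X₂, F (ofAdd (v x * s y)) =
        ∑ x : {x // ¬v x ≠ 0}, ∑ _y : X₂, F 1 :=
      Finset.sum_congr rfl fun x _ => Finset.sum_congr rfl fun y _ => by
        rw [not_not.1 x.2, zero_mul]; rfl
    rw [a5]; ring
  · exact (null_aff _ (hZ z hz)).sum (null_aff _ (h1 z (Or.inl hz)))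
  · obtain ⟨x₂, hx⟩ := hg
    exact ⟨Sum.inl (⟨x₁, hv⟩, x₂), nz_inl.2 (nz_aff' hv hx)⟩
  · rintro h (q | q) hq hq'
    · exact null_iff.1 (null_aff l₁ hy) _ (nz_inl.1 hq')
    · exact null_iff.1 (null_aff s ht) _ (nz_inr.1 hq)
  · rintro h (q | q) hq hq'
    · exact (null_iff.1 (null_aff l₁ hy) _ (nz_inl.1 hq)).elim
    · exact h4 h q.2 (nz_aff (nz_inr.1 hq)) (nz_aff (nz_inr.1 hq'))

end Pool.Agent.P.MP_67c9d4_al.FC
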