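import Pool.Agent.P.MP_67c9d4_al.FC.Iface

/-! Towers: the character and the change of the attaching set. -/

namespace Pool.Agent.P.MP_67c9d4_al.FC

open Equiv Wr Multiplicative TD

theorem s_PTW : S_PTW := by
  intro B S H j n h
  induction h with
  | base => exact ⟨fun _ => rfl, fun S' _ => PTow.base⟩
  | step i a y s _ h1 h2 h3 h4 h5 h6 ih =>
    refine ⟨fun g => (h5 _).trans (ih.1 g), fun S' hS => ?_⟩
    obtain ⟨a₀, h7, h8⟩ := h1
    obtain ⟨a', h9, h10⟩ := hS a₀ h7
    exact PTow.step i a y s (ih.2 S' hS) ⟨a', h9, (MonoidHom.map_isConj _ h10).symm.trans h8⟩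
      h2 h3 h4 h5 h6

end Pool.Agent.P.MP_67c9d4_al.FC
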