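import Pool.Agent.P.MP_67c9d4_al.FC.Iface

namespace Pool.Agent.P.MP_67c9d4_al.FC

open Equiv Wr Multiplicative TD

namespace REDx

variable {H V E : Type} [Group H] (D : TD H V E)

/-- There is a geodesic from the base vertex `u` to the vertex `h v`. -/
def Red (u v : V) (h : H) : Prop :=
  (u = v ∧ h ∈ D.G u) ∨ ∃ (n : ℕ) (c : ℕ → (E × Bool) × H), D.Seg c (n + 1) ∧
    D.vt (c 0).1 = u ∧ (c 0).2 ∈ D.G u ∧ D.vt (bar (c n).1) = v ∧
    ((c n).2 * D.ε (c n).1)⁻¹ * h ∈ D.G v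

variable {D} {u v : V} {g h : H}

lemma Red.mul (hr : Red D u v h) (hg : g ∈ D.G v) : Red D u v (h * g) := by
  rcases hr with ⟨rfl, h1⟩ | ⟨n, c, h1, h2, h3, h4, h5⟩
  · exact Or.inl ⟨rfl, mul_mem h1 hg⟩
  · exact Or.inr ⟨n, c, h1, h2, h3, h4, mul_assoc _ h g ▸ mul_mem h5 hg⟩

lemma Red.edge {k : E × Bool} (hr : Red D u (D.vt k) h) :
    Red D u (D.vt (bar k)) (h * D.ε k) := by
  rcases hr with ⟨rfl, h1⟩ | ⟨n, c, h1, h2, h3, h4, h5⟩
  · exact Or.inr ⟨0, fun _ => (k, h), fun i hi => absurd hi (by omega), rfl, h1, rfl, by simp⟩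
  by_cases hs : D.Same ⊥ (D.rev (c n)) (k, h)
  · obtain ⟨e1, e2⟩ := same_bot.1 hs
    obtain rfl : bar (c n).1 = k := e1
    have e3 := D.le _ ((D.conj _ _).1 e2)
    have e4 : h * D.ε (bar (c n).1) = (c n).2 * (D.ε (c n).1 * ((D.rev (c n)).2⁻¹ * h) *
        (D.ε (c n).1)⁻¹) := by
      simp only [D.inv, TD.rev]
      group
    rw [bar_bar, e4]
    cases n with
    | zero => exact Or.inl ⟨h2.symm, mul_mem h3 (h2 ▸ e3)⟩
    | succ m =>
      have e5 := (h1 m (by omega)).1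
      exact Or.inr ⟨m, c, h1.mono (by omega), h2, h3, e5.1, by
        rw [← mul_assoc]
        exact mul_mem e5.2 e3⟩
  · refine Or.inr ⟨n + 1, fun i => if i ≤ n then c i else (k, h), fun i hi => ?_, by simpa using h2,
      by simpa using h3, by simp, by simp⟩
    rcases (show i ≤ n by omega).eq_or_lt with rfl | hi'
    · simp only [le_refl, if_true, Nat.not_succ_le_self, if_false]
      exact ⟨⟨h4, h5⟩, hs⟩
    · simp only [hi'.le, Nat.succ_le_of_lt hi', if_true]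
      exact h1 i (by omega)

end REDx

theorem s_RED : S_RED := by
  intro H V E _ D hT u v h
  have key := hT.ind (Q := fun u v h => ∀ u₀ g, REDx.Red D u₀ u g → REDx.Red D u₀ v (g * h))
    (fun v g hg u₀ g' hr => hr.mul hg) (fun k u₀ g hr => hr.edge)
    (fun u v w g h h1 h2 u₀ g' hr => mul_assoc g' g h ▸ h2 _ _ (h1 _ _ hr)) u v h u 1
    (Or.inl ⟨rfl, one_mem _⟩)
  rwa [one_mul] at key

end Pool.Agent.P.MP_67c9d4_al.FC
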