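import Pool.Agent.P.MP_67c9d4_al.FC.Iface

/-! Reordering the steps of a tower of HNN extensions. -/

namespace Pool.Agent.P.MP_67c9d4_al.FC

open Equiv Wr Multiplicative TD

namespace REORDx

lemma swap {H₀ H H' H₀' : Type} [Group H₀] [Group H] [Group H'] [Group H₀'] {i₀ : H₀ →* H}
    {a₀ y₀ a g : H₀} {s₀ : H} {i : H →* H'} {s : H'} {i₀' : H₀ →* H₀'} {s' : H₀'}
    {i'' : H₀' →* H'} (h₀ : IsHNN i₀ a₀ y₀ s₀) (h : IsHNN i (i₀ a) (i₀ g) s)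
    (h' : IsHNN i₀' a g s') (e1 : ∀ x, i'' (i₀' x) = i (i₀ x)) (e2 : i'' s' = s) :
    IsHNN i'' (i₀' a₀) (i₀' y₀) (i s₀) := by
  refine ⟨?_, ?_, fun W _ f w hw => ?_⟩
  · rw [e1, e1, ← map_inv, ← map_mul, ← map_mul, h₀.rel]
  · rw [eq_top_iff, ← h.gen, Subgroup.closure_le]
    rintro x (⟨x, rfl⟩ | rfl)
    · have h1 : ⊤ ≤ (Subgroup.closure (Set.range i'' ∪ {i s₀})).comap i := by
        rw [← h₀.gen, Subgroup.closure_le]
        rintro x (⟨x, rfl⟩ | rfl)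
        · exact Subgroup.subset_closure (Or.inl ⟨_, e1 x⟩)
        · exact Subgroup.subset_closure (Or.inr rfl)
      exact h1 trivial
    · exact Subgroup.subset_closure (Or.inl ⟨_, e2⟩)
  · obtain ⟨F₁, h1, h2⟩ := h₀.up W (f.comp i₀') w hw
    obtain ⟨F, h3, h4⟩ := h.up W F₁ (f s') (by
      rw [h1, h1, MonoidHom.comp_apply, MonoidHom.comp_apply, ← map_inv, ← map_mul, ← map_mul,
        h'.rel])
    refine ⟨F, fun x => DFunLike.congr_fun (h'.ext (F := F.comp i'') (fun x => ?_) ?_) x,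
      (h3 _).trans h2⟩
    · rw [MonoidHom.comp_apply, e1, h3, h1, MonoidHom.comp_apply]
    · rw [MonoidHom.comp_apply, e2, h4]

end REORDx

theorem s_REORD (hHEX : S_HEX) (hPTW : S_PTW) : S_REORD := by
  intro B S H j n hT a g hag
  induction hT with
  | base =>
    intro H' i s h1 h2 h3
    exact ⟨H', i, s, MonoidHom.id _, h1, h2, h3, PTow.base, fun _ => rfl⟩
  | @step H₀ H j₀ n i₀ a₀ y₀ s₀ hT hc ha hy hH hχ hs ih =>
    intro H' i s h1 h2 h3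
    have hj := (hPTW B S H₀ j₀ n hT).1
    obtain ⟨H₀', i₀', s', h4, h5, h6⟩ := hHEX H₀ (j₀ a) (j₀ g) (by rw [hj, hj, hag])
    obtain ⟨B₁, i₁, s₁, j₁, h7, h8, h9, h10, h11⟩ := ih H₀' i₀' s' h4 h5 h6
    obtain ⟨i'', e1, e2⟩ := h4.up H'.H (i.comp i₀) s h1.rel
    refine ⟨B₁, i₁, s₁, i''.comp j₁, h7, h8, h9, PTow.step i'' (i₀' a₀) (i₀' y₀) (i s₀) h10 ?_
      ((h5 _).trans ha) ((h5 _).trans hy) (REORDx.swap hH h1 h4 e1 e2) (fun x => ?_)
      ((h2 _).trans hs), fun x => by rw [MonoidHom.comp_apply, h11, e1]; rfl⟩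
    · obtain ⟨b, hb, hc⟩ := hc
      exact ⟨i₁ b, ⟨b, hb, rfl⟩, by rw [h11]; exact i₀'.map_isConj hc⟩
    · refine DFunLike.congr_fun (h4.ext (F := H'.χ.comp i'') (fun x => ?_) ?_) x
      · rw [MonoidHom.comp_apply, e1, MonoidHom.comp_apply, h2, hχ, h5]
      · rw [MonoidHom.comp_apply, e2, h3, h6]

end Pool.Agent.P.MP_67c9d4_al.FC
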