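import Pool.Agent.P.MP_67c9d4_al.FC.Iface

/-! Free groups are residually finite and their free factors are separable. -/

namespace Pool.Agent.P.MP_67c9d4_al.FC

open Equiv Wr Multiplicative TD

theorem s_RFF (hRFR : S_RFR) : S_RFF := by
  intro W _
  have h : RF (FreeGroup W) := fun g hg => by
    obtain ⟨r, hr⟩ := raag_lift (Γ := (⊥ : SimpleGraph W)) (FreeGroup.of : W → FreeGroup W)
      fun _ _ hab => hab.elim
    let e : FreeGroup W →* RAAG (⊥ : SimpleGraph W) := FreeGroup.lift PresentedGroup.of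
    have e1 : r.comp e = MonoidHom.id _ := FreeGroup.ext_hom _ _ fun a => by simp [e, hr]
    obtain ⟨N, h1, h2⟩ := hRFR W ⊥ (e g) fun h0 =>
      hg ((DFunLike.congr_fun e1 g).symm.trans (by rw [MonoidHom.comp_apply, h0, map_one]))
    exact ⟨N.comap e, h1.comap e, h2⟩
  refine ⟨h, fun S g hg => ?_⟩
  obtain ⟨N, h1, h2⟩ := h (g⁻¹ * retr S g) fun h0 => hg (inv_mul_eq_one.1 h0 ▸ retr_mem S g)
  have h3 := h1.inf (h1.comap (retr S))
  refine ⟨_, h3, fun h4 => h2 ?_⟩
  obtain ⟨a, h5, h6, h7⟩ := (mem_sup_left' h3.1).1 h4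
  have h8 := N.mul_mem (N.inv_mem h6) (show retr S (a⁻¹ * g) ∈ N from h7)
  rwa [map_mul, map_inv, retr_eq h5, mul_inv_rev, inv_inv, mul_assoc, mul_inv_cancel_left] at h8

end Pool.Agent.P.MP_67c9d4_al.FC
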