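import Pool.Agent.P.MP_67c9d4_al.FC.Iface

namespace Pool.Agent.P.MP_67c9d4_al.FC

open Equiv Wr Multiplicative TD

theorem s_RFR (hCYCR : S_CYCR) (hHULL : S_HULL) (hCOMP : S_COMP) : S_RFR := by
  intro T _ Γ g hg
  obtain ⟨u, n, w, hn, hp, hr, e⟩ := hCYCR T Γ g hg
  obtain ⟨Y, _, Mv, y₀, h1, -, -, h2⟩ := hHULL T Γ w (n + n) (by omega) (fun i => by
    rw [Nat.cast_add, ← add_assoc, hp, hp]) hr
  obtain ⟨y, h3, h4⟩ := h2 n hn (by omega) hp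
  obtain ⟨K, _, θ, h5, -⟩ := hCOMP T Y Γ Mv y₀ h1
  refine ⟨K.normalCore, FN.core K, fun h => h3 ((h5 _ y h4).1 ?_)⟩
  rw [← e]
  simpa using h u⁻¹

end Pool.Agent.P.MP_67c9d4_al.FC
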