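import Pool.Agent.P.MP_67c9d4_al.FC.Iface

/-! Residual finiteness. -/

namespace Pool.Agent.P.MP_67c9d4_al.FC

open Equiv Wr Multiplicative TD

theorem s_RFV (hRFR : S_RFR) : S_RFV := by
  intro H _ ⟨K, hK, T, _, Γ, f, S, hf⟩ g hg
  by_cases h : g ∈ K
  · obtain ⟨N, hN, h1⟩ := hRFR T Γ (f ⟨g, h⟩) fun e =>
      hg (Subgroup.mem_bot.1 ((hf ⟨g, h⟩).1 (e ▸ one_mem _)))
    have : ((N.comap f).map K.subtype).FiniteIndex := ⟨by
      rw [Subgroup.index_map_subtype]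
      exact mul_ne_zero (hN.comap f).2.index_ne_zero hK.index_ne_zero⟩
    refine ⟨_, FN.core ((N.comap f).map K.subtype), fun h2 => h1 ?_⟩
    obtain ⟨k, hk, rfl⟩ := Subgroup.normalCore_le _ h2
    exact hk
  · exact ⟨_, FN.core K, fun h2 => h (Subgroup.normalCore_le _ h2)⟩

end Pool.Agent.P.MP_67c9d4_al.FC
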