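import Pool.Agent.P.MP_67c9d4_al.FC.Iface

/-! The representation of the base group in a wreath product of a free group. -/

namespace Pool.Agent.P.MP_67c9d4_al.FC

open Equiv Wr Multiplicative TD

namespace RHOx

variable {B V A K : Type} [Group B] {χ : B →* MZ} (b : BS χ V A K)

/-- The sides of the edges. -/
def gr : Gr V K A :=
  ⟨fun k => bif k.2 then b.vt k.1 else b.vt (b.h k.1),
    fun k => bif k.2 then b.z k.1 else b.z (b.h k.1), fun k => bif k.2 then 0 else b.n k.1⟩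

/-- The vertex groups. -/
noncomputable def io (v : V) : HH A →* B :=
  (b.ℓ.comp (retr {a | b.vx a = v})).noncommCoprod (zpowersHom B (b.t v)) fun w _ =>
    (b.rel.comm (retr_mem _ w)).zpow_right _

lemma io_apply {v : V} {w : FreeGroup A} (hw : w ∈ b.At v) (i : MZ) :
    io b v (w, i) = b.ℓ w * b.t v ^ i.toAdd := by
  change b.ℓ (retr _ w) * _ = _
  rw [retr_eq hw]
  rfl

lemma io_one {v : V} {w : FreeGroup A} (hw : w ∈ b.At v) : io b v (w, 1) = b.ℓ w := by
  rw [io_apply b hw, toAdd_one, zpow_zero, mul_one]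

lemma exists_gd (h : b.VRB) : Nonempty (GD (gr b) B) := by
  refine ⟨io b, χ, b.s, fun v x => ?_, fun k => ?_, fun k => ?_, fun k _ => ?_⟩
  · change χ (b.ℓ (retr _ x.1) * b.t v ^ x.2.toAdd) = _
    rw [map_mul, b.cl, map_zpow, b.ct, one_mul, ← ofAdd_zsmul]
    simp
  · change io b (b.vt k) (b.z k, 1) = b.s k * io b (b.vt (b.h k)) (b.z (b.h k), 1) * (b.s k)⁻¹
    rw [io_one b (b.z_mem k), io_one b (b.z_mem _), ← b.rel.rz k]
    group
  · change io b (b.vt k) (b.z k ^ (0 : ℤ), ofAdd 1) =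
      b.s k * io b (b.vt (b.h k)) (b.z (b.h k) ^ b.n k, ofAdd 1) * (b.s k)⁻¹
    rw [io_apply b (Subgroup.zpow_mem _ (b.z_mem k) _),
      io_apply b (Subgroup.zpow_mem _ (b.z_mem _) _), toAdd_ofAdd, zpow_one, zpow_one, zpow_zero,
      map_one, map_zpow, ← b.rel.rt k]
    group
  · obtain ⟨k, _ | _⟩ := k
    · obtain ⟨L, h1, f, h2, h3⟩ := h (b.h k)
      rw [← io_one b (b.z_mem _)] at h2
      refine ⟨L, h1, f, h2, Eq.trans (congrArg f (Subtype.ext ?_)) h3⟩
      exact io_one b (b.z_mem _)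
    · obtain ⟨L, h1, f, h2, h3⟩ := h k
      rw [← io_one b (b.z_mem _)] at h2
      refine ⟨L, h1, f, h2, Eq.trans (congrArg f (Subtype.ext ?_)) h3⟩
      exact io_one b (b.z_mem _)

end RHOx

open RHOx in
theorem s_RHO : S_RHO := by
  classical
  intro B V A K _ χ b h
  obtain ⟨X⟩ := exists_gd b h
  have := b.finV
  have := b.finA
  have := b.finK
  cases nonempty_fintype V
  cases nonempty_fintype K
  cases nonempty_fintype A
  obtain ⟨W, I, _, _, ρ, γ, h1, h2, h3⟩ := Gr.exists_rho X fun k e => absurd e (b.z_ne k)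
  cases nonempty_fintype I
  let ℓ' : FreeGroup A →* Wr I (FreeGroup W) :=
    FreeGroup.lift fun a => ρ (b.vx a) (FreeGroup.of a, 1)
  have a1 : ∀ v, ∀ w ∈ b.At v, ℓ' w = ρ v (w, 1) := by
    intro v w hw
    refine MonoidHom.eqOn_closure (f := ℓ') (g := (ρ v).comp (MonoidHom.inl _ _)) ?_ hw
    rintro _ ⟨a, rfl, rfl⟩
    simp [ℓ']
  have a2 : ∀ k, (gr b).ed k (ofAdd 1, 1) = ((gr b).z k, 1) := fun k => by
    ext <;> simp [Gr.ed]
  have a3 : ∀ k, (gr b).ed k (1, ofAdd 1) = ((gr b).z k ^ (gr b).m k, 1) * (1, ofAdd 1) :=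
    fun k => by ext <;> simp [Gr.ed]
  have hrel : b.toBD.Rel ℓ' (fun v => ρ v (1, ofAdd 1))
      fun k => if b.h k = k then 1 else γ k := by
    refine ⟨fun a => ?_, fun k => ?_, fun k => ?_, fun k => if_pos (b.hh k)⟩
    · rw [FreeGroup.lift_apply_of]
      refine Commute.map ?_ (ρ (b.vx a))
      ext <;> simp
    · split_ifs with e
      · rw [e, inv_one, one_mul, mul_one]
      · have := h1 k (ofAdd 1, 1)
        rw [a2, a2] at this
        rw [a1 _ _ (b.z_mem k), a1 _ _ (b.z_mem _)]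
        change ρ (b.vt k) (b.z k, 1) = γ k * ρ (b.vt (b.h k)) (b.z (b.h k), 1) * (γ k)⁻¹ at this
        rw [this]
        group
    · split_ifs with e
      · have := b.hn0 k
        rw [e] at this
        rw [this, e, inv_one, one_mul, mul_one, zpow_zero, one_mul]
      · have := h1 k (1, ofAdd 1)
        rw [a3, a3] at this
        change ρ (b.vt k) ((b.z k ^ (0 : ℤ), 1) * (1, ofAdd 1)) = γ k * ρ (b.vt (b.h k))
          ((b.z (b.h k) ^ b.n k, 1) * (1, ofAdd 1)) * (γ k)⁻¹ at this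
        rw [zpow_zero, Prod.mk_one_one, one_mul, map_mul] at this
        rw [← map_zpow, a1 _ _ (Subgroup.zpow_mem _ (b.z_mem _) _), this]
        group
  obtain ⟨F, f1, f2, -⟩ := b.up _ _ _ _ hrel
  have a4 : ∀ v, ∀ w ∈ b.At v, ∀ i : ℤ, F (b.ℓ w * b.t v ^ i) = ρ v (w, ofAdd i) := by
    intro v w hw i
    rw [map_mul, map_zpow, f1, f2, a1 v w hw, ← map_zpow, ← map_mul]
    congr 1
    ext <;> simp [← ofAdd_zsmul]
  refine ⟨W, I, inferInstance, inferInstance, F, fun k => ?_, fun v => ?_⟩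
  · obtain ⟨ω, hω⟩ := h2 (k, true)
    exact ⟨ω, fun w hw i => by rw [a4 _ w hw]; exact hω _⟩
  · obtain ⟨ω, hω⟩ := h3 v
    refine ⟨ω, fun w hw i => ?_⟩
    rw [a4 _ w hw, hω, Subgroup.mem_comap, Subgroup.zpowers_one_eq_bot, Subgroup.mem_bot]
    rfl

end Pool.Agent.P.MP_67c9d4_al.FC
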