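import Pool.Agent.P.MP_67c9d4_al.FC.Iface

set_option autoImplicit false

namespace Pool.Agent.P.MP_67c9d4_al.FC

open Equiv Wr Multiplicative TD

theorem s_RP (hCYCR : S_CYCR) (hHULL : S_HULL) (hCOMP : S_COMP) : S_RP := by
  intro T _ Γ b
  by_cases hb : b = 1
  · subst hb
    refine ⟨⊤, inferInstance, T, inferInstance, Γ, 1, Set.univ, Subgroup.mem_top _, ?_,
      fun g _ => Commute.one_right _⟩
    exact Subgroup.one_mem _
  obtain ⟨u, n, w, hn, hp, hr, he⟩ := hCYCR T Γ b hb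
  obtain ⟨Y, _, Mv, y₀, hC, hW, hc, -⟩ := hHULL T Γ w n hn hp hr
  obtain ⟨K, _, θ, h1, h2⟩ := hCOMP T Y Γ Mv y₀ hC
  let c : RAAG Γ →* RAAG Γ := (MulAut.conj u⁻¹).toMonoidHom
  have hcv : ∀ g, c g = u⁻¹ * g * u := fun g => by simp [c]
  have hm : b ∈ K.comap c := by
    rw [Subgroup.mem_comap, hcv, he]
    exact (h1 _ _ hW).2 rfl
  have hf : (K.comap c).FiniteIndex := ⟨by
    rw [Subgroup.index_comap_of_surjective _ (MulAut.conj u⁻¹).surjective]
    exact Subgroup.FiniteIndex.index_ne_zero⟩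
  refine ⟨K.comap c, hf, T × Bool, inferInstance, _, θ.comp (c.subgroupComap K),
    {x | x.2 = false}, hm, (h2 _).2 ⟨pre w n, ?_, hW⟩, fun g hg => ?_⟩
  · rw [← he, ← hcv]
    rfl
  · obtain ⟨L, e, hL⟩ := (h2 _).1 hg
    have h3 := hc L hL
    rw [e, ← he, ← hcv] at h3
    refine (MulAut.conj u⁻¹).injective ?_
    rw [map_mul, map_mul]
    exact h3

end Pool.Agent.P.MP_67c9d4_al.FC
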