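import Pool.Agent.P.MP_67c9d4_al.FC.Iface

/-! Fellow travelling of reduced words. -/

namespace Pool.Agent.P.MP_67c9d4_al.FC

open Equiv Wr Multiplicative TD

namespace SEGx

open FreeGroup

variable {W : Type} [DecidableEq W]

lemma left {P : List (W × Bool)} (hP : IsReduced P) (L : List (W × Bool)) :
    ∃ hd c, hd.length + c ≤ L.length ∧ reduce (L ++ P) = hd ++ P.drop c := by
  induction L with
  | nil => exact ⟨[], 0, le_rfl, hP.reduce_eq⟩
  | cons x L ih =>
    obtain ⟨hd, c, h1, h2⟩ := ih
    have h3 : reduce (x :: (L ++ P)) = x :: reduce (L ++ P) ∨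
        reduce (x :: (L ++ P)) = (reduce (L ++ P)).tail := by
      rw [reduce.cons]
      cases reduce (L ++ P) with
      | nil => exact .inl rfl
      | cons y t =>
        dsimp only
        split_ifs
        · exact .inr rfl
        · exact .inl rfl
    rw [h2] at h3
    rcases h3 with h | h
    · exact ⟨x :: hd, c, by simp; omega, h⟩
    · cases hd with
      | nil => exact ⟨[], c + 1, by simpa using h1, by simpa using h⟩
      | cons y hd => exact ⟨hd, c, by simp at h1 ⊢; omega, h⟩

lemma right {P : List (W × Bool)} (hP : IsReduced P) (L : List (W × Bool)) :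
    ∃ tl c, c ≤ L.length ∧ reduce (P ++ L) = P.take (P.length - c) ++ tl := by
  obtain ⟨hd, c, h1, h2⟩ := left (P := invRev P)
    (.of_reduce_eq (by rw [reduce_invRev, hP.reduce_eq])) (invRev L)
  rw [← invRev_append, reduce_invRev] at h2
  refine ⟨invRev hd, c, by simp at h1; omega, ?_⟩
  rw [← invRev_invRev (L₁ := reduce _), h2, invRev_append]
  congr 1
  simp [invRev, List.drop_reverse, ← List.map_take, Function.comp_def]

omit [DecidableEq W] in
lemma red {M : ℕ → W × Bool} {n : ℕ} (h : ∀ i, i + 1 < n → M (i + 1) ≠ ((M i).1, !(M i).2)) :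
    IsReduced ((List.range n).map M) := by
  rw [FreeGroup.IsReduced, List.isChain_iff_getElem]
  intro i hi e
  simp only [List.getElem_map, List.getElem_range] at e ⊢
  by_contra h'
  exact h i (by simpa using hi) (Prod.ext e.symm (by
    revert h'
    cases (M i).2 <;> cases (M (i + 1)).2 <;> simp))

omit [DecidableEq W] in
lemma rd_mk (M : ℕ → W × Bool) (n : ℕ) : rd M n = mk ((List.range n).map M) := by
  rw [rd_eq, mk_eq_prod, List.map_map]
  rfl

end SEGx

open SEGx in
theorem s_SEG : S_SEG := by
  intro W M M' n n' C L L' h h' hL hL' e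
  classical
  obtain ⟨tl, c, h1, h2⟩ := right (red h) L'
  obtain ⟨hd, c', h3, h4⟩ := left (red h') L
  rw [rd_mk, rd_mk, FreeGroup.mul_mk, FreeGroup.mul_mk] at e
  have e' := FreeGroup.reduce.sound e
  rw [h2, h4] at e'
  refine ⟨c' - hd.length, abs_le.2 ⟨by omega, by omega⟩, fun i hi hi' => ?_⟩
  have e2 := congrArg (fun l => l[i]?) e'
  simp only [List.length_map, List.length_range] at e2
  rw [List.getElem?_append_left (by simp; omega), List.getElem?_append_right (by omega),
    List.getElem?_take_of_lt (by omega), List.getElem?_drop, List.getElem?_map, List.getElem?_map,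
    List.getElem?_range (by omega)] at e2
  by_cases h5 : c' + (i - hd.length) < n'
  · rw [List.getElem?_range h5] at e2
    exact ⟨_, by omega, h5, by simpa using e2⟩
  · rw [List.getElem?_eq_none (by simpa using h5)] at e2
    simp at e2

end Pool.Agent.P.MP_67c9d4_al.FC
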