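import Pool.Agent.P.MP_67c9d4_al.FC.Iface

/-! Subgroups that are seen by two virtual characters are separable. -/

namespace Pool.Agent.P.MP_67c9d4_al.FC

open Equiv Wr Multiplicative TD

theorem s_SEPA (hPIN : S_PIN) : S_SEPA := by
  intro H _ A hR hI g hg
  obtain ⟨S, hS, hA, hP⟩ := hPIN H _ _ _ hI g⁻¹ g⁻¹
  have := hS.to_subtype
  obtain ⟨K, h1, h2⟩ := FN.exists_forall (J := S) (p := fun s N => (s : H)⁻¹ * g ∉ N)
    (fun s N N' le h h' => h (le h')) fun s =>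
      hR _ fun e => hg (inv_mul_eq_one.1 e ▸ hA s s.2)
  obtain ⟨N, h3, h4⟩ := hP K h1
  refine ⟨N ⊓ K, h3.inf h1, fun h => ?_⟩
  obtain ⟨a, ha, h5⟩ := (mem_sup_left' (h3.inf h1).1).1 h
  have h6 : a * g⁻¹ ∈ ⊥ ⊔ N := Subgroup.mem_sup_right (h3.1.mem_comm (by
    simpa only [mul_inv_rev, inv_inv] using N.inv_mem h5.1))
  obtain ⟨s, hs, h7⟩ := h4 a ha h6 h6
  exact h2 ⟨s, hs⟩ (by simpa only [mul_assoc, mul_inv_cancel_left] using K.mul_mem h7 h5.2)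

end Pool.Agent.P.MP_67c9d4_al.FC
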