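import Pool.Agent.P.MP_67c9d4_al.FC.Iface

/-! Linear relations and extension of representations. -/

namespace Pool.Agent.P.MP_67c9d4_al.FC

open Equiv Wr Multiplicative TD

theorem s_SLIN (hLINZ : S_LINZ) : S_SLIN := by
  intro H H' V _ _ χ t o y i s χ' h
  refine hLINZ H χ (t o) y ⊤ (h.good.chi o) h.gen.1
    ((h.good.o1 y h.gen ∅ Set.finite_empty (fun _ hz => hz.elim) ⊤ FN.top).mono ?_) ?_
  · rintro _ rfl
    exact ⟨_, Or.inr ⟨o, rfl⟩, IsConj.refl _⟩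
  · obtain ⟨X, _, σ, h1, h2⟩ := h.good.o2 o {y} (Set.finite_singleton y) fun _ e => e ▸ h.gen
    exact ⟨X, ‹_›, σ, h1 y rfl, h2⟩

theorem s_XREP (hSLIN : S_SLIN) (hBAL : S_BAL) (hNEXT : S_NEXT) : S_XREP := by
  intro H H' V _ _ χ t o y i s χ' h B X _ _ hB σ
  obtain ⟨X', _, σ', h1, h2⟩ := hBAL H B X (t o) y hB
    ((h.good.oj y h.gen ∅ Set.finite_empty fun _ hz => hz.elim).mono (by
      rintro _ rfl
      exact ⟨_, Or.inr ⟨o, rfl⟩, IsConj.refl _⟩)) σ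
  obtain ⟨X'', _, σ'', h3, -⟩ := hNEXT H H' B X' χ i (t o) y s h.hnn (h.good.chi o) h.gen.1
    (hSLIN H H' V χ t o y i s χ' h) σ' h2
  exact ⟨X'', ‹_›, σ'', h3.trans h1⟩

end Pool.Agent.P.MP_67c9d4_al.FC
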