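import Pool.Agent.P.MP_67c9d4_al.FC.Iface

/-! Extending a virtual character over an HNN extension, supported on one orbit. -/

namespace Pool.Agent.P.MP_67c9d4_al.FC

open Equiv Wr Multiplicative TD

namespace SPARSEx

variable {H H' X : Type} [Group H] [Group H']

lemma qa_inv (i : H →* H') (N : Subgroup H') (h u : H) :
    (qa N (i h))⁻¹ ((i u : H') : H' ⧸ N) = ((i (h⁻¹ * u) : H') : H' ⧸ N) := by
  rw [← map_inv, qa_mk, map_mul, map_inv]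

lemma exists_base (i : H →* H') (σ : H →* Wr X MZ) (x₀ : X) (N : Subgroup H')
    (hN : ∀ h, i h ∈ N → (σ h).p = 1) : ∃ σ₀ : H →* Wr (H' ⧸ N) MZ,
    (∀ h, (σ₀ h).p = qa N (i h)) ∧
    (∀ h u, (σ₀ h).c ((i u : H') : H' ⧸ N) = (σ h).c ((σ u).p x₀)) ∧
    ∀ h x, (∀ u, x ≠ ((i u : H') : H' ⧸ N)) → (σ₀ h).c x = 1 := by
  classical
  let c : H → H' ⧸ N → MZ := fun h x =>
    if hx : ∃ u, x = ((i u : H') : H' ⧸ N) then (σ h).c ((σ hx.choose).p x₀) else 1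
  have c1 : ∀ h u, c h ((i u : H') : H' ⧸ N) = (σ h).c ((σ u).p x₀) := fun h u => by
    have hx : ∃ u', ((i u : H') : H' ⧸ N) = ((i u' : H') : H' ⧸ N) := ⟨u, rfl⟩
    have e := QuotientGroup.eq.1 hx.choose_spec
    rw [← map_inv, ← map_mul] at e
    have e2 := hN _ e
    rw [map_mul, map_inv, mul_p, inv_p, inv_mul_eq_one] at e2
    simp only [c]
    rw [dif_pos hx, e2]
  have c2 : ∀ h x, (∀ u, x ≠ ((i u : H') : H' ⧸ N)) → c h x = 1 := fun h x hx =>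
    dif_neg fun ⟨u, e⟩ => hx u e
  refine ⟨MonoidHom.mk' (fun h => ⟨qa N (i h), c h⟩) fun a b => ?_, fun _ => rfl, c1, c2⟩
  refine Wr.ext (by simp only [map_mul, mul_p]) (funext fun x => ?_)
  change c (a * b) x = c a x * c b ((qa N (i a))⁻¹ x)
  by_cases hx : ∃ u, x = ((i u : H') : H' ⧸ N)
  · obtain ⟨u, rfl⟩ := hx
    rw [qa_inv, c1, c1, c1, map_mul, mul_c, map_mul, map_inv]
    rfl
  · have h1 : ∀ u, x ≠ ((i u : H') : H' ⧸ N) := fun u e => hx ⟨u, e⟩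
    rw [c2 _ _ h1, c2 _ _ h1, c2, one_mul]
    intro u e
    refine h1 (a * u) ?_
    rw [map_mul, ← qa_mk, ← e]
    simp

end SPARSEx

open SPARSEx in
theorem s_SPARSE : S_SPARSE := by
  intro H H' X _ _ i a y s σ x₀ N hH ha hy hn hN
  obtain ⟨σ₀, hp, c1, c2⟩ := exists_base i σ x₀ N hN
  have key : ∀ b, Null σ b → ∃ η : H' ⧸ N → MZ,
      ∀ x, (σ₀ b).c x = η x * (η ((qa N (i b))⁻¹ x))⁻¹ := fun b hb => by
    obtain ⟨η, hη⟩ := exists_cob σ₀ (Subgroup.zpowers b) (by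
      rintro _ ⟨n, rfl⟩ x hx
      rw [hp, qa_fix hn] at hx
      by_cases h : ∃ u, x = ((i u : H') : H' ⧸ N)
      · obtain ⟨u, rfl⟩ := h
        rw [c1]
        exact hb.zpow n (by rw [hN _ hx]; rfl)
      · exact c2 _ _ fun u e => h ⟨u, e⟩)
    exact ⟨η, fun x => by rw [hη b (Subgroup.mem_zpowers b), hp]⟩
  obtain ⟨η₁, h₁⟩ := key a ha
  obtain ⟨η₂, h₂⟩ := key y hy
  have hr : qa N (i a) * qa N s = qa N s * qa N (i y) := by
    rw [← map_mul, ← map_mul, ← hH.rel]; congr 1; group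
  obtain ⟨σ₁, e1, e2⟩ := hH.up _ σ₀ ⟨qa N s, fun x => η₁ x * (η₂ ((qa N s)⁻¹ x))⁻¹⟩ (by
    rw [mul_assoc, inv_mul_eq_iff_eq_mul]
    refine Wr.ext (by simp only [mul_p, hp, hr]) (funext fun x => ?_)
    simp only [mul_c, hp, h₁, h₂]
    have : (qa N s)⁻¹ ((qa N (i a))⁻¹ x) = (qa N (i y))⁻¹ ((qa N s)⁻¹ x) := by
      rw [← Perm.mul_apply, ← Perm.mul_apply, ← mul_inv_rev, ← mul_inv_rev, hr]
    rw [this]
    group)
  have e3 : pHom.comp σ₁ = qa N := hH.ext (fun g => by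
    rw [MonoidHom.comp_apply, e1, pHom_apply, hp]) (by rw [MonoidHom.comp_apply, e2]; rfl)
  exact ⟨σ₁, fun g => DFunLike.congr_fun e3 g, fun h u => by rw [e1, c1],
    fun h x hx => by rw [e1, c2 _ _ hx]⟩

end Pool.Agent.P.MP_67c9d4_al.FC
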