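import Pool.Agent.P.MP_67c9d4_al.FC.Iface

namespace Pool.Agent.P.MP_67c9d4_al.FC

open Equiv Wr Multiplicative TD

theorem s_T3 (hT3A : S_T3A) (hCOMMON : S_COMMON) (hEXT : S_EXT) : S_T3 := by
  intro H V E _ _ D hD h1 v Λ hΛ h2
  obtain ⟨T, _, Γ, X, _, ρ, hρ⟩ := hCOMMON H (Option (E × Bool))
    (fun j => j.elim (D.G v) fun k => D.G (D.vt k)) (fun j => j.elim Λ D.P)
    (by rintro (_ | k); exacts [h2, h1 k])
  choose ω hω using hρ
  obtain ⟨θ, hr, hl⟩ := hT3A H V E _ (X → RFib Γ) D sec ρ (fun k => ω (some k)) hD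
    (fun k => hω (some k)) v
  choose s b hsb using fun f : RFib Γ => rfb_surj f
  have hs : ∀ (g : RAAG Γ) f, s (g • f) = s f := fun g f => by
    have := hsb (g • f)
    conv_lhs at this => rw [hsb f, smul_rfb]
    exact (rfb_eq.1 this).1.symm
  obtain ⟨T', _, Γ', f, hf⟩ := hEXT X T ((E × Bool) × (X → Bool × Set T))
    ((E × Bool) × (X → RFib Γ)) Γ ((tag (E × Bool) sec).comp base)
    (fun q => (q.1, fun x => s (q.2 x))) (fun k => (k.1, fun x => rfb Γ (k.2 x) 1))
    (fun k x => (k.2 x).2)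
    (fun q => ⟨fun x => b (q.2 x), Prod.ext rfl (funext fun x =>
      (hsb _).trans (congrArg (rfb Γ _) (mul_one _).symm))⟩)
    (fun c q => Prod.ext rfl (funext fun x => hs _ _))
    (fun c k => by
      refine Prod.ext_iff.trans ((and_iff_right rfl).trans (funext_iff.trans
        (forall_congr' fun x => ?_)))
      change rfb Γ (k.2 x) (c x * 1) = _ ↔ _
      rw [rfb_eq, and_iff_right rfl, mul_one, mul_one, inv_mem_iff])
  let K := (pHom.comp ρ).ker
  let θ' : K →* FreeGroup ((E × Bool) × (X → RFib Γ)) ⋊[pa.comp ((tag (E × Bool) sec).comp base)]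
      (X → RAAG Γ) := MonoidHom.mk' (fun g => ⟨(θ g).left, (ρ g).c⟩) fun g g' => by
    have hg : (ρ g).p = 1 := g.2
    refine SemidirectProduct.ext ?_ (funext fun x => ?_)
    · change (θ (g * g' : H)).left = (θ g).left * pa (tag _ sec (base (ρ g).c)) (θ g').left
      rw [map_mul, SemidirectProduct.mul_left, hr, ← eq_base hg]
      rfl
    · change (ρ (g * g' : H)).c x = (ρ g).c x * (ρ g').c x
      rw [map_mul, mul_c, hg]
      rfl
  let β : X → RAAG Γ := fun x => b (ω none x)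
  obtain ⟨S', hS'⟩ := hf fun x => (s (ω none x)).2
  refine ⟨K, inferInstance, T', inferInstance, Γ',
    f.comp ((MulAut.conj (SemidirectProduct.inr β⁻¹)).toMonoidHom.comp θ'), S', fun g => ?_⟩
  have hg : (ρ g).p = 1 := g.2
  have e1 : ∀ x, (β x)⁻¹ * (ρ g).c x * β x ∈ PS Γ (s (ω none x)).2 ↔
      sec (ρ g) (ω none) x = ω none x := fun x => by
    rw [sec_apply, hg]
    change _ ↔ (ρ g).c x • ω none x = ω none x
    conv_rhs => rw [hsb (ω none x), smul_rfb, eq_comm, rfb_eq, and_iff_right rfl]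
    rw [mul_assoc]
  rw [MonoidHom.comp_apply, hS']
  have e2 : ((MulAut.conj (SemidirectProduct.inr β⁻¹)).toMonoidHom.comp θ' g).left = 1 ↔
      (g : H) ∈ D.G v := by
    rw [← hl]
    simp [θ', SemidirectProduct.mul_left]
  have e3 : ∀ x, ((MulAut.conj (SemidirectProduct.inr β⁻¹)).toMonoidHom.comp θ' g).right x =
      (β x)⁻¹ * (ρ g).c x * β x := fun x => by
    simp [θ']
  simp only [e2, e3, e1, ← funext_iff]
  exact ⟨fun h => (hω none g h.1).1 h.2, fun h => ⟨hΛ h, (hω none g (hΛ h)).2 h⟩⟩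

end Pool.Agent.P.MP_67c9d4_al.FC
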