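import Pool.Agent.P.MP_67c9d4_al.FC.Iface

/-! A tree action gives a map to a free group extended by the acting group. -/

namespace Pool.Agent.P.MP_67c9d4_al.FC

open Equiv Wr Multiplicative TD

namespace T3Ax
variable {K W Ω : Type} [Group W] {a : W →* Perm Ω}

lemma tag_apply (w : W) (k : K) (x : Ω) : tag K a w (k, x) = (k, a w x) := rfl

lemma comm (w : W) (k : K) (x : Ω) (b : Bool) (h : a w x = x) :
    (.inr w * .inl (lt ((k, x), b)) : FreeGroup (K × Ω) ⋊[pa.comp (tag K a)] W) =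
      .inl (lt ((k, x), b)) * .inr w := by
  ext1
  · simp [pa_lt, tag_apply, h]
  · simp

variable {H V E : Type} [Group H] (D : TD H V E) (a) (ρ : H →* W) (ω : E × Bool → Ω)

/-- The image of an edge. -/
def gam (k : E × Bool) : FreeGroup ((E × Bool) × Ω) ⋊[pa.comp (tag (E × Bool) a)] W :=
  .inl (lt ((k, ω k), k.2)) * .inr (ρ (D.ε k)) * .inl (lt ((bar k, ω (bar k)), k.2))

lemma gam_bar (k : E × Bool) : gam a D ρ ω (bar k) = (gam a D ρ ω k)⁻¹ := by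
  have e1 : lt ((bar k, ω (bar k)), (bar k).2) = (lt ((bar k, ω (bar k)), k.2))⁻¹ :=
    lt_not ((bar k, ω (bar k)), k.2)
  have e2 : lt ((k, ω k), (bar k).2) = (lt ((k, ω k), k.2))⁻¹ := lt_not ((k, ω k), k.2)
  rw [gam, gam, bar_bar, e1, e2, D.inv]
  simp only [map_inv, mul_inv_rev, mul_assoc]

lemma gam_right (k : E × Bool) : (gam a D ρ ω k).right = ρ (D.ε k) := by
  simp [gam]

lemma mul_gam (k : E × Bool) (p : H)
    (x : FreeGroup ((E × Bool) × Ω) ⋊[pa.comp (tag (E × Bool) a)] W) (hx : x.right = ρ p) :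
    (x * gam a D ρ ω k).left = x.left * FreeGroup.mk [((k, a (ρ p) (ω k)), k.2),
      ((bar k, a (ρ (p * D.ε k)) (ω (bar k))), k.2)] := by
  simp [gam, hx, pa_lt, tag_apply, mk_cons, mk_nil, mul_assoc]

variable {D a ρ ω}

lemma gam_conj (hω : ∀ k, ∀ g ∈ D.G (D.vt k), a (ρ g) (ω k) = ω k ↔ g ∈ D.P k) (k : E × Bool)
    (g : H) (hg : g ∈ D.P (bar k)) :
    (.inr (ρ (D.ε k * g * (D.ε k)⁻¹)) :
      FreeGroup ((E × Bool) × Ω) ⋊[pa.comp (tag (E × Bool) a)] W) =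
      gam a D ρ ω k * .inr (ρ g) * (gam a D ρ ω k)⁻¹ := by
  have h1 := (D.conj k g).1 hg
  have c1 := comm (K := E × Bool) (ρ g) (bar k) _ k.2 ((hω _ g (D.le _ hg)).2 hg)
  have c2 := comm (K := E × Bool) _ k _ k.2 ((hω _ _ (D.le _ h1)).2 h1)
  rw [eq_mul_inv_iff_mul_eq, gam, ← mul_assoc, ← mul_assoc, c2, mul_assoc _ _ (SemidirectProduct.inr (ρ g)),
    ← c1]
  simp only [map_mul, map_inv, mul_assoc, inv_mul_cancel_left]

lemma word (hω : ∀ k, ∀ g ∈ D.G (D.vt k), a (ρ g) (ω k) = ω k ↔ g ∈ D.P k)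
    {Ev : V → V → H → FreeGroup ((E × Bool) × Ω) ⋊[pa.comp (tag (E × Bool) a)] W}
    (hM : Mult Ev) (h1 : ∀ v, ∀ g ∈ D.G v, Ev v v g = .inr (ρ g))
    (h2 : ∀ k, Ev (D.vt k) (D.vt (bar k)) (D.ε k) = gam a D ρ ω k)
    (h3 : ∀ u v g, (Ev u v g).right = ρ g) {c : ℕ → (E × Bool) × H} {v : V}
    (h0 : D.vt (c 0).1 = v) (n : ℕ) (hc : D.Seg c (n + 1)) (hp : (c 0).2 ∈ D.G v) :
    ∃ L, FreeGroup.IsReduced (L ++ [((bar (c n).1, a (ρ ((c n).2 * D.ε (c n).1))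
        (ω (bar (c n).1))), (c n).1.2)]) ∧
      (Ev v (D.vt (bar (c n).1)) ((c n).2 * D.ε (c n).1)).left =
        FreeGroup.mk (L ++ [((bar (c n).1, a (ρ ((c n).2 * D.ε (c n).1))
          (ω (bar (c n).1))), (c n).1.2)]) := by
  have e4 : ∀ i, FreeGroup.IsReduced [(((c i).1, a (ρ (c i).2) (ω (c i).1)), (c i).1.2),
      ((bar (c i).1, a (ρ ((c i).2 * D.ε (c i).1)) (ω (bar (c i).1))), (c i).1.2)] := fun i => by
    simp [FreeGroup.IsReduced]
  have e3 : ∀ i, (Ev v (D.vt (bar (c i).1)) ((c i).2 * D.ε (c i).1)).left =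
      (Ev v (D.vt (c i).1) (c i).2).left *
        FreeGroup.mk [(((c i).1, a (ρ (c i).2) (ω (c i).1)), (c i).1.2),
      ((bar (c i).1, a (ρ ((c i).2 * D.ε (c i).1)) (ω (bar (c i).1))), (c i).1.2)] := fun i => by
    rw [← hM v (D.vt (c i).1), h2, mul_gam a D ρ ω _ _ _ (h3 _ _ _)]
  induction n with
  | zero =>
    refine ⟨[_], e4 0, ?_⟩
    rw [e3, h0, h1 v _ hp]
    simp
  | succ n ih =>
    obtain ⟨L, p4, p5⟩ := ih (hc.mono (by omega))
    obtain ⟨⟨l1, l2⟩, l3⟩ := hc n (by omega)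
    have e5 : (Ev v (D.vt (c (n + 1)).1) (c (n + 1)).2).left =
        (Ev v (D.vt (bar (c n).1)) ((c n).2 * D.ε (c n).1)).left := by
      rw [← mul_inv_cancel_left ((c n).2 * D.ε (c n).1) (c (n + 1)).2, ← hM v (D.vt (c (n + 1)).1),
        h1 _ _ l2, l1]
      simp
    refine ⟨L ++ [((bar (c n).1, a (ρ ((c n).2 * D.ε (c n).1)) (ω (bar (c n).1))), (c n).1.2),
      (((c (n + 1)).1, a (ρ (c (n + 1)).2) (ω (c (n + 1)).1)), (c (n + 1)).1.2)], ?_, ?_⟩
    · have := p4.append_overlap (L₃ := [_, _])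
        (FreeGroup.isReduced_cons_cons.2 ⟨fun e => absurd ?_ l3, e4 (n + 1)⟩) (List.cons_ne_nil _ _)
      · simpa using this
      · obtain ⟨e1, e2⟩ := Prod.mk.inj e
        refine same_bot.2 ⟨e1, ?_⟩
        change ((c n).2 * D.ε (c n).1)⁻¹ * (c (n + 1)).2 ∈ D.P (bar (c n).1)
        rw [e1] at e2 ⊢
        refine (hω _ _ l2).1 ?_
        rw [map_mul, map_mul, Perm.mul_apply, ← e2, map_inv, map_inv, Perm.inv_eq_iff_eq]
    · rw [e3, e5, p5, FreeGroup.mul_mk]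
      simp

end T3Ax

theorem s_T3A (hRED : S_RED) : S_T3A := by
  classical
  intro H V E W Ω _ _ D a ρ ω hT hω v
  obtain ⟨Ev, hM, h1, h2⟩ := hT.up _ (fun _ g => SemidirectProduct.inr (ρ g))
    (T3Ax.gam a D ρ ω) (fun _ g _ h _ => by rw [map_mul, map_mul]) (T3Ax.gam_bar a D ρ ω)
    (T3Ax.gam_conj hω)
  have h3 : ∀ u v g, (Ev u v g).right = ρ g := by
    refine hT.ind (fun v g hg => ?_) (fun k => ?_) fun u v w g h a b => ?_
    · rw [h1 v g hg, SemidirectProduct.right_inr]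
    · rw [h2, T3Ax.gam_right]
    · rw [← hM u v w, SemidirectProduct.mul_right, a, b, map_mul]
  refine ⟨hM.hom v, h3 v v, fun h => ⟨fun e => ?_, fun e => ?_⟩⟩
  · rcases hRED H V E D hT v v h with ⟨-, hh⟩ | ⟨n, c, hc, c0, c1, c2, c3⟩
    · exact hh
    · obtain ⟨L, p4, p5⟩ := T3Ax.word hω hM h1 h2 h3 c0 n hc c1
      rw [Mult.hom_apply, ← mul_inv_cancel_left ((c n).2 * D.ε (c n).1) h, ← hM v v, h1 _ _ c3] at e
      rw [c2] at p5
      have e' : FreeGroup.mk (L ++ [((bar (c n).1, a (ρ ((c n).2 * D.ε (c n).1))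
          (ω (bar (c n).1))), (c n).1.2)]) = 1 := by
        rw [← p5]
        simpa using e
      have := congrArg FreeGroup.toWord e'
      rw [FreeGroup.toWord_mk, p4.reduce_eq] at this
      simp at this
  · rw [Mult.hom_apply, h1 v h e, SemidirectProduct.left_inr]

end Pool.Agent.P.MP_67c9d4_al.FC
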