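import Pool.Agent.P.MP_67c9d4_al.FC.Iface

namespace Pool.Agent.P.MP_67c9d4_al.FC

open Equiv Wr Multiplicative TD

namespace TOPHx

theorem eqOn {E W : Type} [Group W] {S : Set E} {f g : FreeGroup E →* W}
    (h : ∀ e ∈ S, f (FreeGroup.of e) = g (FreeGroup.of e)) {w : FreeGroup E} (hw : w ∈ FS S) :
    f w = g w :=
  MonoidHom.eqOn_closure (s := FreeGroup.of '' S) (by rintro _ ⟨e, he, rfl⟩; exact h e he) hw

theorem main (hHEX : S_HEX) (V : Type) (m : ℕ) (o t : Fin m → V) (u : Fin m → FreeGroup (Fin m))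
    (hu : ∀ e, u e ∈ FS {e' | e' < e}) : ∀ r ≤ m, ∃ (H : MG) (η : FreeGroup (Fin m) →* H.H)
    (τ : V → H.H) (j : (B0 V).H →* H.H),
    (∀ e, e.val < r → (η (FreeGroup.of e))⁻¹ * τ (o e) * η (FreeGroup.of e) = η (u e) * τ (t e)) ∧
    Subgroup.closure (Set.range η ∪ Set.range τ) = ⊤ ∧
    (∀ (W : Type) [Group W] (η' : FreeGroup (Fin m) →* W) (τ' : V → W), TRel o t u η' τ' →
      ∃ F : H.H →* W, (∀ e, e.val < r → F (η (FreeGroup.of e)) = η' (FreeGroup.of e)) ∧
        ∀ v, F (τ v) = τ' v) ∧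
    (∀ w, H.χ (η w) = 1) ∧ (∀ v, H.χ (τ v) = ofAdd 1) ∧ (∀ v, j (FreeGroup.of v) = τ v) ∧
    (∀ e, r ≤ e.val → η (FreeGroup.of e) = 1) ∧ PTow (B0 V) (Set.range FreeGroup.of) H j r
  | 0, _ => by
    refine ⟨B0 V, 1, FreeGroup.of, MonoidHom.id _, fun _ h => absurd h (Nat.not_lt_zero _), ?_,
      fun W _ _ τ' _ => ⟨FreeGroup.lift τ', fun _ h => absurd h (Nat.not_lt_zero _),
        fun v => FreeGroup.lift_apply_of⟩, fun w => map_one _, fun v => FreeGroup.lift_apply_of,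
      fun _ => rfl, fun _ _ => rfl, PTow.base⟩
    exact top_le_iff.1 ((FreeGroup.closure_range_of V).ge.trans
      (Subgroup.closure_mono Set.subset_union_right))
  | r + 1, hr => by
    obtain ⟨H, η, τ, j, h1, h2, h3, h4, h5, h6, h7, h8⟩ := main hHEX V m o t u hu r (by omega)
    set e₀ : Fin m := ⟨r, hr⟩ with he
    have hb : H.χ (η (u e₀) * τ (t e₀)) = ofAdd 1 := by rw [map_mul, h4, h5, one_mul]
    obtain ⟨H', i, s, g1, g2, g3⟩ := hHEX H (τ (o e₀)) (η (u e₀) * τ (t e₀)) ((h5 _).trans hb.symm)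
    set ζ : FreeGroup (Fin m) →* H'.H :=
      FreeGroup.lift fun e => if e = e₀ then s else i (η (FreeGroup.of e)) with hζ
    have z0 : ζ (FreeGroup.of e₀) = s := by rw [hζ, FreeGroup.lift_apply_of, if_pos rfl]
    have z1 : ∀ e, e ≠ e₀ → ζ (FreeGroup.of e) = i (η (FreeGroup.of e)) := fun e h => by
      rw [hζ, FreeGroup.lift_apply_of, if_neg h]
    have z2 : ∀ e, e.val ≤ r → ζ (u e) = i (η (u e)) := fun e h =>
      eqOn (g := i.comp η) (fun e' h' => z1 e' fun h'' => by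
        have : e'.val < e.val := h'
        rw [h''] at this
        exact absurd this (not_lt.2 h)) (hu e)
    have cs : ∀ e : Fin m, e.val < r + 1 → e = e₀ ∨ (e.val < r ∧ e ≠ e₀) := fun e h => by
      rcases Nat.lt_succ_iff_lt_or_eq.1 h with h | h
      · exact Or.inr ⟨h, fun h' => by rw [h'] at h; exact lt_irrefl _ h⟩
      · exact Or.inl (Fin.ext h)
    refine ⟨H', ζ, fun v => i (τ v), i.comp j, fun e h => ?_, ?_, fun W _ η' τ' hT => ?_,
      fun w => ?_, fun v => (g2 _).trans (h5 v), fun v => congrArg i (h6 v), fun e h => ?_,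
      PTow.step i _ _ s h8 ⟨_, ⟨o e₀, rfl⟩, by rw [h6]⟩ (h5 _) hb g1 g2 g3⟩
    · rw [z2 e (by omega), ← map_mul]
      rcases cs e h with rfl | ⟨h, h'⟩
      · rw [z0]; exact g1.rel
      · rw [z1 e h', ← h1 e h, map_mul, map_mul, map_inv]
    · rw [← top_le_iff, ← g1.gen, Subgroup.closure_le]
      rintro _ (⟨x, rfl⟩ | rfl)
      · have hx : x ∈ Subgroup.closure (Set.range η ∪ Set.range τ) := h2 ▸ Subgroup.mem_top x
        refine Subgroup.mem_comap.1 ((Subgroup.closure_le (Subgroup.comap i _)).2 ?_ hx)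
        rintro _ (⟨w, rfl⟩ | ⟨v, rfl⟩)
        · have hw : w ∈ Subgroup.closure (Set.range FreeGroup.of) :=
            FreeGroup.closure_range_of _ ▸ Subgroup.mem_top w
          refine Subgroup.mem_comap.2 (Subgroup.mem_comap (f := i.comp η).1
            ((Subgroup.closure_le _).2 ?_ hw))
          rintro _ ⟨e, rfl⟩
          by_cases h : e = e₀
          · refine Subgroup.mem_comap.2 ?_
            rw [MonoidHom.comp_apply, h7 e (by rw [h]), map_one]
            exact one_mem _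
          · exact Subgroup.subset_closure (Or.inl ⟨_, z1 e h⟩)
        · exact Subgroup.subset_closure (Or.inr ⟨v, rfl⟩)
      · exact Subgroup.subset_closure (Or.inl ⟨_, z0⟩)
    · obtain ⟨F, f1, f2⟩ := h3 W η' τ' hT
      have f3 : F (η (u e₀)) = η' (u e₀) := eqOn (f := F.comp η) (fun e h => f1 e h) (hu e₀)
      obtain ⟨G, k1, k2⟩ := g1.up W F (η' (FreeGroup.of e₀)) (by
        rw [map_mul, f2, f2, f3]; exact hT e₀)
      refine ⟨G, fun e h => ?_, fun v => (k1 _).trans (f2 v)⟩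
      rcases cs e h with rfl | ⟨h, h'⟩
      · rw [z0, k2]
      · rw [z1 e h', k1, f1 e h]
    · have : H'.χ.comp ζ = 1 := FreeGroup.ext_hom _ _ fun e => by
        show H'.χ (ζ _) = 1
        by_cases h : e = e₀
        · rw [h, z0, g3]
        · rw [z1 e h, g2, h4]
      exact DFunLike.congr_fun this w
    · rw [z1 e (fun h' => by rw [h'] at h; exact absurd h (Nat.not_succ_le_self r)),
        h7 e (by omega), map_one]

end TOPHx

theorem s_TOPH (hHEX : S_HEX) : S_TOPH := by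
  intro V m o t u hu
  obtain ⟨H, η, τ, j, h1, h2, h3, h4, h5, h6, -, h8⟩ := TOPHx.main hHEX V m o t u hu m le_rfl
  refine ⟨H, η, τ, j, ⟨fun e => h1 e e.2, h2, fun W _ η' τ' hT => ?_, h4, h5⟩, h6, h8⟩
  obtain ⟨F, f1, f2⟩ := h3 W η' τ' hT
  have : F.comp η = η' := FreeGroup.ext_hom _ _ fun e => f1 e e.2
  exact ⟨F, fun w => DFunLike.congr_fun this w, f2⟩

end Pool.Agent.P.MP_67c9d4_al.FC
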