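import Pool.Agent.P.MP_67c9d4_al.FC.Iface

namespace Pool.Agent.P.MP_67c9d4_al.FC

open Equiv Wr Multiplicative TD

namespace UNIFx

variable {H J : Type} [Group H]

lemma smul_mul (N : Subgroup H) [N.Normal] (h : H) (x u : H ⧸ N) : h • (x * u) = (h • x) * u := by
  obtain ⟨a, rfl⟩ := QuotientGroup.mk_surjective x
  obtain ⟨b, rfl⟩ := QuotientGroup.mk_surjective u
  change ((h * (a * b) : H) : H ⧸ N) = ((h * a * b : H) : H ⧸ N)
  rw [mul_assoc]

lemma inv_p (N : Subgroup H) (φ : N →* MZ) (h : H) (x : H ⧸ N) :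
    (Wr.ind N φ h).p⁻¹ x = h⁻¹ • x := by
  rw [← Wr.inv_p, ← map_inv, ind_p]

/-- All translates of the induced characters at once. -/
noncomputable def psi (N : Subgroup H) [N.Normal] (φ : J → N →* MZ) (χ : H →* MZ) :
    H →* Wr (H ⧸ N) (Multiplicative (Option (J × (H ⧸ N)) → ℤ)) :=
  MonoidHom.mk' (fun h => ⟨qa N h, fun x => ofAdd fun i =>
    i.elim (χ h).toAdd fun q => ((Wr.ind N (φ q.1) h).c (x * q.2)).toAdd⟩) fun a b => by
    refine Wr.ext (map_mul (qa N) a b) (funext fun x => ?_)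
    refine toAdd.injective (funext fun i => ?_)
    rcases i with _ | ⟨j, u⟩
    · change (χ (a * b)).toAdd = (χ a).toAdd + (χ b).toAdd
      rw [map_mul, toAdd_mul]
    · change ((Wr.ind N (φ j) (a * b)).c (x * u)).toAdd = ((Wr.ind N (φ j) a).c (x * u)).toAdd +
        ((Wr.ind N (φ j) b).c ((qa N a)⁻¹ x * u)).toAdd
      rw [map_mul, mul_c, toAdd_mul, inv_p, smul_mul, ← map_inv]
      rfl

end UNIFx

open UNIFx in
theorem s_UNIF : S_UNIF := by
  classical
  intro H J _ _ K f χ hK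
  have : (⨅ j, K j).FiniteIndex := Subgroup.finiteIndex_iInf hK
  let N : Subgroup H := (⨅ j, K j).normalCore
  have hN : ∀ j, N ≤ K j := fun j => (Subgroup.normalCore_le _).trans (iInf_le K j)
  have : Finite (H ⧸ N) := inferInstance
  refine ⟨H ⧸ N, Option (J × (H ⧸ N)), Fintype.ofFinite _, inferInstance, Fintype.ofFinite _,
    psi N (fun j => (f j).comp (Subgroup.inclusion (hN j))) χ, none, fun _ _ => rfl,
    fun j x => ⟨some (j, x⁻¹), fun h hx => ?_⟩⟩
  have h1 : h ∈ N := (qa_fix inferInstance x).1 hx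
  refine ⟨hN j h1, ?_⟩
  change ((Wr.ind N ((f j).comp (Subgroup.inclusion (hN j))) h).c (x * x⁻¹)).toAdd = _
  rw [mul_inv_cancel]
  exact congrArg toAdd (ind_c_one N ((f j).comp (Subgroup.inclusion (hN j))) ⟨h, h1⟩)

end Pool.Agent.P.MP_67c9d4_al.FC
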