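import Pool.Agent.P.MP_67c9d4_al.FC.Iface

/-! Vertical elements that centralise a fibre are seen by virtual characters. -/

namespace Pool.Agent.P.MP_67c9d4_al.FC

open Equiv Wr Multiplicative TD

namespace VISx

/-- Left translation on the first factor. -/
def act (H V : Type) [Group H] : H →* Perm (H × V) where
  toFun h := Equiv.prodCongr (Equiv.mulLeft h) (Equiv.refl V)
  map_one' := by ext q <;> simp
  map_mul' a b := by ext q <;> simp [mul_assoc]

lemma act_apply {H V : Type} [Group H] (h : H) (q : H × V) : act H V h q = (h * q.1, q.2) := rfl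

abbrev WW (H V : Type) [Group H] : Type := FreeGroup (H × V) ⋊[pa.comp (act H V)] H

open SemidirectProduct in
/-- The evaluation map. -/
def xi {H V : Type} [Group H] (γ : V → H) : WW H V →* H :=
  SemidirectProduct.lift (FreeGroup.lift fun q : H × V => q.1 * γ q.2 * q.1⁻¹) (MonoidHom.id H)
    fun h => by
      ext q
      simp [pa_of, act_apply, mul_assoc]

lemma xi_inl {H V : Type} [Group H] (γ : V → H) (v : V) :
    xi γ (SemidirectProduct.inl (FreeGroup.of (1, v))) = γ v := by
  simp [xi]

lemma xi_inr {H V : Type} [Group H] (γ : V → H) (h : H) :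
    xi γ (SemidirectProduct.inr h) = h := by
  simp [xi]

end VISx

open SemidirectProduct VISx in
theorem s_VIS (hEMBT : S_EMBT) (hFIXW : S_FIXW) : S_VIS := by
  intro V E N H _ _ o t u v₀ ι D φ η τ χ hu hc hι hr hD hφ h hvr v z hz hz1 hχ
  obtain ⟨J, hJ, hJ1, hJ2⟩ := hEMBT V E N H o t u v₀ ι D φ η τ χ hu hc hι hr hD hφ h
  have h1 : ∀ a b g, GPath o t a b g → η (D g) = τ a * η g * (τ b)⁻¹ := fun a b g hg => by
    induction hg with
    | edge e => rw [hD, map_mul, eq_mul_inv_iff_mul_eq, mul_assoc, ← h.rel e]; group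
    | one v => simp
    | mul _ _ i j => simp only [map_mul, i, j]; group
    | inv _ i => simp only [map_inv, i]; group
  have hDp : ∀ a b g, GPath o t a b g → GPath o t a b (D g) := fun a b g hg => by
    induction hg with
    | edge e => rw [hD]; exact (GPath.edge e).mul (hu e)
    | one v => rw [map_one]; exact GPath.one v
    | mul _ _ i j => rw [map_mul]; exact i.mul j
    | inv _ i => rw [map_inv]; exact i.inv
  choose g hg using hc
  obtain ⟨x, hx⟩ : ∃ x : V → WW H V, ∀ v, x v = inl (FreeGroup.of (1, v)) := ⟨_, fun _ => rfl⟩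
  obtain ⟨η', hη'⟩ : ∃ η' : FreeGroup E →* WW H V, ∀ e, η' (FreeGroup.of e) =
      (x (o e))⁻¹ * inr (η (g (o e)) * η (FreeGroup.of e) * (η (g (t e)))⁻¹) * x (t e) :=
    ⟨FreeGroup.lift _, fun e => FreeGroup.lift_apply_of⟩
  have h2 : ∀ a b w, GPath o t a b w →
      η' w = (x a)⁻¹ * inr (η (g a) * η w * (η (g b))⁻¹) * x b := fun a b w hw => by
    induction hw with
    | edge e => exact hη' e
    | one v => simp
    | mul _ _ i j => simp only [map_mul, map_inv, i, j]; group
    | inv _ i => simp only [map_mul, map_inv, i]; group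
  obtain ⟨Θ, hΘ1, hΘ2⟩ := h.up (WW H V) η'
    (fun v => (x v)⁻¹ * inr (η (g v) * τ v * (η (g v))⁻¹) * x v) fun e => by
      have e1 := congrArg (inr : H →* WW H V) (h.rel e)
      rw [hη', h2 _ _ _ (hu e)]
      simp only [map_mul, map_inv] at e1 ⊢
      have e2 : (inr (τ (o e)) : WW H V) = inr (η (FreeGroup.of e)) *
          (inr (η (u e)) * inr (τ (t e))) * (inr (η (FreeGroup.of e)))⁻¹ := by
        rw [← e1]; group
      rw [e2]; group
  have hΞ : (xi fun v => η (g v)).comp Θ = MonoidHom.id H := by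
    refine MonoidHom.eq_of_eqOn_dense h.gen ?_
    rintro _ (⟨w, rfl⟩ | ⟨v, rfl⟩)
    · have : ((xi fun v => η (g v)).comp Θ).comp η = η := by
        ext e
        simp only [MonoidHom.comp_apply, hΘ1, hη', map_mul, map_inv, hx, xi_inl, xi_inr]
        group
      exact DFunLike.congr_fun this w
    · simp only [MonoidHom.comp_apply, hΘ2, map_mul, map_inv, hx, xi_inl, xi_inr,
        MonoidHom.id_apply]
      group
  obtain ⟨r, hr0⟩ : ∃ r : H →* H, r = rightHom.comp Θ := ⟨_, rfl⟩
  have r1 : ∀ e, r (η (FreeGroup.of e)) = η (g (o e) * FreeGroup.of e * (g (t e))⁻¹) := fun e => by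
    simp [hr0, hΘ1, hη', hx]
  have r2 : ∀ v, r (τ v) = η (g v * (D (g v))⁻¹) * τ v₀ := fun v => by
    rw [map_mul, map_inv, h1 _ _ _ (hg v)]
    simp [hr0, hΘ2, hx, mul_assoc]
  have rχ : χ.comp r = χ := by
    refine MonoidHom.eq_of_eqOn_dense h.gen ?_
    rintro _ (⟨w, rfl⟩ | ⟨v, rfl⟩)
    · have : (χ.comp r).comp η = χ.comp η := by
        ext e
        simp only [MonoidHom.comp_apply, r1, h.ce]
      exact DFunLike.congr_fun this w
    · simp only [MonoidHom.comp_apply, r2, map_mul χ, h.ce, h.ct, one_mul]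
  have lp : ∀ w, GPath o t v₀ v₀ w → η w ∈ J.range := fun w hw => by
    obtain ⟨y, rfl⟩ := (hr w).2 hw
    exact ⟨_, hJ1 y⟩
  have rJ : ∀ y, r y ∈ J.range := by
    have : (⊤ : Subgroup H) ≤ J.range.comap r := by
      rw [← h.gen, Subgroup.closure_le]
      rintro _ (⟨w, rfl⟩ | ⟨v, rfl⟩)
      · change r (η w) ∈ J.range
        induction w using FreeGroup.induction_on with
        | C1 => simp only [map_one]; exact one_mem _
        | of e =>
          rw [r1]
          exact lp _ (((hg _).mul (GPath.edge e)).mul (hg _).inv)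
        | inv_of e i => simp only [map_inv]; exact inv_mem i
        | mul a b i j => simp only [map_mul]; exact mul_mem i j
      · change r (τ v) ∈ J.range
        rw [r2]
        exact mul_mem (lp _ ((hg v).mul (hDp _ _ _ (hg v)).inv)) ⟨_, hJ2⟩
    exact fun y => this (Subgroup.mem_top y)
  obtain ⟨ρ, hρ⟩ := exists_lift hJ r rJ
  have rz : r z ≠ 1 := fun e => by
    have e1 : Θ z = inl (Θ z).left := by
      rw [hr0] at e
      exact SemidirectProduct.ext rfl e
    obtain ⟨c, hcc⟩ : ∃ c, c = η (g v) * τ v * (η (g v))⁻¹ := ⟨_, rfl⟩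
    have e2 := (hz.map Θ).eq
    rw [hΘ2, e1, ← hcc] at e2
    have e3 : pa (act H V c) (FreeGroup.of (1, v) * (Θ z).left * (FreeGroup.of (1, v))⁻¹) =
        FreeGroup.of (1, v) * (Θ z).left * (FreeGroup.of (1, v))⁻¹ := by
      refine (inl_injective : Function.Injective (inl : _ → WW H V)) ?_
      have e4 := inl_aut (φ := pa.comp (act H V)) c
        (FreeGroup.of (1, v) * (Θ z).left * (FreeGroup.of (1, v))⁻¹)
      refine e4.trans ?_
      simp only [map_mul, map_inv, ← hx]
      have e5 : (inr c : WW H V) * x v * inl (Θ z).left =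
          x v * (inl (Θ z).left * ((x v)⁻¹ * inr c * x v)) := by
        rw [e2]; group
      calc (inr c : WW H V) * (x v * inl (Θ z).left * (x v)⁻¹) * (inr c)⁻¹
          = (inr c * x v * inl (Θ z).left) * (x v)⁻¹ * (inr c)⁻¹ := by group
        _ = _ := by rw [e5]; group
    have e6 := hFIXW _ _ _ (fun ω n hn e7 => by
      rw [← map_pow, act_apply] at e7
      have e8 : c ^ n = 1 := by simpa using congrArg Prod.fst e7
      have e9 : χ c = ofAdd 1 := by simp [hcc, h.ce, h.ct]
      have := chi_pow e9 n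
      rw [e8, map_one] at this
      have e10 : (n : ℤ) = 0 := by simpa using (congrArg toAdd this).symm
      omega) e3
    have e11 : (Θ z).left = 1 := by simpa using e6
    rw [e11, map_one] at e1
    have := DFunLike.congr_fun hΞ z
    rw [MonoidHom.comp_apply, e1, map_one] at this
    exact hz1 this.symm
  have χJ : χ.comp J = rightHom := by
    refine SemidirectProduct.hom_ext ?_ ?_
    · ext y
      simp [hJ1, h.ce]
    · ext
      simp [hJ2, h.ct]
  have ρ1 : (ρ z).right = 1 := by
    have a1 := DFunLike.congr_fun χJ (ρ z)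
    have a2 := DFunLike.congr_fun rχ z
    rw [MonoidHom.comp_apply] at a1 a2
    rw [hρ, a2, hχ] at a1
    exact a1.symm
  have ρ2 : ρ z = inl (ρ z).left := SemidirectProduct.ext rfl ρ1
  refine VRat.comap (f := ρ) (hvr _ fun hf => rz ?_)
  rw [ρ2, (inl_injective).isOfFinOrder_iff, ← hι.isOfFinOrder_iff, isOfFinOrder_iff_eq_one] at hf
  rw [← hρ, ρ2, hJ1, hf, map_one]

end Pool.Agent.P.MP_67c9d4_al.FC
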