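import Pool.Agent.P.MP_67c9d4_al.FC.Iface

/-! Virtual preimages of parabolic subgroups are stabilisers of sections. -/

namespace Pool.Agent.P.MP_67c9d4_al.FC

open Equiv Wr Multiplicative TD

namespace VPSx

variable {H X B T : Type} [Group H] [Group B] [MulAction B T]

lemma exists_sec (σ : H →* Wr X B) (Λ : Subgroup H) (x₀ : X) (ω₀ ω₁ : T)
    (h0 : ∀ g, (σ g).p x₀ = x₀ → ((σ g).c x₀ • ω₀ = ω₀ ↔ g ∈ Λ)) (h1 : ∀ b : B, b • ω₁ = ω₁)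
    (h2 : ω₁ ≠ ω₀) : ∃ ω : X → T, ∀ g, sec (σ g) ω = ω ↔ g ∈ Λ := by
  classical
  let ω : X → T := fun x =>
    if hx : ∃ l, l ∈ Λ ∧ (σ l).p x₀ = x then (σ hx.choose).c x • ω₀ else ω₁
  have w1 : ∀ l ∈ Λ, ω ((σ l).p x₀) = (σ l).c ((σ l).p x₀) • ω₀ := fun l hl => by
    have hx : ∃ l', l' ∈ Λ ∧ (σ l').p x₀ = (σ l).p x₀ := ⟨l, hl, rfl⟩
    obtain ⟨m1, m2⟩ := hx.choose_spec
    simp only [ω]
    rw [dif_pos hx]
    generalize hx.choose = m at m1 m2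
    have e : (σ (l⁻¹ * m)).p x₀ = x₀ := by
      rw [map_mul, map_inv, mul_p, inv_p, Perm.mul_apply, m2]; simp
    have := (h0 _ e).2 (Λ.mul_mem (Λ.inv_mem hl) m1)
    have e2 : σ m = σ l * σ (l⁻¹ * m) := by rw [← map_mul, mul_inv_cancel_left]
    rw [e2, mul_c, mul_smul]
    simp only [Perm.coe_inv, symm_apply_apply]
    rw [this]
  have w2 : ∀ x, (¬∃ l, l ∈ Λ ∧ (σ l).p x₀ = x) → ω x = ω₁ := fun x hx => dif_neg hx
  have w0 : ω x₀ = ω₀ := by simpa using w1 1 Λ.one_mem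
  have fx : ∀ m ∈ Λ, sec (σ m) ω = ω := fun m hm => funext fun x => by
    rw [sec_apply]
    by_cases hx : ∃ l, l ∈ Λ ∧ (σ l).p x₀ = x
    · obtain ⟨l, hl, rfl⟩ := hx
      have e : (σ m).p⁻¹ ((σ l).p x₀) = (σ (m⁻¹ * l)).p x₀ := by
        rw [map_mul, map_inv]; rfl
      have e2 : σ l = σ m * σ (m⁻¹ * l) := by rw [← map_mul, mul_inv_cancel_left]
      rw [w1 l hl, e, w1 _ (Λ.mul_mem (Λ.inv_mem hm) hl), ← e, ← mul_smul, ← mul_c, ← e2]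
    · rw [w2 x hx, w2, h1]
      rintro ⟨l, hl, e⟩
      refine hx ⟨m * l, Λ.mul_mem hm hl, ?_⟩
      rw [map_mul, mul_p, Perm.mul_apply, e]; simp
  refine ⟨ω, fun h => ⟨fun hh => ?_, fx h⟩⟩
  by_cases hx : ∃ l, l ∈ Λ ∧ (σ l).p x₀ = (σ h).p⁻¹ x₀
  · obtain ⟨l, hl, e⟩ := hx
    have e1 : (σ (h * l)).p x₀ = x₀ := by rw [map_mul, mul_p, Perm.mul_apply, e]; simp
    have e2 : sec (σ (h * l)) ω = ω := by
      rw [map_mul, map_mul, Perm.mul_apply, fx l hl, hh]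
    have e3 := congrFun e2 x₀
    rw [sec_apply, Perm.inv_eq_iff_eq.2 e1.symm, w0] at e3
    simpa using Λ.mul_mem ((h0 _ e1).1 e3) (Λ.inv_mem hl)
  · have e3 := congrFun hh x₀
    rw [sec_apply, w2 _ hx, h1, w0] at e3
    exact absurd e3 h2

end VPSx

open VPSx in
theorem s_VPS : S_VPS := by
  rintro H _ Λ ⟨K, hK, T, hT, Γ, f, S, hf⟩
  have h1 : (((1 : H) : H ⧸ K)).out ∈ K := by
    have := QuotientGroup.out_eq' (((1 : H) : H ⧸ K))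
    rw [QuotientGroup.eq] at this
    simpa using this
  obtain ⟨ω, hω⟩ := exists_sec (ind K f) Λ ((1 : H) : H ⧸ K) (rfb Γ (true, S) (f ⟨_, h1⟩)⁻¹)
    (rfb Γ (false, Set.univ) 1) (fun g hg => by
      have h2 : g⁻¹ • ((1 : H) : H ⧸ K) = ((1 : H) : H ⧸ K) := by
        rw [inv_smul_eq_iff]; exact hg.symm
      have h3 : g ∈ K := by
        have : ((g⁻¹ * 1 : H) : H ⧸ K) = ((1 : H) : H ⧸ K) := h2
        simpa using QuotientGroup.eq.1 this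
      have : (ind K f g).c ((1 : H) : H ⧸ K) = f (⟨_, h1⟩⁻¹ * ⟨g, h3⟩ * ⟨_, h1⟩) := by
        change f _ = _
        congr 1; ext; simp [h2]
      rw [this, smul_rfb, rfb_eq, ← hf ⟨g, h3⟩, map_mul, map_mul, map_inv]
      simp) (fun b => smul_rfb_univ b false) (fun h => by simpa using (rfb_eq.1 h).1)
  have : Finite (H ⧸ K) := Subgroup.finite_quotient_of_finiteIndex
  exact ⟨T, hT, Γ, H ⧸ K, Fintype.ofFinite _, ind K f, ω, fun g _ => hω g⟩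

end Pool.Agent.P.MP_67c9d4_al.FC
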