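import Pool.Agent.P.MP_67c9d4_al.FC.Iface

/-! The cyclic group of a generic element is virtually a parabolic preimage. -/

namespace Pool.Agent.P.MP_67c9d4_al.FC

open Equiv Wr Multiplicative TD

theorem s_VPY (hRP : S_RP) : S_VPY := by
  intro H _ χ y hV hy hM
  obtain ⟨K, hK, T, hT, Γ, f, S, hf⟩ := hV
  have inj : Function.Injective f := (injective_iff_map_eq_one f).2 fun g hg =>
    Subtype.ext (Subgroup.mem_bot.1 ((hf g).1 (hg ▸ (PS Γ S).one_mem)))
  have hc := FN.core K
  have hm : 0 < K.normalCore.index := Nat.pos_of_ne_zero hc.2.index_ne_zero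
  have hym : y ^ K.normalCore.index ∈ K := Subgroup.normalCore_le K (hc.pow_mem y)
  generalize K.normalCore.index = m at hm hym
  obtain ⟨K', hK', T', hT', Γ', θ, S', hb, h1, h2⟩ := hRP T Γ (f ⟨_, hym⟩)
  obtain ⟨N, hN, hd⟩ := FN.exists_dvd (⊤ : Subgroup H) (χ.comp (⊤ : Subgroup H).subtype) hm
  have := hN.2
  have := fi_comap K' f
  have : ((K'.comap f).map K.subtype).FiniteIndex := by
    constructor
    rw [Subgroup.index_map_subtype]
    exact mul_ne_zero Subgroup.FiniteIndex.index_ne_zero Subgroup.FiniteIndex.index_ne_zero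
  have le : (K'.comap f).map K.subtype ⊓ N ≤ K :=
    inf_le_left.trans (Subgroup.map_subtype_le _)
  have mem : ∀ g, (f.comp (Subgroup.inclusion le)) g ∈ K' := by
    rintro ⟨_, ⟨k, hk, rfl⟩, _⟩
    exact hk
  refine ⟨_, inferInstance, T', hT', Γ',
    θ.comp ((f.comp (Subgroup.inclusion le)).codRestrict K' mem), S',
    fun g => ⟨fun h => ?_, fun h => ?_⟩⟩
  · have c : Commute (f (Subgroup.inclusion le g)) (f ⟨_, hym⟩) := h2 _ h
    have c' : Subgroup.inclusion le g * ⟨_, hym⟩ = ⟨_, hym⟩ * Subgroup.inclusion le g :=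
      inj (by rw [map_mul, map_mul]; exact c)
    refine hM g m (by exact_mod_cast hm.ne') ?_
    rw [zpow_natCast]
    exact congrArg Subtype.val c'
  · obtain ⟨e, he⟩ := Subgroup.mem_zpowers_iff.1 h
    obtain ⟨_, k, hk⟩ := hd g g.2.2
    have hk' : (χ g).toAdd = m * k := hk
    rw [← he, chi_zpow hy, toAdd_ofAdd] at hk'
    have e1 : (f.comp (Subgroup.inclusion le)).codRestrict K' mem g = ⟨_, hb⟩ ^ k := by
      refine Subtype.ext ?_
      rw [SubgroupClass.coe_zpow, ← map_zpow]
      refine congrArg f (Subtype.ext ?_)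
      show (g : H) = (y ^ m) ^ k
      rw [← zpow_natCast, ← zpow_mul, ← hk', he]
    rw [MonoidHom.comp_apply, e1, map_zpow]
    exact zpow_mem h1 k

end Pool.Agent.P.MP_67c9d4_al.FC
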