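import Pool.Agent.P.MP_67c9d4_al.FC.Iface

/-! Two different planes at a vertex are independent in virtual homology. -/

namespace Pool.Agent.P.MP_67c9d4_al.FC

open Equiv Wr Multiplicative TD

namespace VTx

lemma fix_iff {W : Type} (f : Fib W) (g : FreeGroup W) :
    g • f = f ↔ f.2.out⁻¹ * g * f.2.out ∈ FS f.1.2 := by
  rw [← inv_mem_iff, mul_assoc, mul_inv_rev, inv_inv]
  conv_lhs => rw [← fb_out f, smul_fb, fb_eq]
  exact and_iff_right rfl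

lemma ind (hFL : S_FL) {H W I : Type} [Group H] [Finite W] [Finite I] (ρ : H →* Wr I (FreeGroup W))
    (ω : I → Fib W) (a : H) (Bs : Subgroup H) (h1 : ∀ g ∈ Bs, sec (ρ g) ω = ω)
    (h2 : sec (ρ (a ^ Nat.card (Perm I))) ω ≠ ω) : Ind1 a Bs := by
  set n := Nat.card (Perm I)
  have p : (ρ (a ^ n)).p = 1 := per_card ρ a
  obtain ⟨x, hx⟩ := Function.ne_iff.1 h2
  rw [sec_apply, p, inv_one, Perm.one_apply, Ne, fix_iff] at hx
  obtain ⟨K', hK, f', k1, k2⟩ := hFL W _ _ hx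
  set u := (ω x).2.out
  let φ : stb ρ x →* FreeGroup W := (MulAut.conj u⁻¹).toMonoidHom.comp (stH ρ x)
  have hφ : ∀ g : stb ρ x, φ g = u⁻¹ * (ρ g).c x * u := fun g => by simp [φ]
  let e := (K'.comap φ).equivMapOfInjective (stb ρ x).subtype Subtype.val_injective
  have he : ∀ g : (K'.comap φ).map (stb ρ x).subtype, ((e.symm g : stb ρ x) : H) = g := fun g =>
    congrArg Subtype.val (e.apply_symm_apply g)
  have := fi_comap K' φ
  have := stb_fi ρ x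
  refine ⟨(K'.comap φ).map (stb ρ x).subtype, ⟨by
    rw [Subgroup.index_map_subtype]
    exact mul_ne_zero Subgroup.FiniteIndex.index_ne_zero Subgroup.FiniteIndex.index_ne_zero⟩,
    (f'.comp (φ.subgroupComap K')).comp e.symm.toMonoidHom, fun b hb => k1 _ ?_, fun M hM M0 e0 => ?_⟩
  · have q : (ρ b).p⁻¹ x = x :=
      Perm.inv_eq_iff_eq.2 (mem_stb.1 (he b ▸ (e.symm b : stb ρ x).2)).symm
    have := congrFun (h1 b hb) x
    rw [sec_apply, q, fix_iff] at this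
    change φ (e.symm b) ∈ _
    rwa [hφ, he]
  · have t : φ (e.symm ⟨_, hM⟩) ^ n = (u⁻¹ * (ρ (a ^ n)).c x * u) ^ M := by
      rw [← map_pow, hφ, Subgroup.coe_pow, he]
      have : (a ^ M) ^ n = (a ^ n) ^ M := by
        rw [← zpow_natCast, ← zpow_natCast, ← zpow_mul, ← zpow_mul, mul_comm]
      rw [this, map_zpow, (c_zpow_fix (by rw [p]; rfl) M).2]
      simpa using (conj_zpow (a := u⁻¹) (b := (ρ (a ^ n)).c x) (i := M)).symm
    have m : φ (e.symm ⟨_, hM⟩) ∈ K' := (e.symm ⟨_, hM⟩).2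
    refine k2 M (t ▸ K'.pow_mem m n) M0 ?_
    have e1 : f' ⟨_, m⟩ = 1 := e0
    have : (⟨_, t ▸ K'.pow_mem m n⟩ : K') = ⟨_, m⟩ ^ n := Subtype.ext t.symm
    rw [this, map_pow, e1, one_pow]

end VTx

theorem s_VT (hFL : S_FL) : S_VT := by
  rintro B V A K _ χ b ⟨W, I, _, _, ρ, h, -⟩ k₁ k₂ w hv hw hn
  obtain ⟨ω, hω⟩ := h k₂
  have c : ∀ g, sec (ρ g) (sec (ρ (b.ℓ w)) ω) = sec (ρ (b.ℓ w)) ω ↔
      sec (ρ ((b.ℓ w)⁻¹ * g * b.ℓ w)) ω = ω := fun g => by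
    simp only [map_mul, map_inv, Perm.mul_apply, Perm.inv_eq_iff_eq]
  refine VTx.ind hFL ρ (sec (ρ (b.ℓ w)) ω) _ _ (fun g hg => ?_) fun e => hn ?_
  · obtain ⟨i, j, e⟩ := (b.mem_Pl).1 (mem_cj.1 hg)
    rw [c, e, ← map_zpow]
    exact (hω _ (Subgroup.zpow_mem _ (b.z_mem k₂) i) j).2 (Subgroup.zpow_mem_zpowers _ _)
  · rw [c, ← map_inv, ← map_pow, ← map_mul, ← map_mul] at e
    obtain ⟨j, hj⟩ := (hω _ (hv ▸ mul_mem (mul_mem (inv_mem hw) (pow_mem (b.z_mem k₁) _)) hw) 0).1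
      (by rwa [zpow_zero, mul_one])
    have := b.maln k₁ k₂ w⁻¹ (Nat.card (Perm I)) j (by exact_mod_cast Nat.card_pos.ne')
      (by rw [inv_inv, zpow_natCast]; exact hj.symm)
    exact ⟨this.1, inv_mem_iff.1 this.2⟩

end Pool.Agent.P.MP_67c9d4_al.FC
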