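import Pool.Agent.P.MP_67c9d4_al.FC.Iface

/-! Two marked points lie in different cycles of a deep cyclic extension. -/

namespace Pool.Agent.P.MP_67c9d4_al.FC

open Equiv Wr Multiplicative TD

theorem s_W1 : S_W1 := by
  classical
  intro Ω _ T D e q g he hq hc h1 h2 a ha b hb hab y₀ hs
  have : NeZero q := ⟨hq.ne'⟩
  obtain ⟨i, -, hi⟩ := hs.exists_pow_eq'
  let p : ℕ → Prop := fun k => T^[k] a ∈ D
  have e1 : ∀ n : ℕ, (g ^ n) (a, y₀) = (T^[n] a, y₀ + e * Nat.count p n) := by
    intro n
    induction n with
    | zero => simp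
    | succ n ih =>
      rw [pow_succ', Perm.mul_apply, ih, Function.iterate_succ_apply', Nat.count_succ]
      by_cases h : p n
      · rw [h1 _ _ h, if_pos h]
        congr 1
        push_cast
        ring
      · rw [h2 _ _ h, if_neg h, add_zero]
  rw [e1, Prod.mk.injEq, add_eq_left] at hi
  have e2 : q ∣ Nat.count p i := by
    rw [← ZMod.natCast_eq_zero_iff]
    rcases he with rfl | rfl <;> simpa using hi.2
  set m := Function.minimalPeriod T a with hm
  have m0 : 0 < m := Function.minimalPeriod_pos_of_mem_periodicPts (T.injective.mem_periodicPts a)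
  have e3 : ∀ x, Nat.count p (m + x) = Nat.count p m + Nat.count p x := fun x => by
    rw [Nat.count_add]
    congr 2
    funext k
    simp only [p]
    rw [add_comm, Function.iterate_add_apply, hm, Function.iterate_minimalPeriod]
  have e4 : ∀ u r, Nat.count p (m * u + r) = Nat.count p m * u + Nat.count p r := fun u r => by
    induction u with
    | zero => simp
    | succ u ih => rw [show m * (u + 1) + r = m + (m * u + r) by ring, e3, ih]; ring
  have p0 : Nat.count p 1 = 1 := by rw [Nat.count_succ, Nat.count_zero, if_pos (show p 0 from ha)]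
  have c0 : 0 < Nat.count p m := p0.symm.trans_le (Nat.count_monotone p m0)
  have c1 : Nat.count p m ≤ D.ncard := by
    rw [Nat.count_eq_card_filter_range, ← Set.ncard_coe_finset]
    refine Set.ncard_le_ncard_of_injOn (fun k => T^[k] a) (fun k hk => ?_) fun k hk l hl h => ?_
    · exact (Finset.mem_filter.1 hk).2
    · exact Function.iterate_injOn_Iio_minimalPeriod
        (Finset.mem_range.1 (Finset.mem_filter.1 hk).1)
        (Finset.mem_range.1 (Finset.mem_filter.1 hl).1) h
  have e5 : Nat.count p m ∣ Nat.count p (i % m) := by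
    have h := (hc _ c0 c1).trans e2
    rw [← Nat.div_add_mod i m, e4] at h
    exact (Nat.dvd_add_right (dvd_mul_right _ _)).1 h
  have e6 : T^[i % m] a = b := by rw [hm, Function.iterate_mod_minimalPeriod_eq, hi.1]
  have r0 : 0 < i % m := Nat.pos_of_ne_zero fun h => hab (by rw [← e6, h]; rfl)
  have c2 : 0 < Nat.count p (i % m) := p0.symm.trans_le (Nat.count_monotone p r0)
  have c3 := Nat.count_monotone p (Nat.succ_le_of_lt (Nat.mod_lt i m0))
  rw [Nat.count_succ, if_pos (show p (i % m) from (e6 ▸ hb : T^[i % m] a ∈ D))] at c3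
  have := Nat.le_of_dvd c2 e5
  omega

end Pool.Agent.P.MP_67c9d4_al.FC
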