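import Pool.Agent.P.MP_67c9d4_al.FC.Iface

/-! Coboundaries for permutations. -/

namespace Pool.Agent.P.MP_67c9d4_al.FC

open Equiv Wr Multiplicative TD

namespace W2x

variable {Ω : Type} (T : Perm Ω) (c : Ω → ℤ)

/-- Sums along an orbit. -/
def sm (a : Ω) (k : ℕ) : ℤ := ∑ i ∈ Finset.range k, c ((T ^ i) a)

lemma sm_add (a : Ω) (k d : ℕ) : sm T c a (k + d) = sm T c a k + sm T c ((T ^ k) a) d := by
  rw [sm, Finset.sum_range_add]
  congr 1
  refine Finset.sum_congr rfl fun i _ => ?_
  rw [add_comm, pow_add, Perm.mul_apply]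

variable {T c}

lemma sm_zero [Finite Ω]
    (h : ∀ a (S : Finset Ω), (∀ ω, ω ∈ S ↔ T.SameCycle a ω) → ∑ ω ∈ S, c ω = 0) {a : Ω} {d : ℕ}
    (hd : (T ^ d) a = a) : sm T c a d = 0 := by
  classical
  have hp : 0 < Function.minimalPeriod T a := Function.minimalPeriod_pos_of_mem_periodicPts
    (Function.Injective.mem_periodicPts T.injective a)
  have h1 : sm T c a (Function.minimalPeriod T a) = 0 := by
    rw [← h a ((Finset.range (Function.minimalPeriod T a)).image fun i => (T ^ i) a), sm,
      Finset.sum_image]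
    · intro i hi j hj e
      exact Function.iterate_injOn_Iio_minimalPeriod (f := T) (x := a) (by simpa using hi)
        (by simpa using hj) (by simpa [Perm.iterate_eq_pow] using e)
    · intro ω
      rw [Finset.mem_image]
      constructor
      · rintro ⟨i, -, rfl⟩
        exact ⟨i, by rw [zpow_natCast]⟩
      · intro hω
        obtain ⟨i, -, rfl⟩ := hω.exists_pow_eq'
        refine ⟨i % Function.minimalPeriod T a, Finset.mem_range.2 (Nat.mod_lt _ hp), ?_⟩
        have := Function.iterate_mod_minimalPeriod_eq (f := T) (x := a) (n := i)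
        rwa [Perm.iterate_eq_pow, Perm.iterate_eq_pow] at this
  have h2 : ∀ r, (T ^ (Function.minimalPeriod T a * r)) a = a := fun r => by
    have := (Function.isPeriodicPt_minimalPeriod T a).mul_const r
    simpa [Function.IsPeriodicPt, Function.IsFixedPt, Perm.iterate_eq_pow] using this
  have h3 : Function.IsPeriodicPt T d a := by
    simpa [Function.IsPeriodicPt, Function.IsFixedPt, Perm.iterate_eq_pow] using hd
  obtain ⟨r, rfl⟩ := h3.minimalPeriod_dvd
  clear h3 hd
  induction r with
  | zero => simp [sm]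
  | succ r ih => rw [mul_add, mul_one, sm_add, ih, h2, h1, add_zero]

lemma sm_eq [Finite Ω]
    (h : ∀ a (S : Finset Ω), (∀ ω, ω ∈ S ↔ T.SameCycle a ω) → ∑ ω ∈ S, c ω = 0) {a : Ω} {k l : ℕ}
    (e : (T ^ k) a = (T ^ l) a) : sm T c a k = sm T c a l := by
  wlog hkl : k ≤ l generalizing k l
  · exact (this e.symm (le_of_not_ge hkl)).symm
  obtain ⟨d, rfl⟩ := Nat.exists_eq_add_of_le hkl
  rw [sm_add, sm_zero (d := d) h, add_zero]
  rw [← Perm.mul_apply, ← pow_add, add_comm, ← e]

end W2x

open W2x in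
theorem s_W2 : S_W2 := by
  classical
  refine ⟨?_, fun Ω _ T c h => ?_⟩
  · rintro Ω _ g a b c hab ⟨γ, hγ⟩
    have hba : a ≠ b := by rintro rfl; exact hab (Perm.SameCycle.refl _ _)
    refine ⟨fun ω => γ ω + if g.SameCycle a ω then γ (g b) - γ (g a) else 0, fun ω => ?_⟩
    simp only [Perm.mul_apply, Perm.sameCycle_apply_right]
    by_cases h1 : ω = a
    · subst h1
      rw [swap_apply_left, if_neg hab, if_pos (Perm.SameCycle.refl _ _), hγ]; ring
    by_cases h2 : ω = b
    · subst h2
      rw [swap_apply_right, if_neg hab, if_pos (Perm.SameCycle.refl _ _), hγ]; ring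
    rw [swap_apply_of_ne_of_ne h1 h2, hγ]; ring
  · let r : Ω → Ω := fun ω => (Quotient.mk (Perm.SameCycle.setoid T) ω).out
    have h1 : ∀ ω, ∃ k : ℕ, (T ^ k) (r ω) = ω := fun ω => by
      have : T.SameCycle (r ω) ω := 
        Quotient.exact (Quotient.out_eq (Quotient.mk (Perm.SameCycle.setoid T) ω))
      obtain ⟨k, -, e⟩ := this.exists_pow_eq'
      exact ⟨k, e⟩
    have h2 : ∀ ω, r (T ω) = r ω := fun ω => congrArg Quotient.out (Quotient.sound
      (show T.SameCycle (T ω) ω from Perm.sameCycle_apply_left.2 (Perm.SameCycle.refl _ _)))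
    choose k hk using h1
    refine ⟨fun ω => sm T c (r ω) (k ω), fun ω => ?_⟩
    have e : (T ^ k (T ω)) (r ω) = (T ^ (k ω + 1)) (r ω) := by
      rw [pow_succ', Perm.mul_apply, hk, ← h2, hk]
    simp only [h2]
    rw [sm_eq h e, sm_add, hk]
    simp [sm]

end Pool.Agent.P.MP_67c9d4_al.FC
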