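import Pool.Agent.P.MP_67c9d4_al.FC.Iface

/-! Merging two cycles in a cyclic cover lowers the number of orbits. -/

namespace Pool.Agent.P.MP_67c9d4_al.FC

open Equiv Wr Multiplicative TD

theorem s_W3 : S_W3 := by
  intro Ω _ T D e q _ g he hq hin hout hu a ha b hb hab y₀
  haveI : NeZero q := ⟨hq.ne'⟩
  set h := g * swap (a, y₀) (b, y₀) with hh
  have uq : ∀ d ∈ D, ∀ d' ∈ D, T.SameCycle d d' → d = d' := fun d hd d' hd' c =>
    (hu d).unique ⟨hd, Perm.SameCycle.rfl⟩ ⟨hd', c⟩
  have step : ∀ p, h.SameCycle p (h p) := fun p => Perm.SameCycle.rfl.apply_right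
  have s0 : ∀ (k : ℕ) ω y, ∀ d ∈ D, (T ^ k) ω = d → h.SameCycle (ω, y) (d, y) := by
    intro k
    induction k with
    | zero => rintro ω y d - rfl; exact Perm.SameCycle.rfl
    | succ k ih =>
      intro ω y d hd e1
      by_cases hω : ω ∈ D
      · rw [uq ω hω d hd ⟨(k + 1 : ℕ), by rw [zpow_natCast, e1]⟩]
      · have e2 : h (ω, y) = (T ω, y) := by
          rw [hh, Perm.mul_apply, swap_apply_of_ne_of_ne, hout _ _ hω]
          · exact fun c => hω ((Prod.mk.inj c).1 ▸ ha)
          · exact fun c => hω ((Prod.mk.inj c).1 ▸ hb)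
        refine (step _).trans ?_
        rw [e2]
        exact ih _ _ d hd (by rw [← e1, pow_succ, Perm.mul_apply])
  have s1 : ∀ ω y, ∀ d ∈ D, T.SameCycle ω d → h.SameCycle (ω, y) (d, y) := fun ω y d hd c => by
    obtain ⟨k, hk⟩ := c.exists_nat_pow_eq
    exact s0 k ω y d hd hk
  have s2 : ∀ d ∈ D, ∀ y, h.SameCycle (T d, y) (d, y) := fun d hd y =>
    s1 _ _ d hd Perm.SameCycle.rfl.apply_left
  have s3 : ∀ d ∈ D, ∀ (k : ℕ) (y : ZMod q), y + k * e = y₀ → h.SameCycle (d, y) (d, y₀) := by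
    intro d hd k
    induction k with
    | zero => intro y e1; rw [← e1]; simpa using Perm.SameCycle.rfl
    | succ k ih =>
      intro y e1
      by_cases hy : y = y₀
      · rw [hy]
      · have e2 : h (d, y) = (T d, y + e) := by
          rw [hh, Perm.mul_apply, swap_apply_of_ne_of_ne, hin _ _ hd]
          · exact fun c => hy (Prod.mk.inj c).2
          · exact fun c => hy (Prod.mk.inj c).2
        refine (step _).trans ?_
        rw [e2]
        exact (s2 d hd _).trans (ih _ (by rw [← e1]; push_cast; ring))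
  have s4 : ∀ d ∈ D, ∀ y, h.SameCycle (d, y) (d, y₀) := fun d hd y => by
    refine s3 d hd ((y₀ - y) * e).val y ?_
    rw [ZMod.natCast_zmod_val]
    rcases he with rfl | rfl <;> push_cast <;> ring
  have s5 : h.SameCycle (a, y₀) (b, y₀) := by
    refine (step _).trans ?_
    rw [hh, Perm.mul_apply, swap_apply_left, hin _ _ hb]
    exact (s2 b hb _).trans (s4 b hb _)
  let φ : Quotient (Perm.SameCycle.setoid T) → Quotient (Perm.SameCycle.setoid h) :=
    Quotient.map (fun ω => (ω, y₀)) fun ω ω' c => by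
      obtain ⟨d, ⟨hd, c1⟩, -⟩ := hu ω
      exact (s1 ω y₀ d hd c1).trans (s1 ω' y₀ d hd ((c : T.SameCycle ω ω').symm.trans c1)).symm
  have hs : Function.Surjective φ := by
    rintro ⟨ω, y⟩
    obtain ⟨d, ⟨hd, c1⟩, -⟩ := hu ω
    exact ⟨Quotient.mk _ d, Quotient.sound ((s1 ω y d hd c1).trans (s4 d hd y)).symm⟩
  have hi : ¬Function.Injective φ := fun c =>
    hab (uq a ha b hb (Quotient.exact
      (c (a₁ := Quotient.mk _ a) (a₂ := Quotient.mk _ b) (Quotient.sound s5))))
  haveI := Fintype.ofFinite (Quotient (Perm.SameCycle.setoid T))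
  haveI := Fintype.ofFinite (Quotient (Perm.SameCycle.setoid h))
  rw [norb, norb, Nat.card_eq_fintype_card, Nat.card_eq_fintype_card]
  exact Fintype.card_lt_of_surjective_not_injective φ hs hi

end Pool.Agent.P.MP_67c9d4_al.FC
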