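import Pool.Agent.P.MP_67c9d4_al.FC.Iface

/-! The end of the window argument: saturated orbits have cost zero. -/

namespace Pool.Agent.P.MP_67c9d4_al.FC

open Equiv Wr Multiplicative TD

namespace WENDx

variable {W F : Type} {R : W → F → F → Prop}

/-- One letter changes the state inside its class. -/
lemma step (hR : ∀ l, Equivalence (R l)) (C : Cfg R) (k : W × Bool) (z : C.Z) :
    R k.1 (C.st z) (C.st ((FreeGroup.lift C.Φ (lt k))⁻¹ z)) := by
  obtain ⟨l, b⟩ := k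
  cases b
  · have := (hR l).symm (C.ok l z)
    simpa [lt] using this
  · have := C.ok l ((C.Φ l)⁻¹ z)
    simpa [lt] using this

end WENDx

theorem s_WEND (hW2 : S_W2) : S_WEND := by
  intro W F _ R n _ w β hR hS C hC
  classical
  have := C.fin
  have := Fintype.ofFinite C.Z
  refine hW2.2 _ (C.T w) _ fun a O hO => ?_
  have h1 : ∀ i z z', R (w i).1 (C.st z) (C.st z') → (i, z) ∈ O → (i, z') ∈ O :=
    fun i z z' h e => (hO _).2 (((hO _).1 e).trans (hC i z z' h))
  have h2 : ∀ i z, (i, z) ∈ O ↔ (i + 1, z) ∈ O := fun i z => by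
    have e : ∀ z, (i, z) ∈ O ↔ (i + 1, (FreeGroup.lift C.Φ (lt (w i)))⁻¹ z) ∈ O := fun z => by
      rw [hO, hO]
      exact (Perm.sameCycle_apply_right (f := C.T w) (y := (i, z))).symm
    obtain ⟨z', rfl⟩ := (FreeGroup.lift C.Φ (lt (w i)))⁻¹.surjective z
    rw [← e]
    exact ⟨h1 _ _ _ ((hR _).symm (WENDx.step hR C _ _)), h1 _ _ _ (WENDx.step hR C _ _)⟩
  have h3 : ∀ i z, (i, z) ∈ O ↔ ((0 : ZMod n), z) ∈ O := fun i z => by
    obtain ⟨k, rfl⟩ := ZMod.natCast_zmod_surjective i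
    induction k with
    | zero => rw [Nat.cast_zero]
    | succ k ih => rw [Nat.cast_succ, ← h2, ih]
  set S : Finset F := Finset.univ.filter fun f => ∃ z, ((0 : ZMod n), z) ∈ O ∧ C.st z = f with hs
  have h4 : ∀ i z, (i, z) ∈ O ↔ C.st z ∈ S := fun i z => by
    rw [h3, hs, Finset.mem_filter]
    exact ⟨fun h => ⟨Finset.mem_univ _, z, h, rfl⟩,
      fun ⟨_, z', h, e⟩ => h1 0 z' z (e ▸ (hR _).refl _) h⟩
  have h5 : ∀ f, ∃ z, C.st z = f := fun f => by
    have : Nat.card {z // C.st z = f} ≠ 0 := by rw [C.fib]; exact C.pos.ne'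
    obtain ⟨z, hz⟩ := (Nat.card_ne_zero.1 this).1
    exact ⟨z, hz⟩
  have h6 := hS S fun i f f' h e => by
    obtain ⟨z, rfl⟩ := h5 f
    obtain ⟨z', rfl⟩ := h5 f'
    exact (h4 i z').1 (h1 i z z' h ((h4 i z).2 e))
  have h7 : O = Finset.univ ×ˢ Finset.univ.filter fun z => C.st z ∈ S := by
    ext ⟨i, z⟩
    simp [h4]
  rw [h7, Finset.sum_product_right, ← Finset.sum_fiberwise_of_maps_to (g := C.st) (t := S)
    fun z hz => (Finset.mem_filter.1 hz).2, ← mul_zero (C.m : ℤ), ← h6, Finset.mul_sum]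
  refine Finset.sum_congr rfl fun f hf => ?_
  rw [Finset.sum_congr rfl (g := fun _ => ∑ i, β i f) fun z hz => by
    rw [← (Finset.mem_filter.1 hz).2], Finset.sum_const, nsmul_eq_mul, ← C.fib f,
    Nat.card_eq_fintype_card, Fintype.card_subtype, Finset.filter_filter]
  rw [Finset.filter_congr (q := fun z => C.st z = f) fun z _ =>
    ⟨fun h => h.2, fun h => ⟨h ▸ hf, h⟩⟩]

end Pool.Agent.P.MP_67c9d4_al.FC
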