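import Pool.Agent.P.MP_67c9d4_al.FC.Iface

/-! An automaton that kills all circles. -/

namespace Pool.Agent.P.MP_67c9d4_al.FC

open Equiv Wr Multiplicative TD

theorem s_WIN (hWSTEP : S_WSTEP) (hWEND : S_WEND) : S_WIN := by
  classical
  intro W F J _ _ R n _ w β hR hw hS
  have := Fintype.ofFinite J
  have key : ∀ s : Finset J, ∃ C : Cfg R, ∀ j ∈ s, C.Kl (w j) (β j) := fun s => by
    induction s using Finset.induction_on with
    | empty =>
      exact ⟨⟨F, inferInstance, fun _ => 1, id, 1, one_pos, fun f => by simp,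
        fun l z => (hR l).refl z⟩, by simp⟩
    | insert j₀ s _ ih =>
      obtain ⟨C, hC⟩ := ih
      induction hm : norb (C.T (w j₀)) using Nat.strong_induction_on generalizing C with
      | _ m ih =>
        by_cases h : ∀ i z z', R (w j₀ i).1 (C.st z) (C.st z') →
          (C.T (w j₀)).SameCycle (i, z) (i, z')
        · exact ⟨C, (Finset.forall_mem_insert _ _ _).2
            ⟨hWEND W F R _ (w j₀) (β j₀) hR (hS j₀) C h, hC⟩⟩
        · push Not at h
          obtain ⟨i, z, z', h1, h2⟩ := h
          obtain ⟨C', h3, h4⟩ := hWSTEP W F J R n w hR hw C j₀ i z z' h1 h2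
          exact ih _ (hm ▸ h3) C' (fun j hj => h4 j _ (hC j hj)) rfl
  exact (key Finset.univ).imp fun C h j => h j (Finset.mem_univ j)

end Pool.Agent.P.MP_67c9d4_al.FC
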