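import Pool.Agent.P.MP_67c9d4_al.FC.Iface

/-! One merging step for finite automata. -/

namespace Pool.Agent.P.MP_67c9d4_al.FC

open Equiv Wr Multiplicative TD

namespace WSTEPx

theorem reps {Ω : Type} (r : Setoid Ω) (A : Set Ω) (hA : ∀ ω, ∃ d ∈ A, r ω d) {a b : Ω}
    (ha : a ∈ A) (hb : b ∈ A) (hab : ¬r a b) :
    ∃ D : Set Ω, D ⊆ A ∧ a ∈ D ∧ b ∈ D ∧ ∀ ω, ∃! d, d ∈ D ∧ r ω d := by
  classical
  have h1 : ∀ c : Quotient r, ∃ d ∈ A, Quotient.mk r d = c ∧ (c = Quotient.mk r a → d = a) ∧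
      (c = Quotient.mk r b → d = b) := by
    intro c
    by_cases h : c = Quotient.mk r a
    · exact ⟨a, ha, h.symm, fun _ => rfl, fun h' => (hab (Quotient.exact (h.symm.trans h'))).elim⟩
    by_cases h' : c = Quotient.mk r b
    · exact ⟨b, hb, h'.symm, fun h'' => (h h'').elim, fun _ => rfl⟩
    obtain ⟨ω, rfl⟩ := Quotient.exists_rep c
    obtain ⟨d, h2, h3⟩ := hA ω
    exact ⟨d, h2, (Quotient.sound h3).symm, fun h'' => (h h'').elim, fun h'' => (h' h'').elim⟩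
  choose f h2 h3 h4 h5 using h1
  refine ⟨Set.range f, ?_, ⟨_, h4 _ rfl⟩, ⟨_, h5 _ rfl⟩, fun ω =>
    ⟨f (Quotient.mk r ω), ⟨⟨_, rfl⟩, Quotient.exact (h3 _).symm⟩, ?_⟩⟩
  · rintro _ ⟨c, rfl⟩
    exact h2 c
  · rintro _ ⟨⟨c, rfl⟩, h6⟩
    rw [Quotient.sound h6, h3]

theorem cob_conj {Ω Ω' : Type} (e : Ω ≃ Ω') {T : Perm Ω} {T' : Perm Ω'}
    (h : ∀ ω, T' (e ω) = e (T ω)) {c : Ω' → ℤ} (hc : Cob T fun ω => c (e ω)) : Cob T' c := by
  obtain ⟨γ, hγ⟩ := hc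
  refine ⟨fun ω => γ (e.symm ω), fun ω => ?_⟩
  obtain ⟨ω, rfl⟩ := e.surjective ω
  simpa [h] using hγ ω

theorem norb_conj {Ω Ω' : Type} (e : Ω ≃ Ω') {T : Perm Ω} {T' : Perm Ω'}
    (h : ∀ ω, T' (e ω) = e (T ω)) : norb T' = norb T := by
  have h1 : T' = e.permCongrHom T := by
    ext ω
    obtain ⟨ω, rfl⟩ := e.surjective ω
    simp [h]
  have h2 : ∀ (k : ℤ) ω, (T' ^ k) (e ω) = e ((T ^ k) ω) := fun k ω => by
    rw [h1, ← map_zpow]
    simp
  refine (Nat.card_congr (Quotient.congr e fun a b => ?_)).symm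
  exact exists_congr fun k => by rw [h2, e.apply_eq_iff_eq]

theorem key {n q : ℕ} {Z : Type} [DecidableEq (Z × ZMod q)]
    [DecidableEq ((ZMod n × Z) × ZMod q)] (T : Perm (ZMod n × Z))
    (T' : Perm (ZMod n × (Z × ZMod q))) (σ : ZMod n → Perm Z) (σ' : ZMod n → Perm (Z × ZMod q))
    (hT : ∀ k x, T (k, x) = (k + 1, σ k x)) (hT' : ∀ k p, T' (k, p) = (k + 1, σ' k p))
    (i : ZMod n) (D : Set Z) (e : ZMod q) (a b : Z) (y₀ : ZMod q) (G : Perm (Z × ZMod q))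
    (hG : ∀ x y, x ∈ D → G (x, y) = (σ i x, y + e)) (hG' : ∀ x y, x ∉ D → G (x, y) = (σ i x, y))
    (h1 : σ' i = G * swap (a, y₀) (b, y₀)) (h2 : ∀ k, k ≠ i → ∀ x y, σ' k (x, y) = (σ k x, y)) :
    ∃ g : Perm ((ZMod n × Z) × ZMod q),
      (∀ ω y, ω ∈ {ω : ZMod n × Z | ω.1 = i ∧ ω.2 ∈ D} → g (ω, y) = (T ω, y + e)) ∧
      (∀ ω y, ω ∉ {ω : ZMod n × Z | ω.1 = i ∧ ω.2 ∈ D} → g (ω, y) = (T ω, y)) ∧
      ∀ ω, T' (prodAssoc _ _ _ ω) =
        prodAssoc _ _ _ ((g * swap ((i, a), y₀) ((i, b), y₀)) ω) := by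
  classical
  let g : Perm ((ZMod n × Z) × ZMod q) :=
    prodShear T fun ω => Equiv.addRight (if ω.1 = i ∧ ω.2 ∈ D then e else 0)
  have hg : ∀ ω y, g (ω, y) = (T ω, y + if ω.1 = i ∧ ω.2 ∈ D then e else 0) := fun ω y => rfl
  refine ⟨g, fun ω y (h : _ ∧ _) => by rw [hg, if_pos h],
    fun ω y (h : ¬(_ ∧ _)) => by rw [hg, if_neg h, add_zero], ?_⟩
  rintro ⟨⟨k, x⟩, y⟩
  rw [Perm.mul_apply, prodAssoc_apply, hT']
  by_cases hk : k = i
  · subst hk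
    have hf : Function.Injective fun p : Z × ZMod q => ((k, p.1), p.2) := fun p p' h => by
      simp only [Prod.mk.injEq, true_and] at h
      exact Prod.ext h.1 h.2
    rw [← hf.map_swap (a, y₀) (b, y₀) (x, y), h1, Perm.mul_apply]
    generalize swap (a, y₀) (b, y₀) (x, y) = p
    obtain ⟨x', y'⟩ := p
    rw [hg, hT]
    by_cases h : x' ∈ D
    · simp [hG _ _ h, h]
    · simp [hG' _ _ h, h]
  · rw [swap_apply_of_ne_of_ne (fun h => hk (congrArg (·.1.1) h))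
      (fun h => hk (congrArg (·.1.1) h)), hg, hT, h2 k hk]
    simp [hk]

theorem keep (hW1 : S_W1) (hW2 : S_W2) {n : ℕ} [NeZero n] {Z : Type} [Finite Z]
    [DecidableEq ((ZMod n × Z) × ZMod (Nat.card Z).factorial)] {T : Perm (ZMod n × Z)}
    {T' : Perm (ZMod n × (Z × ZMod (Nat.card Z).factorial))} {i : ZMod n} {D : Set Z} {e : ℤ}
    (he : e = 1 ∨ e = -1) {a b : Z} (ha : a ∈ D) (hb : b ∈ D) (hab : a ≠ b)
    {y₀ : ZMod (Nat.card Z).factorial}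
    (H : ∃ g : Perm ((ZMod n × Z) × ZMod (Nat.card Z).factorial),
      (∀ ω y, ω ∈ {ω : ZMod n × Z | ω.1 = i ∧ ω.2 ∈ D} → g (ω, y) = (T ω, y + e)) ∧
      (∀ ω y, ω ∉ {ω : ZMod n × Z | ω.1 = i ∧ ω.2 ∈ D} → g (ω, y) = (T ω, y)) ∧
      ∀ ω, T' (prodAssoc _ _ _ ω) =
        prodAssoc _ _ _ ((g * swap ((i, a), y₀) ((i, b), y₀)) ω))
    (c : ZMod n × Z → ℤ) (hc : Cob T c) : Cob T' fun p => c (p.1, p.2.1) := by
  obtain ⟨g, h1, h2, h3⟩ := H
  refine cob_conj _ h3 (hW2.1 _ g _ _ _ (hW1 _ T _ e _ g he (Nat.factorial_pos _)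
    (fun c h4 h5 => Nat.dvd_factorial h4 (h5.trans ?_)) h1 h2 (i, a) ⟨rfl, ha⟩ (i, b) ⟨rfl, hb⟩
    (fun h => hab (congrArg Prod.snd h)) y₀) ?_)
  · refine le_trans (Set.ncard_le_ncard (t := Prod.mk i '' D) ?_) ?_
    · rintro ⟨k, x⟩ ⟨rfl, h⟩
      exact ⟨x, h, rfl⟩
    · exact (Set.ncard_image_le (Set.toFinite D)).trans (Set.ncard_le_card D)
  · obtain ⟨γ, hγ⟩ := hc
    refine ⟨fun p => γ p.1, ?_⟩
    rintro ⟨ω, y⟩
    by_cases h : ω ∈ {ω : ZMod n × Z | ω.1 = i ∧ ω.2 ∈ D}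
    · rw [h1 ω y h]
      exact hγ ω
    · rw [h2 ω y h]
      exact hγ ω

/-- The permutation given by a letter. -/
def stp {W Z : Type} (Φ : W → Perm Z) (x : W × Bool) : Perm Z := (FreeGroup.lift Φ (lt x))⁻¹

theorem stp_true {W Z : Type} (Φ : W → Perm Z) (a : W) : stp Φ (a, true) = (Φ a)⁻¹ := by
  rw [stp, lt_true, FreeGroup.lift_apply_of]

theorem stp_false {W Z : Type} (Φ : W → Perm Z) (a : W) : stp Φ (a, false) = Φ a := by
  rw [stp, lt_false, map_inv, inv_inv, FreeGroup.lift_apply_of]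

theorem stp_not {W Z : Type} (Φ : W → Perm Z) (a : W) (s : Bool) :
    stp Φ (a, !s) = (stp Φ (a, s))⁻¹ := by
  cases s <;> simp [stp_true, stp_false]

end WSTEPx

open WSTEPx in
theorem s_WSTEP (hW1 : S_W1) (hW2 : S_W2) (hW3 : S_W3) : S_WSTEP := by
  classical
  intro W F J R n _ w hR hw C j₀ i z z' hz hT
  have := C.fin
  obtain ⟨D₀, hD1, hD2, hD3, hD4⟩ := reps (Perm.SameCycle.setoid (C.T (w j₀))) {ω | ω.1 = i}
    (fun ω => by
      have h1 : ∀ k : ℕ, (((C.T (w j₀)) ^ k) ω).1 = ω.1 + k := fun k => by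
        induction k with
        | zero => simp
        | succ k ih =>
          rw [pow_succ', Perm.mul_apply, Nat.cast_succ, ← add_assoc, ← ih]
          rfl
      refine ⟨((C.T (w j₀)) ^ (i - ω.1).val) ω, ?_, (i - ω.1).val, by rw [zpow_natCast]⟩
      change _ = i
      rw [h1, ZMod.natCast_zmod_val, add_sub_cancel]) (a := (i, z)) (b := (i, z')) rfl rfl hT
  have hne : z ≠ z' := fun h => hT (h ▸ Perm.SameCycle.rfl)
  let D : Set C.Z := {x | (i, x) ∈ D₀}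
  have hD : {ω : ZMod (n j₀) × C.Z | ω.1 = i ∧ ω.2 ∈ D} = D₀ := by
    ext ⟨k, x⟩
    refine ⟨?_, fun h => ?_⟩
    · rintro ⟨rfl, h⟩
      exact h
    · obtain rfl : k = i := hD1 h
      exact ⟨rfl, h⟩
  have hz1 : z ∈ D := hD2
  have hz2 : z' ∈ D := hD3
  obtain ⟨⟨l, s⟩, hl⟩ : ∃ x, w j₀ i = x := ⟨_, rfl⟩
  rw [hl] at hz
  let q := (Nat.card C.Z).factorial
  have : NeZero q := ⟨Nat.factorial_ne_zero _⟩
  let P := stp C.Φ (l, s)
  let G : Perm (C.Z × ZMod q) := prodShear P fun x => Equiv.addRight (if x ∈ D then 1 else 0)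
  have hG : ∀ x y, G (x, y) = (P x, y + if x ∈ D then 1 else 0) := fun x y => rfl
  let P' := G * swap (z, 0) (z', 0)
  let Φ' : W → Perm (C.Z × ZMod q) := fun a =>
    if a = l then (bif s then P'⁻¹ else P') else prodCongr (C.Φ a) (Equiv.refl _)
  have h1 : stp Φ' (l, s) = P' := by
    cases s <;> simp [stp_true, stp_false, Φ']
  have h2 : ∀ u : W × Bool, u.1 ≠ l → ∀ x y, stp Φ' u (x, y) = (stp C.Φ u x, y) := by
    rintro ⟨a, b⟩ ha x y
    cases b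
    · simp [stp_false, Φ', show a ≠ l from ha]
    · rw [stp_true, stp_true, Perm.inv_eq_iff_eq]
      simp [Φ', show a ≠ l from ha]
  have h3 : ∀ x, R l (C.st (P x)) (C.st x) := fun x => by
    cases s
    · simpa [P, stp_false] using C.ok l x
    · simpa [P, stp_true] using (hR l).symm (C.ok l ((C.Φ l)⁻¹ x))
  have h4 : ∀ p, R l (C.st (P' p).1) (C.st p.1) := fun p => by
    refine (hR l).trans (h3 (swap (z, (0 : ZMod q)) (z', 0) p).1) ?_
    rw [swap_apply_def]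
    split_ifs with h h'
    · exact h ▸ (hR l).symm hz
    · exact h' ▸ hz
    · exact (hR l).refl _
  let C' : Cfg R :=
    { Z := C.Z × ZMod q
      fin := inferInstance
      Φ := Φ'
      st := fun p => C.st p.1
      m := C.m * q
      pos := Nat.mul_pos C.pos (Nat.factorial_pos _)
      fib := fun f => by
        rw [Nat.card_congr (prodSubtypeFstEquivSubtypeProd (p := fun x => C.st x = f)),
          Nat.card_prod, C.fib, Nat.card_zmod]
      ok := fun a p => by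
        by_cases h : a = l
        · subst h
          cases s
          · simpa [Φ'] using h4 p
          · simpa [Φ'] using (hR a).symm (h4 (P'⁻¹ p))
        · simpa [Φ', h] using C.ok a p.1 }
  have same := fun j i₁ (h : w j i₁ = (l, s)) =>
    key (C.T (w j)) (C'.T (w j)) (fun k => stp C.Φ (w j k)) (fun k => stp Φ' (w j k))
      (fun _ _ => rfl) (fun _ _ => rfl) i₁ D ((1 : ℤ) : ZMod q) z z' 0 G
      (fun x y hx => by rw [hG, if_pos hx, h, Int.cast_one])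
      (fun x y hx => by rw [hG, if_neg hx, h, add_zero]) (by rw [h, h1])
      fun k hk => h2 _ fun h' => hk (hw j _ _ (by rw [h', h]))
  refine ⟨C', ?_, fun j β hβ => ?_⟩
  · obtain ⟨g, h5, h6, h7⟩ := same j₀ i hl
    rw [norb_conj _ h7]
    rw [hD] at h5 h6
    exact hW3 _ _ D₀ 1 q g (Or.inl rfl) (Nat.factorial_pos _) h5 h6 hD4 _ hD2 _ hD3
      (fun h => hne (congrArg Prod.snd h)) 0
  by_cases h : ∃ i₁, (w j i₁).1 = l
  · obtain ⟨i₁, h⟩ := h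
    by_cases h' : (w j i₁).2 = s
    · exact keep hW1 hW2 (Or.inl rfl) hz1 hz2 hne (same j i₁ (Prod.ext h h')) _ hβ
    have h5 : w j i₁ = (l, !s) := Prod.ext h (Bool.eq_not_iff.2 h')
    refine keep hW1 hW2 (D := {x | P⁻¹ x ∈ D}) (a := P z) (b := P z') (y₀ := 1) (Or.inr rfl)
      (by simpa using hz1) (by simpa using hz2) (P.injective.ne hne)
      (key (C.T (w j)) (C'.T (w j)) (fun k => stp C.Φ (w j k)) (fun k => stp Φ' (w j k))
        (fun _ _ => rfl) (fun _ _ => rfl) i₁ _ _ _ _ _ G⁻¹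
        (fun x y (hx : P⁻¹ x ∈ D) => ?_) (fun x y (hx : P⁻¹ x ∉ D) => ?_) ?_
        fun k hk => h2 _ fun h' => hk (hw j _ _ (by rw [h', h]))) _ hβ
    · rw [h5, stp_not, Perm.inv_eq_iff_eq, hG, if_pos hx]
      simp [P]
    · rw [h5, stp_not, Perm.inv_eq_iff_eq, hG, if_neg hx]
      simp [P]
    · rw [h5, stp_not, h1, mul_inv_rev, swap_inv, swap_mul_eq_mul_swap, inv_inv, hG, hG,
        if_pos hz1, if_pos hz2, zero_add]
  · obtain ⟨γ, hγ⟩ := hβ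
    refine ⟨fun p => γ (p.1, p.2.1), ?_⟩
    rintro ⟨k, x, y⟩
    have h5 : C'.T (w j) (k, x, y) = (k + 1, stp C.Φ (w j k) x, y) :=
      congrArg (Prod.mk (k + 1)) (h2 _ (fun h' => h ⟨k, h'⟩) x y)
    rw [h5]
    exact hγ (k, x)

end Pool.Agent.P.MP_67c9d4_al.FC
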