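import Pool.Agent.P.MP_67c9d4_al.FC.HEX
import Pool.Agent.P.MP_67c9d4_al.FC.TOPH
import Pool.Agent.P.MP_67c9d4_al.FC.EMBT
import Pool.Agent.P.MP_67c9d4_al.FC.FIXW
import Pool.Agent.P.MP_67c9d4_al.FC.VIS
import Pool.Agent.P.MP_67c9d4_al.FC.RHO
import Pool.Agent.P.MP_67c9d4_al.FC.BTD
import Pool.Agent.P.MP_67c9d4_al.FC.RED
import Pool.Agent.P.MP_67c9d4_al.FC.T3A
import Pool.Agent.P.MP_67c9d4_al.FC.COMMON
import Pool.Agent.P.MP_67c9d4_al.FC.EXT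
import Pool.Agent.P.MP_67c9d4_al.FC.T3
import Pool.Agent.P.MP_67c9d4_al.FC.INTER
import Pool.Agent.P.MP_67c9d4_al.FC.BVP
import Pool.Agent.P.MP_67c9d4_al.FC.CYCR
import Pool.Agent.P.MP_67c9d4_al.FC.HEAP
import Pool.Agent.P.MP_67c9d4_al.FC.HULL
import Pool.Agent.P.MP_67c9d4_al.FC.COMP1
import Pool.Agent.P.MP_67c9d4_al.FC.COMP
import Pool.Agent.P.MP_67c9d4_al.FC.RFR
import Pool.Agent.P.MP_67c9d4_al.FC.RFV
import Pool.Agent.P.MP_67c9d4_al.FC.LAT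
import Pool.Agent.P.MP_67c9d4_al.FC.PIN
import Pool.Agent.P.MP_67c9d4_al.FC.SEPA
import Pool.Agent.P.MP_67c9d4_al.FC.BSP
import Pool.Agent.P.MP_67c9d4_al.FC.RFF
import Pool.Agent.P.MP_67c9d4_al.FC.FL
import Pool.Agent.P.MP_67c9d4_al.FC.VT
import Pool.Agent.P.MP_67c9d4_al.FC.BIND
import Pool.Agent.P.MP_67c9d4_al.FC.BELL
import Pool.Agent.P.MP_67c9d4_al.FC.AXIS
import Pool.Agent.P.MP_67c9d4_al.FC.APX
import Pool.Agent.P.MP_67c9d4_al.FC.NP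
import Pool.Agent.P.MP_67c9d4_al.FC.KAP
import Pool.Agent.P.MP_67c9d4_al.FC.EMB
import Pool.Agent.P.MP_67c9d4_al.FC.PAR
import Pool.Agent.P.MP_67c9d4_al.FC.CORE1
import Pool.Agent.P.MP_67c9d4_al.FC.ETA
import Pool.Agent.P.MP_67c9d4_al.FC.CORE2
import Pool.Agent.P.MP_67c9d4_al.FC.CORE
import Pool.Agent.P.MP_67c9d4_al.FC.HO1
import Pool.Agent.P.MP_67c9d4_al.FC.HOJ
import Pool.Agent.P.MP_67c9d4_al.FC.UNIF
import Pool.Agent.P.MP_67c9d4_al.FC.LA2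
import Pool.Agent.P.MP_67c9d4_al.FC.BALL
import Pool.Agent.P.MP_67c9d4_al.FC.W1
import Pool.Agent.P.MP_67c9d4_al.FC.W2
import Pool.Agent.P.MP_67c9d4_al.FC.W3
import Pool.Agent.P.MP_67c9d4_al.FC.WSTEP
import Pool.Agent.P.MP_67c9d4_al.FC.WEND
import Pool.Agent.P.MP_67c9d4_al.FC.WIN
import Pool.Agent.P.MP_67c9d4_al.FC.GLUE
import Pool.Agent.P.MP_67c9d4_al.FC.KILL1
import Pool.Agent.P.MP_67c9d4_al.FC.KILL
import Pool.Agent.P.MP_67c9d4_al.FC.TO2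
import Pool.Agent.P.MP_67c9d4_al.FC.SEG
import Pool.Agent.P.MP_67c9d4_al.FC.LINJ
import Pool.Agent.P.MP_67c9d4_al.FC.MALG
import Pool.Agent.P.MP_67c9d4_al.FC.MAL
import Pool.Agent.P.MP_67c9d4_al.FC.BGOOD
import Pool.Agent.P.MP_67c9d4_al.FC.HINJ
import Pool.Agent.P.MP_67c9d4_al.FC.HTD
import Pool.Agent.P.MP_67c9d4_al.FC.DIV
import Pool.Agent.P.MP_67c9d4_al.FC.LINZ
import Pool.Agent.P.MP_67c9d4_al.FC.SLIN
import Pool.Agent.P.MP_67c9d4_al.FC.BAL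
import Pool.Agent.P.MP_67c9d4_al.FC.NBAL
import Pool.Agent.P.MP_67c9d4_al.FC.EXTEND
import Pool.Agent.P.MP_67c9d4_al.FC.NEXT
import Pool.Agent.P.MP_67c9d4_al.FC.VPS
import Pool.Agent.P.MP_67c9d4_al.FC.RP
import Pool.Agent.P.MP_67c9d4_al.FC.VPY
import Pool.Agent.P.MP_67c9d4_al.FC.HVP
import Pool.Agent.P.MP_67c9d4_al.FC.HSP
import Pool.Agent.P.MP_67c9d4_al.FC.HIND
import Pool.Agent.P.MP_67c9d4_al.FC.HELL
import Pool.Agent.P.MP_67c9d4_al.FC.EFF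
import Pool.Agent.P.MP_67c9d4_al.FC.SPARSE
import Pool.Agent.P.MP_67c9d4_al.FC.HO1E
import Pool.Agent.P.MP_67c9d4_al.FC.PQ
import Pool.Agent.P.MP_67c9d4_al.FC.HO2
import Pool.Agent.P.MP_67c9d4_al.FC.HOJE
import Pool.Agent.P.MP_67c9d4_al.FC.Fin
import Pool.Agent.P.MP_67c9d4_al.FC.FIX
import Pool.Agent.P.MP_67c9d4_al.FC.HDI
import Pool.Agent.P.MP_67c9d4_al.FC.PTW
import Pool.Agent.P.MP_67c9d4_al.FC.REORD
import Pool.Agent.P.MP_67c9d4_al.FC.ROOT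
import Pool.Agent.P.MP_67c9d4_al.FC.MVA
import Pool.Agent.P.MP_67c9d4_al.FC.FF
import Pool.Agent.P.MP_67c9d4_al.FC.MVB
import Pool.Agent.P.MP_67c9d4_al.FC.MVC
import Pool.Agent.P.MP_67c9d4_al.FC.MVD
import Pool.Agent.P.MP_67c9d4_al.FC.MOVE
import Pool.Agent.P.MP_67c9d4_al.FC.NF1
import Pool.Agent.P.MP_67c9d4_al.FC.NF

/-! All steps put together. -/

namespace Pool.Agent.P.MP_67c9d4_al.FC

theorem t_HEX : S_HEX := s_HEX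
theorem t_TOPH : S_TOPH := s_TOPH t_HEX
theorem t_EMBT : S_EMBT := s_EMBT
theorem t_FIXW : S_FIXW := s_FIXW
theorem t_VIS : S_VIS := s_VIS t_EMBT t_FIXW
theorem t_RHO : S_RHO := s_RHO
theorem t_BTD : S_BTD := s_BTD
theorem t_RED : S_RED := s_RED
theorem t_T3A : S_T3A := s_T3A t_RED
theorem t_COMMON : S_COMMON := s_COMMON
theorem t_EXT : S_EXT := s_EXT
theorem t_T3 : S_T3 := s_T3 t_T3A t_COMMON t_EXT
theorem t_INTER : S_INTER := s_INTER t_COMMON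
theorem t_BVP : S_BVP := s_BVP t_BTD t_T3 t_INTER
theorem t_CYCR : S_CYCR := s_CYCR
theorem t_HEAP : S_HEAP := s_HEAP
theorem t_HULL : S_HULL := s_HULL t_HEAP
theorem t_COMP1 : S_COMP1 := s_COMP1
theorem t_COMP : S_COMP := s_COMP t_COMP1
theorem t_RFR : S_RFR := s_RFR t_CYCR t_HULL t_COMP
theorem t_RFV : S_RFV := s_RFV t_RFR
theorem t_LAT : S_LAT := s_LAT
theorem t_PIN : S_PIN := s_PIN t_LAT
theorem t_SEPA : S_SEPA := s_SEPA t_PIN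
theorem t_BSP : S_BSP := s_BSP t_SEPA
theorem t_RFF : S_RFF := s_RFF t_RFR
theorem t_FL : S_FL := s_FL t_RFF
theorem t_VT : S_VT := s_VT t_FL
theorem t_BIND : S_BIND := s_BIND t_VT
theorem t_BELL : S_BELL := s_BELL
theorem t_AXIS : S_AXIS := s_AXIS t_RED
theorem t_APX : S_APX := s_APX t_PIN
theorem t_NP : S_NP := s_NP t_APX
theorem t_KAP : S_KAP := s_KAP
theorem t_EMB : S_EMB := s_EMB t_KAP
theorem t_PAR : S_PAR := s_PAR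
theorem t_CORE1 : S_CORE1 := s_CORE1 t_NP t_EMB t_PAR
theorem t_ETA : S_ETA := s_ETA
theorem t_CORE2 : S_CORE2 := s_CORE2 t_KAP t_ETA
theorem t_CORE : S_CORE := s_CORE t_AXIS t_CORE1 t_CORE2
theorem t_HO1 : S_HO1 := s_HO1
theorem t_HOJ : S_HOJ := s_HOJ
theorem t_UNIF : S_UNIF := s_UNIF
theorem t_LA2 : S_LA2 := s_LA2
theorem t_BALL : S_BALL := s_BALL
theorem t_W1 : S_W1 := s_W1
theorem t_W2 : S_W2 := s_W2
theorem t_W3 : S_W3 := s_W3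
theorem t_WSTEP : S_WSTEP := s_WSTEP t_W1 t_W2 t_W3
theorem t_WEND : S_WEND := s_WEND t_W2
theorem t_WIN : S_WIN := s_WIN t_WSTEP t_WEND
theorem t_GLUE : S_GLUE := s_GLUE
theorem t_KILL1 : S_KILL1 := s_KILL1 t_WIN t_GLUE
theorem t_KILL : S_KILL := s_KILL t_EMB t_KILL1
theorem t_TO2 : S_TO2 := s_TO2 t_AXIS t_UNIF t_LA2 t_BALL t_KILL
theorem t_SEG : S_SEG := s_SEG
theorem t_LINJ : S_LINJ := s_LINJ t_KAP
theorem t_MALG : S_MALG := s_MALG t_KAP t_SEG t_LINJ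
theorem t_MAL : S_MAL := s_MAL t_AXIS t_MALG
theorem t_BGOOD : S_BGOOD := s_BGOOD t_RHO t_BTD t_BVP t_RFV t_BSP t_BIND t_BELL t_CORE t_HO1 t_HOJ t_TO2 t_MAL
theorem t_HINJ : S_HINJ := s_HINJ
theorem t_HTD : S_HTD := s_HTD
theorem t_DIV : S_DIV := s_DIV
theorem t_LINZ : S_LINZ := s_LINZ t_DIV
theorem t_SLIN : S_SLIN := s_SLIN t_LINZ
theorem t_BAL : S_BAL := s_BAL
theorem t_NBAL : S_NBAL := s_NBAL
theorem t_EXTEND : S_EXTEND := s_EXTEND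
theorem t_EXTF : S_EXTF := s_EXTF t_EXTEND
theorem t_NEXT : S_NEXT := s_NEXT t_NBAL t_EXTF
theorem t_XREP : S_XREP := s_XREP t_SLIN t_BAL t_NEXT
theorem t_VPS : S_VPS := s_VPS
theorem t_RP : S_RP := s_RP t_CYCR t_HULL t_COMP
theorem t_VPY : S_VPY := s_VPY t_RP
theorem t_HVP : S_HVP := s_HVP t_HINJ t_HTD t_XREP t_VPS t_VPY t_T3
theorem t_HSP : S_HSP := s_HSP t_HVP t_RFV t_SEPA
theorem t_HIND : S_HIND := s_HIND t_HINJ t_XREP t_RFV t_SEPA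
theorem t_HELL : S_HELL := s_HELL t_HINJ
theorem t_EFF : S_EFF := s_EFF t_EXTEND
theorem t_SPARSE : S_SPARSE := s_SPARSE
theorem t_HO1E : S_HO1E := s_HO1E t_HINJ t_HTD t_HSP t_HIND t_HELL t_AXIS t_CORE t_HO1 t_EFF t_SPARSE t_KILL
theorem t_PQ : S_PQ := s_PQ
theorem t_HO2 : S_HO2 := s_HO2 t_HINJ t_HTD t_HSP t_HELL t_AXIS t_RFV t_SEPA t_PQ t_EXTF t_KILL
theorem t_HOJE : S_HOJE := s_HOJE t_HINJ t_HTD t_HSP t_HIND t_HELL t_CORE t_HOJ t_SLIN t_NEXT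
theorem t_STEP : S_STEP := s_STEP t_HVP t_HO1E t_HO2 t_HOJE
theorem t_FIX : S_FIX := s_FIX t_RED t_KAP t_SEG
theorem t_HDI : S_HDI := s_HDI t_HINJ t_HTD t_MAL t_HIND t_FIX
theorem t_PTW : S_PTW := s_PTW
theorem t_REORD : S_REORD := s_REORD t_HEX t_PTW
theorem t_ROOT : S_ROOT := s_ROOT t_AXIS t_MALG
theorem t_MVA : S_MVA := s_MVA
theorem t_FF : S_FF := s_FF t_ROOT
theorem t_MVB : S_MVB := s_MVB t_FF
theorem t_MVC : S_MVC := s_MVC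
theorem t_MVD : S_MVD := s_MVD t_FF
theorem t_MOVE : S_MOVE := s_MOVE t_ROOT t_MVA t_MVB t_MVC t_MVD
theorem t_NF1 : S_NF1 := s_NF1 t_BGOOD t_STEP t_HDI t_HINJ t_PTW t_REORD t_MOVE
theorem t_B0 : S_B0 := s_B0
theorem t_NF : S_NF := s_NF t_NF1 t_B0
theorem t_MAIN : S_MAIN := s_MAIN t_TOPH t_VIS t_NF t_EMBT

end Pool.Agent.P.MP_67c9d4_al.FC
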