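import Pool.Agent.P.MP_67c9d4_al.FC.Iface2

/-! Adding finitely many free letters and conjugating letters to a tower. -/

namespace Pool.Agent.P.MP_67c9d4_al.FC

open Equiv Wr Multiplicative TD

namespace DBLx

variable {C H H' I J : Type} [Group C] [Group H] [Group H']

theorem ext_equiv (e : I ≃ J) {i : C →* H} {x σ : I → H} {A B : J → C}
    (h : IsExt i x (A ∘ e) (B ∘ e) σ) : IsExt i (x ∘ e.symm) A B (σ ∘ e.symm) where
  rel k := by simpa using h.rel (e.symm k)
  gen := by
    rw [EquivLike.range_comp, EquivLike.range_comp]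
    exact h.gen
  up W _ f y σ' h1 := by
    obtain ⟨F, h2, h3, h4⟩ := h.up W f (y ∘ e) (σ' ∘ e) fun k => h1 (e k)
    exact ⟨F, h2, fun ω => by simp [h3], fun k => by simp [h4]⟩

theorem ext_option {i : C →* H} {x σ : I → H} {A B : Option I → C}
    (h : IsExt i x (A ∘ some) (B ∘ some) σ) {j : H →* H'} {x' σ' : H'}
    (h' : IsExt j (fun _ : Unit => x') (fun _ : Unit => i (A none)) (fun _ => i (B none))
      fun _ => σ') :
    IsExt (j.comp i) (fun k => Option.elim k x' (j ∘ x)) A B fun k => Option.elim k σ' (j ∘ σ) where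
  rel k := by
    cases k with
    | none => exact h'.rel ()
    | some k => simpa using congrArg j (h.rel k)
  gen := by
    rw [eq_top_iff, ← h'.gen, Subgroup.closure_le]
    rintro _ ((⟨a, rfl⟩ | ⟨_, rfl⟩) | ⟨_, rfl⟩)
    · have h1 : a ∈ Subgroup.closure (Set.range i ∪ Set.range x ∪ Set.range σ) := by
        rw [h.gen]
        trivial
      refine Subgroup.mem_comap.1 ((Subgroup.closure_le (Subgroup.comap j _)).2 ?_ h1)
      rintro _ ((⟨c, rfl⟩ | ⟨k, rfl⟩) | ⟨k, rfl⟩)
      · exact Subgroup.subset_closure (Or.inl (Or.inl ⟨c, rfl⟩))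
      · exact Subgroup.subset_closure (Or.inl (Or.inr ⟨some k, rfl⟩))
      · exact Subgroup.subset_closure (Or.inr ⟨some k, rfl⟩)
    · exact Subgroup.subset_closure (Or.inl (Or.inr ⟨none, rfl⟩))
    · exact Subgroup.subset_closure (Or.inr ⟨none, rfl⟩)
  up W _ f y τ h1 := by
    obtain ⟨F, h2, h3, h4⟩ := h.up W f (y ∘ some) (τ ∘ some) fun k => h1 (some k)
    obtain ⟨F', h5, h6, h7⟩ := h'.up W F (fun _ => y none) (fun _ => τ none) fun _ => by
      rw [h2, h2]
      exact h1 none
    refine ⟨F', fun c => (h5 _).trans (h2 c), fun ω => ?_, fun k => ?_⟩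
    · cases ω with
      | none => exact h6 ()
      | some ω => exact (h5 _).trans (h3 ω)
    · cases k with
      | none => exact h7 ()
      | some k => exact (h5 _).trans (h4 k)

end DBLx

open DBLx in
theorem s_DBL (hDBL1 : S_DBL1) : S_DBL := by
  intro C I _
  induction I using Finite.induction_empty_option with
  | of_equiv e ih =>
    intro A B d hC hA hB
    obtain ⟨H, h1, i, x, σ, h2, h3, h4⟩ :=
      ih (A ∘ e) (B ∘ e) (d ∘ e) hC (fun k => hA _) fun k => hB _
    exact ⟨H, h1, i, _, _, ext_equiv e h2, h3, fun k => by simp [h4]⟩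
  | h_empty =>
    intro A B d hC _ _
    refine ⟨C, hC, MonoidHom.id _, PEmpty.elim, PEmpty.elim, ⟨fun k => k.elim, ?_,
      fun W _ f _ _ _ => ⟨f, fun _ => rfl, fun k => k.elim, fun k => k.elim⟩⟩, fun _ => rfl,
      fun k => k.elim⟩
    exact eq_top_iff.2 fun a _ => Subgroup.subset_closure (Or.inl (Or.inl ⟨a, rfl⟩))
  | h_option ih =>
    intro A B d hC hA hB
    obtain ⟨H, h1, i, x, σ, h2, h3, h4⟩ :=
      ih (A ∘ some) (B ∘ some) (d ∘ some) hC (fun k => hA _) fun k => hB _
    obtain ⟨H', h5, j, x', σ', h6, h7, h8⟩ := hDBL1 H (i (A none)) (i (B none)) (d none) h1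
      ((h3 _).trans (hA _)) ((h3 _).trans (hB _))
    refine ⟨H', h5, j.comp i, _, _, ext_option h2 h6, fun c => (h7 _).trans (h3 c), fun k => ?_⟩
    cases k with
    | none => exact h8
    | some k => exact (h7 _).trans (h4 k)

end Pool.Agent.P.MP_67c9d4_al.FC
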