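import Pool.Agent.P.MP_67c9d4_al.FC.Iface2

/-! Adding one free letter and one conjugating letter to a tower. -/

namespace Pool.Agent.P.MP_67c9d4_al.FC

open Equiv Wr Multiplicative TD

namespace DBL1x

/-- A subgroup that contains the images of a generating set contains the whole image. -/
lemma img_mem {G G' : Type} [Group G] [Group G'] (φ : G →* G') {S : Set G}
    (hS : Subgroup.closure S = ⊤) (K : Subgroup G') (h : ∀ g ∈ S, φ g ∈ K) (g : G) : φ g ∈ K := by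
  have h1 : Subgroup.closure S ≤ K.comap φ := (Subgroup.closure_le _).2 fun g hg => h g hg
  rw [hS] at h1
  exact h1 (Subgroup.mem_top g)

lemma ext1 {C H₁ H₂ H₃ Ω : Type} [Group C] [Group H₁] [Group H₂] [Group H₃] [Unique Ω]
    (i₁ : C →* H₁) (i₂ : H₁ →* H₂) (i₃ : H₂ →* H₃) (a b : C) (t : Ω → H₁) (s₁ : H₂) (s₂ : H₃)
    (m : ℤ) (h₁ : IsFr i₁ t) (h₂ : IsHNN i₂ (t default) (i₁ a) s₁)
    (h₃ : IsHNN i₃ (i₂ (t default)) (i₂ (i₁ b)) s₂) :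
    IsExt (i₃.comp (i₂.comp i₁)) (fun _ : Unit => i₃ s₁) (fun _ : Unit => a) (fun _ => b)
      (fun _ => (i₃ s₁)⁻¹ * s₂ * i₃ (i₂ (i₁ b)) ^ m) := by
  have e₂ : i₂ (t default) = s₁ * i₂ (i₁ a) * s₁⁻¹ := by rw [← h₂.rel]; group
  refine ⟨fun _ => ?_, ?_, fun W _ f y σ' hσ => ?_⟩
  · have h3 := h₃.rel
    rw [e₂, map_mul, map_mul, map_inv] at h3
    simp only [MonoidHom.comp_apply]
    calc ((i₃ s₁)⁻¹ * s₂ * i₃ (i₂ (i₁ b)) ^ m)⁻¹ * i₃ (i₂ (i₁ a)) *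
          ((i₃ s₁)⁻¹ * s₂ * i₃ (i₂ (i₁ b)) ^ m)
        = (i₃ (i₂ (i₁ b)) ^ m)⁻¹ * (s₂⁻¹ * (i₃ s₁ * i₃ (i₂ (i₁ a)) * (i₃ s₁)⁻¹) * s₂) *
          i₃ (i₂ (i₁ b)) ^ m := by group
      _ = i₃ (i₂ (i₁ b)) := by rw [h3]; group
  · set K := Subgroup.closure (Set.range (i₃.comp (i₂.comp i₁)) ∪
      Set.range (fun _ : Unit => i₃ s₁) ∪
      Set.range (fun _ : Unit => (i₃ s₁)⁻¹ * s₂ * i₃ (i₂ (i₁ b)) ^ m)) with hK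
    have k1 : ∀ c, i₃ (i₂ (i₁ c)) ∈ K := fun c =>
      Subgroup.subset_closure (Or.inl (Or.inl ⟨c, rfl⟩))
    have k2 : i₃ s₁ ∈ K := Subgroup.subset_closure (Or.inl (Or.inr ⟨(), rfl⟩))
    have k3 : (i₃ s₁)⁻¹ * s₂ * i₃ (i₂ (i₁ b)) ^ m ∈ K :=
      Subgroup.subset_closure (Or.inr ⟨(), rfl⟩)
    have k4 : s₂ ∈ K := by
      have : s₂ = i₃ s₁ * ((i₃ s₁)⁻¹ * s₂ * i₃ (i₂ (i₁ b)) ^ m) * (i₃ (i₂ (i₁ b)) ^ m)⁻¹ := by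
        group
      rw [this]
      exact K.mul_mem (K.mul_mem k2 k3) (K.inv_mem (K.zpow_mem (k1 b) m))
    have k5 : ∀ g, i₃ (i₂ g) ∈ K := by
      refine img_mem (i₃.comp i₂) h₁.gen K ?_
      rintro g (⟨c, rfl⟩ | ⟨ω, rfl⟩)
      · exact k1 c
      · obtain rfl : ω = default := Subsingleton.elim _ _
        rw [MonoidHom.comp_apply, e₂, map_mul, map_mul, map_inv]
        exact K.mul_mem (K.mul_mem k2 (k1 a)) (K.inv_mem k2)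
    have k6 : ∀ g, i₃ g ∈ K := by
      refine img_mem i₃ h₂.gen K ?_
      rintro g (⟨c, rfl⟩ | rfl)
      · exact k5 c
      · exact k2
    rw [eq_top_iff, ← h₃.gen, Subgroup.closure_le]
    rintro g (⟨c, rfl⟩ | rfl)
    · exact k6 c
    · exact k4
  · obtain ⟨F₁, hF₁, hF₁'⟩ := h₁.up W f fun _ => y () * f a * (y ())⁻¹
    obtain ⟨F₂, hF₂, hF₂'⟩ := h₂.up W F₁ (y ()) (by rw [hF₁, hF₁']; group)
    obtain ⟨F₃, hF₃, hF₃'⟩ := h₃.up W F₂ (y () * σ' () * (f b ^ m)⁻¹) (by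
      rw [hF₂, hF₂, hF₁, hF₁']
      calc (y () * σ' () * (f b ^ m)⁻¹)⁻¹ * (y () * f a * (y ())⁻¹) *
            (y () * σ' () * (f b ^ m)⁻¹)
          = f b ^ m * ((σ' ())⁻¹ * f a * σ' ()) * (f b ^ m)⁻¹ := by group
        _ = f b := by rw [hσ ()]; group)
    refine ⟨F₃, fun c => ?_, fun _ => ?_, fun _ => ?_⟩
    · simp only [MonoidHom.comp_apply, hF₃, hF₂, hF₁]
    · rw [hF₃, hF₂']
    · rw [map_mul, map_mul, map_inv, map_zpow, hF₃, hF₃, hF₃', hF₂, hF₂', hF₁]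
      group

end DBL1x

theorem s_DBL1 (hADDV : S_ADDV) (hHEX : S_HEX) (hPTW : S_PTW) : S_DBL1 := by
  rintro C a b e ⟨V, hV, j, n, hT⟩ ha hb
  obtain ⟨H₁, i₁, j', hT₁, hF, hc₁, -⟩ := hADDV V Unit C j n hT
  have ht : H₁.χ (j' (FreeGroup.of (Sum.inr ()))) = ofAdd 1 := by
    exact ((hPTW _ _ _ _ _ hT₁).1 _).trans FreeGroup.lift_apply_of
  obtain ⟨H₂, i₂, s₁, h₂, hc₂, hs₁⟩ := hHEX H₁ (j' (FreeGroup.of (Sum.inr ()))) (i₁ a)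
    (by rw [ht, hc₁, ha])
  obtain ⟨H₃, i₃, s₂, h₃, hc₃, hs₂⟩ := hHEX H₂ (i₂ (j' (FreeGroup.of (Sum.inr ())))) (i₂ (i₁ b))
    (by rw [hc₂, hc₂, ht, hc₁, hb])
  have hT₂ := PTow.step i₂ _ _ s₁ hT₁ ⟨FreeGroup.of (Sum.inr ()), ⟨_, rfl⟩, IsConj.refl _⟩ ht
    (by rw [hc₁, ha]) h₂ hc₂ hs₁
  have hT₃ := PTow.step i₃ _ _ s₂ hT₂ ⟨FreeGroup.of (Sum.inr ()), ⟨_, rfl⟩, IsConj.refl _⟩
    ((hc₂ _).trans ht) (by rw [hc₂, hc₁, hb]) h₃ hc₃ hs₂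
  refine ⟨H₃, ⟨V ⊕ Unit, inferInstance, _, _, hT₃⟩, i₃.comp (i₂.comp i₁), i₃ s₁,
    (i₃ s₁)⁻¹ * s₂ * i₃ (i₂ (i₁ b)) ^ e.toAdd,
    DBL1x.ext1 i₁ i₂ i₃ a b _ s₁ s₂ e.toAdd hF h₂ h₃, fun c => ?_, ?_⟩
  · simp only [MonoidHom.comp_apply, hc₃, hc₂, hc₁]
  · rw [map_mul, map_mul, map_inv, map_zpow, hc₃, hc₃, hs₁, hs₂, hc₂, hc₁, hb]
    simp [← ofAdd_zsmul]

end Pool.Agent.P.MP_67c9d4_al.FC
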