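import Pool.Agent.P.MP_67c9d4_al.FC.Iface2

/-! A permutation without periodic points fixes no nontrivial conjugacy class. -/

namespace Pool.Agent.P.MP_67c9d4_al.FC

open Equiv Wr Multiplicative TD

namespace FIXCx

lemma fin_supp {Ω : Type} (w : FreeGroup Ω) : ∃ S : Set Ω, S.Finite ∧ w ∈ FS S := by
  induction w using FreeGroup.induction_on with
  | C1 => exact ⟨∅, Set.finite_empty, one_mem _⟩
  | of a => exact ⟨{a}, Set.finite_singleton a, Subgroup.subset_closure ⟨a, rfl, rfl⟩⟩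
  | inv_of a h => exact h.imp fun S h => ⟨h.1, inv_mem h.2⟩
  | mul a b ha hb =>
    obtain ⟨S, h1, h2⟩ := ha
    obtain ⟨T, h3, h4⟩ := hb
    exact ⟨S ∪ T, h1.union h3,
      mul_mem (Subgroup.closure_mono (Set.image_mono Set.subset_union_left) h2)
        (Subgroup.closure_mono (Set.image_mono Set.subset_union_right) h4)⟩

lemma pa_mem {Ω : Type} (q : Perm Ω) {S : Set Ω} {w : FreeGroup Ω} (h : w ∈ FS S) :
    pa q w ∈ FS (q '' S) := by
  have e : FS S ≤ (FS (q '' S)).comap (pa q).toMonoidHom := (Subgroup.closure_le _).2 (by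
    rintro _ ⟨a, ha, rfl⟩
    exact Subgroup.subset_closure ⟨q a, ⟨a, ha, rfl⟩, rfl⟩)
  exact e h

end FIXCx

open FIXCx in
theorem s_FIXC : S_FIXC := by
  intro Ω p w hp h
  have h1 : ∀ n : ℕ, IsConj w (pa (p ^ n) w) := by
    intro n
    induction n with
    | zero => rw [pow_zero, map_one]; exact IsConj.refl w
    | succ n ih =>
      rw [pow_succ', map_mul]
      exact h.trans ((pa p).toMonoidHom.map_isConj ih)
  obtain ⟨S, hS, hw⟩ := fin_supp w
  have h2 : ∀ ω, Function.Injective fun n : ℕ => (p ^ n) ω := by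
    intro ω
    refine Function.Injective.of_lt_imp_ne fun a b hab e => hp ω (b - a) (Nat.sub_pos_of_lt hab) ?_
    apply (p ^ a).injective
    rw [← Perm.mul_apply, ← pow_add, Nat.add_sub_cancel' hab.le]
    exact e.symm
  have h3 : (⋃ ω ∈ S, (fun n : ℕ => (p ^ n) ω) ⁻¹' S).Finite :=
    hS.biUnion fun ω _ => hS.preimage (h2 ω).injOn
  obtain ⟨n, hn⟩ := h3.infinite_compl.nonempty
  have h4 : Disjoint S ((p ^ n) '' S) := Set.disjoint_right.2 (by
    rintro _ ⟨ω, hω, rfl⟩ h5
    exact hn (Set.mem_biUnion hω h5))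
  have h5 := (retr S).map_isConj (h1 n)
  rw [retr_eq hw, retr_eq_one h4 (pa_mem _ hw)] at h5
  exact isConj_one_left.1 h5

end Pool.Agent.P.MP_67c9d4_al.FC
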