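import Pool.Agent.P.MP_67c9d4_al.FC.Iface2
import Pool.Agent.P.MP_67c9d4_al.FC.Fin

/-! The last steps for cyclic hierarchies. -/

namespace Pool.Agent.P.MP_67c9d4_al.FC

open Equiv Wr Multiplicative TD

def S_MAIN2 : Prop := ∀ (G H : Type) [Group G] [Group H] (χ : H →* MZ), Hier H χ →
  ∀ (K : Subgroup G) [K.FiniteIndex], (K ≃* H) → VRC G → VA G

theorem s_MAIN2 (hQALL : S_QALL) (hVIS2 : S_VIS2) (hNF : S_NF) (hPTW : S_PTW) : S_MAIN2 := by
  intro G H _ _ χ hH K hK e hv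
  have hvr : VR H := hv.vr.comap (J := K.subtype.comp e.symm.toMonoidHom)
    (K.subtype_injective.comp e.symm.injective)
  refine VA.map (G' := K) ?_ K.subtype_injective (by rwa [Subgroup.range_subtype])
  refine va_comap (G := H) ?_ (J := e.toMonoidHom) e.injective
  obtain ⟨M, hM, h⟩ := hQALL H χ hH
  have : NeZero M := ⟨hM.ne'⟩
  obtain ⟨P, hP, i, U, Ω, x, hc⟩ := h M hM dvd_rfl (B0 Empty) ⟨Empty, inferInstance, _, _, .base⟩
  have h1 : ∀ c, i c = 1 := fun c => by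
    rw [Subsingleton.elim (α := FreeGroup Empty) c 1]
    exact map_one i
  have h2 := hVIS2 M H Ω χ _ P i U x hc h1 hP hvr
  obtain ⟨V, _, j, n, hT⟩ := hP
  have h3 : VA P.H := (hNF V P j n hT fun v => h2 _ (by
    rw [(hPTW _ _ _ _ _ hT).1]; exact FreeGroup.lift_apply_of)).va
  obtain ⟨F, -, hF, -⟩ := hc.up H 1 (cst (pHom.comp U) (MonoidHom.id H)) (fun _ => 1) fun _ => rfl
  have := stb_fi U 0
  refine VA.map (G' := stb U 0) (va_comap h3 (J := stH U 0) fun a b hab => Subtype.ext ?_)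
    (stb U 0).subtype_injective (by rwa [Subgroup.range_subtype])
  have k : ∀ g : H, F ((U g).c 0) = g := fun g => congrArg (fun w => Wr.c w 0) (hF g)
  rw [← k a, ← k b]
  exact congrArg F hab

end Pool.Agent.P.MP_67c9d4_al.FC
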