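import Pool.Agent.P.MP_67c9d4_al.FC.Iface2

/-! The HNN extensions of Mathlib have the universal property. -/

namespace Pool.Agent.P.MP_67c9d4_al.FC

open Equiv Wr Multiplicative TD

theorem s_HNM : S_HNM := by
  rintro G _ _ B φ a rfl
  refine ⟨φ ⟨a, Subgroup.mem_zpowers a⟩, ?_, ?_, fun W _ f w hw => ?_⟩
  · rw [inv_inv, HNNExtension.equiv_eq_conj]
  · refine eq_top_iff.2 fun x _ => ?_
    induction x using HNNExtension.induction_on with
    | of g => exact Subgroup.subset_closure (Or.inl ⟨g, rfl⟩)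
    | t => exact (Subgroup.inv_mem_iff _).1 (Subgroup.subset_closure (Or.inr rfl))
    | mul x y hx hy => exact mul_mem (hx trivial) (hy trivial)
    | inv x hx => exact inv_mem (hx trivial)
  · have h0 : SemiconjBy w⁻¹ (f a) (f (φ ⟨a, Subgroup.mem_zpowers a⟩)) := by
      rw [SemiconjBy, ← hw, mul_inv_cancel_right]
    refine ⟨HNNExtension.lift f w⁻¹ ?_, fun g => HNNExtension.lift_of _ _ _ g,
      by rw [map_inv, HNNExtension.lift_t, inv_inv]⟩
    rintro ⟨_, n, rfl⟩
    have e : (⟨(fun n : ℤ => a ^ n) n, n, rfl⟩ : Subgroup.zpowers a) =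
      ⟨a, Subgroup.mem_zpowers a⟩ ^ n := Subtype.ext rfl
    rw [e, map_zpow, Subgroup.coe_zpow, Subgroup.coe_zpow, map_zpow, map_zpow]
    exact h0.zpow_right n

end Pool.Agent.P.MP_67c9d4_al.FC
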