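import Pool.Agent.P.MP_67c9d4_al.FC.Iface2

namespace Pool.Agent.P.MP_67c9d4_al.FC

open Equiv Wr Multiplicative TD

namespace ORBx

lemma uniq {k m : ℕ} {ω ω' : Fin k} {j j' : ℕ}
    (h : ((ω : ℕ) : ZMod (k * m)) - j * k = (ω' : ℕ) - j' * k) : ω = ω' ∧ j ≡ j' [MOD m] := by
  have h1 : ω + k * j' ≡ ω' + k * j [MOD k * m] := (ZMod.natCast_eq_natCast_iff _ _ _).1 (by
    push_cast
    linear_combination h)
  have h2 := h1.of_mul_right m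
  rw [Nat.ModEq, Nat.add_mul_mod_self_left, Nat.add_mul_mod_self_left, Nat.mod_eq_of_lt ω.2,
    Nat.mod_eq_of_lt ω'.2] at h2
  obtain rfl := Fin.ext h2
  exact ⟨rfl, ((Nat.ModEq.add_left_cancel' _ h1).mul_left_cancel' ω.pos.ne').symm⟩

end ORBx

theorem s_ORB : S_ORB := by
  intro k m hk hm π hc
  have : NeZero (k * m) := ⟨(mul_pos hk hm).ne'⟩
  have h0 : (m : ZMod (k * m)) * k = 0 := by rw [mul_comm, ← Nat.cast_mul, ZMod.natCast_self]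
  have hn : ∀ ξ : ZMod (k * m), ξ = ((ξ.val % k : ℕ) : ZMod (k * m)) -
      ((m - ξ.val / k : ℕ) : ZMod (k * m)) * k := fun ξ => by
    have h1 : ((ξ.val % k + k * (ξ.val / k) : ℕ) : ZMod (k * m)) = ξ := by
      rw [Nat.mod_add_div, ZMod.natCast_zmod_val]
    rw [Nat.cast_sub (Nat.div_le_of_le_mul ξ.val_lt.le)]
    rw [Nat.cast_add, Nat.cast_mul] at h1
    linear_combination h0 - h1
  refine ⟨Fin k, inferInstance, fun ω => ((ω : ℕ) : ZMod (k * m)),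
    fun ξ => ⟨ξ.val % k, Nat.mod_lt _ hk⟩, fun ξ => m - ξ.val / k, hn, ?_⟩
  intro W _ u v σ hu hv hr γ hγ hγc
  have p1 : ∀ (j : ℕ) (x : ZMod (k * m)), (Equiv.addRight (k : ZMod (k * m)) ^ j)⁻¹ x = x - j * k :=
    fun j x => by simp [sub_eq_add_neg]
  have p2 : ∀ (j : ℕ) (x : ZMod (k * m)), π⁻¹ (x - j * k) = π⁻¹ x - j * k := fun j x => by
    rw [← p1, ← p1]
    exact DFunLike.congr_fun (hc.inv_left.pow_right j).inv_right.eq x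
  let S : Fin k → ℕ → W := fun ω j =>
    ((u ^ j).c (ω : ℕ))⁻¹ * σ ω * (v ^ j).c (π⁻¹ (ω : ℕ))
  have s1 : ∀ ω j, S ω (j + 1) =
      (u.c ((ω : ℕ) - j * k))⁻¹ * S ω j * v.c (π⁻¹ ((ω : ℕ) - j * k)) := fun ω j => by
    simp only [S, pow_succ, mul_c, pow_p, hv, hu, p1, p2, mul_inv_rev, mul_assoc]
  have s2 : ∀ ω, Function.Periodic (S ω) m := fun ω j => by
    simp only [S, add_comm j m, pow_add, mul_c, pow_p, hv, hu, p1, h0, sub_zero, ← hr ω]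
    group
  have s3 : ∀ (ω : Fin k) (j : ℕ), γ.c ((ω : ℕ) - j * k) = S ω j := fun ω j => by
    obtain ⟨e1, e2⟩ := ORBx.uniq (ω' := ⟨_, Nat.mod_lt _ hk⟩) (hn ((ω : ℕ) - j * k))
    rw [← (s2 ω).map_mod_nat, e2, (s2 ω).map_mod_nat]
    exact (hγc _).trans (congrArg (fun ω' => S ω' _) e1.symm)
  refine ⟨?_, fun ω => by simpa [S] using s3 ω 0⟩
  rw [mul_assoc, inv_mul_eq_iff_eq_mul]
  refine Wr.ext (by rw [mul_p, mul_p, hv, hu, hγ, hc.eq]) (funext fun ξ => ?_)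
  obtain ⟨ω, j, rfl⟩ : ∃ (ω : Fin k) (j : ℕ), ξ = (ω : ℕ) - j * k := ⟨⟨_, Nat.mod_lt _ hk⟩, _, hn ξ⟩
  have e := p1 1 ((ω : ℕ) - j * k)
  rw [pow_one, sub_sub, ← add_mul, ← Nat.cast_add] at e
  rw [mul_c, mul_c, hu, e, s3, s3, s1, hγ]
  group

end Pool.Agent.P.MP_67c9d4_al.FC
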