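import Pool.Agent.P.MP_67c9d4_al.FC.Iface2

/-! Cyclic covers of hierarchies are free factors of towers. -/

namespace Pool.Agent.P.MP_67c9d4_al.FC

open Equiv Wr Multiplicative TD

namespace QALLx

lemma pos {x : MZ} (h : x ≠ 1) : 0 < x.toAdd.natAbs :=
  Int.natAbs_pos.2 fun h0 => h (toAdd_eq_zero.1 h0)

lemma qh (hQH : S_QH) {G G' : Type} [Group G] [Group G'] {i : G →* G'} {a b : G} {s : G'}
    {χ : G' →* MZ} {M : ℕ} (h : IsHNN i a b s) (h1 : χ (i a) ≠ 1) (hM : 0 < M)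
    (hd : (χ (i a)).toAdd.natAbs ∣ M) (hQ : QM M (χ.comp i)) : QM M χ := by
  obtain ⟨m, rfl⟩ := hd
  have hm := Nat.pos_of_mul_pos_left hM
  rcases Int.natAbs_eq (χ (i a)).toAdd with e | e
  · exact hQH G G' i a b s χ _ m h (pos h1) hm (by rw [← e, ofAdd_toAdd]) hQ
  · exact hQH G G' i a⁻¹ b⁻¹ s χ _ m h.inv (pos h1) hm
      (by rw [map_inv, map_inv, ← neg_eq_iff_eq_neg.2 e, ofAdd_neg, ofAdd_toAdd]) hQ

end QALLx

open QALLx in
theorem s_QALL (hQF : S_QF) (hQH : S_QH) (hQC : S_QC) (hQR : S_QR) (hAMF : S_AMF) (hHNM : S_HNM) :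
    S_QALL := by
  intro G _ χ h
  induction h with
  | free V χ => exact ⟨1, one_pos, fun M hM _ => hQF M V χ hM⟩
  | @hnn G _ A B φ a χ h1 h2 _ ih =>
    obtain ⟨M₀, h3, h4⟩ := ih
    obtain ⟨b, hb⟩ := hHNM G A B φ a h1
    exact ⟨M₀ * _, Nat.mul_pos h3 (pos h2), fun M hM hd =>
      qh hQH hb h2 hM (dvd_of_mul_left_dvd hd) (h4 M hM (dvd_of_mul_right_dvd hd))⟩
  | @amal G _ φ χ h1 _ ih =>
    choose M₀ h3 h4 using ih
    obtain ⟨G', _, i, s, J, χ', h5, h6, h7, h8, h9⟩ := hAMF G φ χ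
    have e : χ' (i (Monoid.Coprod.inl (φ true (ofAdd 1)))) =
        χ (Monoid.PushoutI.base φ (ofAdd 1)) := by
      rw [← Monoid.PushoutI.of_apply_eq_base φ true]
      exact DFunLike.congr_fun h8 _
    refine ⟨M₀ true * M₀ false * _, Nat.mul_pos (Nat.mul_pos (h3 _) (h3 _)) (pos h1),
      fun M hM hd => ?_⟩
    have h10 := dvd_of_mul_right_dvd hd
    rw [← h7]
    refine hQR M _ G' Unit J _ χ' h6 (qh hQH h5 (e ▸ h1) hM (e ▸ dvd_of_mul_left_dvd hd)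
      (hQC M _ _ _ ?_ ?_))
    · rw [h8]
      exact h4 _ M hM (dvd_of_mul_right_dvd h10)
    · rw [h9]
      exact h4 _ M hM (dvd_of_mul_left_dvd h10)

end Pool.Agent.P.MP_67c9d4_al.FC
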