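import Pool.Agent.P.MP_67c9d4_al.FC.Iface2

/-! Cyclic covers of HNN extensions. -/

namespace Pool.Agent.P.MP_67c9d4_al.FC

open Equiv Wr Multiplicative TD

namespace QHx

variable {W W' : Type} [Group W] [Group W'] {M : ℕ}

lemma idn {u v γ : Wr (ZMod M) W} {θ : ZMod M} (hu : u.p = Equiv.addRight θ)
    (h : γ⁻¹ * u * γ = v) (n : ℕ) (y : ZMod M) :
    γ.c (y - n * θ) = ((u ^ n).c y)⁻¹ * γ.c y * (v ^ n).c (γ.p⁻¹ y) := by
  have e1 : u ^ n * γ = γ * v ^ n := by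
    have e0 : γ⁻¹ * u * γ = γ⁻¹ * u * γ⁻¹⁻¹ := by rw [inv_inv]
    rw [← h, e0, conj_pow]
    group
  have e2 : (u ^ n).p⁻¹ y = y - n * θ := by
    rw [Perm.inv_eq_iff_eq, shift_pow u θ (fun y => by rw [hu]; rfl), sub_add_cancel]
  have e3 := congrArg (fun w => w.c y) e1
  simp only [mul_c, e2] at e3
  rw [mul_assoc, ← e3, inv_mul_cancel_left]

lemma push_pow {X : Type} (F : W →* W') (u : Wr X W) (n : ℕ) (y : X) :
    F ((u ^ n).c y) = (push F u ^ n).c y := by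
  rw [← map_pow, push_c]

lemma push_push {X W'' : Type} [Group W''] {F : W' →* W''} {j : W →* W'} {F₀ : W →* W''}
    (h : ∀ c, F (j c) = F₀ c) (u : Wr X W) : push F (push j u) = push F₀ u :=
  Wr.ext rfl (funext fun _ => h _)

end QHx

open QHx in
theorem s_QH (hDBL : S_DBL) (hORB : S_ORB) : S_QH := by
  intro G G' _ _ i a b s χ k m hs hk hm ha hQ C hC
  obtain ⟨H₀, hH₀, i₁, U₀, Ω, x₀, h₀⟩ := hQ C hC
  have hb : χ (i b) = ofAdd (k : ℤ) := by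
    rw [← hs.rel, map_mul, map_mul, map_inv, ha, mul_comm, mul_inv_cancel_left]
  have hp : ∀ g, χ (i g) = ofAdd (k : ℤ) → (U₀ g).p = Equiv.addRight (k : ZMod (k * m)) :=
    fun g hg => by
      rw [← push_p H₀.χ, h₀.cU, etaM_p, MonoidHom.comp_apply, hg, toAdd_ofAdd, Int.cast_natCast]
  have hc : ∀ g, χ (i g) = ofAdd (k : ℤ) → ∀ y, H₀.χ ((U₀ g ^ m).c y) = ofAdd 1 := fun g hg y => by
    rw [push_pow, h₀.cU, ← map_pow, MonoidHom.comp_apply, hg, ← ofAdd_nsmul, nsmul_eq_mul,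
      mul_comm (m : ℤ), ← Nat.cast_mul, etaM_c (Nat.mul_pos hk hm)]
  set π := (etaM (k * m) (χ s)).p with hπ
  obtain ⟨I, _, r, ob, n, h1, h2⟩ := hORB k m hk hm π (by
    rw [hπ, etaM_p]
    ext y
    simp [add_right_comm])
  obtain ⟨H, hH, i₂, x₁, σ, hE, hci, hσ⟩ := hDBL H₀ I (fun ω => (U₀ a ^ m).c (r ω))
    (fun ω => (U₀ b ^ m).c (π⁻¹ (r ω))) (fun ω => (etaM (k * m) (χ s)).c (r ω)) hH₀
    (fun ω => hc a ha _) fun ω => hc b hb _
  let γ : Wr (ZMod (k * m)) H.H := ⟨π, fun ξ => ((push i₂ (U₀ a) ^ n ξ).c (r (ob ξ)))⁻¹ *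
    σ (ob ξ) * (push i₂ (U₀ b) ^ n ξ).c (π⁻¹ (r (ob ξ)))⟩
  obtain ⟨h3, h4⟩ := h2 H.H (push i₂ (U₀ a)) (push i₂ (U₀ b)) σ (hp a ha)
    ((hp b hb).trans (hp a ha).symm)
    (fun ω => by rw [← push_pow, ← push_pow]; exact hE.rel ω) γ rfl fun _ => rfl
  obtain ⟨U, hU, hUs⟩ := hs.up _ ((push i₂).comp U₀) γ h3
  have rel : ∀ (W : Type) [Group W] (ρ : G' →* Wr (ZMod (k * m)) W),
      (ρ s)⁻¹ * ρ (i a) * ρ s = ρ (i b) := fun W _ ρ => by
    rw [← hs.rel, map_mul, map_mul, map_inv]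
  have key : ∀ (W : Type) [Group W] (F : H.H →* W) (ρ : G' →* Wr (ZMod (k * m)) W),
      (∀ g, push F (push i₂ (U₀ g)) = ρ (i g)) → (ρ s).p = π →
      (∀ ω, F (σ ω) = (ρ s).c (r ω)) → ∀ g, push F (U g) = ρ g := by
    intro W _ F ρ e1 e2 e3 g
    refine DFunLike.congr_fun (hs.ext (F := (push F).comp U) (F' := ρ)
      (fun g => by rw [MonoidHom.comp_apply, hU]; exact e1 g) ?_) g
    rw [MonoidHom.comp_apply, hUs]
    refine Wr.ext e2.symm (funext fun ξ => ?_)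
    have e4 := idn (θ := (k : ZMod (k * m))) (by rw [← e1]; exact hp a ha) (rel W ρ) (n ξ)
      (r (ob ξ))
    rw [← h1, e2, ← e3, ← e1, ← e1, ← push_pow F, ← push_pow F, ← map_inv, ← map_mul,
      ← map_mul] at e4
    exact e4.symm
  refine ⟨H, hH, i₂.comp i₁, U, Ω ⊕ I, Sum.elim (i₂ ∘ x₀) x₁, fun c => (hci _).trans (h₀.ci c),
    key MZ H.χ ((etaM (k * m)).comp χ) (fun g => (push_push hci _).trans (h₀.cU g)) rfl hσ,
    ?_, fun W _ f ρ y hρ => ?_⟩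
  · rw [eq_top_iff, ← hE.gen, Subgroup.closure_le]
    rintro _ ((⟨c, rfl⟩ | ⟨ω, rfl⟩) | ⟨ω, rfl⟩)
    · have e : c ∈ Subgroup.closure (Set.range i₁ ∪ {h | ∃ g ξ, h = (U₀ g).c ξ} ∪ Set.range x₀) :=
        h₀.gen ▸ Subgroup.mem_top c
      refine Subgroup.mem_comap.1 ((Subgroup.closure_le (Subgroup.comap i₂ _)).2 ?_ e)
      rintro _ ((⟨c, rfl⟩ | ⟨g, ξ, rfl⟩) | ⟨ω, rfl⟩)
      · exact Subgroup.subset_closure (Or.inl (Or.inl ⟨c, rfl⟩))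
      · exact Subgroup.subset_closure (Or.inl (Or.inr ⟨i g, ξ, by rw [hU]; rfl⟩))
      · exact Subgroup.subset_closure (Or.inr ⟨Sum.inl ω, rfl⟩)
    · exact Subgroup.subset_closure (Or.inr ⟨Sum.inr ω, rfl⟩)
    · exact Subgroup.subset_closure (Or.inl (Or.inr ⟨s, r ω, by rw [hUs, h4]⟩))
  · have e1 : ∀ g, (ρ (i g)).p = (U₀ g).p := fun g => by rw [hρ, hU]; rfl
    have e2 : (ρ s).p = π := by rw [hρ, hUs]
    obtain ⟨F₀, f1, f2, f3⟩ := h₀.up W f (ρ.comp i) (y ∘ Sum.inl) e1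
    obtain ⟨F, g1, g2, g3⟩ := hE.up W F₀ (y ∘ Sum.inr) (fun ω => (ρ s).c (r ω)) fun ω => by
      have e3 := idn (θ := (k : ZMod (k * m))) ((e1 a).trans (hp a ha)) (rel W ρ) m (r ω)
      rw [mul_comm (m : ZMod (k * m)), ← Nat.cast_mul, ZMod.natCast_self, sub_zero, e2,
        mul_assoc, eq_inv_mul_iff_mul_eq] at e3
      rw [push_pow, push_pow, f2, f2, MonoidHom.comp_apply, MonoidHom.comp_apply, mul_assoc, e3,
        inv_mul_cancel_left]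
    refine ⟨F, fun c => (g1 _).trans (f1 c),
      key W F ρ (fun g => (push_push g1 _).trans (f2 g)) e2 g3, ?_⟩
    rintro (ω | ω)
    · exact (g1 _).trans (f3 ω)
    · exact g2 ω

end Pool.Agent.P.MP_67c9d4_al.FC
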