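import Pool.Agent.P.MP_67c9d4_al.FC.Iface2

/-! Passing to a free factor. -/

namespace Pool.Agent.P.MP_67c9d4_al.FC

open Equiv Wr Multiplicative TD

theorem s_QR : S_QR := by
  intro M G G' Ω _ _ J s χ hF hQ C hC
  obtain ⟨H, hH, i, U, Ω', x, hU⟩ := hQ C hC
  refine ⟨H, hH, i, U.comp J, Ω' ⊕ Ω × ZMod M, Sum.elim x fun q => (U (s q.1)).c q.2,
    hU.ci, fun g => hU.cU (J g), ?_, fun W _ f ρ y hρ => ?_⟩
  · rw [eq_top_iff, ← hU.gen, Subgroup.closure_le]
    rintro h ((h1 | ⟨g, ξ, rfl⟩) | ⟨ω, rfl⟩)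
    · exact Subgroup.subset_closure (.inl (.inl h1))
    · have hg : g ∈ Subgroup.closure (Set.range J ∪ Set.range s) := hF.gen ▸ Subgroup.mem_top g
      induction hg using Subgroup.closure_induction generalizing ξ with
      | mem g hg =>
        rcases hg with ⟨a, rfl⟩ | ⟨ω, rfl⟩
        · exact Subgroup.subset_closure (.inl (.inr ⟨a, ξ, rfl⟩))
        · exact Subgroup.subset_closure (.inr ⟨.inr (ω, ξ), rfl⟩)
      | one =>
        rw [map_one, one_c]
        exact one_mem _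
      | mul a b _ _ ha hb =>
        rw [map_mul, mul_c]
        exact mul_mem (ha _) (hb _)
      | inv a _ ha =>
        rw [map_inv, inv_c]
        exact inv_mem (ha _)
    · exact Subgroup.subset_closure (.inr ⟨.inl ω, rfl⟩)
  · obtain ⟨ρ', h1, h2⟩ := hF.up _ ρ fun ω => ⟨(U (s ω)).p, fun ξ => y (.inr (ω, ξ))⟩
    have h3 : pHom.comp ρ' = pHom.comp U := by
      refine MonoidHom.eq_of_eqOn_dense hF.gen ?_
      rintro _ (⟨a, rfl⟩ | ⟨ω, rfl⟩)
      · change (ρ' (J a)).p = (U (J a)).p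
        rw [h1]
        exact hρ a
      · change (ρ' (s ω)).p = (U (s ω)).p
        rw [h2]
    obtain ⟨F, f1, f2, f3⟩ := hU.up W f ρ' (fun ω => y (.inl ω)) (DFunLike.congr_fun h3)
    refine ⟨F, f1, fun g => (f2 (J g)).trans (h1 g), ?_⟩
    rintro (ω | ⟨ω, ξ⟩)
    · exact f3 ω
    · exact congrFun (congrArg Wr.c ((f2 (s ω)).trans (h2 ω))) ξ

end Pool.Agent.P.MP_67c9d4_al.FC
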