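import Pool.Agent.P.MP_67c9d4_al.FC.Iface2

/-! The cover embeds in a split extension of a free group. -/

namespace Pool.Agent.P.MP_67c9d4_al.FC

open Equiv Wr Multiplicative TD

namespace SPLITx

open SemidirectProduct

/-- Left translation on the first factor. -/
def act (Q V : Type) [Group Q] : Q →* Perm (Q × V) where
  toFun h := Equiv.prodCongr (Equiv.mulLeft h) (Equiv.refl V)
  map_one' := by ext q <;> simp
  map_mul' a b := by ext q <;> simp [mul_assoc]

lemma act_apply {Q V : Type} [Group Q] (h : Q) (q : Q × V) : act Q V h q = (h * q.1, q.2) := rfl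

abbrev WW (Q V : Type) [Group Q] : Type := FreeGroup (Q × V) ⋊[pa.comp (act Q V)] Q

variable {Q V B G H X : Type} [Group Q] [Group B] [Group G] [Group H]

/-- The evaluation map. -/
def xi (f : Q →* B) (γ : V → B) : WW Q V →* B :=
  SemidirectProduct.lift (FreeGroup.lift fun q : Q × V => f q.1 * γ q.2 * (f q.1)⁻¹) f
    fun h => by
      ext q
      simp [pa_of, act_apply, mul_assoc]

lemma xi_inl (f : Q →* B) (γ : V → B) (v : V) : xi f γ (inl (FreeGroup.of (1, v))) = γ v := by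
  simp [xi]

lemma xi_inr (f : Q →* B) (γ : V → B) (h : Q) : xi f γ (inr h) = f h := by
  simp [xi]

/-- A cocycle over the same action. -/
def rho (U : G →* Wr X H) (χ : H →* MZ) (f : G × MZ →* B) (z : X → B) : G →* Wr X B :=
  MonoidHom.mk' (fun g => ⟨(U g).p, fun ξ => (z ξ)⁻¹ * f (g, χ ((U g).c ξ)) * z ((U g).p⁻¹ ξ)⟩)
    fun a b => by
      refine Wr.ext (by simp) (funext fun ξ => ?_)
      simp only [map_mul, mul_c, mul_p, mul_inv_rev, Perm.mul_apply, ← Prod.mk_mul_mk, mul_assoc,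
        mul_inv_cancel_left]

end SPLITx

open SemidirectProduct SPLITx in
theorem s_SPLIT : S_SPLIT := by
  intro M G Ω _ χ C H i U x h hi
  obtain ⟨Θ, -, h1, h2⟩ := h.up (WW (G × MZ) (ZMod M ⊕ Ω)) 1
    (rho U H.χ inr fun ξ => inl (FreeGroup.of (1, Sum.inl ξ)))
    (fun ω => inl (FreeGroup.of (1, Sum.inr ω)) * inr (1, H.χ (x ω))) fun _ => rfl
  have h3 : ∀ g ξ, Θ ((U g).c ξ) = (inl (FreeGroup.of (1, Sum.inl ξ)))⁻¹ *
      inr (g, H.χ ((U g).c ξ)) * inl (FreeGroup.of (1, Sum.inl ((U g).p⁻¹ ξ))) :=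
    fun g ξ => congrArg (·.c ξ) (h1 g)
  refine ⟨_, _, Θ, ?_, ?_, fun q ω e => by simpa [act_apply] using congrArg Prod.fst e⟩
  · let Ξ := xi (U.comp (MonoidHom.fst G MZ))
      (Sum.elim (fun ξ : ZMod M => ⟨swap 0 ξ, fun _ => 1⟩) fun ω => ⟨1, fun _ => x ω⟩)
    have key : ∀ g, (Ξ (Θ g)).p 0 = 0 ∧ (Ξ (Θ g)).c 0 = g := fun g => by
      have hg : g ∈ Subgroup.closure _ := h.gen ▸ Subgroup.mem_top g
      induction hg using Subgroup.closure_induction with
      | mem g hg =>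
        rcases hg with (⟨c, rfl⟩ | ⟨g, ξ, rfl⟩) | ⟨ω, rfl⟩
        · simp [hi]
        · simp [Ξ, h3, xi_inl, xi_inr]
        · simp [Ξ, h2, xi_inl, xi_inr]
      | one => simp
      | mul a b _ _ ha hb =>
        rw [map_mul, map_mul, mul_p, mul_c, Perm.mul_apply, hb.1, ha.1, ha.2,
          Perm.inv_eq_iff_eq.2 ha.1.symm, hb.2]
        exact ⟨rfl, rfl⟩
      | inv a _ ha =>
        rw [map_inv, map_inv, inv_p, inv_c, ha.1, ha.2]
        exact ⟨Perm.inv_eq_iff_eq.2 ha.1.symm, rfl⟩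
    exact fun a b e => by rw [← (key a).2, e, (key b).2]
  · have e : ((MonoidHom.snd G MZ).comp rightHom).comp Θ = H.χ := by
      refine MonoidHom.eq_of_eqOn_dense h.gen ?_
      rintro _ ((⟨c, rfl⟩ | ⟨g, ξ, rfl⟩) | ⟨ω, rfl⟩)
      · simp [hi]
      · simp [h3]
      · simp [h2]
    exact DFunLike.congr_fun e

end Pool.Agent.P.MP_67c9d4_al.FC
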