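import Pool.Agent.P.MP_67c9d4_al.FC.Iface2

/-! Towers over free groups are torsion free. -/

namespace Pool.Agent.P.MP_67c9d4_al.FC

open Equiv Wr Multiplicative TD

theorem s_TF (hHINJ : S_HINJ) (hHTD : S_HTD) (hAXIS : S_AXIS) (hLINJ : S_LINJ) : S_TF := by
  rintro H ⟨V, -, j, n, hT⟩
  induction hT with
  | base => exact fun g : FreeGroup V => fun hg => IsOfFinOrder.eq_one' (G := FreeGroup V) hg
  | @step H H' j n i a y s _ _ ha hy hH _ _ ih =>
    intro g hg
    have hi := hHINJ _ _ H.χ i a y s hH ha hy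
    obtain ⟨D, hD⟩ := hHTD _ _ i a y s hH hi
    obtain ⟨m, m0, hm⟩ := isOfFinOrder_iff_pow_eq_one.1 hg
    by_cases he : D.Ell g
    · obtain ⟨v, c, hc⟩ := he
      rw [show v = () from rfl, hD.hG] at hc
      obtain ⟨g₀, h0⟩ := hc
      have h1 : g₀ = 1 := ih g₀ (isOfFinOrder_iff_pow_eq_one.2 ⟨m, m0, hi (by
        have := conj_pow (i := m) (a := c⁻¹) (b := g)
        rw [inv_inv] at this
        rw [map_pow, h0, this, hm, mul_one, inv_mul_cancel, map_one])⟩)
      rw [h1, map_one] at h0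
      calc g = c * (c⁻¹ * g * c) * c⁻¹ := by group
        _ = 1 := by rw [← h0, mul_one, mul_inv_cancel]
    · obtain ⟨c, l, h⟩ := hAXIS _ _ _ D hD.tree () g he
      have e := h.zper 0 m
      rw [zpow_natCast, hm, act_one] at e
      have e2 := hLINJ _ _ _ D hD.tree g c l h (0 + l * m) 0 (e ▸ Same.refl _ _)
      have := h.pos
      have e3 : l * m = 0 := by exact_mod_cast (zero_add _).symm.trans e2
      exact absurd e3 (Nat.mul_pos this m0).ne'

end Pool.Agent.P.MP_67c9d4_al.FC
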