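import Pool.Agent.P.MP_67c9d4_al.FC.Iface2

/-! Vertical elements of centralisers in the cyclic cover are seen by virtual characters. -/

namespace Pool.Agent.P.MP_67c9d4_al.FC

open Equiv Wr Multiplicative TD

theorem s_VIS2 (hSPLIT : S_SPLIT) (hTF : S_TF) (hFIXC : S_FIXC) : S_VIS2 := by
  intro M G Ω _ χ C H i U x hCv hi hH hG τ hτ
  obtain ⟨Ω', a, Θ, hΘ, h2, ha⟩ := hSPLIT M G Ω χ C H i U x hCv hi
  have key : ∀ z, Commute z τ → (Θ z).right = 1 → z = 1 := by
    intro z hz h1
    have e1 := congrArg SemidirectProduct.left (hz.map Θ).eq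
    rw [SemidirectProduct.mul_left, SemidirectProduct.mul_left, h1, map_one, MulAut.one_apply,
      MonoidHom.comp_apply] at e1
    have e2 : (Θ z).left = 1 := by
      refine hFIXC Ω' (a (Θ τ).right) _ (fun ω n hn e => ?_) (isConj_iff.2 ⟨((Θ τ).left)⁻¹, ?_⟩)
      · rw [← map_pow] at e
        have e3 := congrArg Prod.snd (ha _ ω e)
        rw [Prod.pow_snd, h2, ← map_pow, chi_pow hτ] at e3
        have e4 : (n : ℤ) = 0 := by simpa using congrArg toAdd e3
        omega
      · rw [inv_inv, mul_assoc, e1, inv_mul_cancel_left]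
    exact hΘ (by rw [map_one]; exact SemidirectProduct.ext e2 h1)
  intro z hz hz1 hχ
  refine VRat.comap (f := (MonoidHom.fst G MZ).comp (SemidirectProduct.rightHom.comp Θ))
    (hG _ fun hf => hz1 (hTF H hH z ?_))
  obtain ⟨n, hn, e⟩ := isOfFinOrder_iff_pow_eq_one.1 hf
  refine isOfFinOrder_iff_pow_eq_one.2 ⟨n, hn, key _ (hz.pow_left n) (Prod.ext ?_ ?_)⟩
  · rw [← map_pow] at e
    exact e
  · rw [h2, map_pow, hχ, one_pow]
    rfl

end Pool.Agent.P.MP_67c9d4_al.FC
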