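import Pool.Agent.P.MP_67c9d4_al.FC.All
import Pool.Agent.P.MP_67c9d4_al.FC.ADDV
import Pool.Agent.P.MP_67c9d4_al.FC.ADDF
import Pool.Agent.P.MP_67c9d4_al.FC.QF
import Pool.Agent.P.MP_67c9d4_al.FC.DBL1
import Pool.Agent.P.MP_67c9d4_al.FC.DBL
import Pool.Agent.P.MP_67c9d4_al.FC.ORB
import Pool.Agent.P.MP_67c9d4_al.FC.QH
import Pool.Agent.P.MP_67c9d4_al.FC.QC
import Pool.Agent.P.MP_67c9d4_al.FC.QR
import Pool.Agent.P.MP_67c9d4_al.FC.AMF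
import Pool.Agent.P.MP_67c9d4_al.FC.HNM
import Pool.Agent.P.MP_67c9d4_al.FC.QALL
import Pool.Agent.P.MP_67c9d4_al.FC.SPLIT
import Pool.Agent.P.MP_67c9d4_al.FC.TF
import Pool.Agent.P.MP_67c9d4_al.FC.FIXC
import Pool.Agent.P.MP_67c9d4_al.FC.VIS2
import Pool.Agent.P.MP_67c9d4_al.FC.Fin2

/-! All steps for cyclic hierarchies put together. -/

namespace Pool.Agent.P.MP_67c9d4_al.FC

theorem t_ADDV : S_ADDV := s_ADDV t_HEX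
theorem t_ADDF : S_ADDF := s_ADDF t_ADDV t_PTW
theorem t_QF : S_QF := s_QF t_ADDF
theorem t_DBL1 : S_DBL1 := s_DBL1 t_ADDV t_HEX t_PTW
theorem t_DBL : S_DBL := s_DBL t_DBL1
theorem t_ORB : S_ORB := s_ORB
theorem t_QH : S_QH := s_QH t_DBL t_ORB
theorem t_QC : S_QC := s_QC
theorem t_QR : S_QR := s_QR
theorem t_AMF : S_AMF := s_AMF
theorem t_HNM : S_HNM := s_HNM
theorem t_QALL : S_QALL := s_QALL t_QF t_QH t_QC t_QR t_AMF t_HNM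
theorem t_SPLIT : S_SPLIT := s_SPLIT
theorem t_TF : S_TF := s_TF t_HINJ t_HTD t_AXIS t_LINJ
theorem t_FIXC : S_FIXC := s_FIXC
theorem t_VIS2 : S_VIS2 := s_VIS2 t_SPLIT t_TF t_FIXC
theorem t_MAIN2 : S_MAIN2 := s_MAIN2 t_QALL t_VIS2 t_NF t_PTW

end Pool.Agent.P.MP_67c9d4_al.FC
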