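import Pool.Agent.P.MP_67c9d4_al.FC.Iface

/-! Balancing the total classes of two elements. -/

namespace Pool.Agent.P.MP_67c9d4_al.FC

open Equiv Wr Multiplicative TD

theorem s_BAL : S_BAL := by
  intro H B X _ _ _ t y ⟨m, hm⟩ hO σ
  have hN : Neu (Wr.sum σ ((push m).comp σ)) := fun C _ f g => by
    rw [tot_sum, tot_apply, tot_apply, ← Finset.prod_mul_distrib]
    exact Finset.prod_eq_one fun x _ => mul_eq_one_iff_eq_inv'.2 (hm C f _)
  obtain ⟨c, Y, _, τ, hc, -, h1, h2⟩ := hO.corr ((Jen B).sub_mem (hN.tc_mem t) (hN.tc_mem y))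
  refine ⟨_, inferInstance, Wr.sum (cp (Fin c) (Wr.sum σ ((push m).comp σ))) τ,
    (Dom.sum _ _).trans (((cp_cov _ _).dom fun x => ⟨(⟨0, hc⟩, x), rfl⟩).trans (Dom.sum _ _)), ?_⟩
  rw [tc_sum, tc_sum, tc_cp, tc_cp, h1, h2 t rfl, add_zero, ← smul_add, add_sub_cancel]

end Pool.Agent.P.MP_67c9d4_al.FC
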