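import Pool.Agent.P.MP_67c9d4_al.FC.Defs

/-! Basic facts on subgroups. -/

namespace Pool.Agent.P.MP_67c9d4_al.FC

open Equiv Wr Multiplicative

section groups
variable {H H' : Type} [Group H] [Group H']

lemma mem_cj {c g : H} {A : Subgroup H} : g ∈ cj c A ↔ c⁻¹ * g * c ∈ A := by
  simp [cj]

lemma conj_mem_cj {c g : H} {A : Subgroup H} : c * g * c⁻¹ ∈ cj c A ↔ g ∈ A := by
  simp [mem_cj, mul_assoc]

lemma cj_cj (c d : H) (A : Subgroup H) : cj c (cj d A) = cj (c * d) A := by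
  ext g; simp [mem_cj, mul_assoc]

lemma cj_one (A : Subgroup H) : cj 1 A = A := by
  ext g; simp [mem_cj]

lemma cj_bot (c : H) : cj c (⊥ : Subgroup H) = ⊥ := by
  ext g
  rw [mem_cj, Subgroup.mem_bot, Subgroup.mem_bot]
  constructor
  · intro h
    have : g = c * (c⁻¹ * g * c) * c⁻¹ := by group
    rw [this, h]; group
  · rintro rfl; group

lemma cj_zpowers (c a : H) : cj c (Subgroup.zpowers a) = Subgroup.zpowers (c * a * c⁻¹) := by
  ext g
  simp only [mem_cj, Subgroup.mem_zpowers_iff, conj_zpow]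
  refine exists_congr fun k => ⟨fun h => by rw [h]; group, fun h => by rw [← h]; group⟩

lemma FN.top : FN (⊤ : Subgroup H) := by
  exact ⟨inferInstance, inferInstance⟩

lemma FN.inf {N N' : Subgroup H} (h : FN N) (h' : FN N') : FN (N ⊓ N') := by
  obtain ⟨a, b⟩ := h
  obtain ⟨c, d⟩ := h'
  exact ⟨inferInstance, inferInstance⟩

lemma FN.iInf {J : Type} [Finite J] {N : J → Subgroup H} (h : ∀ j, FN (N j)) : FN (⨅ j, N j) := by
  exact ⟨Subgroup.normal_iInf_normal fun j => (h j).1, Subgroup.finiteIndex_iInf fun j => (h j).2⟩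

lemma FN.core (K : Subgroup H) [K.FiniteIndex] : FN K.normalCore := by
  exact ⟨inferInstance, inferInstance⟩

lemma FN.comap {N : Subgroup H} (h : FN N) (f : H' →* H) : FN (N.comap f) := by
  obtain ⟨a, b⟩ := h
  exact ⟨inferInstance, fi_comap N f⟩

lemma FN.ker {Q : Type} [Group Q] [Finite Q] (f : H →* Q) : FN f.ker := by
  exact ⟨inferInstance, inferInstance⟩

lemma FN.pow_mem {N : Subgroup H} (h : FN N) (g : H) : g ^ N.index ∈ N := by
  have := h.1
  exact N.pow_index_mem g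

/-- A property that passes to smaller subgroups holds for finitely many indices at once. -/
lemma FN.exists_forall {J : Type} [Finite J] {p : J → Subgroup H → Prop}
    (mono : ∀ j N N', N' ≤ N → p j N → p j N') (h : ∀ j, ∃ N, FN N ∧ p j N) :
    ∃ N, FN N ∧ ∀ j, p j N := by
  choose N hN hp using h
  exact ⟨⨅ j, N j, FN.iInf hN, fun j => mono j _ _ (iInf_le N j) (hp j)⟩

/-- The kernel of a virtual character modulo `m` contains a normal subgroup of finite index. -/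
lemma FN.exists_dvd (K : Subgroup H) [K.FiniteIndex] (f : K →* MZ) {m : ℕ} (hm : 0 < m) :
    ∃ N, FN N ∧ ∀ g ∈ N, ∃ h : g ∈ K, (m : ℤ) ∣ (f ⟨g, h⟩).toAdd := by
  have : NeZero m := ⟨hm.ne'⟩
  let φ : K →* Multiplicative (ZMod m) :=
    (AddMonoidHom.toMultiplicative (Int.castAddHom (ZMod m))).comp f
  have : (φ.ker.map K.subtype).FiniteIndex := by
    constructor
    rw [Subgroup.index_map_subtype]
    exact mul_ne_zero Subgroup.FiniteIndex.index_ne_zero Subgroup.FiniteIndex.index_ne_zero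
  refine ⟨_, FN.core (φ.ker.map K.subtype), fun g hg => ?_⟩
  obtain ⟨k, hk, rfl⟩ := Subgroup.normalCore_le _ hg
  exact ⟨k.2, (ZMod.intCast_zmod_eq_zero_iff_dvd _ m).1 hk⟩

lemma mem_sup_left' {A N : Subgroup H} (hN : N.Normal) {g : H} :
    g ∈ A ⊔ N ↔ ∃ a ∈ A, a⁻¹ * g ∈ N := by
  rw [Subgroup.mem_sup_of_normal_right]
  constructor
  · rintro ⟨a, ha, n, hn, rfl⟩
    exact ⟨a, ha, by simpa using hn⟩
  · rintro ⟨a, ha, hn⟩
    exact ⟨a, ha, _, hn, by simp⟩

lemma mem_sup_right' {A N : Subgroup H} (hN : N.Normal) {g : H} :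
    g ∈ A ⊔ N ↔ ∃ a ∈ A, g * a⁻¹ ∈ N := by
  rw [mem_sup_left' hN]
  refine exists_congr fun a => and_congr_right fun _ => ?_
  exact hN.mem_comm_iff

lemma mem_cj_sup {A N : Subgroup H} (hN : N.Normal) {c g : H} :
    g ∈ cj c A ⊔ N ↔ c⁻¹ * g * c ∈ A ⊔ N := by
  rw [mem_sup_left' hN, mem_sup_left' hN]
  constructor
  · rintro ⟨a, ha, hn⟩
    refine ⟨_, mem_cj.1 ha, ?_⟩
    have := hN.conj_mem' _ hn c
    convert this using 1; group
  · rintro ⟨a, ha, hn⟩
    refine ⟨_, (conj_mem_cj (c := c)).2 ha, ?_⟩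
    have := hN.conj_mem _ hn c
    convert this using 1; group

lemma Sepb.cj {A : Subgroup H} (h : Sepb A) (c : H) : Sepb (cj c A) := by
  intro g hg
  obtain ⟨N, hN, h1⟩ := h _ (mt mem_cj.2 hg)
  exact ⟨N, hN, fun h2 => h1 ((mem_cj_sup hN.1).1 h2)⟩

lemma Ind1.cj {a : H} {B : Subgroup H} (h : Ind1 a B) (c : H) : Ind1 (c * a * c⁻¹) (cj c B) := by
  obtain ⟨K, hK, f, h1, h2⟩ := h
  refine ⟨FC.cj c K, fi_comap K _, f.comp (MonoidHom.subgroupComap _ K), fun b hb => h1 _ hb,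
    fun M hM h0 => ?_⟩
  have e : (MulAut.conj c⁻¹).toMonoidHom ((c * a * c⁻¹) ^ M) = a ^ M := by
    rw [conj_zpow]; simp [mul_assoc]
  have := h2 M (e ▸ hM) h0
  exact fun h3 => this (Eq.trans (congrArg f (Subtype.ext e.symm)) h3)

lemma Ind3.cj {A B₁ B₂ : Subgroup H} (h : Ind3 A B₁ B₂) (c : H) :
    Ind3 (cj c A) (cj c B₁) (cj c B₂) := by
  obtain ⟨K, hK, f₁, f₂, h1, h2, h3⟩ := h
  refine ⟨FC.cj c K, fi_comap K _, f₁.comp (MonoidHom.subgroupComap _ K),
    f₂.comp (MonoidHom.subgroupComap _ K), fun b hb => h1 _ hb, fun b hb => h2 _ hb,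
    fun a ha M hM h0 e1 e2 => ?_⟩
  have e := map_pow (MulAut.conj c⁻¹).toMonoidHom a M
  have := h3 _ ha M (e ▸ hM) h0 (Eq.trans (congrArg f₁ (Subtype.ext e.symm)) e1)
    (Eq.trans (congrArg f₂ (Subtype.ext e.symm)) e2)
  exact (MulAut.conj c⁻¹).injective (this.trans (map_one _).symm)

lemma Ind3.bot (B₁ B₂ : Subgroup H) : Ind3 ⊥ B₁ B₂ := by
  exact ⟨⊤, inferInstance, 1, 1, fun _ _ => rfl, fun _ _ => rfl, fun a ha _ _ _ _ _ => ha⟩

lemma Ind1.ind3 {a : H} {B : Subgroup H} (h : Ind1 a B) : Ind3 (Subgroup.zpowers a) B B := by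
  obtain ⟨K, hK, f, h1, h2⟩ := h
  refine ⟨K, hK, f, f, h1, h1, ?_⟩
  rintro _ ⟨k, rfl⟩ M hM h0 e1 -
  by_contra hk
  have hk0 : k ≠ 0 := fun e => hk (by simp [e])
  have e : (a ^ k) ^ M = a ^ (k * M) := by rw [zpow_mul, zpow_natCast]
  exact h2 (k * M) (e ▸ hM) (mul_ne_zero hk0 (by exact_mod_cast h0.ne'))
    (Eq.trans (congrArg f (Subtype.ext e.symm)) e1)

lemma Ind3.of_chi {χ : H →* MZ} {a : H} (h : χ a = ofAdd 1) :
    Ind3 (Subgroup.zpowers a) ⊥ ⊥ := by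
  refine Ind1.ind3 ⟨⊤, inferInstance, χ.comp (⊤ : Subgroup H).subtype, fun b hb => ?_,
    fun M _ h0 e => h0 ?_⟩
  · rw [MonoidHom.comp_apply, Subgroup.coe_subtype, Subgroup.mem_bot.1 hb, map_one]
  · have : χ (a ^ M) = 1 := e
    rw [map_zpow, h] at this
    simpa using congrArg toAdd this

lemma Ind3.eq_one {A B₁ B₂ : Subgroup H} (h : Ind3 A B₁ B₂) {g : H} (h0 : g ∈ A) (h1 : g ∈ B₁)
    (h2 : g ∈ B₂) : g = 1 := by
  obtain ⟨K, hK, f₁, f₂, e1, e2, e3⟩ := h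
  obtain ⟨n, hn, -, hg⟩ := K.exists_pow_mem_of_index_ne_zero hK.index_ne_zero g
  exact e3 g h0 n hg hn (e1 _ (pow_mem h1 n)) (e2 _ (pow_mem h2 n))

lemma VRat.comap {f : H' →* H} {g : H'} (h : VRat (f g)) : VRat g := by
  obtain ⟨K, hK, φ, h1, h2⟩ := h
  exact ⟨K.comap f, fi_comap K f, φ.comp (f.subgroupComap K), h1, h2⟩

lemma VRat.conj {g g' : H} (h : VRat g) (c : IsConj g g') : VRat g' := by
  obtain ⟨d, rfl⟩ := isConj_iff.1 c
  refine VRat.comap (f := (MulAut.conj d⁻¹).toMonoidHom) ?_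
  convert h using 1
  simp [mul_assoc]

lemma Amb.conj {χ : H →* MZ} {a a' : H} (h : Amb χ a) (c : IsConj a a') : Amb χ a' := by
  obtain ⟨d, rfl⟩ := isConj_iff.1 c
  clear c
  rename' d => c
  intro z h1 h2 h3
  refine (h (c⁻¹ * z * c) ?_ (fun e => h2 ?_) ?_).conj (isConj_iff.2 ⟨c, by group⟩)
  · have := h1.map (MulAut.conj c⁻¹)
    simpa [mul_assoc] using this
  · have : z = c * (c⁻¹ * z * c) * c⁻¹ := by group
    rw [this, e]; group
  · simp [h3]

lemma Amb.comap {χ : H →* MZ} {χ' : H' →* MZ} {i : H' →* H} (hi : Function.Injective i)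
    (hχ : ∀ g, χ (i g) = χ' g) {a : H'} (h : Amb χ (i a)) : Amb χ' a := by
  intro z h1 h2 h3
  exact (h (i z) (h1.map i) (fun e => h2 (hi (e.trans (map_one i).symm))) ((hχ z).trans h3)).comap

lemma Mal.conj {y y' : H} (h : Mal y) (c : IsConj y y') : Mal y' := by
  obtain ⟨d, rfl⟩ := isConj_iff.1 c
  intro g a ha h1
  rw [← cj_zpowers, mem_cj]
  refine h _ a ha ?_
  have := h1.map (MulAut.conj d⁻¹)
  rw [conj_zpow] at this
  simpa [mul_assoc] using this

lemma Gen.conj {V : Type} {χ : H →* MZ} {t : V → H} {y y' : H} (h : Gen χ t y) (c : IsConj y y') :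
    Gen χ t y' := by
  refine ⟨?_, h.2.1.conj c, fun v e => h.2.2 v (e.trans c.symm)⟩
  rw [← h.1]
  exact (isConj_iff_eq.1 (χ.map_isConj c)).symm

/-- An element of height one that commutes with a nonzero power of `y` equals `y`. -/
lemma Mal.eq {χ : H →* MZ} {y g : H} (h : Mal y) (hy : χ y = ofAdd 1) (hg : χ g = ofAdd 1) {a : ℤ}
    (ha : a ≠ 0) (c : Commute g (y ^ a)) : g = y := by
  obtain ⟨k, rfl⟩ := h g a ha c
  have : χ (y ^ k) = ofAdd 1 := hg
  rw [map_zpow, hy] at this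
  have h1 : k = 1 := by simpa using congrArg toAdd this
  simp [h1]

lemma chi_zpow {χ : H →* MZ} {y : H} (hy : χ y = ofAdd 1) (a : ℤ) : χ (y ^ a) = ofAdd a := by
  rw [map_zpow, hy, ← ofAdd_zsmul]; simp

lemma chi_pow {χ : H →* MZ} {y : H} (hy : χ y = ofAdd 1) (a : ℕ) : χ (y ^ a) = ofAdd (a : ℤ) := by
  rw [← chi_zpow hy, zpow_natCast]

lemma qa_mk (N : Subgroup H) (g a : H) : qa N g (a : H ⧸ N) = ((g * a : H) : H ⧸ N) := rfl

lemma qa_eq_one {N : Subgroup H} (hN : N.Normal) {g : H} : qa N g = 1 ↔ g ∈ N := by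
  constructor
  · intro h
    have := congrArg (fun p : Perm (H ⧸ N) => p ((1 : H) : H ⧸ N)) h
    have h2 : ((g * 1 : H) : H ⧸ N) = ((1 : H) : H ⧸ N) := this
    simpa using QuotientGroup.eq.1 h2
  · intro h
    ext x
    obtain ⟨a, rfl⟩ := QuotientGroup.mk_surjective x
    refine (QuotientGroup.eq.2 ?_ : ((g * a : H) : H ⧸ N) = (a : H ⧸ N))
    have := hN.conj_mem' _ (N.inv_mem h) a
    convert this using 1; group

lemma qa_fix {N : Subgroup H} (hN : N.Normal) {g : H} (x : H ⧸ N) : qa N g x = x ↔ g ∈ N := by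
  refine ⟨fun h => ?_, fun h => by rw [(qa_eq_one hN).2 h]; rfl⟩
  obtain ⟨a, rfl⟩ := QuotientGroup.mk_surjective x
  have h1 : (g * a)⁻¹ * a ∈ N := QuotientGroup.eq.1 (h : ((g * a : H) : H ⧸ N) = a)
  have := hN.conj_mem _ (N.inv_mem h1) a
  convert this using 1; group

lemma IsHNN.ext {W : Type} [Group W] {i : H →* H'} {a b : H} {s : H'} (h : IsHNN i a b s)
    {F F' : H' →* W} (h1 : ∀ g, F (i g) = F' (i g)) (h2 : F s = F' s) : F = F' := by
  refine MonoidHom.eq_of_eqOn_dense h.gen ?_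
  rintro _ (⟨g, rfl⟩ | rfl)
  exacts [h1 g, h2]

lemma IsHNN.conj {i : H →* H'} {a b : H} {s : H'} (h : IsHNN i a b s) (c d : H) :
    IsHNN i (c * a * c⁻¹) (d * b * d⁻¹) (i c * s * (i d)⁻¹) := by
  refine ⟨?_, ?_, fun W _ f w hw => ?_⟩
  · simp only [map_mul, map_inv, ← h.rel]; group
  · rw [eq_top_iff, ← h.gen, Subgroup.closure_le]
    have hi : ∀ g, i g ∈ Subgroup.closure (Set.range i ∪ {i c * s * (i d)⁻¹}) := fun g =>
      Subgroup.subset_closure (Or.inl ⟨g, rfl⟩)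
    rintro x (⟨g, rfl⟩ | hx)
    · exact hi g
    · have := mul_mem (mul_mem (inv_mem (hi c))
        (Subgroup.subset_closure (Or.inr rfl : i c * s * (i d)⁻¹ ∈ _))) (hi d)
      rw [show x = (i c)⁻¹ * (i c * s * (i d)⁻¹) * i d from (show x = s from hx).trans (by group)]
      exact this
  · obtain ⟨F, h1, h2⟩ := h.up W f ((f c)⁻¹ * w * f d) (by
      simp only [map_mul, map_inv] at hw
      have : f b = (f d)⁻¹ * (f d * f b * (f d)⁻¹) * f d := by group
      rw [this, ← hw]; group)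
    refine ⟨F, h1, ?_⟩
    simp only [map_mul, map_inv, h1, h2]; group

end groups

end Pool.Agent.P.MP_67c9d4_al.FC
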