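import Pool.Agent.P.MP_67c9d4_al.FC.BasT

/-! Basic facts on representations in wreath products. -/

namespace Pool.Agent.P.MP_67c9d4_al.FC

open Equiv Wr Multiplicative

variable {H H' X X' X'' B B' : Type} [Group H] [Group H'] [Group B] [Group B']

lemma per_card [Finite X] (σ : H →* Wr X B) : Per (Nat.card (Perm X)) σ := by
  intro h
  rw [map_pow, pow_p, pow_card_eq_one']

lemma per_mul {σ : H →* Wr X B} {n : ℕ} (h : Per n σ) (r : ℕ) : Per (n * r) σ := by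
  intro g
  rw [pow_mul, map_pow, pow_p, h g, one_pow]

/-- At a fixed point the values are multiplicative. -/
lemma c_pow_fix {u : Wr X B} {x : X} (h : u.p x = x) (n : ℕ) :
    (u ^ n).p x = x ∧ (u ^ n).c x = u.c x ^ n := by
  induction n with
  | zero => simp
  | succ n ih =>
    have h1 : u.p⁻¹ x = x := Perm.inv_eq_iff_eq.2 h.symm
    rw [pow_succ', mul_p, mul_c, Perm.mul_apply, h1, ih.1, ih.2, pow_succ']
    exact ⟨h, rfl⟩

lemma c_zpow_fix {u : Wr X B} {x : X} (h : u.p x = x) (n : ℤ) :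
    (u ^ n).p x = x ∧ (u ^ n).c x = u.c x ^ n := by
  obtain ⟨m, rfl | rfl⟩ := n.eq_nat_or_neg
  · simpa only [zpow_natCast] using c_pow_fix h m
  · obtain ⟨h1, h2⟩ := c_pow_fix h m
    rw [zpow_neg, zpow_neg, zpow_natCast, zpow_natCast, inv_p, inv_c, h1, h2]
    exact ⟨Perm.inv_eq_iff_eq.2 h1.symm, rfl⟩

/-- The value of a conjugate at a fixed point. -/
lemma c_conj_fix (u g : Wr X B) {x : X} (h : g.p (u.p⁻¹ x) = u.p⁻¹ x) :
    (u * g * u⁻¹).p x = x ∧ (u * g * u⁻¹).c x = u.c x * g.c (u.p⁻¹ x) * (u.c x)⁻¹ := by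
  have h1 : g.p⁻¹ (u.p⁻¹ x) = u.p⁻¹ x := Perm.inv_eq_iff_eq.2 h.symm
  constructor
  · rw [mul_p, mul_p, inv_p, Perm.mul_apply, Perm.mul_apply, h]
    simp
  · rw [mul_c, mul_c, inv_c, mul_p, mul_inv_rev, Perm.mul_apply, h1]
    simp

/-- The stabiliser of a point. -/
def stb (σ : H →* Wr X B) (x : X) : Subgroup H :=
  (MulAction.stabilizer (Perm X) x).comap (pHom.comp σ)

lemma mem_stb {σ : H →* Wr X B} {x : X} {g : H} : g ∈ stb σ x ↔ (σ g).p x = x := Iff.rfl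

lemma stb_fi [Finite X] (σ : H →* Wr X B) (x : X) : (stb σ x).FiniteIndex := by
  exact fi_comap _ _

/-- The values at `x` on the stabiliser of `x`. -/
def stH (σ : H →* Wr X B) (x : X) : stb σ x →* B :=
  MonoidHom.mk' (fun g => (σ g).c x) fun a b => by
    have h : (σ a).p⁻¹ x = x := Perm.inv_eq_iff_eq.2 (mem_stb.1 a.2).symm
    rw [Subgroup.coe_mul, map_mul, mul_c, h]

@[simp] lemma stH_apply (σ : H →* Wr X B) (x : X) (g : stb σ x) : stH σ x g = (σ g).c x := rfl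

lemma null_iff {σ : H →* Wr X B} {g : H} : Null σ g ↔ ∀ x, ¬NZ σ g x := by
  simp only [Null, NZ, not_exists, not_and, not_not]
  exact forall_comm

lemma BasB_zpow {σ : H →* Wr X B} {g : H} {x : X} (h : ¬NZ σ g x) (n : ℤ)
    (hx : (σ (g ^ n)).p x = x) : (σ (g ^ n)).c x = 1 := by
  simp only [NZ, not_exists, not_and, not_not] at h
  obtain ⟨m, rfl | rfl⟩ := n.eq_nat_or_neg
  · rw [zpow_natCast] at hx ⊢
    exact h m hx
  · rw [zpow_neg, zpow_natCast, map_inv] at hx ⊢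
    have h1 : (σ (g ^ m)).p x = x := (Perm.inv_eq_iff_eq.1 hx).symm
    rw [inv_c, h1, h m h1, inv_one]

lemma BasB_nz {σ : H →* Wr X MZ} {g : H} {x : X} {n : ℤ} (hn : n ≠ 0)
    (h : (σ (g ^ n)).p x = x) : NZ σ g x ↔ (σ (g ^ n)).c x ≠ 1 := by
  refine ⟨fun ⟨m, h1, h2⟩ h3 => h2 ?_, fun h1 => by_contra fun h2 => h1 (BasB_zpow h2 n h)⟩
  have h4 := (c_zpow_fix h1 n).2
  rw [← map_zpow, show (g ^ m) ^ n = (g ^ n) ^ m by
    rw [← zpow_natCast, ← zpow_natCast, ← zpow_mul, ← zpow_mul, mul_comm], map_pow σ (g ^ n),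
    (c_pow_fix h m).2, h3, one_pow] at h4
  exact zpow_left_injective hn (h4.symm.trans (one_zpow n).symm)

lemma Null.zpow {σ : H →* Wr X B} {g : H} (h : Null σ g) (n : ℤ) {x : X}
    (hx : (σ (g ^ n)).p x = x) : (σ (g ^ n)).c x = 1 := by
  exact BasB_zpow (null_iff.1 h x) n hx

lemma nz_iff {σ : H →* Wr X MZ} {g : H} {x : X} {n : ℕ} (hn : 0 < n) (h : (σ (g ^ n)).p x = x) :
    NZ σ g x ↔ (σ (g ^ n)).c x ≠ 1 := by
  rw [← zpow_natCast] at h ⊢
  exact BasB_nz (Int.natCast_ne_zero.2 hn.ne') h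

lemma nz_iff_zpow {σ : H →* Wr X MZ} {g : H} {x : X} {n : ℤ} (hn : n ≠ 0)
    (h : (σ (g ^ n)).p x = x) : NZ σ g x ↔ (σ (g ^ n)).c x ≠ 1 := by
  exact BasB_nz hn h

lemma nz_conj {σ : H →* Wr X B} {g : H} (c : H) (x : X) :
    NZ σ (c * g * c⁻¹) ((σ c).p x) ↔ NZ σ g x := by
  refine exists_congr fun n => ?_
  rw [conj_pow, map_mul, map_mul, map_inv]
  have h1 : (σ c).p⁻¹ ((σ c).p x) = x := by simp
  have h2 : (σ c * σ (g ^ n) * (σ c)⁻¹).p ((σ c).p x) = (σ c).p x ↔ (σ (g ^ n)).p x = x := by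
    simp
  rw [h2]
  refine and_congr_right fun h3 => ?_
  rw [(c_conj_fix (σ c) (σ (g ^ n)) (by rw [h1, h3])).2, h1, Ne, conj_eq_one_iff]

lemma Null.conj {σ : H →* Wr X B} {g g' : H} (h : Null σ g) (c : IsConj g g') : Null σ g' := by
  replace c := isConj_iff.1 c
  obtain ⟨c, rfl⟩ := c
  refine null_iff.2 fun x => ?_
  obtain ⟨x, rfl⟩ := (σ c).p.surjective x
  rw [nz_conj]
  exact null_iff.1 h x

lemma Null.push {σ : H →* Wr X B} {g : H} (h : Null σ g) (f : B →* B') :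
    Null ((push f).comp σ) g := by
  intro n x hx
  rw [MonoidHom.comp_apply, push_c, h n x hx, map_one]

lemma Null.sum {σ : H →* Wr X B} {σ' : H →* Wr X' B} {g : H} (h : Null σ g) (h' : Null σ' g) :
    Null (Wr.sum σ σ') g := by
  rintro n (x | x) hx
  · exact h n x (Sum.inl.inj hx)
  · exact h' n x (Sum.inr.inj hx)

lemma Cov.nz {σ' : H →* Wr X' MZ} {σ : H →* Wr X MZ} {π : X' → X} [Finite X'] (h : Cov σ' σ π)
    (g : H) (x : X') : NZ σ' g x ↔ NZ σ g (π x) := by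
  have h1 : (σ' (g ^ Nat.card (Perm X'))).p x = x := by rw [per_card σ' g]; rfl
  rw [nz_iff Nat.card_pos h1, nz_iff Nat.card_pos (by rw [← h.1, h1]), h.2]

lemma Cov.null {σ' : H →* Wr X' B} {σ : H →* Wr X B} {π : X' → X} (h : Cov σ' σ π) {g : H}
    (hg : Null σ g) : Null σ' g := by
  intro n x hx
  rw [h.2]
  exact hg n _ (by rw [← h.1, hx])

lemma Cov.dom {σ' : H →* Wr X' B} {σ : H →* Wr X B} {π : X' → X} (h : Cov σ' σ π)
    (hπ : Function.Surjective π) : Dom σ' σ := by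
  exact ⟨fun x => some (π x), fun g x => congrArg some (h.1 g x),
    fun g x' x e => by rw [h.2, Option.some.inj e],
    fun x => (hπ x).imp fun _ e => congrArg some e⟩

lemma Dom.refl (σ : H →* Wr X B) : Dom σ σ := by
  exact Cov.dom (π := id) ⟨fun _ _ => rfl, fun _ _ => rfl⟩ Function.surjective_id

lemma Dom.trans {σ'' : H →* Wr X'' B} {σ' : H →* Wr X' B} {σ : H →* Wr X B} (h' : Dom σ'' σ')
    (h : Dom σ' σ) : Dom σ'' σ := by
  obtain ⟨π', a', b', c'⟩ := h'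
  obtain ⟨π, a, b, c⟩ := h
  refine ⟨fun x => (π' x).bind π, fun g x => ?_, fun g x'' x e => ?_, fun x => ?_⟩
  · beta_reduce
    rw [a']
    cases π' x with
    | none => rfl
    | some y => exact a g y
  · obtain ⟨y, e1, e2⟩ := Option.bind_eq_some_iff.1 e
    rw [b' g _ _ e1, b g _ _ e2]
  · obtain ⟨y, e1⟩ := c x
    obtain ⟨z, e2⟩ := c' y
    exact ⟨z, Option.bind_eq_some_iff.2 ⟨y, e2, e1⟩⟩

lemma Dom.sum (σ : H →* Wr X B) (σ' : H →* Wr X' B) : Dom (Wr.sum σ σ') σ := by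
  refine ⟨Sum.elim some fun _ => none, ?_, ?_, fun x => ⟨Sum.inl x, rfl⟩⟩
  · rintro g (x | x) <;> rfl
  · rintro g (y | y) x e
    · rw [← Option.some.inj e]; rfl
    · cases e

lemma cp_p (I : Type) (σ : H →* Wr X B) (h : H) (q : I × X) :
    (cp I σ h).p q = (q.1, (σ h).p q.2) := rfl

lemma cp_c (I : Type) (σ : H →* Wr X B) (h : H) (q : I × X) : (cp I σ h).c q = (σ h).c q.2 := rfl

lemma cp_cov (I : Type) (σ : H →* Wr X B) : Cov (cp I σ) σ Prod.snd := ⟨fun _ _ => rfl, fun _ _ => rfl⟩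

lemma per_cp {n : ℕ} {σ : H →* Wr X B} (h : Per n σ) (I : Type) : Per n (cp I σ) := by
  intro g
  refine Equiv.ext fun q => ?_
  rw [cp_p, h g]; rfl

lemma aff_p {I : Type} (σ : H →* Wr X MZ) (χ : H →* MZ) (l m : I → ℤ) (h : H) (q : I × X) :
    (aff σ χ l m h).p q = (q.1, (σ h).p q.2) := rfl

lemma aff_c {I : Type} (σ : H →* Wr X MZ) (χ : H →* MZ) (l m : I → ℤ) (h : H) (q : I × X) :
    (aff σ χ l m h).c q = (σ h).c q.2 ^ l q.1 * χ h ^ m q.1 := rfl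

lemma per_aff {I : Type} {n : ℕ} {σ : H →* Wr X MZ} (h : Per n σ) (χ : H →* MZ) (l m : I → ℤ) :
    Per n (aff σ χ l m) := by
  intro g
  refine Equiv.ext fun q => ?_
  rw [aff_p, h g]; rfl

/-- A virtual character that vanishes on `B` at `x` and not on `a`. -/
lemma ind1_of_nz [Finite X] {σ : H →* Wr X MZ} {a : H} {x : X} {Bs : Subgroup H} (h : NZ σ a x)
    (h0 : ∀ g ∈ Bs, (σ g).p x = x → (σ g).c x = 1) : Ind1 a Bs := by
  exact ⟨stb σ x, stb_fi σ x, stH σ x, fun b hb => h0 b hb (mem_stb.1 b.2),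
    fun M hM M0 => (nz_iff_zpow M0 (mem_stb.1 hM)).1 h⟩

/-- A cocycle that is trivial on stabilisers is a coboundary. -/
lemma exists_cob (ρ : H →* Wr X B) (Λ : Subgroup H)
    (h : ∀ g ∈ Λ, ∀ x, (ρ g).p x = x → (ρ g).c x = 1) :
    ∃ η : X → B, ∀ g ∈ Λ, ∀ x, (ρ g).c x = η x * (η ((ρ g).p⁻¹ x))⁻¹ := by
  let r := MulAction.orbitRel (Λ.map (pHom.comp ρ)) X
  let b : X → X := fun x => (Quotient.mk r x).out
  have h1 : ∀ x, ∃ l ∈ Λ, (ρ l).p (b x) = x := fun x => by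
    obtain ⟨⟨_, l, hl, rfl⟩, e⟩ := Quotient.exact (Quotient.out_eq (Quotient.mk r x)).symm
    exact ⟨l, hl, e⟩
  have h2 : ∀ g ∈ Λ, ∀ x, b ((ρ g).p x) = b x := fun g hg x =>
    congrArg Quotient.out (Quotient.sound ⟨⟨_, g, hg, rfl⟩, rfl⟩)
  choose l hl e using h1
  refine ⟨fun x => (ρ (l x)).c x, fun g hg x => ?_⟩
  obtain ⟨y, rfl⟩ := (ρ g).p.surjective x
  have h3 : (ρ g).p⁻¹ ((ρ g).p y) = y := by simp
  have h4 : (ρ (l ((ρ g).p y))).p⁻¹ ((ρ g).p y) = b y := by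
    rw [Perm.inv_eq_iff_eq, ← h2 g hg y, e]
  have h5 := h ((l ((ρ g).p y))⁻¹ * (g * l y)) (Λ.mul_mem (Λ.inv_mem (hl _)) (Λ.mul_mem hg (hl _)))
    (b y) (by rw [map_mul, map_mul, map_inv, mul_p, mul_p, inv_p, Perm.mul_apply, Perm.mul_apply,
      e, h4])
  have h6 := mul_c (ρ (l ((ρ g).p y))) (ρ ((l ((ρ g).p y))⁻¹ * (g * l y))) ((ρ g).p y)
  rw [h4, h5, mul_one, ← map_mul, mul_inv_cancel_left, map_mul, mul_c, h3] at h6
  beta_reduce
  rw [h3, ← h6, mul_inv_cancel_right]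

/-- Elements of the base group with the same distribution of classes are conjugate. -/
lemma isConj_of_sum [Fintype X] {u u' : Wr X B} (hu : u.p = 1) (hu' : u'.p = 1)
    (h : ∀ F : B → ℚ, (∀ g b, F (g * b * g⁻¹) = F b) → ∑ x, F (u.c x) = ∑ x, F (u'.c x)) :
    IsConj u u' := by
  classical
  obtain ⟨β, hβ⟩ := fib_perm (fun x => ConjClasses.mk (u'.c x)) (fun x => ConjClasses.mk (u.c x))
    fun t => by
      have h1 := h (fun b => if ConjClasses.mk b = t then 1 else 0) fun g b => by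
        rw [ConjClasses.mk_eq_mk_iff_isConj.2 (isConj_iff.2 ⟨g, rfl⟩ : IsConj b _).symm]
      rw [Finset.sum_boole, Finset.sum_boole] at h1
      exact (Nat.cast_injective (R := ℚ) h1).symm
  choose g hg using fun x => isConj_iff.1 (ConjClasses.mk_eq_mk_iff_isConj.1 (hβ x))
  refine isConj_iff.2 ⟨⟨β⁻¹, g⟩, Wr.ext ?_ (funext fun x => ?_)⟩
  · rw [conj_p _ hu, hu']
  · rw [conj_c _ hu]; exact hg x

lemma O1c.mono {y : H} {Z Z' : Set H} {H₀ : Subgroup H} (h : O1c y Z H₀)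
    (hZ : ∀ z ∈ Z', ∃ z₀ ∈ Z, IsConj z₀ z) : O1c y Z' H₀ := by
  obtain ⟨X, _, σ, κ, h1, h2⟩ := h
  refine ⟨X, inferInstance, σ, κ, fun z hz => ?_, h2⟩
  obtain ⟨z₀, h3, h4⟩ := hZ z hz
  exact (h1 z₀ h3).conj h4

lemma O1c.conj {y y' : H} {Z : Set H} {H₀ : Subgroup H} (h : O1c y Z H₀) (hN : H₀.Normal)
    (c : IsConj y y') : O1c y' Z H₀ := by
  replace c := isConj_iff.1 c
  obtain ⟨c, rfl⟩ := c
  obtain ⟨X, _, σ, κ, h1, h2, h3, h4⟩ := h
  have e : ∀ (g : H) (n : ℕ), σ.comp (MulAut.conj c⁻¹).toMonoidHom (g ^ n) =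
      σ ((c⁻¹ * g * c⁻¹⁻¹) ^ n) := fun g n => by rw [conj_pow]; rfl
  have e2 : c⁻¹ * (c * y * c⁻¹) * c⁻¹⁻¹ = y := by group
  have e3 : ∀ x, NZ (σ.comp (MulAut.conj c⁻¹).toMonoidHom) (c * y * c⁻¹) x ↔ NZ σ y x := fun x => by
    simp only [NZ, e, e2]
  refine ⟨X, inferInstance, σ.comp (MulAut.conj c⁻¹).toMonoidHom, κ, fun z hz n => ?_, fun n => ?_,
    h3.imp fun x => (e3 x).2, fun g x a b => ?_⟩
  · rw [e]
    exact (h1 z hz).conj (isConj_iff.2 ⟨c⁻¹, rfl⟩) n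
  · rw [e, e2]
    exact h2 n
  · rw [← cj_zpowers, mem_cj_sup hN]
    simpa using h4 _ x ((e3 _).1 a) ((e3 _).1 b)

lemma mir_comm (C : Type) [CommGroup C] : Mir C := by
  exact ⟨invMonoidHom, fun _ _ f b => map_inv f b⟩

end Pool.Agent.P.MP_67c9d4_al.FC
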