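import Pool.Agent.P.MP_67c9d4_al.FC.BasB

/-! Basic facts on homogeneous classes. -/

namespace Pool.Agent.P.MP_67c9d4_al.FC

open Equiv Wr Multiplicative

variable {H H' X X' B B' : Type} [Group H] [Group H'] [Group B] [Group B']

lemma cl_conj (g b : B) : cl (g * b * g⁻¹) = cl b := by
  exact (Submodule.Quotient.eq _).2 (Submodule.subset_span (Or.inl ⟨g, b, rfl⟩))

lemma cl_isConj {b b' : B} (h : IsConj b b') : cl b = cl b' := by
  obtain ⟨c, rfl⟩ := isConj_iff.1 h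
  exact (cl_conj c b).symm

lemma cl_zpow (b : B) (j : ℤ) : cl (b ^ j) = (j : ℚ) • cl b := by
  rw [cl, cl, ← map_smul]
  exact (Submodule.Quotient.eq _).2 (Submodule.subset_span (Or.inr ⟨b, j, rfl⟩))

lemma cl_pow (b : B) (j : ℕ) : cl (b ^ j) = (j : ℚ) • cl b := by
  rw [← zpow_natCast, cl_zpow, Int.cast_natCast]

lemma cl_one : cl (1 : B) = 0 := by
  simpa using cl_pow (1 : B) 0

lemma cl_inv (b : B) : cl b⁻¹ = -cl b := by
  simpa using cl_zpow b (-1)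

lemma jen_inv (a b : B) : jen b⁻¹ a⁻¹ = -jen a b := by
  rw [jen, jen, ← mul_inv_rev, cl_inv, cl_inv, cl_inv]
  abel

/-- The universal property. -/
lemma hc_lift {M : Type} [AddCommGroup M] [Module ℚ M] (F : B → M)
    (h1 : ∀ g b, F (g * b * g⁻¹) = F b) (h2 : ∀ b (j : ℤ), F (b ^ j) = (j : ℚ) • F b) :
    ∃ L : HC B →ₗ[ℚ] M, ∀ b, L (cl b) = F b := by
  have hk : HR B ≤ LinearMap.ker (Finsupp.linearCombination ℚ F) := by
    refine Submodule.span_le.2 ?_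
    rintro v (⟨g, b, rfl⟩ | ⟨b, j, rfl⟩)
    · simp [h1]
    · simp [h2]
  exact ⟨(HR B).liftQ _ hk, fun b => by simp [cl]⟩

variable [Fintype X] [Fintype X']

lemma tc_eq (σ : H →* Wr X B) (g : H) {n : ℕ} (hn : 0 < n) (h : (σ (g ^ n)).p = 1) :
    tc σ g = ((n : ℚ))⁻¹ • ∑ x, cl ((σ (g ^ n)).c x) := by
  have aux : ∀ a b : ℕ, (σ (g ^ a)).p = 1 →
      ∑ x, cl ((σ (g ^ (a * b))).c x) = (b : ℚ) • ∑ x, cl ((σ (g ^ a)).c x) := fun a b ha => by
    rw [Finset.smul_sum]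
    exact Finset.sum_congr rfl fun x _ => by rw [pow_mul, map_pow, pow_c ha, cl_pow]
  have hN : (Nat.card (Perm X) : ℚ) ≠ 0 := Nat.cast_ne_zero.2 Nat.card_pos.ne'
  have hn' : (n : ℚ) ≠ 0 := Nat.cast_ne_zero.2 hn.ne'
  have h1 := aux _ n (per_card σ g)
  rw [mul_comm, aux n _ h] at h1
  rw [tc, eq_inv_smul_iff₀ hn', smul_comm, ← h1, inv_smul_smul₀ hN]

lemma tc_comp (σ : H →* Wr X B) (i : H' →* H) (g : H') : tc (σ.comp i) g = tc σ (i g) := by
  simp only [tc, MonoidHom.comp_apply, map_pow i]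

lemma tc_sum (σ : H →* Wr X B) (σ' : H →* Wr X' B) (g : H) :
    tc (Wr.sum σ σ') g = tc σ g + tc σ' g := by
  have h1 := per_mul (per_card σ) (Nat.card (Perm X')) g
  have h2 := per_mul (per_card σ') (Nat.card (Perm X)) g
  rw [mul_comm] at h2
  have h0 : 0 < Nat.card (Perm X) * Nat.card (Perm X') := Nat.mul_pos Nat.card_pos Nat.card_pos
  rw [tc_eq σ g h0 h1, tc_eq σ' g h0 h2, tc_eq (Wr.sum σ σ') g h0 (by
    rw [sum_p, h1, h2]; exact Perm.sumCongr_one), Fintype.sum_sum_type, smul_add]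
  rfl

lemma tc_conj (σ : H →* Wr X B) {g g' : H} (c : IsConj g g') : tc σ g = tc σ g' := by
  obtain ⟨d, rfl⟩ := isConj_iff.1 c
  rw [tc, tc, conj_pow, map_mul, map_mul, map_inv]
  simp only [conj_c _ (per_card σ g), cl_conj]
  rw [Equiv.sum_comp (σ d).p⁻¹ fun x => cl ((σ (g ^ Nat.card (Perm X))).c x)]

lemma Null.tc {σ : H →* Wr X B} {g : H} (h : Null σ g) : tc σ g = 0 := by
  rw [FC.tc, Finset.sum_eq_zero fun x _ => by rw [h _ x (by rw [per_card σ g]; rfl), cl_one],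
    smul_zero]

lemma Cov.tc {Y : Type} [Fintype Y] {σ' : H →* Wr (Y × X) B} {σ : H →* Wr X B}
    (h : Cov σ' σ Prod.snd) (g : H) : tc σ' g = (Fintype.card Y : ℚ) • tc σ g := by
  have h1 := per_mul (per_card σ') (Nat.card (Perm X)) g
  have h2 := per_mul (per_card σ) (Nat.card (Perm (Y × X))) g
  rw [mul_comm] at h2
  have h0 : 0 < Nat.card (Perm (Y × X)) * Nat.card (Perm X) :=
    Nat.mul_pos Nat.card_pos Nat.card_pos
  rw [tc_eq σ' g h0 h1, tc_eq σ g h0 h2, smul_comm, Fintype.sum_prod_type]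
  simp only [h.2, Finset.sum_const, Finset.card_univ, Nat.cast_smul_eq_nsmul]

lemma tc_cp (c : ℕ) (σ : H →* Wr X B) (g : H) : tc (cp (Fin c) σ) g = (c : ℚ) • tc σ g := by
  rw [(cp_cov (Fin c) σ).tc, Fintype.card_fin]

/-- The total class of a virtual character with values in a cyclic subgroup. -/
lemma tc_zpowers (σ : H →* Wr X MZ) (b : B) (g : H) :
    tc ((push (zpowersHom B b)).comp σ) g = ((tot (σ g)).toAdd : ℚ) • cl b := by
  have hN : (Nat.card (Perm X) : ℚ) ≠ 0 := Nat.cast_ne_zero.2 Nat.card_pos.ne'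
  have h1 : ∑ x, (((σ (g ^ Nat.card (Perm X))).c x).toAdd : ℚ) =
      Nat.card (Perm X) * ((tot (σ g)).toAdd : ℚ) := by
    rw [← Int.cast_sum, ← toAdd_prod, ← tot_apply, map_pow, map_pow, toAdd_pow, nsmul_eq_mul,
      Int.cast_mul, Int.cast_natCast]
  simp only [tc, MonoidHom.comp_apply, push_c, zpowersHom_apply, cl_zpow]
  rw [← Finset.sum_smul, h1, mul_smul, inv_smul_smul₀ hN]

lemma Neu.sum {σ : H →* Wr X B} {σ' : H →* Wr X' B} (h : Neu σ) (h' : Neu σ') :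
    Neu (Wr.sum σ σ') := by
  intro C _ f g
  have h1 := h C f g
  have h2 := h' C f g
  rw [tot_apply] at h1 h2 ⊢
  rw [Fintype.prod_sum_type]
  exact (congrArg₂ (· * ·) h1 h2).trans (one_mul 1)

lemma tot_sum {C : Type} [CommGroup C] (σ : H →* Wr X B) (σ' : H →* Wr X' B) (f : B →* C) (g : H) :
    tot (push f (Wr.sum σ σ' g)) = tot (push f (σ g)) * tot (push f (σ' g)) := by
  rw [tot_apply, tot_apply, tot_apply, Fintype.prod_sum_type]
  rfl

lemma Cov.neu {Y : Type} [Fintype Y] {σ' : H →* Wr (Y × X) B} {σ : H →* Wr X B}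
    (h : Cov σ' σ Prod.snd) (hn : Neu σ) : Neu σ' := by
  intro C _ f g
  have h1 := hn C f g
  rw [tot_apply] at h1 ⊢
  simp only [push_c] at h1
  simp only [Fintype.prod_prod_type, push_c, h.2, h1, Finset.prod_const_one]

lemma neu_zpowers {σ : H →* Wr X MZ} (h : ∀ g, tot (σ g) = 1) (b : B) :
    Neu ((push (zpowersHom B b)).comp σ) := by
  intro C _ f g
  have h1 := congrArg (f.comp (zpowersHom B b)) (h g)
  rw [tot_apply, map_prod, map_one] at h1
  exact h1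

lemma Neu.tc_mem {σ : H →* Wr X B} (h : Neu σ) (g : H) : tc σ g ∈ Jen B := by
  let φ : B →* Multiplicative (HC B ⧸ Jen B) :=
    MonoidHom.mk' (fun b => ofAdd ((Jen B).mkQ (cl b))) fun a b => by
      rw [← ofAdd_add, ← map_add]
      have e : jen a b ∈ Jen B := Submodule.subset_span ⟨a, b, rfl⟩
      exact congrArg ofAdd ((Submodule.Quotient.eq _).2 e).symm
  have h1 := congrArg toAdd (h _ φ (g ^ Nat.card (Perm X)))
  rw [tot_apply, toAdd_prod] at h1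
  refine Submodule.smul_mem _ _ ((Submodule.Quotient.mk_eq_zero _).1 ?_)
  rw [← Submodule.mkQ_apply, map_sum]
  exact h1

lemma OJc.mono {y : H} {Z Z' : Set H} (h : OJc y Z) (hZ : ∀ z ∈ Z', ∃ z₀ ∈ Z, IsConj z₀ z) :
    OJc y Z' := by
  intro B _ a b
  obtain ⟨X, _, σ, q, h1, h2, h3, h4⟩ := h B a b
  refine ⟨X, _, σ, q, h1, h2, h3, fun z hz => ?_⟩
  obtain ⟨z₀, h5, h6⟩ := hZ z hz
  rw [← tc_conj σ h6, h4 z₀ h5]

lemma OJc.conj {y y' : H} {Z : Set H} (h : OJc y Z) (c : IsConj y y') : OJc y' Z := by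
  intro B _ a b
  obtain ⟨X, _, σ, q, h1, h2, h3, h4⟩ := h B a b
  exact ⟨X, _, σ, q, h1, h2, by rw [← tc_conj σ c, h3], h4⟩

/-- Every element of the span of the defects is, up to a multiple, a total class of `y`. -/
lemma OJc.corr {y : H} {Z : Set H} (h : OJc y Z) {v : HC B} (hv : v ∈ Jen B) :
    ∃ (c : ℕ) (X : Type) (_ : Fintype X) (σ : H →* Wr X B), 0 < c ∧ Neu σ ∧
      tc σ y = (c : ℚ) • v ∧ ∀ z ∈ Z, tc σ z = 0 := by
  let P : HC B → Prop := fun v => ∃ (c : ℕ) (X : Type) (_ : Fintype X) (σ : H →* Wr X B),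
    0 < c ∧ Neu σ ∧ tc σ y = (c : ℚ) • v ∧ ∀ z ∈ Z, tc σ z = 0
  have p0 : P 0 := ⟨1, Empty, inferInstance, 1, one_pos, fun C _ f g => by simp [tot_apply],
    by simp [tc], fun z _ => by simp [tc]⟩
  have pa : ∀ v w, P v → P w → P (v + w) := by
    rintro v w ⟨c, X, _, σ, h1, h2, h3, h4⟩ ⟨c', X', _, σ', h1', h2', h3', h4'⟩
    refine ⟨c * c', _, inferInstance, Wr.sum (cp (Fin c') σ) (cp (Fin c) σ'), Nat.mul_pos h1 h1',
      ((cp_cov _ σ).neu h2).sum ((cp_cov _ σ').neu h2'), ?_, fun z hz => ?_⟩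
    · rw [tc_sum, tc_cp, tc_cp, h3, h3', smul_smul, smul_smul, smul_add, Nat.cast_mul,
        mul_comm (c' : ℚ)]
    · rw [tc_sum, tc_cp, tc_cp, h4 z hz, h4' z hz, smul_zero, smul_zero, add_zero]
  have ps : ∀ (q : ℚ) v, 0 < q → P v → P (q • v) := by
    rintro q v hq ⟨c, X, _, σ, h1, h2, h3, h4⟩
    refine ⟨c * q.den, _, inferInstance, cp (Fin q.num.toNat) σ, Nat.mul_pos h1 q.den_pos,
      (cp_cov _ σ).neu h2, ?_, fun z hz => by rw [tc_cp, h4 z hz, smul_zero]⟩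
    have e : ((q.num.toNat : ℕ) : ℚ) = q * q.den := by
      rw [Rat.mul_den_eq_num, ← Int.cast_natCast, Int.toNat_of_nonneg (Rat.num_pos.2 hq).le]
    rw [tc_cp, h3, smul_smul, smul_smul, e, Nat.cast_mul]
    congr 1
    ring
  have pg : ∀ a b : B, P (jen a b) := fun a b => by
    obtain ⟨X, _, σ, q, h1, h2, h3, h4⟩ := h B a b
    have := ps q⁻¹ (q • jen a b) (inv_pos.2 h1)
      ⟨1, X, _, σ, one_pos, h2, by rw [h3, Nat.cast_one, one_smul], h4⟩
    rwa [inv_smul_smul₀ h1.ne'] at this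
  have key : P v ∧ P (-v) := by
    induction hv using Submodule.span_induction with
    | mem v hv =>
      obtain ⟨a, b, rfl⟩ := hv
      exact ⟨pg a b, jen_inv a b ▸ pg b⁻¹ a⁻¹⟩
    | zero => exact ⟨p0, by rw [neg_zero]; exact p0⟩
    | add v w _ _ h1 h2 => exact ⟨pa _ _ h1.1 h2.1, by rw [neg_add]; exact pa _ _ h1.2 h2.2⟩
    | smul q v _ h1 =>
      rcases lt_trichotomy q 0 with hq | rfl | hq
      · have a1 := ps (-q) _ (neg_pos.2 hq) h1.1
        have a2 := ps (-q) _ (neg_pos.2 hq) h1.2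
        rw [neg_smul] at a1
        rw [neg_smul_neg] at a2
        exact ⟨a2, a1⟩
      · rw [zero_smul, neg_zero]
        exact ⟨p0, p0⟩
      · exact ⟨ps q _ hq h1.1, smul_neg q v ▸ ps q _ hq h1.2⟩
  exact key.1

end Pool.Agent.P.MP_67c9d4_al.FC
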