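import Pool.Agent.P.MP_67c9d4_al.FC.BasC

/-! Basic facts on right-angled Artin groups, sections and base structures. -/

namespace Pool.Agent.P.MP_67c9d4_al.FC

open Equiv Wr Multiplicative

section raag
variable {T T' : Type} {Γ : SimpleGraph T} {Γ' : SimpleGraph T'}

lemma wd_nil : wd Γ [] = 1 := rfl

lemma wd_append (L L' : List (T × Bool)) : wd Γ (L ++ L') = wd Γ L * wd Γ L' := by
  rw [wd, wd, wd, ← FreeGroup.mul_mk, map_mul]

lemma wd_cons (x : T × Bool) (L : List (T × Bool)) : wd Γ (x :: L) = wd Γ [x] * wd Γ L := by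
  exact wd_append [x] L

lemma wd_true (a : T) : wd Γ [(a, true)] = PresentedGroup.of a := rfl

lemma wd_false (a : T) : wd Γ [(a, false)] = (PresentedGroup.of a)⁻¹ := by
  exact map_inv (PresentedGroup.mk _) (FreeGroup.of a)

lemma wd_not (x : T × Bool) : wd Γ [(x.1, !x.2)] = (wd Γ [x])⁻¹ := by
  exact map_inv (PresentedGroup.mk _) (lt x)

lemma wd_surj (g : RAAG Γ) : ∃ L, wd Γ L = g := by
  obtain ⟨⟨L⟩, rfl⟩ := PresentedGroup.mk_surjective _ g
  exact ⟨L, rfl⟩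

lemma of_comm {a b : T} (h : Γ.Adj a b) :
    Commute (PresentedGroup.of a : RAAG Γ) (PresentedGroup.of b) := by
  rw [← commutatorElement_eq_one_iff_commute, commutatorElement_def]
  exact PresentedGroup.one_of_mem ⟨a, b, h, rfl⟩

lemma wd_comm {x y : T × Bool} (h : Γ.Adj x.1 y.1) : Commute (wd Γ [x]) (wd Γ [y]) := by
  obtain ⟨a, _ | _⟩ := x <;> obtain ⟨b, _ | _⟩ := y <;> simp only [wd_true, wd_false]
  exacts [(of_comm h).inv_inv, (of_comm h).inv_left, (of_comm h).inv_right, of_comm h]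

/-- The universal property. -/
lemma raag_lift {W : Type} [Group W] (f : T → W) (h : ∀ a b, Γ.Adj a b → Commute (f a) (f b)) :
    ∃ F : RAAG Γ →* W, ∀ a, F (PresentedGroup.of a) = f a := by
  refine ⟨PresentedGroup.toGroup (f := f) ?_, fun a => PresentedGroup.toGroup.of _⟩
  rintro _ ⟨x, y, hxy, rfl⟩
  simp only [map_mul, map_inv, FreeGroup.lift_apply_of]
  rw [← commutatorElement_def, commutatorElement_eq_one_iff_commute]
  exact h x y hxy

lemma raag_ext {W : Type} [Group W] {F F' : RAAG Γ →* W}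
    (h : ∀ a, F (PresentedGroup.of a) = F' (PresentedGroup.of a)) : F = F' := by
  exact PresentedGroup.ext h

lemma wd_mem {S : Set T} {L : List (T × Bool)} (h : ∀ x ∈ L, x.1 ∈ S) : wd Γ L ∈ PS Γ S := by
  induction L with
  | nil => exact (PS Γ S).one_mem
  | cons x L ih =>
    rw [wd_cons]
    refine (PS Γ S).mul_mem ?_ (ih fun y hy => h y (List.mem_cons_of_mem _ hy))
    have h1 : (PresentedGroup.of x.1 : RAAG Γ) ∈ PS Γ S :=
      Subgroup.subset_closure ⟨x.1, h x List.mem_cons_self, rfl⟩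
    obtain ⟨a, _ | _⟩ := x
    · rw [wd_false]; exact (PS Γ S).inv_mem h1
    · exact h1

lemma PS_univ (g : RAAG Γ) : g ∈ PS Γ Set.univ := by
  obtain ⟨L, rfl⟩ := wd_surj g
  exact wd_mem fun _ _ => Set.mem_univ _

lemma PS_empty {g : RAAG Γ} : g ∈ PS Γ ∅ ↔ g = 1 := by
  simp [PS]

/-- An element that commutes with the images of the letters in `S` commutes with the image of
the parabolic subgroup. -/
lemma commute_PS {W : Type} [Group W] (F : RAAG Γ →* W) {S : Set T} {x : W}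
    (h : ∀ a ∈ S, Commute x (F (PresentedGroup.of a))) {g : RAAG Γ} (hg : g ∈ PS Γ S) :
    Commute x (F g) := by
  induction hg using Subgroup.closure_induction with
  | mem b hb => obtain ⟨a, ha, rfl⟩ := hb; exact h a ha
  | one => simp
  | mul a b _ _ ha hb => rw [map_mul]; exact ha.mul_right hb
  | inv a _ ha => rw [map_inv]; exact ha.inv_right

/-- Induced subgraphs give embeddings that respect parabolic subgroups. -/
lemma raag_emb (ι : T → T') (hι : Function.Injective ι) (h : ∀ a b, Γ'.Adj (ι a) (ι b) ↔ Γ.Adj a b) :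
    ∃ F : RAAG Γ →* RAAG Γ', (∀ a, F (PresentedGroup.of a) = PresentedGroup.of (ι a)) ∧
      ∀ (S : Set T) g, F g ∈ PS Γ' (ι '' S) ↔ g ∈ PS Γ S := by
  obtain ⟨F, hF⟩ := raag_lift (Γ := Γ) (fun a => (PresentedGroup.of (ι a) : RAAG Γ'))
    fun a b hab => of_comm ((h a b).2 hab)
  obtain ⟨r, hr⟩ := raag_lift (Γ := Γ')
    (Function.extend ι (fun a => (PresentedGroup.of a : RAAG Γ)) fun _ => 1) fun a b hab => by
      by_cases ha : ∃ a', ι a' = a
      · by_cases hb : ∃ b', ι b' = b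
        · obtain ⟨a, rfl⟩ := ha
          obtain ⟨b, rfl⟩ := hb
          rw [hι.extend_apply, hι.extend_apply]
          exact of_comm ((h a b).1 hab)
        · rw [Function.extend_apply' _ _ _ hb]; exact Commute.one_right _
      · rw [Function.extend_apply' _ _ _ ha]; exact Commute.one_left _
  have e : r.comp F = MonoidHom.id _ := raag_ext fun a => by
    rw [MonoidHom.comp_apply, hF, hr, hι.extend_apply, MonoidHom.id_apply]
  refine ⟨F, hF, fun S g => ⟨fun hg => ?_, fun hg => ?_⟩⟩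
  · have h1 : PS Γ' (ι '' S) ≤ (PS Γ S).comap r := (Subgroup.closure_le _).2 (by
      rintro _ ⟨_, ⟨a, ha, rfl⟩, rfl⟩
      show r _ ∈ PS Γ S
      rw [hr, hι.extend_apply]
      exact Subgroup.subset_closure ⟨a, ha, rfl⟩)
    have h2 : r (F g) ∈ PS Γ S := h1 hg
    rwa [← MonoidHom.comp_apply, e] at h2
  · have h1 : PS Γ S ≤ (PS Γ' (ι '' S)).comap F := (Subgroup.closure_le _).2 (by
      rintro _ ⟨a, ha, rfl⟩
      show F _ ∈ PS Γ' (ι '' S)
      rw [hF]
      exact Subgroup.subset_closure ⟨ι a, ⟨a, ha, rfl⟩, rfl⟩)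
    exact h1 hg

lemma mir_raag (Γ : SimpleGraph T) : Mir (RAAG Γ) := by
  obtain ⟨m, hm⟩ := raag_lift (Γ := Γ) (fun a => (PresentedGroup.of a : RAAG Γ)⁻¹)
    fun a b hab => (of_comm hab).inv_inv
  refine ⟨m, fun C _ f b => ?_⟩
  have e : f.comp m = f⁻¹ := raag_ext fun a => by
    rw [MonoidHom.comp_apply, hm, map_inv, MonoidHom.inv_apply]
  exact DFunLike.congr_fun e b

lemma smul_rfb (g : RAAG Γ) (s : Bool × Set T) (b : RAAG Γ) : g • rfb Γ s b = rfb Γ s (g * b) := rfl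

lemma rfb_eq {s s' : Bool × Set T} {b b' : RAAG Γ} :
    rfb Γ s b = rfb Γ s' b' ↔ s = s' ∧ b⁻¹ * b' ∈ PS Γ s.2 := by
  constructor
  · intro h
    have h1 : s = s' := congrArg Sigma.fst h
    subst h1
    exact ⟨rfl, QuotientGroup.eq.1 (eq_of_heq (Sigma.mk.inj h).2)⟩
  · rintro ⟨rfl, h⟩
    exact congrArg (Sigma.mk s) (QuotientGroup.eq.2 h)

lemma rfb_surj (f : RFib Γ) : ∃ s b, f = rfb Γ s b := by
  obtain ⟨s, q⟩ := f
  exact ⟨s, q.out, congrArg (Sigma.mk s) (QuotientGroup.out_eq' q).symm⟩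

lemma smul_rfb_univ (g : RAAG Γ) (e : Bool) :
    g • rfb Γ (e, Set.univ) 1 = rfb Γ (e, Set.univ) 1 := by
  rw [smul_rfb, rfb_eq]
  exact ⟨rfl, PS_univ _⟩

lemma Walk.append {Y : Type} {Mv : T × Bool → Y → Y → Prop} {L L' : List (T × Bool)} {y y' y'' : Y}
    (h : Walk Mv L y y') (h' : Walk Mv L' y' y'') : Walk Mv (L ++ L') y y'' := by
  induction h with
  | nil => exact h'
  | cons hm _ ih => exact Walk.cons hm (ih h')

lemma pre_succ (w : ℤ → T × Bool) (n : ℕ) : pre w (n + 1) = pre w n ++ [w n] := by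
  simp [pre, List.range_succ]

variable {H H' X X' : Type} [Group H] [Group H']

lemma SepOn.dom {σ' : H →* Wr X' (RAAG Γ)} {σ : H →* Wr X (RAAG Γ)} {G Λ : Subgroup H}
    (h : SepOn σ G Λ) (hd : Dom σ' σ) : SepOn σ' G Λ := by
  obtain ⟨ω, hω⟩ := h
  obtain ⟨π, h1, h2, h3⟩ := hd
  have h4 : ∀ g x', π ((σ' g).p⁻¹ x') = (π x').map ⇑((σ g).p⁻¹) := fun g x' => by
    have := h1 g⁻¹ x'
    rwa [map_inv, map_inv, inv_p, inv_p] at this
  refine ⟨fun x' => (π x').elim (rfb Γ (false, Set.univ) 1) ω, fun g hg => ?_⟩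
  rw [← hω g hg, funext_iff, funext_iff]
  constructor
  · intro e x
    obtain ⟨x', hx⟩ := h3 x
    have := e x'
    rw [sec_apply, h4, h2 g x' x hx, hx] at this
    exact this
  · intro e x'
    rw [sec_apply, h4]
    cases hx : π x' with
    | none => exact smul_rfb_univ _ _
    | some x => rw [h2 g x' x hx]; exact e x

lemma SepOn.map {i : H →* H'} (hi : Function.Injective i) {σ : H' →* Wr X (RAAG Γ)}
    {Λ : Subgroup H} (h : SepOn (σ.comp i) ⊤ Λ) : SepOn σ i.range (Λ.map i) := by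
  obtain ⟨ω, hω⟩ := h
  refine ⟨ω, ?_⟩
  rintro _ ⟨g, rfl⟩
  rw [Subgroup.mem_map_iff_mem hi]
  exact hω g trivial

lemma VS.congr {G Λ Λ' : Subgroup H} (h : VS G Λ) (e : ∀ g ∈ G, g ∈ Λ ↔ g ∈ Λ') : VS G Λ' := by
  obtain ⟨T, _, Γ, X, _, σ, ω, hω⟩ := h
  exact ⟨T, ‹_›, Γ, X, ‹_›, σ, ω, fun g hg => (hω g hg).trans (e g hg)⟩

lemma VS.of_le {G Λ : Subgroup H} (h : G ≤ Λ) : VS G Λ := by
  exact ⟨Unit, inferInstance, ⊥, Empty, inferInstance, 1, Empty.elim,
    fun g hg => ⟨fun _ => h hg, fun _ => funext fun x => x.elim⟩⟩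

lemma VS.ker (G : Subgroup H) (χ : H →* MZ) : VS G χ.ker := by
  obtain ⟨F, hF⟩ := raag_lift (Γ := (⊥ : SimpleGraph Unit)) (fun _ => (ofAdd 1 : MZ))
    fun _ _ _ => Commute.refl _
  refine ⟨Unit, inferInstance, ⊥, Unit, inferInstance,
    cst 1 ((zpowersHom _ (PresentedGroup.of ())).comp χ), fun _ => rfb ⊥ (false, ∅) 1,
    fun g _ => ?_⟩
  rw [funext_iff, Unique.forall_iff, sec_apply, smul_rfb, rfb_eq, and_iff_right rfl, PS_empty,
    mul_one, mul_one, inv_eq_one, cst_c, MonoidHom.comp_apply, zpowersHom_apply, MonoidHom.mem_ker]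
  constructor
  · intro e
    have := congrArg F e
    rw [map_zpow, hF, F.map_one, ← ofAdd_zsmul] at this
    simpa using this
  · intro e
    rw [e]
    rfl

/-- Free groups are right-angled Artin groups. -/
lemma VS.of_free {W : Type} [Finite W] [Fintype X] (σ : H →* Wr X (FreeGroup W))
    {G Λ : Subgroup H} (ω : X → Fib W) (h : ∀ g ∈ G, sec (σ g) ω = ω ↔ g ∈ Λ) : VS G Λ := by
  obtain ⟨r, hr⟩ := raag_lift (Γ := (⊥ : SimpleGraph W)) (FreeGroup.of : W → FreeGroup W)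
    fun _ _ hab => hab.elim
  let e : FreeGroup W →* RAAG (⊥ : SimpleGraph W) := FreeGroup.lift PresentedGroup.of
  have e1 : r.comp e = MonoidHom.id _ := FreeGroup.ext_hom _ _ fun a => by simp [e, hr]
  have e2 : ∀ (S : Set W) b, e b ∈ PS ⊥ S ↔ b ∈ FS S := fun S b => by
    constructor
    · intro hb
      have h1 : PS ⊥ S ≤ (FS S).comap r := (Subgroup.closure_le _).2 (by
        rintro _ ⟨a, ha, rfl⟩
        show r _ ∈ FS S
        rw [hr]
        exact Subgroup.subset_closure ⟨a, ha, rfl⟩)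
      have h2 : r (e b) ∈ FS S := h1 hb
      rwa [← MonoidHom.comp_apply, e1] at h2
    · intro hb
      have h1 : FS S ≤ (PS ⊥ S).comap e := (Subgroup.closure_le _).2 (by
        rintro _ ⟨a, ha, rfl⟩
        show e _ ∈ PS ⊥ S
        rw [FreeGroup.lift_apply_of]
        exact Subgroup.subset_closure ⟨a, ha, rfl⟩)
      exact h1 hb
  refine ⟨W, ‹_›, ⊥, X, ‹_›, (push e).comp σ, fun x => rfb ⊥ (ω x).1 (e (ω x).2.out),
    fun g hg => ?_⟩
  rw [← h g hg, funext_iff, funext_iff]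
  refine forall_congr' fun x => ?_
  rw [sec_apply, sec_apply, smul_rfb, rfb_eq, MonoidHom.comp_apply, push_c, push_p, ← map_mul,
    ← map_inv, ← map_mul, e2, ← fb_eq, ← smul_fb, fb_out, fb_out]

lemma VP.va (h : VP (⊥ : Subgroup H)) : VA H := by
  obtain ⟨K, hK, T, hT, Γ, f, S, hf⟩ := h
  refine ⟨K, hK, T, hT, Γ, f, (injective_iff_map_eq_one f).2 fun g hg => ?_⟩
  exact Subtype.ext (Subgroup.mem_bot.1 ((hf g).1 (hg ▸ (PS Γ S).one_mem)))

end raag

section base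
variable {V A K : Type}

open Classical in
/-- The retraction onto a free factor. -/
noncomputable def retr (S : Set A) : FreeGroup A →* FreeGroup A :=
  FreeGroup.lift fun a => if a ∈ S then FreeGroup.of a else 1

lemma retr_mem (S : Set A) (w : FreeGroup A) : retr S w ∈ FS S := by
  have h : FS Set.univ ≤ (FS S).comap (retr S) := (Subgroup.closure_le _).2 (by
    rintro _ ⟨a, -, rfl⟩
    show retr S _ ∈ FS S
    rw [retr, FreeGroup.lift_apply_of]
    split_ifs with ha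
    · exact Subgroup.subset_closure ⟨a, ha, rfl⟩
    · exact (FS S).one_mem)
  exact h (FS_univ w)

lemma retr_eq {S : Set A} {w : FreeGroup A} (h : w ∈ FS S) : retr S w = w := by
  refine MonoidHom.eqOn_closure (f := retr S) (g := MonoidHom.id _) ?_ h
  rintro _ ⟨a, ha, rfl⟩
  simp [retr, ha]

lemma retr_eq_one {S S' : Set A} (hS : Disjoint S S') {w : FreeGroup A} (h : w ∈ FS S') :
    retr S w = 1 := by
  refine MonoidHom.eqOn_closure (f := retr S) (g := 1) ?_ h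
  rintro _ ⟨a, ha, rfl⟩
  simp [retr, Set.disjoint_right.1 hS ha]

lemma BD.Rel.comm {D : BD V A K} {W : Type} [Group W] {ℓ : FreeGroup A →* W} {t : V → W}
    {s : K → W} (h : D.Rel ℓ t s) {v : V} {w : FreeGroup A} (hw : w ∈ D.At v) :
    Commute (ℓ w) (t v) := by
  induction hw using Subgroup.closure_induction with
  | mem b hb => obtain ⟨a, rfl, rfl⟩ := hb; exact h.com a
  | one => simp
  | mul a b _ _ ha hb => rw [map_mul]; exact ha.mul_left hb
  | inv a _ ha => rw [map_inv]; exact ha.inv_left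

lemma BasD_sup {B : Type} [Group B] {P : Subgroup B} {t : B} (h : ∀ a ∈ P, Commute a t) {g : B} :
    g ∈ P ⊔ Subgroup.zpowers t ↔ ∃ a ∈ P, ∃ i : ℤ, g = a * t ^ i := by
  constructor
  · intro hg
    let M : Subgroup B :=
      { carrier := {g | ∃ a ∈ P, ∃ i : ℤ, g = a * t ^ i}
        one_mem' := ⟨1, P.one_mem, 0, by simp⟩
        mul_mem' := by
          rintro _ _ ⟨a, ha, i, rfl⟩ ⟨a', ha', i', rfl⟩
          refine ⟨a * a', P.mul_mem ha ha', i + i', ?_⟩
          rw [zpow_add, mul_assoc, mul_assoc, ← mul_assoc (t ^ i), ← ((h a' ha').zpow_right i).eq,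
            mul_assoc]
        inv_mem' := by
          rintro _ ⟨a, ha, i, rfl⟩
          refine ⟨a⁻¹, P.inv_mem ha, -i, ?_⟩
          rw [((h a ha).zpow_right i).eq, mul_inv_rev, zpow_neg] }
    have h1 : P ⊔ Subgroup.zpowers t ≤ M := sup_le (fun a ha => ⟨a, ha, 0, by simp⟩)
      ((Subgroup.zpowers_le).2 ⟨1, P.one_mem, 1, by simp⟩)
    exact h1 hg
  · rintro ⟨a, ha, i, rfl⟩
    exact Subgroup.mul_mem_sup ha ⟨i, rfl⟩

namespace BS
variable {B : Type} [Group B] {χ : B →* MZ} (b : BS χ V A K)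

lemma z_ne (k : K) : b.z k ≠ 1 := by
  intro h
  exact b.ne k (by rw [h, map_one])

lemma z_mem (k : K) : b.z k ∈ b.At (b.vt k) := b.hz k

lemma exists_vx (k : K) : ∃ a, b.vx a = b.vt k := by
  by_contra h
  refine b.z_ne k (FS_empty (FS_mono ?_ (b.hz k)))
  exact fun a ha => h ⟨a, ha⟩

lemma mem_Gv {v : V} {g : B} : g ∈ b.Gv v ↔ ∃ w ∈ b.At v, ∃ i : ℤ, g = b.ℓ w * b.t v ^ i := by
  rw [Gv, BasD_sup]
  · constructor
    · rintro ⟨_, ⟨w, hw, rfl⟩, i, rfl⟩
      exact ⟨w, hw, i, rfl⟩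
    · rintro ⟨w, hw, i, rfl⟩
      exact ⟨_, ⟨w, hw, rfl⟩, i, rfl⟩
  · rintro _ ⟨w, hw, rfl⟩
    exact b.rel.comm hw

lemma mem_Pl {k : K} {g : B} :
    g ∈ b.Pl k ↔ ∃ i j : ℤ, g = b.ℓ (b.z k) ^ i * b.t (b.vt k) ^ j := by
  rw [Pl, BasD_sup]
  · constructor
    · rintro ⟨_, ⟨i, rfl⟩, j, rfl⟩
      exact ⟨i, j, rfl⟩
    · rintro ⟨i, j, rfl⟩
      exact ⟨_, ⟨i, rfl⟩, j, rfl⟩
  · rintro _ ⟨i, rfl⟩
    exact (b.rel.comm (b.z_mem k)).zpow_left i

lemma Pl_le (k : K) : b.Pl k ≤ b.Gv (b.vt k) := by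
  exact sup_le_sup_right ((Subgroup.zpowers_le).2 (Subgroup.mem_map_of_mem _ (b.z_mem k))) _

/-- The stable letter in coordinates. -/
lemma conj_Pl (k : K) (i j : ℤ) :
    (b.s k)⁻¹ * (b.ℓ (b.z k) ^ i * b.t (b.vt k) ^ j) * b.s k =
      b.ℓ (b.z (b.h k)) ^ (i + b.n k * j) * b.t (b.vt (b.h k)) ^ j := by
  have h1 : (b.s k)⁻¹ * (b.ℓ (b.z k) ^ i * b.t (b.vt k) ^ j) * b.s k =
      ((b.s k)⁻¹ * b.ℓ (b.z k) * b.s k) ^ i * ((b.s k)⁻¹ * b.t (b.vt k) * b.s k) ^ j := by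
    have h2 : ∀ (x : B) (n : ℤ), ((b.s k)⁻¹ * x * b.s k) ^ n = (b.s k)⁻¹ * x ^ n * b.s k :=
      fun x n => by simpa using conj_zpow (a := (b.s k)⁻¹) (b := x) (i := n)
    rw [h2, h2]
    group
  rw [h1, b.rel.rz, b.rel.rt, ((b.rel.comm (b.z_mem (b.h k))).zpow_left _).mul_zpow, ← zpow_mul,
    zpow_add, mul_assoc]

lemma cj_Pl (k : K) : cj (b.s k) (b.Pl (b.h k)) = b.Pl k := by
  ext g
  rw [mem_cj, mem_Pl, mem_Pl]
  constructor
  · rintro ⟨i, j, e⟩
    refine ⟨i - b.n k * j, j, ?_⟩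
    have h1 := b.conj_Pl k (i - b.n k * j) j
    rw [sub_add_cancel, ← e] at h1
    exact (mul_left_cancel (mul_right_cancel h1)).symm
  · rintro ⟨i, j, rfl⟩
    exact ⟨_, _, b.conj_Pl k i j⟩

lemma hom_ext {W : Type} [Group W] {F F' : B →* W} (h1 : ∀ w, F (b.ℓ w) = F' (b.ℓ w))
    (h2 : ∀ v, F (b.t v) = F' (b.t v)) (h3 : ∀ k, F (b.s k) = F' (b.s k)) : F = F' := by
  refine MonoidHom.eq_of_eqOn_dense b.gen ?_
  rintro _ ((⟨w, rfl⟩ | ⟨v, rfl⟩) | ⟨k, rfl⟩)
  exacts [h1 w, h2 v, h3 k]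

end BS
end base

end Pool.Agent.P.MP_67c9d4_al.FC
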