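import Pool.Agent.P.MP_67c9d4_al.FC.BasA

/-! Basic facts on tree data. -/

namespace Pool.Agent.P.MP_67c9d4_al.FC

open Equiv Wr Multiplicative

@[simp] lemma bar_bar {E : Type} (k : E × Bool) : bar (bar k) = k := by
  obtain ⟨e, b⟩ := k
  cases b <;> rfl

lemma bar_ne {E : Type} (k : E × Bool) : bar k ≠ k := by
  obtain ⟨e, b⟩ := k
  cases b <;> simp [bar]

@[simp] lemma bar_true {E : Type} (e : E) : bar (e, true) = (e, false) := rfl
@[simp] lemma bar_false {E : Type} (e : E) : bar (e, false) = (e, true) := rfl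

namespace TD
variable {H V E : Type} [Group H] {D : TD H V E} {N N' : Subgroup H}
  {c c' c'' : (E × Bool) × H}

lemma act_act (g h : H) (c : (E × Bool) × H) : act g (act h c) = act (g * h) c := by
  simp only [act, mul_assoc]

lemma act_one (c : (E × Bool) × H) : act (1 : H) c = c := by
  simp only [act, one_mul]

lemma rev_rev (c : (E × Bool) × H) : D.rev (D.rev c) = c := by
  simp only [rev, bar_bar, D.inv, mul_inv_cancel_right]

lemma rev_act (g : H) (c : (E × Bool) × H) : D.rev (act g c) = act g (D.rev c) := by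
  simp only [rev, act, mul_assoc]

lemma St_act (g : H) (c : (E × Bool) × H) : D.St (act g c) = cj g (D.St c) := by
  exact (cj_cj _ _ _).symm

lemma St_rev (c : (E × Bool) × H) : D.St (D.rev c) = D.St c := by
  ext g
  simp only [St, rev, mem_cj, D.conj, mul_inv_rev, mul_assoc, mul_inv_cancel_left, mul_inv_cancel,
    mul_one]

lemma Same.refl (N : Subgroup H) (c : (E × Bool) × H) : D.Same N c c := by
  exact ⟨rfl, by rw [inv_mul_cancel]; exact one_mem _⟩

lemma Same.symm (h : D.Same N c c') : D.Same N c' c := by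
  refine ⟨h.1.symm, ?_⟩
  have := inv_mem h.2
  rwa [mul_inv_rev, inv_inv, h.1] at this

lemma Same.trans (h : D.Same N c c') (h' : D.Same N c' c'') : D.Same N c c'' := by
  refine ⟨h.1.trans h'.1, ?_⟩
  have := mul_mem h.2 (h.1 ▸ h'.2)
  rwa [mul_assoc, mul_inv_cancel_left] at this

lemma Same.mono (h : D.Same N c c') (le : N ≤ N') : D.Same N' c c' := by
  exact ⟨h.1, sup_le_sup_left le _ h.2⟩

lemma same_act (g : H) : D.Same N (act g c) (act g c') ↔ D.Same N c c' := by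
  simp only [Same, act, mul_inv_rev, mul_assoc, inv_mul_cancel_left]

lemma same_rev (hN : N.Normal) : D.Same N (D.rev c) (D.rev c') ↔ D.Same N c c' := by
  have key : ∀ c c' : (E × Bool) × H, D.Same N c c' → D.Same N (D.rev c) (D.rev c') :=
    fun c c' h => by
      refine ⟨congrArg bar h.1, ?_⟩
      have e : D.P (bar c.1) = cj (D.ε c.1)⁻¹ (D.P c.1) := by
        ext g
        rw [mem_cj, inv_inv, D.conj]
      have h2 := h.2
      simp only [rev, e, mem_cj_sup hN, ← h.1, inv_inv, mul_inv_rev, mul_assoc, mul_inv_cancel_left,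
        mul_inv_cancel, mul_one]
      exact h2
  exact ⟨fun h => by simpa only [rev_rev] using key _ _ h, key _ _⟩

lemma same_bot : D.Same ⊥ c c' ↔ c.1 = c'.1 ∧ c.2⁻¹ * c'.2 ∈ D.P c.1 := by
  rw [Same, sup_bot_eq]

lemma same_act_self (hN : N.Normal) {g : H} : D.Same N c (act g c) ↔ g ∈ D.St c ⊔ N := by
  rw [St, mem_cj_sup hN, mul_assoc]
  exact ⟨fun h => h.2, fun h => ⟨rfl, h⟩⟩

lemma not_same_rev (N : Subgroup H) (c : (E × Bool) × H) : ¬D.Same N (D.rev c) c := by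
  exact fun h => bar_ne _ h.1

lemma Same.St_eq (h : D.Same ⊥ c c') : D.St c = D.St c' := by
  obtain ⟨h1, h2⟩ := same_bot.1 h
  ext g
  have e : c'.2⁻¹ * g * c'.2 = (c.2⁻¹ * c'.2)⁻¹ * (c.2⁻¹ * g * c.2) * (c.2⁻¹ * c'.2) := by
    group
  rw [St, St, mem_cj, mem_cj, e, ← h1, Subgroup.mul_mem_cancel_right _ h2,
    Subgroup.mul_mem_cancel_left _ (inv_mem h2)]

/-- Edges that agree modulo `N` start at vertices that agree modulo `N`. -/
lemma Same.start (h : D.Same N c c') :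
    D.vt c.1 = D.vt c'.1 ∧ c.2⁻¹ * c'.2 ∈ D.G (D.vt c.1) ⊔ N := by
  exact ⟨congrArg _ h.1, sup_le_sup_right (D.le _) N h.2⟩

lemma lk_act (g : H) : D.Lk (act g c) (act g c') ↔ D.Lk c c' := by
  simp only [Lk, act, mul_inv_rev, mul_assoc, inv_mul_cancel_left]

lemma Lk.rev (h : D.Lk c c') : D.Lk (D.rev c') (D.rev c) := by
  refine ⟨by simpa only [TD.rev, bar_bar] using h.1.symm, ?_⟩
  have := inv_mem h.2
  rw [mul_inv_rev, inv_inv, ← h.1] at this
  simpa only [TD.rev, D.inv, mul_inv_cancel_right] using this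

lemma Seg.mono {c : ℕ → (E × Bool) × H} {n m : ℕ} (h : D.Seg c n) (le : m ≤ n) : D.Seg c m := by
  exact fun i hi => h i (by omega)

lemma Seg.shift {c : ℕ → (E × Bool) × H} {n : ℕ} (a : ℕ) (h : D.Seg c (a + n)) :
    D.Seg (fun i => c (a + i)) n := by
  exact fun i hi => h (a + i) (by omega)

lemma Seg.act {c : ℕ → (E × Bool) × H} {n : ℕ} (h : D.Seg c n) (g : H) :
    D.Seg (fun i => act g (c i)) n := by
  refine fun i hi => ⟨(lk_act g).2 (h i hi).1, ?_⟩
  rw [rev_act, same_act]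
  exact (h i hi).2

variable {y : H} {l : ℕ} {a : ℤ → (E × Bool) × H}

lemma Ax.seg (h : D.Ax y a l) (i₀ : ℤ) (n : ℕ) : D.Seg (fun i : ℕ => a (i₀ + i)) n := by
  intro i _
  simp only [Nat.cast_add, Nat.cast_one, ← add_assoc]
  exact ⟨h.lk _, h.nb _⟩

lemma Ax.zper (h : D.Ax y a l) (i m : ℤ) : a (i + l * m) = act (y ^ m) (a i) := by
  induction m using Int.induction_on with
  | zero => rw [mul_zero, add_zero, zpow_zero, act_one]
  | succ m ih => rw [mul_add, mul_one, ← add_assoc, h.per, ih, act_act, ← zpow_one_add, add_comm 1]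
  | pred m ih =>
    have e := h.per (i + l * (-m - 1))
    rw [show i + l * (-m - 1) + l = i + l * -m by ring, ih] at e
    rw [← act_one (a _), ← inv_mul_cancel y, ← act_act, ← e, act_act, ← zpow_neg_one, ← zpow_add,
      show (-1 + -m : ℤ) = -m - 1 by ring]

lemma Ax.rev (h : D.Ax y a l) : D.Ax y⁻¹ (fun i => D.rev (a (-i))) l := by
  refine ⟨h.pos, fun i => ?_, fun i e => ?_, fun i => ?_⟩
  · simpa only [neg_add_rev, neg_add_cancel_comm] using (h.lk (-(i + 1))).rev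
  · rw [rev_rev] at e
    refine h.nb (-(i + 1)) ?_
    rw [show -(i + 1) + 1 = -i by ring]
    exact e.symm
  · rw [show -(i + l) = -i + l * (-1) by ring, h.zper, zpow_neg_one, rev_act]

lemma Ax.act (h : D.Ax y a l) (g : H) : D.Ax (g * y * g⁻¹) (fun i => act g (a i)) l := by
  refine ⟨h.pos, fun i => (lk_act g).2 (h.lk i), fun i => ?_, fun i => ?_⟩
  · rw [rev_act, same_act]
    exact h.nb i
  · rw [h.per, act_act, act_act, inv_mul_cancel_right]

lemma Ax.shift (h : D.Ax y a l) (d : ℤ) : D.Ax y (fun i => a (i + d)) l := by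
  refine ⟨h.pos, fun i => ?_, fun i => ?_, fun i => ?_⟩ <;> rw [add_right_comm]
  exacts [h.lk _, h.nb _, h.per _]

lemma Ell.conj {g g' : H} (h : D.Ell g) (c : IsConj g g') : D.Ell g' := by
  obtain ⟨d, rfl⟩ := isConj_iff.1 c
  obtain ⟨v, e, he⟩ := h
  refine ⟨v, d * e, ?_⟩
  simpa only [mul_inv_rev, mul_assoc, inv_mul_cancel_left] using he

lemma Ell.of_mem {v : V} {g : H} (h : g ∈ D.G v) : D.Ell g := by
  exact ⟨v, 1, by rwa [inv_one, one_mul, mul_one]⟩

lemma Sp.st (h : D.Sp) (c : (E × Bool) × H) : Sepb (D.St c) := by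
  exact (h c.1).cj c.2

/-- Independence gives acylindricity. -/
lemma Ind.acy (h : D.Ind) : ∃ L, ∀ c, D.Seg c L → ∀ g, (∀ i < L, g ∈ D.St (c i)) → g = 1 := by
  obtain ⟨L, hL⟩ := h
  refine ⟨L, fun c hc g hg => ?_⟩
  obtain ⟨i, hi, j₁, h1, j₂, h2, h3⟩ := hL c hc
  exact h3.eq_one (hg i hi) (hg j₁ h1) (hg j₂ h2)

variable {W : Type} [Group W] {Ev : V → V → H → W}

lemma Mult.one (h : Mult Ev) (v : V) : Ev v v 1 = 1 := by
  have := h v v v 1 1
  rwa [mul_one, mul_eq_left] at this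

lemma Mult.inv (h : Mult Ev) (u v : V) (g : H) : Ev v u g⁻¹ = (Ev u v g)⁻¹ := by
  refine eq_inv_of_mul_eq_one_right ?_
  rw [h, mul_inv_cancel, h.one]

/-- The homomorphism given by a path representation at a vertex. -/
def Mult.hom (h : Mult Ev) (v : V) : H →* W := MonoidHom.mk' (Ev v v) fun a b => (h v v v a b).symm

@[simp] lemma Mult.hom_apply (h : Mult Ev) (v : V) (g : H) : h.hom v g = Ev v v g := rfl

lemma Mult.conj (h : Mult Ev) (u v : V) (p g : H) :
    Ev u u (p * g * p⁻¹) = Ev u v p * Ev v v g * (Ev u v p)⁻¹ := by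
  rw [← h.inv, h, h]

/-- Induction along paths. -/
lemma Tree.ind (hT : D.Tree) {Q : V → V → H → Prop} (h1 : ∀ v, ∀ g ∈ D.G v, Q v v g)
    (h2 : ∀ k, Q (D.vt k) (D.vt (bar k)) (D.ε k))
    (h3 : ∀ u v w g h, Q u v g → Q v w h → Q u w (g * h)) (u v : V) (g : H) : Q u v g := by
  induction hT.gen u v g with
  | vtx hg => exact h1 _ _ hg
  | edge k => exact h2 k
  | mul _ _ a b => exact h3 _ _ _ _ _ a b

/-- One more edge. -/
lemma Mult.step (h : Mult Ev) (u : V) (p : H) (hl : D.Lk c c') :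
    Ev u (D.vt c'.1) (p⁻¹ * c'.2) = Ev u (D.vt c.1) (p⁻¹ * c.2) *
      Ev (D.vt c.1) (D.vt (bar c.1)) (D.ε c.1) *
      Ev (D.vt c'.1) (D.vt c'.1) ((c.2 * D.ε c.1)⁻¹ * c'.2) := by
  rw [h, hl.1, h]
  simp only [mul_inv_rev, mul_assoc, mul_inv_cancel_left]

lemma lab_act {X : Type} (α : H →* Perm X) (g : H) (c : (E × Bool) × H) (x : X) :
    D.lab α (act g c) x = D.lab α c (α g⁻¹ x) := by
  obtain ⟨⟨e, b⟩, p⟩ := c
  cases b <;> simp only [lab, act, cond, mul_assoc, mul_inv_rev, map_mul, Perm.mul_apply]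

lemma lab_rev {X : Type} (α : H →* Perm X) (c : (E × Bool) × H) (x : X) :
    D.lab α (D.rev c) x = ((D.lab α c x).1, !(D.lab α c x).2) := by
  obtain ⟨⟨e, b⟩, p⟩ := c
  cases b
  · rfl
  · have := D.inv (e, true)
    rw [bar_true] at this
    simp only [lab, rev, bar_true, cond, this, mul_inv_cancel_right, Bool.not_true]

lemma lab_snd {X : Type} (α : H →* Perm X) (c : (E × Bool) × H) (x : X) :
    (D.lab α c x).2 = c.1.2 := rfl

lemma BasT_orb (hN : N.Normal) (A : Subgroup H) (u u' : H) :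
    {x : H ⧸ N | ∃ q ∈ A, x = qa N q (u : H ⧸ N)} = {x | ∃ q ∈ A, x = qa N q (u' : H ⧸ N)} ↔
      u * u'⁻¹ ∈ A ⊔ N := by
  have key : ∀ q, (u : H ⧸ N) = qa N q (u' : H ⧸ N) ↔ q⁻¹ * (u * u'⁻¹) ∈ N := fun q => by
    rw [qa_mk, eq_comm, QuotientGroup.eq, mul_inv_rev, mul_assoc, hN.mem_comm_iff, mul_assoc]
  rw [mem_sup_left' hN]
  constructor
  · intro h
    obtain ⟨q, h1, h2⟩ := (Set.ext_iff.1 h u).1 ⟨1, one_mem _, by rw [map_one, Perm.one_apply]⟩
    exact ⟨q, h1, (key q).1 h2⟩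
  · rintro ⟨q, h1, h2⟩
    rw [(key q).2 h2]
    ext x
    constructor
    · rintro ⟨r, hr, rfl⟩
      exact ⟨r * q, mul_mem hr h1, by rw [map_mul, Perm.mul_apply]⟩
    · rintro ⟨r, hr, rfl⟩
      exact ⟨r * q⁻¹, mul_mem hr (inv_mem h1), by
        rw [← Perm.mul_apply, ← map_mul, inv_mul_cancel_right]⟩

/-- Equality of signed labels in the quotient by a normal subgroup. -/
lemma lab_eq (hN : N.Normal) (g g' : H) :
    D.lab (qa N) c (g : H ⧸ N) = D.lab (qa N) c' (g' : H ⧸ N) ↔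
      D.Same N (act g⁻¹ c) (act g'⁻¹ c') := by
  obtain ⟨⟨e, b⟩, p⟩ := c
  obtain ⟨⟨e', b'⟩, p'⟩ := c'
  by_cases h : (e, b) = (e', b')
  · obtain ⟨rfl, rfl⟩ := Prod.mk.inj h
    cases b
    · rw [← same_rev hN]
      simp only [lab, cond, Prod.mk.injEq, true_and, and_true, qa_mk N _ g, qa_mk N _ g',
        BasT_orb hN, Same, rev, act, bar_false, mul_inv_rev, inv_inv, mul_assoc]
    · simp only [lab, cond, Prod.mk.injEq, true_and, and_true, qa_mk N _ g, qa_mk N _ g',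
        BasT_orb hN, Same, act, mul_inv_rev, inv_inv, mul_assoc]
  · exact iff_of_false (fun e => h (Prod.ext (congrArg (·.1.1) e) (congrArg (·.2) e)))
      fun e => h e.1

/-- Equality of unsigned labels in the quotient by a normal subgroup. -/
lemma lab_fst_eq (hN : N.Normal) (g g' : H) :
    (D.lab (qa N) c (g : H ⧸ N)).1 = (D.lab (qa N) c' (g' : H ⧸ N)).1 ↔
      D.Same N (act g⁻¹ c) (act g'⁻¹ c') ∨ D.Same N (act g⁻¹ c) (D.rev (act g'⁻¹ c')) := by
  rw [rev_act, ← lab_eq hN, ← lab_eq hN, lab_rev, Prod.ext_iff (x := D.lab _ c _),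
    Prod.ext_iff (x := D.lab _ c _)]
  generalize (D.lab (qa N) c (g : H ⧸ N)).2 = b
  generalize (D.lab (qa N) c' (g' : H ⧸ N)).2 = b'
  cases b <;> cases b' <;> simp

/-- On an embedded circle an edge is met once per turn. -/
lemma Emb.lab_inj (hN : N.Normal) (h : D.Ax y a l) (he : D.Emb N y a l) (x : H ⧸ N) {i i' : ℤ}
    (e : (D.lab (qa N) (a i) x).1 = (D.lab (qa N) (a i') x).1) :
    ∃ m : ℤ, i' = i + l * m ∧ y ^ m ∈ N := by
  obtain ⟨g, rfl⟩ := QuotientGroup.mk_surjective x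
  rw [lab_fst_eq hN, rev_act, same_act, same_act] at e
  rcases e with e | e
  · exact he.2 i i' e.start.1 e.start.2
  · obtain ⟨s1, s2⟩ := e.start
    obtain ⟨l1, l2⟩ := h.lk i'
    have s3 : D.vt (a i).1 = D.vt (a (i' + 1)).1 := s1.trans l1
    obtain ⟨m, m1, m2⟩ := he.2 i (i' + 1) s3 (by
      have := mul_mem s2 (Subgroup.mem_sup_left (s3 ▸ l2))
      simpa only [TD.rev, mul_assoc, mul_inv_cancel_left] using this)
    refine absurd (e.symm.trans ?_) (he.1 i')
    rw [m1, h.zper, same_act_self hN]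
    exact Subgroup.mem_sup_right m2

end TD

end Pool.Agent.P.MP_67c9d4_al.FC
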