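import Pool.Agent.P.MP_67c9d4_al.Defs

/-! Paths in a graph, as elements of the free group on the edges. -/

namespace Pool.Agent.P.MP_67c9d4_al

/-- `GPath o t u v g`: the element `g` of the free group on the edges is represented by an edge
path from `u` to `v` in the graph whose edge `e` goes from `o e` to `t e`. -/
inductive GPath {V E : Type} (o t : E → V) : V → V → FreeGroup E → Prop
  | edge (e : E) : GPath o t (o e) (t e) (FreeGroup.of e)
  | one (v : V) : GPath o t v v 1
  | mul {u v w : V} {g h : FreeGroup E} : GPath o t u v g → GPath o t v w h → GPath o t u w (g * h)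
  | inv {u v : V} {g : FreeGroup E} : GPath o t u v g → GPath o t v u g⁻¹

end Pool.Agent.P.MP_67c9d4_al
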