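import Pool.Agent.P.MP_67c9d4_al.Main
import Pool.Agent.P.MP_67c9d4_al.FC.SDefs

/-! Definitions for the polynomially growing case. -/

namespace Pool.Agent.P.MP_67c9d4_al.FC

open Equiv Wr Multiplicative

abbrev MZ : Type := Multiplicative ℤ

section groups
variable {H : Type} [Group H]

/-- Normal of finite index. -/
def FN (N : Subgroup H) : Prop := N.Normal ∧ N.FiniteIndex

/-- Residually finite. -/
def RF (H : Type) [Group H] : Prop := ∀ g : H, g ≠ 1 → ∃ N : Subgroup H, FN N ∧ g ∉ N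

/-- Separable subgroup. -/
def Sepb (A : Subgroup H) : Prop := ∀ g, g ∉ A → ∃ N : Subgroup H, FN N ∧ g ∉ A ⊔ N

/-- The conjugate `c A c⁻¹`. -/
def cj (c : H) (A : Subgroup H) : Subgroup H := A.comap (MulAut.conj c⁻¹).toMonoidHom

/-- A virtual character kills `B` and no nonzero power of `a`. -/
def Ind1 (a : H) (B : Subgroup H) : Prop :=
  ∃ (K : Subgroup H) (_ : K.FiniteIndex) (f : K →* MZ), (∀ b : K, (b : H) ∈ B → f b = 1) ∧
    ∀ (M : ℤ) (h : a ^ M ∈ K), M ≠ 0 → f ⟨_, h⟩ ≠ 1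

/-- Two virtual characters kill `B₁` and `B₂` and are jointly faithful on `A`. -/
def Ind3 (A B₁ B₂ : Subgroup H) : Prop :=
  ∃ (K : Subgroup H) (_ : K.FiniteIndex) (f₁ f₂ : K →* MZ), (∀ b : K, (b : H) ∈ B₁ → f₁ b = 1) ∧
    (∀ b : K, (b : H) ∈ B₂ → f₂ b = 1) ∧
    ∀ a ∈ A, ∀ (M : ℕ) (h : a ^ M ∈ K), 0 < M → f₁ ⟨_, h⟩ = 1 → f₂ ⟨_, h⟩ = 1 → a = 1

/-- A virtual character takes the value one at `g`. -/
def VRat (g : H) : Prop :=
  ∃ (K : Subgroup H) (_ : K.FiniteIndex) (f : K →* MZ) (h : g ∈ K), f ⟨g, h⟩ = ofAdd 1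

/-- The centraliser of every nonzero power of `y` is generated by `y`. -/
def Mal (y : H) : Prop := ∀ (g : H) (a : ℤ), a ≠ 0 → Commute g (y ^ a) → g ∈ Subgroup.zpowers y

/-- Generic elements. -/
def Gen {V : Type} (χ : H →* MZ) (t : V → H) (y : H) : Prop :=
  χ y = ofAdd 1 ∧ Mal y ∧ ∀ v, ¬IsConj (t v) y

/-- Vertical elements of the centraliser of `a` are seen by virtual characters. -/
def Amb (χ : H →* MZ) (a : H) : Prop := ∀ z, Commute z a → z ≠ 1 → χ z = 1 → VRat z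

/-- An endomorphism inverts the abelianisation. -/
def Mir (B : Type) [Group B] : Prop :=
  ∃ m : B →* B, ∀ (C : Type) [CommGroup C] (f : B →* C) (b : B), f (m b) = (f b)⁻¹

/-- The action on a coset space. -/
def qa (N : Subgroup H) : H →* Perm (H ⧸ N) := MulAction.toPermHom H (H ⧸ N)

/-- `H'` is the HNN extension of `H` whose stable letter `s` conjugates `a` to `b`. -/
structure IsHNN {H' : Type} [Group H'] (i : H →* H') (a b : H) (s : H') : Prop where
  rel : s⁻¹ * i a * s = i b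
  gen : Subgroup.closure (Set.range i ∪ {s}) = ⊤
  up : ∀ (W : Type) [Group W] (f : H →* W) (w : W), w⁻¹ * f a * w = f b →
    ∃ F : H' →* W, (∀ h, F (i h) = f h) ∧ F s = w

end groups

section wr
variable {H X X' B : Type} [Group H] [Group B]

/-- All closed lifts of powers of `g` have trivial value. -/
def Null (σ : H →* Wr X B) (g : H) : Prop :=
  ∀ (n : ℕ) (x : X), (σ (g ^ n)).p x = x → (σ (g ^ n)).c x = 1

/-- The closed lift of a power of `g` at `x` has a nontrivial value. -/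
def NZ (σ : H →* Wr X B) (g : H) (x : X) : Prop :=
  ∃ n : ℕ, (σ (g ^ n)).p x = x ∧ (σ (g ^ n)).c x ≠ 1

/-- An invariant part of `σ'` covers `σ`. -/
def Dom (σ' : H →* Wr X' B) (σ : H →* Wr X B) : Prop :=
  ∃ π : X' → Option X, (∀ h x', π ((σ' h).p x') = (π x').map (σ h).p) ∧
    (∀ h x' x, π x' = some x → (σ' h).c x' = (σ h).c x) ∧ ∀ x, ∃ x', π x' = some x

/-- `σ'` covers `σ` through `π`. -/
def Cov (σ' : H →* Wr X' B) (σ : H →* Wr X B) (π : X' → X) : Prop :=
  (∀ h x', π ((σ' h).p x') = (σ h).p (π x')) ∧ ∀ h x', (σ' h).c x' = (σ h).c (π x')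

/-- All transfers to abelian groups vanish. -/
def Neu [Fintype X] (σ : H →* Wr X B) : Prop :=
  ∀ (C : Type) [CommGroup C] (f : B →* C) (h : H), tot (push f (σ h)) = 1

/-- Copies of a representation. -/
def cp (I : Type) (σ : H →* Wr X B) : H →* Wr (I × X) B := flat.comp (cst (1 : H →* Perm I) σ)

/-- Affine combinations of a virtual character and a character. -/
def aff {I : Type} (σ : H →* Wr X MZ) (χ : H →* MZ) (l m : I → ℤ) : H →* Wr (I × X) MZ where
  toFun h := ⟨Equiv.prodCongr (Equiv.refl I) (σ h).p, fun q => (σ h).c q.2 ^ l q.1 * χ h ^ m q.1⟩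
  map_one' := by ext q <;> simp
  map_mul' a b := by
    refine Wr.ext (by ext q <;> simp) (funext fun q => ?_)
    change ((σ (a * b)).c q.2) ^ l q.1 * χ (a * b) ^ m q.1 = ((σ a).c q.2 ^ l q.1 * χ a ^ m q.1) *
      ((σ b).c ((σ a).p⁻¹ q.2) ^ l q.1 * χ b ^ m q.1)
    rw [map_mul, map_mul, mul_c, mul_zpow, mul_zpow, mul_mul_mul_comm]

/-- Relations of homogeneous class functions. -/
noncomputable def HR (B : Type) [Group B] : Submodule ℚ (B →₀ ℚ) :=
  Submodule.span ℚ ({v | ∃ g b : B, v = Finsupp.single (g * b * g⁻¹) 1 - Finsupp.single b 1} ∪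
    {v | ∃ (b : B) (j : ℤ), v = Finsupp.single (b ^ j) 1 - (j : ℚ) • Finsupp.single b 1})

/-- The target of the universal homogeneous class function. -/
abbrev HC (B : Type) [Group B] : Type := (B →₀ ℚ) ⧸ HR B

/-- The universal homogeneous class function. -/
noncomputable def cl (b : B) : HC B := (HR B).mkQ (Finsupp.single b 1)

/-- The defect of additivity. -/
noncomputable def jen (a b : B) : HC B := cl a + cl b - cl (a * b)

/-- The span of the defects. -/
noncomputable def Jen (B : Type) [Group B] : Submodule ℚ (HC B) :=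
  Submodule.span ℚ {v | ∃ a b : B, v = jen a b}

/-- The normalised total class of the values of `g`. -/
noncomputable def tc [Fintype X] (σ : H →* Wr X B) (g : H) : HC B :=
  ((Nat.card (Perm X) : ℚ))⁻¹ • ∑ x, cl ((σ (g ^ Nat.card (Perm X))).c x)

/-- Second differences of both signs are imbalances of neutral virtual characters. -/
def LinZ (t y : H) : Prop :=
  ∀ (n : ℕ) (j a e : ℤ), 0 < n → (e = 1 ∨ e = -1) → ∃ (r c : ℕ) (X : Type) (_ : Fintype X)
    (σ : H →* Wr X MZ), 0 < r ∧ 0 < c ∧ Per (n * r) σ ∧ (∀ h, tot (σ h) = 1) ∧ ∀ F : ℤ → ℚ,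
      ∑ x, F ((σ (t ^ (n * r))).c x).toAdd - ∑ x, F ((σ (y ^ (n * r))).c x).toAdd =
        e * c * (F (r * (j + a)) + F (r * (j - a)) - 2 * F (r * j))

/-- A virtual character that sees only few lifts of `y`. -/
def O1c (y : H) (Z : Set H) (H₀ : Subgroup H) : Prop :=
  ∃ (X : Type) (_ : Fintype X) (σ : H →* Wr X MZ) (κ : ℚ), (∀ z ∈ Z, Null σ z) ∧
    (∀ (n : ℕ) (x : X), (σ (y ^ n)).p x = x → (σ (y ^ n)).c x = 1 ∨
      (((σ (y ^ n)).c x).toAdd : ℚ) = n * κ ∨ (((σ (y ^ n)).c x).toAdd : ℚ) = -(n * κ)) ∧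
    (∃ x, NZ σ y x) ∧ ∀ h x, NZ σ y x → NZ σ y ((σ h).p x) → h ∈ Subgroup.zpowers y ⊔ H₀

/-- Representations in which the total class of `y` is a defect of additivity. -/
def OJc (y : H) (Z : Set H) : Prop :=
  ∀ (B : Type) [Group B] (a b : B), ∃ (X : Type) (_ : Fintype X) (σ : H →* Wr X B) (q : ℚ),
    0 < q ∧ Neu σ ∧ tc σ y = q • jen a b ∧ ∀ z ∈ Z, tc σ z = 0

variable {V : Type} (χ : H →* MZ) (t : V → H)

def O1 : Prop := ∀ y, Gen χ t y → ∀ Z : Set H, Z.Finite → (∀ z ∈ Z, Gen χ t z ∧ ¬IsConj y z) →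
  ∀ H₀ : Subgroup H, FN H₀ → O1c y (Z ∪ Set.range t) H₀

def O2 : Prop := ∀ (v : V) (Y : Set H), Y.Finite → (∀ y ∈ Y, Gen χ t y) →
  ∃ (X : Type) (_ : Fintype X) (σ : H →* Wr X MZ), (∀ y ∈ Y, Null σ y) ∧ ∃ x, NZ σ (t v) x

def OJ : Prop := ∀ y, Gen χ t y → ∀ Z : Set H, Z.Finite → (∀ z ∈ Z, Gen χ t z ∧ ¬IsConj y z) →
  OJc y (Z ∪ Set.range t)

end wr

section raag
variable {T : Type} (Γ : SimpleGraph T)

/-- Standard parabolic subgroups. -/
def PS (S : Set T) : Subgroup (RAAG Γ) := Subgroup.closure (PresentedGroup.of '' S)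

/-- The element given by a word. -/
def wd (L : List (T × Bool)) : RAAG Γ := PresentedGroup.mk _ (FreeGroup.mk L)

/-- Marked cosets of standard parabolic subgroups. -/
def RFib : Type := Σ s : Bool × Set T, RAAG Γ ⧸ PS Γ s.2

instance : MulAction (RAAG Γ) (RFib Γ) :=
  inferInstanceAs (MulAction (RAAG Γ) (Σ s : Bool × Set T, RAAG Γ ⧸ PS Γ s.2))

def rfb (s : Bool × Set T) (b : RAAG Γ) : RFib Γ := ⟨s, (b : RAAG Γ ⧸ PS Γ s.2)⟩

variable {Γ} {H X : Type} [Group H]

/-- Inside `G`, the subgroup `Λ` is the stabiliser of a section. -/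
def SepOn (σ : H →* Wr X (RAAG Γ)) (G Λ : Subgroup H) : Prop :=
  ∃ ω : X → RFib Γ, ∀ g ∈ G, sec (σ g) ω = ω ↔ g ∈ Λ

def VS (G Λ : Subgroup H) : Prop :=
  ∃ (T : Type) (_ : Finite T) (Γ : SimpleGraph T) (X : Type) (_ : Fintype X)
    (σ : H →* Wr X (RAAG Γ)), SepOn σ G Λ

/-- `Λ` is virtually the preimage of a parabolic subgroup. -/
def VP (Λ : Subgroup H) : Prop :=
  ∃ (K : Subgroup H) (_ : K.FiniteIndex) (T : Type) (_ : Finite T) (Γ : SimpleGraph T)
    (f : K →* RAAG Γ) (S : Set T), ∀ g : K, f g ∈ PS Γ S ↔ (g : H) ∈ Λ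

/-- Walks that read a word. -/
inductive Walk {T Y : Type} (Mv : T × Bool → Y → Y → Prop) : List (T × Bool) → Y → Y → Prop
  | nil (y : Y) : Walk Mv [] y y
  | cons {x : T × Bool} {L : List (T × Bool)} {y y' y'' : Y} :
      Mv x y y' → Walk Mv L y' y'' → Walk Mv (x :: L) y y''

variable (Γ)

/-- A locally convex complex over the Salvetti complex. -/
structure Cx {Y : Type} (Mv : T × Bool → Y → Y → Prop) : Prop where
  det : ∀ x y y₁ y₂, Mv x y y₁ → Mv x y y₂ → y₁ = y₂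
  inv : ∀ x y y', Mv x y y' → Mv (x.1, !x.2) y' y
  sq : ∀ x x' y y₁ y₂, Γ.Adj x.1 x'.1 → Mv x y y₁ → Mv x' y y₂ → ∃ y₃, Mv x' y₁ y₃ ∧ Mv x y₂ y₃

/-- No letter can be moved next to its inverse. -/
def RedW (w : ℤ → T × Bool) : Prop :=
  ∀ i j, i < j → w j = ((w i).1, !(w i).2) → ∃ k, i < k ∧ k < j ∧ ¬Γ.Adj (w k).1 (w i).1

/-- Lower sets of the heap of a sequence of letters. -/
def Cut (w : ℤ → T × Bool) (C : Set ℤ) : Prop :=
  ∀ i j, i < j → ¬Γ.Adj (w i).1 (w j).1 → j ∈ C → i ∈ C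

/-- Adding a piece with label `x` or removing a piece with the inverse label. -/
def CStep (w : ℤ → T × Bool) (x : T × Bool) (C C' : Set ℤ) : Prop :=
  Cut Γ w C ∧ Cut Γ w C' ∧ ((∃ i, i ∉ C ∧ w i = x ∧ C' = insert i C) ∨
    ∃ i, i ∈ C ∧ w i = (x.1, !x.2) ∧ C' = C \ {i})

/-- The word in the positions `0, ..., n - 1`. -/
def pre (w : ℤ → T × Bool) (n : ℕ) : List (T × Bool) := (List.range n).map fun i : ℕ => w i

end raag

/-- The inductive hypothesis on the groups of a tower. -/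
structure Good {H V : Type} [Group H] (χ : H →* MZ) (t : V → H) : Prop where
  chi : ∀ v, χ (t v) = ofAdd 1
  o1 : O1 χ t
  o2 : O2 χ t
  oj : OJ χ t
  vp : VP (⊥ : Subgroup H)
  vt : ∀ v, VP (Subgroup.zpowers (t v))

/-- The hypotheses of a generic step. -/
structure Step {H H' V : Type} [Group H] [Group H'] (χ : H →* MZ) (t : V → H) (o : V) (y : H)
    (i : H →* H') (s : H') (χ' : H' →* MZ) : Prop where
  fin : Finite V
  good : Good χ t
  gen : Gen χ t y
  hnn : IsHNN i (t o) y s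
  chi : ∀ h, χ' (i h) = χ h

section tree

/-- The other side of an edge. -/
def bar {E : Type} (k : E × Bool) : E × Bool := (k.1, !k.2)

/-- The data of a graph of groups inside the group `H`. The side `k` of an edge starts at
`vt k`, has edge group `P k`, and `ε k` leads from `vt k` to `vt (bar k)`. -/
structure TD (H V E : Type) [Group H] where
  vt : E × Bool → V
  G : V → Subgroup H
  P : E × Bool → Subgroup H
  ε : E × Bool → H
  le : ∀ k, P k ≤ G (vt k)
  inv : ∀ k, ε (bar k) = (ε k)⁻¹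
  conj : ∀ k g, g ∈ P (bar k) ↔ ε k * g * (ε k)⁻¹ ∈ P k

namespace TD
variable {H V E : Type} [Group H] (D : TD H V E)

inductive Pth : V → V → H → Prop
  | vtx {v : V} {g : H} : g ∈ D.G v → Pth v v g
  | edge (k : E × Bool) : Pth (D.vt k) (D.vt (bar k)) (D.ε k)
  | mul {u v w : V} {g h : H} : Pth u v g → Pth v w h → Pth u w (g * h)

/-- A path representation. -/
def Mult {W : Type} [Group W] (Ev : V → V → H → W) : Prop :=
  ∀ u v w g h, Ev u v g * Ev v w h = Ev u w (g * h)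

/-- `H` acts on the tree of the graph of groups. -/
structure Tree : Prop where
  gen : ∀ u v h, D.Pth u v h
  up : ∀ (W : Type) [Group W] (σ : V → H → W) (γ : E × Bool → W),
    (∀ v, ∀ g ∈ D.G v, ∀ h ∈ D.G v, σ v (g * h) = σ v g * σ v h) → (∀ k, γ (bar k) = (γ k)⁻¹) →
    (∀ k, ∀ g ∈ D.P (bar k), σ (D.vt k) (D.ε k * g * (D.ε k)⁻¹) =
      γ k * σ (D.vt (bar k)) g * (γ k)⁻¹) →
    ∃ Ev : V → V → H → W, Mult Ev ∧ (∀ v, ∀ g ∈ D.G v, Ev v v g = σ v g) ∧
      ∀ k, Ev (D.vt k) (D.vt (bar k)) (D.ε k) = γ k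

/-- Oriented edges of the tree are given by pairs `(k, p)`; this is the translate by `g`. -/
def act (g : H) (c : (E × Bool) × H) : (E × Bool) × H := (c.1, g * c.2)

/-- The reversed edge. -/
def rev (c : (E × Bool) × H) : (E × Bool) × H := (bar c.1, c.2 * D.ε c.1)

/-- The stabiliser of an edge. -/
def St (c : (E × Bool) × H) : Subgroup H := cj c.2 (D.P c.1)

/-- The edges agree modulo `N`; for `N = ⊥` they are equal. -/
def Same (N : Subgroup H) (c c' : (E × Bool) × H) : Prop :=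
  c.1 = c'.1 ∧ c.2⁻¹ * c'.2 ∈ D.P c.1 ⊔ N

/-- The edge `c'` starts where `c` ends. -/
def Lk (c c' : (E × Bool) × H) : Prop :=
  D.vt (bar c.1) = D.vt c'.1 ∧ (c.2 * D.ε c.1)⁻¹ * c'.2 ∈ D.G (D.vt c'.1)

/-- A geodesic segment with `n` edges. -/
def Seg (c : ℕ → (E × Bool) × H) (n : ℕ) : Prop :=
  ∀ i, i + 1 < n → D.Lk (c i) (c (i + 1)) ∧ ¬D.Same ⊥ (D.rev (c i)) (c (i + 1))

/-- An axis of `y` with translation length `l`. -/
structure Ax (y : H) (c : ℤ → (E × Bool) × H) (l : ℕ) : Prop where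
  pos : 0 < l
  lk : ∀ i, D.Lk (c i) (c (i + 1))
  nb : ∀ i, ¬D.Same ⊥ (D.rev (c i)) (c (i + 1))
  per : ∀ i, c (i + l) = act y (c i)

/-- Elliptic elements. -/
def Ell (g : H) : Prop := ∃ v c, c⁻¹ * g * c ∈ D.G v

/-- The edge groups are separable. -/
def Sp : Prop := ∀ k, Sepb (D.P k)

/-- Edge groups along long segments are independent in virtual homology. -/
def Ind : Prop := ∃ L, ∀ c, D.Seg c L → ∃ i < L, ∃ j₁ < L, ∃ j₂ < L,
  Ind3 (D.St (c i)) (D.St (c j₁)) (D.St (c j₂))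

/-- The axis gives an embedded circle in the quotient graph by `N`. -/
def Emb (N : Subgroup H) (y : H) (c : ℤ → (E × Bool) × H) (l : ℕ) : Prop :=
  (∀ i, ¬D.Same N (D.rev (c i)) (c (i + 1))) ∧ ∀ i i', D.vt (c i).1 = D.vt (c i').1 →
    (c i).2⁻¹ * (c i').2 ∈ D.G (D.vt (c i).1) ⊔ N → ∃ m : ℤ, i' = i + l * m ∧ y ^ m ∈ N

/-- The label of the edge `c` seen from the point `x`. -/
def lab {X : Type} (α : H →* Perm X) (c : (E × Bool) × H) (x : X) : (E × Set X) × Bool :=
  ((c.1.1, {x' | ∃ g ∈ D.P (c.1.1, true),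
    x' = α g (α (bif c.1.2 then c.2 else c.2 * D.ε c.1)⁻¹ x)}), c.1.2)

/-- Two states agree on the stabiliser of the edge `c` at the point `x`. -/
def Agr {X F : Type} (ψ : F → H →* Wr X MZ) (c : (E × Bool) × H) (x : X) (f f' : F) : Prop :=
  ∀ g ∈ D.St c, (ψ f g).p x = x → (ψ f g).c x = (ψ f' g).c x

/-- The graph of groups of an HNN extension. -/
structure IsHT {H₀ : Type} [Group H₀] (D : TD H Unit Unit) (i : H₀ →* H) (a b : H₀) (s : H) :
    Prop where
  tree : D.Tree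
  hG : D.G () = i.range
  hPt : D.P ((), true) = Subgroup.zpowers (i a)
  hPf : D.P ((), false) = Subgroup.zpowers (i b)
  hε : D.ε ((), true) = s

end TD
end tree

section win

/-- A coboundary for a permutation. -/
def Cob {Ω : Type} (T : Perm Ω) (c : Ω → ℤ) : Prop := ∃ γ : Ω → ℤ, ∀ ω, c ω = γ (T ω) - γ ω

/-- The number of orbits. -/
noncomputable def norb {Ω : Type} (T : Perm Ω) : ℕ :=
  Nat.card (Quotient (Equiv.Perm.SameCycle.setoid T))

/-- A finite automaton whose letters change the state only inside the allowed classes. -/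
structure Cfg {W F : Type} (R : W → F → F → Prop) where
  Z : Type
  fin : Finite Z
  Φ : W → Perm Z
  st : Z → F
  m : ℕ
  pos : 0 < m
  fib : ∀ f, Nat.card {z // st z = f} = m
  ok : ∀ l z, R l (st (Φ l z)) (st z)

/-- Reading a cyclic word. -/
def Cfg.T {W F : Type} {R : W → F → F → Prop} (C : Cfg R) {n : ℕ} (w : ZMod n → W × Bool) :
    Perm (ZMod n × C.Z) where
  toFun q := (q.1 + 1, (FreeGroup.lift C.Φ (lt (w q.1)))⁻¹ q.2)
  invFun q := (q.1 - 1, FreeGroup.lift C.Φ (lt (w (q.1 - 1))) q.2)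
  left_inv q := by simp
  right_inv q := by simp

/-- The cost vanishes on all closed lifts of the cyclic word. -/
def Cfg.Kl {W F : Type} {R : W → F → F → Prop} (C : Cfg R) {n : ℕ} (w : ZMod n → W × Bool)
    (β : ZMod n → F → ℤ) : Prop := Cob (C.T w) fun q => β q.1 (C.st q.2)

end win

section base

/-- Combinatorial data of the base of a tower. The letter `a` sits at the vertex `vx a`; the
index `k` is a plane at the vertex `vt k` spanned by `z k` and the fibre, glued to the plane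
`h k` with twist `n k`. -/
structure BD (V A K : Type) where
  vx : A → V
  vt : K → V
  h : K → K
  z : K → FreeGroup A
  n : K → ℤ
  hh : ∀ k, h (h k) = h k
  hz : ∀ k, z k ∈ FS {a | vx a = vt k}
  hn0 : ∀ k, n (h k) = 0
  hn : ∀ k k', h k = h k' → n k = n k' → k = k'
  maln : ∀ k k' (g : FreeGroup A) (i j : ℤ), i ≠ 0 → g * z k ^ i * g⁻¹ = z k' ^ j →
    k = k' ∧ g ∈ Subgroup.zpowers (z k)

variable {V A K : Type}

/-- The words in the letters at `v`. -/
def BD.At (D : BD V A K) (v : V) : Subgroup (FreeGroup A) := FS {a | D.vx a = v}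

/-- The relations of the base group. -/
structure BD.Rel (D : BD V A K) {W : Type} [Group W] (ℓ : FreeGroup A →* W) (t : V → W)
    (s : K → W) : Prop where
  com : ∀ a, Commute (ℓ (FreeGroup.of a)) (t (D.vx a))
  rz : ∀ k, (s k)⁻¹ * ℓ (D.z k) * s k = ℓ (D.z (D.h k))
  rt : ∀ k, (s k)⁻¹ * t (D.vt k) * s k = ℓ (D.z (D.h k)) ^ D.n k * t (D.vt (D.h k))
  one : ∀ k, s (D.h k) = 1

/-- A base structure on the group `B` with character `χ`. -/
structure BS {B : Type} [Group B] (χ : B →* MZ) (V A K : Type) extends BD V A K where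
  ℓ : FreeGroup A →* B
  t : V → B
  s : K → B
  finV : Finite V
  finA : Finite A
  finK : Finite K
  rel : toBD.Rel ℓ t s
  gen : Subgroup.closure (Set.range ℓ ∪ Set.range t ∪ Set.range s) = ⊤
  up : ∀ (W : Type) [Group W] (ℓ' : FreeGroup A →* W) (t' : V → W) (s' : K → W),
    toBD.Rel ℓ' t' s' → ∃ F : B →* W, (∀ w, F (ℓ w) = ℓ' w) ∧ (∀ v, F (t v) = t' v) ∧
      ∀ k, F (s k) = s' k
  ne : ∀ k, ℓ (z k) ≠ 1
  cl : ∀ w, χ (ℓ w) = 1
  ct : ∀ v, χ (t v) = ofAdd 1
  cs : ∀ k, χ (s k) = 1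

namespace BS
variable {B : Type} [Group B] {χ : B →* MZ} (b : BS χ V A K)

/-- The vertex group. -/
def Gv (v : V) : Subgroup B := (b.At v).map b.ℓ ⊔ Subgroup.zpowers (b.t v)

/-- The plane. -/
def Pl (k : K) : Subgroup B := Subgroup.zpowers (b.ℓ (b.z k)) ⊔ Subgroup.zpowers (b.t (b.vt k))

/-- The vertices of the graph of groups of the base. -/
abbrev TV : Type := Option (V ⊕ {k : K // b.h k = k})

/-- The graph of groups of the base: a cone vertex, the vertices and the planes. -/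
structure IsBT (D : TD B b.TV (V ⊕ K)) : Prop where
  tree : D.Tree
  v1 : ∀ v, D.vt (.inl v, true) = none
  v2 : ∀ v, D.vt (.inl v, false) = some (.inl v)
  v3 : ∀ k, D.vt (.inr k, true) = some (.inl (b.vt k))
  v4 : ∀ k, D.vt (.inr k, false) = some (.inr ⟨b.h k, b.hh k⟩)
  g1 : D.G none = ⊥
  g2 : ∀ v, D.G (some (.inl v)) = b.Gv v
  g3 : ∀ p, D.G (some (.inr p)) = b.Pl p.1
  p1 : ∀ v e, D.P (.inl v, e) = ⊥
  p2 : ∀ k, D.P (.inr k, true) = b.Pl k
  p3 : ∀ k, D.P (.inr k, false) = b.Pl (b.h k)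
  e1 : ∀ v e, D.ε (.inl v, e) = 1
  e2 : ∀ k, D.ε (.inr k, true) = b.s k

/-- The planes are seen by virtual characters. -/
def VRB : Prop := ∀ k, VRat (b.ℓ (b.z k))

/-- A representation in which planes and fibres are stabilisers of sections. -/
def Rho : Prop :=
  ∃ (W I : Type) (_ : Finite W) (_ : Fintype I) (ρ : B →* Wr I (FreeGroup W)),
    (∀ k, ∃ ω : I → Fib W, ∀ w ∈ b.At (b.vt k), ∀ i : ℤ,
      sec (ρ (b.ℓ w * b.t (b.vt k) ^ i)) ω = ω ↔ w ∈ Subgroup.zpowers (b.z k)) ∧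
    ∀ v, ∃ ω : I → Fib W, ∀ w ∈ b.At v, ∀ i : ℤ, sec (ρ (b.ℓ w * b.t v ^ i)) ω = ω ↔ w = 1

/-- Elements of height one are generic or conjugate into a vertex group of the base. -/
def Dich {H : Type} [Group H] (j : B →* H) (χ' : H →* MZ) : Prop :=
  ∀ y, χ' y = ofAdd 1 → Gen χ' (fun v => j (b.t v)) y ∨
    ∃ v, ∃ w ∈ b.At v, IsConj (j (b.ℓ w * b.t v)) y

/-- A new base structure on the extension `B₁`, with the same active fibres. -/
def Mvd (U : Set V) {B₁ : Type} [Group B₁] (i : B →* B₁) (χ₁ : B₁ →* MZ) : Prop :=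
  ∃ (A' K' : Type) (b' : BS χ₁ V A' K') (U' : Set V), (∀ a, b'.vx a ∈ U') ∧
    (∀ v ∈ U, ∃ v' ∈ U', IsConj (i (b.t v)) (b'.t v')) ∧
    ∀ v' ∈ U', ∃ v ∈ U, IsConj (i (b.t v)) (b'.t v')

end BS
end base

/-- A group with a character. -/
structure MG : Type 1 where
  H : Type
  [grp : Group H]
  χ : H →* MZ

attribute [instance] MG.grp

/-- Towers of HNN extensions over `B` that attach along conjugates of elements of `S`. -/
inductive PTow (B : MG) (S : Set B.H) : (H : MG) → (B.H →* H.H) → ℕ → Prop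
  | base : PTow B S B (MonoidHom.id _) 0
  | step {H H' : MG} {j : B.H →* H.H} {n : ℕ} (i : H.H →* H'.H) (a y : H.H) (s : H'.H) :
      PTow B S H j n → (∃ a₀ ∈ S, IsConj (j a₀) a) → H.χ a = ofAdd 1 → H.χ y = ofAdd 1 →
      IsHNN i a y s → (∀ h, H'.χ (i h) = H.χ h) → H'.χ s = 1 → PTow B S H' (i.comp j) (n + 1)

/-- The free group on the vertices. -/
noncomputable def B0 (V : Type) : MG := ⟨FreeGroup V, FreeGroup.lift fun _ => ofAdd 1⟩

/-- The relations of the mapping torus of a triangular map. -/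
def TRel {V E W : Type} [Group W] (o t : E → V) (u : E → FreeGroup E) (η : FreeGroup E →* W)
    (τ : V → W) : Prop :=
  ∀ e, (η (FreeGroup.of e))⁻¹ * τ (o e) * η (FreeGroup.of e) = η (u e) * τ (t e)

/-- `H` is the path group of the mapping torus of a triangular map. -/
structure IsPG {V E H : Type} [Group H] (o t : E → V) (u : E → FreeGroup E)
    (η : FreeGroup E →* H) (τ : V → H) (χ : H →* MZ) : Prop where
  rel : TRel o t u η τ
  gen : Subgroup.closure (Set.range η ∪ Set.range τ) = ⊤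
  up : ∀ (W : Type) [Group W] (η' : FreeGroup E →* W) (τ' : V → W), TRel o t u η' τ' →
    ∃ F : H →* W, (∀ w, F (η w) = η' w) ∧ ∀ v, F (τ v) = τ' v
  ce : ∀ w, χ (η w) = 1
  ct : ∀ v, χ (τ v) = ofAdd 1

end Pool.Agent.P.MP_67c9d4_al.FC
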