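import Pool.Agent.P.MP_67c9d4_al.FC.Iface

/-! The extension induces a finer profinite topology. -/

namespace Pool.Agent.P.MP_67c9d4_al.FC

open Equiv Wr Multiplicative TD

theorem s_EFF (hEXTEND : S_EXTEND) : S_EFF := by
  intro H H' _ _ χ i a y s hs ha hy K hK
  have := hK.1
  have := hK.2
  obtain ⟨Y, _, ⟨q⟩, ρ, hρ⟩ := hEXTEND H H' (H ⧸ K) χ i a y s hs ha hy (QuotientGroup.mk' K) K.index
    (Nat.pos_of_ne_zero hK.2.index_ne_zero) (by
      rw [QuotientGroup.mk'_apply, QuotientGroup.mk'_apply,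
        (QuotientGroup.eq_one_iff _).2 (hK.pow_mem a), (QuotientGroup.eq_one_iff _).2 (hK.pow_mem y)])
  have : Finite (Wr Y (H ⧸ K)) := Finite.of_injective (fun w => (w.p, w.c)) fun w w' e =>
    Wr.ext (congrArg Prod.fst e) (congrArg Prod.snd e)
  refine ⟨ρ.ker, FN.ker ρ, fun h hh => (QuotientGroup.eq_one_iff h).1 ?_⟩
  have e := hρ h q
  rw [MonoidHom.mem_ker.1 hh] at e
  exact e.symm

end Pool.Agent.P.MP_67c9d4_al.FC
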