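import Pool.Agent.P.MP_67c9d4_al.FC.Iface

/-! Free groups extended by products of right-angled Artin groups. -/

namespace Pool.Agent.P.MP_67c9d4_al.FC

open Equiv Wr Multiplicative TD

theorem s_EXT : S_EXT := by
  intro I T J Ω _ _ _ Γ act j pt S h1 h2 h3
  classical
  haveI := Fintype.ofFinite I
  let R : J ⊕ I × T → J ⊕ I × T → Prop := fun x y => match x, y with
    | .inl k, .inr l => l.2 ∈ S k l.1
    | .inr l, .inr l' => l.1 ≠ l'.1 ∨ Γ.Adj l.2 l'.2
    | _, _ => False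
  let g : J ⊕ I × T → RAAG (SimpleGraph.fromRel R) := PresentedGroup.of
  choose φ hφ0 using fun i : I => raag_lift (Γ := Γ) (fun l => g (.inr (i, l)))
    fun a b h => raag_comm (R := R) (Or.inr h)
  have hφ : Pairwise fun i i' => ∀ b b', Commute (φ i b) (φ i' b') := fun i i' h b b' =>
    commute_PS (φ i') (fun l' _ => (commute_PS (φ i) (fun l _ => by
      rw [hφ0, hφ0]
      exact raag_comm (R := R) (Or.inl h.symm)) (PS_univ b)).symm) (PS_univ b')
  let fB := MonoidHom.noncommPiCoprod φ hφ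
  have hB : ∀ x b, (∀ i, Commute x (φ i (b i))) → Commute x (fB b) := fun x b h =>
    Finset.noncommProd_commute _ _ (fun i _ i' _ e => hφ e _ _) _ fun i _ => h i
  choose b hb using h1
  let fΩ : FreeGroup Ω →* RAAG (SimpleGraph.fromRel R) :=
    FreeGroup.lift fun ω => fB (b ω) * g (.inl (j ω)) * (fB (b ω))⁻¹
  have hc : ∀ c, fΩ.comp (pa.comp act c).toMonoidHom =
      (MulAut.conj (fB c)).toMonoidHom.comp fΩ := by
    intro c
    refine FreeGroup.ext_hom _ _ fun ω => ?_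
    have e1 : act ((b (act c ω))⁻¹ * c * b ω) (pt (j ω)) = pt (j ω) := by
      rw [map_mul, map_mul, map_inv, Perm.mul_apply, Perm.mul_apply, ← hb, Perm.inv_eq_iff_eq,
        ← h2 c ω, ← hb]
    have e2 := hB (g (.inl (j ω))) _ fun i =>
      commute_PS (φ i) (fun l hl => by
        rw [hφ0]
        exact raag_comm (R := R) hl) ((h3 _ _).1 e1 i)
    rw [map_mul, map_mul, map_inv] at e2
    change fΩ (FreeGroup.of (act c ω)) = fB c * fΩ (FreeGroup.of ω) * (fB c)⁻¹
    simp only [fΩ, FreeGroup.lift_apply_of, h2]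
    calc _ = fB (b (act c ω)) * (g (.inl (j ω)) * ((fB (b (act c ω)))⁻¹ * fB c * fB (b ω))) *
        (fB c * fB (b ω))⁻¹ := by group
      _ = _ := by rw [e2.eq]; group
  let Φ := SemidirectProduct.lift fΩ fB hc
  have hΦ : ∀ x, Φ x = fΩ x.left * fB x.right := fun _ => rfl
  let ψ : J ⊕ I × T → FreeGroup Ω ⋊[pa.comp act] (I → RAAG Γ) := fun x => match x with
    | .inl k => .inl (FreeGroup.of (pt k))
    | .inr l => .inr (Pi.mulSingle l.1 (PresentedGroup.of l.2))
  have hs : ∀ (S₀ : I → Set T) (l : I × T), l.2 ∈ S₀ l.1 → ∀ i,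
      (Pi.mulSingle l.1 (PresentedGroup.of l.2) : I → RAAG Γ) i ∈ PS Γ (S₀ i) := fun S₀ l h i => by
    by_cases e : i = l.1
    · subst e
      rw [Pi.mulSingle_eq_same]
      exact Subgroup.subset_closure ⟨l.2, h, rfl⟩
    · rw [Pi.mulSingle_eq_of_ne e]
      exact Subgroup.one_mem _
  have hψ : ∀ x y, R x y → Commute (ψ x) (ψ y) := by
    rintro (k | l) (k' | l') h
    · exact h.elim
    · have e1 := (h3 _ k).2 (hs (S k) l' h)
      refine SemidirectProduct.ext ?_ ?_
      · simp [ψ, pa_of, e1]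
      · simp [ψ]
    · exact h.elim
    · refine Commute.map ?_ SemidirectProduct.inr
      by_cases e : l.1 = l'.1
      · rw [e]
        exact (of_comm (h.resolve_left (not_not.2 e))).map
          (MonoidHom.mulSingle (fun _ => RAAG Γ) l'.1)
      · exact Pi.mulSingle_commute (f := fun _ => RAAG Γ) e _ _
  obtain ⟨Ψ, hΨ⟩ := raag_lift (Γ := SimpleGraph.fromRel R) ψ fun x y h =>
    ((SimpleGraph.fromRel_adj _ _ _).1 h).2.elim (hψ x y) fun h => (hψ y x h).symm
  have hΨ' : ∀ x, Ψ (g x) = ψ x := hΨ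
  have e1 : Ψ.comp fB = SemidirectProduct.inr := by
    refine MonoidHom.pi_ext fun i c => ?_
    have : Ψ.comp (φ i) = SemidirectProduct.inr.comp (MonoidHom.mulSingle (fun _ => RAAG Γ) i) :=
      raag_ext fun l => by
        rw [MonoidHom.comp_apply, hφ0, hΨ']
        rfl
    rw [MonoidHom.comp_apply, MonoidHom.noncommPiCoprod_mulSingle]
    exact DFunLike.congr_fun this c
  have e1' : ∀ c, Ψ (fB c) = .inr c := fun c => DFunLike.congr_fun e1 c
  have e2 : Ψ.comp fΩ = SemidirectProduct.inl := by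
    refine FreeGroup.ext_hom _ _ fun ω => ?_
    simp only [MonoidHom.comp_apply, fΩ, FreeGroup.lift_apply_of, map_mul, map_inv, e1', hΨ', ψ]
    conv_rhs => rw [hb ω, ← pa_of, ← MonoidHom.comp_apply pa, SemidirectProduct.inl_aut]
    simp
  have e3 : ∀ x, Ψ (Φ x) = x := fun x => by
    rw [hΦ, map_mul, e1', ← MonoidHom.comp_apply, e2, SemidirectProduct.inl_left_mul_inr_right]
  refine ⟨_, inferInstance, _, Φ, fun S₀ => ⟨Sum.inr '' {l | l.2 ∈ S₀ l.1}, fun x =>
    ⟨fun hx => ?_, fun hx => ?_⟩⟩⟩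
  · have h4 : PS (SimpleGraph.fromRel R) (Sum.inr '' {l | l.2 ∈ S₀ l.1}) ≤
        ((Subgroup.pi Set.univ fun i => PS Γ (S₀ i)).map SemidirectProduct.inr).comap Ψ :=
      (Subgroup.closure_le _).2 (by
        rintro _ ⟨_, ⟨l, hl, rfl⟩, rfl⟩
        exact ⟨_, fun i _ => hs S₀ l hl i, (hΨ (.inr l)).symm⟩)
    obtain ⟨c, hc1, hc2⟩ := h4 hx
    rw [e3] at hc2
    subst hc2
    exact ⟨rfl, fun i => hc1 i trivial⟩
  · rw [hΦ, hx.1, map_one, one_mul]
    refine Subgroup.noncommProd_mem _ (fun i _ i' _ e => hφ e _ _) fun i _ => ?_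
    have h4 : PS Γ (S₀ i) ≤
        (PS (SimpleGraph.fromRel R) (Sum.inr '' {l | l.2 ∈ S₀ l.1})).comap (φ i) :=
      (Subgroup.closure_le _).2 (by
        rintro _ ⟨a, ha, rfl⟩
        change φ i _ ∈ PS _ _
        rw [hφ0]
        exact Subgroup.subset_closure ⟨_, ⟨(i, a), ha, rfl⟩, rfl⟩)
    exact h4 (hx.2 i)

end Pool.Agent.P.MP_67c9d4_al.FC
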