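import Pool.Agent.P.MP_67c9d4_al.FC.Iface

/-! Existence of the HNN extension. -/

namespace Pool.Agent.P.MP_67c9d4_al.FC

open Equiv Wr Multiplicative TD

namespace HEXx

variable {H : Type} [Group H]

/-- The relator. -/
def rl (a b : H) : Monoid.Coprod H MZ :=
  (Monoid.Coprod.inr (ofAdd 1))⁻¹ * Monoid.Coprod.inl a * Monoid.Coprod.inr (ofAdd 1) *
    (Monoid.Coprod.inl b)⁻¹

/-- The extension. -/
abbrev Q (a b : H) : Type := Monoid.Coprod H MZ ⧸ Subgroup.normalClosure {rl a b}

theorem hnn (a b : H) :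
    IsHNN ((QuotientGroup.mk' _ : _ →* Q a b).comp Monoid.Coprod.inl) a b
      (QuotientGroup.mk' _ (Monoid.Coprod.inr (ofAdd 1))) where
  rel := by
    have h : (QuotientGroup.mk' _ : _ →* Q a b) (rl a b) = 1 :=
      (QuotientGroup.eq_one_iff _).2 (Subgroup.subset_normalClosure rfl)
    rw [rl, map_mul, map_inv, mul_inv_eq_one, map_mul, map_mul, map_inv] at h
    exact h
  gen := by
    rw [eq_top_iff]
    rintro x -
    obtain ⟨x, rfl⟩ := QuotientGroup.mk'_surjective _ x
    induction x using Monoid.Coprod.induction_on with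
    | inl h => exact Subgroup.subset_closure (Or.inl ⟨h, rfl⟩)
    | inr n =>
      have e : n = ofAdd 1 ^ toAdd n := by
        rw [← ofAdd_zsmul, smul_eq_mul, mul_one, ofAdd_toAdd]
      rw [e, map_zpow, map_zpow]
      refine Subgroup.zpow_mem _ (Subgroup.subset_closure ?_) _
      exact Set.mem_union_right _ (Set.mem_singleton _)
    | mul x y hx hy =>
      rw [map_mul]
      exact mul_mem hx hy
  up W _ f w h := by
    refine ⟨QuotientGroup.lift _ (Monoid.Coprod.lift f (zpowersHom W w))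
      (Subgroup.normalClosure_le_normal (N := MonoidHom.ker _) ?_), fun x => ?_, ?_⟩
    · rintro _ rfl
      simp [rl, MonoidHom.mem_ker, h]
    · simp
    · simp

end HEXx

theorem s_HEX : S_HEX := by
  intro H a b hab
  obtain ⟨F, h1, h2⟩ := (HEXx.hnn a b).up MZ H.χ 1 (by rw [hab]; simp)
  exact ⟨⟨HEXx.Q a b, F⟩, _, _, HEXx.hnn a b, h1, h2⟩

end Pool.Agent.P.MP_67c9d4_al.FC
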