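import Pool.Agent.P.MP_67c9d4_al.FC.BasD

/-! The statements of the steps of the proof. -/

namespace Pool.Agent.P.MP_67c9d4_al.FC

open Equiv Wr Multiplicative TD

/-! ### Lattices and separability -/

def S_LAT : Prop := ∀ Λ : AddSubgroup (ℤ × ℤ),
  (∀ φ, φ ∉ Λ → ∃ m : ℕ, 0 < m ∧ ∀ ψ ∈ Λ, ¬((m : ℤ) ∣ (φ - ψ).1 ∧ (m : ℤ) ∣ (φ - ψ).2)) ∧
  ∀ d : ℕ, 0 < d → ∃ m : ℕ, 0 < m ∧ ∀ ψ ∈ Λ, (m : ℤ) ∣ ψ.1 → (m : ℤ) ∣ ψ.2 →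
    ∃ ψ' ∈ Λ, ψ = d • ψ'

def S_PIN : Prop := ∀ (H : Type) [Group H] (A B₁ B₂ : Subgroup H), Ind3 A B₁ B₂ → ∀ w₁ w₂ : H,
  ∃ S : Set H, S.Finite ∧ (∀ s ∈ S, s ∈ A) ∧ ∀ K, FN K → ∃ N, FN N ∧ ∀ a ∈ A,
    a * w₁ ∈ B₁ ⊔ N → a * w₂ ∈ B₂ ⊔ N → ∃ s ∈ S, s⁻¹ * a ∈ K

def S_SEPA : Prop := ∀ (H : Type) [Group H] (A : Subgroup H), RF H → Ind3 A ⊥ ⊥ → Sepb A

def S_APX : Prop := ∀ (H ι : Type) [Group H] [Finite ι] (A : ι → Subgroup H) (i₀ j₁ j₂ : ι)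
  (w : ι → H), (∀ i, Sepb (A i)) → Ind3 (A i₀) (A j₁) (A j₂) → ∀ K, FN K → ∃ N, FN N ∧
    ∀ g, (∀ i, g * (w i)⁻¹ ∈ A i ⊔ N) → ∃ g', (∀ i, g' * (w i)⁻¹ ∈ A i) ∧ g'⁻¹ * g ∈ K

def S_LA2 : Prop := ∀ (ι : Type) [Fintype ι] (U : Fin 3 → AddSubgroup (ι → ℤ)),
  (∀ u : ι → ℤ, (∀ e, ∃ m : ℤ, m ≠ 0 ∧ m • u ∈ U e) → u = 0) →
  ∃ d : ℤ, 0 < d ∧ ∀ x : ι → ℤ, ∃ a : Fin 3 → ι → ℤ,
    (∀ e, ∀ u ∈ U e, a e ⬝ᵥ u = 0) ∧ d • x = ∑ e, a e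

def S_BALL : Prop := ∀ (ι J : Type) [Fintype ι] [Finite J] (A : J → Fin 3 → AddSubgroup (ι → ℤ)),
  (∀ j, ∃ d : ℤ, 0 < d ∧ ∀ x : ι → ℤ, ∃ a : Fin 3 → ι → ℤ,
    (∀ e, a e ∈ A j e) ∧ d • x = ∑ e, a e) → ∀ x₀ : ι → ℤ,
  ∃ (F : Type) (_ : Fintype F) (val : F → ι → ℤ) (f₀ : F), val f₀ = x₀ ∧ ∀ j (S : Finset F),
    (∀ e f f', val f - val f' ∈ A j e → f ∈ S → f' ∈ S) → ∑ f ∈ S, val f = 0

def S_UNIF : Prop := ∀ (H J : Type) [Group H] [Finite J] (K : J → Subgroup H)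
  (f : ∀ j, K j →* MZ) (χ : H →* MZ), (∀ j, (K j).FiniteIndex) →
  ∃ (X ι : Type) (_ : Fintype X) (_ : Nonempty X) (_ : Fintype ι)
    (Ψ : H →* Wr X (Multiplicative (ι → ℤ))) (i₀ : ι),
    (∀ h x, ((Ψ h).c x).toAdd i₀ = (χ h).toAdd) ∧ ∀ j x, ∃ i, ∀ h, (Ψ h).p x = x →
      ∃ hK : h ∈ K j, ((Ψ h).c x).toAdd i = (f j ⟨h, hK⟩).toAdd

/-! ### Free groups -/

def S_SEG : Prop := ∀ (W : Type) (M M' : ℕ → W × Bool) (n n' C : ℕ) (L L' : List (W × Bool)),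
  (∀ i, i + 1 < n → M (i + 1) ≠ ((M i).1, !(M i).2)) →
  (∀ i, i + 1 < n' → M' (i + 1) ≠ ((M' i).1, !(M' i).2)) → L.length ≤ C → L'.length ≤ C →
  rd M n * FreeGroup.mk L' = FreeGroup.mk L * rd M' n' →
  ∃ d : ℤ, |d| ≤ C ∧ ∀ i : ℕ, C ≤ i → i + C < n → ∃ i' : ℕ, (i' : ℤ) = i + d ∧ i' < n' ∧ M i = M' i'

def al : FreeGroup Bool := FreeGroup.of true
def be : FreeGroup Bool := FreeGroup.of false
def phi : FreeGroup Bool →* MZ := FreeGroup.lift fun b => bif b then ofAdd 1 else ofAdd (-1)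

def S_ETA : Prop := ∀ (W J : Type) [Finite J] (S : Set W) (l₀ : W) (w : J → ℕ → W × Bool)
  (n : J → ℕ), l₀ ∈ S → (∀ j, ∀ i < n j, ∀ i' < n j, (w j i).1 = (w j i').1 → i = i') →
  (∀ j, ∃ i < n j, (w j i).1 ∉ S) →
  ∃ (Y : Type) (_ : Fintype Y) (y₀ y₁ : Y) (N : ℕ) (η : FreeGroup W →* Wr Y (FreeGroup Bool)),
    0 < N ∧ y₀ ≠ y₁ ∧ Per N η ∧
    (∀ j y, ∃ i : ℤ, IsConj ((al * be) ^ i) ((η (rd (w j) (n j) ^ N)).c y)) ∧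
    (∀ b ∈ FS S, (η b).p = 1 ∧ (η b).c y₀ = al ^ (ex l₀ b).toAdd ∧
      (η b).c y₁ = be ^ (ex l₀ b).toAdd ∧ ∀ y, y ≠ y₀ → y ≠ y₁ → (η b).c y = 1) ∧
    ∀ b, tot (push phi (η b)) = 1

def S_RFF : Prop := ∀ (W : Type) [Finite W], RF (FreeGroup W) ∧ ∀ S : Set W, Sepb (FS S)

def S_FL : Prop := ∀ (W : Type) [Finite W] (S : Set W) (b : FreeGroup W), b ∉ FS S → Ind1 b (FS S)

def S_ROOT : Prop := ∀ (A : Type) (w : FreeGroup A), w ≠ 1 → ∃ (w₀ : FreeGroup A) (m : ℤ),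
  w = w₀ ^ m ∧ ∀ (g : FreeGroup A) (i j : ℤ), i ≠ 0 → g * w₀ ^ i * g⁻¹ = w₀ ^ j →
    g ∈ Subgroup.zpowers w₀

/-- A malnormal family of cyclic subgroups. -/
def Maln {A K : Type} (z : K → FreeGroup A) : Prop :=
  ∀ k k' (g : FreeGroup A) (i j : ℤ), i ≠ 0 → g * z k ^ i * g⁻¹ = z k' ^ j →
    k = k' ∧ g ∈ Subgroup.zpowers (z k)

def S_FF : Prop := ∀ (A K : Type) (z : K → FreeGroup A), (∀ k, z k ≠ 1) → Maln z →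
  Maln fun k : Option K => k.elim (FreeGroup.of none) fun k => FreeGroup.map some (z k)

/-! ### Merging cycles -/

def S_W1 : Prop := ∀ (Ω : Type) [Finite Ω] (T : Perm Ω) (D : Set Ω) (e : ℤ) (q : ℕ)
  (g : Perm (Ω × ZMod q)), (e = 1 ∨ e = -1) → 0 < q → (∀ c, 0 < c → c ≤ D.ncard → c ∣ q) →
  (∀ ω y, ω ∈ D → g (ω, y) = (T ω, y + e)) → (∀ ω y, ω ∉ D → g (ω, y) = (T ω, y)) →
  ∀ a ∈ D, ∀ b ∈ D, a ≠ b → ∀ y₀, ¬g.SameCycle (a, y₀) (b, y₀)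

def S_W2 : Prop := (∀ (Ω : Type) [DecidableEq Ω] (g : Perm Ω) (a b : Ω) (c : Ω → ℤ),
    ¬g.SameCycle a b → Cob g c → Cob (g * swap a b) c) ∧
  ∀ (Ω : Type) [Finite Ω] (T : Perm Ω) (c : Ω → ℤ),
    (∀ a (S : Finset Ω), (∀ ω, ω ∈ S ↔ T.SameCycle a ω) → ∑ ω ∈ S, c ω = 0) → Cob T c

def S_W3 : Prop := ∀ (Ω : Type) [Finite Ω] (T : Perm Ω) (D : Set Ω) (e : ℤ) (q : ℕ)
  [DecidableEq (Ω × ZMod q)] (g : Perm (Ω × ZMod q)), (e = 1 ∨ e = -1) → 0 < q →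
  (∀ ω y, ω ∈ D → g (ω, y) = (T ω, y + e)) → (∀ ω y, ω ∉ D → g (ω, y) = (T ω, y)) →
  (∀ ω, ∃! d, d ∈ D ∧ T.SameCycle ω d) → ∀ a ∈ D, ∀ b ∈ D, a ≠ b → ∀ y₀,
    norb (g * swap (a, y₀) (b, y₀)) < norb T

def S_WSTEP : Prop := ∀ (W F J : Type) (R : W → F → F → Prop) (n : J → ℕ) [∀ j, NeZero (n j)]
  (w : ∀ j, ZMod (n j) → W × Bool), (∀ l, Equivalence (R l)) →
  (∀ j i i', (w j i).1 = (w j i').1 → i = i') → ∀ (C : Cfg R) (j₀ : J) (i : ZMod (n j₀))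
    (z z' : C.Z), R (w j₀ i).1 (C.st z) (C.st z') → ¬(C.T (w j₀)).SameCycle (i, z) (i, z') →
  ∃ C' : Cfg R, norb (C'.T (w j₀)) < norb (C.T (w j₀)) ∧ ∀ j β, C.Kl (w j) β → C'.Kl (w j) β

def S_WEND : Prop := ∀ (W F : Type) [Fintype F] (R : W → F → F → Prop) (n : ℕ) [NeZero n]
  (w : ZMod n → W × Bool) (β : ZMod n → F → ℤ), (∀ l, Equivalence (R l)) →
  (∀ S : Finset F, (∀ i f f', R (w i).1 f f' → f ∈ S → f' ∈ S) → ∑ f ∈ S, ∑ i, β i f = 0) →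
  ∀ C : Cfg R, (∀ i z z', R (w i).1 (C.st z) (C.st z') → (C.T w).SameCycle (i, z) (i, z')) →
    C.Kl w β

def S_WIN : Prop := ∀ (W F J : Type) [Fintype F] [Finite J] (R : W → F → F → Prop) (n : J → ℕ)
  [∀ j, NeZero (n j)] (w : ∀ j, ZMod (n j) → W × Bool) (β : ∀ j, ZMod (n j) → F → ℤ),
  (∀ l, Equivalence (R l)) → (∀ j i i', (w j i).1 = (w j i').1 → i = i') →
  (∀ j (S : Finset F), (∀ i f f', R (w j i).1 f f' → f ∈ S → f' ∈ S) →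
    ∑ f ∈ S, ∑ i, β j i f = 0) → ∃ C : Cfg R, ∀ j, C.Kl (w j) (β j)

/-! ### Trees -/

def S_RED : Prop := ∀ (H V E : Type) [Group H] (D : TD H V E), D.Tree → ∀ u v h,
  (u = v ∧ h ∈ D.G u) ∨ ∃ (n : ℕ) (c : ℕ → (E × Bool) × H), D.Seg c (n + 1) ∧
    D.vt (c 0).1 = u ∧ (c 0).2 ∈ D.G u ∧ D.vt (bar (c n).1) = v ∧
    ((c n).2 * D.ε (c n).1)⁻¹ * h ∈ D.G v

def S_AXIS : Prop := ∀ (H V E : Type) [Group H] (D : TD H V E), D.Tree → V → ∀ y, ¬D.Ell y →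
  ∃ c l, D.Ax y c l

def S_KAP : Prop := ∀ (H V E X : Type) [Group H] (D : TD H V E) (α : H →* Perm X), D.Tree →
  ∃ Ev : V → V → H → Wr X (FreeGroup (E × Set X)), Mult Ev ∧ (∀ u v h, (Ev u v h).p = α h) ∧
    (∀ v, ∀ g ∈ D.G v, ∀ x, (Ev v v g).c x = 1) ∧
    (∀ k x, (Ev (D.vt k) (D.vt (bar k)) (D.ε k)).c x = lt (D.lab α (k, 1) x)) ∧
    (∀ u v h, ∃ C : ℕ, ∀ x, ∃ L : List ((E × Set X) × Bool), L.length ≤ C ∧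
      (Ev u v h).c x = FreeGroup.mk L) ∧
    ∀ (c : ℕ → (E × Bool) × H) (n : ℕ), (∀ i < n, D.Lk (c i) (c (i + 1))) → ∀ x,
      (Ev (D.vt (c 0).1) (D.vt (c n).1) ((c 0).2⁻¹ * (c n).2)).c (α (c 0).2⁻¹ x) =
        rd (fun i => D.lab α (c i) x) n

def S_FIX : Prop := ∀ (H V E : Type) [Group H] (D : TD H V E), D.Tree → ∀ u v g h, h ∈ D.G u →
  g⁻¹ * h * g ∈ D.G v → (u = v ∧ g ∈ D.G u) ∨ ∃ k p, D.vt k = u ∧ p ∈ D.G u ∧ h ∈ cj p (D.P k)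

def S_LINJ : Prop := ∀ (H V E : Type) [Group H] (D : TD H V E), D.Tree → ∀ y c l, D.Ax y c l →
  ∀ i j, D.Same ⊥ (c i) (c j) → i = j

def S_MALG : Prop := ∀ (H V E : Type) [Group H] (D : TD H V E), D.Tree → ∀ y c l u c' l',
  D.Ax y c l → D.Ax u c' l' → ∀ (g : H) (a b : ℕ), 0 < a → 0 < b → g * u ^ a * g⁻¹ = y ^ b →
  ∃ d : ℤ, ∀ i, D.Same ⊥ (c i) (act g (c' (i + d)))

def S_MAL : Prop := ∀ (H V E : Type) [Group H] (D : TD H V E) (χ : H →* MZ), D.Tree → D.Ind → V →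
  ∀ y, ¬D.Ell y → χ y = ofAdd 1 → Mal y

def S_NP : Prop := ∀ (H V E : Type) [Group H] (D : TD H V E), D.Sp → D.Ind → ∀ y c l u c' l',
  D.Ax y c l → D.Ax u c' l' → ∀ K, FN K → ∃ N, FN N ∧ ∀ (g : H) (d : ℤ),
    (∀ i, D.Same N (c i) (act g (c' (i + d)))) → ∃ g', g' * u ^ l * g'⁻¹ = y ^ l' ∧ g'⁻¹ * g ∈ K

def S_EMB : Prop := ∀ (H V E J : Type) [Group H] [Finite J] (D : TD H V E), D.Tree → D.Sp →
  ∀ (y : J → H) (c : J → ℤ → (E × Bool) × H) (l : J → ℕ), (∀ j, D.Ax (y j) (c j) (l j)) →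
  ∀ N₀, FN N₀ → ∃ N, FN N ∧ N ≤ N₀ ∧ ∀ j, D.Emb N (y j) (c j) (l j)

def S_PAR : Prop := ∀ (H V E : Type) [Group H] (D : TD H V E) (N : Subgroup H), N.Normal →
  ∀ y c l, D.Ax y c l → D.Emb N y c l → ∀ c' : ℤ → (E × Bool) × H,
  (∀ i, D.Lk (c' i) (c' (i + 1)) ∧ ¬D.Same N (D.rev (c' i)) (c' (i + 1))) →
  (∀ i, ∃ j, D.Same N (c' i) (c j) ∨ D.Same N (c' i) (D.rev (c j))) →
  (∃ d, ∀ i, D.Same N (c i) (c' (i + d))) ∨ ∃ d, ∀ i, D.Same N (c i) (D.rev (c' (-(i + d))))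

/-- The universal representation that singles out few lifts of `y`. -/
def CoreOut {H : Type} [Group H] (y : H) (Z Z₀ : Set H) (H₀ : Subgroup H) : Prop :=
  ∃ (X : Type) (_ : Fintype X) (σ : H →* Wr X (FreeGroup Bool)) (n : ℕ) (w : ℤ) (S : Set X),
    0 < n ∧ w ≠ 0 ∧ Per n σ ∧ S.Nonempty ∧ (∀ g ∈ Z₀, Null σ g) ∧
    (∀ z ∈ Z, ∀ x, ∃ i : ℤ, IsConj ((al * be) ^ i) ((σ (z ^ n)).c x)) ∧
    (∀ x ∈ S, IsConj (al ^ w) ((σ (y ^ n)).c x) ∨ IsConj (be ^ w) ((σ (y ^ n)).c x)) ∧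
    (∀ x, x ∉ S → ∃ i : ℤ, IsConj ((al * be) ^ i) ((σ (y ^ n)).c x)) ∧
    (∀ h x, x ∈ S → (σ h).p x ∈ S → h ∈ Subgroup.zpowers y ⊔ H₀) ∧
    ∀ h, tot (push phi (σ h)) = 1

/-- Circles whose labels lie on the circle of `u j₀` through the base point are parallel to it. -/
def Par {H V E J : Type} [Group H] (D : TD H V E) (N H₀ : Subgroup H) (u : J → H)
    (c : J → ℤ → (E × Bool) × H) (j₀ : J) : Prop :=
  ∀ j (a : H), (∀ i, ∃ i', (D.lab (qa N) (c j i) (a : H ⧸ N)).1 =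
      (D.lab (qa N) (c j₀ i') ((1 : H) : H ⧸ N)).1) →
    j = j₀ ∧ a ∈ Subgroup.zpowers (u j₀) ⊔ H₀ ∧ ∃ d, ∀ i,
      D.lab (qa N) (c j₀ i) ((1 : H) : H ⧸ N) = D.lab (qa N) (c j₀ (i + d)) (a : H ⧸ N)

def S_CORE1 : Prop := ∀ (H V E J : Type) [Group H] [Finite J] (D : TD H V E) (χ : H →* MZ)
  (u : J → H) (c : J → ℤ → (E × Bool) × H) (l : J → ℕ) (j₀ : J), D.Tree → D.Sp → D.Ind →
  (∀ j, D.Ax (u j) (c j) (l j)) → (∀ j, χ (u j) = ofAdd 1) → Mal (u j₀) →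
  (∀ j, IsConj (u j₀) (u j) → j = j₀) → ∀ H₀, FN H₀ →
  ∃ N, FN N ∧ N ≤ H₀ ∧ (∀ j, D.Emb N (u j) (c j) (l j)) ∧ Par D N H₀ u c j₀

def S_CORE2 : Prop := ∀ (H V E J : Type) [Group H] [Finite J] (D : TD H V E) (N H₀ : Subgroup H)
  (u : J → H) (c : J → ℤ → (E × Bool) × H) (l : J → ℕ) (j₀ : J), D.Tree → FN N →
  (∀ j, D.Ax (u j) (c j) (l j)) → (∀ j, D.Emb N (u j) (c j) (l j)) → N ≤ H₀ → Par D N H₀ u c j₀ →
  CoreOut (u j₀) {z | ∃ j, j ≠ j₀ ∧ z = u j} {g | D.Ell g} H₀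

def S_CORE : Prop := ∀ (H V E : Type) [Group H] (D : TD H V E) (χ : H →* MZ), D.Tree → D.Sp →
  D.Ind → V → ∀ y, ¬D.Ell y → χ y = ofAdd 1 → Mal y → ∀ Z : Set H, Z.Finite →
  (∀ z ∈ Z, χ z = ofAdd 1 ∧ ¬IsConj y z) → ∀ H₀, FN H₀ → CoreOut y Z {g | D.Ell g} H₀

def S_HO1 : Prop := ∀ (H : Type) [Group H] (y : H) (Z Z₀ : Set H) (H₀ : Subgroup H),
  CoreOut y Z Z₀ H₀ → O1c y (Z ∪ Z₀) H₀

def S_HOJ : Prop := ∀ (H : Type) [Group H] (y : H) (Z Z₀ : Set H) (H₀ : Subgroup H),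
  CoreOut y Z Z₀ H₀ → OJc y (Z ∪ Z₀)

/-- Two states agree on the edge with label `l`. -/
def TD.RL {H V E X F : Type} [Group H] (D : TD H V E) (α : H →* Perm X) (ψ : F → H →* Wr X MZ)
    (l : E × Set X) (f f' : F) : Prop :=
  ∀ x ∈ l.2, ∀ g ∈ D.P (l.1, true), α g x = x → (ψ f g).c x = (ψ f' g).c x

def S_GLUE : Prop := ∀ (H V E X F : Type) [Group H] (D : TD H V E) (α : H →* Perm X)
  (ψ : F → H →* Wr X MZ), D.Tree → (∀ f h, (ψ f h).p = α h) →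
  ∃ A B : E × Bool → X → F → ℤ, (∀ k x f, A k x f + B k x f = ((ψ f (D.ε k)).c x).toAdd) ∧
    ∀ C : Cfg (D.RL α ψ), ∃ Ev : V → V → H → Wr (X × C.Z) MZ, Mult Ev ∧
      (∀ u v h q, ((Ev u v h).p q).1 = α h q.1) ∧
      (∀ v, ∀ g ∈ D.G v, ∀ q, (Ev v v g).p q = (α g q.1, q.2) ∧
        (Ev v v g).c q = (ψ (C.st q.2) g).c q.1) ∧
      ∀ k x z z', z' = (FreeGroup.lift C.Φ (lt (D.lab α (k, 1) x)))⁻¹ z →
        (Ev (D.vt k) (D.vt (bar k)) (D.ε k)).p⁻¹ (x, z) = ((α (D.ε k))⁻¹ x, z') ∧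
        ((Ev (D.vt k) (D.vt (bar k)) (D.ε k)).c (x, z)).toAdd = A k x (C.st z) + B k x (C.st z')

/-- The conclusion of the killing lemma. -/
def KillOut {H V E X₀ F J : Type} [Group H] (D : TD H V E) (α : H →* Perm X₀)
    (ψ : F → H →* Wr X₀ MZ) (z : J → H) (x₀ : X₀) : Prop :=
  ∃ (X : Type) (_ : Fintype X) (σ : H →* Wr X MZ) (π : X → X₀),
    (∀ h x, π ((σ h).p x) = α h (π x)) ∧ (∀ j, Null σ (z j)) ∧ ∀ g, D.Ell g →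
      (∀ x, ∃ f, ∀ n : ℕ, (σ (g ^ n)).p x = x → (σ (g ^ n)).c x = (ψ f (g ^ n)).c (π x)) ∧
      ∀ f, ∃ x, π x = x₀ ∧
        ∀ n : ℕ, (σ (g ^ n)).p x = x → (σ (g ^ n)).c x = (ψ f (g ^ n)).c (π x)

/-- Every set of states that is closed under the allowed changes along the axis has total
value zero. -/
def ZS {H V E X₀ F : Type} [Group H] (D : TD H V E) (α : H →* Perm X₀) (ψ : F → H →* Wr X₀ MZ)
    (z : H) (c : ℤ → (E × Bool) × H) : Prop :=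
  ∀ (x : X₀) (S : Finset F), (∀ i f f', D.Agr ψ (c i) x f f' → f ∈ S → f' ∈ S) →
    ∀ n : ℕ, α (z ^ n) x = x → ∑ f ∈ S, ((ψ f (z ^ n)).c x).toAdd = 0

def S_KILL1 : Prop := ∀ (H V E F J : Type) [Group H] [Fintype F] [Finite J] (D : TD H V E)
  (N : Subgroup H) (ψ : F → H →* Wr (H ⧸ N) MZ) (z : J → H) (c : J → ℤ → (E × Bool) × H)
  (l : J → ℕ), D.Tree → V → FN N → (∀ f h, (ψ f h).p = qa N h) → (∀ j, D.Ax (z j) (c j) (l j)) →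
  (∀ j, D.Emb N (z j) (c j) (l j)) → (∀ j, ZS D (qa N) ψ (z j) (c j)) →
  ∀ x₀, KillOut D (qa N) ψ z x₀

def S_KILL : Prop := ∀ (H V E X₀ F J : Type) [Group H] [Finite X₀] [Fintype F] [Finite J]
  (D : TD H V E) (α : H →* Perm X₀) (ψ : F → H →* Wr X₀ MZ) (z : J → H)
  (c : J → ℤ → (E × Bool) × H) (l : J → ℕ), D.Tree → D.Sp → V → (∀ f h, (ψ f h).p = α h) →
  (∀ j, D.Ax (z j) (c j) (l j)) → (∀ j, ZS D α ψ (z j) (c j)) → ∀ x₀, KillOut D α ψ z x₀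

def S_TO2 : Prop := ∀ (H V E : Type) [Group H] (D : TD H V E) (χ : H →* MZ), D.Tree → D.Sp →
  D.Ind → ∀ Y : Set H, Y.Finite → (∀ y ∈ Y, ¬D.Ell y) → ∀ g, D.Ell g → χ g ≠ 1 →
  ∃ (X : Type) (_ : Fintype X) (σ : H →* Wr X MZ), (∀ y ∈ Y, Null σ y) ∧ ∃ x, NZ σ g x

/-- The action on tagged points. -/
def tag (K : Type) {W Ω : Type} [Group W] (a : W →* Perm Ω) : W →* Perm (K × Ω) :=
  MonoidHom.mk' (fun w => Equiv.prodCongr (Equiv.refl K) (a w)) fun _ _ => by ext <;> simp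

def S_T3A : Prop := ∀ (H V E W Ω : Type) [Group H] [Group W] (D : TD H V E) (a : W →* Perm Ω)
  (ρ : H →* W) (ω : E × Bool → Ω), D.Tree →
  (∀ k, ∀ g ∈ D.G (D.vt k), a (ρ g) (ω k) = ω k ↔ g ∈ D.P k) → ∀ v,
  ∃ θ : H →* FreeGroup ((E × Bool) × Ω) ⋊[pa.comp (tag (E × Bool) a)] W,
    (∀ h, (θ h).right = ρ h) ∧ ∀ h, (θ h).left = 1 ↔ h ∈ D.G v

def S_T3 : Prop := ∀ (H V E : Type) [Group H] [Finite E] (D : TD H V E), D.Tree →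
  (∀ k, VS (D.G (D.vt k)) (D.P k)) → ∀ v (Λ : Subgroup H), Λ ≤ D.G v → VS (D.G v) Λ → VP Λ

/-! ### Right-angled Artin groups -/

def S_CYCR : Prop := ∀ (T : Type) (Γ : SimpleGraph T) (b : RAAG Γ), b ≠ 1 →
  ∃ (u : RAAG Γ) (n : ℕ) (w : ℤ → T × Bool), 0 < n ∧ (∀ i, w (i + n) = w i) ∧ RedW Γ w ∧
    u⁻¹ * b * u = wd Γ (pre w n)

def S_HEAP : Prop := ∀ (T : Type) (Γ : SimpleGraph T) (w : ℤ → T × Bool),
  (RedW Γ w → Cx Γ (CStep Γ w)) ∧ ∀ L L' C C', Walk (CStep Γ w) L C C' →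
    Walk (CStep Γ w) L' C C' → wd Γ L = wd Γ L'

def S_HULL : Prop := ∀ (T : Type) (Γ : SimpleGraph T) (w : ℤ → T × Bool) (n : ℕ), 0 < n →
  (∀ i, w (i + n) = w i) → RedW Γ w →
  ∃ (Y : Type) (_ : Finite Y) (Mv : T × Bool → Y → Y → Prop) (y₀ : Y), Cx Γ Mv ∧
    Walk Mv (pre w n) y₀ y₀ ∧ (∀ L, Walk Mv L y₀ y₀ → Commute (wd Γ L) (wd Γ (pre w n))) ∧
    ∀ r : ℕ, 0 < r → r < n → (∀ i, w (i + r) = w i) → ∃ y, y ≠ y₀ ∧ Walk Mv (pre w r) y₀ y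

def S_COMP1 : Prop := ∀ (T Y : Type) (Γ : SimpleGraph T) (Mv : T × Bool → Y → Y → Prop),
  Cx Γ Mv → ∃ Θ : RAAG Γ →* Wr (Y × (T → Bool)) (RAAG (Γ.comap (Prod.fst : T × Bool → T))),
    ∀ (x : T × Bool) (y : Y),
      (∀ φ, ∃ e : Bool, (Θ (wd Γ [x])).c (y, φ) = wd _ [((x.1, e), x.2)]) ∧
      (∀ y', Mv x y y' → (Θ (wd Γ [x])).p⁻¹ (y, fun _ => false) = (y', fun _ => false) ∧
        (Θ (wd Γ [x])).c (y, fun _ => false) = wd _ [((x.1, false), x.2)]) ∧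
      ((¬∃ y', Mv x y y') → (Θ (wd Γ [x])).c (y, fun _ => false) = wd _ [((x.1, true), x.2)])

def S_COMP : Prop := ∀ (T Y : Type) [Finite T] [Finite Y] (Γ : SimpleGraph T)
  (Mv : T × Bool → Y → Y → Prop) (y₀ : Y), Cx Γ Mv →
  ∃ (K : Subgroup (RAAG Γ)) (_ : K.FiniteIndex)
    (θ : K →* RAAG (Γ.comap (Prod.fst : T × Bool → T))),
    (∀ L y, Walk Mv L y₀ y → (wd Γ L ∈ K ↔ y = y₀)) ∧
    ∀ g : K, θ g ∈ PS _ {x | x.2 = false} ↔ ∃ L, wd Γ L = g ∧ Walk Mv L y₀ y₀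

def S_RP : Prop := ∀ (T : Type) [Finite T] (Γ : SimpleGraph T) (b : RAAG Γ),
  ∃ (K : Subgroup (RAAG Γ)) (_ : K.FiniteIndex) (T' : Type) (_ : Finite T') (Γ' : SimpleGraph T')
    (θ : K →* RAAG Γ') (S : Set T') (hb : b ∈ K), θ ⟨b, hb⟩ ∈ PS Γ' S ∧
    ∀ g : K, θ g ∈ PS Γ' S → Commute (g : RAAG Γ) b

def S_RFR : Prop := ∀ (T : Type) [Finite T] (Γ : SimpleGraph T), RF (RAAG Γ)

def S_RFV : Prop := ∀ (H : Type) [Group H], VP (⊥ : Subgroup H) → RF H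

def S_VPY : Prop := ∀ (H : Type) [Group H] (χ : H →* MZ) (y : H), VP (⊥ : Subgroup H) →
  χ y = ofAdd 1 → Mal y → VP (Subgroup.zpowers y)

def S_EXT : Prop := ∀ (I T J Ω : Type) [Finite I] [Finite T] [Finite J] (Γ : SimpleGraph T)
  (a : (I → RAAG Γ) →* Perm Ω) (j : Ω → J) (pt : J → Ω) (S : J → I → Set T),
  (∀ ω, ∃ b, ω = a b (pt (j ω))) → (∀ b ω, j (a b ω) = j ω) →
  (∀ b k, a b (pt k) = pt k ↔ ∀ i, b i ∈ PS Γ (S k i)) →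
  ∃ (T' : Type) (_ : Finite T') (Γ' : SimpleGraph T')
    (f : (FreeGroup Ω ⋊[pa.comp a] (I → RAAG Γ)) →* RAAG Γ'), ∀ S₀ : I → Set T, ∃ S' : Set T',
    ∀ x, f x ∈ PS Γ' S' ↔ x.left = 1 ∧ ∀ i, x.right i ∈ PS Γ (S₀ i)

def S_VPS : Prop := ∀ (H : Type) [Group H] (Λ : Subgroup H), VP Λ → VS ⊤ Λ

def S_COMMON : Prop := ∀ (H J : Type) [Group H] [Finite J] (G Λ : J → Subgroup H),
  (∀ j, VS (G j) (Λ j)) → ∃ (T : Type) (_ : Finite T) (Γ : SimpleGraph T) (X : Type)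
    (_ : Fintype X) (σ : H →* Wr X (RAAG Γ)), ∀ j, SepOn σ (G j) (Λ j)

def S_INTER : Prop := ∀ (H : Type) [Group H] (G Λ₁ Λ₂ : Subgroup H), VS G Λ₁ → VS G Λ₂ →
  VS G (Λ₁ ⊓ Λ₂)

/-! ### Balancing -/

def S_DIV : Prop := ∀ (H X : Type) [Group H] [Fintype X] (σ : H →* Wr X MZ) (n m : ℕ), 0 < m →
  Per n σ → ∃ (Y : Type) (_ : Fintype Y) (σ' : H →* Wr (X × Y) MZ), Fintype.card Y = m ∧
    Per (n * m) σ' ∧ (∀ g q, (σ' (g ^ (n * m))).c q = (σ (g ^ n)).c q.1) ∧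
    ∀ h, tot (σ' h) = tot (σ h)

def S_LINZ : Prop := ∀ (H : Type) [Group H] (χ : H →* MZ) (t y : H) (H₀ : Subgroup H),
  χ t = ofAdd 1 → χ y = ofAdd 1 → O1c y {t} H₀ →
  (∃ (X : Type) (_ : Fintype X) (σ : H →* Wr X MZ), Null σ y ∧ ∃ x, NZ σ t x) → LinZ t y

def S_NBAL : Prop := ∀ (H B X : Type) [Group H] [Group B] [Fintype X] (t y : H), LinZ t y →
  ∀ σ : H →* Wr X B, tc σ t = tc σ y → ∃ (c n : ℕ) (X' : Type) (_ : Fintype X')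
    (σ' : H →* Wr X' B), 0 < c ∧ 0 < n ∧ Neu σ' ∧ (∀ g, tc σ' g = 0) ∧
    IsConj (Wr.sum (cp (Fin c) σ) σ' (t ^ n)) (Wr.sum (cp (Fin c) σ) σ' (y ^ n))

def S_EXTEND : Prop := ∀ (H H' W : Type) [Group H] [Group H'] [Group W] (χ : H →* MZ)
  (i : H →* H') (a y : H) (s : H'), IsHNN i a y s → χ a = ofAdd 1 → χ y = ofAdd 1 →
  ∀ (ρ : H →* W) (n : ℕ), 0 < n → IsConj (ρ (a ^ n)) (ρ (y ^ n)) →
  ∃ (Y : Type) (_ : Fintype Y) (_ : Nonempty Y) (ρ' : H' →* Wr Y W), ∀ h q, (ρ' (i h)).c q = ρ h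

def S_EXTF : Prop := ∀ (H H' B X : Type) [Group H] [Group H'] [Group B] (χ : H →* MZ)
  (i : H →* H') (a y : H) (s : H'), IsHNN i a y s → χ a = ofAdd 1 → χ y = ofAdd 1 →
  ∀ (σ : H →* Wr X B) (n : ℕ), 0 < n → IsConj (σ (a ^ n)) (σ (y ^ n)) →
  ∃ (Y : Type) (_ : Fintype Y) (_ : Nonempty Y) (σ' : H' →* Wr (Y × X) B),
    Cov (σ'.comp i) σ Prod.snd

def S_EFF : Prop := ∀ (H H' : Type) [Group H] [Group H'] (χ : H →* MZ) (i : H →* H') (a y : H)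
  (s : H'), IsHNN i a y s → χ a = ofAdd 1 → χ y = ofAdd 1 → ∀ K : Subgroup H, FN K →
  ∃ N, FN N ∧ ∀ h, i h ∈ N → h ∈ K

def S_NEXT : Prop := ∀ (H H' B X : Type) [Group H] [Group H'] [Group B] [Fintype X] (χ : H →* MZ)
  (i : H →* H') (a y : H) (s : H'), IsHNN i a y s → χ a = ofAdd 1 → χ y = ofAdd 1 → LinZ a y →
  ∀ σ : H →* Wr X B, tc σ a = tc σ y → ∃ (X' : Type) (_ : Fintype X') (σ' : H' →* Wr X' B),
    Dom (σ'.comp i) σ ∧ (∃ q : ℚ, 0 < q ∧ ∀ g, tc σ' (i g) = q • tc σ g) ∧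
    (Neu σ → Neu (σ'.comp i))

def S_BAL : Prop := ∀ (H B X : Type) [Group H] [Group B] [Fintype X] (t y : H), Mir B →
  OJc y {t} → ∀ σ : H →* Wr X B, ∃ (X' : Type) (_ : Fintype X') (σ' : H →* Wr X' B),
    Dom σ' σ ∧ tc σ' t = tc σ' y

def S_PQ : Prop := ∀ (H X₂ : Type) [Group H] [Fintype X₂] (t y g : H) (Z : Set H)
  (H₀ : Subgroup H) (σ₂ : H →* Wr X₂ MZ), O1c y (Z ∪ {t}) H₀ → (∀ z ∈ Z, Null σ₂ z) → Null σ₂ y →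
  (∃ x, NZ σ₂ g x) → ∃ (X : Type) (_ : Fintype X) (σ : H →* Wr X MZ) (n : ℕ), 0 < n ∧
    IsConj (σ (t ^ n)) (σ (y ^ n)) ∧ (∀ z ∈ Z, Null σ z) ∧ (∃ x, NZ σ g x) ∧
    (∀ h x, NZ σ t x → ¬NZ σ y ((σ h).p x)) ∧
    ∀ h x, NZ σ y x → NZ σ y ((σ h).p x) → h ∈ Subgroup.zpowers y ⊔ H₀

def S_SPARSE : Prop := ∀ (H H' X : Type) [Group H] [Group H'] (i : H →* H') (a y : H) (s : H')
  (σ : H →* Wr X MZ) (x₀ : X) (N : Subgroup H'), IsHNN i a y s → Null σ a → Null σ y →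
  N.Normal → (∀ h, i h ∈ N → (σ h).p = 1) → ∃ σ₁ : H' →* Wr (H' ⧸ N) MZ,
    (∀ g, (σ₁ g).p = qa N g) ∧
    (∀ h u, (σ₁ (i h)).c ((i u : H') : H' ⧸ N) = (σ h).c ((σ u).p x₀)) ∧
    ∀ h x, (∀ u, x ≠ ((i u : H') : H' ⧸ N)) → (σ₁ (i h)).c x = 1

/-! ### The generic step -/

def S_HEX : Prop := ∀ (H : MG) (a b : H.H), H.χ a = H.χ b → ∃ (H' : MG) (i : H.H →* H'.H)
  (s : H'.H), IsHNN i a b s ∧ (∀ h, H'.χ (i h) = H.χ h) ∧ H'.χ s = 1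

def S_HINJ : Prop := ∀ (H H' : Type) [Group H] [Group H'] (χ : H →* MZ) (i : H →* H') (a b : H)
  (s : H'), IsHNN i a b s → χ a = ofAdd 1 → χ b = ofAdd 1 → Function.Injective i

def S_HTD : Prop := ∀ (H H' : Type) [Group H] [Group H'] (i : H →* H') (a b : H) (s : H'),
  IsHNN i a b s → Function.Injective i → ∃ D : TD H' Unit Unit, D.IsHT i a b s

/-- A statement about generic steps. -/
def OnStep (p : ∀ (H H' V : Type) [Group H] [Group H'], (H →* MZ) → (V → H) → V → H → (H →* H') →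
    H' → (H' →* MZ) → Prop) : Prop :=
  ∀ (H H' V : Type) [Group H] [Group H'] (χ : H →* MZ) (t : V → H) (o : V) (y : H) (i : H →* H')
    (s : H') (χ' : H' →* MZ), Step χ t o y i s χ' → p H H' V χ t o y i s χ'

def S_SLIN : Prop := OnStep fun _ _ _ _ _ _ t o y _ _ _ => LinZ (t o) y

def S_XREP : Prop := OnStep fun H H' _ _ _ _ _ _ _ i _ _ =>
  ∀ (B X : Type) [Group B] [Fintype X], Mir B → ∀ σ : H →* Wr X B,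
    ∃ (X' : Type) (_ : Fintype X') (σ' : H' →* Wr X' B), Dom (σ'.comp i) σ

def S_HVP : Prop := OnStep fun _ H' _ _ _ _ t _ _ i _ _ =>
  VP (⊥ : Subgroup H') ∧ ∀ v, VP (Subgroup.zpowers (i (t v)))

def S_HSP : Prop := OnStep fun _ H' _ _ _ _ t o y i s _ =>
  ∀ D : TD H' Unit Unit, D.IsHT i (t o) y s → D.Sp

def S_HIND : Prop := OnStep fun _ H' _ _ _ _ t o y i s _ =>
  ∀ D : TD H' Unit Unit, D.IsHT i (t o) y s → D.Ind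

def S_HELL : Prop := OnStep fun _ H' _ _ _ χ t o y i s χ' =>
  ∀ D : TD H' Unit Unit, D.IsHT i (t o) y s → ∀ y', Gen χ' (fun v => i (t v)) y' → D.Ell y' →
    ∃ y₀, IsConj (i y₀) y' ∧ Gen χ t y₀ ∧ ¬IsConj y y₀

def S_HDI : Prop := OnStep fun _ _ _ _ _ χ t o _ i _ χ' =>
  ∀ y', χ' y' = ofAdd 1 → Gen χ' (fun v => i (t v)) y' ∨ IsConj (i (t o)) y' ∨
    ∃ y₀, IsConj (i y₀) y' ∧ ¬Gen χ t y₀

def S_HO1E : Prop := OnStep fun _ _ _ _ _ _ t _ _ i _ χ' => O1 χ' fun v => i (t v)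

def S_HO2 : Prop := OnStep fun _ _ _ _ _ _ t _ _ i _ χ' => O2 χ' fun v => i (t v)

def S_HOJE : Prop := OnStep fun _ _ _ _ _ _ t _ _ i _ χ' => OJ χ' fun v => i (t v)

def S_STEP : Prop := OnStep fun _ _ _ _ _ _ t _ _ i _ χ' => Good χ' fun v => i (t v)

/-! ### The base -/

/-- A statement about base structures. -/
def OnBase (p : ∀ (B V A K : Type) [Group B] (χ : B →* MZ), BS χ V A K → Prop) : Prop :=
  ∀ (B V A K : Type) [Group B] (χ : B →* MZ) (b : BS χ V A K), p B V A K χ b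

def S_BTD : Prop := OnBase fun _ _ _ _ _ _ b => ∃ D, b.IsBT D

def S_RHO : Prop := OnBase fun _ _ _ _ _ _ b => b.VRB → b.Rho

def S_VT : Prop := OnBase fun _ _ _ _ _ _ b => b.Rho → ∀ k₁ k₂ w, b.vt k₁ = b.vt k₂ →
  w ∈ b.At (b.vt k₁) → ¬(k₁ = k₂ ∧ w ∈ Subgroup.zpowers (b.z k₁)) →
  Ind1 (b.ℓ (b.z k₁)) (cj (b.ℓ w) (b.Pl k₂))

def S_BIND : Prop := OnBase fun _ _ _ _ _ _ b => b.Rho → ∀ D, b.IsBT D → D.Ind

def S_BVP : Prop := OnBase fun B _ _ _ _ _ b => b.Rho →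
  VP (⊥ : Subgroup B) ∧ ∀ v, VP (Subgroup.zpowers (b.t v))

def S_BSP : Prop := OnBase fun B _ _ _ _ _ b => b.VRB → RF B → ∀ D, b.IsBT D → D.Sp

def S_BELL : Prop := OnBase fun _ _ _ _ _ χ b => ∀ D, b.IsBT D → (∀ v, D.Ell (b.t v)) ∧
  ∀ y, χ y = ofAdd 1 → D.Ell y →
    ¬Gen χ b.t y ∧ ∃ v, ∃ w ∈ b.At v, IsConj (b.ℓ w * b.t v) y

def S_BGOOD : Prop := OnBase fun _ _ _ _ _ χ b => b.VRB →
  Good χ b.t ∧ b.Dich (MonoidHom.id _) χ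

/-- A statement about extensions of a base that attach at an active vertex. -/
def OnMove (p : ∀ (B B₁ V A K : Type) [Group B] [Group B₁] (χ : B →* MZ), BS χ V A K → Set V →
    V → (B →* B₁) → B₁ → (B₁ →* MZ) → Prop) : Prop :=
  ∀ (B B₁ V A K : Type) [Group B] [Group B₁] (χ : B →* MZ) (b : BS χ V A K) (U : Set V) (o : V)
    (i : B →* B₁) (s : B₁) (χ₁ : B₁ →* MZ), (∀ a, b.vx a ∈ U) → o ∈ U → Function.Injective i →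
    (∀ g, χ₁ (i g) = χ g) → χ₁ s = 1 → p B B₁ V A K χ b U o i s χ₁

def S_MVA : Prop := OnBase fun _ V A K _ χ b => ∀ v w, w ∈ b.At v → b.ℓ w ≠ 1 →
  (∀ (g : FreeGroup A) (i j : ℤ), i ≠ 0 → g * w ^ i * g⁻¹ = w ^ j → g ∈ Subgroup.zpowers w) →
  (∀ k (g : FreeGroup A) (i j : ℤ), i ≠ 0 → g * w ^ i * g⁻¹ ≠ b.z k ^ j) →
  ∃ b' : BS χ V A (Option K), b'.vx = b.vx ∧ b'.ℓ = b.ℓ ∧ b'.t = b.t ∧ b'.h none = none ∧
    b'.z none = w ∧ b'.vt none = v ∧ ∀ k, b'.h k = none → k = none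

def S_MVB : Prop := OnMove fun _ _ _ _ _ _ _ _ b U o i s χ₁ => ∀ p (m : ℤ), b.h p = p →
  (∀ k, b.h k = p → b.n k ≠ m) → IsHNN i (b.t o) (b.ℓ (b.z p) ^ m * b.t (b.vt p)) s →
  b.Mvd U i χ₁

def S_MVC : Prop := OnMove fun _ _ _ _ _ _ _ _ b U o i s χ₁ => ∀ v, v ≠ o →
  IsHNN i (b.t o) (b.t v) s → b.Mvd U i χ₁

def S_MVD : Prop := OnMove fun _ _ _ _ _ _ _ _ b U o i s χ₁ =>
  IsHNN i (b.t o) (b.t o) s → b.Mvd U i χ₁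

def S_MOVE : Prop := OnMove fun _ _ _ _ _ _ _ _ b U o i s χ₁ => ∀ v, ∀ w ∈ b.At v,
  IsHNN i (b.t o) (b.ℓ w * b.t v) s → b.Mvd U i χ₁

/-! ### Towers -/

def S_PTW : Prop := ∀ (B : MG) (S : Set B.H) (H : MG) (j : B.H →* H.H) (n : ℕ), PTow B S H j n →
  (∀ g, H.χ (j g) = B.χ g) ∧ ∀ S' : Set B.H, (∀ a ∈ S, ∃ a' ∈ S', IsConj a a') → PTow B S' H j n

def S_REORD : Prop := ∀ (B : MG) (S : Set B.H) (H : MG) (j : B.H →* H.H) (n : ℕ),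
  PTow B S H j n → ∀ a g : B.H, B.χ a = B.χ g → ∀ (H' : MG) (i : H.H →* H'.H) (s : H'.H),
  IsHNN i (j a) (j g) s → (∀ h, H'.χ (i h) = H.χ h) → H'.χ s = 1 →
  ∃ (B₁ : MG) (i₁ : B.H →* B₁.H) (s₁ : B₁.H) (j₁ : B₁.H →* H'.H), IsHNN i₁ a g s₁ ∧
    (∀ h, B₁.χ (i₁ h) = B.χ h) ∧ B₁.χ s₁ = 1 ∧ PTow B₁ (i₁ '' S) H' j₁ n ∧
    ∀ h, j₁ (i₁ h) = i (j h)

def S_NF1 : Prop := ∀ (B : MG) (V A K : Type) (b : BS B.χ V A K) (U : Set V), (∀ a, b.vx a ∈ U) →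
  ∀ (H : MG) (j : B.H →* H.H) (n : ℕ), PTow B (b.t '' U) H j n →
  (∀ v ∈ U, Amb H.χ (j (b.t v))) →
  (Good H.χ (fun v => j (b.t v)) ∧ b.Dich j H.χ) ∨
    ∃ (B' : MG) (A' K' : Type) (b' : BS B'.χ V A' K') (U' : Set V) (j' : B'.H →* H.H) (m : ℕ),
      m < n ∧ (∀ a, b'.vx a ∈ U') ∧ PTow B' (b'.t '' U') H j' m ∧
      (∀ v ∈ U, ∃ v' ∈ U', IsConj (j (b.t v)) (j' (b'.t v'))) ∧
      ∀ v' ∈ U', ∃ v ∈ U, IsConj (j (b.t v)) (j' (b'.t v'))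

def S_B0 : Prop := ∀ (V : Type) [Finite V], ∃ b : BS (B0 V).χ V Empty Empty, b.t = FreeGroup.of

def S_NF : Prop := ∀ (V : Type) [Finite V] (H : MG) (j : (B0 V).H →* H.H) (n : ℕ),
  PTow (B0 V) (Set.range FreeGroup.of) H j n → (∀ v, Amb H.χ (j (FreeGroup.of v))) →
  VP (⊥ : Subgroup H.H)

def S_TOPH : Prop := ∀ (V : Type) (m : ℕ) (o t : Fin m → V) (u : Fin m → FreeGroup (Fin m)),
  (∀ e, u e ∈ FS {e' | e' < e}) → ∃ (H : MG) (η : FreeGroup (Fin m) →* H.H) (τ : V → H.H)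
    (j : (B0 V).H →* H.H), IsPG o t u η τ H.χ ∧ (∀ v, j (FreeGroup.of v) = τ v) ∧
    PTow (B0 V) (Set.range FreeGroup.of) H j m

/-- A statement about path groups of triangular maps. -/
def OnTop (p : ∀ (V E N H : Type) [Group N] [Group H], V → (N →* FreeGroup E) → MulAut N →
    (FreeGroup E →* H) → (V → H) → (H →* MZ) → Prop) : Prop :=
  ∀ (V E N H : Type) [Group N] [Group H] (o t : E → V) (u : E → FreeGroup E) (v₀ : V)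
    (ι : N →* FreeGroup E) (D : MulAut (FreeGroup E)) (φ : MulAut N) (η : FreeGroup E →* H)
    (τ : V → H) (χ : H →* MZ), (∀ e, GPath o t (t e) (t e) (u e)) → (∀ v, ∃ g, GPath o t v₀ v g) →
    Function.Injective ι → (∀ g, g ∈ ι.range ↔ GPath o t v₀ v₀ g) →
    (∀ e, D (FreeGroup.of e) = FreeGroup.of e * u e) → (∀ x, ι (φ x) = D (ι x)) →
    IsPG o t u η τ χ → p V E N H v₀ ι φ η τ χ

def S_EMBT : Prop := OnTop fun _ _ _ H _ _ v₀ ι φ η τ _ => ∃ J : MT φ →* H, Function.Injective J ∧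
  (∀ x, J (SemidirectProduct.inl x) = η (ι x)) ∧ J (SemidirectProduct.inr (ofAdd 1)) = τ v₀

def S_FIXW : Prop := ∀ (Ω : Type) (p : Perm Ω) (w : FreeGroup Ω),
  (∀ ω (n : ℕ), 0 < n → (p ^ n) ω ≠ ω) → pa p w = w → w = 1

def S_VIS : Prop := OnTop fun _ _ _ _ _ _ _ _ φ _ τ χ => VR (MT φ) → ∀ v, Amb χ (τ v)

end Pool.Agent.P.MP_67c9d4_al.FC
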