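import Pool.Agent.P.MP_67c9d4_al.FC.Iface
import Pool.Agent.P.MP_67c9d4_al.FC.HDefs

/-! The steps from cyclic hierarchies to towers. -/

namespace Pool.Agent.P.MP_67c9d4_al.FC

open Equiv Wr Multiplicative TD

/-- Towers over free groups. -/
def Tw (H : MG) : Prop := ∃ (V : Type) (_ : Finite V) (j : (B0 V).H →* H.H) (n : ℕ),
  PTow (B0 V) (Set.range FreeGroup.of) H j n

/-- `H` is the free product of `C` with the free group on the letters `x ω`. -/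
structure IsFr {C H Ω : Type} [Group C] [Group H] (i : C →* H) (x : Ω → H) : Prop where
  gen : Subgroup.closure (Set.range i ∪ Set.range x) = ⊤
  up : ∀ (W : Type) [Group W] (f : C →* W) (y : Ω → W),
    ∃ F : H →* W, (∀ c, F (i c) = f c) ∧ ∀ ω, F (x ω) = y ω

/-- `H` comes from `C` by adding free letters `x ω` and letters `σ k` that conjugate `A k` to
`B k`. -/
structure IsExt {C H Ω I : Type} [Group C] [Group H] (i : C →* H) (x : Ω → H) (A B : I → C)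
    (σ : I → H) : Prop where
  rel : ∀ k, (σ k)⁻¹ * i (A k) * σ k = i (B k)
  gen : Subgroup.closure (Set.range i ∪ Set.range x ∪ Set.range σ) = ⊤
  up : ∀ (W : Type) [Group W] (f : C →* W) (y : Ω → W) (σ' : I → W),
    (∀ k, (σ' k)⁻¹ * f (A k) * σ' k = f (B k)) →
    ∃ F : H →* W, (∀ c, F (i c) = f c) ∧ (∀ ω, F (x ω) = y ω) ∧ ∀ k, F (σ k) = σ' k

/-- The integers induced from the multiples of `M`. -/
def etaM (M : ℕ) : MZ →* Wr (ZMod M) MZ :=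
  zpowersHom _ ⟨Equiv.addRight 1, fun ξ => if ξ = 0 then ofAdd 1 else 1⟩

lemma etaM_p (M : ℕ) (n : MZ) : (etaM M n).p = Equiv.addRight ((n.toAdd : ℤ) : ZMod M) := by
  rw [etaM, zpowersHom_apply, zpow_p]
  simp

lemma etaM_c {M : ℕ} (hM : 0 < M) (ξ : ZMod M) : (etaM M (ofAdd (M : ℤ))).c ξ = ofAdd 1 := by
  have : NeZero M := ⟨hM.ne'⟩
  rw [etaM, zpowersHom_apply, toAdd_ofAdd, zpow_natCast, cyc _ 1 (fun _ => rfl) isUnit_one,
    tot_apply]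
  simp

lemma IsHNN.inv {H H' : Type} [Group H] [Group H'] {i : H →* H'} {a b : H} {s : H'}
    (h : IsHNN i a b s) : IsHNN i a⁻¹ b⁻¹ s := by
  refine ⟨?_, h.gen, fun W _ f w hw => h.up W f w ?_⟩
  · rw [map_inv, map_inv, ← h.rel]; group
  · rw [map_inv, map_inv] at hw
    rw [← inv_inv (f b), ← hw]; group

/-- `H` is freely generated by `C`, the values of the universal cocycle `U` and letters `x ω`. -/
structure IsCv (M : ℕ) {G Ω : Type} [Group G] (χ : G →* MZ) (C H : MG) (i : C.H →* H.H)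
    (U : G →* Wr (ZMod M) H.H) (x : Ω → H.H) : Prop where
  ci : ∀ c, H.χ (i c) = C.χ c
  cU : ∀ g, push H.χ (U g) = etaM M (χ g)
  gen : Subgroup.closure (Set.range i ∪ {h | ∃ g ξ, h = (U g).c ξ} ∪ Set.range x) = ⊤
  up : ∀ (W : Type) [Group W] (f : C.H →* W) (ρ : G →* Wr (ZMod M) W) (y : Ω → W),
    (∀ g, (ρ g).p = (U g).p) → ∃ F : H.H →* W, (∀ c, F (i c) = f c) ∧
      (∀ g, push F (U g) = ρ g) ∧ ∀ ω, F (x ω) = y ω

/-- The cyclic cover of degree `M` is a free factor of a tower over any given tower. -/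
def QM (M : ℕ) {G : Type} [Group G] (χ : G →* MZ) : Prop :=
  ∀ C, Tw C → ∃ H, Tw H ∧ ∃ (i : C.H →* H.H) (U : G →* Wr (ZMod M) H.H) (Ω : Type)
    (x : Ω → H.H), IsCv M χ C H i U x

def S_ADDV : Prop := ∀ (V Ω : Type) (C : MG) (j : (B0 V).H →* C.H) (n : ℕ),
  PTow (B0 V) (Set.range FreeGroup.of) C j n → ∃ (H : MG) (i : C.H →* H.H)
    (j' : (B0 (V ⊕ Ω)).H →* H.H), PTow (B0 (V ⊕ Ω)) (Set.range FreeGroup.of) H j' n ∧
    IsFr i (fun ω => j' (FreeGroup.of (Sum.inr ω))) ∧ (∀ c, H.χ (i c) = C.χ c) ∧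
    ∀ v, j' (FreeGroup.of (Sum.inl v)) = i (j (FreeGroup.of v))

def S_ADDF : Prop := ∀ (C : MG) (Ω : Type) [Finite Ω] (e : Ω → MZ), Tw C → ∃ H, Tw H ∧
  ∃ (i : C.H →* H.H) (x : Option Ω → H.H), IsFr i x ∧ (∀ c, H.χ (i c) = C.χ c) ∧
    ∀ ω, H.χ (x (some ω)) = e ω

def S_DBL1 : Prop := ∀ (C : MG) (a b : C.H) (e : MZ), Tw C → C.χ a = ofAdd 1 → C.χ b = ofAdd 1 →
  ∃ H, Tw H ∧ ∃ (i : C.H →* H.H) (x σ : H.H),
    IsExt i (fun _ : Unit => x) (fun _ : Unit => a) (fun _ => b) (fun _ => σ) ∧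
    (∀ c, H.χ (i c) = C.χ c) ∧ H.χ σ = e

def S_DBL : Prop := ∀ (C : MG) (I : Type) [Finite I] (A B : I → C.H) (e : I → MZ), Tw C →
  (∀ k, C.χ (A k) = ofAdd 1) → (∀ k, C.χ (B k) = ofAdd 1) → ∃ H, Tw H ∧
    ∃ (i : C.H →* H.H) (x σ : I → H.H), IsExt i x A B σ ∧ (∀ c, H.χ (i c) = C.χ c) ∧
      ∀ k, H.χ (σ k) = e k

/-- Solving `u * γ = γ * v` from the values at one point in each orbit. -/
def S_ORB : Prop := ∀ (k m : ℕ), 0 < k → 0 < m → ∀ π : Perm (ZMod (k * m)),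
  Commute π (Equiv.addRight (k : ZMod (k * m))) →
  ∃ (I : Type) (_ : Finite I) (r : I → ZMod (k * m)) (ob : ZMod (k * m) → I)
    (n : ZMod (k * m) → ℕ), (∀ ξ, ξ = r (ob ξ) - (n ξ : ZMod (k * m)) * k) ∧
    ∀ (W : Type) [Group W] (u v : Wr (ZMod (k * m)) W) (σ : I → W),
      u.p = Equiv.addRight (k : ZMod (k * m)) → v.p = u.p →
      (∀ ω, (σ ω)⁻¹ * (u ^ m).c (r ω) * σ ω = (v ^ m).c (π⁻¹ (r ω))) →
      ∀ γ : Wr (ZMod (k * m)) W, γ.p = π → (∀ ξ, γ.c ξ =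
        ((u ^ n ξ).c (r (ob ξ)))⁻¹ * σ (ob ξ) * (v ^ n ξ).c (π⁻¹ (r (ob ξ)))) →
      γ⁻¹ * u * γ = v ∧ ∀ ω, γ.c (r ω) = σ ω

def S_QF : Prop := ∀ (M : ℕ) (V : Type) [Finite V] (χ : FreeGroup V →* MZ), 0 < M → QM M χ

def S_QH : Prop := ∀ (G G' : Type) [Group G] [Group G'] (i : G →* G') (a b : G) (s : G')
  (χ : G' →* MZ) (k m : ℕ), IsHNN i a b s → 0 < k → 0 < m → χ (i a) = ofAdd (k : ℤ) →
  QM (k * m) (χ.comp i) → QM (k * m) χ

def S_QC : Prop := ∀ (M : ℕ) (G₁ G₂ : Type) [Group G₁] [Group G₂]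
  (χ : Monoid.Coprod G₁ G₂ →* MZ), QM M (χ.comp Monoid.Coprod.inl) →
  QM M (χ.comp Monoid.Coprod.inr) → QM M χ

def S_QR : Prop := ∀ (M : ℕ) (G G' Ω : Type) [Group G] [Group G'] (J : G →* G') (s : Ω → G')
  (χ : G' →* MZ), IsFr J s → QM M χ → QM M (χ.comp J)

def S_AMF : Prop := ∀ (G : Bool → Type) [∀ i, Group (G i)] (φ : ∀ i, MZ →* G i)
  (χ : Monoid.PushoutI φ →* MZ), ∃ (G' : Type) (_ : Group G')
    (i : Monoid.Coprod (G true) (G false) →* G') (s : G') (J : Monoid.PushoutI φ →* G')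
    (χ' : G' →* MZ), IsHNN i (Monoid.Coprod.inl (φ true (ofAdd 1)))
      (Monoid.Coprod.inr (φ false (ofAdd 1))) s ∧ IsFr J (fun _ : Unit => s) ∧ χ'.comp J = χ ∧
    (χ'.comp i).comp Monoid.Coprod.inl = χ.comp (Monoid.PushoutI.of true) ∧
    (χ'.comp i).comp Monoid.Coprod.inr = χ.comp (Monoid.PushoutI.of false)

def S_HNM : Prop := ∀ (G : Type) [Group G] (A B : Subgroup G) (φ : A ≃* B) (a : G),
  A = Subgroup.zpowers a → ∃ b : G,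
    IsHNN (HNNExtension.of : G →* HNNExtension G A B φ) a b HNNExtension.t⁻¹

def S_QALL : Prop := ∀ (G : Type) [Group G] (χ : G →* MZ), Hier G χ →
  ∃ M₀ : ℕ, 0 < M₀ ∧ ∀ M, 0 < M → M₀ ∣ M → QM M χ

def S_TF : Prop := ∀ H, Tw H → ∀ g : H.H, IsOfFinOrder g → g = 1

def S_FIXC : Prop := ∀ (Ω : Type) (p : Perm Ω) (w : FreeGroup Ω),
  (∀ ω (n : ℕ), 0 < n → (p ^ n) ω ≠ ω) → IsConj w (pa p w) → w = 1

def S_SPLIT : Prop := ∀ (M : ℕ) (G Ω : Type) [Group G] (χ : G →* MZ) (C H : MG) (i : C.H →* H.H)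
  (U : G →* Wr (ZMod M) H.H) (x : Ω → H.H), IsCv M χ C H i U x → (∀ c, i c = 1) →
  ∃ (Ω' : Type) (a : G × MZ →* Perm Ω') (Θ : H.H →* FreeGroup Ω' ⋊[pa.comp a] (G × MZ)),
    Function.Injective Θ ∧ (∀ h, (Θ h).right.2 = H.χ h) ∧ ∀ q ω, a q ω = ω → q = 1

def S_VIS2 : Prop := ∀ (M : ℕ) (G Ω : Type) [Group G] (χ : G →* MZ) (C H : MG) (i : C.H →* H.H)
  (U : G →* Wr (ZMod M) H.H) (x : Ω → H.H), IsCv M χ C H i U x → (∀ c, i c = 1) → Tw H → VR G →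
  ∀ τ, H.χ τ = ofAdd 1 → Amb H.χ τ

end Pool.Agent.P.MP_67c9d4_al.FC
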