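import Pool.Agent.P.MP_67c9d4_al.FC.Iface

/-! Annihilators of three lattices without common direction span a lattice of finite index. -/

namespace Pool.Agent.P.MP_67c9d4_al.FC

open Equiv Wr Multiplicative TD

namespace LA2x

variable {ι : Type}

/-- The rational span of a lattice. -/
def sp (U : AddSubgroup (ι → ℤ)) : Submodule ℚ (ι → ℚ) where
  carrier := {v | ∃ m : ℤ, m ≠ 0 ∧ ∃ u ∈ U, ∀ i, (u i : ℚ) = m * v i}
  zero_mem' := ⟨1, one_ne_zero, 0, U.zero_mem, fun i => by simp⟩
  add_mem' := by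
    rintro v w ⟨m, hm, u, hu, e⟩ ⟨m', hm', u', hu', e'⟩
    refine ⟨m * m', mul_ne_zero hm hm', m' • u + m • u',
      U.add_mem (U.zsmul_mem hu _) (U.zsmul_mem hu' _), fun i => ?_⟩
    simp only [Pi.add_apply, Pi.smul_apply, smul_eq_mul]
    push_cast
    rw [e, e']; ring
  smul_mem' := by
    rintro q v ⟨m, hm, u, hu, e⟩
    refine ⟨m * q.den, mul_ne_zero hm (by exact_mod_cast q.den_nz), q.num • u,
      U.zsmul_mem hu _, fun i => ?_⟩
    simp only [Pi.smul_apply, smul_eq_mul]
    push_cast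
    rw [e, ← Rat.mul_den_eq_num]; ring

end LA2x

open LA2x in
theorem s_LA2 : S_LA2 := by
  intro ι _ U h
  classical
  have h1 : ⨅ e, sp (U e) = ⊥ := by
    refine eq_bot_iff.2 fun v hv => ?_
    choose m hm u hu e using (Submodule.mem_iInf _).1 hv
    have h0 := h (u 0) fun k => ⟨m k, hm k, by
      have : m k • u 0 = m 0 • u k := funext fun i => by
        have : ((m k * u 0 i : ℤ) : ℚ) = (m 0 * u k i : ℤ) := by push_cast; rw [e, e]; ring
        exact_mod_cast this
      exact this ▸ (U k).zsmul_mem (hu k) _⟩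
    refine funext fun i => ?_
    have := e 0 i
    rw [h0] at this
    simpa [hm 0] using this
  have h2 : ∀ i : ι, ∃ φ : ∀ e, (sp (U e)).dualAnnihilator,
      ∑ e, (φ e : Module.Dual ℚ (ι → ℚ)) = LinearMap.proj i := fun i => by
    refine (Submodule.mem_iSup_finset_iff_exists_sum _ _).1 ?_
    simp only [Finset.mem_univ, iSup_pos]
    rw [← Subspace.dualAnnihilator_iInf_eq, h1, Submodule.dualAnnihilator_bot]
    trivial
  choose φ hφ using h2
  obtain ⟨⟨d, hd⟩, hn⟩ := IsLocalization.exist_integer_multiples_of_finite (nonZeroDivisors ℤ)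
    fun p : ι × Fin 3 × ι => (φ p.1 p.2.1).1 fun j => if p.2.2 = j then 1 else 0
  choose n hn using hn
  have hn' : ∀ i e j, (n (i, e, j) : ℚ) = d * (φ i e).1 fun k => if j = k then 1 else 0 :=
    fun i e j => by simpa using hn (i, e, j)
  refine ⟨d * d, mul_self_pos.2 (nonZeroDivisors.ne_zero hd), fun x =>
    ⟨fun e j => d * ∑ i, x i * n (i, e, j), fun e u hu => ?_, funext fun j => ?_⟩⟩
  · have h3 : ∀ i, ∑ j, (u j : ℚ) * (φ i e).1 (fun k => if j = k then 1 else 0) = 0 := fun i => by
      have := (Submodule.mem_dualAnnihilator _).1 (φ i e).2 (fun j => (u j : ℚ))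
        ⟨1, one_ne_zero, u, hu, fun i => by simp⟩
      rwa [LinearMap.pi_apply_eq_sum_univ] at this
    have h4 : (((fun j => d * ∑ i, x i * n (i, e, j)) ⬝ᵥ u : ℤ) : ℚ) =
        ∑ i, d * d * x i * ∑ j, (u j : ℚ) * (φ i e).1 fun k => if j = k then 1 else 0 := by
      simp only [dotProduct, Finset.mul_sum, Finset.sum_mul]
      push_cast
      rw [Finset.sum_comm]
      exact Finset.sum_congr rfl fun i _ => Finset.sum_congr rfl fun j _ => by rw [hn']; ring
    simp only [h3, mul_zero, Finset.sum_const_zero] at h4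
    exact_mod_cast h4
  · have h3 : ∀ i, ∑ e, (φ i e).1 (fun k => if j = k then 1 else 0) = if j = i then 1 else 0 :=
      fun i => by rw [← LinearMap.sum_apply, hφ]; rfl
    have h4 : ((∑ e, d * ∑ i, x i * n (i, e, j) : ℤ) : ℚ) =
        ∑ i, d * d * x i * ∑ e, (φ i e).1 fun k => if j = k then 1 else 0 := by
      simp only [Finset.mul_sum]
      push_cast
      rw [Finset.sum_comm]
      exact Finset.sum_congr rfl fun i _ => Finset.sum_congr rfl fun e _ => by rw [hn']; ring
    simp only [h3, mul_ite, mul_one, mul_zero, Finset.sum_ite_eq, Finset.mem_univ, if_true] at h4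
    rw [Finset.sum_apply, Pi.smul_apply, smul_eq_mul]
    exact_mod_cast h4.symm

end Pool.Agent.P.MP_67c9d4_al.FC
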