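import Pool.Agent.P.MP_67c9d4_al.FC.Iface

/-! Subgroups of the plane lattice. -/

namespace Pool.Agent.P.MP_67c9d4_al.FC

open Equiv Wr Multiplicative TD

namespace LATx

variable (M : Type) [AddCommGroup M] [Module.Finite ℤ M]

theorem tors : ∃ e : ℕ, 0 < e ∧ ∀ (x : M) (m : ℤ), m ≠ 0 → m • x = 0 → (e : ℤ) • x = 0 := by
  obtain ⟨e, h1, h2⟩ := Submodule.annihilator_top_inter_nonZeroDivisors
    (Submodule.torsion_isTorsion (R := ℤ) (M := M))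
  refine ⟨e.natAbs, Int.natAbs_pos.2 (nonZeroDivisors.ne_zero h2), fun x m hm hx => ?_⟩
  have h3 : e • x = 0 := congrArg Subtype.val (Submodule.mem_annihilator.1 h1
    ⟨x, ⟨m, mem_nonZeroDivisors_of_ne_zero hm⟩, hx⟩ trivial)
  rcases Int.natAbs_eq e with h | h
  · rwa [← h]
  · rwa [h, neg_smul, neg_eq_zero] at h3

theorem sep (x : M) (h : ∀ m : ℕ, 0 < m → ∃ y, x = (m : ℤ) • y) : x = 0 := by
  obtain ⟨e, e0, he⟩ := tors M
  obtain ⟨⟨r, hr⟩, h1⟩ := (Ideal.mem_iInf_smul_pow_eq_bot_iff (Ideal.span {(2 * e : ℤ)}) x).1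
    ((Submodule.mem_iInf _).2 fun i => by
      obtain ⟨y, rfl⟩ := h ((2 * e) ^ i) (by positivity)
      exact Submodule.smul_mem_smul (by
        push_cast
        exact Ideal.pow_mem_pow (Ideal.mem_span_singleton_self _) i) trivial)
  obtain ⟨c, rfl⟩ := Ideal.mem_span_singleton'.1 hr
  have h2 := he x (c * (2 * e) - 1) (by rw [mul_left_comm]; omega) (by
    rw [sub_smul, one_smul]; exact sub_eq_zero.2 h1)
  rw [← h1, Subtype.coe_mk, ← mul_assoc, mul_smul, h2, smul_zero]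

theorem div {m : ℤ} {v : ℤ × ℤ} (h1 : m ∣ v.1) (h2 : m ∣ v.2) : ∃ w, v = m • w :=
  let ⟨a, ha⟩ := h1; let ⟨b, hb⟩ := h2; ⟨(a, b), Prod.ext ha hb⟩

end LATx

open LATx in
theorem s_LAT : S_LAT := by
  intro Λ
  have hz : ∀ v, Λ.toIntSubmodule.mkQ v = 0 ↔ v ∈ Λ := fun v => Submodule.Quotient.mk_eq_zero _
  refine ⟨fun φ hφ => ?_, fun d hd => ?_⟩
  · by_contra hn
    push Not at hn
    refine hφ ((hz φ).1 (sep _ _ fun m hm => ?_))
    obtain ⟨ψ, h1, h2, h3⟩ := hn m hm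
    obtain ⟨w, hw⟩ := div h2 h3
    exact ⟨Λ.toIntSubmodule.mkQ w, by rw [← map_smul, ← hw, map_sub, (hz ψ).2 h1, sub_zero]⟩
  · obtain ⟨e, e0, he⟩ := tors ((ℤ × ℤ) ⧸ Λ.toIntSubmodule)
    refine ⟨d * e, Nat.mul_pos hd e0, fun ψ h1 h2 h3 => ?_⟩
    obtain ⟨w, rfl⟩ := div h2 h3
    refine ⟨(e : ℤ) • w, (hz _).1 ?_, by rw [Nat.cast_mul, mul_smul, natCast_zsmul]⟩
    rw [map_smul]
    exact he _ _ (Int.natCast_ne_zero.2 (Nat.mul_pos hd e0).ne')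
      ((map_smul _ _ _).symm.trans ((hz _).2 h1))

end Pool.Agent.P.MP_67c9d4_al.FC
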