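import Pool.Agent.P.MP_67c9d4_al.FC.Iface

/-! Axes that are parallel modulo a deep subgroup are parallel. -/

namespace Pool.Agent.P.MP_67c9d4_al.FC

open Equiv Wr Multiplicative TD

theorem s_NP (hAPX : S_APX) : S_NP := by
  intro H V E _ D hS ⟨L, hI⟩ y c l u c' l' hc hc' K hK
  obtain ⟨i₀, a₀, j₁, a₁, j₂, a₂, h3⟩ := hI _ (hc.seg 0 L)
  simp only [zero_add] at h3
  obtain ⟨N, hN, h⟩ := FN.exists_forall (J := Fin l')
    (p := fun d N => ∀ g, (∀ i : Fin (L + l * l'),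
      g * ((c i).2 * (c' (i + d)).2⁻¹)⁻¹ ∈ D.St (c i) ⊔ N) →
      ∃ g', (∀ i : Fin (L + l * l'), g' * ((c i).2 * (c' (i + d)).2⁻¹)⁻¹ ∈ D.St (c i)) ∧
        g'⁻¹ * g ∈ K)
    (fun d N N' le h g e => h g fun i => sup_le_sup_left le _ (e i)) fun d =>
      hAPX H _ (fun i : Fin (L + l * l') => D.St (c i)) ⟨i₀, by omega⟩ ⟨j₁, by omega⟩
        ⟨j₂, by omega⟩ _ (fun i => hS.st _) h3 K hK
  refine ⟨N, hN, fun g d hg => ?_⟩
  have p : (0 : ℤ) < l' := Int.natCast_pos.2 hc'.pos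
  obtain ⟨d₀, e1⟩ := Int.eq_ofNat_of_zero_le (Int.emod_nonneg d p.ne')
  have e2 : d₀ < l' := by have := Int.emod_lt_of_pos d p; omega
  obtain ⟨m, rfl⟩ : ∃ m : ℤ, d = d₀ + l' * m := ⟨d / l', by rw [← e1, Int.emod_add_mul_ediv]⟩
  obtain ⟨g₂, b1, b2⟩ := h ⟨d₀, e2⟩ (g * u ^ m) fun i => by
    have h1 := (hg i).2
    rw [← add_assoc, hc'.zper] at h1
    rw [St, mem_cj_sup hN.1]
    simpa [act, mul_assoc] using h1
  have key : ∀ j < L, (y ^ l')⁻¹ * (g₂ * u ^ l * g₂⁻¹) ∈ D.St (c j) := fun j hj => by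
    have h1 := mem_cj.1 (b1 ⟨j, by omega⟩)
    have h2 := mem_cj.1 (b1 ⟨j + l * l', by omega⟩)
    simp only [Nat.cast_add, Nat.cast_mul] at h1 h2
    rw [add_right_comm, hc.zper, mul_comm (l : ℤ), hc'.zper] at h2
    refine mem_cj.2 ?_
    simpa [act, mul_assoc] using mul_mem h2 (inv_mem h1)
  refine ⟨g₂ * (u ^ m)⁻¹, ?_, ?_⟩
  · rw [← inv_mul_eq_one.1 (h3.eq_one (key _ a₀) (key _ a₁) (key _ a₂)) |>.symm]
    group
  · have := hK.1.conj_mem _ b2 (u ^ m)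
    simpa [mul_assoc] using this

end Pool.Agent.P.MP_67c9d4_al.FC
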