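import Pool.Agent.P.MP_67c9d4_al.FC.Iface

/-! Roots in free groups. -/

namespace Pool.Agent.P.MP_67c9d4_al.FC

open Equiv Wr Multiplicative TD

namespace ROOTx

/-- The tree of the free group. -/
def D (A : Type) : TD (FreeGroup A) Unit A :=
  ⟨fun _ => (), fun _ => ⊥, fun _ => ⊥, lt, fun _ => le_rfl, lt_not, fun _ _ => by simp⟩

theorem tree (A : Type) : (D A).Tree := by
  refine ⟨fun u v h => ?_, fun W _ σ γ h1 h2 _ =>
    ⟨fun _ _ => FreeGroup.lift fun a => γ (a, true), fun _ _ _ g h => (map_mul _ g h).symm,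
      fun v g hg => ?_, fun k => ?_⟩⟩
  · induction h using FreeGroup.induction_on with
    | C1 => exact .vtx (one_mem _)
    | of a => exact .edge (a, true)
    | inv_of a _ => exact .edge (a, false)
    | mul a b ha hb => exact .mul ha hb
  · obtain rfl : g = 1 := hg
    have := h1 v 1 (one_mem _) 1 (one_mem _)
    rw [mul_one, left_eq_mul] at this
    rw [this]
    exact map_one _
  · obtain ⟨a, _ | _⟩ := k
    · exact ((map_inv _ _).trans (congrArg _ FreeGroup.lift_apply_of)).trans (h2 (a, true)).symm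
    · exact FreeGroup.lift_apply_of

theorem same {A : Type} {c c' : (A × Bool) × FreeGroup A} : (D A).Same ⊥ c c' ↔ c = c' := by
  rw [same_bot, Prod.ext_iff (x := c), ← inv_mul_eq_one (a := c.2)]
  rfl

end ROOTx

open ROOTx in
theorem s_ROOT (hAXIS : S_AXIS) (hMALG : S_MALG) : S_ROOT := by
  intro A w hw
  obtain ⟨c, l, hc⟩ := hAXIS _ _ _ (D A) (tree A) () w fun ⟨_, e, he⟩ => hw (by
    have : e⁻¹ * w * e = 1 := he
    rwa [mul_assoc, inv_mul_eq_one, right_eq_mul] at this)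
  let S : AddSubgroup ℤ :=
    { carrier := {d | ∃ g, ∀ i, c (i + d) = act g (c i)}
      zero_mem' := ⟨1, fun i => by rw [add_zero, act_one]⟩
      add_mem' := fun ⟨g, hg⟩ ⟨g', hg'⟩ => ⟨g' * g, fun i => by
        rw [← add_assoc, hg', hg, act_act]⟩
      neg_mem' := fun {d} ⟨g, hg⟩ => ⟨g⁻¹, fun i => by
        rw [← neg_add_cancel_right i d, hg, act_act, inv_mul_cancel, act_one,
          neg_add_cancel_right]⟩ }
  obtain ⟨a, ha⟩ := Int.subgroup_cyclic S
  have hS : ∀ d, d ∈ S ↔ (a.natAbs : ℤ) ∣ d := fun d => by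
    rw [ha, ← AddSubgroup.zmultiples_eq_closure, Int.mem_zmultiples_iff, Int.natAbs_dvd]
  obtain ⟨y, hy⟩ := (hS _).2 dvd_rfl
  have h0 : 0 < a.natAbs := Nat.pos_of_dvd_of_pos
    (Int.natCast_dvd_natCast.1 ((hS l).1 ⟨w, hc.per⟩)) hc.pos
  have hA : (D A).Ax y c a.natAbs := ⟨h0, hc.lk, hc.nb, hy⟩
  have key : ∀ g d, (∀ i, c (i + d) = act g (c i)) → g ∈ Subgroup.zpowers y := fun g d h => by
    obtain ⟨m, rfl⟩ := (hS d).1 ⟨g, h⟩
    exact ⟨m, mul_right_cancel (congrArg Prod.snd ((hA.zper 0 m).symm.trans (h 0)))⟩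
  obtain ⟨m, hm⟩ := key w l hc.per
  have pos : ∀ (g : FreeGroup A) (i : ℕ) (j : ℤ), 0 < i → g * y ^ i * g⁻¹ = y ^ j →
      g ∈ Subgroup.zpowers y := fun g i j hi h => by
    have hj : j ≠ 0 := by
      rintro rfl
      have : y = 1 := by simpa [hi.ne'] using h
      exact hw (by simpa [this] using hm.symm)
    obtain ⟨b, rfl | rfl⟩ := Int.eq_nat_or_neg j
    · obtain ⟨d, hd⟩ := hMALG _ _ _ _ (tree A) _ _ _ _ _ _ hA hA g i b hi (by omega)
        (h.trans (zpow_natCast _ _))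
      refine (inv_mem_iff (x := g)).1 (key _ d fun i => ?_)
      rw [same.1 (hd i), act_act, inv_mul_cancel, act_one]
    · obtain ⟨d, hd⟩ := hMALG _ _ _ _ (tree A) _ _ _ _ _ _ hA hA.rev g i b hi (by omega) (by
        rw [inv_pow, ← conj_inv, h, zpow_neg, inv_inv, zpow_natCast])
      obtain ⟨e, rfl | rfl⟩ := Int.even_or_odd' d
      · have := (hd (-e)).1
        rw [show -(-e + 2 * e) = -e by ring] at this
        exact absurd this.symm (bar_ne _)
      · have h1 := same.1 (hd (-(e + 1) + 1))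
        rw [show -(-(e + 1) + 1 + (2 * e + 1)) = -(e + 1) by ring] at h1
        have h2 := Subgroup.mem_bot.1 (hc.lk (-(e + 1))).2
        rw [h1, inv_mul_eq_one] at h2
        exact (right_eq_mul.1 h2 : g = 1) ▸ one_mem _
  refine ⟨y, m, hm.symm, fun g i j hi h => ?_⟩
  obtain ⟨b, rfl | rfl⟩ := Int.eq_nat_or_neg i
  · exact pos g b j (by omega) (by rwa [zpow_natCast] at h)
  · exact pos g b (-j) (by omega) (by rw [zpow_neg, ← h, zpow_neg, conj_inv, inv_inv, zpow_natCast])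

end Pool.Agent.P.MP_67c9d4_al.FC
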