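import Pool.Agent.P.MP_67c9d4_al.FC.Iface

/-! Killing finitely many hyperbolic elements while an elliptic element survives. -/

namespace Pool.Agent.P.MP_67c9d4_al.FC

open Equiv Wr Multiplicative TD

namespace TO2x

variable {H X ι : Type} [Group H] [Fintype ι]

/-- The values at `x` of the elements of `A` that fix `x`. -/
def vals (Ψ : H →* Wr X (Multiplicative (ι → ℤ))) (A : Subgroup H) (x : X) :
    AddSubgroup (ι → ℤ) :=
  Subgroup.toAddSubgroup' ((A.subgroupOf (stb Ψ x)).map (stH Ψ x))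

omit [Fintype ι] in
lemma mem_vals {Ψ : H →* Wr X (Multiplicative (ι → ℤ))} {A : Subgroup H} {x : X} {u : ι → ℤ} :
    u ∈ vals Ψ A x ↔ ∃ a ∈ A, (Ψ a).p x = x ∧ ((Ψ a).c x).toAdd = u := by
  rw [vals, Subgroup.mem_toAddSubgroup', Subgroup.mem_map]
  constructor
  · rintro ⟨a, ha, h⟩
    refine ⟨a, Subgroup.mem_subgroupOf.1 ha, mem_stb.1 a.2, ?_⟩
    rw [stH_apply] at h
    rw [h, toAdd_ofAdd]
  · rintro ⟨a, ha, h, e⟩
    refine ⟨⟨a, mem_stb.2 h⟩, Subgroup.mem_subgroupOf.2 ha, ?_⟩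
    rw [stH_apply, ← e, ofAdd_toAdd]

/-- The annihilator. -/
def ann (U : AddSubgroup (ι → ℤ)) : AddSubgroup (ι → ℤ) where
  carrier := {l | ∀ u ∈ U, l ⬝ᵥ u = 0}
  add_mem' {a b} ha hb u hu := by rw [add_dotProduct, ha u hu, hb u hu, add_zero]
  zero_mem' u _ := zero_dotProduct u
  neg_mem' {a} ha u hu := by rw [neg_dotProduct, ha u hu, neg_zero]

/-- The pairing with a vector. -/
def dot (l : ι → ℤ) : Multiplicative (ι → ℤ) →* MZ :=
  MonoidHom.mk' (fun u => ofAdd (l ⬝ᵥ u.toAdd)) fun a b => by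
    rw [toAdd_mul, dotProduct_add, ofAdd_add]

lemma dot_apply (l : ι → ℤ) (u : Multiplicative (ι → ℤ)) : dot l u = ofAdd (l ⬝ᵥ u.toAdd) := rfl

omit [Fintype ι] in
lemma kill {Ψ : H →* Wr X (Multiplicative (ι → ℤ))} {x : X} {K B : Subgroup H} {f : K →* MZ}
    {i : ι} (hi : ∀ h, (Ψ h).p x = x → ∃ hK : h ∈ K, ((Ψ h).c x).toAdd i = (f ⟨h, hK⟩).toAdd)
    (hB : ∀ b : K, (b : H) ∈ B → f b = 1) {u : ι → ℤ} {m : ℤ} (hm : m ≠ 0)
    (hu : m • u ∈ vals Ψ B x) : u i = 0 := by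
  obtain ⟨b, hb, h, e⟩ := mem_vals.1 hu
  obtain ⟨hK, e'⟩ := hi b h
  rw [hB ⟨b, hK⟩ hb, e, toAdd_one, Pi.smul_apply, smul_eq_mul] at e'
  exact (mul_eq_zero.1 e').resolve_left hm

end TO2x

open TO2x in
theorem s_TO2 (hAXIS : S_AXIS) (hUNIF : S_UNIF) (hLA2 : S_LA2) (hBALL : S_BALL)
    (hKILL : S_KILL) : S_TO2 := by
  classical
  intro H V E _ D χ hT hSp hInd Y hY hne g hg hχ
  haveI : Finite Y := hY.to_subtype
  obtain ⟨v, -⟩ := id hg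
  choose c l hc using fun j : Y => hAXIS H V E D hT v j (hne j j.2)
  obtain ⟨L, hL⟩ := hInd
  choose i0 _ i1 _ i2 _ h3 using fun j : Y => hL _ ((hc j).seg 0 L)
  choose K hK f₁ f₂ h1 h2 h0 using h3
  obtain ⟨X, ι, _, ⟨x₀⟩, _, Ψ, i₀, hi₀, hΨ⟩ := hUNIF H (Y × Bool) (fun p => K p.1)
    (fun p => bif p.2 then f₁ p.1 else f₂ p.1) χ (fun p => hK p.1)
  let idx : Y → Fin 3 → ℤ := fun j => ![0 + (i0 j : ℤ), 0 + (i1 j : ℤ), 0 + (i2 j : ℤ)]
  let U : Y × X → Fin 3 → AddSubgroup (ι → ℤ) := fun q e => vals Ψ (D.St (c q.1 (idx q.1 e))) q.2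
  have hU : ∀ q (u : ι → ℤ), (∀ e, ∃ m : ℤ, m ≠ 0 ∧ m • u ∈ U q e) → u = 0 := by
    rintro ⟨j, x⟩ u hu
    obtain ⟨m₀, n₀, u₀⟩ := hu 0
    obtain ⟨m₁, n₁, u₁⟩ := hu 1
    obtain ⟨m₂, n₂, u₂⟩ := hu 2
    obtain ⟨k₁, e₁⟩ := hΨ (j, true) x
    obtain ⟨k₂, e₂⟩ := hΨ (j, false) x
    have z₁ : u k₁ = 0 := kill e₁ (h1 j) n₁ u₁
    have z₂ : u k₂ = 0 := kill e₂ (h2 j) n₂ u₂
    obtain ⟨a, ha, h, e⟩ := mem_vals.1 u₀
    obtain ⟨hk, d₁⟩ := e₁ a h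
    obtain ⟨hk', d₂⟩ := e₂ a h
    rw [e, Pi.smul_apply, z₁, smul_zero] at d₁
    rw [e, Pi.smul_apply, z₂, smul_zero] at d₂
    have hp : a ^ 1 ∈ K j := by rwa [pow_one]
    have ea : (⟨a ^ 1, hp⟩ : K j) = ⟨a, hk⟩ := Subtype.ext (pow_one a)
    have a1 : a = 1 := h0 j a ha 1 hp one_pos
      (by rw [ea]; exact toAdd_eq_zero.1 d₁.symm) (by rw [ea]; exact toAdd_eq_zero.1 d₂.symm)
    rw [a1, map_one, one_c, toAdd_one] at e
    exact (smul_eq_zero.1 e.symm).resolve_left n₀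
  obtain ⟨F, _, val, f₀, hf₀, hS⟩ := hBALL ι (Y × X) (fun q e => ann (U q e))
    (fun q => hLA2 ι (U q) (hU q)) (Pi.single i₀ 1)
  obtain ⟨X', _, σ, π, -, hN, hE⟩ := hKILL H V E X F Y D (pHom.comp Ψ)
    (fun f => (push (dot (val f))).comp Ψ) (fun j => j) c l hT hSp v (fun _ _ => rfl) hc
    (fun j x S hS' n _ => by
      have h0 := hS (j, x) S fun e f f' hf => hS' (idx j e) f f' fun a ha hx => by
        have := hf _ (mem_vals.2 ⟨a, ha, hx, rfl⟩)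
        rw [sub_dotProduct, sub_eq_zero] at this
        simp only [MonoidHom.comp_apply, push_c, dot_apply]
        exact congrArg ofAdd this
      simp only [MonoidHom.comp_apply, push_c, dot_apply, toAdd_ofAdd]
      rw [← sum_dotProduct, h0, zero_dotProduct]) x₀
  refine ⟨X', inferInstance, σ, fun y hy => hN ⟨y, hy⟩, ?_⟩
  obtain ⟨x, -, hx⟩ := (hE g hg).2 f₀
  have hp : (σ (g ^ Nat.card (Perm X'))).p x = x := by rw [per_card σ g]; rfl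
  refine ⟨x, Nat.card (Perm X'), hp, ?_⟩
  rw [hx _ hp, MonoidHom.comp_apply, push_c, dot_apply, hf₀, single_dotProduct, one_mul, hi₀,
    ofAdd_toAdd, map_pow]
  intro h
  have := congrArg toAdd h
  rw [toAdd_pow, toAdd_one, nsmul_eq_mul, mul_eq_zero] at this
  rcases this with h | h
  · exact (Nat.card_pos (α := Perm X')).ne' (by exact_mod_cast h)
  · exact hχ (toAdd_eq_zero.1 h)

end Pool.Agent.P.MP_67c9d4_al.FC
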